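import Pool.Agent.P.MP_0f25e6_al.Ops

/-!
The flux identity across a finite cut, and induction of injectivity from a subgroup.
-/

set_option autoImplicit false

open scoped InnerProductSpace ENNReal Topology
open Filter

noncomputable section

namespace Pool.Agent.P.MP_0f25e6_al

variable {G : Type*} [Group G]

/-- The commutator of a convolution with a pair of restrictions. -/
def cross (α : G →₀ ℂ) (A B : Set G) : L2 G →L[ℂ] L2 G := conv α * res B - res A * conv α

open Classical in
theorem cross_delta (α : G →₀ ℂ) (A B : Set G) (x y : G) :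
    cross α A B (delta x) y =
      α (y * x⁻¹) * ((if x ∈ B then 1 else 0) - (if y ∈ A then 1 else 0)) := by
  have h1 : res B (delta x) = (if x ∈ B then (1 : ℂ) else 0) • delta x := by
    ext g
    rw [res_apply, lp.coeFn_smul, Pi.smul_apply, delta_apply]
    by_cases hg : g = x
    · subst hg; simp
    · simp [hg]
  have h2 : cross α A B (delta x) y = conv α (res B (delta x)) y - res A (conv α (delta x)) y :=
    rfl
  rw [h2, h1, map_smul, lp.coeFn_smul, Pi.smul_apply, res_apply, conv_delta]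
  split_ifs <;> simp

theorem cross_delta_ne_zero {α : G →₀ ℂ} {A B : Set G} {x y : G}
    (h : cross α A B (delta x) y ≠ 0) : y * x⁻¹ ∈ α.support ∧ ¬ (x ∈ B ↔ y ∈ A) := by
  classical
  rw [cross_delta] at h
  refine ⟨Finsupp.mem_support_iff.2 (left_ne_zero_of_mul h), fun hiff => ?_⟩
  apply right_ne_zero_of_mul h
  by_cases hx : x ∈ B
  · simp [hx, hiff.1 hx]
  · simp [hx, mt hiff.2 hx]

theorem inner_cross_eq_zero (α : G →₀ ℂ) (A B : Set G) {ξ η : L2 G} (hξ : conv α ξ = 0)
    (hη : (star (conv α)) η = 0) : ⟪η, cross α A B ξ⟫_ℂ = 0 := by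
  have h2 : cross α A B ξ = conv α (res B ξ) - res A (conv α ξ) := rfl
  rw [h2, hξ, map_zero, sub_zero, ← ContinuousLinearMap.adjoint_inner_left,
    ← ContinuousLinearMap.star_eq_adjoint, hη, inner_zero_left]

/-- If convolution by `α` is not injective, and the finitely supported functions produced by a
finite cut are injective, then nothing crosses the cut. -/
theorem flux_step (α : G →₀ ℂ) (hα : ¬ Inj α) (A B : Set G)
    (hfin : Set.Finite {x : G | ∃ s ∈ α.support, ¬ (x ∈ B ↔ s * x ∈ A)})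
    (hβ : ∀ β : G →₀ ℂ, β ≠ 0 →
      (∀ z ∈ β.support, ∃ s ∈ α.support, ¬ (z⁻¹ ∈ B ↔ s * z⁻¹ ∈ A)) → Inj β)
    (hγ : ∀ (x : G) (γ : G →₀ ℂ), γ ≠ 0 →
      (∀ y ∈ γ.support, y * x⁻¹ ∈ α.support ∧ ¬ (x ∈ B ↔ y ∈ A)) → Inj γ) :
    ∀ s ∈ α.support, ∀ x : G, (x ∈ B ↔ s * x ∈ A) := by
  classical
  obtain ⟨ξ₀, hξ₀, hξ₀ne⟩ : ∃ ξ : L2 G, conv α ξ = 0 ∧ ξ ≠ 0 := by
    by_contra h
    push Not at h
    exact hα h
  obtain ⟨η₀, hη₀, hη₀ne⟩ : ∃ η : L2 G, (star (conv α)) η = 0 ∧ η ≠ 0 := by
    by_contra h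
    push Not at h
    exact hα (inj_of_star_inj (conv_equivariant α) h)
  set C := cross α A B with hC
  set X : Finset G := hfin.toFinset with hX
  have hCX : ∀ x, x ∉ X → C (delta x) = 0 := by
    intro x hx
    ext y
    by_contra hne
    have := cross_delta_ne_zero hne
    apply hx
    rw [hX, Set.Finite.mem_toFinset]
    exact ⟨y * x⁻¹, this.1, by simpa using this.2⟩
  -- first step: the columns of the commutator are orthogonal to the cokernel
  have step1 : ∀ η : L2 G, (star (conv α)) η = 0 → ∀ x, ⟪η, C (delta x)⟫_ℂ = 0 := by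
    intro η hη
    let β : G →₀ ℂ := Finsupp.onFinset (X.image (·⁻¹)) (fun z => ⟪η, C (delta z⁻¹)⟫_ℂ) (by
      intro z hz
      rw [Finset.mem_image]
      refine ⟨z⁻¹, ?_, inv_inv z⟩
      by_contra hx
      exact hz (by rw [hCX _ hx, inner_zero_right]))
    have hβapp : ∀ z, β z = ⟪η, C (delta z⁻¹)⟫_ℂ := fun z => rfl
    have hone : ∀ ξ : L2 G, conv α ξ = 0 → conv β ξ 1 = 0 := by
      intro ξ hξ
      have h1 := ((hasSum_delta ξ).mapL C).mapL (innerSL ℂ η)
      simp only [map_smul, innerSL_apply_apply, smul_eq_mul] at h1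
      rw [inner_cross_eq_zero α A B hξ hη, ← (Equiv.inv G).hasSum_iff] at h1
      have h2 : HasSum (fun z => β z * ξ (z⁻¹ * 1)) (∑ z ∈ β.support, β z * ξ (z⁻¹ * 1)) :=
        hasSum_sum_of_ne_finset_zero (fun z hz => by
          rw [Finsupp.notMem_support_iff.1 hz, zero_mul])
      rw [conv_apply]
      refine h2.unique ?_
      have h3 : (fun z => β z * ξ (z⁻¹ * 1)) =
          (fun b => ξ b * ⟪η, C (delta b)⟫_ℂ) ∘ (Equiv.inv G) := by
        funext z
        simp [hβapp, mul_comm]
      rw [h3]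
      exact h1
    have hβ0 : β = 0 := by
      by_contra hne
      refine hξ₀ne (hβ β hne ?_ ξ₀ ?_)
      · intro z hz
        have hz' : z⁻¹ ∈ X := by
          by_contra hx
          exact Finsupp.mem_support_iff.1 hz (by rw [hβapp, hCX _ hx, inner_zero_right])
        rwa [hX, Set.Finite.mem_toFinset] at hz'
      · ext g
        have h1 := hone (rt g ξ₀) (by rw [← (conv_equivariant α).apply, hξ₀, map_zero])
        rw [← (conv_equivariant β).apply] at h1
        simpa using h1
    intro x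
    have := hβapp x⁻¹
    rw [hβ0, inv_inv] at this
    exact this.symm
  -- second step: the columns vanish
  have step2 : ∀ x, C (delta x) = 0 := by
    intro x
    let γ : G →₀ ℂ := Finsupp.onFinset (α.support.image (· * x)) (fun y => C (delta x) y) (by
      intro y hy
      rw [Finset.mem_image]
      exact ⟨y * x⁻¹, (cross_delta_ne_zero hy).1, by simp⟩)
    have hγapp : ∀ y, γ y = C (delta x) y := fun y => rfl
    have hγ1 : conv γ (delta 1) = C (delta x) := by
      ext y
      rw [conv_delta, inv_one, mul_one, hγapp]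
    have hγ0 : γ = 0 := by
      by_contra hne
      have hinj := hγ x γ hne (fun y hy => cross_delta_ne_zero (Finsupp.mem_support_iff.1 hy))
      refine hη₀ne (star_inj_of_inj (conv_equivariant γ) hinj η₀ ?_)
      ext g
      have h1 : ⟪η₀, conv γ (delta g)⟫_ℂ = 0 := by
        rw [← rt_delta_one g, ← (conv_equivariant γ).apply, ← inner_rt_left, hγ1]
        apply step1
        rw [← (conv_equivariant α).star.apply, hη₀, map_zero]
      rw [← inner_delta_left g, ContinuousLinearMap.star_eq_adjoint,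
        ContinuousLinearMap.adjoint_inner_right, ← inner_conj_symm, h1]
      simp
    ext y
    rw [← hγapp, hγ0]
    simp
  intro s hs x
  by_contra hne
  have h1 : C (delta x) (s * x) = 0 := by rw [step2 x]; simp
  rw [hC, cross_delta, mul_inv_cancel_right] at h1
  have h2 := (mul_eq_zero.1 h1).resolve_left (Finsupp.mem_support_iff.1 hs)
  apply hne
  by_cases hx : x ∈ B <;> by_cases hy : s * x ∈ A <;> simp_all

/-- Injectivity on `G` from the property for a subgroup containing a translate of the support. -/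
theorem inj_of_subgroup {H : Type*} [Group H] (ι : H →* G) (hι : Function.Injective ι)
    (hH : ∀ (α : H →₀ ℂ) (f : H → ℂ), α ≠ 0 → Memℓp f 2 → f ≠ 0 →
      ∃ g : H, ∑ k ∈ α.support, α k * f (k⁻¹ * g) ≠ 0)
    (α : G →₀ ℂ) (hα : α ≠ 0) (g₀ : G) (hs : ∀ s ∈ α.support, g₀⁻¹ * s ∈ ι.range) : Inj α := by
  classical
  intro ξ hξ
  by_contra hne
  obtain ⟨x₀, hx₀⟩ : ∃ x, ξ x ≠ 0 := by
    by_contra h
    push Not at h
    exact hne (lp.ext (funext h))
  have hinj : Function.Injective (fun h : H => g₀ * ι h) := fun a b hab =>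
    hι (mul_left_cancel hab)
  let α' : H →₀ ℂ := Finsupp.comapDomain (fun h : H => g₀ * ι h) α hinj.injOn
  have hα'app : ∀ h, α' h = α (g₀ * ι h) := fun h => rfl
  have hα' : α' ≠ 0 := by
    obtain ⟨s, hs'⟩ := Finsupp.support_nonempty_iff.2 hα
    obtain ⟨h, hh⟩ := hs s hs'
    intro h0
    have : α' h = 0 := by rw [h0]; rfl
    rw [hα'app, hh, mul_inv_cancel_left] at this
    exact Finsupp.mem_support_iff.1 hs' this
  have hf : Memℓp (fun h : H => ξ (ι h * x₀)) 2 := by
    rw [memℓp_two_iff]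
    exact (hasSum_norm_sq ξ).summable.comp_injective (i := fun h : H => ι h * x₀)
      (fun a b hab => hι (mul_right_cancel hab))
  obtain ⟨h, hh⟩ := hH α' (fun h : H => ξ (ι h * x₀)) hα' hf (by
    intro h0
    apply hx₀
    simpa using congrFun h0 1)
  apply hh
  have h1 : conv α ξ (g₀ * ι h * x₀) = 0 := by rw [hξ]; simp
  rw [conv_apply] at h1
  rw [← h1]
  refine Finset.sum_bij (fun k _ => g₀ * ι k) ?_ ?_ ?_ ?_
  · intro k hk
    rw [Finsupp.mem_support_iff] at hk ⊢
    rwa [hα'app] at hk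
  · intro a _ b _ hab
    exact hinj hab
  · intro s hs'
    obtain ⟨k, hk⟩ := hs s hs'
    have : g₀ * ι k = s := by rw [hk, mul_inv_cancel_left]
    refine ⟨k, ?_, this⟩
    rw [Finsupp.mem_support_iff, hα'app, this]
    exact Finsupp.mem_support_iff.1 hs'
  · intro k _
    rw [hα'app]
    congr 2
    simp [mul_assoc]

/-- A function with one-point support acts injectively. -/
theorem inj_of_subsingleton_support (α : G →₀ ℂ) (hα : α ≠ 0)
    (hs : ∀ s ∈ α.support, ∀ t ∈ α.support, s = t) : Inj α := by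
  obtain ⟨s, hs'⟩ := Finsupp.support_nonempty_iff.2 hα
  intro ξ hξ
  ext x
  have h1 : conv α ξ (s * x) = 0 := by rw [hξ]; simp
  rw [conv_apply, Finset.sum_eq_single s (fun t ht hne => absurd (hs t ht s hs') hne)
    (fun h => absurd hs' h), inv_mul_cancel_left] at h1
  simpa using (mul_eq_zero.1 h1).resolve_left (Finsupp.mem_support_iff.1 hs')

/-- The property in terms of functions follows from injectivity of all convolutions. -/
theorem azd_of_inj (h : ∀ α : G →₀ ℂ, α ≠ 0 → Inj α) (α : G →₀ ℂ) (f : G → ℂ) (hα : α ≠ 0)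
    (hf : Memℓp f 2) (hf0 : f ≠ 0) : ∃ g : G, ∑ k ∈ α.support, α k * f (k⁻¹ * g) ≠ 0 := by
  by_contra hne
  push Not at hne
  apply hf0
  have := h α hα ⟨f, hf⟩ (by
    ext g
    rw [conv_apply]
    exact hne g)
  exact congrArg (fun v : L2 G => (v : G → ℂ)) this

end Pool.Agent.P.MP_0f25e6_al
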