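import Pool.Agent.P.MP_0f25e6_al.VarTreeCombination

/-!
Not a hand-in: the special case of free products, deduced from the tree theorem through the
Bass-Serre tree. It checks that the hypotheses of the tree theorem have the intended meaning.
-/

set_option autoImplicit false

noncomputable section

namespace Pool.Agent.P.MP_0f25e6_al

open SimpleGraph Monoid Pool.Agent.P.MP_0f25e6_al.VarTreeCombination

theorem isAcyclic_of_hasCuts {V : Type*} {T : SimpleGraph V} (h : HasCuts T) : T.IsAcyclic := by
  rw [isAcyclic_iff_forall_adj_isBridge]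
  intro u w huw
  obtain ⟨side, hside⟩ := h u w huw
  rw [isBridge_iff]
  rintro ⟨p⟩
  have key : ∀ {a b : V}, (T.deleteEdges {s(u, w)}).Walk a b → (side a ↔ side b) := by
    intro a b q
    induction q with
    | nil => rfl
    | cons hab _ ih =>
      rw [deleteEdges_adj] at hab
      exact (hside.2.2 _ _ hab.1 (by simpa using hab.2)).trans ih
  exact hside.2.1 ((key p).2 hside.1)

theorem AnalyticZD.of_injective {H K : Type*} [Group H] [Group K] (f : K →* H)
    (hf : Function.Injective f) (hH : AnalyticZD H) : AnalyticZD K := by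
  classical
  refine azd_of_inj (fun α hα ξ hξ => ?_)
  by_contra hne
  obtain ⟨x₀, hx₀⟩ : ∃ x, ξ x ≠ 0 := by
    by_contra h
    push Not at h
    exact hne (lp.ext (funext h))
  have hsum : Memℓp (Function.extend f ξ 0) 2 := by
    rw [memℓp_two_iff, ← hf.summable_iff]
    · convert (hasSum_norm_sq ξ).summable using 1
      funext k
      simp [hf.extend_apply]
    · intro x hx
      rw [Function.extend_apply' _ _ _ (by simpa using hx)]
      simp
  obtain ⟨g, hg⟩ := hH (Finsupp.mapDomain f α) (Function.extend f ξ 0)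
    (fun h0 => hα (Finsupp.mapDomain_injective hf (by simpa using h0))) hsum
    (fun h0 => hx₀ (by simpa [hf.extend_apply] using congrFun h0 (f x₀)))
  apply hg
  rw [Finsupp.mapDomain_support_of_injective hf, Finset.sum_image (fun a _ b _ h => hf h)]
  by_cases hgr : ∃ k, f k = g
  · obtain ⟨k, rfl⟩ := hgr
    have h1 : conv α ξ k = 0 := by rw [hξ]; simp
    rw [conv_apply] at h1
    rw [← h1]
    refine Finset.sum_congr rfl (fun s _ => ?_)
    rw [Finsupp.mapDomain_apply hf, ← map_inv, ← map_mul, hf.extend_apply]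
  · refine Finset.sum_eq_zero (fun s _ => ?_)
    rw [Function.extend_apply', Pi.zero_apply, mul_zero]
    rintro ⟨k, hk⟩
    exact hgr ⟨s * k, by rw [map_mul, hk, mul_inv_cancel_left]⟩

variable {ι : Type*} (M : ι → Type*) [∀ i, Group (M i)]

/-- Vertices of the Bass-Serre tree. -/
abbrev BSV : Type _ := CoprodI M ⊕ (Σ i : ι, CoprodI M ⧸ (CoprodI.of : M i →* CoprodI M).range)

/-- The Bass-Serre tree of a free product. -/
def bsTree : SimpleGraph (BSV M) where
  Adj
    | Sum.inl g, Sum.inr q => q.2 = QuotientGroup.mk g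
    | Sum.inr q, Sum.inl g => q.2 = QuotientGroup.mk g
    | _, _ => False
  symm := ⟨by rintro (a | a) (b | b) h <;> exact h⟩
  loopless := ⟨by rintro (a | a) h <;> exact h⟩

variable {M}

theorem bsTree_adj_smul (g : CoprodI M) (u v : BSV M) (h : (bsTree M).Adj u v) :
    (bsTree M).Adj (g • u) (g • v) := by
  rcases u with a | ⟨i, a⟩ <;> rcases v with b | ⟨j, b⟩
  · exact h.elim
  · change g • b = QuotientGroup.mk (g * a)
    rw [show b = QuotientGroup.mk a from h]; rfl
  · change g • a = QuotientGroup.mk (g * b)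
    rw [show a = QuotientGroup.mk b from h]; rfl
  · exact h.elim

open Classical in
/-- A shear of `G × ZMod 2`. -/
def shear (G : Type*) [Group G] : Equiv.Perm (G × ZMod 2) where
  toFun z := (z.1, z.2 + if z.1 = 1 then 1 else 0)
  invFun z := (z.1, z.2 - if z.1 = 1 then 1 else 0)
  left_inv z := by simp
  right_inv z := by simp

/-- Left multiplication on the first coordinate. -/
def leftPerm (G : Type*) [Group G] : G →* Equiv.Perm (G × ZMod 2) where
  toFun g := Equiv.prodCongr (Equiv.mulLeft g) (Equiv.refl _)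
  map_one' := by ext z <;> simp
  map_mul' g h := by ext z <;> simp [mul_assoc]

open Classical in
/-- The twisted action used to define the two sides of the basic edge of type `i`. -/
def twist (i : ι) : CoprodI M →* Equiv.Perm (CoprodI M × ZMod 2) :=
  CoprodI.lift (fun j => if j = i then
    (MulAut.conj (shear (CoprodI M))).toMonoidHom.comp ((leftPerm _).comp CoprodI.of)
    else (leftPerm _).comp CoprodI.of)

theorem twist_fst (i : ι) (g : CoprodI M) (z : CoprodI M × ZMod 2) :
    (twist i g z).1 = g * z.1 := by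
  induction g using CoprodI.induction_left with
  | one => simp
  | mul m x ih =>
    rw [map_mul, Equiv.Perm.mul_apply, mul_assoc, ← ih, twist, CoprodI.lift_of]
    split_ifs <;> simp [shear, leftPerm, Equiv.Perm.mul_apply, Equiv.Perm.inv_def]

/-- The side of `g`. -/
def sideFn (i : ι) (g : CoprodI M) : ZMod 2 := (twist i g (1, 0)).2

theorem sideFn_of_ne {i j : ι} (h : j ≠ i) (m : M j) (g : CoprodI M) :
    sideFn i (CoprodI.of m * g) = sideFn i g := by
  rw [sideFn, map_mul, Equiv.Perm.mul_apply, sideFn]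
  generalize twist i g (1, 0) = z
  rw [twist, CoprodI.lift_of, if_neg h]
  simp [leftPerm]

open Classical in
theorem sideFn_of_eq (i : ι) (m : M i) (g : CoprodI M) :
    sideFn i (CoprodI.of m * g) = sideFn i g - (if g = 1 then 1 else 0) +
      (if CoprodI.of m * g = 1 then 1 else 0) := by
  have h1 := twist_fst i g (1, 0)
  rw [sideFn, map_mul, Equiv.Perm.mul_apply, sideFn]
  generalize twist i g (1, 0) = z at h1 ⊢
  rw [twist, CoprodI.lift_of, if_pos rfl]
  simp only [mul_one] at h1
  simp [shear, leftPerm, Equiv.Perm.mul_apply, Equiv.Perm.inv_def, h1]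

theorem bsTree_cut_one (i : ι) : ∃ side, IsCut (bsTree M) (Sum.inl 1)
    (Sum.inr ⟨i, QuotientGroup.mk 1⟩) side := by
  classical
  let side : BSV M → Prop := fun z => match z with
    | Sum.inl g => sideFn i g⁻¹ ≠ 0
    | Sum.inr q => q = ⟨i, QuotientGroup.mk 1⟩ ∨
        ∃ g : CoprodI M, q.2 = QuotientGroup.mk g ∧ sideFn i g⁻¹ ≠ 0
  have hone : sideFn (M := M) i 1 = 0 := by simp [sideFn]
  have aux : ∀ (g : CoprodI M) (j : ι),
      s((Sum.inl g : BSV M), Sum.inr ⟨j, QuotientGroup.mk g⟩) ≠
        s(Sum.inl 1, Sum.inr ⟨i, QuotientGroup.mk 1⟩) →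
      (side (Sum.inl g) ↔ side (Sum.inr ⟨j, QuotientGroup.mk g⟩)) := by
    intro g j hne
    refine ⟨fun h => Or.inr ⟨g, rfl, h⟩, ?_⟩
    by_cases hbase : (⟨j, QuotientGroup.mk g⟩ :
        Σ i : ι, CoprodI M ⧸ (CoprodI.of : M i →* CoprodI M).range) = ⟨i, QuotientGroup.mk 1⟩
    · intro _
      obtain ⟨rfl, h2⟩ := Sigma.mk.inj_iff.1 hbase
      obtain ⟨m, hm⟩ := QuotientGroup.eq.1 (eq_of_heq h2)
      have hg : g ≠ 1 := by
        rintro rfl
        exact hne rfl
      have h3 := sideFn_of_eq j m 1
      rw [hm, mul_one, mul_one, hone, if_pos rfl, if_neg (by simpa using hg)] at h3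
      change sideFn j g⁻¹ ≠ 0
      rw [h3]
      decide
    · rintro (h | ⟨g', hg', h⟩)
      · exact absurd h hbase
      · obtain ⟨m, hm⟩ := QuotientGroup.eq.1 hg'
        have hgg : g⁻¹ = CoprodI.of m * g'⁻¹ := by rw [hm]; group
        change sideFn i g⁻¹ ≠ 0
        by_cases hji : j = i
        · subst hji
          have h1 : g'⁻¹ ≠ 1 := by
            intro h1
            rw [h1, hone] at h
            exact h rfl
          have h2 : g⁻¹ ≠ 1 := by
            intro h2
            apply hbase
            rw [inv_eq_one.1 h2]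
          rw [hgg, sideFn_of_eq, if_neg h1, ← hgg, if_neg h2]
          simpa using h
        · rwa [hgg, sideFn_of_ne hji]
  refine ⟨side, Or.inl rfl, by simp [side, hone], ?_⟩
  rintro (a | ⟨j, a⟩) (b | ⟨k, b⟩) hab hne
  · exact hab.elim
  · obtain rfl : b = QuotientGroup.mk a := hab
    exact aux a k hne
  · obtain rfl : a = QuotientGroup.mk b := hab
    exact (aux b j (by rwa [Sym2.eq_swap])).symm
  · exact hab.elim

theorem bsTree_hasCuts : HasCuts (bsTree M) := by
  have key : ∀ (g : CoprodI M) (i : ι), ∃ side, IsCut (bsTree M) (Sum.inl g)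
      (Sum.inr ⟨i, QuotientGroup.mk g⟩) side := by
    intro g i
    obtain ⟨side, h1, h2, h3⟩ := bsTree_cut_one (M := M) i
    have e1 : g⁻¹ • (Sum.inl g : BSV M) = Sum.inl 1 := by
      change Sum.inl (g⁻¹ * g) = _
      rw [inv_mul_cancel]
    have e2 : g⁻¹ • (Sum.inr ⟨i, QuotientGroup.mk g⟩ : BSV M) =
        Sum.inr ⟨i, QuotientGroup.mk 1⟩ := by
      change (Sum.inr ⟨i, QuotientGroup.mk (g⁻¹ * g)⟩ : BSV M) = _
      rw [inv_mul_cancel]
    refine ⟨fun z => side (g⁻¹ • z), by simpa only [e2] using h1, by simpa only [e1] using h2, ?_⟩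
    intro x y hxy hne
    refine h3 _ _ (bsTree_adj_smul g⁻¹ x y hxy) (fun he => hne ?_)
    rw [← e1, ← e2] at he
    simpa only [Sym2.eq_iff, smul_left_cancel_iff] using he
  rintro (a | ⟨j, a⟩) (b | ⟨k, b⟩) hab
  · exact hab.elim
  · obtain rfl : b = QuotientGroup.mk a := hab
    exact key a k
  · obtain rfl : a = QuotientGroup.mk b := hab
    obtain ⟨side, hside⟩ := key b j
    exact ⟨_, hside.symm⟩
  · exact hab.elim

theorem bsTree_isTree : (bsTree M).IsTree := by
  refine ⟨?_, isAcyclic_of_hasCuts bsTree_hasCuts⟩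
  have h1 : ∀ g : CoprodI M, (bsTree M).Reachable (Sum.inl 1) (Sum.inl g) := by
    intro g
    induction g using CoprodI.induction_left with
    | one => exact Reachable.refl _
    | @mul i m x ih =>
      obtain ⟨p⟩ := ih
      obtain ⟨q, -⟩ := walk_smul bsTree_adj_smul (CoprodI.of m : CoprodI M) p rfl rfl
      have a1 : (bsTree M).Adj (Sum.inl 1) (Sum.inr ⟨i, QuotientGroup.mk 1⟩) := rfl
      have a2 : (bsTree M).Adj (Sum.inr ⟨i, QuotientGroup.mk 1⟩)
          (Sum.inl (CoprodI.of m * 1)) := QuotientGroup.eq.2 ⟨m, by simp⟩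
      exact a1.reachable.trans (a2.reachable.trans ⟨q⟩)
  have h2 : ∀ v : BSV M, (bsTree M).Reachable (Sum.inl 1) v := by
    rintro (g | ⟨i, q⟩)
    · exact h1 g
    · obtain ⟨g, rfl⟩ := QuotientGroup.mk_surjective q
      have a1 : (bsTree M).Adj (Sum.inl g) (Sum.inr ⟨i, QuotientGroup.mk g⟩) := rfl
      exact (h1 g).trans a1.reachable
  have : Nonempty (BSV M) := ⟨Sum.inl 1⟩
  exact ⟨fun u v => (h2 u).symm.trans (h2 v)⟩

/-- The analytic zero divisor property is closed under free products. -/
theorem analyticZD_coprodI (h : ∀ i, AnalyticZD (M i)) : AnalyticZD (CoprodI M) := by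
  refine result (L := Multiplicative ℤ) (bsTree M) bsTree_isTree bsTree_adj_smul 1 ?_ ?_
  · rintro g - (a | ⟨j, a⟩) (b | ⟨k, b⟩) hab he
    · exact hab.elim
    · rcases Sym2.eq_iff.1 he with ⟨h1, -⟩ | ⟨h1, -⟩
      · exact mul_eq_right.1 (Sum.inl_injective h1)
      · cases h1
    · rcases Sym2.eq_iff.1 he with ⟨-, h1⟩ | ⟨h1, -⟩
      · exact mul_eq_right.1 (Sum.inl_injective h1)
      · cases h1
    · exact hab.elim
  · rintro (g | ⟨i, q⟩)
    · refine azd_of_inj (fun α hα => inj_of_subsingleton_support α hα (fun s _ t _ => ?_))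
      have hs : (s : CoprodI M) = 1 := mul_eq_right.1 (Sum.inl_injective s.2.2)
      have ht : (t : CoprodI M) = 1 := mul_eq_right.1 (Sum.inl_injective t.2.2)
      exact Subtype.ext (hs.trans ht.symm)
    · obtain ⟨g, rfl⟩ := QuotientGroup.mk_surjective q
      let e : M i ≃* (CoprodI.of : M i →* CoprodI M).range :=
        MonoidHom.ofInjective (CoprodI.of_injective i)
      have hmem : ∀ s : ↥((1 : CoprodI M →* Multiplicative ℤ).ker ⊓ MulAction.stabilizer (CoprodI M)
          (Sum.inr ⟨i, QuotientGroup.mk g⟩ : BSV M)),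
          g⁻¹ * s * g ∈ (CoprodI.of : M i →* CoprodI M).range := by
        intro s
        have h1 : (Sum.inr ⟨i, QuotientGroup.mk ((s : CoprodI M) * g)⟩ : BSV M) =
            Sum.inr ⟨i, QuotientGroup.mk g⟩ := s.2.2
        have h2 := eq_of_heq (Sigma.mk.inj_iff.1 (Sum.inr_injective h1)).2
        simpa [mul_assoc] using QuotientGroup.eq.1 h2.symm
      let f : ↥((1 : CoprodI M →* Multiplicative ℤ).ker ⊓ MulAction.stabilizer (CoprodI M)
          (Sum.inr ⟨i, QuotientGroup.mk g⟩ : BSV M)) →* (CoprodI.of : M i →* CoprodI M).range :=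
        { toFun := fun s => ⟨g⁻¹ * s * g, hmem s⟩
          map_one' := by ext; simp
          map_mul' := fun a b => by ext; simp [mul_assoc] }
      refine AnalyticZD.of_injective (e.symm.toMonoidHom.comp f) ?_ (h i)
      refine e.symm.injective.comp (fun a b hab => ?_)
      have := congrArg Subtype.val hab
      exact Subtype.ext (by simpa [f] using this)

end Pool.Agent.P.MP_0f25e6_al
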