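import Pool.Agent.P.MP_0f25e6_al.HNDefs

/-!
Basic facts on pull-backs, projections and supports.
-/

set_option autoImplicit false

open scoped InnerProductSpace ENNReal Topology
open Filter MulAction

noncomputable section

namespace Pool.Agent.P.MP_0f25e6_al.HN

section Basic

variable {X Y Z : Type*}

/-- Adjoint operator. -/
abbrev adj (T : L2 Y →L[ℂ] L2 Z) : L2 Z →L[ℂ] L2 Y := ContinuousLinearMap.adjoint T

theorem inner_adj_left (T : L2 Y →L[ℂ] L2 Z) (u : L2 Z) (v : L2 Y) :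
    ⟪adj T u, v⟫_ℂ = ⟪u, T v⟫_ℂ := ContinuousLinearMap.adjoint_inner_left T v u

theorem inner_adj_right (T : L2 Y →L[ℂ] L2 Z) (v : L2 Y) (u : L2 Z) :
    ⟪v, adj T u⟫_ℂ = ⟪T v, u⟫_ℂ := ContinuousLinearMap.adjoint_inner_right T v u

@[simp] theorem pull_apply (j : Y → Z) (hj : Function.Injective j) (ξ : L2 Z) (y : Y) :
    pull j hj ξ y = ξ (j y) := rfl

theorem inner_push_left (j : Y → Z) (hj : Function.Injective j) (η : L2 Y) (ξ : L2 Z) :
    ⟪push j hj η, ξ⟫_ℂ = ⟪η, pull j hj ξ⟫_ℂ := inner_adj_left _ _ _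

theorem inner_push_right (j : Y → Z) (hj : Function.Injective j) (ξ : L2 Z) (η : L2 Y) :
    ⟪ξ, push j hj η⟫_ℂ = ⟪pull j hj ξ, η⟫_ℂ := inner_adj_right _ _ _

theorem adj_push (j : Y → Z) (hj : Function.Injective j) : adj (push j hj) = pull j hj :=
  ContinuousLinearMap.adjoint_adjoint _

theorem adj_pull (j : Y → Z) (hj : Function.Injective j) : adj (pull j hj) = push j hj := rfl

theorem inner_delta_right (y : Z) (ξ : L2 Z) : ⟪ξ, delta y⟫_ℂ = starRingEnd ℂ (ξ y) := by
  rw [← inner_conj_symm, inner_delta_left]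

theorem delta_self (y : Z) : delta y y = 1 := by simp [delta_apply]

theorem delta_ne {y z : Z} (h : z ≠ y) : delta y z = 0 := by simp [delta_apply, h]

theorem pull_delta_self (j : Y → Z) (hj : Function.Injective j) (y : Y) :
    pull j hj (delta (j y)) = delta y := by
  ext w
  by_cases h : w = y
  · subst h; simp [delta_self]
  · rw [pull_apply, delta_ne h, delta_ne (hj.ne h)]

theorem pull_delta_not (j : Y → Z) (hj : Function.Injective j) {z : Z} (hz : ∀ y, j y ≠ z) :
    pull j hj (delta z) = 0 := by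
  ext w
  rw [pull_apply, delta_ne (hz w)]
  rfl

theorem push_apply_self (j : Y → Z) (hj : Function.Injective j) (η : L2 Y) (y : Y) :
    push j hj η (j y) = η y := by
  rw [← inner_delta_left, inner_push_right, pull_delta_self, inner_delta_left]

theorem push_apply_not (j : Y → Z) (hj : Function.Injective j) (η : L2 Y) {z : Z}
    (hz : ∀ y, j y ≠ z) : push j hj η z = 0 := by
  rw [← inner_delta_left, inner_push_right, pull_delta_not j hj hz, inner_zero_left]

theorem push_delta (j : Y → Z) (hj : Function.Injective j) (y : Y) :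
    push j hj (delta y) = delta (j y) := by
  ext z
  by_cases h : ∃ w, j w = z
  · obtain ⟨w, rfl⟩ := h
    rw [push_apply_self, ← pull_delta_self j hj y, pull_apply]
  · push Not at h
    rw [push_apply_not j hj _ h, delta_ne (h y).symm]

theorem pull_push (j : Y → Z) (hj : Function.Injective j) (η : L2 Y) :
    pull j hj (push j hj η) = η := by
  ext y
  rw [pull_apply, push_apply_self]

theorem push_pull (j : Y → Z) (hj : Function.Injective j) (ξ : L2 Z) :
    push j hj (pull j hj ξ) = res (Set.range j) ξ := by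
  ext z
  by_cases h : ∃ w, j w = z
  · obtain ⟨w, rfl⟩ := h
    rw [push_apply_self, pull_apply, res_apply_of_mem _ (Set.mem_range_self w)]
  · rw [res_apply_of_notMem (A := Set.range j) _ h]
    push Not at h
    rw [push_apply_not j hj _ h]

theorem ext_delta' {E : Type*} [NormedAddCommGroup E] [NormedSpace ℂ E]
    {S T : L2 Y →L[ℂ] E} (h : ∀ g, S (delta g) = T (delta g)) : S = T := by
  ext1 ξ
  have h1 := (hasSum_delta ξ).mapL S
  have h2 := (hasSum_delta ξ).mapL T
  simp only [map_smul, h] at h1 h2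
  exact h1.unique h2

theorem norm_delta (y : Z) : ‖delta y‖ = 1 := by
  have h : ⟪delta y, delta y⟫_ℂ = 1 := by rw [inner_delta_left, delta_self]
  rw [inner_self_eq_norm_sq_to_K] at h
  have h2 : ‖delta y‖ ^ 2 = 1 := by
    apply Complex.ofReal_injective
    push_cast
    exact h
  have := norm_nonneg (delta y)
  nlinarith

theorem enorm_sq_eq (ξ : L2 Z) : ‖ξ‖ₑ ^ 2 = ∑' z, ‖ξ z‖ₑ ^ 2 := by
  have h := hasSum_norm_sq ξ
  have h1 : ∀ x : ℝ, 0 ≤ x → ENNReal.ofReal (x ^ 2) = ENNReal.ofReal x ^ 2 :=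
    fun x hx => ENNReal.ofReal_pow hx 2
  rw [← ofReal_norm, ← h1 _ (norm_nonneg _), ← h.tsum_eq,
    ENNReal.ofReal_tsum_of_nonneg (fun _ => by positivity) h.summable]
  refine tsum_congr (fun z => ?_)
  rw [h1 _ (norm_nonneg _), ofReal_norm]

/-! ### Restrictions and supports -/

theorem mem_supp {S : Set Z} {f : L2 Z} : f ∈ supp S ↔ ∀ z, z ∉ S → f z = 0 := Iff.rfl

theorem res_mem_supp (S : Set Z) (f : L2 Z) : res S f ∈ supp S :=
  fun _ hz => res_apply_of_notMem f hz

theorem res_eq_self {S : Set Z} {f : L2 Z} (h : f ∈ supp S) : res S f = f := by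
  ext z
  by_cases hz : z ∈ S
  · exact res_apply_of_mem f hz
  · rw [res_apply_of_notMem f hz, h z hz]

theorem res_eq_zero {S T : Set Z} {f : L2 Z} (h : f ∈ supp T) (hd : ∀ z ∈ S, z ∉ T) :
    res S f = 0 := by
  ext z
  by_cases hz : z ∈ S
  · rw [res_apply_of_mem f hz, h z (hd z hz)]; rfl
  · rw [res_apply_of_notMem f hz]; rfl

theorem res_res (S T : Set Z) (f : L2 Z) : res S (res T f) = res (S ∩ T) f := by
  classical
  ext z
  simp only [res_apply, Set.mem_inter_iff]
  by_cases h1 : z ∈ S <;> by_cases h2 : z ∈ T <;> simp [h1, h2]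

theorem res_add_res_compl (S : Set Z) (f : L2 Z) : res S f + res Sᶜ f = f := by
  classical
  ext z
  simp only [lp.coeFn_add, Pi.add_apply, res_apply, Set.mem_compl_iff]
  by_cases h1 : z ∈ S <;> simp [h1]

theorem supp_mono {S T : Set Z} (h : S ⊆ T) : supp S ≤ supp T :=
  fun _ hf z hz => hf z (fun hs => hz (h hs))

theorem supp_univ : supp (Set.univ : Set Z) = ⊤ :=
  eq_top_iff.2 (fun _ _ z hz => absurd (Set.mem_univ z) hz)

theorem supp_inter (S T : Set Z) : supp (S ∩ T) = supp S ⊓ supp T := by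
  ext f
  simp only [Submodule.mem_inf, mem_supp, Set.mem_inter_iff, not_and_or]
  constructor
  · intro h
    exact ⟨fun z hz => h z (Or.inl hz), fun z hz => h z (Or.inr hz)⟩
  · rintro ⟨h1, h2⟩ z (hz | hz)
    · exact h1 z hz
    · exact h2 z hz

theorem supp_empty : supp (∅ : Set Z) = ⊥ := by
  refine eq_bot_iff.2 (fun f hf => ?_)
  rw [Submodule.mem_bot]
  ext z
  exact hf z (Set.notMem_empty z)

theorem inner_res_left (S : Set Z) (f g : L2 Z) : ⟪res S f, g⟫_ℂ = ⟪f, res S g⟫_ℂ := by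
  classical
  rw [lp.inner_eq_tsum, lp.inner_eq_tsum]
  refine tsum_congr (fun z => ?_)
  simp only [res_apply]
  split_ifs <;> simp

theorem adj_res (S : Set Z) : adj (res S) = res S := by
  symm
  rw [ContinuousLinearMap.eq_adjoint_iff]
  exact inner_res_left S

theorem inner_eq_zero_of_supp {S T : Set Z} {f g : L2 Z} (hf : f ∈ supp S) (hg : g ∈ supp T)
    (hd : ∀ z ∈ S, z ∉ T) : ⟪f, g⟫_ℂ = 0 := by
  rw [← res_eq_self hf, inner_res_left, res_eq_zero hg hd, inner_zero_right]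

theorem delta_mem_supp {S : Set Z} {z : Z} (hz : z ∈ S) : delta z ∈ supp S :=
  fun _ hw => delta_ne (fun h => hw (h ▸ hz))

theorem cls_supp (S : Set Z) : Cls (supp S) := by
  have : (supp S : Set (L2 Z)) = ⋂ z ∈ Sᶜ, {f | ⟪delta z, f⟫_ℂ = 0} := by
    ext f
    simp only [SetLike.mem_coe, mem_supp, Set.mem_iInter, Set.mem_compl_iff, Set.mem_ofPred_eq,
      inner_delta_left]
  rw [Cls, this]
  refine isClosed_biInter (fun z _ => ?_)
  exact isClosed_eq (continuous_const.inner continuous_id) continuous_const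

theorem hasSum_res (κ : Z → X) (f : L2 Z) : HasSum (fun x => res (κ ⁻¹' {x}) f) f := by
  have h := (hasSum_delta f).tsum_fiberwise κ
  convert h using 2 with x
  have h2 := hasSum_delta (res (κ ⁻¹' {x}) f)
  rw [tsum_subtype (κ ⁻¹' {x}) (fun z => f z • delta z), ← h2.tsum_eq]
  refine tsum_congr (fun z => ?_)
  by_cases hz : z ∈ κ ⁻¹' {x}
  · rw [res_apply_of_mem f hz, Set.indicator_of_mem hz]
  · rw [res_apply_of_notMem f hz, Set.indicator_of_notMem hz, zero_smul]

theorem mem_of_hasSum {I : Type*} {W : Submodule ℂ (L2 Z)} (hW : Cls W) {u : I → L2 Z} {f : L2 Z}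
    (hs : HasSum u f) (h : ∀ i, u i ∈ W) : f ∈ W :=
  hW.mem_of_tendsto hs (Eventually.of_forall (fun _ => W.sum_mem (fun i _ => h i)))

theorem mem_of_res {κ : Z → X} {W : Submodule ℂ (L2 Z)} (hW : Cls W) {f : L2 Z}
    (h : ∀ x, res (κ ⁻¹' {x}) f ∈ W) : f ∈ W :=
  mem_of_hasSum hW (hasSum_res κ f) h

theorem Split.res_preimage {κ : Z → X} {W : Submodule ℂ (L2 Z)} (hs : Split κ W) (hW : Cls W)
    (S : Set X) {f : L2 Z} (hf : f ∈ W) : res (κ ⁻¹' S) f ∈ W := by
  refine mem_of_res (κ := κ) hW (fun x => ?_)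
  rw [res_res]
  by_cases hx : x ∈ S
  · have : κ ⁻¹' {x} ∩ κ ⁻¹' S = κ ⁻¹' {x} := by
      refine Set.inter_eq_left.2 (fun z hz => ?_)
      rw [Set.mem_preimage, Set.mem_singleton_iff] at hz
      rw [Set.mem_preimage, hz]; exact hx
    rw [this]; exact hs x f hf
  · have : κ ⁻¹' {x} ∩ κ ⁻¹' S = ∅ := by
      refine Set.eq_empty_of_forall_notMem (fun z hz => hx ?_)
      have h1 := hz.1
      rw [Set.mem_preimage, Set.mem_singleton_iff] at h1
      rw [← h1]; exact hz.2
    rw [this]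
    have h0 : res (∅ : Set Z) f = 0 := by
      have := res_mem_supp (∅ : Set Z) f
      rwa [supp_empty, Submodule.mem_bot] at this
    rw [h0]; exact W.zero_mem

/-! ### Closures and projections -/

theorem cls_cl (W : Submodule ℂ (L2 Z)) : Cls (cl W) := W.isClosed_topologicalClosure

theorem le_cl (W : Submodule ℂ (L2 Z)) : W ≤ cl W := W.le_topologicalClosure

theorem cl_eq {W : Submodule ℂ (L2 Z)} (h : Cls W) : cl W = W :=
  h.submodule_topologicalClosure_eq

theorem cl_le {W W' : Submodule ℂ (L2 Z)} (h : W ≤ W') (h' : Cls W') : cl W ≤ W' :=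
  W.topologicalClosure_minimal h h'

theorem cl_mono {W W' : Submodule ℂ (L2 Z)} (h : W ≤ W') : cl W ≤ cl W' :=
  Submodule.topologicalClosure_mono h

theorem Cls.inf {W W' : Submodule ℂ (L2 Z)} (h : Cls W) (h' : Cls W') : Cls (W ⊓ W') :=
  h.inter h'

theorem Cls.pre {W : Submodule ℂ (L2 Z)} (h : Cls W) (T : L2 Y →L[ℂ] L2 Z) : Cls (pre T W) :=
  h.preimage T.continuous

theorem cls_bot : Cls (⊥ : Submodule ℂ (L2 Z)) := by
  change IsClosed ({0} : Set (L2 Z))
  exact isClosed_singleton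

theorem cls_top : Cls (⊤ : Submodule ℂ (L2 Z)) := isClosed_univ

theorem cls_orth (W : Submodule ℂ (L2 Z)) : Cls Wᗮ := W.isClosed_orthogonal

theorem cls_iInf {I : Type*} {W : I → Submodule ℂ (L2 Z)} (h : ∀ i, Cls (W i)) :
    Cls (⨅ i, W i) := by
  rw [Cls, Submodule.coe_iInf]
  exact isClosed_iInter h

theorem img_cl_le (T : L2 Y →L[ℂ] L2 Z) (N : Submodule ℂ (L2 Y)) :
    img T (cl N) ≤ cl (img T N) := by
  rw [Submodule.map_le_iff_le_comap]
  refine cl_le ?_ ((cls_cl _).pre T)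
  rw [← Submodule.map_le_iff_le_comap]
  exact le_cl _

theorem cl_img_cl (T : L2 Y →L[ℂ] L2 Z) (N : Submodule ℂ (L2 Y)) :
    cl (img T (cl N)) = cl (img T N) :=
  le_antisymm (cl_le (img_cl_le T N) (cls_cl _)) (cl_mono (Submodule.map_mono (le_cl N)))

theorem orth_cl (W : Submodule ℂ (L2 Z)) : (cl W)ᗮ = Wᗮ := by
  rw [cl, ← Submodule.orthogonal_orthogonal_eq_closure, Submodule.triorthogonal_eq_orthogonal]

theorem mem_cl_of_orth {W : Submodule ℂ (L2 Z)} {f : L2 Z} (h : ∀ g ∈ Wᗮ, ⟪g, f⟫_ℂ = 0) :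
    f ∈ cl W := by
  rw [cl, ← Submodule.orthogonal_orthogonal_eq_closure]
  exact h

theorem proj_mem (W : Submodule ℂ (L2 Z)) (f : L2 Z) : proj W f ∈ cl W :=
  Submodule.starProjection_apply_mem _ f

theorem sub_proj_mem (W : Submodule ℂ (L2 Z)) (f : L2 Z) : f - proj W f ∈ Wᗮ := by
  rw [← orth_cl]
  exact Submodule.sub_starProjection_mem_orthogonal f

theorem proj_eq {W : Submodule ℂ (L2 Z)} {u v : L2 Z} (hv : v ∈ cl W) (ho : u - v ∈ Wᗮ) :
    proj W u = v :=
  Submodule.eq_starProjection_of_mem_orthogonal hv (by rwa [orth_cl])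

theorem proj_eq_self {W : Submodule ℂ (L2 Z)} {v : L2 Z} (hv : v ∈ cl W) : proj W v = v :=
  proj_eq hv (by simp)

theorem proj_eq_zero {W : Submodule ℂ (L2 Z)} {v : L2 Z} (hv : v ∈ Wᗮ) : proj W v = 0 :=
  proj_eq (Submodule.zero_mem _) (by simpa using hv)

theorem proj_cl (W : Submodule ℂ (L2 Z)) : proj (cl W) = proj W := by
  ext1 f
  exact proj_eq (by rw [cl_eq (cls_cl W)]; exact proj_mem W f)
    (by rw [orth_cl]; exact sub_proj_mem W f)

theorem inner_proj_left (W : Submodule ℂ (L2 Z)) (f g : L2 Z) :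
    ⟪proj W f, g⟫_ℂ = ⟪f, proj W g⟫_ℂ :=
  Submodule.inner_starProjection_left_eq_right _ f g

theorem adj_proj (W : Submodule ℂ (L2 Z)) : adj (proj W) = proj W := by
  symm
  rw [ContinuousLinearMap.eq_adjoint_iff]
  exact inner_proj_left W

theorem norm_proj_le (W : Submodule ℂ (L2 Z)) (f : L2 Z) : ‖proj W f‖ ≤ ‖f‖ :=
  Submodule.norm_starProjection_apply_le _ f

theorem inner_mem_orth {W : Submodule ℂ (L2 Z)} {f g : L2 Z} (hf : f ∈ cl W) (hg : g ∈ Wᗮ) :
    ⟪f, g⟫_ℂ = 0 := by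
  rw [← orth_cl] at hg
  exact hg f hf

theorem enorm_add_sq {f g : L2 Z} (h : ⟪f, g⟫_ℂ = 0) :
    ‖f + g‖ₑ ^ 2 = ‖f‖ₑ ^ 2 + ‖g‖ₑ ^ 2 := by
  have h1 := norm_add_sq_eq_norm_sq_add_norm_sq_of_inner_eq_zero (𝕜 := ℂ) f g h
  rw [← ofReal_norm, ← ofReal_norm, ← ofReal_norm, ← ENNReal.ofReal_pow (norm_nonneg _),
    ← ENNReal.ofReal_pow (norm_nonneg _), ← ENNReal.ofReal_pow (norm_nonneg _),
    ← ENNReal.ofReal_add (by positivity) (by positivity), sq, sq, sq, h1]

theorem proj_split {K N : Submodule ℂ (L2 Z)} (hN : Cls N) (h : K ≤ N) (f : L2 Z) :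
    proj N f = proj K f + proj (N ⊓ Kᗮ) f := by
  have h1 : proj K f ∈ N := cl_le h hN (proj_mem K f)
  have h2 : proj N f ∈ N := by have := proj_mem N f; rwa [cl_eq hN] at this
  have h3 : proj (N ⊓ Kᗮ) f = proj N f - proj K f := by
    refine proj_eq (le_cl _ ⟨N.sub_mem h2 h1, ?_⟩) ?_
    · have : proj N f - proj K f = (f - proj K f) - (f - proj N f) := by abel
      rw [this]
      exact Submodule.sub_mem _ (sub_proj_mem K f) (Submodule.orthogonal_le h (sub_proj_mem N f))
    · intro g hg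
      have : f - (proj N f - proj K f) = (f - proj N f) + proj K f := by abel
      rw [this, inner_add_right, sub_proj_mem N f g hg.1, ← inner_conj_symm,
        inner_mem_orth (proj_mem K f) hg.2]
      simp
  rw [h3]; abel

theorem tau_split {K N : Submodule ℂ (L2 Z)} (hN : Cls N) (h : K ≤ N) (z : Z) :
    tau N z = tau K z + tau (N ⊓ Kᗮ) z := by
  rw [tau, proj_split hN h, enorm_add_sq]
  · rfl
  · refine inner_mem_orth (proj_mem K _) ?_
    exact cl_le inf_le_right (cls_orth K) (proj_mem _ _)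

theorem tau_cl (W : Submodule ℂ (L2 Z)) : tau (cl W) = tau W := by
  funext z; rw [tau, proj_cl, tau]

theorem tau_mono {W W' : Submodule ℂ (L2 Z)} (h : W ≤ W') (z : Z) : tau W z ≤ tau W' z := by
  rw [← tau_cl W', tau_split (cls_cl W') (h.trans (le_cl W'))]
  exact le_self_add

theorem tau_le_one (W : Submodule ℂ (L2 Z)) (z : Z) : tau W z ≤ 1 := by
  have h := norm_proj_le W (delta z)
  rw [norm_delta] at h
  rw [tau]
  refine pow_le_one₀ (by positivity) ?_
  rw [← ofReal_norm]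
  exact ENNReal.ofReal_le_one.2 h

theorem tau_eq_zero_of_supp {S : Set Z} {W : Submodule ℂ (L2 Z)} (h : W ≤ supp S) {z : Z}
    (hz : z ∉ S) : tau W z = 0 := by
  rw [tau, proj_eq_zero]
  · simp
  · intro g hg
    rw [inner_delta_right, h hg z hz, map_zero]

theorem eq_bot_of_tau {W : Submodule ℂ (L2 Z)} (h : ∀ z, tau W z = 0) : W = ⊥ := by
  refine eq_bot_iff.2 (fun f hf => ?_)
  rw [Submodule.mem_bot]
  ext z
  have h1 : proj W (delta z) = 0 := by
    have := h z
    rw [tau] at this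
    simpa using this
  rw [← inner_delta_left, ← proj_eq_self (le_cl W hf), ← inner_proj_left, h1, inner_zero_left]
  rfl

theorem tau_bot (z : Z) : tau (⊥ : Submodule ℂ (L2 Z)) z = 0 :=
  tau_eq_zero_of_supp (S := ∅) bot_le (Set.notMem_empty z)

theorem tau_top (z : Z) : tau (⊤ : Submodule ℂ (L2 Z)) z = 1 := by
  rw [tau, proj_eq_self (le_cl _ Submodule.mem_top), ← ofReal_norm, norm_delta]
  simp

/-- For a subspace stable under restriction to `S`, the diagonal entries localise. -/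
theorem tau_inf_supp {S : Set Z} {W : Submodule ℂ (L2 Z)}
    (hs : ∀ f ∈ W, res S f ∈ W) {z : Z} (hz : z ∈ S) : tau (W ⊓ supp S) z = tau W z := by
  have h1 : proj W (delta z) = proj (W ⊓ supp S) (delta z) := by
    refine proj_eq (cl_mono inf_le_left (proj_mem _ _)) (fun g hg => ?_)
    have h2 : delta z - proj (W ⊓ supp S) (delta z) ∈ supp S :=
      Submodule.sub_mem _ (delta_mem_supp hz) (cl_le inf_le_right (cls_supp S) (proj_mem _ _))
    rw [← res_eq_self h2, ← inner_res_left]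
    exact sub_proj_mem (W ⊓ supp S) (delta z) _ ⟨hs g hg, res_mem_supp S g⟩
  rw [tau, tau, h1]

theorem tau_inf_supp' {S : Set Z} {W : Submodule ℂ (L2 Z)}
    (hs : ∀ f ∈ W, res S f ∈ W) : tau (W ⊓ supp S) = S.indicator (tau W) := by
  funext z
  by_cases hz : z ∈ S
  · rw [Set.indicator_of_mem hz, tau_inf_supp hs hz]
  · rw [Set.indicator_of_notMem hz, tau_eq_zero_of_supp inf_le_right hz]

/-- Transport of diagonal entries along a bijection. -/
theorem tau_img_push (j : Y → Z) (hj : Function.Injective j) (W : Submodule ℂ (L2 Y)) (y : Y) :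
    tau (img (push j hj) W) (j y) = tau W y := by
  have h1 : proj (img (push j hj) W) (delta (j y)) = push j hj (proj W (delta y)) := by
    refine proj_eq (img_cl_le _ _ ⟨_, proj_mem W _, rfl⟩) ?_
    rintro _ ⟨g, hg, rfl⟩
    rw [← push_delta j hj, ← map_sub]
    change ⟪push j hj g, _⟫_ℂ = 0
    rw [inner_push_left, pull_push]
    exact sub_proj_mem W _ g hg
  have h2 : ∀ η : L2 Y, ‖push j hj η‖ = ‖η‖ := by
    intro η
    have h3 : ⟪push j hj η, push j hj η⟫_ℂ = ⟪η, η⟫_ℂ := by rw [inner_push_left, pull_push]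
    rw [inner_self_eq_norm_sq_to_K, inner_self_eq_norm_sq_to_K] at h3
    have h4 : ‖push j hj η‖ ^ 2 = ‖η‖ ^ 2 := by exact_mod_cast h3
    exact (pow_left_inj₀ (norm_nonneg _) (norm_nonneg _) two_ne_zero).1 h4
  rw [tau, tau, h1, ← ofReal_norm, ← ofReal_norm, h2]

end Basic

end Pool.Agent.P.MP_0f25e6_al.HN
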