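import Pool.Agent.P.MP_0f25e6_al.HN1

/-!
Group actions, sums over orbits, and the trace property.
-/

set_option autoImplicit false

open scoped InnerProductSpace ENNReal Topology
open Filter MulAction

noncomputable section

namespace Pool.Agent.P.MP_0f25e6_al.HN

section Act

variable {H X Y Z : Type*} [Group H] [MulAction H Y] [MulAction H Z] [MulAction H X]

@[simp] theorem act_apply (h : H) (f : L2 Z) (z : Z) : act h f z = f (h⁻¹ • z) := rfl

theorem act_one (f : L2 Z) : act (1 : H) f = f := by ext z; simp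

theorem act_mul (a b : H) (f : L2 Z) : act (a * b) f = act a (act b f) := by
  ext z; simp [mul_smul]

@[simp] theorem act_inv_act (a : H) (f : L2 Z) : act a⁻¹ (act a f) = f := by
  rw [← act_mul, inv_mul_cancel, act_one]

@[simp] theorem act_act_inv (a : H) (f : L2 Z) : act a (act a⁻¹ f) = f := by
  rw [← act_mul, mul_inv_cancel, act_one]

theorem act_delta (a : H) (z : Z) : act a (delta z) = delta (a • z) := by
  ext w
  rw [act_apply]
  by_cases h : w = a • z
  · subst h; rw [inv_smul_smul, delta_self, delta_self]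
  · rw [delta_ne h, delta_ne (fun h' => h (by rw [← h', smul_inv_smul]))]

theorem act_eq_push (a : H) :
    (act a : L2 Z →L[ℂ] L2 Z) = push (fun z => a • z) (MulAction.injective a) :=
  ext_delta' (fun z => by rw [act_delta, push_delta])

theorem adj_act (a : H) : adj (act a : L2 Z →L[ℂ] L2 Z) = act a⁻¹ := by
  rw [act_eq_push, adj_push]
  ext f z
  simp

theorem inner_act_left (a : H) (f g : L2 Z) : ⟪act a f, g⟫_ℂ = ⟪f, act a⁻¹ g⟫_ℂ := by
  rw [← adj_act, inner_adj_right]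

theorem norm_act (a : H) (f : L2 Z) : ‖act a f‖ = ‖f‖ := by
  have h3 : ⟪act a f, act a f⟫_ℂ = ⟪f, f⟫_ℂ := by rw [inner_act_left, act_inv_act]
  rw [inner_self_eq_norm_sq_to_K, inner_self_eq_norm_sq_to_K] at h3
  have h4 : ‖act a f‖ ^ 2 = ‖f‖ ^ 2 := by exact_mod_cast h3
  exact (pow_left_inj₀ (norm_nonneg _) (norm_nonneg _) two_ne_zero).1 h4

theorem Inv.inf {W W' : Submodule ℂ (L2 Z)} (h : Inv H W) (h' : Inv H W') : Inv H (W ⊓ W') :=
  fun a f hf => ⟨h a f hf.1, h' a f hf.2⟩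

theorem Inv.sup {W W' : Submodule ℂ (L2 Z)} (h : Inv H W) (h' : Inv H W') : Inv H (W ⊔ W') := by
  intro a f hf
  obtain ⟨u, hu, v, hv, rfl⟩ := Submodule.mem_sup.1 hf
  rw [map_add]
  exact Submodule.add_mem_sup (h a u hu) (h' a v hv)

theorem Inv.cl {W : Submodule ℂ (L2 Z)} (h : Inv H W) : Inv H (cl W) := by
  intro a f hf
  refine (cl_mono ?_) (img_cl_le (act a) W ⟨f, hf, rfl⟩)
  rintro _ ⟨g, hg, rfl⟩
  exact h a g hg

theorem Inv.orth {W : Submodule ℂ (L2 Z)} (h : Inv H W) : Inv H Wᗮ := by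
  intro a f hf g hg
  rw [← inv_inv a, ← inner_act_left]
  exact hf _ (h _ g hg)

theorem inv_top : Inv H (⊤ : Submodule ℂ (L2 Z)) := fun _ _ _ => Submodule.mem_top

theorem inv_bot : Inv H (⊥ : Submodule ℂ (L2 Z)) := fun a f hf => by
  rw [Submodule.mem_bot] at hf ⊢
  rw [hf, map_zero]

theorem inv_iInf {I : Type*} {W : I → Submodule ℂ (L2 Z)} (h : ∀ i, Inv H (W i)) :
    Inv H (⨅ i, W i) := fun a f hf => by
  rw [Submodule.mem_iInf] at hf ⊢
  exact fun i => h i a f (hf i)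

theorem inv_supp {S : Set Z} (hS : ∀ (h : H), ∀ z ∈ S, h • z ∈ S) : Inv H (supp S) := by
  intro a f hf z hz
  rw [act_apply]
  exact hf _ (fun h => hz (by simpa using hS a _ h))

theorem Inv.img {N : Submodule ℂ (L2 Y)} (h : Inv H N) {T : L2 Y →L[ℂ] L2 Z} (hT : Eqv H T) :
    Inv H (img T N) := by
  rintro a _ ⟨g, hg, rfl⟩
  exact ⟨act a g, h a g hg, hT a g⟩

theorem Inv.pre {W : Submodule ℂ (L2 Z)} (h : Inv H W) {T : L2 Y →L[ℂ] L2 Z} (hT : Eqv H T) :
    Inv H (pre T W) := by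
  intro a f hf
  change T (act a f) ∈ W
  rw [hT]
  exact h a _ hf

theorem Eqv.adj {T : L2 Y →L[ℂ] L2 Z} (hT : Eqv H T) : Eqv H (adj T) := by
  intro a f
  refine ext_inner_left ℂ (fun g => ?_)
  rw [inner_adj_right, ← inv_inv a, ← inner_act_left, ← inner_act_left, inner_adj_right, hT]

theorem Eqv.comp {T : L2 Y →L[ℂ] L2 Z} {S : L2 X →L[ℂ] L2 Y} (hT : Eqv H T) (hS : Eqv H S) :
    Eqv H (T ∘L S) := fun a f => by
  simp only [ContinuousLinearMap.comp_apply]
  rw [hS, hT]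

theorem Eqv.add {T S : L2 Y →L[ℂ] L2 Z} (hT : Eqv H T) (hS : Eqv H S) : Eqv H (T + S) :=
  fun a f => by
    simp only [add_apply, map_add]
    rw [hS, hT]

theorem Eqv.sub {T S : L2 Y →L[ℂ] L2 Z} (hT : Eqv H T) (hS : Eqv H S) : Eqv H (T - S) :=
  fun a f => by
    simp only [sub_apply, map_sub]
    rw [hS, hT]

theorem Eqv.smul {T : L2 Y →L[ℂ] L2 Z} (hT : Eqv H T) (c : ℂ) : Eqv H (c • T) :=
  fun a f => by
    simp only [smul_apply, map_smul]
    rw [hT]

theorem eqv_sum {I : Type*} (s : Finset I) {T : I → L2 Y →L[ℂ] L2 Z} (h : ∀ i ∈ s, Eqv H (T i)) :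
    Eqv H (∑ i ∈ s, T i) := fun a f => by
  simp only [sum_apply, map_sum]
  exact Finset.sum_congr rfl (fun i hi => h i hi a f)

theorem eqv_one : Eqv H (1 : L2 Z →L[ℂ] L2 Z) := fun _ _ => rfl

theorem Eqv.mul {T S : L2 Z →L[ℂ] L2 Z} (hT : Eqv H T) (hS : Eqv H S) : Eqv H (T * S) :=
  hT.comp hS

theorem Eqv.pow {T : L2 Z →L[ℂ] L2 Z} (hT : Eqv H T) (n : ℕ) : Eqv H (T ^ n) := by
  induction n with
  | zero => simpa using eqv_one
  | succ n ih => rw [pow_succ]; exact ih.mul hT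

theorem eqv_pull {j : Y → Z} (hj : Function.Injective j) (h : ∀ (a : H) y, j (a • y) = a • j y) :
    Eqv H (pull j hj) := fun a f => by
  ext y
  simp [h]

theorem eqv_push {j : Y → Z} (hj : Function.Injective j) (h : ∀ (a : H) y, j (a • y) = a • j y) :
    Eqv H (push j hj) := (eqv_pull hj h).adj

theorem act_res (a : H) (S : Set Z) (f : L2 Z) :
    act a (res S f) = res {z | a⁻¹ • z ∈ S} (act a f) := by
  classical
  ext z
  simp only [act_apply, res_apply, Set.mem_ofPred_eq]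

theorem eqv_res {S : Set Z} (hS : ∀ (h : H), ∀ z ∈ S, h • z ∈ S) : Eqv H (res S) := by
  intro a f
  rw [act_res]
  congr 2
  ext z
  exact ⟨fun h => hS _ _ h, fun h => by simpa using hS a _ h⟩

theorem act_res_fibre {κ : Z → X} (hκ : ∀ (a : H) (z : Z), κ (a • z) = a • κ z) (a : H) (x : X)
    (f : L2 Z) : act a (res (κ ⁻¹' {x}) f) = res (κ ⁻¹' {a • x}) (act a f) := by
  rw [act_res]
  congr 2
  ext z
  simp only [Set.mem_ofPred_eq, Set.mem_preimage, Set.mem_singleton_iff, hκ, inv_smul_eq_iff]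

theorem eqv_proj {W : Submodule ℂ (L2 Z)} (h : Inv H W) : Eqv H (proj W) := by
  intro a f
  refine proj_eq (h.cl a _ (proj_mem W f)) ?_
  rw [← map_sub]
  exact h.orth a _ (sub_proj_mem W f)

theorem tau_smul {W : Submodule ℂ (L2 Z)} (h : Inv H W) (a : H) (z : Z) :
    tau W (a • z) = tau W z := by
  rw [tau, tau, ← act_delta, eqv_proj h, ← ofReal_norm, ← ofReal_norm, norm_act]

theorem tau_img_act (W : Submodule ℂ (L2 Z)) (a : H) (z : Z) :
    tau (img (act a) W) (a • z) = tau W z := by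
  rw [act_eq_push]
  exact tau_img_push _ _ W z

/-! ### Sums over orbits -/

theorem exists_smul_out (z : Z) :
    ∃ h : H, h • (Quotient.mk (orbitRel H Z) z).out = z := by
  have : (orbitRel H Z) z (Quotient.mk (orbitRel H Z) z).out :=
    Quotient.exact (Quotient.out_eq (Quotient.mk (orbitRel H Z) z)).symm
  exact this

theorem mk_smul (h : H) (z : Z) :
    Quotient.mk (orbitRel H Z) (h • z) = Quotient.mk (orbitRel H Z) z :=
  Quotient.sound (mem_orbit z h)

theorem inv_out {f : Z → ℝ≥0∞} (hf : ∀ (h : H) z, f (h • z) = f z) (z : Z) :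
    f (Quotient.mk (orbitRel H Z) z).out = f z := by
  obtain ⟨h, hh⟩ := exists_smul_out (H := H) z
  rw [← hf h, hh]

theorem orbit_bij (hZ : Free H Z) :
    Function.Bijective (fun p : orbitRel.Quotient H Z × H => p.2 • p.1.out) := by
  constructor
  · rintro ⟨q, a⟩ ⟨r, b⟩ h
    simp only at h
    have h1 : q = r := by
      have := congrArg (Quotient.mk (orbitRel H Z)) h
      rwa [mk_smul, mk_smul, Quotient.out_eq, Quotient.out_eq] at this
    subst h1
    have h2 : b⁻¹ * a = 1 := hZ _ q.out (by rw [mul_smul, h, inv_smul_smul])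
    rw [inv_mul_eq_one.1 h2]
  · intro z
    obtain ⟨h, hh⟩ := exists_smul_out (H := H) z
    exact ⟨⟨_, h⟩, hh⟩

theorem tsum_unfold (hZ : Free H Z) (g : Z → ℝ≥0∞) :
    ∑' z, g z = osum H (fun z => ∑' h : H, g (h • z)) := by
  rw [osum, ← ENNReal.tsum_prod' (f := fun p : orbitRel.Quotient H Z × H => g (p.2 • p.1.out))]
  exact ((Equiv.ofBijective _ (orbit_bij hZ)).tsum_eq g).symm

theorem osum_mono {f g : Z → ℝ≥0∞} (h : ∀ z, f z ≤ g z) : osum H f ≤ osum H g :=
  ENNReal.tsum_le_tsum (fun _ => h _)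

theorem osum_add (f g : Z → ℝ≥0∞) : osum H (fun z => f z + g z) = osum H f + osum H g :=
  ENNReal.tsum_add

theorem osum_tsum {I : Type*} (f : I → Z → ℝ≥0∞) :
    osum H (fun z => ∑' i, f i z) = ∑' i, osum H (f i) :=
  ENNReal.tsum_comm

theorem osum_mul (c : ℝ≥0∞) (f : Z → ℝ≥0∞) : osum H (fun z => c * f z) = c * osum H f :=
  ENNReal.tsum_mul_left

theorem osum_zero : osum H (fun _ : Z => 0) = 0 := by simp [osum]

theorem eq_zero_of_osum {f : Z → ℝ≥0∞} (hf : ∀ (h : H) z, f (h • z) = f z) (h : osum H f = 0)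
    (z : Z) : f z = 0 := by
  rw [← inv_out hf]
  exact ENNReal.tsum_eq_zero.1 h _

theorem osum_ne_top {S : Set Z} (hS : Cofin H S) {f : Z → ℝ≥0∞} (h1 : ∀ z, f z ≤ 1)
    (h0 : ∀ z, z ∉ S → f z = 0) : osum H f ≠ ⊤ := by
  classical
  obtain ⟨F, hF, hFS⟩ := hS
  rw [osum, tsum_eq_sum (s := (hF.image (Quotient.mk (orbitRel H Z))).toFinset)]
  · exact ENNReal.sum_ne_top.2 (fun q _ => ne_top_of_le_ne_top ENNReal.one_ne_top (h1 _))
  · intro q hq
    refine h0 _ (fun hs => hq ?_)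
    obtain ⟨h, hh⟩ := hFS _ hs
    rw [Set.Finite.mem_toFinset]
    exact ⟨_, hh, by rw [mk_smul, Quotient.out_eq]⟩

theorem osum_congr {H' Z' : Type*} [Group H'] [MulAction H' Z'] (e : Z ≃ Z')
    (he : ∀ z w, (∃ h : H, h • z = w) ↔ ∃ h : H', h • e z = e w) {f : Z' → ℝ≥0∞}
    (hf : ∀ (h : H') z, f (h • z) = f z) : osum H (fun z => f (e z)) = osum H' f := by
  let ε : orbitRel.Quotient H Z ≃ orbitRel.Quotient H' Z' :=
    Quotient.congr e (fun z w => he w z)
  rw [osum, osum, ← ε.tsum_eq]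
  refine tsum_congr (fun q => ?_)
  have : ε q = Quotient.mk (orbitRel H' Z') (e q.out) := by
    conv_lhs => rw [← Quotient.out_eq q]
    rfl
  rw [this, inv_out hf]

/-- The trace property. -/
theorem osum_adj (hY : Free H Y) (hZ : Free H Z) {S : L2 Y →L[ℂ] L2 Z} (hS : Eqv H S) :
    osum H (fun y => ‖S (delta y)‖ₑ ^ 2) = osum H (fun z => ‖adj S (delta z)‖ₑ ^ 2) := by
  have h1 : ∀ y z, ‖adj S (delta z) y‖ₑ = ‖S (delta y) z‖ₑ := by
    intro y z
    rw [← inner_delta_left, inner_adj_right, inner_delta_right, ← ofReal_norm, ← ofReal_norm,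
      RCLike.norm_conj]
  have h2 : ∀ (h : H) y z, S (delta (h⁻¹ • y)) z = S (delta y) (h • z) := by
    intro h y z
    rw [← act_delta, hS, act_apply, inv_inv]
  simp only [enorm_sq_eq, h1]
  have h3 : ∀ y, ∑' z, ‖S (delta y) z‖ₑ ^ 2 =
      osum H (fun z => ∑' h : H, ‖S (delta y) (h • z)‖ₑ ^ 2) := fun y => tsum_unfold hZ _
  have h4 : ∀ z, ∑' y, ‖S (delta y) z‖ₑ ^ 2 =
      osum H (fun y => ∑' h : H, ‖S (delta y) (h • z)‖ₑ ^ 2) := by
    intro z
    rw [tsum_unfold hY (fun y => ‖S (delta y) z‖ₑ ^ 2)]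
    congr 1
    funext y
    rw [← (Equiv.inv H).tsum_eq]
    simp only [Equiv.inv_apply, h2]
  simp only [h3, h4]
  exact ENNReal.tsum_comm

end Act

section Change

variable {C A Z X : Type*} [Group C] [Group A] [MulAction C Z] [MulAction A Z] [MulAction A X]
  (ι : C →* A)

theorem Free.of_hom (hA : Free A Z) (hinj : Function.Injective ι)
    (hι : ∀ (c : C) (z : Z), ι c • z = c • z) : Free C Z := fun c z h =>
  hinj (by rw [hA (ι c) z (by rw [hι, h]), map_one])

theorem act_hom (hι : ∀ (c : C) (z : Z), ι c • z = c • z) (c : C) (f : L2 Z) :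
    act (ι c) f = act c f := by
  ext z
  rw [act_apply, act_apply, ← map_inv, hι]

theorem Inv.of_hom (hι : ∀ (c : C) (z : Z), ι c • z = c • z) {W : Submodule ℂ (L2 Z)}
    (hW : Inv A W) : Inv C W := fun c f hf => by
  rw [← act_hom ι hι]; exact hW _ f hf

theorem coset_bij (hinj : Function.Injective ι) :
    Function.Bijective (fun p : (A ⧸ ι.range) × C => ι p.2 * p.1.out⁻¹) := by
  constructor
  · rintro ⟨q, a⟩ ⟨r, b⟩ h
    simp only at h
    have h1 : q = r := by
      rw [← QuotientGroup.out_eq' q, ← QuotientGroup.out_eq' r, QuotientGroup.eq]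
      refine ⟨a⁻¹ * b, ?_⟩
      rw [map_mul, map_inv, inv_mul_eq_iff_eq_mul, ← mul_assoc, h, inv_mul_cancel_right]
    subst h1
    rw [hinj (mul_right_cancel h)]
  · intro a
    obtain ⟨⟨_, c, rfl⟩, hc⟩ := QuotientGroup.mk_out_eq_mul ι.range a⁻¹
    refine ⟨⟨(a⁻¹ : A), c⟩, ?_⟩
    simp only at hc ⊢
    rw [hc]
    simp

theorem osum_hom (hA : Free A Z) (hinj : Function.Injective ι)
    (hι : ∀ (c : C) (z : Z), ι c • z = c • z) {g : Z → ℝ≥0∞} (hg : ∀ (c : C) z, g (c • z) = g z) :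
    osum C g = osum A (fun z => ∑' q : A ⧸ ι.range, g (q.out⁻¹ • z)) := by
  classical
  have hC : Free C Z := hA.of_hom ι hinj hι
  let w : Z → ℝ≥0∞ := fun z => if (Quotient.mk (orbitRel C Z) z).out = z then 1 else 0
  have hw : ∀ z, ∑' c : C, w (c • z) = 1 := by
    intro z
    obtain ⟨c, hc⟩ := exists_smul_out (H := C) z
    rw [tsum_eq_single c⁻¹]
    · simp only [w]
      rw [mk_smul, if_pos]
      rw [eq_inv_smul_iff, hc]
    · intro b hb
      simp only [w]
      rw [mk_smul, if_neg]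
      intro h
      apply hb
      have : c * b = 1 := hC _ z (by rw [mul_smul, ← h, hc])
      exact eq_inv_of_mul_eq_one_right this
  have h1 : ∑' z, w z * g z = osum C g := by
    rw [tsum_unfold hC]
    congr 1
    funext z
    simp only [hg]
    rw [ENNReal.tsum_mul_right, hw, one_mul]
  rw [← h1, tsum_unfold hA]
  congr 1
  funext z
  rw [← (Equiv.ofBijective _ (coset_bij ι hinj)).tsum_eq, ENNReal.tsum_prod']
  refine tsum_congr (fun q => ?_)
  simp only [Equiv.ofBijective_apply, mul_smul, hι, hg]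
  rw [ENNReal.tsum_mul_right, hw, one_mul]

theorem edim_index (hA : Free A Z) (hinj : Function.Injective ι)
    (hι : ∀ (c : C) (z : Z), ι c • z = c • z) {W : Submodule ℂ (L2 Z)} (hW : Inv A W) :
    edim C W = (ENat.card (A ⧸ ι.range) : ℝ≥0∞) * edim A W := by
  rw [edim, osum_hom ι hA hinj hι (tau_smul (hW.of_hom ι hι)), edim, ← osum_mul]
  congr 1
  funext z
  simp only [tau_smul hW]
  rw [ENNReal.tsum_const]

theorem edim_induce (hA : Free A Z) (hinj : Function.Injective ι)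
    (hι : ∀ (c : C) (z : Z), ι c • z = c • z)
    {κ : Z → X} (hκ : ∀ (a : A) (z : Z), κ (a • z) = a • κ z) {x₀ : X}
    (hx : stabilizer A x₀ = ι.range)
    {W : Submodule ℂ (L2 Z)} (hc : Cls W) (hW : Inv A W) (hs : Split κ W) :
    edim A (W ⊓ supp (κ ⁻¹' orbit A x₀)) = edim C (W ⊓ supp (κ ⁻¹' {x₀})) := by
  have hst : ∀ c : C, ι c • x₀ = x₀ := fun c => by
    have : ι c ∈ stabilizer A x₀ := by rw [hx]; exact ⟨c, rfl⟩
    exact this
  have hi : Inv C (W ⊓ supp (κ ⁻¹' {x₀})) := by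
    refine (hW.of_hom ι hι).inf (inv_supp (fun c z hz => ?_))
    rw [Set.mem_preimage, Set.mem_singleton_iff] at hz ⊢
    rw [← hι, hκ, hz, hst]
  rw [edim, edim, osum_hom ι hA hinj hι (tau_smul hi),
    tau_inf_supp' (fun f hf => hs.res_preimage hc _ hf), tau_inf_supp' (hs x₀)]
  congr 1
  funext z
  by_cases hz : z ∈ κ ⁻¹' orbit A x₀
  · rw [Set.indicator_of_mem hz]
    obtain ⟨a, ha⟩ := hz
    simp only at ha
    rw [tsum_eq_single (a : A ⧸ ι.range)]
    · rw [Set.indicator_of_mem, tau_smul hW]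
      obtain ⟨⟨_, c, rfl⟩, hc⟩ := QuotientGroup.mk_out_eq_mul ι.range a
      rw [Set.mem_preimage, Set.mem_singleton_iff, hκ, ← ha, inv_smul_eq_iff, hc, mul_smul, hst]
    · intro q hq
      rw [Set.indicator_of_notMem]
      intro h
      apply hq
      rw [Set.mem_preimage, Set.mem_singleton_iff, hκ, ← ha, ← mul_smul] at h
      rw [← QuotientGroup.out_eq' q, QuotientGroup.eq]
      exact hx.le h
  · rw [Set.indicator_of_notMem hz, eq_comm, ENNReal.tsum_eq_zero]
    intro q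
    rw [Set.indicator_of_notMem]
    intro h
    apply hz
    rw [Set.mem_preimage, Set.mem_singleton_iff, hκ, inv_smul_eq_iff] at h
    exact ⟨q.out, h.symm⟩

/-- Conjugation invariance of the dimension. -/
theorem edim_conj {C' : Type*} [Group C'] [MulAction C' Z] (a : A)
    (h : ∀ z w : Z, (∃ c : C, c • z = w) ↔ ∃ c : C', c • a • z = a • w)
    {W : Submodule ℂ (L2 Z)} (hW : Inv C' (img (act a) W)) :
    edim C' (img (act a) W) = edim C W := by
  rw [edim, ← osum_congr (H := C) (MulAction.toPerm a) h (tau_smul hW), edim]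
  congr 1
  funext z
  exact tau_img_act W a z

end Change

end Pool.Agent.P.MP_0f25e6_al.HN
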