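import Pool.Agent.P.MP_0f25e6_al.HN2

/-!
Rank-nullity, modularity and faithfulness of the von Neumann dimension.
-/

set_option autoImplicit false

open scoped InnerProductSpace ENNReal Topology
open Filter MulAction

noncomputable section

namespace Pool.Agent.P.MP_0f25e6_al.HN

section Hilbert

variable {E F : Type*} [NormedAddCommGroup E] [InnerProductSpace ℂ E] [CompleteSpace E]
  [NormedAddCommGroup F] [InnerProductSpace ℂ F] [CompleteSpace F]

/-- The defect operator. -/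
def defect (S : E →L[ℂ] F) : E →L[ℂ] E := 1 - (ContinuousLinearMap.adjoint S) ∘L S

theorem defect_apply (S : E →L[ℂ] F) (v : E) :
    defect S v = v - ContinuousLinearMap.adjoint S (S v) := rfl

theorem re_inner_adj (S : E →L[ℂ] F) (v : E) :
    (⟪v, ContinuousLinearMap.adjoint S (S v)⟫_ℂ).re = ‖S v‖ ^ 2 := by
  rw [ContinuousLinearMap.adjoint_inner_right, inner_self_eq_norm_sq_to_K]
  norm_cast

theorem norm_defect_le {S : E →L[ℂ] F} (hS : ‖S‖ ≤ 1) : ‖defect S‖ ≤ 1 := by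
  refine ContinuousLinearMap.opNorm_le_bound _ zero_le_one (fun v => ?_)
  rw [one_mul, defect_apply]
  have h1 : ‖ContinuousLinearMap.adjoint S (S v)‖ ≤ ‖S v‖ := by
    have := (ContinuousLinearMap.adjoint S).le_of_opNorm_le (c := 1)
      (by rwa [LinearIsometryEquiv.norm_map]) (S v)
    simpa using this
  have h3 : ‖v - ContinuousLinearMap.adjoint S (S v)‖ ^ 2 =
      ‖v‖ ^ 2 - 2 * ‖S v‖ ^ 2 + ‖ContinuousLinearMap.adjoint S (S v)‖ ^ 2 := by
    rw [@norm_sub_sq ℂ, ← re_inner_adj S v]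
    rfl
  have h4 : ‖v - ContinuousLinearMap.adjoint S (S v)‖ ^ 2 ≤ ‖v‖ ^ 2 := by
    rw [h3]
    nlinarith [norm_nonneg (ContinuousLinearMap.adjoint S (S v)), norm_nonneg (S v)]
  exact (pow_le_pow_iff_left₀ (norm_nonneg _) (norm_nonneg _) two_ne_zero).1 h4

theorem defect_nonneg {S : E →L[ℂ] F} (hS : ‖S‖ ≤ 1) : 0 ≤ defect S := by
  rw [ContinuousLinearMap.nonneg_iff_isPositive, ContinuousLinearMap.isPositive_def']
  constructor
  · rw [defect]
    refine (IsSelfAdjoint.one _).sub ?_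
    exact (ContinuousLinearMap.isPositive_adjoint_comp_self S).isSelfAdjoint
  · intro v
    rw [ContinuousLinearMap.reApplyInnerSelf, defect_apply, inner_sub_left, map_sub,
      ContinuousLinearMap.adjoint_inner_left, inner_self_eq_norm_sq, inner_self_eq_norm_sq]
    have := S.le_of_opNorm_le hS v
    rw [one_mul] at this
    nlinarith [norm_nonneg (S v)]

theorem hasSum_defect {S : E →L[ℂ] F} (hS : ‖S‖ ≤ 1) (v : E) (a : ℕ → ℝ) (ha0 : ∀ k, 0 ≤ a k)
    (ha : ∀ k, a k = (⟪v, ((defect S) ^ k) (ContinuousLinearMap.adjoint S (S v))⟫_ℂ).re)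
    (p : E) (hp : S p = 0) (hq : ∀ u, S u = 0 → ⟪u, v - p⟫_ℂ = 0) :
    HasSum a (‖v - p‖ ^ 2) := by
  set A := defect S with hA
  let c : ℕ → ℝ := fun n => (⟪v, (A ^ n) v⟫_ℂ).re
  have hc : ∀ n, ∑ k ∈ Finset.range n, a k = c 0 - c n := by
    intro n
    rw [← Finset.sum_range_sub']
    refine Finset.sum_congr rfl (fun k _ => ?_)
    simp only [c]
    rw [ha, ← Complex.sub_re, ← inner_sub_right, pow_succ, mul_apply_eq_comp,
      ← map_sub, hA, defect_apply, sub_sub_cancel]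
  have hb : ∀ n, |c n| ≤ ‖v‖ ^ 2 := by
    intro n
    refine (Complex.abs_re_le_norm _).trans ((norm_inner_le_norm _ _).trans ?_)
    rw [sq]
    refine mul_le_mul_of_nonneg_left ?_ (norm_nonneg _)
    have h1 : ‖A ^ n‖ ≤ 1 := by
      rcases n with _ | n
      · rw [pow_zero]; exact ContinuousLinearMap.norm_id_le
      · exact (norm_pow_le' A n.succ_pos).trans (pow_le_one₀ (norm_nonneg _) (norm_defect_le hS))
    simpa using (A ^ n).le_of_opNorm_le h1 v
  have hsum : Summable a := summable_of_sum_range_le ha0 (c := 2 * ‖v‖ ^ 2) (fun n => by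
    rw [hc]
    have h1 := abs_le.1 (hb 0)
    have h2 := abs_le.1 (hb n)
    linarith)
  have h1 : Tendsto c atTop (𝓝 (c 0 - ∑' k, a k)) := by
    have := (tendsto_const_nhds (x := c 0)).sub hsum.hasSum.tendsto_sum_nat
    refine this.congr (fun n => ?_)
    rw [hc]; ring
  have h2 := h1.cesaro
  have h3 := A.tendsto_birkhoffAverage_orthogonalProjection (norm_defect_le hS) v
  have h4 := (Complex.continuous_re.tendsto _).comp
    (((innerSL ℂ v).continuous.tendsto _).comp h3)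
  have h5 : ((A.eqLocus (1 : E →L[ℂ] E)).orthogonalProjectionOnto v : E) = p := by
    refine Submodule.eq_starProjection_of_mem_orthogonal (K := A.eqLocus (1 : E →L[ℂ] E)) ?_ ?_
    · change A p = p
      rw [hA, defect_apply, hp, map_zero, sub_zero]
    · intro u hu
      apply hq
      have hu' : A u = u := hu
      rw [hA, defect_apply, sub_eq_self] at hu'
      have := re_inner_adj S u
      rw [hu', inner_zero_right, Complex.zero_re] at this
      exact norm_eq_zero.1 (pow_eq_zero_iff two_ne_zero |>.1 this.symm)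
  rw [h5] at h4
  have h6 : c 0 - ∑' k, a k = (⟪v, p⟫_ℂ).re := by
    refine tendsto_nhds_unique h2 (h4.congr (fun N => ?_))
    simp only [Function.comp_apply, birkhoffAverage, birkhoffSum, id, map_smul, map_sum,
      innerSL_apply_apply, smul_eq_mul, c]
    rw [← Complex.ofReal_natCast, ← Complex.ofReal_inv, Complex.re_ofReal_mul, Complex.re_sum]
    congr 1
    refine Finset.sum_congr rfl (fun n _ => ?_)
    rw [FunLike.coe_pow_eq_iterate]
  have h7 : ‖v - p‖ ^ 2 = c 0 - (⟪v, p⟫_ℂ).re := by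
    have h8 : ⟪v - p, v - p⟫_ℂ = ⟪v, v⟫_ℂ - ⟪v, p⟫_ℂ := by
      rw [inner_sub_left, hq p hp, sub_zero, inner_sub_right]
    have h9 := congrArg Complex.re h8
    rw [Complex.sub_re, inner_self_eq_norm_sq_to_K] at h9
    simp only [c, pow_zero, one_apply_eq_self]
    rw [← h9]
    norm_cast
  rw [h7, ← h6, sub_sub_cancel]
  exact hsum.hasSum

theorem comp_defect_pow (S : E →L[ℂ] F) (k : ℕ) (v : E) :
    S (((defect S) ^ k) v) = ((defect (ContinuousLinearMap.adjoint S)) ^ k) (S v) := by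
  induction k with
  | zero => simp
  | succ k ih =>
    rw [pow_succ', pow_succ', mul_apply_eq_comp, mul_apply_eq_comp,
      defect_apply, defect_apply, map_sub, ContinuousLinearMap.adjoint_adjoint, ih]

theorem exists_sqrt {A : E →L[ℂ] E} (hA : 0 ≤ A) :
    ∃ R : E →L[ℂ] E, IsSelfAdjoint R ∧ R * R = A ∧ ∀ U, Commute A U → Commute R U :=
  ⟨CFC.sqrt A, (CFC.sqrt_nonneg A).isSelfAdjoint, CFC.sqrt_mul_sqrt_self A hA,
    fun _ h => h.cfcₙ_nnreal _⟩

end Hilbert

section Dim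

variable {H X Y Z : Type*} [Group H] [MulAction H Y] [MulAction H Z] [MulAction H X]

theorem tau_orth_ker {S : L2 Y →L[ℂ] L2 Z} (hS : ‖S‖ ≤ 1) (y : Y) (u : ℕ → ℝ≥0∞) (a : ℕ → ℝ)
    (ha0 : ∀ k, 0 ≤ a k) (hu : ∀ k, u k = ENNReal.ofReal (a k))
    (ha : ∀ k, a k = (⟪delta y, ((defect S) ^ k) (adj S (S (delta y)))⟫_ℂ).re) :
    tau (pre S ⊥)ᗮ y = ∑' k, u k := by
  have hp : proj (pre S ⊥) (delta y) ∈ pre S ⊥ :=
    cl_le le_rfl (cls_bot.pre S) (proj_mem _ _)
  have h := hasSum_defect hS (delta y) a ha0 ha (proj (pre S ⊥) (delta y)) hp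
    (fun u hu => sub_proj_mem (pre S ⊥) (delta y) u hu)
  have h1 : proj (pre S ⊥)ᗮ (delta y) = delta y - proj (pre S ⊥) (delta y) :=
    proj_eq (le_cl _ (sub_proj_mem _ _)) (by
      rw [sub_sub_cancel]; exact Submodule.le_orthogonal_orthogonal _ hp)
  rw [tau, h1, ← ofReal_norm, ← ENNReal.ofReal_pow (norm_nonneg _), ← h.tsum_eq,
    ENNReal.ofReal_tsum_of_nonneg ha0 h.summable]
  simp only [hu]

theorem edim_orth_ker_aux (hY : Free H Y) (hZ : Free H Z) {S : L2 Y →L[ℂ] L2 Z} (hS : Eqv H S)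
    (hn : ‖S‖ ≤ 1) : edim H (pre S ⊥)ᗮ = edim H (pre (adj S) ⊥)ᗮ := by
  set A := defect S with hA
  have hA0 : 0 ≤ A := defect_nonneg hn
  obtain ⟨R, hRs, hRR, hRc⟩ := exists_sqrt hA0
  have hAe : Eqv H A := eqv_one.sub (hS.adj.comp hS)
  have hRe : Eqv H R := by
    intro h f
    have h1 : Commute A (act h) := by
      ext1 g
      exact hAe h g
    have h2 : Commute R (act h) := hRc _ h1
    exact congrArg (fun T : L2 Y →L[ℂ] L2 Y => T f) h2
  have hRk : ∀ (k : ℕ) (f g : L2 Y), ⟪(R ^ k) f, g⟫_ℂ = ⟪f, (R ^ k) g⟫_ℂ := fun k f g =>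
    (hRs.pow k).isSymmetric f g
  have hRA : ∀ (k : ℕ) (f : L2 Y), (R ^ k) ((R ^ k) f) = (A ^ k) f := by
    intro k f
    rw [← mul_apply_eq_comp, ← (Commute.refl R).mul_pow, hRR]
  have hcomm : ∀ (k : ℕ) (f : L2 Y), adj S (S ((R ^ k) f)) = (R ^ k) (adj S (S f)) := by
    intro k f
    have h1 : Commute A (R ^ k) := by
      rw [← hRR]
      exact ((Commute.refl R).mul_left (Commute.refl R)).pow_right k
    have h2 : A ((R ^ k) f) = (R ^ k) (A f) := congrArg (fun T : L2 Y →L[ℂ] L2 Y => T f) h1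
    rw [hA, defect_apply, defect_apply, map_sub, sub_right_inj] at h2
    exact h2
  have hsq : ∀ {W : Type _} (f : L2 W), ‖f‖ₑ ^ 2 = ENNReal.ofReal (‖f‖ ^ 2) := fun f => by
    rw [← ofReal_norm, ENNReal.ofReal_pow (norm_nonneg _)]
  have hsq' : ∀ (f : L2 Y), ‖f‖ₑ ^ 2 = ENNReal.ofReal (‖f‖ ^ 2) := fun f => by
    rw [← ofReal_norm, ENNReal.ofReal_pow (norm_nonneg _)]
  have e1 : tau (pre S ⊥)ᗮ = fun y => ∑' k, ‖(S ∘L R ^ k) (delta y)‖ₑ ^ 2 := by
    funext y
    refine tau_orth_ker hn y _ (fun k => ‖(S ∘L R ^ k) (delta y)‖ ^ 2) (fun k => by positivity)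
      (fun k => hsq _) (fun k => ?_)
    rw [ContinuousLinearMap.comp_apply, ← re_inner_adj, hcomm, hRk, hRA]
  have e2 : tau (pre (adj S) ⊥)ᗮ = fun z => ∑' k, ‖adj (S ∘L R ^ k) (delta z)‖ₑ ^ 2 := by
    funext z
    refine tau_orth_ker (by rwa [LinearIsometryEquiv.norm_map]) z _
      (fun k => ‖adj (S ∘L R ^ k) (delta z)‖ ^ 2) (fun k => by positivity)
      (fun k => hsq' _) (fun k => ?_)
    have h1 : adj (S ∘L R ^ k) (delta z) = (R ^ k) (adj S (delta z)) := by
      refine ext_inner_left ℂ (fun g => ?_)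
      rw [inner_adj_right, ContinuousLinearMap.comp_apply, ← hRk, inner_adj_right]
    rw [h1, adj, adj, ContinuousLinearMap.adjoint_adjoint, ← comp_defect_pow, ← inner_adj_left,
      ← hA, ← hRA, ← hRk, inner_self_eq_norm_sq_to_K]
    norm_cast
  rw [edim, edim, e1, e2, osum_tsum, osum_tsum]
  exact tsum_congr (fun k => osum_adj hY hZ (hS.comp (hRe.pow k)))

theorem edim_cl (W : Submodule ℂ (L2 Z)) : edim H (cl W) = edim H W := by
  rw [edim, tau_cl, edim]

theorem edim_orth_ker (hY : Free H Y) (hZ : Free H Z) {S : L2 Y →L[ℂ] L2 Z} (hS : Eqv H S) :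
    edim H (pre S ⊥)ᗮ = edim H (img S ⊤) := by
  have hpos : 0 < ‖S‖ + 1 := by positivity
  set c : ℝ := (‖S‖ + 1)⁻¹ with hc
  have hc0 : (c : ℂ) ≠ 0 := by
    rw [Complex.ofReal_ne_zero, hc]
    positivity
  have h := edim_orth_ker_aux hY hZ (hS.smul (c : ℂ)) (by
    rw [norm_smul, Complex.norm_real, Real.norm_of_nonneg (by positivity), hc,
      inv_mul_le_iff₀ hpos]
    linarith)
  have h1 : pre ((c : ℂ) • S) ⊥ = pre S ⊥ := by
    ext f
    change ((c : ℂ) • S) f = 0 ↔ S f = 0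
    rw [smul_apply, smul_eq_zero, or_iff_right hc0]
  have h2 : pre (adj ((c : ℂ) • S)) ⊥ = (img S ⊤)ᗮ := by
    ext g
    rw [Submodule.mem_comap, Submodule.mem_bot, Submodule.mem_orthogonal]
    constructor
    · rintro hg _ ⟨f, -, rfl⟩
      have h3 : ⟪f, adj ((c : ℂ) • S) g⟫_ℂ = 0 := by
        have : adj ((c : ℂ) • S) g = 0 := hg
        rw [this, inner_zero_right]
      rw [inner_adj_right, smul_apply, inner_smul_left, mul_eq_zero] at h3
      exact h3.resolve_left (by simpa using hc0)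
    · intro hg
      refine ext_inner_left ℂ (fun f => ?_)
      change ⟪f, adj ((c : ℂ) • S) g⟫_ℂ = _
      rw [inner_adj_right, smul_apply, inner_smul_left, hg (S f) ⟨f, trivial, rfl⟩]
      simp
  rw [h1, h2, Submodule.orthogonal_orthogonal_eq_closure] at h
  rw [h, edim_cl]

theorem edim_mono {W W' : Submodule ℂ (L2 Z)} (h : W ≤ W') : edim H W ≤ edim H W' :=
  osum_mono (tau_mono h)

theorem edim_split {K N : Submodule ℂ (L2 Z)} (hN : Cls N) (h : K ≤ N) :
    edim H N = edim H K + edim H (N ⊓ Kᗮ) := by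
  rw [edim, edim, edim, ← osum_add]
  congr 1
  funext z
  exact tau_split hN h z

theorem edim_bot : edim H (⊥ : Submodule ℂ (L2 Z)) = 0 := by
  rw [edim, ← osum_zero (H := H) (Z := Z)]
  congr 1
  funext z
  exact tau_bot z

theorem eq_bot_of_edim {W : Submodule ℂ (L2 Z)} (hi : Inv H W) (h : edim H W = 0) : W = ⊥ :=
  eq_bot_of_tau (eq_zero_of_osum (tau_smul hi) h)

theorem eq_of_inf_orth {W W' : Submodule ℂ (L2 Z)} (hc : Cls W) (h : W ≤ W')
    (h0 : W' ⊓ Wᗮ = ⊥) : W = W' := by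
  refine le_antisymm h (fun f hf => ?_)
  have h1 : proj W f ∈ W := cl_le le_rfl hc (proj_mem W f)
  have h2 : f - proj W f ∈ W' ⊓ Wᗮ := ⟨W'.sub_mem hf (h h1), sub_proj_mem W f⟩
  rw [h0, Submodule.mem_bot, sub_eq_zero] at h2
  rw [h2]; exact h1

theorem eq_of_edim_le {W W' : Submodule ℂ (L2 Z)} (hc : Cls W) (hc' : Cls W') (hi : Inv H W)
    (hi' : Inv H W') (h : W ≤ W') (hf : edim H W ≠ ⊤) (hd : edim H W' ≤ edim H W) : W = W' := by
  refine eq_of_inf_orth hc h (eq_bot_of_edim (hi'.inf hi.orth) ?_)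
  rw [edim_split hc' h] at hd
  have h2 : edim H W + edim H (W' ⊓ Wᗮ) ≤ edim H W + 0 := by simpa using hd
  exact le_zero_iff.1 ((ENNReal.add_le_add_iff_left hf).1 h2)

theorem edim_ne_top_of_cofin {S : Set Z} (hS : Cofin H S) {W : Submodule ℂ (L2 Z)}
    (hW : W ≤ supp S) : edim H W ≠ ⊤ :=
  osum_ne_top hS (tau_le_one W) (fun _ hz => tau_eq_zero_of_supp hW hz)

theorem edim_ne_top (hS : Cofin H (Set.univ : Set Z)) (W : Submodule ℂ (L2 Z)) : edim H W ≠ ⊤ :=
  edim_ne_top_of_cofin hS (by rw [supp_univ]; exact le_top)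

theorem rank_nullity (hY : Free H Y) (hZ : Free H Z) {T : L2 Y →L[ℂ] L2 Z} (hT : Eqv H T)
    {N : Submodule ℂ (L2 Y)} (hc : Cls N) (hi : Inv H N) :
    edim H N = edim H (N ⊓ pre T ⊥) + edim H (img T N) := by
  have hP : ∀ f, proj N f ∈ N := fun f => cl_le le_rfl hc (proj_mem N f)
  have h := edim_orth_ker hY hZ (hT.comp (eqv_proj hi))
  have h1 : img (T ∘L proj N) ⊤ = img T N := by
    apply le_antisymm
    · rintro _ ⟨f, -, rfl⟩
      exact ⟨proj N f, hP f, rfl⟩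
    · rintro _ ⟨f, hf, rfl⟩
      exact ⟨f, trivial, by simp [proj_eq_self (le_cl N hf)]⟩
  have h2 : (pre (T ∘L proj N) ⊥)ᗮ = N ⊓ (N ⊓ pre T ⊥)ᗮ := by
    apply le_antisymm
    · refine le_inf (fun f hf => ?_) (Submodule.orthogonal_le (fun f hf => ?_))
      · rw [← cl_eq hc]
        refine mem_cl_of_orth (fun g hg => hf g ?_)
        change T (proj N g) = 0
        rw [proj_eq_zero hg, map_zero]
      · change T (proj N f) = 0
        rw [proj_eq_self (le_cl N hf.1)]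
        exact hf.2
    · rintro f ⟨hf, hf'⟩ g hg
      rw [← proj_eq_self (le_cl N hf), ← inner_proj_left]
      exact hf' _ ⟨hP g, hg⟩
  rw [h1, h2] at h
  rw [edim_split hc (inf_le_left : N ⊓ pre T ⊥ ≤ N), h]

theorem pre_proj_orth {W : Submodule ℂ (L2 Z)} (hW : Cls W) : pre (proj Wᗮ) ⊥ = W := by
  ext f
  rw [Submodule.mem_comap, Submodule.mem_bot]
  constructor
  · intro h
    have h1 := sub_proj_mem Wᗮ f
    have h2 : proj Wᗮ f = 0 := h
    rw [h2, sub_zero, Submodule.orthogonal_orthogonal_eq_closure] at h1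
    exact cl_le le_rfl hW h1
  · intro h
    exact proj_eq_zero (Submodule.le_orthogonal_orthogonal W h)

theorem edim_modular (hZ : Free H Z) {M N : Submodule ℂ (L2 Z)} (hM : Cls M) (hN : Cls N)
    (hMi : Inv H M) (hNi : Inv H N) :
    edim H (M ⊔ N) + edim H (M ⊓ N) = edim H M + edim H N := by
  have h1 := rank_nullity hZ hZ (eqv_proj hNi.orth) hM hMi
  have h2 := rank_nullity hZ hZ (eqv_proj hNi.orth) (cls_cl (M ⊔ N)) (hMi.sup hNi).cl
  rw [pre_proj_orth hN] at h1 h2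
  have h3 : cl (M ⊔ N) ⊓ N = N := inf_eq_right.2 (le_sup_right.trans (le_cl _))
  have h4 : img (proj Nᗮ) (M ⊔ N) = img (proj Nᗮ) M := by
    rw [img, Submodule.map_sup, sup_eq_left]
    rintro _ ⟨f, hf, rfl⟩
    have : proj Nᗮ f = 0 := proj_eq_zero (Submodule.le_orthogonal_orthogonal N hf)
    change proj Nᗮ f ∈ _
    rw [this]; exact Submodule.zero_mem _
  rw [h3, edim_cl, ← edim_cl (img _ (cl _)), cl_img_cl, edim_cl, h4] at h2
  rw [h2, h1]
  ring

theorem edim_pre (hY : Free H Y) (hZ : Free H Z) {T : L2 Y →L[ℂ] L2 Z} (hT : Eqv H T)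
    {N : Submodule ℂ (L2 Y)} (hc : Cls N) (hi : Inv H N) (hf : edim H N ≠ ⊤)
    {W : Submodule ℂ (L2 Z)} (hW : Cls W) (hWi : Inv H W) :
    edim H (N ⊓ pre T W) = edim H (N ⊓ pre T ⊥) + edim H (cl (img T N) ⊓ W) := by
  have h1 := rank_nullity hY hZ hT hc hi
  have h2 := rank_nullity hY hZ ((eqv_proj hWi.orth).comp hT) hc hi
  have h3 := rank_nullity hZ hZ (eqv_proj hWi.orth) (cls_cl (img T N)) (hi.img hT).cl
  have e1 : pre (proj Wᗮ ∘L T) ⊥ = pre T W := by
    conv_rhs => rw [← pre_proj_orth hW]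
    rfl
  have e2 : img (proj Wᗮ ∘L T) N = img (proj Wᗮ) (img T N) := by
    rw [img, img, img, ← Submodule.map_comp]
    rfl
  rw [e1, e2] at h2
  rw [pre_proj_orth hW, edim_cl, ← edim_cl (img _ (cl _)), cl_img_cl, edim_cl] at h3
  have hfin : edim H (img (proj Wᗮ) (img T N)) ≠ ⊤ := by
    refine ne_top_of_le_ne_top hf ?_
    rw [h2]; exact le_add_self
  rw [h3, h2, ← add_assoc] at h1
  exact (ENNReal.add_left_inj hfin).1 h1

theorem cl_img_inf (hY : Free H Y) (hZ : Free H Z) {T : L2 Y →L[ℂ] L2 Z} (hT : Eqv H T)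
    {N : Submodule ℂ (L2 Y)} (hc : Cls N) (hi : Inv H N) (hf : edim H N ≠ ⊤)
    {W : Submodule ℂ (L2 Z)} (hW : Cls W) (hWi : Inv H W) :
    cl (img T (N ⊓ pre T W)) = cl (img T N) ⊓ W := by
  have h1 := edim_pre hY hZ hT hc hi hf hW hWi
  have h2 := rank_nullity hY hZ hT (hc.inf (hW.pre T)) (hi.inf (hWi.pre hT))
  have e1 : N ⊓ pre T W ⊓ pre T ⊥ = N ⊓ pre T ⊥ := by
    rw [inf_assoc, inf_eq_right.2 (Submodule.comap_mono bot_le : pre T ⊥ ≤ pre T W)]
  rw [e1, h1] at h2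
  have hf1 : edim H (N ⊓ pre T ⊥) ≠ ⊤ := ne_top_of_le_ne_top hf (edim_mono inf_le_left)
  have h3 := (ENNReal.add_right_inj hf1).1 h2
  refine eq_of_edim_le (cls_cl _) ((cls_cl _).inf hW) ((hi.inf (hWi.pre hT)).img hT).cl
    ((hi.img hT).cl.inf hWi) ?_ ?_ ?_
  · refine le_inf (cl_mono (Submodule.map_mono inf_le_left)) (cl_le ?_ hW)
    rintro _ ⟨f, hf, rfl⟩
    exact hf.2
  · rw [edim_cl, ← h3]
    refine ne_top_of_le_ne_top hf ((edim_mono inf_le_left).trans ?_)
    rw [edim_cl, rank_nullity hY hZ hT hc hi]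
    exact le_add_self
  · rw [edim_cl, h3]

theorem edim_img_le (hY : Free H Y) (hZ : Free H Z) {T : L2 Y →L[ℂ] L2 Z} (hT : Eqv H T)
    {N : Submodule ℂ (L2 Y)} (hc : Cls N) (hi : Inv H N) : edim H (img T N) ≤ edim H N := by
  rw [rank_nullity hY hZ hT hc hi]
  exact le_add_self

/-- Additivity over a partition into two sets. -/
theorem edim_inf_supp_union {S T : Set Z} (hd : Disjoint S T) {W : Submodule ℂ (L2 Z)}
    (hS : ∀ f ∈ W, res S f ∈ W) (hT : ∀ f ∈ W, res T f ∈ W) :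
    edim H (W ⊓ supp (S ∪ T)) = edim H (W ⊓ supp S) + edim H (W ⊓ supp T) := by
  have hU : ∀ f ∈ W, res (S ∪ T) f ∈ W := by
    intro f hf
    have : res (S ∪ T) f = res S f + res T f := by
      classical
      ext z
      simp only [lp.coeFn_add, Pi.add_apply, res_apply, Set.mem_union]
      by_cases h1 : z ∈ S
      · have h2 : z ∉ T := fun h => Set.disjoint_left.1 hd h1 h
        simp [h1, h2]
      · by_cases h2 : z ∈ T <;> simp [h1, h2]
    rw [this]
    exact W.add_mem (hS f hf) (hT f hf)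
  rw [edim, edim, edim, tau_inf_supp' hS, tau_inf_supp' hT, tau_inf_supp' hU, ← osum_add,
    Set.indicator_union_of_disjoint hd]

end Dim

end Pool.Agent.P.MP_0f25e6_al.HN
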