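import Pool.Agent.P.MP_0f25e6_al.HN3

/-!
The lattice of rational subspaces.
-/

set_option autoImplicit false

open scoped InnerProductSpace ENNReal Topology
open Filter MulAction

noncomputable section

namespace Pool.Agent.P.MP_0f25e6_al.HN

universe u

section Fin

variable {X Y Z : Type*}

theorem finS_delta (z : Z) : FinS (delta z) :=
  (Set.finite_singleton z).subset (fun w hw => by
    by_contra h
    exact hw (delta_ne h))

theorem finS_zero : FinS (0 : L2 Z) := by
  have : {z | (0 : L2 Z) z ≠ 0} = ∅ := by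
    ext z; simp
  rw [FinS, this]; exact Set.finite_empty

theorem FinS.add {f g : L2 Z} (hf : FinS f) (hg : FinS g) : FinS (f + g) :=
  (Set.Finite.union hf hg).subset (fun z hz => by
    by_contra h
    simp only [Set.mem_union, Set.mem_ofPred_eq, not_or, not_not] at h
    apply hz
    simp [h.1, h.2])

theorem FinS.smul {f : L2 Z} (hf : FinS f) (c : ℂ) : FinS (c • f) :=
  Set.Finite.subset hf (fun z hz h => hz (by simp [h]))

theorem FinS.sub {f g : L2 Z} (hf : FinS f) (hg : FinS g) : FinS (f - g) := by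
  have := hf.add (hg.smul (-1))
  rwa [neg_one_smul, ← sub_eq_add_neg] at this

theorem finS_sum {I : Type*} (s : Finset I) {f : I → L2 Z} (h : ∀ i ∈ s, FinS (f i)) :
    FinS (∑ i ∈ s, f i) :=
  Finset.sum_induction f FinS (fun _ _ => FinS.add) finS_zero h

theorem FinS.eq_sum {f : L2 Z} (hf : FinS f) :
    f = ∑ z ∈ Set.Finite.toFinset hf, f z • delta z := by
  refine (hasSum_delta f).unique (hasSum_sum_of_ne_finset_zero (fun z hz => ?_))
  rw [Set.Finite.mem_toFinset, Set.mem_ofPred_eq, not_not] at hz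
  rw [hz, zero_smul]

theorem finCols_of_delta {T : L2 Y →L[ℂ] L2 Z} (h : ∀ y, FinS (T (delta y))) : FinCols T := by
  intro a ha
  rw [ha.eq_sum, map_sum]
  exact finS_sum _ (fun y _ => by rw [map_smul]; exact (h y).smul _)

theorem FinCols.comp {T : L2 Y →L[ℂ] L2 Z} {S : L2 X →L[ℂ] L2 Y} (hT : FinCols T)
    (hS : FinCols S) : FinCols (T ∘L S) := fun a ha => hT _ (hS a ha)

theorem FinCols.add {T S : L2 Y →L[ℂ] L2 Z} (hT : FinCols T) (hS : FinCols S) :
    FinCols (T + S) := fun a ha => (hT a ha).add (hS a ha)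

theorem FinCols.sub {T S : L2 Y →L[ℂ] L2 Z} (hT : FinCols T) (hS : FinCols S) :
    FinCols (T - S) := fun a ha => (hT a ha).sub (hS a ha)

theorem FinCols.smul {T : L2 Y →L[ℂ] L2 Z} (hT : FinCols T) (c : ℂ) : FinCols (c • T) :=
  fun a ha => (hT a ha).smul c

theorem finCols_sum {I : Type*} (s : Finset I) {T : I → L2 Y →L[ℂ] L2 Z}
    (h : ∀ i ∈ s, FinCols (T i)) : FinCols (∑ i ∈ s, T i) := fun a ha => by
  rw [sum_apply]
  exact finS_sum s (fun i hi => h i hi a ha)

theorem finCols_pull (j : Y → Z) (hj : Function.Injective j) : FinCols (pull j hj) :=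
  fun _ ha => Set.Finite.preimage hj.injOn ha

theorem finCols_push (j : Y → Z) (hj : Function.Injective j) : FinCols (push j hj) :=
  finCols_of_delta (fun y => by rw [push_delta]; exact finS_delta _)

theorem finRows_pull (j : Y → Z) (hj : Function.Injective j) : FinRows (pull j hj) :=
  finCols_push j hj

theorem finRows_push (j : Y → Z) (hj : Function.Injective j) : FinRows (push j hj) := by
  change FinCols (adj (push j hj))
  rw [adj_push]; exact finCols_pull j hj

theorem finCols_res (S : Set Z) : FinCols (res S) := fun a ha =>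
  Set.Finite.subset ha (fun z hz h => hz (by
    classical
    rw [res_apply]; split_ifs
    · exact h
    · rfl))

theorem finRows_res (S : Set Z) : FinRows (res S) := by
  change FinCols (adj (res S))
  rw [adj_res]; exact finCols_res S

theorem FinRows.comp {T : L2 Y →L[ℂ] L2 Z} {S : L2 X →L[ℂ] L2 Y} (hT : FinRows T)
    (hS : FinRows S) : FinRows (T ∘L S) := by
  rw [FinRows, ContinuousLinearMap.adjoint_comp]
  exact FinCols.comp hS hT

theorem FinRows.sub {T S : L2 Y →L[ℂ] L2 Z} (hT : FinRows T) (hS : FinRows S) :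
    FinRows (T - S) := by
  rw [FinRows, map_sub]
  exact FinCols.sub hT hS

theorem Cut.cls {N : Submodule ℂ (L2 Z)} (h : Cut N) : Cls N := by
  refine isClosed_of_closure_subset (fun f hf => h f (fun a _ ha => ?_))
  rw [← inner_conj_symm, inner_mem_orth (W := N) hf (fun g hg => by
    rw [← inner_conj_symm, ha g hg, map_zero]), map_zero]

theorem cut_iInf {I : Type*} {N : I → Submodule ℂ (L2 Z)} (h : ∀ i, Cut (N i)) :
    Cut (⨅ i, N i) := fun f hf => by
  rw [Submodule.mem_iInf]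
  exact fun i => h i f (fun a ha hg => hf a ha (fun g hg' =>
    hg g ((Submodule.mem_iInf _).1 hg' i)))

theorem Cut.inf {N N' : Submodule ℂ (L2 Z)} (h : Cut N) (h' : Cut N') : Cut (N ⊓ N') :=
  fun f hf => ⟨h f (fun a ha hg => hf a ha (fun g hg' => hg g hg'.1)),
    h' f (fun a ha hg => hf a ha (fun g hg' => hg g hg'.2))⟩

theorem cut_top : Cut (⊤ : Submodule ℂ (L2 Z)) := fun _ _ => Submodule.mem_top

theorem cut_supp (S : Set Z) : Cut (supp S) := fun f hf z hz => by
  rw [← inner_delta_left]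
  exact hf _ (finS_delta z) (fun g hg => by rw [inner_delta_left, hg z hz])

theorem cut_bot : Cut (⊥ : Submodule ℂ (L2 Z)) := by
  rw [← supp_empty]; exact cut_supp _

theorem Cut.pre {N : Submodule ℂ (L2 Z)} (h : Cut N) {T : L2 Y →L[ℂ] L2 Z} (hT : FinRows T) :
    Cut (pre T N) := fun f hf => h (T f) (fun a ha hg => by
  rw [← inner_adj_left]
  exact hf _ (hT a ha) (fun g hg' => by rw [inner_adj_left]; exact hg _ hg'))

/-- The subspace of vectors orthogonal to a family of vectors. -/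
def perp {I : Type*} (a : I → L2 Z) : Submodule ℂ (L2 Z) where
  carrier := {f | ∀ i, ⟪a i, f⟫_ℂ = 0}
  add_mem' := fun {f g} hf hg i => by rw [inner_add_right, hf i, hg i, add_zero]
  zero_mem' := fun i => inner_zero_right _
  smul_mem' := fun c f hf i => by rw [inner_smul_right, hf i, mul_zero]

theorem mem_perp {I : Type*} {a : I → L2 Z} {f : L2 Z} : f ∈ perp a ↔ ∀ i, ⟪a i, f⟫_ℂ = 0 :=
  Iff.rfl

theorem cut_perp {I : Type*} {a : I → L2 Z} (ha : ∀ i, FinS (a i)) : Cut (perp a) :=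
  fun _ hf i => hf _ (ha i) (fun _ hg => hg i)

end Fin

section Rat

variable {H : Type u} {X Y Z Z' : Type*} [Group H] [MulAction H Y] [MulAction H Z]
  [MulAction H Z'] [MulAction H X]

theorem finCols_act (a : H) : FinCols (act a : L2 Z →L[ℂ] L2 Z) := finCols_pull _ _

theorem finRows_act (a : H) : FinRows (act a : L2 Z →L[ℂ] L2 Z) := finRows_pull _ _

theorem finRows_of_finCols (hY : Cofin H (Set.univ : Set Y)) (hZ : Free H Z)
    {T : L2 Y →L[ℂ] L2 Z} (hT : Eqv H T) (hf : FinCols T) : FinRows T := by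
  obtain ⟨F, hF, hFY⟩ := hY
  refine finCols_of_delta (fun z => ?_)
  have h1 : ∀ y, {h : H | T (delta y) (h • z) ≠ 0}.Finite := by
    intro y
    refine Set.Finite.preimage (f := fun h : H => h • z) (fun a _ b _ hab => ?_)
      (hf _ (finS_delta y))
    have : b⁻¹ * a = 1 := hZ _ z (by
      simp only at hab
      rw [mul_smul, hab, inv_smul_smul])
    exact (inv_mul_eq_one.1 this).symm
  refine (hF.biUnion (fun y _ => (h1 y).image (fun h => h⁻¹ • y))).subset (fun y hy => ?_)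
  obtain ⟨h, hh⟩ := hFY y trivial
  simp only [Set.mem_iUnion, Set.mem_image]
  refine ⟨h • y, hh, h, ?_, inv_smul_smul h y⟩
  rw [Set.mem_ofPred_eq, ← act_delta, hT, act_apply, inv_smul_smul]
  intro h0
  apply hy
  change adj T (delta z) y = 0
  rw [← inner_delta_left, inner_adj_right, inner_delta_right, h0, map_zero]

theorem Rat.cls {W : Submodule ℂ (L2 Z)} (h : Rat H W) : Cls W := by
  obtain ⟨Y, _, -, -, N, T, -, -, -, -, rfl⟩ := h
  exact cls_cl _

theorem Rat.inv {W : Submodule ℂ (L2 Z)} (h : Rat H W) : Inv H W := by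
  obtain ⟨Y, _, -, -, N, T, hN, -, hT, -, rfl⟩ := h
  exact (hN.img hT).cl

theorem Rat.edim_ne_top (hZ : Free H Z) {W : Submodule ℂ (L2 Z)} (h : Rat H W) :
    edim H W ≠ ⊤ := by
  obtain ⟨Y, _, hY, hc, N, T, hN, hcut, hT, -, rfl⟩ := h
  rw [edim_cl]
  exact ne_top_of_le_ne_top (HN.edim_ne_top hc N) (edim_img_le hY hZ hT hcut.cls hN)

theorem Rat.int (hH : SAC H) (hZ : Free H Z) {W : Submodule ℂ (L2 Z)} (h : Rat H W) :
    ∃ n : ℕ, edim H W = n := by
  obtain ⟨Y, _, hY, hc, N, T, hN, hcut, hT, hf, rfl⟩ := h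
  obtain ⟨a, ha⟩ := hH Y hY hc N hN hcut
  obtain ⟨b, hb⟩ := hH Y hY hc (N ⊓ pre T ⊥) (hN.inf (inv_bot.pre hT))
    (hcut.inf (cut_bot.pre (finRows_of_finCols hc hZ hT hf)))
  have h := rank_nullity hY hZ hT hcut.cls hN
  rw [ha, hb] at h
  have hba : b ≤ a := by
    have : (b : ℝ≥0∞) ≤ a := by rw [h]; exact le_self_add
    exact_mod_cast this
  obtain ⟨c, rfl⟩ := Nat.exists_eq_add_of_le hba
  refine ⟨c, ?_⟩
  rw [edim_cl]
  rw [Nat.cast_add] at h
  exact ((ENNReal.add_right_inj (ENNReal.natCast_ne_top b)).1 h).symm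

theorem Rat.inf_cut (hZ : Free H Z) {W N' : Submodule ℂ (L2 Z)} (h : Rat H W) (hN' : Cut N')
    (hi : Inv H N') : Rat H (W ⊓ N') := by
  obtain ⟨Y, _, hY, hc, N, T, hN, hcut, hT, hf, rfl⟩ := h
  exact ⟨Y, _, hY, hc, N ⊓ pre T N', T, hN.inf (hi.pre hT),
    hcut.inf (hN'.pre (finRows_of_finCols hc hZ hT hf)), hT, hf,
    (cl_img_inf hY hZ hT hcut.cls hN (HN.edim_ne_top hc N) hN'.cls hi).symm⟩

/-- Change of group and of space. -/
theorem Rat.transport {H' : Type u} [Group H'] {Z'' : Type*} [MulAction H' Z''] (φ : H' →* H)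
    (hφ : Function.Injective φ) [φ.range.FiniteIndex] {S : L2 Z →L[ℂ] L2 Z''}
    (hS : ∀ (h : H') (f : L2 Z), S (act (φ h) f) = act h (S f)) (hf : FinCols S)
    {W : Submodule ℂ (L2 Z)} (h : Rat H W) : Rat H' (cl (HN.img S W)) := by
  obtain ⟨Y, _, hY, hc, N, T, hN, hcut, hT, hTf, rfl⟩ := h
  let _ : MulAction H' Y := MulAction.compHom Y φ
  have hι : ∀ (c : H') (y : Y), φ c • y = c • y := fun _ _ => rfl
  refine ⟨Y, inferInstance, hY.of_hom φ hφ hι, ?_, N, S ∘L T, hN.of_hom φ hι, hcut, ?_,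
    hf.comp hTf, ?_⟩
  · obtain ⟨F, hF, hFY⟩ := hc
    refine ⟨⋃ q : H ⧸ φ.range, (fun y => q.out⁻¹ • y) '' F,
      Set.finite_iUnion (fun q => hF.image _), fun y _ => ?_⟩
    obtain ⟨h, hh⟩ := hFY y trivial
    obtain ⟨⟨_, c, rfl⟩, hc⟩ := QuotientGroup.mk_out_eq_mul φ.range h
    refine ⟨c⁻¹, Set.mem_iUnion.2 ⟨(h : H ⧸ φ.range), h • y, hh, ?_⟩⟩
    simp only at hc ⊢
    rw [hc, ← hι, ← mul_smul]
    simp
  · intro c f
    simp only [ContinuousLinearMap.comp_apply]
    rw [← act_hom φ hι, hT, hS]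
  · rw [cl_img_cl, HN.img, HN.img, HN.img, ← Submodule.map_comp]
    rfl

theorem Rat.img {W : Submodule ℂ (L2 Z)} (h : Rat H W) {S : L2 Z →L[ℂ] L2 Z'} (hS : Eqv H S)
    (hf : FinCols S) : Rat H (cl (img S W)) := by
  have : (MonoidHom.id H).range.FiniteIndex := by
    rw [MonoidHom.range_eq_top_of_surjective _ Function.surjective_id]; infer_instance
  exact h.transport (MonoidHom.id H) Function.injective_id hS hf

theorem free_sum (hY : Free H Y) (hZ : Free H Z) : Free H (Y ⊕ Z) := by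
  rintro h (y | z) hh
  · exact hY h y (Sum.inl_injective hh)
  · exact hZ h z (Sum.inr_injective hh)

theorem cofin_sum (hY : Cofin H (Set.univ : Set Y)) (hZ : Cofin H (Set.univ : Set Z)) :
    Cofin H (Set.univ : Set (Y ⊕ Z)) := by
  obtain ⟨F, hF, hFY⟩ := hY
  obtain ⟨F', hF', hFZ⟩ := hZ
  refine ⟨Sum.inl '' F ∪ Sum.inr '' F', (hF.image _).union (hF'.image _), ?_⟩
  rintro (y | z) -
  · obtain ⟨h, hh⟩ := hFY y trivial
    exact ⟨h, Or.inl ⟨_, hh, rfl⟩⟩
  · obtain ⟨h, hh⟩ := hFZ z trivial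
    exact ⟨h, Or.inr ⟨_, hh, rfl⟩⟩

theorem pull_inl_push_inr (g : L2 Z) :
    pull (Sum.inl : Y → Y ⊕ Z) Sum.inl_injective (push Sum.inr Sum.inr_injective g) = 0 := by
  ext y
  rw [pull_apply, push_apply_not _ _ _ (fun z => Sum.inr_ne_inl)]
  rfl

theorem pull_inr_push_inl (g : L2 Y) :
    pull (Sum.inr : Z → Y ⊕ Z) Sum.inr_injective (push Sum.inl Sum.inl_injective g) = 0 := by
  ext y
  rw [pull_apply, push_apply_not _ _ _ (fun z => Sum.inl_ne_inr)]
  rfl

theorem sum_decomp (f : L2 (Y ⊕ Z)) :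
    f = push Sum.inl Sum.inl_injective (pull Sum.inl Sum.inl_injective f) +
      push Sum.inr Sum.inr_injective (pull Sum.inr Sum.inr_injective f) := by
  ext (y | z)
  · rw [lp.coeFn_add, Pi.add_apply, push_apply_self, push_apply_not _ _ _ (fun z => Sum.inr_ne_inl),
      add_zero, pull_apply]
  · rw [lp.coeFn_add, Pi.add_apply, push_apply_self, push_apply_not _ _ _ (fun z => Sum.inl_ne_inr),
      zero_add, pull_apply]

theorem eqv_pull_inl : Eqv H (pull (Sum.inl : Y → Y ⊕ Z) Sum.inl_injective) :=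
  eqv_pull _ (fun _ _ => rfl)

theorem eqv_pull_inr : Eqv H (pull (Sum.inr : Z → Y ⊕ Z) Sum.inr_injective) :=
  eqv_pull _ (fun _ _ => rfl)

theorem eqv_push_inl : Eqv H (push (Sum.inl : Y → Y ⊕ Z) Sum.inl_injective) :=
  eqv_push _ (fun _ _ => rfl)

theorem eqv_push_inr : Eqv H (push (Sum.inr : Z → Y ⊕ Z) Sum.inr_injective) :=
  eqv_push _ (fun _ _ => rfl)

theorem cl_sup_cl (U V : Submodule ℂ (L2 Z)) : cl (cl U ⊔ cl V) = cl (U ⊔ V) :=
  le_antisymm (cl_le (sup_le (cl_mono le_sup_left) (cl_mono le_sup_right)) (cls_cl _))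
    (cl_mono (sup_le_sup (le_cl U) (le_cl V)))

theorem Rat.sup {W W' : Submodule ℂ (L2 Z)} (h : Rat H W) (h' : Rat H W') :
    Rat H (cl (W ⊔ W')) := by
  obtain ⟨Y, _, hY, hc, N, T, hN, hcut, hT, hf, rfl⟩ := h
  obtain ⟨Y', _, hY', hc', N', T', hN', hcut', hT', hf', rfl⟩ := h'
  refine ⟨Y ⊕ Y', inferInstance, free_sum hY hY', cofin_sum hc hc',
    pre (pull Sum.inl Sum.inl_injective) N ⊓ pre (pull Sum.inr Sum.inr_injective) N',
    T ∘L pull Sum.inl Sum.inl_injective + T' ∘L pull Sum.inr Sum.inr_injective,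
    (hN.pre eqv_pull_inl).inf (hN'.pre eqv_pull_inr),
    (hcut.pre (finRows_pull _ _)).inf (hcut'.pre (finRows_pull _ _)),
    (hT.comp eqv_pull_inl).add (hT'.comp eqv_pull_inr),
    (hf.comp (finCols_pull _ _)).add (hf'.comp (finCols_pull _ _)), ?_⟩
  rw [cl_sup_cl]
  congr 1
  apply le_antisymm
  · refine sup_le ?_ ?_
    · rintro _ ⟨f, hf, rfl⟩
      refine ⟨push Sum.inl Sum.inl_injective f, ⟨?_, ?_⟩, ?_⟩
      · change pull _ _ (push _ _ f) ∈ N
        rwa [pull_push]
      · change pull _ _ (push _ _ f) ∈ N'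
        rw [pull_inr_push_inl]; exact N'.zero_mem
      · change T (pull _ _ (push _ _ f)) + T' (pull _ _ (push _ _ f)) = T f
        rw [pull_push, pull_inr_push_inl, map_zero, add_zero]
    · rintro _ ⟨f, hf, rfl⟩
      refine ⟨push Sum.inr Sum.inr_injective f, ⟨?_, ?_⟩, ?_⟩
      · change pull _ _ (push _ _ f) ∈ N
        rw [pull_inl_push_inr]; exact N.zero_mem
      · change pull _ _ (push _ _ f) ∈ N'
        rwa [pull_push]
      · change T (pull _ _ (push _ _ f)) + T' (pull _ _ (push _ _ f)) = T' f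
        rw [pull_push, pull_inl_push_inr, map_zero, zero_add]
  · rintro _ ⟨f, hf, rfl⟩
    exact Submodule.add_mem_sup ⟨_, hf.1, rfl⟩ ⟨_, hf.2, rfl⟩

theorem Rat.inf (hZ : Free H Z) {W W' : Submodule ℂ (L2 Z)} (h : Rat H W) (h' : Rat H W') :
    Rat H (W ⊓ W') := by
  have h1 := (h.img (eqv_push_inl (Z := Z)) (finCols_push _ _)).sup
    (h'.img (eqv_push_inr (Y := Z)) (finCols_push _ _))
  have h2 := h1.inf_cut (free_sum hZ hZ)
    (cut_bot.pre ((finRows_pull Sum.inl Sum.inl_injective).sub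
      (finRows_pull Sum.inr Sum.inr_injective)))
    (inv_bot.pre (eqv_pull_inl.sub eqv_pull_inr))
  have h3 := h2.img (eqv_pull_inl (Z := Z)) (finCols_pull _ _)
  convert h3 using 1
  rw [cl_sup_cl]
  have hle : cl (HN.img (push Sum.inl Sum.inl_injective) W ⊔
      HN.img (push Sum.inr Sum.inr_injective) W') ≤
      pre (pull Sum.inl Sum.inl_injective) W ⊓ pre (pull Sum.inr Sum.inr_injective) W' := by
    refine cl_le (sup_le ?_ ?_) ((h.cls.pre _).inf (h'.cls.pre _))
    · rintro _ ⟨f, hf, rfl⟩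
      refine ⟨?_, ?_⟩
      · change pull _ _ (push _ _ f) ∈ W
        rwa [pull_push]
      · change pull _ _ (push _ _ f) ∈ W'
        rw [pull_inr_push_inl]; exact W'.zero_mem
    · rintro _ ⟨f, hf, rfl⟩
      refine ⟨?_, ?_⟩
      · change pull _ _ (push _ _ f) ∈ W
        rw [pull_inl_push_inr]; exact W.zero_mem
      · change pull _ _ (push _ _ f) ∈ W'
        rwa [pull_push]
  apply le_antisymm
  · rintro f ⟨hf, hf'⟩
    refine le_cl _ ⟨push Sum.inl Sum.inl_injective f + push Sum.inr Sum.inr_injective f,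
      ⟨le_cl _ (Submodule.add_mem_sup ⟨f, hf, rfl⟩ ⟨f, hf', rfl⟩), ?_⟩, ?_⟩
    · change pull _ _ (_ + _) - pull _ _ (_ + _) = 0
      rw [map_add, map_add, pull_push, pull_push, pull_inl_push_inr, pull_inr_push_inl]
      simp
    · change pull _ _ (_ + _) = f
      rw [map_add, pull_push, pull_inl_push_inr, add_zero]
  · refine cl_le ?_ (h.cls.inf h'.cls)
    rintro _ ⟨f, ⟨hf, hf0⟩, rfl⟩
    refine ⟨(hle hf).1, ?_⟩
    have h4 : pull Sum.inl Sum.inl_injective f - pull Sum.inr Sum.inr_injective f = 0 := hf0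
    change pull _ _ f ∈ W'
    rw [sub_eq_zero.1 h4]
    exact (hle hf).2

/-! ### Standard free sets and induction -/

@[simp] theorem Tw.smul_y {K : Type*} (h : H) (p : Tw Y K) : (h • p).y = h • p.y := rfl

@[simp] theorem Tw.smul_k {K : Type*} (h : H) (p : Tw Y K) : (h • p).k = p.k := rfl

theorem Tw.smul_mk {K : Type*} (h : H) (y : Y) (k : K) :
    h • (⟨y, k⟩ : Tw Y K) = ⟨h • y, k⟩ := rfl

theorem free_tw {K : Type*} (hY : Free H Y) : Free H (Tw Y K) :=
  fun h p hp => hY h p.y (congrArg Tw.y hp)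

theorem cofin_tw {K : Type*} [Finite K] (hY : Cofin H (Set.univ : Set Y)) :
    Cofin H (Set.univ : Set (Tw Y K)) := by
  obtain ⟨F, hF, hFY⟩ := hY
  refine ⟨(fun p : Y × K => (⟨p.1, p.2⟩ : Tw Y K)) '' (F ×ˢ Set.univ),
    (hF.prod Set.finite_univ).image _, fun p _ => ?_⟩
  obtain ⟨h, hh⟩ := hFY p.y trivial
  exact ⟨h, ⟨(h • p.y, p.k), ⟨hh, trivial⟩, rfl⟩⟩

theorem free_self : Free H H := fun h z hz => by simpa using hz

theorem cofin_self : Cofin H (Set.univ : Set H) :=
  ⟨{1}, Set.finite_singleton _, fun z _ => ⟨z⁻¹, by simp⟩⟩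

theorem finite_quot (hc : Cofin H (Set.univ : Set Y)) : Finite (orbitRel.Quotient H Y) := by
  obtain ⟨F, hF, hFY⟩ := hc
  rw [← Set.finite_univ_iff]
  refine (hF.image (Quotient.mk (orbitRel H Y))).subset (fun q _ => ?_)
  obtain ⟨h, hh⟩ := hFY q.out trivial
  exact ⟨_, hh, by rw [mk_smul, Quotient.out_eq]⟩

theorem std_bij (hY : Free H Y) :
    Function.Bijective (fun p : Tw H (orbitRel.Quotient H Y) => p.y • p.k.out) := by
  have h := orbit_bij hY
  constructor
  · rintro ⟨a, q⟩ ⟨b, r⟩ hab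
    have := h.1 (a₁ := (q, a)) (a₂ := (r, b)) hab
    simp only [Prod.mk.injEq] at this
    rw [this.1, this.2]
  · intro y
    obtain ⟨⟨q, a⟩, hq⟩ := h.2 y
    exact ⟨⟨a, q⟩, hq⟩

theorem exists_op {K : Type*} [Finite K] (hZ : Free H Z) (b : K → L2 Z) (hb : ∀ k, FinS (b k)) :
    ∃ T : L2 (Tw H K) →L[ℂ] L2 Z, Eqv H T ∧ FinCols T ∧
      ∀ (a : H) (k : K), T (delta ⟨a, k⟩) = act a (b k) := by
  classical
  have := Fintype.ofFinite K
  have hinj : ∀ z : Z, Function.Injective (fun a : H => a • z) := by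
    intro z a c hac
    have : c⁻¹ * a = 1 := hZ _ z (by
      simp only at hac
      rw [mul_smul, hac, inv_smul_smul])
    exact (inv_mul_eq_one.1 this).symm
  have hinj2 : ∀ k : K, Function.Injective (fun a : H => (⟨a, k⟩ : Tw H K)) :=
    fun k a c hac => congrArg Tw.y hac
  refine ⟨∑ k, ∑ z ∈ Set.Finite.toFinset (hb k),
    b k z • (push _ (hinj z) ∘L pull _ (hinj2 k)), ?_, ?_, ?_⟩
  · refine eqv_sum _ (fun k _ => eqv_sum _ (fun z _ => Eqv.smul (Eqv.comp ?_ ?_) _))
    · exact eqv_push _ (fun a c => mul_smul a c z)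
    · exact eqv_pull _ (fun a c => rfl)
  · exact finCols_sum _ (fun k _ => finCols_sum _ (fun z _ =>
      ((finCols_push _ _).comp (finCols_pull _ _)).smul _))
  · intro a k
    rw [sum_apply, Finset.sum_eq_single k]
    · conv_rhs => rw [(hb k).eq_sum]
      rw [sum_apply, map_sum]
      refine Finset.sum_congr rfl (fun z _ => ?_)
      rw [smul_apply, map_smul, ContinuousLinearMap.comp_apply, pull_delta_self _ (hinj2 k) a,
        push_delta, act_delta]
    · intro k' _ hk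
      rw [sum_apply]
      refine Finset.sum_eq_zero (fun z _ => ?_)
      rw [smul_apply, ContinuousLinearMap.comp_apply, pull_delta_not _ (hinj2 k'), map_zero,
        smul_zero]
      exact fun c hc => hk (congrArg Tw.k hc)
    · intro h; exact absurd (Finset.mem_univ k) h

theorem Rat.std {W : Submodule ℂ (L2 Z)} (h : Rat H W) :
    ∃ (K : Type u) (_ : Finite K) (N : Submodule ℂ (L2 (Tw H K))) (T : L2 (Tw H K) →L[ℂ] L2 Z),
      Inv H N ∧ Cut N ∧ Eqv H T ∧ FinCols T ∧ W = cl (HN.img T N) := by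
  obtain ⟨Y, _, hY, hc, N, T, hN, hcut, hT, hf, rfl⟩ := h
  have hb := std_bij hY
  have he : Eqv H (push _ hb.1) := eqv_push _ (fun a p => mul_smul a p.y _)
  refine ⟨_, finite_quot hc, pre (push _ hb.1) N, T ∘L push _ hb.1, hN.pre he,
    hcut.pre (finRows_push _ _), hT.comp he, hf.comp (finCols_push _ _), ?_⟩
  congr 1
  have h1 : ∀ f, push _ hb.1 (pull _ hb.1 f) = f := fun f => by
    rw [push_pull, hb.2.range_eq]
    exact res_eq_self (by rw [supp_univ]; trivial)
  apply le_antisymm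
  · rintro _ ⟨f, hf, rfl⟩
    refine ⟨pull _ hb.1 f, ?_, ?_⟩
    · change push _ _ (pull _ _ f) ∈ N
      rwa [h1]
    · change T (push _ _ (pull _ _ f)) = T f
      rw [h1]
  · rintro _ ⟨f, hf, rfl⟩
    exact ⟨_, hf, rfl⟩

theorem rat_supp (hZ : Free H Z) {S : Set Z} (hS : ∀ (h : H), ∀ z ∈ S, h • z ∈ S)
    (hc : Cofin H S) : Rat H (supp S) := by
  obtain ⟨F, hF, hFS⟩ := hc
  have : Finite (F ∩ S : Set Z) := (hF.inter_of_left S).to_subtype
  obtain ⟨n, ⟨e⟩⟩ := Finite.exists_equiv_fin (F ∩ S : Set Z)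
  obtain ⟨T, hT, hf, hTd⟩ := exists_op (K := ULift.{u} (Fin n)) hZ
    (fun k => delta (e.symm k.down : Z)) (fun k => finS_delta _)
  refine ⟨Tw H (ULift.{u} (Fin n)), inferInstance, free_tw free_self, cofin_tw cofin_self, ⊤, T,
    inv_top, cut_top, hT, hf, le_antisymm (fun f hf => ?_) (cl_le ?_ (cls_supp S))⟩
  · refine mem_of_hasSum (cls_cl _) (hasSum_delta f) (fun z => ?_)
    by_cases hz : z ∈ S
    · obtain ⟨h, hh⟩ := hFS z hz
      refine Submodule.smul_mem _ _ (le_cl _ ⟨delta ⟨h⁻¹, ⟨e ⟨h • z, hh, hS h z hz⟩⟩⟩, trivial, ?_⟩)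
      change T _ = _
      rw [hTd, act_delta]
      simp
    · rw [hf z hz, zero_smul]; exact Submodule.zero_mem _
  · rintro _ ⟨f, -, rfl⟩
    refine mem_of_hasSum (cls_supp S) ((hasSum_delta f).mapL T) (fun p => ?_)
    rw [map_smul]
    refine Submodule.smul_mem _ _ ?_
    obtain ⟨a, k⟩ := p
    rw [hTd, act_delta]
    exact delta_mem_supp (hS _ _ (e.symm k.down).2.2)

theorem rat_bot (hZ : Free H Z) : Rat H (⊥ : Submodule ℂ (L2 Z)) := by
  rw [← supp_empty]
  exact rat_supp hZ (fun _ _ h => h) ⟨∅, Set.finite_empty, fun _ h => h.elim⟩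

/-- Induction of rational subspaces. -/
theorem Rat.induce {C : Type u} [Group C] [MulAction C Z] (ι : C →* H) (hZ : Free H Z)
    (hinj : Function.Injective ι) (hι : ∀ (c : C) (z : Z), ι c • z = c • z)
    {W : Submodule ℂ (L2 Z)} (h : Rat C W) : Rat H (cl (⨆ a : H, HN.img (act a) W)) := by
  obtain ⟨K, _, N, T, hN, hcut, hT, hf, rfl⟩ := h.std
  obtain ⟨T', hT', hf', hTd⟩ := exists_op (K := K) hZ (fun k => T (delta ⟨1, k⟩))
    (fun k => hf _ (finS_delta _))
  let j : Tw C K → Tw H K := fun p => ⟨ι p.y, p.k⟩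
  have hj : Function.Injective j := by
    rintro ⟨a, k⟩ ⟨b, l⟩ hab
    have h1 : ι a = ι b := congrArg Tw.y hab
    have h2 : k = l := congrArg Tw.k hab
    rw [hinj h1, h2]
  have hTj : ∀ g, T' (push j hj g) = T g := by
    intro g
    have : T' ∘L push j hj = T := ext_delta' (fun p => by
      obtain ⟨c, k⟩ := p
      rw [ContinuousLinearMap.comp_apply, push_delta, hTd, act_hom ι hι, ← hT, act_delta,
        Tw.smul_mk, smul_eq_mul, mul_one])
    exact congrArg (fun S : L2 (Tw C K) →L[ℂ] L2 Z => S g) this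
  let N' : Submodule ℂ (L2 (Tw H K)) := ⨅ a : H, pre (pull j hj ∘L act a) N
  have hmem : ∀ f, f ∈ N' ↔ ∀ a : H, pull j hj (act a f) ∈ N := fun f => Submodule.mem_iInf _
  have hN' : Inv H N' := fun a f hf => (hmem _).2 (fun b => by
    rw [← act_mul]; exact (hmem f).1 hf _)
  have hpush : ∀ g ∈ N, push j hj g ∈ N' := by
    intro g hg
    refine (hmem _).2 (fun a => ?_)
    by_cases ha : a ∈ ι.range
    · obtain ⟨c, rfl⟩ := ha
      have : pull j hj (act (ι c) (push j hj g)) = act c g := by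
        ext p
        rw [pull_apply, act_apply, act_apply, ← push_apply_self j hj g]
        simp only [j, Tw.smul_mk, Tw.smul_y, Tw.smul_k, smul_eq_mul, map_mul, map_inv]
      rw [this]; exact hN c g hg
    · have : pull j hj (act a (push j hj g)) = 0 := by
        ext p
        rw [pull_apply, act_apply, push_apply_not]
        · rfl
        · intro q hq
          apply ha
          have h1 : ι q.y = a⁻¹ * ι p.y := congrArg Tw.y hq
          exact ⟨p.y * q.y⁻¹, by rw [map_mul, map_inv, h1]; group⟩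
      rw [this]; exact N.zero_mem
  refine ⟨Tw H K, inferInstance, free_tw free_self, cofin_tw cofin_self, N', T', hN',
    cut_iInf (fun a => hcut.pre ((finRows_pull _ _).comp (finRows_act a))), hT', hf', ?_⟩
  apply le_antisymm
  · refine cl_le (iSup_le (fun a => ?_)) (cls_cl _)
    refine (img_cl_le _ _).trans (cl_mono ?_)
    rintro _ ⟨_, ⟨g, hg, rfl⟩, rfl⟩
    refine ⟨act a (push j hj g), hN' a _ (hpush g hg), ?_⟩
    change T' _ = act a (T g)
    rw [hT', hTj]
  · refine cl_le ?_ (cls_cl _)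
    rintro _ ⟨f, hf, rfl⟩
    let κ : Tw H K → H ⧸ ι.range := fun p => (p.y : H ⧸ ι.range)
    refine mem_of_hasSum (cls_cl _) ((hasSum_res κ f).mapL T') (fun q => ?_)
    have h1 : res (κ ⁻¹' {q}) f = act q.out (push j hj (pull j hj (act q.out⁻¹ f))) := by
      rw [push_pull, act_res, act_act_inv]
      congr 2
      ext p
      simp only [Set.mem_preimage, Set.mem_singleton_iff, Set.mem_ofPred_eq, κ]
      conv_lhs => rw [← QuotientGroup.out_eq' q, eq_comm, QuotientGroup.eq]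
      constructor
      · rintro ⟨c, hc⟩
        exact ⟨⟨c, p.k⟩, Tw.ext hc rfl⟩
      · rintro ⟨r, hr⟩
        exact ⟨r.y, congrArg Tw.y hr⟩
    rw [h1, hT', hTj]
    refine le_cl _ (Submodule.mem_iSup_of_mem q.out ⟨_, le_cl _ ⟨_, (hmem f).1 hf _, rfl⟩, rfl⟩)

/-- A subspace that is rational for a subgroup and invariant is rational. -/
theorem Rat.of_inv {C : Type u} [Group C] [MulAction C Z] (ι : C →* H) (hZ : Free H Z)
    (hinj : Function.Injective ι) (hι : ∀ (c : C) (z : Z), ι c • z = c • z)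
    {W : Submodule ℂ (L2 Z)} (h : Rat C W) (hi : Inv H W) : Rat H W := by
  convert h.induce ι hZ hinj hι using 1
  apply le_antisymm
  · intro f hf
    exact le_cl _ (Submodule.mem_iSup_of_mem (1 : H) ⟨f, hf, act_one f⟩)
  · refine cl_le (iSup_le (fun a => ?_)) h.cls
    rintro _ ⟨g, hg, rfl⟩
    exact hi a g hg

/-- The part of a split subspace over an orbit is rational if one fibre is. -/
theorem Rat.orbit {C : Type u} [Group C] [MulAction C Z] (ι : C →* H) (hZ : Free H Z)
    (hinj : Function.Injective ι) (hι : ∀ (c : C) (z : Z), ι c • z = c • z)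
    {κ : Z → X} (hκ : ∀ (a : H) (z : Z), κ (a • z) = a • κ z) (x₀ : X)
    {W : Submodule ℂ (L2 Z)} (hc : Cls W) (hi : Inv H W) (hs : Split κ W)
    (h : Rat C (W ⊓ supp (κ ⁻¹' {x₀}))) : Rat H (W ⊓ supp (κ ⁻¹' orbit H x₀)) := by
  convert h.induce ι hZ hinj hι using 1
  apply le_antisymm
  · rintro f ⟨hf, hfs⟩
    refine mem_of_res (κ := κ) (cls_cl _) (fun x => ?_)
    by_cases hx : x ∈ MulAction.orbit H x₀
    · obtain ⟨a, rfl⟩ := hx
      refine le_cl _ (Submodule.mem_iSup_of_mem a ⟨res (κ ⁻¹' {x₀}) (act a⁻¹ f),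
        ⟨hs _ _ (hi _ _ hf), res_mem_supp _ _⟩, ?_⟩)
      change act a _ = _
      rw [act_res_fibre hκ, act_act_inv]
    · rw [res_eq_zero hfs]
      · exact Submodule.zero_mem _
      · intro z hz hz'
        rw [Set.mem_preimage, Set.mem_singleton_iff] at hz
        exact hx (hz ▸ hz')
  · refine cl_le (iSup_le (fun a => ?_)) (hc.inf (cls_supp _))
    rintro _ ⟨g, hg, rfl⟩
    refine ⟨hi a g hg.1, fun z hz => ?_⟩
    change act a g z = 0
    rw [act_apply]
    refine hg.2 _ (fun h => hz ?_)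
    rw [Set.mem_preimage, Set.mem_singleton_iff, hκ, inv_smul_eq_iff] at h
    exact ⟨a, h.symm⟩

theorem SAC.of_injective {C : Type u} [Group C] (ι : C →* H) (hinj : Function.Injective ι)
    (hH : SAC H) : SAC C := by
  intro Y _ hY hc N hN hcut
  have hr : Rat C N := by
    have := (rat_supp hY (S := Set.univ) (fun _ _ _ => trivial) hc).inf_cut hY hcut hN
    rwa [supp_univ, top_inf_eq] at this
  -- move to a free `H`-set
  let K := orbitRel.Quotient C Y
  let _ : MulAction C (Tw H K) := MulAction.compHom _ ι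
  have hι : ∀ (c : C) (p : Tw H K), ι c • p = c • p := fun _ _ => rfl
  have hb := std_bij hY
  let e := Equiv.ofBijective _ hb
  let j : Y → Tw H K := fun y => ⟨ι (e.symm y).y, (e.symm y).k⟩
  have hj : Function.Injective j := by
    intro y y' h
    apply e.symm.injective
    have h1 : (j y).y = (j y').y := congrArg Tw.y h
    have h2 : (j y).k = (j y').k := congrArg Tw.k h
    exact Tw.ext (hinj h1) h2
  have hje : ∀ (c : C) y, j (c • y) = c • j y := by
    intro c y
    have : e.symm (c • y) = c • e.symm y := by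
      rw [Equiv.symm_apply_eq]
      conv_lhs => rw [← e.apply_symm_apply y]
      exact (mul_smul c _ _).symm
    simp only [j, this, Tw.smul_y, Tw.smul_k, smul_eq_mul, map_mul]
    rfl
  have hF : Free H (Tw H K) := free_tw free_self
  have hFC : Free C (Tw H K) := hF.of_hom ι hinj hι
  have hr2 := hr.img (eqv_push hj hje) (finCols_push _ _)
  let κ : Tw H K → H ⧸ ι.range := fun p => (p.y : H ⧸ ι.range)
  have hκ : ∀ (a : H) p, κ (a • p) = a • κ p := fun _ _ => rfl
  have hst : stabilizer H ((1 : H) : H ⧸ ι.range) = ι.range := stabilizer_quotient _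
  set W₀ := cl (img (push j hj) N) with hW₀
  have hW₀s : W₀ ≤ supp (κ ⁻¹' {((1 : H) : H ⧸ ι.range)}) := by
    refine cl_le ?_ (cls_supp _)
    rintro _ ⟨g, -, rfl⟩ p hp
    refine push_apply_not j hj g (fun y hy => hp ?_)
    rw [← hy, Set.mem_preimage, Set.mem_singleton_iff, eq_comm]
    exact QuotientGroup.eq.2 ⟨(e.symm y).y, by simp [j]⟩
  set W := cl (⨆ a : H, img (act a) W₀) with hW
  have hrW : Rat H W := hr2.induce ι hF hinj hι
  have hfib : ∀ (a : H), ∀ g ∈ W₀, act a g ∈ supp (κ ⁻¹' {(a : H ⧸ ι.range)}) := by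
    intro a g hg p hp
    rw [act_apply]
    refine hW₀s hg _ (fun h => hp ?_)
    rw [Set.mem_preimage, Set.mem_singleton_iff, hκ, inv_smul_eq_iff] at h
    rw [Set.mem_preimage, Set.mem_singleton_iff, h]
    change ((a * 1 : H) : H ⧸ ι.range) = _
    rw [mul_one]
  have hres : ∀ f ∈ W, res (κ ⁻¹' {((1 : H) : H ⧸ ι.range)}) f ∈ W₀ := by
    intro f hf
    have : W ≤ pre (res (κ ⁻¹' {((1 : H) : H ⧸ ι.range)})) W₀ := by
      refine cl_le (iSup_le (fun a => ?_)) ((cls_cl _).pre _)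
      rintro _ ⟨g, hg, rfl⟩
      change res _ (act a g) ∈ W₀
      by_cases ha : (a : H ⧸ ι.range) = ((1 : H) : H ⧸ ι.range)
      · rw [← ha, res_eq_self (hfib a g hg)]
        obtain ⟨c, hc⟩ := QuotientGroup.eq.1 ha.symm
        rw [inv_one, one_mul] at hc
        rw [← hc, act_hom ι hι]
        exact hr2.inv c g hg
      · rw [res_eq_zero (hfib a g hg)]
        · exact Submodule.zero_mem _
        · intro z hz hz'
          exact ha (hz'.symm.trans hz)
    exact this hf
  have hW₀W : W₀ ≤ W := fun f hf =>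
    le_cl _ (Submodule.mem_iSup_of_mem (1 : H) ⟨f, hf, act_one f⟩)
  have hs : Split κ W := by
    intro x f hf
    obtain ⟨a, rfl⟩ := QuotientGroup.mk_surjective x
    have h1 : (a : H ⧸ ι.range) = a • ((1 : H) : H ⧸ ι.range) := by
      change _ = ((a * 1 : H) : H ⧸ ι.range)
      rw [mul_one]
    rw [h1, ← act_act_inv a f, ← act_res_fibre hκ]
    exact hrW.inv a _ (hW₀W (hres _ (hrW.inv _ _ hf)))
  have h1 := edim_induce ι hF hinj hι hκ hst hrW.cls hrW.inv hs
  have h2 : W ⊓ supp (κ ⁻¹' {((1 : H) : H ⧸ ι.range)}) = W₀ := by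
    refine le_antisymm (fun f hf => ?_) (le_inf hW₀W hW₀s)
    rw [← res_eq_self hf.2]; exact hres f hf.1
  have h3 : κ ⁻¹' MulAction.orbit H ((1 : H) : H ⧸ ι.range) = Set.univ := by
    refine Set.eq_univ_of_forall (fun p => ⟨p.y, ?_⟩)
    change ((p.y * 1 : H) : H ⧸ ι.range) = _
    rw [mul_one]
  rw [h2, h3, supp_univ, inf_top_eq] at h1
  have h1' : edim C W₀ = edim C (img (push j hj) N) := edim_cl _
  obtain ⟨n, hn⟩ := hrW.int hH hF
  refine ⟨n, ?_⟩
  have h4 : N ⊓ pre (push j hj) ⊥ = ⊥ := by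
    refine eq_bot_iff.2 (fun f hf => ?_)
    have h5 : push j hj f = 0 := hf.2
    rw [Submodule.mem_bot, ← pull_push j hj f, h5, map_zero]
  rw [rank_nullity hY hFC (eqv_push hj hje) hcut.cls hN, h4, edim_bot, zero_add, ← h1', ← h1, hn]

end Rat

end Pool.Agent.P.MP_0f25e6_al.HN
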