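import Pool.Agent.P.MP_0f25e6_al.HN4

/-!
The Harder-Narasimhan filtration of an invariant subspace with respect to the rational lattice.
-/

set_option autoImplicit false

open scoped InnerProductSpace ENNReal Topology
open Filter MulAction

noncomputable section

namespace Pool.Agent.P.MP_0f25e6_al.HN

universe u

section RealDim

variable {H X Y Z : Type*} [Group H] [MulAction H Y] [MulAction H Z] [MulAction H X]

theorem dim_nonneg (W : Submodule ℂ (L2 Z)) : 0 ≤ dim H W := ENNReal.toReal_nonneg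

theorem dim_cl (W : Submodule ℂ (L2 Z)) : dim H (cl W) = dim H W := by rw [dim, edim_cl, dim]

theorem dim_bot : dim H (⊥ : Submodule ℂ (L2 Z)) = 0 := by rw [dim, edim_bot]; rfl

theorem fin_of_le {W W' : Submodule ℂ (L2 Z)} (hf : edim H W' ≠ ⊤) (h : W ≤ W') :
    edim H W ≠ ⊤ := ne_top_of_le_ne_top hf (edim_mono h)

theorem dim_mono {W W' : Submodule ℂ (L2 Z)} (hf : edim H W' ≠ ⊤) (h : W ≤ W') :
    dim H W ≤ dim H W' := ENNReal.toReal_mono hf (edim_mono h)

theorem dim_of_add {a b c : ℝ≥0∞} (h : a = b + c) (hf : a ≠ ⊤) :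
    a.toReal = b.toReal + c.toReal := by
  rw [h] at hf
  rw [h, ENNReal.toReal_add (ENNReal.add_ne_top.1 hf).1 (ENNReal.add_ne_top.1 hf).2]

theorem eq_of_dim_le {W W' : Submodule ℂ (L2 Z)} (hc : Cls W) (hc' : Cls W') (hi : Inv H W)
    (hi' : Inv H W') (h : W ≤ W') (hf : edim H W' ≠ ⊤) (hd : dim H W' ≤ dim H W) : W = W' :=
  eq_of_edim_le hc hc' hi hi' h (fin_of_le hf h)
    ((ENNReal.toReal_le_toReal hf (fin_of_le hf h)).1 hd)

theorem fin_sup (hZ : Free H Z) {M N : Submodule ℂ (L2 Z)} (hM : Cls M) (hN : Cls N)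
    (hMi : Inv H M) (hNi : Inv H N) (hMf : edim H M ≠ ⊤) (hNf : edim H N ≠ ⊤) :
    edim H (M ⊔ N) ≠ ⊤ := by
  refine ne_top_of_le_ne_top (ENNReal.add_ne_top.2 ⟨hMf, hNf⟩) ?_
  rw [← edim_modular hZ hM hN hMi hNi]
  exact le_self_add

theorem dim_modular (hZ : Free H Z) {M N : Submodule ℂ (L2 Z)} (hM : Cls M) (hN : Cls N)
    (hMi : Inv H M) (hNi : Inv H N) (hMf : edim H M ≠ ⊤) (hNf : edim H N ≠ ⊤) :
    dim H (M ⊔ N) + dim H (M ⊓ N) = dim H M + dim H N := by
  have h := congrArg ENNReal.toReal (edim_modular hZ hM hN hMi hNi)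
  rwa [ENNReal.toReal_add (fin_sup hZ hM hN hMi hNi hMf hNf) (fin_of_le hMf inf_le_left),
    ENNReal.toReal_add hMf hNf] at h

theorem dim_rank_nullity (hY : Free H Y) (hZ : Free H Z) {T : L2 Y →L[ℂ] L2 Z} (hT : Eqv H T)
    {N : Submodule ℂ (L2 Y)} (hc : Cls N) (hi : Inv H N) (hf : edim H N ≠ ⊤) :
    dim H N = dim H (N ⊓ pre T ⊥) + dim H (img T N) :=
  dim_of_add (rank_nullity hY hZ hT hc hi) hf

theorem fin_img (hY : Free H Y) (hZ : Free H Z) {T : L2 Y →L[ℂ] L2 Z} (hT : Eqv H T)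
    {N : Submodule ℂ (L2 Y)} (hc : Cls N) (hi : Inv H N) (hf : edim H N ≠ ⊤) :
    edim H (cl (img T N)) ≠ ⊤ := by
  rw [edim_cl]
  exact ne_top_of_le_ne_top hf (edim_img_le hY hZ hT hc hi)

theorem dim_pre (hY : Free H Y) (hZ : Free H Z) {T : L2 Y →L[ℂ] L2 Z} (hT : Eqv H T)
    {N : Submodule ℂ (L2 Y)} (hc : Cls N) (hi : Inv H N) (hf : edim H N ≠ ⊤)
    {W : Submodule ℂ (L2 Z)} (hW : Cls W) (hWi : Inv H W) :
    dim H (N ⊓ pre T W) = dim H (N ⊓ pre T ⊥) + dim H (cl (img T N) ⊓ W) :=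
  dim_of_add (edim_pre hY hZ hT hc hi hf hW hWi) (fin_of_le hf inf_le_left)

theorem dim_supermod (hZ : Free H Z) {E M N : Submodule ℂ (L2 Z)} (hE : Cls E) (hEi : Inv H E)
    (hM : Cls M) (hN : Cls N) (hMi : Inv H M) (hNi : Inv H N) (hMf : edim H M ≠ ⊤)
    (hNf : edim H N ≠ ⊤) :
    dim H (E ⊓ M) + dim H (E ⊓ N) ≤ dim H (E ⊓ cl (M ⊔ N)) + dim H (E ⊓ (M ⊓ N)) := by
  have h1 := dim_modular hZ (hE.inf hM) (hE.inf hN) (hEi.inf hMi) (hEi.inf hNi)
    (fin_of_le hMf inf_le_right) (fin_of_le hNf inf_le_right)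
  have h2 : E ⊓ M ⊓ (E ⊓ N) = E ⊓ (M ⊓ N) := (inf_inf_distrib_left E M N).symm
  have h3 : dim H (E ⊓ M ⊔ E ⊓ N) ≤ dim H (E ⊓ cl (M ⊔ N)) := by
    refine dim_mono (fin_of_le (W' := cl (M ⊔ N)) ?_ inf_le_right) ?_
    · rw [edim_cl]; exact fin_sup hZ hM hN hMi hNi hMf hNf
    · exact le_inf (sup_le inf_le_left inf_le_left)
        ((sup_le_sup inf_le_right inf_le_right).trans (le_cl _))
  rw [h2] at h1
  linarith

theorem psi_supermod (hZ : Free H Z) {E M N : Submodule ℂ (L2 Z)} (hE : Cls E) (hEi : Inv H E)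
    (hM : Cls M) (hN : Cls N) (hMi : Inv H M) (hNi : Inv H N) (hMf : edim H M ≠ ⊤)
    (hNf : edim H N ≠ ⊤) (t : ℝ) :
    psi H E t M + psi H E t N ≤ psi H E t (cl (M ⊔ N)) + psi H E t (M ⊓ N) := by
  have h1 := dim_supermod hZ hE hEi hM hN hMi hNi hMf hNf
  have h2 := dim_modular hZ hM hN hMi hNi hMf hNf
  simp only [psi, dim_cl]
  have h3 : t * dim H (M ⊔ N) + t * dim H (M ⊓ N) = t * dim H M + t * dim H N := by
    rw [← mul_add, h2, mul_add]
  linarith

theorem psi_bot (E : Submodule ℂ (L2 Z)) (t : ℝ) : psi H E t ⊥ = 0 := by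
  simp [psi, dim_bot]

theorem img_act_eq (a : H) (W : Submodule ℂ (L2 Z)) : img (act a) W = pre (act a⁻¹) W := by
  ext f
  constructor
  · rintro ⟨g, hg, rfl⟩
    change act a⁻¹ (act a g) ∈ W
    rwa [act_inv_act]
  · intro hf
    exact ⟨act a⁻¹ f, hf, act_act_inv a f⟩

theorem mem_img_act {a : H} {W : Submodule ℂ (L2 Z)} {f : L2 Z} :
    f ∈ img (act a) W ↔ act a⁻¹ f ∈ W := by
  rw [img_act_eq]; rfl

theorem Cls.img_act {W : Submodule ℂ (L2 Z)} (h : Cls W) (a : H) : Cls (img (act a) W) := by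
  rw [img_act_eq]; exact h.pre _

theorem img_act_le_supp (a : H) {W : Submodule ℂ (L2 Z)} {S : Set Z} (h : W ≤ supp S) :
    img (act a) W ≤ supp {z | a⁻¹ • z ∈ S} := by
  rintro _ ⟨g, hg, rfl⟩ z hz
  exact h hg _ hz

theorem img_act_inv (a : H) (W : Submodule ℂ (L2 Z)) : img (act a) (img (act a⁻¹) W) = W := by
  ext f
  rw [mem_img_act, mem_img_act, inv_inv, act_act_inv]

end RealDim

section Index

variable {C A Z X : Type*} [Group C] [Group A] [MulAction C Z] [MulAction A Z] [MulAction A X]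
  (ι : C →* A)

theorem dim_index [ι.range.FiniteIndex] (hA : Free A Z) (hinj : Function.Injective ι)
    (hι : ∀ (c : C) (z : Z), ι c • z = c • z) {W : Submodule ℂ (L2 Z)} (hW : Inv A W) :
    dim C W = (Nat.card (A ⧸ ι.range) : ℝ) * dim A W := by
  rw [dim, edim_index ι hA hinj hι hW, ENNReal.toReal_mul, dim, ENat.card_eq_coe_natCard]
  simp

theorem psi_index [ι.range.FiniteIndex] (hA : Free A Z) (hinj : Function.Injective ι)
    (hι : ∀ (c : C) (z : Z), ι c • z = c • z) {E W : Submodule ℂ (L2 Z)} (hE : Inv A E)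
    (hW : Inv A W) (t : ℝ) : psi C E t W = (Nat.card (A ⧸ ι.range) : ℝ) * psi A E t W := by
  rw [psi, psi, dim_index ι hA hinj hι hW, dim_index ι hA hinj hι (hE.inf hW)]
  ring

theorem Cofin.of_finiteIndex [ι.range.FiniteIndex] (hι : ∀ (c : C) (z : Z), ι c • z = c • z)
    {S : Set Z} (hS : Cofin A S) : Cofin C S := by
  obtain ⟨F, hF, hFY⟩ := hS
  refine ⟨⋃ q : A ⧸ ι.range, (fun y => q.out⁻¹ • y) '' F,
    Set.finite_iUnion (fun q => hF.image _), fun y hy => ?_⟩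
  obtain ⟨h, hh⟩ := hFY y hy
  obtain ⟨⟨_, c, rfl⟩, hc⟩ := QuotientGroup.mk_out_eq_mul ι.range h
  refine ⟨c⁻¹, Set.mem_iUnion.2 ⟨(h : A ⧸ ι.range), h • y, hh, ?_⟩⟩
  simp only at hc ⊢
  rw [hc, ← hι, ← mul_smul]
  simp

theorem dim_induce (hA : Free A Z) (hinj : Function.Injective ι)
    (hι : ∀ (c : C) (z : Z), ι c • z = c • z)
    {κ : Z → X} (hκ : ∀ (a : A) (z : Z), κ (a • z) = a • κ z) {x₀ : X}
    (hx : stabilizer A x₀ = ι.range)
    {W : Submodule ℂ (L2 Z)} (hc : Cls W) (hW : Inv A W) (hs : Split κ W) :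
    dim A (W ⊓ supp (κ ⁻¹' orbit A x₀)) = dim C (W ⊓ supp (κ ⁻¹' {x₀})) := by
  rw [dim, dim, edim_induce ι hA hinj hι hκ hx hc hW hs]

end Index

section HN

variable {H : Type u} {X Z : Type*} [Group H] [MulAction H Z] [MulAction H X]

theorem Rat.dim_int (hH : SAC H) (hZ : Free H Z) {W : Submodule ℂ (L2 Z)} (h : Rat H W) :
    ∃ n : ℕ, dim H W = n := by
  obtain ⟨n, hn⟩ := h.int hH hZ
  exact ⟨n, by rw [dim, hn]; simp⟩

theorem psi_supermod_rat (hZ : Free H Z) {E M N : Submodule ℂ (L2 Z)} (hE : Cls E)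
    (hEi : Inv H E) (hM : Rat H M) (hN : Rat H N) (t : ℝ) :
    psi H E t M + psi H E t N ≤ psi H E t (cl (M ⊔ N)) + psi H E t (M ⊓ N) :=
  psi_supermod hZ hE hEi hM.cls hN.cls hM.inv hN.inv (hM.edim_ne_top hZ) (hN.edim_ne_top hZ) t

theorem exists_isHN (hH : SAC H) (hZ : Free H Z) {S : Set Z} (hc : Cofin H S)
    {E : Submodule ℂ (L2 Z)} (hE : Cls E) (hEi : Inv H E) (t : ℝ) : ∃ F, IsHN H S E t F := by
  classical
  set d := dim H (supp S) with hd
  have hfin : edim H (supp S) ≠ ⊤ := edim_ne_top_of_cofin hc le_rfl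
  let R : Set ℝ := {x | ∃ W, Rat H W ∧ W ≤ supp S ∧ psi H E t W = x}
  have hRne : R.Nonempty := ⟨_, ⊥, rat_bot hZ, bot_le, rfl⟩
  have hRb : BddAbove R := by
    refine ⟨d + |t| * d, ?_⟩
    rintro _ ⟨W, -, hW, rfl⟩
    have h1 : dim H (E ⊓ W) ≤ d := dim_mono hfin (inf_le_right.trans hW)
    have h2 : dim H W ≤ d := dim_mono hfin hW
    have h3 := dim_nonneg (H := H) W
    have h4 := neg_abs_le t
    have h5 := abs_nonneg t
    rw [psi]
    nlinarith
  set m := sSup R with hm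
  have hle : ∀ W, Rat H W → W ≤ supp S → psi H E t W ≤ m :=
    fun W h1 h2 => le_csSup hRb ⟨W, h1, h2, rfl⟩
  let Q : ℕ → Prop := fun D => ∃ ε > 0, ∀ W, Rat H W → W ≤ supp S → m - ε ≤ psi H E t W →
    dim H W < D
  have hQ : ∃ D, Q D := by
    obtain ⟨D, hD⟩ := exists_nat_gt d
    exact ⟨D, 1, one_pos, fun W _ hW _ => (dim_mono hfin hW).trans_lt hD⟩
  have hQ0 : ¬ Q 0 := by
    rintro ⟨ε, hε, h⟩
    obtain ⟨_, ⟨W, h1, h2, rfl⟩, h3⟩ := exists_lt_of_lt_csSup hRne (sub_lt_self m hε)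
    have := h W h1 h2 h3.le
    have := dim_nonneg (H := H) W
    simp only [Nat.cast_zero] at *
    linarith
  obtain ⟨D, hD⟩ : ∃ D, Nat.find hQ = D + 1 :=
    Nat.exists_eq_succ_of_ne_zero (fun h => hQ0 (h ▸ Nat.find_spec hQ))
  have hQD : ¬ Q D := Nat.find_min hQ (by omega)
  obtain ⟨ε₀, hε₀, hup⟩ : Q (D + 1) := hD ▸ Nat.find_spec hQ
  have hup' : ∀ W, Rat H W → W ≤ supp S → m - ε₀ ≤ psi H E t W → dim H W ≤ D := by
    intro W h1 h2 h3
    have := hup W h1 h2 h3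
    obtain ⟨n, hn⟩ := h1.dim_int hH hZ
    rw [hn] at this ⊢
    have h4 : n < D + 1 := by exact_mod_cast this
    exact_mod_cast Nat.lt_succ_iff.1 h4
  have hlow : ∀ ε > 0, ∃ W, Rat H W ∧ W ≤ supp S ∧ m - ε ≤ psi H E t W ∧ (D : ℝ) ≤ dim H W := by
    intro ε hε
    by_contra h
    push Not at h
    exact hQD ⟨ε, hε, h⟩
  obtain ⟨F, hF, hFS, hFm, hFD⟩ := hlow (ε₀ / 2) (by positivity)
  have key : ∀ W, Rat H W → W ≤ supp S → m - ε₀ / 2 ≤ psi H E t W → W ≤ F := by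
    intro W h1 h2 h3
    have h4 := psi_supermod_rat hZ hE hEi hF h1 t
    have h5 := hle _ (hF.inf hZ h1) (inf_le_left.trans hFS)
    have h6 : cl (F ⊔ W) ≤ supp S := cl_le (sup_le hFS h2) (cls_supp S)
    have h7 := hup' _ (hF.sup h1) h6 (by linarith)
    have h8 : F = cl (F ⊔ W) := eq_of_dim_le hF.cls (cls_cl _) hF.inv (hF.sup h1).inv
      (le_sup_left.trans (le_cl _)) (fin_of_le hfin h6) (h7.trans hFD)
    rw [h8]
    exact le_sup_right.trans (le_cl _)
  have hmF : m ≤ psi H E t F := by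
    refine le_of_forall_pos_le_add (fun ε hε => ?_)
    obtain ⟨W, h1, h2, h3, h4⟩ := hlow (min ε (ε₀ / 2)) (by positivity)
    have h5 : W ≤ F := key W h1 h2 (by linarith [min_le_right ε (ε₀ / 2)])
    have h6 : W = F := eq_of_dim_le h1.cls hF.cls h1.inv hF.inv h5 (hF.edim_ne_top hZ)
      ((hup' F hF hFS (by linarith)).trans h4)
    rw [← h6]
    linarith [min_le_left ε (ε₀ / 2)]
  exact ⟨F, hF, hFS, fun W h1 h2 => (hle W h1 h2).trans hmF,
    fun W h1 h2 h3 => key W h1 h2 (by linarith)⟩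

theorem IsHN.unique {S : Set Z} {E : Submodule ℂ (L2 Z)} {t : ℝ} {F F' : Submodule ℂ (L2 Z)}
    (h : IsHN H S E t F) (h' : IsHN H S E t F') : F = F' :=
  le_antisymm (h'.largest F h.rat h.le (h.max F' h'.rat h'.le))
    (h.largest F' h'.rat h'.le (h'.max F h.rat h.le))

theorem IsHN.anti (hZ : Free H Z) {S : Set Z} {E : Submodule ℂ (L2 Z)} (hE : Cls E)
    (hEi : Inv H E) {s t : ℝ} (hst : s ≤ t) {F F' : Submodule ℂ (L2 Z)}
    (h : IsHN H S E s F) (h' : IsHN H S E t F') : F' ≤ F := by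
  have h1 := psi_supermod_rat hZ hE hEi h.rat h'.rat s
  have h2 := h'.max _ (h.rat.inf hZ h'.rat) (inf_le_left.trans h.le)
  have h3 : dim H (F ⊓ F') ≤ dim H F' := dim_mono (h'.rat.edim_ne_top hZ) inf_le_right
  have h4 := h.largest _ (h.rat.sup h'.rat) (cl_le (sup_le h.le h'.le) (cls_supp S)) (by
    simp only [psi] at h1 h2 ⊢
    nlinarith)
  exact le_sup_right.trans ((le_cl _).trans h4)

theorem IsHN.zero (hZ : Free H Z) {S : Set Z} (hS : Rat H (supp S)) {E : Submodule ℂ (L2 Z)}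
    {F : Submodule ℂ (L2 Z)} (h : IsHN H S E 0 F) : F = supp S := by
  refine le_antisymm h.le (h.largest _ hS le_rfl ?_)
  simp only [psi, zero_mul, sub_zero]
  exact dim_mono (fin_of_le (hS.edim_ne_top hZ) inf_le_right) (inf_le_inf_left _ h.le)

theorem IsHN.nonneg (hZ : Free H Z) {S : Set Z} {E : Submodule ℂ (L2 Z)} {t : ℝ}
    {F : Submodule ℂ (L2 Z)} (h : IsHN H S E t F) : 0 ≤ psi H E t F := by
  rw [← psi_bot (H := H) E t]
  exact h.max _ (rat_bot hZ) bot_le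

section Conj

variable {G : Type*} [Group G] [MulAction G Z] {H' : Type u} [Group H'] [MulAction H' Z]

theorem Rat.conj (g : G) (φ : H' ≃* H) (hφ : ∀ (h : H') (z : Z), g • φ h • z = h • g • z)
    {W : Submodule ℂ (L2 Z)} (h : Rat H W) : Rat H' (HN.img (act g) W) := by
  have : (φ : H' →* H).range.FiniteIndex := by
    rw [MonoidHom.range_eq_top_of_surjective _ φ.surjective]; infer_instance
  have h1 := h.transport (φ : H' →* H) φ.injective (S := act g) (fun a f => by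
    ext z
    simp only [act_apply, MonoidHom.coe_coe]
    refine congrArg (fun w => f w) ?_
    rw [← map_inv, eq_comm, inv_smul_eq_iff, hφ, smul_inv_smul]) (finCols_act g)
  rwa [cl_eq (h.cls.img_act g)] at h1

theorem conj_symm (g : G) (φ : H' ≃* H) (hφ : ∀ (h : H') (z : Z), g • φ h • z = h • g • z)
    (h : H) (z : Z) : g⁻¹ • φ.symm h • z = h • g⁻¹ • z := by
  have := hφ (φ.symm h) (g⁻¹ • z)
  rw [MulEquiv.apply_symm_apply, smul_inv_smul] at this
  rw [← this, inv_smul_smul]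

theorem Inv.conj (g : G) (φ : H' ≃* H) (hφ : ∀ (h : H') (z : Z), g • φ h • z = h • g • z)
    {W : Submodule ℂ (L2 Z)} (h : Inv H W) : Inv H' (HN.img (act g) W) := by
  rintro a _ ⟨f, hf, rfl⟩
  refine ⟨act (φ a) f, h _ f hf, ?_⟩
  ext z
  simp only [ContinuousLinearMap.coe_coe, act_apply]
  refine congrArg (fun w => f w) ?_
  rw [← map_inv, eq_comm, inv_smul_eq_iff, hφ, smul_inv_smul]

theorem dim_conj (g : G) (φ : H' ≃* H) (hφ : ∀ (h : H') (z : Z), g • φ h • z = h • g • z)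
    {W : Submodule ℂ (L2 Z)} (h : Inv H W) : dim H' (img (act g) W) = dim H W := by
  rw [dim, dim, edim_conj (C := H) g _ (h.conj g φ hφ)]
  intro z w
  constructor
  · rintro ⟨c, rfl⟩
    exact ⟨φ.symm c, by rw [← hφ, MulEquiv.apply_symm_apply]⟩
  · rintro ⟨c, hc⟩
    rw [← hφ] at hc
    exact ⟨φ c, MulAction.injective g hc⟩

theorem psi_conj (g : G) (φ : H' ≃* H) (hφ : ∀ (h : H') (z : Z), g • φ h • z = h • g • z)
    {E W : Submodule ℂ (L2 Z)} (hE : Inv G E) (hE' : Inv H E) (h : Inv H W) (t : ℝ) :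
    psi H' E t (img (act g) W) = psi H E t W := by
  have h1 : E ⊓ img (act g) W = img (act g) (E ⊓ W) := by
    ext f
    rw [Submodule.mem_inf, mem_img_act, mem_img_act, Submodule.mem_inf]
    refine and_congr_left (fun _ => ⟨fun h => hE _ _ h, fun h => ?_⟩)
    simpa using hE g _ h
  rw [psi, psi, h1, dim_conj g φ hφ h, dim_conj g φ hφ (hE'.inf h)]

theorem IsHN.conj (g : G) (φ : H' ≃* H) (hφ : ∀ (h : H') (z : Z), g • φ h • z = h • g • z)
    {S S' : Set Z} (hS : ∀ z, z ∈ S ↔ g • z ∈ S') {E : Submodule ℂ (L2 Z)} (hE : Inv G E)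
    (hE' : Inv H E) {t : ℝ} {F : Submodule ℂ (L2 Z)} (h : IsHN H S E t F) :
    IsHN H' S' E t (img (act g) F) := by
  have hS1 : {z | g⁻¹ • z ∈ S} = S' := by
    ext z; rw [Set.mem_ofPred_eq, hS, smul_inv_smul]
  have hS2 : {z | g⁻¹⁻¹ • z ∈ S'} = S := by
    ext z; rw [Set.mem_ofPred_eq, hS, inv_inv]
  have back : ∀ W, Rat H' W → W ≤ supp S' → Rat H (img (act g⁻¹) W) ∧
      img (act g⁻¹) W ≤ supp S ∧ psi H' E t W = psi H E t (img (act g⁻¹) W) := by
    intro W h1 h2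
    have h3 := h1.conj g⁻¹ φ.symm (conj_symm g φ hφ)
    refine ⟨h3, hS2 ▸ img_act_le_supp g⁻¹ h2, ?_⟩
    rw [← psi_conj g φ hφ hE hE' h3.inv, img_act_inv]
  refine ⟨h.rat.conj g φ hφ, hS1 ▸ img_act_le_supp g h.le, fun W h1 h2 => ?_,
    fun W h1 h2 h3 => ?_⟩
  · obtain ⟨h4, h5, h6⟩ := back W h1 h2
    rw [h6, psi_conj g φ hφ hE hE' h.rat.inv]
    exact h.max _ h4 h5
  · obtain ⟨h4, h5, h6⟩ := back W h1 h2
    rw [h6, psi_conj g φ hφ hE hE' h.rat.inv] at h3
    rw [← img_act_inv g W]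
    exact Submodule.map_mono (h.largest _ h4 h5 h3)

end Conj

/-- Splitting over two invariant pieces. -/
theorem psi_split (hZ : Free H Z) {S T : Set Z} (hd : Disjoint S T)
    (hT : ∀ (h : H), ∀ z ∈ T, h • z ∈ T)
    {E : Submodule ℂ (L2 Z)} (hE : Cls E) (hEi : Inv H E) (hET : ∀ f ∈ E, res T f ∈ E) (t : ℝ)
    {W : Submodule ℂ (L2 Z)} (hW : Rat H W) (hWs : W ≤ supp (S ∪ T)) :
    psi H E t W ≤ psi H E t (W ⊓ supp S) + psi H E t (cl (img (res T) W)) := by
  have hker : ∀ V, V ≤ W → V ⊓ pre (res T) ⊥ = V ⊓ supp S := by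
    intro V hV
    ext f
    refine and_congr_right (fun hf => ⟨fun h z hz => ?_, fun h => ?_⟩)
    · by_cases hzT : z ∈ T
      · have h1 : res T f = 0 := h
        rw [← res_apply_of_mem f hzT, h1]; rfl
      · exact hWs (hV hf) z (fun h2 => h2.elim hz hzT)
    · exact res_eq_zero h (fun z hz hz' => Set.disjoint_left.1 hd hz' hz)
  have hf := hW.edim_ne_top hZ
  have h1 := dim_rank_nullity hZ hZ (eqv_res hT) hW.cls hW.inv hf
  have h2 := dim_rank_nullity hZ hZ (eqv_res hT) (hE.inf hW.cls) (hEi.inf hW.inv)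
    (fin_of_le hf inf_le_right)
  rw [hker W le_rfl] at h1
  rw [hker _ inf_le_right, inf_assoc] at h2
  have h3 : dim H (img (res T) (E ⊓ W)) ≤ dim H (E ⊓ cl (img (res T) W)) := by
    refine dim_mono (fin_of_le (fin_img hZ hZ (eqv_res hT) hW.cls hW.inv hf) inf_le_right) ?_
    rintro _ ⟨f, hf, rfl⟩
    exact ⟨hET f hf.1, le_cl _ ⟨f, hf.2, rfl⟩⟩
  simp only [psi, dim_cl]
  rw [h1, h2]
  linarith

theorem psi_le_sum (hZ : Free H Z) {I : Type*} (s : Finset I) (Y : I → Set Z)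
    (hd : ∀ i ∈ s, ∀ j ∈ s, i ≠ j → Disjoint (Y i) (Y j))
    (hY : ∀ i ∈ s, ∀ (h : H), ∀ z ∈ Y i, h • z ∈ Y i)
    {E : Submodule ℂ (L2 Z)} (hE : Cls E) (hEi : Inv H E)
    (hEY : ∀ i ∈ s, ∀ f ∈ E, res (Y i) f ∈ E) (t : ℝ) (m : I → ℝ)
    (hm : ∀ i ∈ s, ∀ W, Rat H W → W ≤ supp (Y i) → psi H E t W ≤ m i)
    {W : Submodule ℂ (L2 Z)} (hW : Rat H W) (hWs : W ≤ supp (⋃ i ∈ s, Y i)) :
    psi H E t W ≤ ∑ i ∈ s, m i := by
  classical
  induction s using Finset.induction_on generalizing W with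
  | empty =>
    have : W = ⊥ := by
      simp only [Finset.notMem_empty, Set.iUnion_of_empty, Set.iUnion_empty, supp_empty] at hWs
      exact le_bot_iff.1 hWs
    rw [this, psi_bot, Finset.sum_empty]
  | insert a s ha ih =>
    have hU : ∀ (h : H), ∀ z ∈ ⋃ i ∈ s, Y i, h • z ∈ ⋃ i ∈ s, Y i := by
      intro h z hz
      simp only [Set.mem_iUnion] at hz ⊢
      obtain ⟨i, hi, hz⟩ := hz
      exact ⟨i, hi, hY i (Finset.mem_insert_of_mem hi) h z hz⟩
    have hdis : Disjoint (⋃ i ∈ s, Y i) (Y a) := by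
      simp only [Set.disjoint_iUnion_left]
      exact fun i hi => hd i (Finset.mem_insert_of_mem hi) a (Finset.mem_insert_self a s)
        (fun h => ha (h ▸ hi))
    have hYa := hY a (Finset.mem_insert_self a s)
    have h1 := psi_split hZ hdis hYa hE hEi (hEY a (Finset.mem_insert_self a s)) t hW (by
      rwa [Finset.set_biUnion_insert, Set.union_comm] at hWs)
    have h2 := ih (fun i hi j hj => hd i (Finset.mem_insert_of_mem hi) j
      (Finset.mem_insert_of_mem hj)) (fun i hi => hY i (Finset.mem_insert_of_mem hi))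
      (fun i hi => hEY i (Finset.mem_insert_of_mem hi))
      (fun i hi => hm i (Finset.mem_insert_of_mem hi))
      (hW.inf_cut hZ (cut_supp _) (inv_supp hU)) inf_le_right
    have h3 := hm a (Finset.mem_insert_self a s) _ (hW.img (eqv_res hYa) (finCols_res _)) (by
      refine cl_le ?_ (cls_supp _)
      rintro _ ⟨f, -, rfl⟩
      exact res_mem_supp _ f)
    rw [Finset.sum_insert ha]
    linarith

/-- First Riemann sum inequality. -/
theorem riemann_inf (hZ : Free H Z) {S : Set Z} {E : Submodule ℂ (L2 Z)} (hE : Cls E)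
    (hEi : Inv H E) {n : ℕ} (hn : 0 < n) (F : ℕ → Submodule ℂ (L2 Z)) (hF : ∀ j, Rat H (F j))
    (hFS : ∀ j, F j ≤ supp S) (hanti : ∀ j, F (j + 1) ≤ F j) (h0 : supp S ≤ F 0)
    (hmax : ∀ j ≤ n, ∀ W, Rat H W → W ≤ supp S →
      psi H E ((j : ℝ) / n) W ≤ psi H E ((j : ℝ) / n) (F j))
    {L : Submodule ℂ (L2 Z)} (hL : Rat H L) (hLS : L ≤ supp S) :
    n * dim H (L ⊓ E) ≤ ∑ j ∈ Finset.range n, dim H (L ⊓ F j) := by
  have hn' : (0 : ℝ) < n := by exact_mod_cast hn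
  let a : ℕ → ℝ := fun j => dim H (E ⊓ (L ⊓ F j))
  let b : ℕ → ℝ := fun j => dim H (L ⊓ F j)
  have step : ∀ j, j < n → n * a j - j * b j ≤ b j + (n * a (j + 1) - (j + 1 : ℕ) * b (j + 1)) := by
    intro j hj
    have hX := hL.inf hZ (hF j)
    have h1 := psi_supermod_rat hZ hE hEi (hF (j + 1)) hX (((j + 1 : ℕ) : ℝ) / n)
    have h2 := hmax (j + 1) hj _ ((hF (j + 1)).sup hX)
      (cl_le (sup_le (hFS _) (inf_le_left.trans hLS)) (cls_supp S))
    have h3 : F (j + 1) ⊓ (L ⊓ F j) = L ⊓ F (j + 1) := by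
      apply le_antisymm
      · exact le_inf (inf_le_right.trans inf_le_left) inf_le_left
      · exact le_inf inf_le_right (le_inf inf_le_left (inf_le_right.trans (hanti j)))
    rw [h3] at h1
    have h4 : psi H E (((j + 1 : ℕ) : ℝ) / n) (L ⊓ F j) ≤
        psi H E (((j + 1 : ℕ) : ℝ) / n) (L ⊓ F (j + 1)) := by linarith
    simp only [psi] at h4
    have h5 := mul_le_mul_of_nonneg_left h4 hn'.le
    have e : ∀ x : ℝ, (n : ℝ) * ((((j + 1 : ℕ) : ℝ) / n) * x) = ((j + 1 : ℕ) : ℝ) * x := by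
      intro x; field_simp
    rw [mul_sub, mul_sub, e, e] at h5
    simp only [a, b]
    push_cast at h5 ⊢
    linarith
  have tot : ∀ k, k ≤ n → n * a 0 ≤ ∑ j ∈ Finset.range k, b j + (n * a k - k * b k) := by
    intro k
    induction k with
    | zero => simp
    | succ k ih =>
      intro hk
      have := step k hk
      have := ih (by omega)
      rw [Finset.sum_range_succ]
      linarith
  have h1 := tot n le_rfl
  have h2 : a n ≤ b n := dim_mono ((hL.inf hZ (hF n)).edim_ne_top hZ) inf_le_right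
  have h3 : a 0 = dim H (L ⊓ E) := by
    simp only [a]
    rw [inf_eq_left.2 (hLS.trans h0), inf_comm]
  rw [← h3]
  nlinarith

/-- Second Riemann sum inequality. -/
theorem riemann_dim (hZ : Free H Z) {S : Set Z} (hS : Cofin H S) {E : Submodule ℂ (L2 Z)}
    {n : ℕ} (hn : 0 < n) (F : ℕ → Submodule ℂ (L2 Z))
    (hF : ∀ j : ℕ, IsHN H S E ((j : ℝ) / n) (F j)) :
    ∑ j ∈ Finset.range n, dim H (F (j + 1)) ≤ n * dim H (E ⊓ supp S) := by
  have hn' : (0 : ℝ) < n := by exact_mod_cast hn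
  let m : ℕ → ℝ := fun j => psi H E ((j : ℝ) / n) (F j)
  have step : ∀ j, dim H (F (j + 1)) + n * m (j + 1) ≤ n * m j := by
    intro j
    have h1 := (hF j).max _ (hF (j + 1)).rat (hF (j + 1)).le
    have h5 := mul_le_mul_of_nonneg_left h1 hn'.le
    have e : ∀ (k : ℕ) (x : ℝ), (n : ℝ) * (((k : ℝ) / n) * x) = (k : ℝ) * x := by
      intro k x; field_simp
    simp only [m, psi] at h5 ⊢
    rw [mul_sub, mul_sub, e, e] at h5
    rw [mul_sub, mul_sub, e, e]
    push_cast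
    linarith
  have tot : ∀ k, ∑ j ∈ Finset.range k, dim H (F (j + 1)) + n * m k ≤ n * m 0 := by
    intro k
    induction k with
    | zero => simp
    | succ k ih =>
      have := step k
      rw [Finset.sum_range_succ]
      linarith
  have h1 := tot n
  have h2 : 0 ≤ m n := (hF n).nonneg hZ
  have h3 : m 0 ≤ dim H (E ⊓ supp S) := by
    simp only [m, psi, Nat.cast_zero, zero_div, zero_mul, sub_zero]
    exact dim_mono (edim_ne_top_of_cofin hS inf_le_right) (inf_le_inf_left _ (hF 0).le)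
  nlinarith

end HN

/-- Finite index embeddings have the transfer property. -/
theorem tp_of_finiteIndex {C A : Type u} [Group C] [Group A] (ι : C →* A)
    (hinj : Function.Injective ι) [ι.range.FiniteIndex] (hA : SAC A) : TP ι := by
  classical
  intro Z X _ _ _ κ x₀ hZ hι hκ hx hc E hE hEi hEs t _ _ W hW hWs
  let C₀ : Subgroup A := ι.range.normalCore
  let ρ : C₀ →* C := ((MonoidHom.ofInjective hinj).symm : ι.range →* C).comp
    (Subgroup.inclusion ι.range.normalCore_le)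
  have hρ : ∀ c : C₀, ι (ρ c) = c := fun c => MonoidHom.apply_ofInjective_symm hinj _
  have hρinj : Function.Injective ρ := fun a b h => Subtype.ext (by rw [← hρ, ← hρ, h])
  have hρs : ∀ (c : C₀) (z : Z), ρ c • z = c • z := fun c z => by rw [← hι, hρ]; rfl
  have : ρ.range.FiniteIndex := by
    have h1 : ρ.range = C₀.comap ι := by
      ext c
      constructor
      · rintro ⟨d, rfl⟩
        change ι (ρ d) ∈ C₀
        rw [hρ]; exact d.2
      · intro h
        exact ⟨⟨ι c, h⟩, hinj (hρ _)⟩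
    rw [h1]
    refine ⟨?_⟩
    rw [Subgroup.index_comap]
    exact (Subgroup.instFiniteIndex_subgroupOf C₀ ι.range).index_ne_zero
  have hZC : Free C Z := hZ.of_hom ι hinj hι
  have hZ0 : Free C₀ Z := hZC.of_hom ρ hρinj hρs
  have hEC : Inv C E := hEi.of_hom ι hι
  have hE0 : Inv C₀ E := hEC.of_hom ρ hρs
  obtain ⟨F, hF⟩ := exists_isHN (hA.of_injective C₀.subtype C₀.subtype_injective) hZ0
    (hc.of_finiteIndex ρ hρs) hE hE0 t
  have hconj : ∀ (g : A) (h : C₀) (z : Z), g • (MulAut.conjNormal g⁻¹ h : C₀) • z = h • g • z := by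
    intro g h z
    rw [Subgroup.smul_def, Subgroup.smul_def, MulAut.conjNormal_apply, ← mul_smul, ← mul_smul]
    congr 1
    group
  have hFg : ∀ g : A, IsHN C₀ (κ ⁻¹' {g • x₀}) E t (img (act g) F) := fun g =>
    hF.conj g (MulAut.conjNormal g⁻¹) (hconj g) (fun z => by
      simp only [Set.mem_preimage, Set.mem_singleton_iff, hκ, smul_left_cancel_iff]) hEi hE0
  have hFC : Inv C F := by
    intro c f hf
    have h1 := hFg (ι c)
    have h2 : ι c • x₀ = x₀ := hx.ge ⟨c, rfl⟩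
    rw [h2] at h1
    rw [← h1.unique hF, ← act_hom ι hι]
    exact ⟨f, hf, rfl⟩
  refine ⟨F, hF.rat.of_inv ρ hZC hρinj hρs hFC, hF.le, ?_⟩
  have hW0 : Rat C₀ W := by
    have : C₀.subtype.range.FiniteIndex := by
      rw [Subgroup.range_subtype]; infer_instance
    have h1 := hW.transport C₀.subtype C₀.subtype_injective (S := (1 : L2 Z →L[ℂ] L2 Z))
      (fun a f => rfl) (fun a ha => ha)
    have h2 : img (1 : L2 Z →L[ℂ] L2 Z) W = W := Submodule.map_id W
    rwa [h2, cl_eq hW.cls] at h1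
  have := Fintype.ofFinite (A ⧸ ι.range)
  have h1 := psi_le_sum hZ0 (Finset.univ : Finset (A ⧸ ι.range))
    (fun q => κ ⁻¹' {q.out • x₀}) ?_ ?_ hE hE0 (fun q _ => hEs _) t (fun _ => psi C₀ E t F) ?_
    hW0 ?_
  · rw [Finset.sum_const, Finset.card_univ, nsmul_eq_mul, ← Nat.card_eq_fintype_card,
      psi_index ρ hZC hρinj hρs hEC (hW.inv.of_hom ι hι), psi_index ρ hZC hρinj hρs hEC hFC,
      psi_index ι hZ hinj hι hEi hW.inv] at h1
    have hb : (0 : ℝ) < Nat.card (A ⧸ ι.range) := by exact_mod_cast Nat.card_pos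
    have hc : (0 : ℝ) < Nat.card (C ⧸ ρ.range) := by exact_mod_cast Nat.card_pos
    have h2 : (Nat.card (A ⧸ ι.range) * Nat.card (C ⧸ ρ.range) : ℝ) * psi A E t W ≤
        (Nat.card (A ⧸ ι.range) * Nat.card (C ⧸ ρ.range) : ℝ) * psi C E t F := by linarith
    exact le_of_mul_le_mul_left h2 (mul_pos hb hc)
  · intro q _ r _ hqr
    refine Set.disjoint_left.2 (fun z hq hr => hqr ?_)
    rw [Set.mem_preimage, Set.mem_singleton_iff] at hq hr
    rw [← QuotientGroup.out_eq' q, ← QuotientGroup.out_eq' r, QuotientGroup.eq]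
    refine hx.le ?_
    rw [mem_stabilizer_iff, mul_smul, ← hr, hq, inv_smul_smul]
  · intro q _ h z hz
    rw [Set.mem_preimage, Set.mem_singleton_iff] at hz ⊢
    rw [Subgroup.smul_def, hκ, hz]
    have h2 : q.out⁻¹ * h * q.out⁻¹⁻¹ ∈ stabilizer A x₀ := hx.ge (h.2 q.out⁻¹)
    rw [mem_stabilizer_iff, inv_inv, mul_smul, mul_smul, inv_smul_eq_iff] at h2
    exact h2
  · intro q _ V hV hVs
    rw [← psi_conj q.out (MulAut.conjNormal q.out⁻¹) (hconj _) hEi hE0 hF.rat.inv]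
    exact (hFg q.out).max V hV hVs
  · refine hWs.trans (supp_mono (fun z hz => ?_))
    obtain ⟨a, ha⟩ := hz
    simp only [Finset.mem_univ, Set.iUnion_true, Set.mem_iUnion]
    refine ⟨(a : A ⧸ ι.range), ?_⟩
    obtain ⟨c, hc⟩ := QuotientGroup.mk_out_eq_mul ι.range a
    rw [Set.mem_preimage, Set.mem_singleton_iff, hc, mul_smul, hx.ge c.2, ← ha]

end Pool.Agent.P.MP_0f25e6_al.HN
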