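import Pool.Agent.P.MP_0f25e6_al.HN5

/-!
Families of Harder-Narasimhan subspaces over a complex of cells, and the cut formula.
-/

set_option autoImplicit false

open scoped InnerProductSpace ENNReal Topology
open Filter MulAction

noncomputable section

namespace Pool.Agent.P.MP_0f25e6_al.HN

universe u

section Reps

variable {H X Z : Type*} [Group H] [MulAction H Z] [MulAction H X]

theorem exists_reps {κ : Z → X} (hκ : ∀ (a : H) (z : Z), κ (a • z) = a • κ z) {S : Set X}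
    (hS : ∀ (a : H), ∀ x ∈ S, a • x ∈ S) (hc : Cofin H (κ ⁻¹' S)) :
    ∃ R : Finset X, (∀ x ∈ R, x ∈ S) ∧
      (∀ x ∈ R, ∀ y ∈ R, x ≠ y → Disjoint (κ ⁻¹' orbit H x) (κ ⁻¹' orbit H y)) ∧
      κ ⁻¹' S = ⋃ x ∈ R, κ ⁻¹' orbit H x := by
  obtain ⟨F, hF, hFS⟩ := hc
  let r : Z → X := fun z => (Quotient.mk (orbitRel H X) (κ z)).out
  have hr : ∀ z, ∃ h : H, h • r z = κ z := fun z => exists_smul_out (κ z)
  refine ⟨((hF.inter_of_left (κ ⁻¹' S)).image r).toFinset, ?_, ?_, ?_⟩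
  · intro x hx
    rw [Set.Finite.mem_toFinset] at hx
    obtain ⟨z, hz, rfl⟩ := hx
    obtain ⟨h, hh⟩ := hr z
    have := hS h⁻¹ _ hz.2
    rwa [← hh, inv_smul_smul] at this
  · intro x hx y hy hxy
    rw [Set.Finite.mem_toFinset] at hx hy
    obtain ⟨z, -, rfl⟩ := hx
    obtain ⟨w, -, rfl⟩ := hy
    refine Set.disjoint_left.2 (fun p hp hq => hxy ?_)
    obtain ⟨a, ha⟩ := hp
    obtain ⟨b, hb⟩ := hq
    have h1 := congrArg (Quotient.mk (orbitRel H X)) (ha.trans hb.symm)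
    simp only [r] at h1 ⊢
    rw [mk_smul, mk_smul, Quotient.out_eq, Quotient.out_eq] at h1
    rw [h1]
  · ext z
    simp only [Set.mem_iUnion, Set.Finite.mem_toFinset]
    constructor
    · intro hz
      obtain ⟨h, hh⟩ := hFS z hz
      refine ⟨r (h • z), ⟨h • z, ⟨hh, ?_⟩, rfl⟩, ?_⟩
      · rw [Set.mem_preimage, hκ]; exact hS h _ hz
      · obtain ⟨b, hb⟩ := hr (h • z)
        exact ⟨h⁻¹ * b, by simp only; rw [mul_smul, hb, hκ, inv_smul_smul]⟩
    · rintro ⟨_, ⟨w, hw, rfl⟩, a, ha⟩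
      obtain ⟨b, hb⟩ := hr w
      simp only at ha
      have := hS (a * b⁻¹) _ hw.2
      rwa [← hb, mul_smul, inv_smul_smul, ha] at this

theorem inv_preimage {κ : Z → X} (hκ : ∀ (a : H) (z : Z), κ (a • z) = a • κ z) {S : Set X}
    (hS : ∀ (a : H), ∀ x ∈ S, a • x ∈ S) : ∀ (a : H), ∀ z ∈ κ ⁻¹' S, a • z ∈ κ ⁻¹' S :=
  fun a z hz => by rw [Set.mem_preimage, hκ]; exact hS a _ hz

theorem orbit_inv (x : X) : ∀ (a : H), ∀ y ∈ orbit H x, a • y ∈ orbit H x := by
  rintro a _ ⟨b, rfl⟩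
  exact ⟨a * b, mul_smul a b x⟩

theorem edim_biUnion {I : Type*} (s : Finset I) (Y : I → Set Z)
    (hd : ∀ i ∈ s, ∀ j ∈ s, i ≠ j → Disjoint (Y i) (Y j)) {W : Submodule ℂ (L2 Z)}
    (hY : ∀ i ∈ s, ∀ f ∈ W, res (Y i) f ∈ W) (hU : ∀ f ∈ W, res (⋃ i ∈ s, Y i) f ∈ W) :
    edim H (W ⊓ supp (⋃ i ∈ s, Y i)) = ∑ i ∈ s, edim H (W ⊓ supp (Y i)) := by
  rw [edim, tau_inf_supp' hU, Finset.indicator_biUnion s Y (fun i hi j hj h => hd i hi j hj h),
    osum, Summable.tsum_finsetSum (fun _ _ => ENNReal.summable)]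
  refine Finset.sum_congr rfl (fun i hi => ?_)
  rw [edim, tau_inf_supp' (hY i hi), osum]

theorem dim_reps {κ : Z → X} {S : Set X} (hc : Cofin H (κ ⁻¹' S)) {R : Finset X}
    (hd : ∀ x ∈ R, ∀ y ∈ R, x ≠ y → Disjoint (κ ⁻¹' orbit H x) (κ ⁻¹' orbit H y))
    (hU : κ ⁻¹' S = ⋃ x ∈ R, κ ⁻¹' orbit H x) {W : Submodule ℂ (L2 Z)} (hW : Cls W)
    (hs : Split κ W) :
    dim H (W ⊓ supp (κ ⁻¹' S)) = ∑ x ∈ R, dim H (W ⊓ supp (κ ⁻¹' orbit H x)) := by
  have h := edim_biUnion (H := H) R (fun x => κ ⁻¹' orbit H x) hd (W := W)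
    (fun x _ f hf => hs.res_preimage hW _ hf) (fun f hf => hU ▸ hs.res_preimage hW _ hf)
  rw [← hU] at h
  have hf : edim H (W ⊓ supp (κ ⁻¹' S)) ≠ ⊤ := edim_ne_top_of_cofin hc inf_le_right
  rw [dim, h, ENNReal.toReal_sum]
  · rfl
  · rw [h] at hf
    exact ENNReal.sum_ne_top.1 hf

theorem cofin_stab {r : Z → X → Prop} (hr : ∀ (a : H) z x, r z x → r (a • z) (a • x))
    (hfin : ∀ z, {x | r z x}.Finite) (hc : Cofin H (Set.univ : Set Z)) (x : X) :
    Cofin (stabilizer H x) {z | r z x} := by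
  classical
  obtain ⟨F, hF, hFS⟩ := hc
  let g : X → H := fun y => if h : ∃ a : H, a • y = x then h.choose else 1
  have hg : ∀ y, (∃ a : H, a • y = x) → g y • y = x := fun y h => by
    simp only [g, dif_pos h]; exact h.choose_spec
  refine ⟨⋃ z ∈ F, (fun y => g y • z) '' {y | r z y},
    hF.biUnion (fun z _ => (hfin z).image _), fun z hz => ?_⟩
  obtain ⟨h, hh⟩ := hFS z trivial
  have h1 := hg (h • x) ⟨h⁻¹, inv_smul_smul h x⟩
  refine ⟨⟨g (h • x) * h, by rw [mem_stabilizer_iff, mul_smul, h1]⟩, ?_⟩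
  simp only [Set.mem_iUnion, Set.mem_image]
  exact ⟨h • z, hh, h • x, hr h z x hz, (mul_smul _ _ _).symm⟩

theorem cofin_fibre {κ : Z → X} (hκ : ∀ (a : H) (z : Z), κ (a • z) = a • κ z)
    (hc : Cofin H (Set.univ : Set Z)) (x : X) : Cofin (stabilizer H x) (κ ⁻¹' {x}) :=
  cofin_stab (r := fun z x => κ z = x) (fun a z x h => by rw [hκ, h])
    (fun z => by simp) hc x

theorem free_subgroup (hZ : Free H Z) (K : Subgroup H) : Free K Z :=
  hZ.of_hom K.subtype K.subtype_injective (fun _ _ => rfl)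

theorem Inv.subgroup {W : Submodule ℂ (L2 Z)} (hW : Inv H W) (K : Subgroup H) : Inv K W :=
  hW.of_hom K.subtype (fun _ _ => rfl)

theorem Eqv.subgroup {Y : Type*} [MulAction H Y] {T : L2 Y →L[ℂ] L2 Z} (hT : Eqv H T)
    (K : Subgroup H) : Eqv K T := fun k f => hT (k : H) f

theorem fibre_inv {κ : Z → X} (hκ : ∀ (a : H) (z : Z), κ (a • z) = a • κ z) (x : X) :
    ∀ (a : stabilizer H x), ∀ z ∈ κ ⁻¹' {x}, a • z ∈ κ ⁻¹' {x} := by
  intro a z hz
  rw [Set.mem_preimage, Set.mem_singleton_iff] at hz ⊢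
  rw [Subgroup.smul_def, hκ, hz]
  exact a.2

theorem dim_reps_stab (hZ : Free H Z) {κ : Z → X} (hκ : ∀ (a : H) (z : Z), κ (a • z) = a • κ z)
    {S : Set X} (hc : Cofin H (κ ⁻¹' S)) {R : Finset X}
    (hd : ∀ x ∈ R, ∀ y ∈ R, x ≠ y → Disjoint (κ ⁻¹' orbit H x) (κ ⁻¹' orbit H y))
    (hU : κ ⁻¹' S = ⋃ x ∈ R, κ ⁻¹' orbit H x) {W : Submodule ℂ (L2 Z)} (hW : Cls W)
    (hi : Inv H W) (hs : Split κ W) :
    dim H (W ⊓ supp (κ ⁻¹' S)) = ∑ x ∈ R, dim (stabilizer H x) (W ⊓ supp (κ ⁻¹' {x})) := by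
  rw [dim_reps hc hd hU hW hs]
  exact Finset.sum_congr rfl (fun x _ => dim_induce (stabilizer H x).subtype hZ
    (Subgroup.subtype_injective _) (fun _ _ => rfl) hκ (Subgroup.range_subtype _).symm hW hi hs)

theorem Split.inf {κ : Z → X} {W W' : Submodule ℂ (L2 Z)} (h : Split κ W) (h' : Split κ W') :
    Split κ (W ⊓ W') := fun x f hf => ⟨h x f hf.1, h' x f hf.2⟩

theorem cofin_univ_mono (hc : Cofin H (Set.univ : Set Z)) (S : Set Z) : Cofin H S := by
  obtain ⟨F, hF, h⟩ := hc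
  exact ⟨F, hF, fun z _ => h z trivial⟩

theorem res_fibre_ne {κ : Z → X} {x y : X} (h : x ≠ y) {f : L2 Z} (hf : f ∈ supp (κ ⁻¹' {y})) :
    res (κ ⁻¹' {x}) f = 0 :=
  res_eq_zero hf (fun _ hz hz' => h (hz.symm.trans hz'))

theorem res_fibre_pos {κ : Z → X} {x : X} {z : Z} (f : L2 Z) (h : κ z = x) :
    res (κ ⁻¹' {x}) f z = f z := res_apply_of_mem f h

theorem res_fibre_neg {κ : Z → X} {x : X} {z : Z} (f : L2 Z) (h : κ z ≠ x) :
    res (κ ⁻¹' {x}) f z = 0 := res_apply_of_notMem f h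

theorem res_pre_pos {κ : Z → X} {S : Set X} {z : Z} (f : L2 Z) (h : κ z ∈ S) :
    res (κ ⁻¹' S) f z = f z := res_apply_of_mem f h

theorem res_pre_neg {κ : Z → X} {S : Set X} {z : Z} (f : L2 Z) (h : κ z ∉ S) :
    res (κ ⁻¹' S) f z = 0 := res_apply_of_notMem f h

/-- The subspace glued from subspaces given on the fibres. -/
def glue (κ : Z → X) (W : X → Submodule ℂ (L2 Z)) : Submodule ℂ (L2 Z) :=
  ⨅ x, pre (res (κ ⁻¹' {x})) (W x)

theorem mem_glue {κ : Z → X} {W : X → Submodule ℂ (L2 Z)} {f : L2 Z} :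
    f ∈ glue κ W ↔ ∀ x, res (κ ⁻¹' {x}) f ∈ W x := Submodule.mem_iInf _

theorem cls_glue {κ : Z → X} {W : X → Submodule ℂ (L2 Z)} (h : ∀ x, Cls (W x)) :
    Cls (glue κ W) := cls_iInf (fun x => (h x).pre _)

theorem split_glue (κ : Z → X) (W : X → Submodule ℂ (L2 Z)) : Split κ (glue κ W) := by
  intro x f hf
  rw [mem_glue] at hf ⊢
  intro y
  by_cases h : y = x
  · subst h
    rw [res_eq_self (res_mem_supp _ _)]; exact hf y
  · rw [res_fibre_ne h (res_mem_supp _ _)]; exact Submodule.zero_mem _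

theorem glue_inf (κ : Z → X) (W : X → Submodule ℂ (L2 Z)) (x : X) :
    glue κ W ⊓ supp (κ ⁻¹' {x}) = W x ⊓ supp (κ ⁻¹' {x}) := by
  ext f
  refine and_congr_left (fun hf => ⟨fun h => ?_, fun h => mem_glue.2 (fun y => ?_)⟩)
  · have := mem_glue.1 h x
    rwa [res_eq_self hf] at this
  · by_cases hy : y = x
    · subst hy
      rwa [res_eq_self hf]
    · rw [res_fibre_ne hy hf]; exact Submodule.zero_mem _

theorem inv_glue {κ : Z → X} (hκ : ∀ (a : H) (z : Z), κ (a • z) = a • κ z)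
    {W : X → Submodule ℂ (L2 Z)} (h : ∀ (a : H) x, ∀ f ∈ W x, act a f ∈ W (a • x)) :
    Inv H (glue κ W) := by
  intro a f hf
  rw [mem_glue] at hf ⊢
  intro x
  have := h a _ _ (hf (a⁻¹ • x))
  rwa [act_res_fibre hκ, smul_inv_smul] at this

end Reps

section Fam

variable {G : Type u} {X Z : Type*} [Group G] [MulAction G Z] [MulAction G X]

theorem rat_biUnion (hZ : Free G Z) {I : Type*} (s : Finset I) (Y : I → Set Z)
    {W : Submodule ℂ (L2 Z)} (hW : Cls W) (hY : ∀ i ∈ s, ∀ f ∈ W, res (Y i) f ∈ W)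
    (hr : ∀ i ∈ s, Rat G (W ⊓ supp (Y i))) : Rat G (W ⊓ supp (⋃ i ∈ s, Y i)) := by
  classical
  induction s using Finset.induction_on with
  | empty =>
    simp only [Finset.notMem_empty, Set.iUnion_of_empty, Set.iUnion_empty, supp_empty, inf_bot_eq]
    exact rat_bot hZ
  | insert a s ha ih =>
    have h1 := (hr a (Finset.mem_insert_self a s)).sup
      (ih (fun i hi => hY i (Finset.mem_insert_of_mem hi))
        (fun i hi => hr i (Finset.mem_insert_of_mem hi)))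
    convert h1 using 1
    rw [Finset.set_biUnion_insert]
    apply le_antisymm
    · rintro f ⟨hf, hfs⟩
      have h2 := hY a (Finset.mem_insert_self a s) f hf
      have h3 : f = res (Y a) f + (f - res (Y a) f) := by abel
      rw [h3]
      refine le_cl _ (Submodule.add_mem_sup ⟨h2, res_mem_supp _ _⟩ ⟨W.sub_mem hf h2, ?_⟩)
      intro z hz
      rw [lp.coeFn_sub, Pi.sub_apply]
      by_cases hza : z ∈ Y a
      · rw [res_apply_of_mem f hza, sub_self]
      · rw [res_apply_of_notMem f hza, hfs z (fun h => h.elim hza hz), sub_self]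
    · refine cl_le (sup_le ?_ ?_) (hW.inf (cls_supp _))
      · exact inf_le_inf_left _ (supp_mono Set.subset_union_left)
      · exact inf_le_inf_left _ (supp_mono Set.subset_union_right)

/-- A closed invariant subspace whose fibres are the largest maximisers. -/
structure IsFam (G : Type u) [Group G] [MulAction G Z] [MulAction G X] (κ : Z → X)
    (L : Submodule ℂ (L2 Z)) (t : ℝ) (F : Submodule ℂ (L2 Z)) : Prop where
  cls : Cls F
  inv : Inv G F
  split : Split κ F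
  hn : ∀ x, IsHN (stabilizer G x) (κ ⁻¹' {x}) L t (F ⊓ supp (κ ⁻¹' {x}))

theorem exists_isFam (hZ : Free G Z) (hc : Cofin G (Set.univ : Set Z)) {κ : Z → X}
    (hκ : ∀ (a : G) (z : Z), κ (a • z) = a • κ z) (hX : ∀ x : X, SAC (stabilizer G x))
    {L : Submodule ℂ (L2 Z)} (hL : Cls L) (hLi : Inv G L) (t : ℝ) : ∃ F, IsFam G κ L t F := by
  choose F hF using fun x : X => exists_isHN (hX x) (free_subgroup hZ _) (cofin_fibre hκ hc x) hL
    (hLi.subgroup _) t
  refine ⟨glue κ F, cls_glue (fun x => (hF x).rat.cls), inv_glue hκ (fun a x f hf => ?_),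
    split_glue κ F, fun x => ?_⟩
  · have h1 := (hF x).conj a (stabilizerEquivStabilizer (rfl : a • x = a • x)).symm
      (S' := κ ⁻¹' {a • x}) (fun h z => by
        rw [Subgroup.smul_def, Subgroup.smul_def, stabilizerEquivStabilizer_symm_apply,
          MulAut.conj_apply, ← mul_smul, ← mul_smul]
        congr 1
        group) (fun z => by
        simp only [Set.mem_preimage, Set.mem_singleton_iff, hκ, smul_left_cancel_iff]) hLi
      (hLi.subgroup _)
    rw [← h1.unique (hF (a • x))]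
    exact ⟨f, hf, rfl⟩
  · rw [glue_inf, inf_eq_left.2 (hF x).le]
    exact hF x

theorem IsFam.anti (hZ : Free G Z) {κ : Z → X} {L : Submodule ℂ (L2 Z)} (hL : Cls L)
    (hLi : Inv G L) {s t : ℝ} (hst : s ≤ t) {F F' : Submodule ℂ (L2 Z)} (h : IsFam G κ L s F)
    (h' : IsFam G κ L t F') : F' ≤ F := fun f hf =>
  mem_of_res (κ := κ) h.cls (fun x =>
    (((h.hn x).anti (free_subgroup hZ _) hL (hLi.subgroup _) hst (h'.hn x))
      ⟨h'.split x f hf, res_mem_supp _ _⟩).1)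

theorem IsFam.zero (hZ : Free G Z) (hc : Cofin G (Set.univ : Set Z)) {κ : Z → X}
    (hκ : ∀ (a : G) (z : Z), κ (a • z) = a • κ z) {L F : Submodule ℂ (L2 Z)}
    (h : IsFam G κ L 0 F) : F = ⊤ := by
  refine eq_top_iff.2 (fun f _ => mem_of_res (κ := κ) h.cls (fun x => ?_))
  have h1 := (h.hn x).zero (free_subgroup hZ _)
    (rat_supp (free_subgroup hZ _) (fibre_inv hκ x) (cofin_fibre hκ hc x))
  exact (h1.ge (res_mem_supp _ _)).1

theorem IsFam.int (hZ : Free G Z) (hc : Cofin G (Set.univ : Set Z)) {κ : Z → X}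
    (hκ : ∀ (a : G) (z : Z), κ (a • z) = a • κ z) (hX : ∀ x : X, SAC (stabilizer G x))
    {L F : Submodule ℂ (L2 Z)} {t : ℝ} (h : IsFam G κ L t F) {S : Set X}
    (hS : ∀ (a : G), ∀ x ∈ S, a • x ∈ S) : ∃ k : ℕ, dim G (F ⊓ supp (κ ⁻¹' S)) = k := by
  obtain ⟨R, -, hd, hU⟩ := exists_reps hκ hS (cofin_univ_mono hc _)
  choose k hk using fun x => (h.hn x).rat.dim_int (hX x) (free_subgroup hZ _)
  refine ⟨∑ x ∈ R, k x, ?_⟩
  rw [dim_reps_stab hZ hκ (cofin_univ_mono hc _) hd hU h.cls h.inv h.split, Nat.cast_sum]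
  exact Finset.sum_congr rfl (fun x _ => hk x)

theorem fam_riemann (hZ : Free G Z) (hc : Cofin G (Set.univ : Set Z)) {κ : Z → X}
    (hκ : ∀ (a : G) (z : Z), κ (a • z) = a • κ z) {L : Submodule ℂ (L2 Z)} (hL : Cls L)
    (hLi : Inv G L) (hLs : Split κ L) {n : ℕ} (hn : 0 < n) (F : ℕ → Submodule ℂ (L2 Z))
    (hF : ∀ j : ℕ, IsFam G κ L ((j : ℝ) / n) (F j)) {S : Set X}
    (hS : ∀ (a : G), ∀ x ∈ S, a • x ∈ S) :
    ∑ j ∈ Finset.range n, dim G (F (j + 1) ⊓ supp (κ ⁻¹' S)) ≤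
      n * dim G (L ⊓ supp (κ ⁻¹' S)) := by
  obtain ⟨R, -, hd, hU⟩ := exists_reps hκ hS (cofin_univ_mono hc _)
  rw [dim_reps_stab hZ hκ (cofin_univ_mono hc _) hd hU hL hLi hLs, Finset.mul_sum,
    Finset.sum_congr rfl (fun j _ => dim_reps_stab hZ hκ (cofin_univ_mono hc _) hd hU
      (hF (j + 1)).cls (hF (j + 1)).inv (hF (j + 1)).split), Finset.sum_comm]
  exact Finset.sum_le_sum (fun x _ => riemann_dim (free_subgroup hZ _) (cofin_fibre hκ hc x) hn
    (fun j => F j ⊓ supp (κ ⁻¹' {x})) (fun j => (hF j).hn x))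

end Fam

section Vertex

variable {G X Z : Type u} [Group G] [MulAction G Z] [MulAction G X]

theorem IsFam.rat_of_le (hZ : Free G Z) {κ : Z → X}
    (hκ : ∀ (a : G) (z : Z), κ (a • z) = a • κ z) {L F : Submodule ℂ (L2 Z)} {t : ℝ}
    (h : IsFam G κ L t F) (A : Subgroup G) {S : Set X} (hS : ∀ (a : A), ∀ x ∈ S, a • x ∈ S)
    (hc : Cofin A (κ ⁻¹' S)) (hle : ∀ x ∈ S, stabilizer G x ≤ A) :
    Rat A (F ⊓ supp (κ ⁻¹' S)) := by
  obtain ⟨R, hR, -, hU⟩ := exists_reps (H := A) (fun a z => hκ a z) hS hc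
  rw [hU]
  refine rat_biUnion (free_subgroup hZ A) R _ h.cls
    (fun x _ f hf => h.split.res_preimage h.cls _ hf) (fun x hx => ?_)
  exact Rat.orbit (Subgroup.inclusion (hle x (hR x hx))) (free_subgroup hZ A)
    (Subgroup.inclusion_injective _) (fun _ _ => rfl) (fun a z => hκ a z) x h.cls
    (h.inv.subgroup A) h.split (h.hn x).rat

theorem IsFam.max_of_tp (hZ : Free G Z) (hcZ : Cofin G (Set.univ : Set Z)) {κ : Z → X}
    (hκ : ∀ (a : G) (z : Z), κ (a • z) = a • κ z) {L F : Submodule ℂ (L2 Z)} (hL : Cls L)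
    (hLi : Inv G L) (hLs : Split κ L) {t : ℝ} (ht0 : 0 ≤ t) (ht1 : t ≤ 1)
    (h : IsFam G κ L t F) (A : Subgroup G) {S : Set X} (hS : ∀ (a : A), ∀ x ∈ S, a • x ∈ S)
    (hc : Cofin A (κ ⁻¹' S))
    (htp : ∀ x ∈ S, ∃ hle : stabilizer G x ≤ A, TP (Subgroup.inclusion hle))
    {W : Submodule ℂ (L2 Z)} (hW : Rat A W) (hWs : W ≤ supp (κ ⁻¹' S)) :
    psi A L t W ≤ psi A L t (F ⊓ supp (κ ⁻¹' S)) := by
  obtain ⟨R, hR, hd, hU⟩ := exists_reps (H := A) (fun a z => hκ a z) hS hc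
  have hZA := free_subgroup hZ A
  have h1 := psi_le_sum hZA R (fun x => κ ⁻¹' orbit A x) hd
    (fun x _ => inv_preimage (H := A) (fun a z => hκ a z) (orbit_inv x)) hL (hLi.subgroup A)
    (fun x _ f hf => hLs.res_preimage hL _ hf) t
    (fun x => psi A L t (F ⊓ supp (κ ⁻¹' orbit A x))) ?_ hW (hU ▸ hWs)
  · refine h1.trans (le_of_eq ?_)
    simp only [psi, ← inf_assoc]
    rw [dim_reps hc hd hU h.cls h.split, dim_reps hc hd hU (hL.inf h.cls) (hLs.inf h.split),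
      Finset.mul_sum, Finset.sum_sub_distrib]
  · intro x hx V hV hVs
    obtain ⟨hle, tp⟩ := htp x (hR x hx)
    have hst : stabilizer A x = (Subgroup.inclusion hle).range := by
      rw [Subgroup.inclusion_range]; rfl
    obtain ⟨F', hF', hF's, h2⟩ := tp Z X κ x hZA (fun _ _ => rfl) (fun a z => hκ a z) hst
      (cofin_fibre hκ hcZ x) L hL (hLi.subgroup A) hLs t ht0 ht1 V hV hVs
    refine (h2.trans ((h.hn x).max F' hF' hF's)).trans (le_of_eq ?_)
    simp only [psi, ← inf_assoc]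
    rw [dim_induce (Subgroup.inclusion hle) hZA (Subgroup.inclusion_injective _) (fun _ _ => rfl)
        (fun a z => hκ a z) hst h.cls (h.inv.subgroup A) h.split,
      dim_induce (Subgroup.inclusion hle) hZA (Subgroup.inclusion_injective _) (fun _ _ => rfl)
        (fun a z => hκ a z) hst (hL.inf h.cls) ((hLi.inf h.inv).subgroup A) (hLs.inf h.split)]

end Vertex

/-- A local operator between spaces of functions lying over vertices and over cells. -/
structure Cx (G V X Z₁ Z₂ : Type u) [Group G] [MulAction G V] [MulAction G X] [MulAction G Z₁]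
    [MulAction G Z₂] where
  /-- location of the source coordinates -/
  π : Z₁ → V
  /-- location of the target coordinates -/
  κ : Z₂ → X
  /-- incidence -/
  inc : X → V → Prop
  /-- the operator -/
  D : L2 Z₁ →L[ℂ] L2 Z₂
  π_smul : ∀ (g : G) z, π (g • z) = g • π z
  κ_smul : ∀ (g : G) z, κ (g • z) = g • κ z
  inc_smul : ∀ (g : G) x v, inc x v → inc (g • x) (g • v)
  inc_fin : ∀ x, {v | inc x v}.Finite
  free₁ : Free G Z₁
  free₂ : Free G Z₂
  cof₁ : Cofin G (Set.univ : Set Z₁)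
  cof₂ : Cofin G (Set.univ : Set Z₂)
  eqv : Eqv G D
  cols : FinCols D
  near : ∀ v, ∀ f ∈ supp (π ⁻¹' {v}), D f ∈ supp (κ ⁻¹' {x | inc x v})

namespace Cx

variable {G V X Z₁ Z₂ : Type u} [Group G] [MulAction G V] [MulAction G X] [MulAction G Z₁]
  [MulAction G Z₂] (C : Cx G V X Z₁ Z₂)

/-- Vectors whose pieces at every vertex lie in `N` and are mapped into `L`. -/
def loc (N : Submodule ℂ (L2 Z₁)) (L : Submodule ℂ (L2 Z₂)) : Submodule ℂ (L2 Z₁) :=
  glue C.π (fun _ => N ⊓ pre C.D L)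

theorem cls_loc {N : Submodule ℂ (L2 Z₁)} {L : Submodule ℂ (L2 Z₂)} (hN : Cls N) (hL : Cls L) :
    Cls (C.loc N L) := cls_glue (fun _ => hN.inf (hL.pre _))

theorem inv_loc {N : Submodule ℂ (L2 Z₁)} {L : Submodule ℂ (L2 Z₂)} (hN : Inv G N)
    (hL : Inv G L) : Inv G (C.loc N L) :=
  inv_glue C.π_smul (fun a _ f hf => (hN.inf (hL.pre C.eqv)) a f hf)

theorem split_loc (N : Submodule ℂ (L2 Z₁)) (L : Submodule ℂ (L2 Z₂)) : Split C.π (C.loc N L) :=
  split_glue _ _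

theorem loc_inf (N : Submodule ℂ (L2 Z₁)) (L : Submodule ℂ (L2 Z₂)) (v : V) :
    C.loc N L ⊓ supp (C.π ⁻¹' {v}) = (supp (C.π ⁻¹' {v}) ⊓ N) ⊓ pre C.D L := by
  rw [loc, glue_inf, inf_comm, inf_assoc]

theorem star_inv (v : V) : ∀ (a : stabilizer G v), ∀ x ∈ {x | C.inc x v}, a • x ∈ {x | C.inc x v} :=
  fun a x hx => by
    have := C.inc_smul a x v hx
    rwa [mem_stabilizer_iff.1 a.2] at this

theorem star_cofin (v : V) : Cofin (stabilizer G v) (C.κ ⁻¹' {x | C.inc x v}) :=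
  cofin_stab (r := fun z v => C.inc (C.κ z) v)
    (fun a z v h => by rw [C.κ_smul]; exact C.inc_smul a _ _ h) (fun _ => C.inc_fin _) C.cof₂ v

theorem rat_vertex {N : Submodule ℂ (L2 Z₁)} (hN : Cut N) (hNi : Inv G N) (v : V) :
    Rat (stabilizer G v) (supp (C.π ⁻¹' {v}) ⊓ N) :=
  (rat_supp (free_subgroup C.free₁ _) (fibre_inv C.π_smul v)
    (cofin_fibre C.π_smul C.cof₁ v)).inf_cut (free_subgroup C.free₁ _) hN (hNi.subgroup _)

theorem img_le_star (N : Submodule ℂ (L2 Z₁)) (v : V) :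
    cl (img C.D (supp (C.π ⁻¹' {v}) ⊓ N)) ≤ supp (C.κ ⁻¹' {x | C.inc x v}) := by
  refine cl_le ?_ (cls_supp _)
  rintro _ ⟨f, hf, rfl⟩
  exact C.near v f hf.1

theorem dim_vertex {N : Submodule ℂ (L2 Z₁)} (hN : Cut N) (hNi : Inv G N) (v : V)
    {L : Submodule ℂ (L2 Z₂)} (hL : Cls L) (hLi : Inv G L) :
    dim (stabilizer G v) (C.loc N L ⊓ supp (C.π ⁻¹' {v})) =
      dim (stabilizer G v) ((supp (C.π ⁻¹' {v}) ⊓ N) ⊓ pre C.D ⊥) +
      dim (stabilizer G v) (cl (img C.D (supp (C.π ⁻¹' {v}) ⊓ N)) ⊓ L) := by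
  have h := C.rat_vertex hN hNi v
  rw [C.loc_inf]
  exact dim_pre (free_subgroup C.free₁ _) (free_subgroup C.free₂ _) (C.eqv.subgroup _) h.cls h.inv
    (h.edim_ne_top (free_subgroup C.free₁ _)) hL (hLi.subgroup _)

theorem exists_reps' : ∃ R : Finset V, ∀ W : Submodule ℂ (L2 Z₁), Cls W → Inv G W → Split C.π W →
    dim G W = ∑ v ∈ R, dim (stabilizer G v) (W ⊓ supp (C.π ⁻¹' {v})) := by
  obtain ⟨R, -, hd, hU⟩ := exists_reps C.π_smul (S := Set.univ) (fun _ _ _ => trivial) C.cof₁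
  refine ⟨R, fun W h1 h2 h3 => ?_⟩
  have := dim_reps_stab C.free₁ C.π_smul (S := Set.univ) C.cof₁ hd hU h1 h2 h3
  rwa [Set.preimage_univ, supp_univ, inf_top_eq] at this

theorem loc_int (hV : ∀ v : V, SAC (stabilizer G v))
    (hle : ∀ x v, C.inc x v → stabilizer G x ≤ stabilizer G v)
    {N : Submodule ℂ (L2 Z₁)} (hN : Cut N) (hNi : Inv G N) {L F : Submodule ℂ (L2 Z₂)} {t : ℝ}
    (hF : IsFam G C.κ L t F) : ∃ k : ℕ, dim G (C.loc N F) = k := by
  obtain ⟨R, hR⟩ := C.exists_reps'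
  have : ∀ v, ∃ k : ℕ, dim (stabilizer G v) (C.loc N F ⊓ supp (C.π ⁻¹' {v})) = k := by
    intro v
    have h := C.rat_vertex hN hNi v
    have hZ₁ := free_subgroup C.free₁ (stabilizer G v)
    have hZ₂ := free_subgroup C.free₂ (stabilizer G v)
    obtain ⟨a, ha⟩ := (h.inf_cut hZ₁ (cut_bot.pre (finRows_of_finCols C.cof₁ C.free₂ C.eqv C.cols))
      (inv_bot.pre (C.eqv.subgroup _))).dim_int (hV v) hZ₁
    obtain ⟨b, hb⟩ := ((h.img (C.eqv.subgroup _) C.cols).inf hZ₂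
      (hF.rat_of_le C.free₂ C.κ_smul _ (C.star_inv v) (C.star_cofin v)
        (fun x hx => hle x v hx))).dim_int (hV v) hZ₂
    rw [inf_comm F, ← inf_assoc, inf_eq_left.2 (C.img_le_star N v)] at hb
    exact ⟨a + b, by rw [C.dim_vertex hN hNi v hF.cls hF.inv, ha, hb, Nat.cast_add]⟩
  choose k hk using this
  refine ⟨∑ v ∈ R, k v, ?_⟩
  rw [hR _ (C.cls_loc hN.cls hF.cls) (C.inv_loc hNi hF.inv) (C.split_loc _ _), Nat.cast_sum]
  exact Finset.sum_congr rfl (fun v _ => hk v)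

theorem loc_riemann
    (htp : ∀ x v, C.inc x v → ∃ hle : stabilizer G x ≤ stabilizer G v, TP (Subgroup.inclusion hle))
    {N : Submodule ℂ (L2 Z₁)} (hN : Cut N) (hNi : Inv G N) {L : Submodule ℂ (L2 Z₂)} (hL : Cls L)
    (hLi : Inv G L) (hLs : Split C.κ L) {n : ℕ} (hn : 0 < n) (F : ℕ → Submodule ℂ (L2 Z₂))
    (hF : ∀ j : ℕ, IsFam G C.κ L ((j : ℝ) / n) (F j)) :
    n * dim G (C.loc N L) ≤ ∑ j ∈ Finset.range n, dim G (C.loc N (F j)) := by
  obtain ⟨R, hR⟩ := C.exists_reps'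
  have hn' : (0 : ℝ) < n := by exact_mod_cast hn
  rw [hR _ (C.cls_loc hN.cls hL) (C.inv_loc hNi hLi) (C.split_loc _ _), Finset.mul_sum,
    Finset.sum_congr rfl (fun j _ => hR _ (C.cls_loc hN.cls (hF j).cls) (C.inv_loc hNi (hF j).inv)
      (C.split_loc _ _)), Finset.sum_comm]
  refine Finset.sum_le_sum (fun v _ => ?_)
  have h := C.rat_vertex hN hNi v
  have hZ₂ := free_subgroup C.free₂ (stabilizer G v)
  have h1 := riemann_inf hZ₂ (S := C.κ ⁻¹' {x | C.inc x v}) hL (hLi.subgroup _) hn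
    (fun j => F j ⊓ supp (C.κ ⁻¹' {x | C.inc x v}))
    (fun j => (hF j).rat_of_le C.free₂ C.κ_smul _ (C.star_inv v) (C.star_cofin v)
      (fun x hx => (htp x v hx).1))
    (fun j => inf_le_right)
    (fun j => inf_le_inf_right _ ((hF j).anti C.free₂ hL hLi (by
      refine div_le_div_of_nonneg_right ?_ hn'.le
      push_cast; linarith) (hF (j + 1))))
    (by
      have h0 := hF 0
      rw [Nat.cast_zero, zero_div] at h0
      rw [h0.zero C.free₂ C.cof₂ C.κ_smul, top_inf_eq])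
    (fun j hj W hW hWs => (hF j).max_of_tp C.free₂ C.cof₂ C.κ_smul hL hLi hLs (by positivity)
      (by rw [div_le_one hn']; exact_mod_cast hj) _ (C.star_inv v) (C.star_cofin v)
      (fun x hx => htp x v hx) hW hWs)
    (h.img (C.eqv.subgroup _) C.cols) (C.img_le_star N v)
  rw [C.dim_vertex hN hNi v hL hLi, Finset.sum_congr rfl
    (fun j _ => C.dim_vertex hN hNi v (hF j).cls (hF j).inv), Finset.sum_add_distrib,
    Finset.sum_const, Finset.card_range, nsmul_eq_mul, mul_add]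
  refine add_le_add le_rfl (h1.trans (le_of_eq (Finset.sum_congr rfl (fun j _ => ?_))))
  rw [inf_comm (F j), ← inf_assoc, inf_eq_left.2 (C.img_le_star N v)]

/-- The easy half of the cut formula. -/
theorem cut_le {N : Submodule ℂ (L2 Z₁)} (hN : Cls N) (hNi : Inv G N) {L : Submodule ℂ (L2 Z₂)}
    (hL : Cls L) (hLi : Inv G L) :
    dim G (C.loc N L) ≤ dim G (N ⊓ pre C.D ⊥) + dim G L := by
  rw [dim_rank_nullity C.free₁ C.free₂ C.eqv (C.cls_loc hN hL) (C.inv_loc hNi hLi)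
    (edim_ne_top C.cof₁ _)]
  refine add_le_add (dim_mono (edim_ne_top C.cof₁ _) (inf_le_inf_right _ (fun f hf => ?_)))
    (dim_mono (edim_ne_top C.cof₂ _) ?_)
  · exact mem_of_res (κ := C.π) hN (fun v => (mem_glue.1 hf v).1)
  · rintro _ ⟨f, hf, rfl⟩
    exact mem_of_hasSum hL ((hasSum_res C.π f).mapL C.D) (fun v => (mem_glue.1 hf v).2)

theorem res_D_eq_zero {x : X} {T : Set V} (hT : ∀ v ∈ T, ¬ C.inc x v) {g : L2 Z₁}
    (hg : g ∈ supp (C.π ⁻¹' T)) : res (C.κ ⁻¹' {x}) (C.D g) = 0 := by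
  refine (((hasSum_res C.π g).mapL C.D).mapL (res (C.κ ⁻¹' {x}))).unique ?_
  convert hasSum_zero with v
  by_cases hv : v ∈ T
  · refine res_eq_zero (C.near v _ (res_mem_supp _ _)) (fun z hz hz' => hT v hv ?_)
    rw [Set.mem_preimage, Set.mem_singleton_iff] at hz
    rw [← hz]; exact hz'
  · rw [res_eq_zero hg, map_zero, map_zero]
    intro z hz hz'
    rw [Set.mem_preimage, Set.mem_singleton_iff] at hz
    exact hv (hz ▸ hz')

/-- The cut formula on a tree. -/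
theorem cut_eq (T : TreeData G V X) (hinc : ∀ e v, C.inc e v → v = T.o e ∨ v = T.t e)
    {N : Submodule ℂ (L2 Z₁)} (hN : Cls N) (hNi : Inv G N) (hNs : Split C.π N) :
    ∃ L : Submodule ℂ (L2 Z₂), Cls L ∧ Inv G L ∧ Split C.κ L ∧
      dim G (N ⊓ pre C.D ⊥) + dim G L ≤ dim G (C.loc N L) := by
  set K := N ⊓ pre C.D ⊥ with hK
  have hKi : Inv G K := hNi.inf (inv_bot.pre C.eqv)
  let P : X → L2 Z₁ →L[ℂ] L2 Z₂ := fun e => res (C.κ ⁻¹' {e}) ∘L C.D ∘L res (C.π ⁻¹' {T.t e})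
  have hP : ∀ e f, P e f = res (C.κ ⁻¹' {e}) (C.D (res (C.π ⁻¹' {T.t e}) f)) := fun _ _ => rfl
  set L := cl (⨆ e, img (P e) K) with hL
  have hgen : ∀ e, ∀ f ∈ K, P e f ∈ L := fun e f hf =>
    le_cl _ (Submodule.mem_iSup_of_mem e ⟨f, hf, rfl⟩)
  have hind : ∀ M : Submodule ℂ (L2 Z₂), Cls M → (∀ e, ∀ f ∈ K, P e f ∈ M) → L ≤ M := by
    intro M hM h
    refine cl_le (iSup_le (fun e => ?_)) hM
    rintro _ ⟨f, hf, rfl⟩
    exact h e f hf
  have hLi : Inv G L := fun a => hind (pre (act a) L) ((cls_cl _).pre _) (fun e f hf => by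
    change act a (P e f) ∈ L
    rw [hP, act_res_fibre C.κ_smul, ← C.eqv, act_res_fibre C.π_smul, ← T.t_smul]
    exact hgen _ _ (hKi a f hf))
  have hLs : Split C.κ L := fun x => hind (pre (res (C.κ ⁻¹' {x})) L) ((cls_cl _).pre _)
    (fun e f hf => by
      change res _ (P e f) ∈ L
      by_cases h : x = e
      · subst h
        rw [hP, res_eq_self (res_mem_supp _ _)]
        exact hgen _ _ hf
      · rw [hP, res_fibre_ne h (res_mem_supp _ _)]
        exact Submodule.zero_mem _)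
  -- changing a vector away from the ends of `e` does not change its image over `e`
  have hcongr : ∀ (e : X) (g g' : L2 Z₁), (∀ z, C.π z = T.o e ∨ C.π z = T.t e → g z = g' z) →
      res (C.κ ⁻¹' {e}) (C.D g) = res (C.κ ⁻¹' {e}) (C.D g') := by
    intro e g g' h
    rw [← sub_eq_zero, ← map_sub, ← map_sub]
    refine C.res_D_eq_zero (T := {v | ¬ (v = T.o e ∨ v = T.t e)})
      (fun v hv hi => hv (hinc e v hi)) (fun z hz => ?_)
    rw [lp.coeFn_sub, Pi.sub_apply, h z (not_not.1 hz), sub_self]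
  have hne : ∀ e, T.o e ≠ T.t e := by
    intro e h
    obtain ⟨S, h1, h2, -⟩ := T.cut e
    exact h2 (h ▸ h1)
  have hKloc : K ≤ C.loc N L := by
    intro f hf
    refine mem_glue.2 (fun v => ⟨hNs v f hf.1, mem_of_res (κ := C.κ) (cls_cl _) (fun e => ?_)⟩)
    change res _ (C.D _) ∈ L
    by_cases h1 : v = T.t e
    · rw [h1]; exact hgen e f hf
    by_cases h2 : v = T.o e
    · have h3 : res (C.κ ⁻¹' {e}) (C.D (res (C.π ⁻¹' {v}) f)) =
          res (C.κ ⁻¹' {e}) (C.D (f - res (C.π ⁻¹' {T.t e}) f)) := by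
        refine hcongr e _ _ (fun z hz => ?_)
        rw [lp.coeFn_sub, Pi.sub_apply]
        rcases hz with hz | hz
        · rw [res_fibre_pos f (hz.trans h2.symm), res_fibre_neg f
            (fun h => hne e (hz.symm.trans h)), sub_zero]
        · rw [res_fibre_neg f (fun h => h1 (h.symm.trans hz)), res_fibre_pos f hz, sub_self]
      have h4 : C.D f = 0 := hf.2
      rw [h3, map_sub, h4, zero_sub, map_neg]
      exact L.neg_mem (hgen e f hf)
    · rw [C.res_D_eq_zero (T := {v}) (fun w hw hi => ?_) (res_mem_supp _ _)]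
      · exact Submodule.zero_mem _
      · rw [Set.mem_singleton_iff] at hw
        subst hw
        exact (hinc e w hi).elim h2 h1
  have hrange : L ≤ cl (img C.D (C.loc N L)) := by
    refine hind _ (cls_cl _) (fun e f hf => le_cl _ ?_)
    obtain ⟨S, h1, h2, h3⟩ := T.cut e
    refine ⟨res (C.π ⁻¹' S) f, (C.split_loc N L).res_preimage (C.cls_loc hN (cls_cl _)) S
      (hKloc hf), ?_⟩
    refine (hasSum_res C.κ _).unique ?_
    convert hasSum_res C.κ (P e f) using 2 with e'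
    change res _ (C.D _) = _
    by_cases he : e' = e
    · subst he
      rw [hP, res_eq_self (res_mem_supp _ _)]
      refine hcongr _ _ _ (fun z hz => ?_)
      rcases hz with hz | hz
      · rw [res_pre_neg f (fun h => h2 (hz ▸ h)), res_fibre_neg f
          (fun h => hne e' (hz.symm.trans h))]
      · rw [res_pre_pos f (show C.π z ∈ S from hz ▸ h1), res_fibre_pos f hz]
    · rw [hP, res_fibre_ne he (res_mem_supp _ _)]
      by_cases h4 : T.o e' ∈ S
      · have h5 := (h3 e' he).1 h4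
        have h6 : C.D f = 0 := hf.2
        rw [hcongr e' _ f (fun z hz => res_pre_pos f (by
          rcases hz with hz | hz
          · exact (show C.π z ∈ S from hz ▸ h4)
          · exact (show C.π z ∈ S from hz ▸ h5))), h6, map_zero]
      · have h5 : T.t e' ∉ S := fun h => h4 ((h3 e' he).2 h)
        rw [hcongr e' _ 0 (fun z hz => res_pre_neg f (by
          rcases hz with hz | hz
          · exact fun h => h4 (hz ▸ h)
          · exact fun h => h5 (hz ▸ h))), map_zero, map_zero]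
  refine ⟨L, cls_cl _, hLi, hLs, ?_⟩
  rw [dim_rank_nullity C.free₁ C.free₂ C.eqv (C.cls_loc hN (cls_cl _)) (C.inv_loc hNi hLi)
    (edim_ne_top C.cof₁ _), ← dim_cl (img _ _)]
  exact add_le_add (dim_mono (edim_ne_top C.cof₁ _) (le_inf hKloc inf_le_right))
    (dim_mono (edim_ne_top C.cof₂ _) hrange)

/-- Integrality of the kernel of a local operator on a tree. -/
theorem ker_int (T : TreeData G V X) (hinc : ∀ e v, C.inc e v → v = T.o e ∨ v = T.t e)
    (hV : ∀ v : V, SAC (stabilizer G v))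
    (htp : ∀ x v, v = T.o x ∨ v = T.t x →
      ∃ hle : stabilizer G x ≤ stabilizer G v, TP (Subgroup.inclusion hle))
    {N : Submodule ℂ (L2 Z₁)} (hN : Cut N) (hNi : Inv G N) (hNs : Split C.π N) :
    ∃ k : ℕ, dim G (N ⊓ pre C.D ⊥) = k := by
  have hX : ∀ x : X, SAC (stabilizer G x) := fun x =>
    (hV (T.o x)).of_injective _ (Subgroup.inclusion_injective (htp x _ (Or.inl rfl)).1)
  have htp' := fun x v (h : C.inc x v) => htp x v (hinc x v h)
  obtain ⟨L, hL, hLi, hLs, hcut⟩ := C.cut_eq T hinc hN.cls hNi hNs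
  set δ := dim G (N ⊓ pre C.D ⊥) with hδ
  set d := dim G (⊤ : Submodule ℂ (L2 Z₂)) with hd
  have key : ∀ n : ℕ, 0 < n → n * δ ≤ n * (⌊δ⌋₊ : ℝ) + d := by
    intro n hn
    choose F hF using fun j : ℕ => exists_isFam C.free₂ C.cof₂ C.κ_smul hX hL hLi ((j : ℝ) / n)
    have h1 := C.loc_riemann htp' hN hNi hL hLi hLs hn F hF
    have h2 := fam_riemann C.free₂ C.cof₂ C.κ_smul hL hLi hLs hn F hF (S := Set.univ)
      (fun _ _ _ => trivial)
    simp only [Set.preimage_univ, supp_univ, inf_top_eq] at h2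
    have h3 : ∀ j, dim G (C.loc N (F j)) ≤ ⌊δ⌋₊ + dim G (F j) := by
      intro j
      obtain ⟨a, ha⟩ := C.loc_int hV (fun x v h => (htp' x v h).1) hN hNi (hF j)
      obtain ⟨b, hb⟩ := (hF j).int C.free₂ C.cof₂ C.κ_smul hX (S := Set.univ)
        (fun _ _ _ => trivial)
      simp only [Set.preimage_univ, supp_univ, inf_top_eq] at hb
      have h4 := C.cut_le hN.cls hNi (hF j).cls (hF j).inv
      rw [ha, hb] at h4 ⊢
      have h5 := Nat.lt_floor_add_one δ
      have h6 : a < ⌊δ⌋₊ + b + 1 := by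
        have : (a : ℝ) < ⌊δ⌋₊ + b + 1 := by linarith
        exact_mod_cast this
      exact_mod_cast Nat.lt_succ_iff.1 h6
    have h4 := Finset.sum_le_sum (fun j (_ : j ∈ Finset.range n) => h3 j)
    rw [Finset.sum_add_distrib, Finset.sum_const, Finset.card_range, nsmul_eq_mul] at h4
    have h5 : ∑ j ∈ Finset.range n, dim G (F j) ≤
        ∑ j ∈ Finset.range n, dim G (F (j + 1)) + d := by
      have h6 := Finset.sum_range_succ' (fun j => dim G (F j)) n
      rw [Finset.sum_range_succ] at h6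
      have h7 : dim G (F 0) ≤ d := dim_mono (edim_ne_top C.cof₂ _) le_top
      have h8 := dim_nonneg (H := G) (F n)
      linarith
    have hn' : (0 : ℝ) ≤ n := Nat.cast_nonneg n
    nlinarith
  refine ⟨⌊δ⌋₊, le_antisymm ?_ (Nat.floor_le (dim_nonneg _))⟩
  by_contra h
  push Not at h
  obtain ⟨n, hn⟩ := exists_nat_gt (d / (δ - ⌊δ⌋₊))
  have hd0 : 0 ≤ d := dim_nonneg _
  have hpos : 0 < δ - ⌊δ⌋₊ := sub_pos.2 h
  have hn0 : 0 < n := by
    have : (0 : ℝ) < n := lt_of_le_of_lt (div_nonneg hd0 hpos.le) hn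
    exact_mod_cast this
  have := key n hn0
  rw [div_lt_iff₀ hpos] at hn
  linarith

end Cx

end Pool.Agent.P.MP_0f25e6_al.HN
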