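import Pool.Agent.P.MP_0f25e6_al.HN6

/-!
The tree step: the strong Atiyah property passes from the vertex stabilisers to the group.
-/

set_option autoImplicit false

open scoped InnerProductSpace ENNReal Topology
open Filter MulAction

noncomputable section

namespace Pool.Agent.P.MP_0f25e6_al.HN

universe u

section Sol

variable {H Y W : Type*} [Group H] [MulAction H Y] [MulAction H W]

/-- Solutions of the translates of a family of equations. -/
def sol (H : Type*) {Y I : Type*} [Group H] [MulAction H Y] (a : I → L2 Y) : Submodule ℂ (L2 Y) :=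
  perp (fun p : H × I => act p.1 (a p.2))

theorem mem_sol {I : Type*} {a : I → L2 Y} {f : L2 Y} :
    f ∈ sol H a ↔ ∀ (h : H) i, ⟪act h (a i), f⟫_ℂ = 0 :=
  ⟨fun hf h i => hf (h, i), fun hf p => hf p.1 p.2⟩

theorem inv_sol {I : Type*} (a : I → L2 Y) : Inv H (sol H a) := fun g f hf =>
  mem_sol.2 (fun h i => by
    rw [← inv_inv g, ← inner_act_left, ← act_mul]
    exact mem_sol.1 hf _ i)

theorem cut_sol {I : Type*} {a : I → L2 Y} (ha : ∀ i, FinS (a i)) : Cut (sol H a) :=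
  cut_perp (fun p => finCols_pull _ _ _ (ha p.2))

theorem edim_eq_of_dim {N : Submodule ℂ (L2 Y)} (hf : edim H N ≠ ⊤) {k : ℕ} (h : dim H N = k) :
    edim H N = k := by
  rw [← ENNReal.ofReal_toReal hf]
  change ENNReal.ofReal (dim H N) = k
  rw [h, ENNReal.ofReal_natCast]

theorem tw_inj {K : Type*} (k : Y → K) : Function.Injective (fun y => (⟨y, k y⟩ : Tw Y K)) :=
  fun _ _ h => congrArg Tw.y h

/-- An operator given by finitely many components. -/
def stack {K : Type*} [Fintype K] (T : K → L2 W →L[ℂ] L2 Y) : L2 W →L[ℂ] L2 (Tw Y K) :=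
  ∑ k, push _ (tw_inj (fun _ => k)) ∘L T k

theorem stack_apply {K : Type*} [Fintype K] (T : K → L2 W →L[ℂ] L2 Y) (f : L2 W) (y : Y) (k : K) :
    stack T f ⟨y, k⟩ = T k f y := by
  rw [← inner_delta_left, stack, sum_apply, inner_sum, Finset.sum_eq_single k]
  · rw [inner_delta_left, ContinuousLinearMap.comp_apply]
    exact push_apply_self _ (tw_inj (fun _ => k)) _ y
  · intro l _ hl
    rw [inner_delta_left, ContinuousLinearMap.comp_apply]
    exact push_apply_not _ _ _ (fun w hw => hl (congrArg Tw.k hw))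
  · intro h; exact absurd (Finset.mem_univ k) h

theorem finCols_stack {K : Type*} [Fintype K] {T : K → L2 W →L[ℂ] L2 Y} (h : ∀ k, FinCols (T k)) :
    FinCols (stack T) := finCols_sum _ (fun k _ => (finCols_push _ _).comp (h k))

end Sol

section Tree

variable {G : Type u} [Group G]

theorem eqv_stack {Y W K : Type*} [MulAction G Y] [MulAction G W] [Fintype K]
    {T : K → L2 W →L[ℂ] L2 Y} (h : ∀ k, Eqv G (T k)) : Eqv G (stack T) :=
  eqv_sum _ (fun k _ => (eqv_push _ (fun _ _ => rfl)).comp (h k))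

theorem sac_of_finite (h : ∀ (Y : Type u) [MulAction G Y], Free G Y → Cofin G (Set.univ : Set Y) →
    ∀ s : Finset (L2 Y), (∀ a ∈ s, FinS a) → ∃ n : ℕ, edim G (sol G (fun a : s => a.1)) = n) :
    SAC G := by
  classical
  intro Y _ hY hc N hN hcut
  let P : ℕ → Prop := fun n => ∃ s : Finset (L2 Y),
    (∀ a ∈ s, FinS a ∧ ∀ g ∈ N, ⟪a, g⟫_ℂ = 0) ∧ edim G (sol G (fun a : s => a.1)) = n
  have hP : ∃ n, P n := by
    obtain ⟨n, hn⟩ := h Y hY hc ∅ (by simp)
    exact ⟨n, ∅, by simp, hn⟩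
  obtain ⟨s, hs, hn⟩ := Nat.find_spec hP
  refine ⟨Nat.find hP, ?_⟩
  rw [← hn]
  congr 1
  apply le_antisymm
  · intro f hf
    refine mem_sol.2 (fun g a => ?_)
    rw [inner_act_left]
    exact (hs a.1 a.2).2 _ (hN _ f hf)
  · intro f hf
    refine hcut f (fun a ha ha' => ?_)
    have hs' : ∀ b ∈ insert a s, FinS b ∧ ∀ g ∈ N, ⟪b, g⟫_ℂ = 0 := by
      intro b hb
      rcases Finset.mem_insert.1 hb with rfl | hb
      · exact ⟨ha, ha'⟩
      · exact hs b hb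
    obtain ⟨m, hm⟩ := h Y hY hc (insert a s) (fun b hb => (hs' b hb).1)
    have h1 : Nat.find hP ≤ m := Nat.find_min' hP ⟨_, hs', hm⟩
    have h2 : sol G (fun b : (insert a s : Finset (L2 Y)) => b.1) = sol G (fun b : s => b.1) := by
      refine eq_of_edim_le (H := G)
        (cut_sol (fun b : (insert a s : Finset (L2 Y)) => (hs' b.1 b.2).1)).cls
        (cut_sol (fun b : s => (hs b.1 b.2).1)).cls (inv_sol _) (inv_sol _) (fun g hg => ?_)
        (edim_ne_top hc _) ?_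
      · exact mem_sol.2 (fun k b => mem_sol.1 hg k ⟨b.1, Finset.mem_insert_of_mem b.2⟩)
      · rw [hn, hm]; exact_mod_cast h1
    rw [← h2] at hf
    have h3 := mem_sol.1 hf 1 ⟨a, Finset.mem_insert_self a s⟩
    rwa [act_one] at h3

theorem exists_cocycle {Y : Type*} [MulAction G Y] (hY : Free G Y) :
    ∃ c : Y → G, ∀ (g : G) y, c (g • y) = g * c y := by
  let e := Equiv.ofBijective _ (std_bij hY)
  refine ⟨fun y => (e.symm y).y, fun g y => ?_⟩
  have : e.symm (g • y) = g • e.symm y := by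
    rw [Equiv.symm_apply_eq]
    conv_lhs => rw [← e.apply_symm_apply y]
    exact (mul_smul g _ _).symm
  simp only [this, Tw.smul_y, smul_eq_mul]

variable {V E : Type u} [MulAction G V] [MulAction G E]

theorem exists_subtree (T : TreeData G V E) (v₀ : V) {U : Set V} (hU : U.Finite) :
    ∃ (V₀ : Set V) (E₀ : Set E), V₀.Finite ∧ E₀.Finite ∧ v₀ ∈ V₀ ∧ U ⊆ V₀ ∧
      (∀ e ∈ E₀, T.o e ∈ V₀ ∧ T.t e ∈ V₀) ∧
      ∀ φ : V → ℂ, (∀ e ∈ E₀, φ (T.t e) = φ (T.o e)) → ∀ v ∈ V₀, φ v = φ v₀ := by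
  let Good : Set V → Set E → Prop := fun V₀ E₀ => V₀.Finite ∧ E₀.Finite ∧ v₀ ∈ V₀ ∧
      (∀ e ∈ E₀, T.o e ∈ V₀ ∧ T.t e ∈ V₀) ∧
      ∀ φ : V → ℂ, (∀ e ∈ E₀, φ (T.t e) = φ (T.o e)) → ∀ v ∈ V₀, φ v = φ v₀
  have base : Good {v₀} ∅ := ⟨Set.finite_singleton _, Set.finite_empty, rfl, fun _ h => h.elim,
    fun _ _ v hv => by rw [hv]⟩
  have grow : ∀ V₀ E₀ e, Good V₀ E₀ → (T.o e ∈ V₀ ∨ T.t e ∈ V₀) →
      Good (V₀ ∪ {T.o e, T.t e}) (insert e E₀) := by
    rintro V₀ E₀ e ⟨h1, h2, h3, h4, h5⟩ he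
    refine ⟨h1.union (Set.toFinite _), h2.insert e, Or.inl h3, ?_, ?_⟩
    · rintro e' (rfl | he')
      · exact ⟨Or.inr (by simp), Or.inr (by simp)⟩
      · exact ⟨Or.inl (h4 e' he').1, Or.inl (h4 e' he').2⟩
    · intro φ hφ v hv
      have h6 := h5 φ (fun e' he' => hφ e' (Or.inr he'))
      have h7 := hφ e (Or.inl rfl)
      have h8 : φ (T.o e) = φ v₀ := he.elim (h6 _) (fun h => h7 ▸ h6 _ h)
      rcases hv with hv | rfl | rfl
      · exact h6 v hv
      · exact h8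
      · exact h7.trans h8
  have all : ∀ w, ∃ V₀ E₀, Good V₀ E₀ ∧ w ∈ V₀ := by
    refine T.conn {w | ∃ V₀ E₀, Good V₀ E₀ ∧ w ∈ V₀} (fun e => ⟨?_, ?_⟩) v₀ ⟨_, _, base, rfl⟩
    · rintro ⟨V₀, E₀, h, he⟩
      exact ⟨_, _, grow V₀ E₀ e h (Or.inl he), Or.inr (by simp)⟩
    · rintro ⟨V₀, E₀, h, he⟩
      exact ⟨_, _, grow V₀ E₀ e h (Or.inr he), Or.inr (by simp)⟩
  have fin : ∃ V₀ E₀, Good V₀ E₀ ∧ U ⊆ V₀ := by
    induction U, hU using Set.Finite.induction_on with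
    | empty => exact ⟨_, _, base, Set.empty_subset _⟩
    | @insert w U _ _ ih =>
      obtain ⟨V₀, E₀, ⟨h1, h2, h3, h4, h5⟩, hU⟩ := ih
      obtain ⟨V₁, E₁, ⟨k1, k2, k3, k4, k5⟩, hw⟩ := all w
      refine ⟨V₀ ∪ V₁, E₀ ∪ E₁, ⟨h1.union k1, h2.union k2, Or.inl h3, ?_, ?_⟩, ?_⟩
      · rintro e (he | he)
        · exact ⟨Or.inl (h4 e he).1, Or.inl (h4 e he).2⟩
        · exact ⟨Or.inr (k4 e he).1, Or.inr (k4 e he).2⟩
      · rintro φ hφ v (hv | hv)
        · exact h5 φ (fun e he => hφ e (Or.inl he)) v hv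
        · exact k5 φ (fun e he => hφ e (Or.inr he)) v hv
      · exact Set.insert_subset (Or.inr hw) (hU.trans Set.subset_union_left)
  obtain ⟨V₀, E₀, ⟨h1, h2, h3, h4, h5⟩, hU⟩ := fin
  exact ⟨V₀, E₀, h1, h2, h3, hU, h4, h5⟩

/-- Localisation of a free set over a finite subtree. The operator `J` identifies the functions
on `Y` with the kernel of the boundary operator, and `j₀` places the coordinates in `B`
over the base vertex. -/
theorem exists_cx (T : TreeData G V E) (v₀ : V) {Y : Type u} [MulAction G Y] (hY : Free G Y)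
    (hc : Cofin G (Set.univ : Set Y)) {B : Set Y} (hB : B.Finite) :
    ∃ (Z₁ Z₂ : Type u) (_ : MulAction G Z₁) (_ : MulAction G Z₂) (C : Cx G V E Z₁ Z₂)
      (J : L2 Y →L[ℂ] L2 Z₁) (j₀ : Y → Z₁) (hj : Function.Injective j₀),
      (∀ e v, C.inc e v → v = T.o e ∨ v = T.t e) ∧ Eqv G J ∧ FinCols J ∧
      (∀ f, pull j₀ hj (J f) = f) ∧ (∀ f, C.D (J f) = 0) ∧ (∀ F, C.D F = 0 → ∃ f, J f = F) ∧
      (∀ y ∈ B, C.π (j₀ y) = v₀) := by
  classical
  obtain ⟨c, hcc⟩ := exists_cocycle hY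
  obtain ⟨V₀, E₀, hV₀, hE₀, hv₀, hU, hend, hconn⟩ :=
    exists_subtree T v₀ (hB.image (fun y => (c y)⁻¹ • v₀))
  have := hV₀.fintype
  have := hE₀.fintype
  let D : L2 (Tw Y V₀) →L[ℂ] L2 (Tw Y E₀) := stack (fun ε : E₀ =>
    pull _ (tw_inj (fun _ => (⟨T.t ε, (hend ε ε.2).2⟩ : V₀))) -
      pull _ (tw_inj (fun _ => (⟨T.o ε, (hend ε ε.2).1⟩ : V₀))))
  have hD : ∀ f y (ε : E₀), D f ⟨y, ε⟩ =
      f ⟨y, ⟨T.t ε, (hend ε ε.2).2⟩⟩ - f ⟨y, ⟨T.o ε, (hend ε ε.2).1⟩⟩ :=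
    fun f y ε => stack_apply _ f y ε
  let C : Cx G V E (Tw Y V₀) (Tw Y E₀) :=
    { π := fun p => c p.y • (p.k : V)
      κ := fun p => c p.y • (p.k : E)
      inc := fun e v => v = T.o e ∨ v = T.t e
      D := D
      π_smul := fun g p => by simp only [Tw.smul_y, Tw.smul_k, hcc, mul_smul]
      κ_smul := fun g p => by simp only [Tw.smul_y, Tw.smul_k, hcc, mul_smul]
      inc_smul := fun g e v h => by
        rw [T.o_smul, T.t_smul]
        exact h.imp (congrArg _) (congrArg _)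
      inc_fin := fun e => (Set.toFinite {T.o e, T.t e}).subset (fun v hv => hv)
      free₁ := free_tw hY
      free₂ := free_tw hY
      cof₁ := cofin_tw hc
      cof₂ := cofin_tw hc
      eqv := eqv_stack (fun ε => (eqv_pull _ (fun _ _ => rfl)).sub (eqv_pull _ (fun _ _ => rfl)))
      cols := finCols_stack (fun ε => (finCols_pull _ _).sub (finCols_pull _ _))
      near := fun v f hf p hp => by
        obtain ⟨y, ε⟩ := p
        simp only [Set.mem_preimage, Set.mem_ofPred_eq, not_or, T.o_smul, T.t_smul] at hp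
        rw [hD, hf _ (fun h => hp.2 (Eq.symm h)), hf _ (fun h => hp.1 (Eq.symm h)), sub_self] }
  let J : L2 Y →L[ℂ] L2 (Tw Y V₀) := stack (fun _ : V₀ => (1 : L2 Y →L[ℂ] L2 Y))
  have hJ : ∀ f y (u : V₀), J f ⟨y, u⟩ = f y := fun f y u => stack_apply _ f y u
  let k₀ : Y → V₀ := fun y => if h : (c y)⁻¹ • v₀ ∈ V₀ then ⟨_, h⟩ else ⟨v₀, hv₀⟩
  refine ⟨Tw Y V₀, Tw Y E₀, inferInstance, inferInstance, C, J, fun y => ⟨y, k₀ y⟩, tw_inj k₀,
    fun e v h => h, eqv_stack (fun _ => eqv_one), finCols_stack (fun _ a ha => ha), fun f => ?_,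
    fun f => ?_, fun F hF => ?_, fun y hy => ?_⟩
  · ext y
    exact hJ f y _
  · ext ⟨y, ε⟩
    change D (J f) ⟨y, ε⟩ = 0
    rw [hD, hJ, hJ, sub_self]
  · refine ⟨pull _ (tw_inj (fun _ => (⟨v₀, hv₀⟩ : V₀))) F, ?_⟩
    ext ⟨y, u⟩
    rw [hJ, pull_apply]
    have h1 := hconn (fun v => if h : v ∈ V₀ then F ⟨y, ⟨v, h⟩⟩ else 0) (fun e he => by
      have h2 := hD F y ⟨e, he⟩
      have h3 : D F = 0 := hF
      rw [h3] at h2
      simp only [dif_pos (hend e he).1, dif_pos (hend e he).2]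
      exact sub_eq_zero.1 h2.symm) u u.2
    simp only [dif_pos u.2, dif_pos hv₀] at h1
    exact h1.symm
  · have h1 : (c y)⁻¹ • v₀ ∈ V₀ := hU ⟨y, hy, rfl⟩
    change c y • (k₀ y : V) = v₀
    simp only [k₀, dif_pos h1, smul_inv_smul]

theorem split_sol {Z X I : Type*} [MulAction G Z] [MulAction G X] {π : Z → X}
    (hπ : ∀ (g : G) z, π (g • z) = g • π z) {a : I → L2 Z}
    (ha : ∀ i, ∃ x, a i ∈ supp (π ⁻¹' {x})) : Split π (sol G a) := by
  intro v f hf
  refine mem_sol.2 (fun g i => ?_)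
  obtain ⟨x, hx⟩ := ha i
  have h1 : act g (a i) ∈ supp (π ⁻¹' {g • x}) := by
    rw [← res_eq_self hx, act_res_fibre hπ]
    exact res_mem_supp _ _
  rw [← inner_res_left]
  by_cases h : v = g • x
  · rw [h, res_eq_self h1]; exact mem_sol.1 hf g i
  · rw [res_fibre_ne h h1, inner_zero_left]

/-- The tree step. -/
theorem sac_of_tree (T : TreeData G V E) (hV : ∀ v : V, SAC (stabilizer G v))
    (ho : ∀ e (h : stabilizer G e ≤ stabilizer G (T.o e)), TP (Subgroup.inclusion h))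
    (ht : ∀ e (h : stabilizer G e ≤ stabilizer G (T.t e)), TP (Subgroup.inclusion h)) :
    SAC G := by
  refine sac_of_finite (fun Y _ hY hc s hs => ?_)
  obtain ⟨v₀⟩ := T.ne
  obtain ⟨Z₁, Z₂, _, _, C, J, j₀, hj, hinc, hJ, -, hJ1, hJ2, hJ3, hj₀⟩ := exists_cx T v₀ hY hc
    (B := ⋃ a ∈ s, {y | a y ≠ 0}) (s.finite_toSet.biUnion hs)
  let b : s → L2 Z₁ := fun a => push j₀ hj a.1
  have hb : ∀ (g : G) (a : s) f, ⟪act g (b a), J f⟫_ℂ = ⟪act g a.1, f⟫_ℂ := by
    intro g a f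
    rw [inner_act_left, inner_act_left, ← hJ, inner_push_left, hJ1]
  obtain ⟨k, hk⟩ := C.ker_int T hinc hV (N := sol G b) (by
      rintro e v (rfl | rfl)
      · have h : stabilizer G e ≤ stabilizer G (T.o e) := fun g hg => by
          rw [mem_stabilizer_iff, ← T.o_smul, mem_stabilizer_iff.1 hg]
        exact ⟨h, ho e h⟩
      · have h : stabilizer G e ≤ stabilizer G (T.t e) := fun g hg => by
          rw [mem_stabilizer_iff, ← T.t_smul, mem_stabilizer_iff.1 hg]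
        exact ⟨h, ht e h⟩)
    (cut_sol (fun a => finCols_push _ _ _ (hs a.1 a.2))) (inv_sol _)
    (split_sol C.π_smul (fun a => ⟨v₀, fun z hz => by
      by_cases h : ∃ y, j₀ y = z
      · obtain ⟨y, rfl⟩ := h
        rw [push_apply_self]
        by_contra h0
        exact hz (hj₀ y (Set.mem_biUnion a.2 h0))
      · push Not at h
        exact push_apply_not _ _ _ h⟩))
  refine ⟨k, ?_⟩
  have h1 : sol G (fun a : s => a.1) ⊓ pre J ⊥ = ⊥ := by
    refine eq_bot_iff.2 (fun f hf => ?_)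
    have h2 : J f = 0 := hf.2
    rw [Submodule.mem_bot, ← hJ1 f, h2, map_zero]
  have h2 : img J (sol G (fun a : s => a.1)) = sol G b ⊓ pre C.D ⊥ := by
    apply le_antisymm
    · rintro _ ⟨f, hf, rfl⟩
      exact ⟨mem_sol.2 (fun g a => (hb g a f).trans (mem_sol.1 hf g a)), hJ2 f⟩
    · rintro F ⟨hF, hF0⟩
      obtain ⟨f, rfl⟩ := hJ3 F hF0
      exact ⟨f, mem_sol.2 (fun g a => (hb g a f).symm.trans (mem_sol.1 hF g a)), rfl⟩
  rw [rank_nullity hY C.free₁ hJ (cut_sol (fun a : s => hs a.1 a.2)).cls (inv_sol _), h1,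
    edim_bot, zero_add, h2]
  exact edim_eq_of_dim (edim_ne_top C.cof₁ _) hk

end Tree

end Pool.Agent.P.MP_0f25e6_al.HN
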