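import Pool.Agent.P.MP_0f25e6_al.Flux

/-!
Groups acting on trees with trivial edge stabilisers.
-/

set_option autoImplicit false

noncomputable section

namespace Pool.Agent.P.MP_0f25e6_al

open SimpleGraph

section Graph

variable {V : Type*} {T : SimpleGraph V}

/-- `side` separates `w` from `u` and is constant along every edge other than `s(u, w)`. -/
def IsCut (T : SimpleGraph V) (u w : V) (side : V → Prop) : Prop :=
  side w ∧ ¬ side u ∧ ∀ x y, T.Adj x y → s(x, y) ≠ s(u, w) → (side x ↔ side y)

theorem IsCut.symm {u w : V} {side : V → Prop} (h : IsCut T u w side) :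
    IsCut T w u (fun x => ¬ side x) :=
  ⟨h.2.1, not_not.2 h.1, fun x y hxy hne =>
    not_congr (h.2.2 x y hxy (by rwa [Sym2.eq_swap (a := u)]))⟩

/-- Every edge is a cut. -/
def HasCuts (T : SimpleGraph V) : Prop := ∀ u w, T.Adj u w → ∃ side, IsCut T u w side

theorem hasCuts_of_isAcyclic (h : T.IsAcyclic) : HasCuts T := by
  intro u w huw
  refine ⟨fun x => (T.deleteEdges {s(u, w)}).Reachable x w, Reachable.refl _, ?_, ?_⟩
  · exact isBridge_iff.1 (isAcyclic_iff_forall_adj_isBridge.1 h huw)
  · intro x y hxy hne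
    have : (T.deleteEdges {s(u, w)}).Adj x y := by
      rw [deleteEdges_adj]
      exact ⟨hxy, by simpa using hne⟩
    exact ⟨fun hx => this.symm.reachable.trans hx, fun hy => this.reachable.trans hy⟩

/-- There is a walk of length at most `n`. -/
def Near (T : SimpleGraph V) (n : ℕ) (a b : V) : Prop := ∃ p : T.Walk a b, p.length ≤ n

theorem IsCut.split {u w : V} {side : V → Prop} (h : IsCut T u w side) {a b : V}
    (p : T.Walk a b) (ha : side a) (hb : ¬ side b) :
    ∃ (p₁ : T.Walk a w) (p₂ : T.Walk u b), p₁.length + 1 + p₂.length ≤ p.length ∧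
      u ∈ p.support ∧ w ∈ p.support := by
  induction p with
  | nil => exact absurd ha hb
  | @cons a a' b haa' p ih =>
    by_cases ha' : side a'
    · obtain ⟨p₁, p₂, hl, hu, hw⟩ := ih ha' hb
      refine ⟨Walk.cons haa' p₁, p₂, ?_, by simp [hu], by simp [hw]⟩
      simp only [Walk.length_cons]
      omega
    · have he : s(a, a') = s(u, w) := by
        by_contra hne
        exact ha' ((h.2.2 a a' haa' hne).1 ha)
      rcases Sym2.eq_iff.1 he with ⟨h1, -⟩ | ⟨h1, h2⟩
      · exact absurd (h1 ▸ ha) h.2.1
      · subst h1 h2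
        exact ⟨Walk.nil, p, by simp [add_comm], by simp, by simp⟩

theorem IsCut.const {u w : V} {side : V → Prop} (h : IsCut T u w side) {a b : V}
    (p : T.Walk a b) (hw : w ∉ p.support) : side a ↔ side b := by
  by_contra hne
  by_cases ha : side a
  · obtain ⟨-, -, -, -, h1⟩ := h.split p ha (fun hb => hne ⟨fun _ => hb, fun _ => ha⟩)
    exact hw h1
  · have hb : side b := by
      by_contra hb
      exact hne ⟨fun h => absurd h ha, fun h => absurd h hb⟩
    obtain ⟨-, -, -, -, h1⟩ := h.split p.reverse hb ha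
    exact hw (by simpa using h1)

theorem exists_cut (hT : HasCuts T) {a b : V} (hab : T.Reachable a b) (hne : a ≠ b) :
    ∃ u w side, T.Adj u w ∧ IsCut T u w side ∧ side a ∧ ¬ side b := by
  classical
  obtain ⟨p₀⟩ := hab
  obtain ⟨p, hp⟩ := p₀.toPath
  cases p with
  | nil => exact absurd rfl hne
  | @cons _ u _ hau p =>
    obtain ⟨side, hside⟩ := hT u a hau.symm
    refine ⟨u, a, side, hau.symm, hside, hside.1, fun hb => hside.2.1 ?_⟩
    exact (hside.const p ((Walk.cons_isPath_iff _ _).1 hp).2).2 hb

end Graph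

section Action

variable {G V : Type*} [Group G] [MulAction G V] {T : SimpleGraph V}

theorem walk_smul (hadj : ∀ (g : G) (u v : V), T.Adj u v → T.Adj (g • u) (g • v)) (g : G)
    {a b a' b' : V} (p : T.Walk a b) (ha : g • a = a') (hb : g • b = b') :
    ∃ q : T.Walk a' b', q.length = p.length ∧ ∀ v ∈ q.support, g⁻¹ • v ∈ p.support := by
  subst ha hb
  let f : T →g T := ⟨fun v => g • v, fun {u v} h => hadj g u v h⟩
  refine ⟨p.map f, by simp, fun v hv => ?_⟩
  rw [Walk.support_map, List.mem_map] at hv
  obtain ⟨x, hx, rfl⟩ := hv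
  simpa [f] using hx

theorem tree_inj (hcut : HasCuts T)
    (hadj : ∀ (g : G) (u v : V), T.Adj u v → T.Adj (g • u) (g • v))
    (hfree : ∀ (g : G) (u w : V), T.Adj u w → g • u = u → g • w = w → g = 1)
    (hbip : ∀ (g : G) (u : V), ¬ T.Adj u (g • u))
    (hstab : ∀ (v : V) (α : G →₀ ℂ), α ≠ 0 →
      (∀ s ∈ α.support, ∀ t ∈ α.support, s • v = t • v) → Inj α) (n : ℕ) :
    ∀ (o₁ o₂ : V) (α : G →₀ ℂ), α ≠ 0 → (∀ s ∈ α.support, Near T n o₁ (s • o₂)) → Inj α := by
  induction n with
  | zero =>
    intro o₁ o₂ α hα hs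
    have key : ∀ s ∈ α.support, o₁ = s • o₂ := by
      intro s hs'
      obtain ⟨p, hp⟩ := hs s hs'
      exact Walk.eq_of_length_eq_zero (Nat.le_zero.1 hp)
    exact hstab o₂ α hα (fun s hs' t ht => (key s hs').symm.trans (key t ht))
  | succ n ih =>
    intro o₁ o₂ α hα hs
    by_contra hninj
    -- nothing crosses a cut whose near endpoint is outside the orbit of `o₁`
    have main : ∀ (u w : V) (side : V → Prop), T.Adj u w → IsCut T u w side →
        (∀ g : G, g • o₁ ≠ u) → ∀ s ∈ α.support, ∀ x : G,
          (side (x⁻¹ • o₂) ↔ side ((s * x)⁻¹ • o₁)) := by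
      intro u w side huw hside horb
      have info : ∀ s ∈ α.support, ∀ x : G, ¬ (side (x⁻¹ • o₂) ↔ side ((s * x)⁻¹ • o₁)) →
          Near T n u (x⁻¹ • o₂) ∧ (side (x⁻¹ • o₂) → Near T n o₁ ((s * x) • u)) ∧
            (¬ side (x⁻¹ • o₂) → Near T n o₁ ((s * x) • w)) := by
        intro s hs' x hx
        obtain ⟨p, hp⟩ := hs s hs'
        obtain ⟨q, hq, -⟩ := walk_smul hadj (s * x)⁻¹ p rfl
          (show (s * x)⁻¹ • s • o₂ = x⁻¹ • o₂ by rw [smul_smul]; congr 1; group)
        by_cases hb : side (x⁻¹ • o₂)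
        · have ha : ¬ side ((s * x)⁻¹ • o₁) := fun ha => hx ⟨fun _ => ha, fun _ => hb⟩
          obtain ⟨p₁, p₂, hl, -, -⟩ := hside.split q.reverse hb ha
          rw [Walk.length_reverse] at hl
          have hl2 : p₂.length ≠ 0 := fun h0 =>
            horb (s * x)⁻¹ (Walk.eq_of_length_eq_zero h0).symm
          refine ⟨⟨Walk.cons huw p₁.reverse, ?_⟩, fun _ => ?_, fun h => absurd hb h⟩
          · simp only [Walk.length_cons, Walk.length_reverse]
            omega
          · obtain ⟨r, hr, -⟩ := walk_smul hadj (s * x) p₂.reverse (smul_inv_smul _ _) rfl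
            refine ⟨r, ?_⟩
            rw [hr, Walk.length_reverse]
            omega
        · have ha : side ((s * x)⁻¹ • o₁) := by
            by_contra ha
            exact hx ⟨fun h => absurd h hb, fun h => absurd h ha⟩
          obtain ⟨p₁, p₂, hl, -, -⟩ := hside.split q ha hb
          refine ⟨⟨p₂, by omega⟩, fun h => absurd h hb, fun _ => ?_⟩
          obtain ⟨r, hr, -⟩ := walk_smul hadj (s * x) p₁ (smul_inv_smul _ _) rfl
          exact ⟨r, by omega⟩
      refine flux_step α hninj {y | side (y⁻¹ • o₁)} {x | side (x⁻¹ • o₂)} ?_ ?_ ?_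
      · have hsub : {x : G | ∃ s ∈ α.support,
            ¬ (x ∈ {x : G | side (x⁻¹ • o₂)} ↔ s * x ∈ {y : G | side (y⁻¹ • o₁)})} ⊆
            ⋃ s ∈ α.support, {x : G | ¬ (side (x⁻¹ • o₂) ↔ side ((s * x)⁻¹ • o₁))} := by
          rintro x ⟨s, hs', hx⟩
          exact Set.mem_biUnion hs' hx
        refine Set.Finite.subset (Set.Finite.biUnion α.support.finite_toSet ?_) hsub
        intro s hs'
        obtain ⟨p, -⟩ := hs s hs'
        refine Set.Finite.of_finite_image (f := fun x : G => ((s * x) • u, (s * x) • w)) ?_ ?_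
        · refine ((p.support.finite_toSet).prod (p.support.finite_toSet)).subset ?_
          rintro _ ⟨x, hx, rfl⟩
          obtain ⟨q, -, hq⟩ := walk_smul hadj (s * x)⁻¹ p rfl
            (show (s * x)⁻¹ • s • o₂ = x⁻¹ • o₂ by rw [smul_smul]; congr 1; group)
          have huw' : u ∈ q.support ∧ w ∈ q.support := by
            by_cases hb : side (x⁻¹ • o₂)
            · have ha : ¬ side ((s * x)⁻¹ • o₁) := fun ha => hx ⟨fun _ => ha, fun _ => hb⟩
              obtain ⟨-, -, -, h1, h2⟩ := hside.split q.reverse hb ha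
              exact ⟨by simpa using h1, by simpa using h2⟩
            · have ha : side ((s * x)⁻¹ • o₁) := by
                by_contra ha
                exact hx ⟨fun h => absurd h hb, fun h => absurd h ha⟩
              obtain ⟨-, -, -, h1, h2⟩ := hside.split q ha hb
              exact ⟨h1, h2⟩
          have h1 := hq u huw'.1
          have h2 := hq w huw'.2
          rw [inv_inv] at h1 h2
          exact ⟨h1, h2⟩
        · intro x _ x' _ hxx'
          simp only [Prod.mk.injEq] at hxx'
          have h1 := hfree ((s * x')⁻¹ * (s * x)) u w huw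
            (by rw [mul_smul, hxx'.1, inv_smul_smul]) (by rw [mul_smul, hxx'.2, inv_smul_smul])
          rw [inv_mul_eq_one] at h1
          exact (mul_left_cancel h1).symm
      · intro β hβ hsupp
        refine ih u o₂ β hβ (fun z hz => ?_)
        obtain ⟨s, hs', hx⟩ := hsupp z hz
        simpa using (info s hs' z⁻¹ hx).1
      · intro x γ hγ hsupp
        by_cases hb : side (x⁻¹ • o₂)
        · refine ih o₁ u γ hγ (fun y hy => ?_)
          obtain ⟨h1, h2⟩ := hsupp y hy
          have := (info (y * x⁻¹) h1 x (by simpa using h2)).2.1 hb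
          simpa using this
        · refine ih o₁ w γ hγ (fun y hy => ?_)
          obtain ⟨h1, h2⟩ := hsupp y hy
          have := (info (y * x⁻¹) h1 x (by simpa using h2)).2.2 hb
          simpa using this
    have key : ∀ s ∈ α.support, o₂ = s⁻¹ • o₁ := by
      intro s hs'
      by_contra hne
      obtain ⟨p, -⟩ := hs s hs'
      obtain ⟨q, -, -⟩ := walk_smul hadj s⁻¹ p rfl (inv_smul_smul s o₂)
      obtain ⟨u, w, side, huw, hside, h1, h2⟩ := exists_cut hcut ⟨q.reverse⟩ hne
      by_cases hu : ∀ g : G, g • o₁ ≠ u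
      · have := main u w side huw hside hu s hs' 1
        simp only [inv_one, one_smul, mul_one] at this
        exact h2 (this.1 h1)
      · have hw : ∀ g : G, g • o₁ ≠ w := by
          push Not at hu
          obtain ⟨g, rfl⟩ := hu
          rintro g' rfl
          apply hbip (g' * g⁻¹) (g • o₁)
          rwa [mul_smul, inv_smul_smul]
        have := main w u _ huw.symm hside.symm hw s hs' 1
        simp only [inv_one, one_smul, mul_one] at this
        exact this.2 h2 h1
    refine hninj (hstab o₂ α hα (fun s hs' t ht => ?_))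
    have e1 : s • o₂ = o₁ := by rw [key s hs', smul_inv_smul]
    have e2 : t • o₂ = o₁ := by rw [key t ht, smul_inv_smul]
    rw [e1, e2]

end Action

section Subdivision

variable {V : Type*} (T : SimpleGraph V)

/-- The barycentric subdivision of a graph. -/
def subdiv : SimpleGraph (V ⊕ T.edgeSet) where
  Adj
    | Sum.inl v, Sum.inr e => v ∈ e.1
    | Sum.inr e, Sum.inl v => v ∈ e.1
    | _, _ => False
  symm := ⟨by rintro (a | a) (b | b) h <;> exact h⟩
  loopless := ⟨by rintro (a | a) h <;> exact h⟩

variable {T}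

theorem subdiv_hasCuts (h : HasCuts T) : HasCuts (subdiv T) := by
  have key : ∀ (v : V) (e : T.edgeSet), v ∈ e.1 →
      ∃ side, IsCut (subdiv T) (Sum.inl v) (Sum.inr e) side := by
    rintro v ⟨e, he⟩ hv
    obtain ⟨v', rfl⟩ := Sym2.mem_iff_exists.1 hv
    obtain ⟨side, hside⟩ := h v v' he
    let side' : V ⊕ T.edgeSet → Prop := fun z =>
      match z with
      | Sum.inl x => side x
      | Sum.inr f => f.1 = s(v, v') ∨ ∀ x ∈ f.1, side x
    have aux : ∀ (x : V) (f : T.edgeSet), x ∈ f.1 →
        s(Sum.inl x, Sum.inr f) ≠ s(Sum.inl v, (Sum.inr ⟨s(v, v'), he⟩ : V ⊕ T.edgeSet)) →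
        (side' (Sum.inl x) ↔ side' (Sum.inr f)) := by
      rintro x ⟨f, hf⟩ hx hne
      by_cases hfe : f = s(v, v')
      · subst hfe
        have hxv : x ≠ v := by
          rintro rfl
          exact hne rfl
        have hxv' : x = v' := (Sym2.mem_iff.1 hx).resolve_left hxv
        subst hxv'
        exact ⟨fun _ => Or.inl rfl, fun _ => hside.1⟩
      · obtain ⟨x', rfl⟩ := Sym2.mem_iff_exists.1 hx
        have hiff := hside.2.2 x x' hf hfe
        refine ⟨fun h1 => Or.inr (fun y hy => ?_), fun h1 => ?_⟩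
        · rcases Sym2.mem_iff.1 hy with rfl | rfl
          · exact h1
          · exact hiff.1 h1
        · exact (h1.resolve_left hfe) x (Sym2.mem_mk_left _ _)
    refine ⟨side', Or.inl rfl, hside.2.1, ?_⟩
    rintro (a | a) (b | b) hab hne
    · exact hab.elim
    · exact aux a b hab hne
    · exact (aux b a hab (by rwa [Sym2.eq_swap])).symm
    · exact hab.elim
  rintro (a | a) (b | b) hab
  · exact hab.elim
  · exact key a b hab
  · obtain ⟨side, hside⟩ := key b a hab
    exact ⟨_, hside.symm⟩
  · exact hab.elim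

theorem subdiv_reachable {a b : V} (h : T.Reachable a b) :
    (subdiv T).Reachable (Sum.inl a) (Sum.inl b) := by
  obtain ⟨p⟩ := h
  induction p with
  | nil => exact Reachable.refl _
  | @cons a a' b haa' p ih =>
    have h1 : (subdiv T).Adj (Sum.inl a) (Sum.inr ⟨s(a, a'), haa'⟩) := Sym2.mem_mk_left _ _
    have h2 : (subdiv T).Adj (Sum.inr ⟨s(a, a'), haa'⟩) (Sum.inl a') := Sym2.mem_mk_right _ _
    exact h1.reachable.trans (h2.reachable.trans ih)

end Subdivision

section Main

variable {G V : Type*} [Group G] [MulAction G V] {T : SimpleGraph V}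

/-- The action on edges. -/
@[reducible] def edgeAction (hadj : ∀ (g : G) (u v : V), T.Adj u v → T.Adj (g • u) (g • v)) :
    MulAction G T.edgeSet where
  smul g e := ⟨e.1.map (fun v => g • v), by
    obtain ⟨e, he⟩ := e
    induction e using Sym2.ind with
    | _ a b => exact hadj g a b he⟩
  one_smul e := by
    apply Subtype.ext
    change e.1.map (fun v => (1 : G) • v) = e.1
    simp
  mul_smul g h e := by
    apply Subtype.ext
    change e.1.map (fun v => (g * h) • v) = (e.1.map (fun v => h • v)).map (fun v => g • v)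
    rw [Sym2.map_map]
    congr 1
    funext v
    simp [mul_smul]

/-- A group acting on a tree, freely on unoriented edges: injectivity of all convolutions follows
from injectivity of those supported in a coset of a vertex stabiliser. -/
theorem tree_inj' (hT : T.IsTree)
    (hadj : ∀ (g : G) (u v : V), T.Adj u v → T.Adj (g • u) (g • v))
    (hfree : ∀ (g : G) (u w : V), T.Adj u w → s(g • u, g • w) = s(u, w) → g = 1)
    (hstab : ∀ (v : V) (α : G →₀ ℂ), α ≠ 0 →
      (∀ s ∈ α.support, ∀ t ∈ α.support, s • v = t • v) → Inj α)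
    (α : G →₀ ℂ) (hα : α ≠ 0) : Inj α := by
  classical
  let _ := edgeAction hadj
  have hval : ∀ (g : G) (e : T.edgeSet), (g • e).1 = e.1.map (fun v => g • v) := fun _ _ => rfl
  have hfree' : ∀ (g : G) (e : T.edgeSet), g • e = e → g = 1 := by
    rintro g ⟨e, he⟩ hge
    induction e using Sym2.ind with
    | _ a b => exact hfree g a b he (congrArg Subtype.val hge)
  obtain ⟨o⟩ := hT.connected.nonempty
  have hw : ∀ s : G, ∃ n, Near (subdiv T) n (Sum.inl o) (s • Sum.inl o) := by
    intro s
    obtain ⟨p⟩ := subdiv_reachable (hT.connected.preconnected o (s • o))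
    exact ⟨p.length, p, le_rfl⟩
  choose len hlen using hw
  refine tree_inj (subdiv_hasCuts (hasCuts_of_isAcyclic hT.isAcyclic)) ?_ ?_ ?_ ?_
    (α.support.sup len) (Sum.inl o) (Sum.inl o) α hα ?_
  · rintro g (a | a) (b | b) hab
    · exact hab.elim
    · change g • a ∈ (g • b).1
      rw [hval]
      exact Sym2.mem_map.2 ⟨a, hab, rfl⟩
    · change g • b ∈ (g • a).1
      rw [hval]
      exact Sym2.mem_map.2 ⟨b, hab, rfl⟩
    · exact hab.elim
  · rintro g (a | a) (b | b) hab h1 h2
    · exact hab.elim
    · exact hfree' g b (Sum.inr_injective h2)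
    · exact hfree' g a (Sum.inr_injective h1)
    · exact hab.elim
  · rintro g (a | a) h <;> exact h
  · rintro (v | e) β hβ hs
    · exact hstab v β hβ (fun s hs' t ht => Sum.inl_injective (hs s hs' t ht))
    · refine inj_of_subsingleton_support β hβ (fun s hs' t ht => ?_)
      have h1 : s • e = t • e := Sum.inr_injective (hs s hs' t ht)
      have h2 := hfree' (t⁻¹ * s) e (by rw [mul_smul, h1, inv_smul_smul])
      exact (inv_mul_eq_one.1 h2).symm
  · intro s hs
    obtain ⟨p, hp⟩ := hlen s
    exact ⟨p, hp.trans (Finset.le_sup hs)⟩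

end Main

end Pool.Agent.P.MP_0f25e6_al
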