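import Pool.Agent.P.MP_0f25e6_al.HN7
import Pool.Agent.P.MP_0f25e6_al.Tree

/-!
Matrix form of the strong Atiyah property, simplicial trees and products of trees.
-/

set_option autoImplicit false

open scoped InnerProductSpace ENNReal Topology
open Filter MulAction

noncomputable section

namespace Pool.Agent.P.MP_0f25e6_al.HN

universe u

section Basic

variable {H : Type u} [Group H]

theorem edim_top_int {Y : Type*} [MulAction H Y] (hc : Cofin H (Set.univ : Set Y)) :
    ∃ n : ℕ, edim H (⊤ : Submodule ℂ (L2 Y)) = n := by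
  have := finite_quot hc
  refine ⟨Nat.card (orbitRel.Quotient H Y), ?_⟩
  simp only [edim, osum, tau_top]
  rw [ENNReal.tsum_const, ENat.card_eq_coe_natCard]
  simp

theorem edim_img_of_inj {Y Z : Type*} [MulAction H Y] [MulAction H Z] (hY : Free H Y)
    (hZ : Free H Z) {T : L2 Y →L[ℂ] L2 Z} (hT : Eqv H T) (hinj : ∀ f, T f = 0 → f = 0)
    {N : Submodule ℂ (L2 Y)} (hc : Cls N) (hi : Inv H N) : edim H (img T N) = edim H N := by
  have h1 : N ⊓ pre T ⊥ = ⊥ := eq_bot_iff.2 (fun f hf => hinj f hf.2)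
  rw [rank_nullity hY hZ hT hc hi, h1, edim_bot, zero_add]

theorem sac_of_subsingleton [Subsingleton H] : SAC H := by
  classical
  intro Y _ hY hc N hN hcut
  have hfin : Finite Y := by
    obtain ⟨F, hF, h⟩ := hc
    refine Set.finite_univ_iff.1 (hF.subset (fun y _ => ?_))
    obtain ⟨g, hg⟩ := h y trivial
    rwa [Subsingleton.elim g 1, one_smul] at hg
  let ev : L2 Y →ₗ[ℂ] (Y → ℂ) :=
    { toFun := fun f y => f y, map_add' := fun _ _ => rfl, map_smul' := fun _ _ => rfl }
  have : FiniteDimensional ℂ (L2 Y) :=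
    FiniteDimensional.of_injective ev (fun f g h => lp.ext h)
  let b := Module.finBasis ℂ N
  obtain ⟨T, hT, -, hTd⟩ := exists_op (K := Fin (Module.finrank ℂ N)) hY (fun k => (b k : L2 Y))
    (fun k => Set.toFinite _)
  have hsum : ∀ f, T f = ∑ k, f ⟨1, k⟩ • (b k : L2 Y) := by
    intro f
    have h1 : f = ∑ k, f ⟨1, k⟩ • delta ⟨1, k⟩ := by
      ext ⟨a, l⟩
      rw [Subsingleton.elim a 1, ← inner_delta_left _ (∑ k, _), inner_sum, Finset.sum_eq_single l]
      · rw [inner_smul_right, inner_delta_left, delta_self, mul_one]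
      · intro k _ hk
        rw [inner_smul_right, inner_delta_left, delta_ne (fun h => hk (congrArg Tw.k h).symm),
          mul_zero]
      · intro h; exact absurd (Finset.mem_univ l) h
    conv_lhs => rw [h1]
    rw [map_sum]
    exact Finset.sum_congr rfl (fun k _ => by rw [map_smul, hTd, act_one])
  have h1 : img T ⊤ = N := by
    apply le_antisymm
    · rintro _ ⟨f, -, rfl⟩
      change T f ∈ N
      rw [hsum]
      exact N.sum_mem (fun k _ => N.smul_mem _ (b k).2)
    · intro f hf
      refine ⟨∑ k, b.repr ⟨f, hf⟩ k • delta ⟨1, k⟩, trivial, ?_⟩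
      change T _ = f
      rw [map_sum]
      have h2 := congrArg Subtype.val (b.sum_repr ⟨f, hf⟩)
      rw [AddSubmonoidClass.coe_finsetSum] at h2
      refine Eq.trans (Finset.sum_congr rfl (fun k _ => ?_)) h2
      rw [map_smul, hTd, act_one]
      rfl
  rw [← h1, edim_img_of_inj (free_tw free_self) hY hT ?_ cls_top inv_top]
  · exact edim_top_int (cofin_tw cofin_self)
  · intro f hf
    rw [hsum] at hf
    have h2 : ∑ k, f ⟨1, k⟩ • b k = 0 := by
      apply Subtype.ext
      rw [AddSubmonoidClass.coe_finsetSum]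
      exact hf
    have h3 := Fintype.linearIndependent_iff.1 b.linearIndependent _ h2
    ext ⟨a, l⟩
    rw [Subsingleton.elim a 1, h3 l]
    rfl

/-- The action commuting with left convolutions. -/
@[reducible] def rtAction (H : Type u) [Group H] (n : ℕ) : MulAction H (H × Fin n) where
  smul c p := (p.1 * c⁻¹, p.2)
  one_smul p := by
    change (p.1 * 1⁻¹, p.2) = p
    simp
  mul_smul a b p := by
    change (p.1 * (a * b)⁻¹, p.2) = (p.1 * b⁻¹ * a⁻¹, p.2)
    simp [mul_assoc]

/-- The strong Atiyah property in terms of matrices over the group ring. -/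
def MatSAC (H : Type u) [Group H] : Prop :=
  ∀ (m n : ℕ) (A : Fin m → Fin n → H →₀ ℂ) (W : Submodule ℂ (L2 (H × Fin n))),
    (∀ f, f ∈ W ↔ ∀ (g : H) i, ∑ j, ∑ k ∈ (A i j).support, A i j k * f (k⁻¹ * g, j) = 0) →
    ∃ d : ℕ, ∑ j, ‖proj W (delta (1, j))‖ ^ 2 = d

section Rt

attribute [local instance] rtAction

theorem rt_smul {n : ℕ} (c : H) (p : H × Fin n) : c • p = (p.1 * c⁻¹, p.2) := rfl

theorem free_rt (n : ℕ) : Free H (H × Fin n) := fun h p hp => by
  have := congrArg Prod.fst hp
  simpa [rt_smul] using this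

theorem cofin_rt (n : ℕ) : Cofin H (Set.univ : Set (H × Fin n)) :=
  ⟨Set.range (fun j => (1, j)), Set.finite_range _, fun p _ => ⟨p.1, p.2, by simp [rt_smul]⟩⟩

theorem edim_rt {n : ℕ} {W : Submodule ℂ (L2 (H × Fin n))} (hW : Inv H W) :
    edim H W = ENNReal.ofReal (∑ j, ‖proj W (delta (1, j))‖ ^ 2) := by
  have hb : Function.Bijective
      (fun j : Fin n => Quotient.mk (orbitRel H (H × Fin n)) (1, j)) := by
    constructor
    · intro i j h
      obtain ⟨c, hc⟩ : (orbitRel H (H × Fin n)) (1, i) (1, j) := Quotient.exact h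
      exact (congrArg Prod.snd hc).symm
    · intro q
      refine ⟨q.out.2, ?_⟩
      conv_rhs => rw [← Quotient.out_eq q, ← mk_smul q.out.1]
      simp [rt_smul]
  rw [edim, osum, ← (Equiv.ofBijective _ hb).tsum_eq, tsum_fintype,
    ENNReal.ofReal_sum_of_nonneg (fun _ _ => by positivity)]
  refine Finset.sum_congr rfl (fun j _ => ?_)
  rw [Equiv.ofBijective_apply, inv_out (tau_smul hW), tau, ← ofReal_norm,
    ENNReal.ofReal_pow (norm_nonneg _)]

theorem mem_sol_iff {m n : ℕ} (A : Fin m → Fin n → H →₀ ℂ) (a : Fin m → L2 (H × Fin n))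
    (h : ∀ i, a i = ∑ j, ∑ k ∈ (A i j).support, starRingEnd ℂ (A i j k) • delta (k⁻¹, j))
    (f : L2 (H × Fin n)) : f ∈ sol H a ↔
      ∀ (g : H) i, ∑ j, ∑ k ∈ (A i j).support, A i j k * f (k⁻¹ * g, j) = 0 := by
  have key : ∀ (g : H) i, ⟪act g⁻¹ (a i), f⟫_ℂ =
      ∑ j, ∑ k ∈ (A i j).support, A i j k * f (k⁻¹ * g, j) := by
    intro g i
    rw [h, map_sum, sum_inner]
    refine Finset.sum_congr rfl (fun j _ => ?_)
    rw [map_sum, sum_inner]
    refine Finset.sum_congr rfl (fun k _ => ?_)
    rw [map_smul, inner_smul_left, act_delta, inner_delta_left, rt_smul]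
    simp
  rw [mem_sol]
  exact ⟨fun hf g i => (key g i).symm.trans (hf _ i),
    fun hf g i => by rw [← inv_inv g, key, hf]⟩

theorem exists_matKer {m n : ℕ} (A : Fin m → Fin n → H →₀ ℂ) :
    ∃ W : Submodule ℂ (L2 (H × Fin n)), Cls W ∧
      ∀ f, f ∈ W ↔ ∀ (g : H) i, ∑ j, ∑ k ∈ (A i j).support, A i j k * f (k⁻¹ * g, j) = 0 :=
  ⟨sol H (fun i => ∑ j, ∑ k ∈ (A i j).support, starRingEnd ℂ (A i j k) • delta (k⁻¹, j)),
    (cut_sol (fun _ => finS_sum _ (fun _ _ => finS_sum _ (fun _ _ => (finS_delta _).smul _)))).cls,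
    mem_sol_iff A _ (fun _ => rfl)⟩

theorem SAC.mat (hH : SAC H) : MatSAC H := by
  intro m n A W hW
  let a : Fin m → L2 (H × Fin n) := fun i =>
    ∑ j, ∑ k ∈ (A i j).support, starRingEnd ℂ (A i j k) • delta (k⁻¹, j)
  have h1 : W = sol H a := by
    ext f
    rw [hW, mem_sol_iff A a (fun _ => rfl)]
  obtain ⟨d, hd⟩ := hH _ (free_rt n) (cofin_rt n) _ (inv_sol a) (cut_sol (fun i =>
    finS_sum _ (fun j _ => finS_sum _ (fun k _ => (finS_delta _).smul _))))
  rw [edim_rt (inv_sol a), ← h1] at hd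
  refine ⟨d, ?_⟩
  have h2 := congrArg ENNReal.toReal hd
  rwa [ENNReal.toReal_ofReal (Finset.sum_nonneg (fun _ _ => by positivity)),
    ENNReal.toReal_natCast] at h2

theorem MatSAC.sac (hH : MatSAC H) : SAC H := by
  classical
  refine sac_of_finite (fun Y _ hY hc s hs => ?_)
  have := finite_quot hc
  obtain ⟨n, ⟨ε⟩⟩ := Finite.exists_equiv_fin (orbitRel.Quotient H Y)
  obtain ⟨m, ⟨η⟩⟩ := Finite.exists_equiv_fin s
  let j : H × Fin n → Y := fun p => p.1⁻¹ • (ε.symm p.2).out
  have hj : Function.Bijective j :=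
    (orbit_bij hY).comp ((Equiv.prodComm _ _).trans (ε.symm.prodCongr (Equiv.inv H))).bijective
  have hje : ∀ (c : H) p, j (c • p) = c • j p := fun c p => by
    simp only [j, rt_smul, mul_inv_rev, inv_inv, mul_smul]
  have hpp : ∀ f, push j hj.1 (pull j hj.1 f) = f := fun f => by
    rw [push_pull, hj.2.range_eq]
    exact res_eq_self (by rw [supp_univ]; trivial)
  let a : Fin m → L2 (H × Fin n) := fun i => pull j hj.1 (η.symm i).1
  have ha : ∀ i, FinS (a i) := fun i => finCols_pull _ _ _ (hs _ (η.symm i).2)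
  let A : Fin m → Fin n → H →₀ ℂ := fun i l => Finsupp.ofSupportFinite
    (fun k => starRingEnd ℂ (a i (k⁻¹, l))) (by
      refine Set.Finite.subset (Set.Finite.preimage (f := fun k : H => (k⁻¹, l))
        (fun x _ y _ h => inv_injective (congrArg Prod.fst h)) (ha i)) (fun k hk => ?_)
      simpa using hk)
  have hA : ∀ i l k, A i l k = starRingEnd ℂ (a i (k⁻¹, l)) := fun _ _ _ => rfl
  have h1 : ∀ i, a i = ∑ l, ∑ k ∈ (A i l).support, starRingEnd ℂ (A i l k) • delta (k⁻¹, l) := by
    intro i
    ext ⟨x, l⟩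
    rw [← inner_delta_left _ (∑ l, _), inner_sum, Finset.sum_eq_single l, inner_sum,
      Finset.sum_eq_single x⁻¹]
    · rw [inner_smul_right, inner_delta_left, inv_inv, delta_self, mul_one, hA]
      simp
    · intro k _ hk
      rw [inner_smul_right, inner_delta_left, delta_ne, mul_zero]
      exact fun h => hk (by rw [show x = k⁻¹ from congrArg Prod.fst h, inv_inv])
    · intro h
      rw [Finsupp.notMem_support_iff.1 h]
      simp
    · intro l' _ hl
      rw [inner_sum]
      refine Finset.sum_eq_zero (fun k _ => ?_)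
      rw [inner_smul_right, inner_delta_left, delta_ne, mul_zero]
      exact fun h => hl (congrArg Prod.snd h).symm
    · intro h; exact absurd (Finset.mem_univ l) h
  obtain ⟨d, hd⟩ := hH m n A (sol H a) (mem_sol_iff A a h1)
  refine ⟨d, ?_⟩
  have hin : ∀ (g : H) i F, ⟪act g (a i), F⟫_ℂ = ⟪act g (η.symm i).1, push j hj.1 F⟫_ℂ := by
    intro g i F
    rw [inner_push_right, eqv_pull hj.1 hje]
  have h2 : img (push j hj.1) (sol H a) = sol H (fun b : s => b.1) := by
    apply le_antisymm
    · rintro _ ⟨F, hF, rfl⟩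
      refine mem_sol.2 (fun g b => ?_)
      have := (hin g (η b) F).symm.trans (mem_sol.1 hF g (η b))
      rwa [Equiv.symm_apply_apply] at this
    · intro f hf
      refine ⟨pull j hj.1 f, mem_sol.2 (fun g i => ?_), hpp f⟩
      rw [hin, hpp]
      exact mem_sol.1 hf g _
  rw [← h2, edim_img_of_inj (free_rt n) hY (eqv_push hj.1 hje)
    (fun f hf => by rw [← pull_push j hj.1 f, hf, map_zero]) (cut_sol ha).cls (inv_sol a),
    edim_rt (inv_sol a), hd, ENNReal.ofReal_natCast]

end Rt

theorem SAC.inj (hH : SAC H) (α : H →₀ ℂ) (hα : α ≠ 0) : Inj α := by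
  classical
  let a : Unit → L2 H := fun _ => ∑ k ∈ α.support, starRingEnd ℂ (α k) • delta k
  have ha : ∀ i, FinS (a i) := fun _ => finS_sum _ (fun k _ => (finS_delta _).smul _)
  obtain ⟨d, hd⟩ := hH H free_self cofin_self _ (inv_sol a) (cut_sol ha)
  have key : ∀ (g : H) (f : L2 H), ⟪act g (a ()), f⟫_ℂ = ∑ k ∈ α.support, α k * f (g * k) := by
    intro g f
    rw [map_sum, sum_inner]
    refine Finset.sum_congr rfl (fun k _ => ?_)
    rw [map_smul, inner_smul_left, act_delta, inner_delta_left]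
    simp
  have htop : edim H (⊤ : Submodule ℂ (L2 H)) ≤ 1 := by
    have : Subsingleton (orbitRel.Quotient H H) := ⟨fun p q => by
      rw [← Quotient.out_eq p, ← Quotient.out_eq q]
      exact Quotient.sound ⟨p.out * q.out⁻¹, by simp⟩⟩
    rw [edim, osum, tsum_eq_single (Quotient.mk _ 1) (fun q hq => absurd (Subsingleton.elim _ _) hq)]
    exact tau_le_one _ _
  intro ξ hξ
  by_contra hne
  have hmem : pull (fun x : H => x⁻¹) inv_injective ξ ∈ sol H a := mem_sol.2 (fun g _ => by
    rw [key]
    have := conv_apply α ξ g⁻¹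
    rw [hξ] at this
    simp only [pull_apply, mul_inv_rev]
    exact this.symm)
  have hd0 : d ≠ 0 := by
    rintro rfl
    rw [eq_bot_of_edim (inv_sol a) (by simpa using hd), Submodule.mem_bot] at hmem
    apply hne
    ext x
    have := congrArg (fun f : L2 H => f x⁻¹) hmem
    simpa using this
  have h1 : sol H a = ⊤ := eq_of_edim_le (cut_sol ha).cls cls_top (inv_sol a) inv_top le_top
    (edim_ne_top cofin_self _) (htop.trans (by
      rw [hd]; exact_mod_cast Nat.one_le_iff_ne_zero.2 hd0))
  obtain ⟨k, hk⟩ := Finsupp.support_nonempty_iff.2 hα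
  have h2 := mem_sol.1 (h1.ge (Submodule.mem_top (x := delta k))) 1 ()
  rw [key, Finset.sum_eq_single k] at h2
  · rw [one_mul, delta_self, mul_one] at h2
    exact Finsupp.mem_support_iff.1 hk h2
  · intro l _ hl
    rw [one_mul, delta_ne hl, mul_zero]
  · intro h; exact absurd hk h

theorem inner_eq_tsum' {X : Type*} (w p : L2 X) :
    ⟪w, p⟫_ℂ = ∑' y, starRingEnd ℂ (w y) * p y := by
  rw [lp.inner_eq_tsum]
  exact tsum_congr (fun y => by simp [mul_comm])

theorem proj_delta_apply {X : Type*} (W : Submodule ℂ (L2 X)) (x : X) :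
    proj W (delta x) x = ((‖proj W (delta x)‖ ^ 2 : ℝ) : ℂ) := by
  rw [← inner_delta_left, ← proj_eq_self (proj_mem W (delta x)), ← inner_proj_left,
    proj_eq_self (proj_mem W (delta x)), inner_self_eq_norm_sq_to_K]
  norm_cast

theorem proj_delta_spec {X : Type*} (W : Submodule ℂ (L2 X)) (x : X) (w : L2 X) (hw : w ∈ W) :
    ∑' y, starRingEnd ℂ (w y) * proj W (delta x) y = starRingEnd ℂ (w x) := by
  rw [← inner_eq_tsum', ← inner_proj_left, proj_eq_self (le_cl W hw), inner_delta_right]

theorem proj_delta_eq {X : Type*} {W : Submodule ℂ (L2 X)} {x : X} {p : L2 X} (hp : p ∈ W)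
    (h : ∀ w ∈ W, ∑' y, starRingEnd ℂ (w y) * p y = starRingEnd ℂ (w x)) :
    proj W (delta x) = p :=
  proj_eq (le_cl W hp) (fun w hw => by
    rw [inner_sub_right, inner_delta_right, inner_eq_tsum', h w hw, sub_self])

end Basic

section Graph

variable {G V : Type u} [Group G] [MulAction G V] (T : SimpleGraph V)

/-- Vertices and unoriented edges. -/
def Cell : Type u := {c : Sym2 V // c.IsDiag ∨ c ∈ T.edgeSet}

variable {T}

/-- The action on cells. -/
@[reducible] def cellAction (hadj : ∀ (g : G) (u v : V), T.Adj u v → T.Adj (g • u) (g • v)) :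
    MulAction G (Cell T) where
  smul g c := ⟨c.1.map (fun v => g • v), by
    obtain ⟨c, hc⟩ := c
    induction c using Sym2.ind with
    | _ a b =>
      rcases hc with hc | hc
      · exact Or.inl (congrArg (fun v => g • v) (Sym2.mk_isDiag_iff.1 hc) |> Sym2.mk_isDiag_iff.2)
      · exact Or.inr (hadj g a b hc)⟩
  one_smul e := by
    apply Subtype.ext
    change e.1.map (fun v => (1 : G) • v) = e.1
    simp
  mul_smul g h e := by
    apply Subtype.ext
    change e.1.map (fun v => (g * h) • v) = (e.1.map (fun v => h • v)).map (fun v => g • v)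
    rw [Sym2.map_map]
    congr 1
    funext v
    simp [mul_smul]

/-- The action on oriented edges. -/
@[reducible] def dartAction (hadj : ∀ (g : G) (u v : V), T.Adj u v → T.Adj (g • u) (g • v)) :
    MulAction G T.Dart where
  smul g d := ⟨(g • d.fst, g • d.snd), hadj g _ _ d.adj⟩
  one_smul d := by
    apply SimpleGraph.Dart.ext
    change ((1 : G) • d.fst, (1 : G) • d.snd) = d.toProd
    simp
  mul_smul g h d := by
    apply SimpleGraph.Dart.ext
    change ((g * h) • d.fst, (g * h) • d.snd) = (g • h • d.fst, g • h • d.snd)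
    simp [mul_smul]

theorem finiteIndex_of_orbit {X : Type*} [MulAction G X] {A : Subgroup G} {x : X}
    (h : stabilizer G x ≤ A) (hf : (orbit A x).Finite) :
    (Subgroup.inclusion h).range.FiniteIndex := by
  have h1 : (Subgroup.inclusion h).range = stabilizer A x := by
    rw [Subgroup.inclusion_range]; rfl
  rw [h1]
  have := hf.to_subtype
  have : Finite (A ⧸ stabilizer A x) := Finite.of_equiv _ (orbitEquivQuotientStabilizer A x)
  exact Subgroup.finiteIndex_of_finite_quotient

theorem tp_congr {C C' A A' : Subgroup G} (hC : C = C') (hA : A = A') (h : C ≤ A) (h' : C' ≤ A')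
    (tp : TP (Subgroup.inclusion h)) : TP (Subgroup.inclusion h') := by
  subst hC hA
  exact tp

theorem sac_of_graph_tp (hT : T.IsTree)
    (hadj : ∀ (g : G) (u v : V), T.Adj u v → T.Adj (g • u) (g • v))
    (htp : ∀ u v, T.Adj u v →
      TP (Subgroup.inclusion (inf_le_left : stabilizer G u ⊓ stabilizer G v ≤ stabilizer G u)))
    (hst : ∀ (K : Subgroup G) (u v : V), u = v ∨ T.Adj u v →
      (∀ h ∈ K, s(h • u, h • v) = s(u, v)) → SAC K) : SAC G := by
  let _ := cellAction hadj
  let _ := dartAction hadj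
  let dg : V → Cell T := fun v => ⟨s(v, v), Or.inl (Sym2.mk_isDiag_iff.2 rfl)⟩
  let ed : T.Dart → Cell T := fun d => ⟨s(d.fst, d.snd), Or.inr d.adj⟩
  have hcut := hasCuts_of_isAcyclic hT.isAcyclic
  let D : TreeData G (Cell T) T.Dart :=
    { o := fun d => dg d.fst
      t := ed
      o_smul := fun _ _ => rfl
      t_smul := fun _ _ => rfl
      ne := hT.connected.nonempty.map dg
      conn := by
        intro S hS
        have h1 : ∀ a b, T.Adj a b → (dg a ∈ S ↔ dg b ∈ S) := by
          intro a b hab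
          have h2 := hS ⟨(a, b), hab⟩
          have h3 := hS ⟨(b, a), hab.symm⟩
          have h4 : ed ⟨(b, a), hab.symm⟩ = ed ⟨(a, b), hab⟩ := Subtype.ext Sym2.eq_swap
          rw [h4] at h3
          exact h2.trans h3.symm
        have h2 : ∀ a b, dg a ∈ S → dg b ∈ S := by
          intro a b
          obtain ⟨p⟩ := hT.connected.preconnected a b
          induction p with
          | nil => exact id
          | cons hab _ ih => exact fun h => ih ((h1 _ _ hab).1 h)
        have h3 : ∀ c : Cell T, ∃ a, (c ∈ S ↔ dg a ∈ S) := by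
          rintro ⟨c, hc⟩
          induction c using Sym2.ind with
          | _ a b =>
            rcases hc with hc | hc
            · obtain rfl := Sym2.mk_isDiag_iff.1 hc
              exact ⟨a, Iff.rfl⟩
            · exact ⟨a, (hS ⟨(a, b), hc⟩).symm⟩
        intro c hc c'
        obtain ⟨a, ha⟩ := h3 c
        obtain ⟨b, hb⟩ := h3 c'
        exact hb.2 (h2 a b (ha.1 hc))
      cut := by
        rintro ⟨⟨a, b⟩, hab⟩
        obtain ⟨side, h1, h2, h3⟩ := hcut a b hab
        have hdg : ∀ x, (s(x, x) = s(a, b) ∨ ∀ y ∈ s(x, x), side y) ↔ side x := by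
          intro x
          constructor
          · rintro (h | h)
            · rcases Sym2.eq_iff.1 h with ⟨h4, h5⟩ | ⟨h4, h5⟩
              · exact absurd (h4.symm.trans h5) hab.ne
              · exact absurd (h5.symm.trans h4) hab.ne
            · exact h x (Sym2.mem_mk_left _ _)
          · intro h
            refine Or.inr (fun y hy => ?_)
            rcases Sym2.mem_iff.1 hy with rfl | rfl <;> exact h
        refine ⟨{c | c.1 = s(a, b) ∨ ∀ y ∈ c.1, side y}, Or.inl rfl,
          fun h => h2 ((hdg a).1 h), ?_⟩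
        rintro ⟨⟨x, y⟩, hxy⟩ hne
        refine (hdg x).trans ?_
        change side x ↔ (s(x, y) = s(a, b) ∨ ∀ z ∈ s(x, y), side z)
        by_cases he : s(x, y) = s(a, b)
        · rcases Sym2.eq_iff.1 he with ⟨rfl, rfl⟩ | ⟨rfl, rfl⟩
          · exact absurd rfl hne
          · exact ⟨fun _ => Or.inl he, fun _ => h1⟩
        · have h4 := h3 x y hxy he
          refine ⟨fun h => Or.inr (fun z hz => ?_),
            fun h => (h.resolve_left he) x (Sym2.mem_mk_left _ _)⟩
          rcases Sym2.mem_iff.1 hz with rfl | rfl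
          · exact h
          · exact h4.1 h }
  have hV : ∀ c : Cell T, SAC (stabilizer G c) := by
    rintro ⟨c, hc⟩
    induction c using Sym2.ind with
    | _ a b =>
      exact hst _ a b (hc.imp Sym2.mk_isDiag_iff.1 id) (fun h hh => congrArg Subtype.val hh)
  refine sac_of_tree D hV (fun d h => ?_) (fun d h => ?_)
  · refine tp_congr ?_ ?_ _ h (htp d.fst d.snd d.adj)
    · ext g
      refine ⟨fun hg => SimpleGraph.Dart.ext _ _ (Prod.ext hg.1 hg.2), fun hg => ?_⟩
      have h1 := congrArg SimpleGraph.Dart.toProd (mem_stabilizer_iff.1 hg)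
      exact ⟨congrArg Prod.fst h1, congrArg Prod.snd h1⟩
    · ext g
      refine ⟨fun hg => Subtype.ext ?_, fun hg => ?_⟩
      · change s(g • d.fst, g • d.fst) = s(d.fst, d.fst)
        rw [mem_stabilizer_iff.1 hg]
      · have h1 : s(g • d.fst, g • d.fst) = s(d.fst, d.fst) := congrArg Subtype.val hg
        rcases Sym2.eq_iff.1 h1 with ⟨h, -⟩ | ⟨h, -⟩ <;> exact h
  · have := finiteIndex_of_orbit h (by
      refine Set.Finite.subset (Set.Finite.preimage (f := fun e : T.Dart => e.toProd)
        (fun _ _ _ _ he => SimpleGraph.Dart.ext _ _ he)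
        (Set.toFinite {(d.fst, d.snd), (d.snd, d.fst)})) ?_
      rintro _ ⟨g, rfl⟩
      have h1 : s((g : G) • d.fst, (g : G) • d.snd) = s(d.fst, d.snd) := congrArg Subtype.val g.2
      rcases Sym2.eq_iff.1 h1 with ⟨h2, h3⟩ | ⟨h2, h3⟩
      · exact Or.inl (Prod.ext h2 h3)
      · exact Or.inr (Prod.ext h2 h3))
    exact tp_of_finiteIndex _ (Subgroup.inclusion_injective h) (hV _)

theorem sac_of_graph (hT : T.IsTree)
    (hadj : ∀ (g : G) (u v : V), T.Adj u v → T.Adj (g • u) (g • v))
    (hlf : ∀ u v, T.Adj u v → {w | ∃ g : G, g • u = u ∧ g • v = w}.Finite)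
    (hst : ∀ (K : Subgroup G) (u v : V), u = v ∨ T.Adj u v →
      (∀ h ∈ K, s(h • u, h • v) = s(u, v)) → SAC K) : SAC G := by
  refine sac_of_graph_tp hT hadj (fun u v huv => ?_) hst
  have h1 : (Subgroup.inclusion (inf_le_left : stabilizer G u ⊓ stabilizer G v ≤
      stabilizer G u)).range = stabilizer (stabilizer G u) v := by
    rw [Subgroup.inclusion_range, Subgroup.inf_subgroupOf_left]; rfl
  have h2 : (orbit (stabilizer G u) v).Finite := (hlf u v huv).subset (by
    rintro _ ⟨g, rfl⟩
    exact ⟨g, g.2, rfl⟩)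
  have := h2.to_subtype
  have : Finite (stabilizer G u ⧸ stabilizer (stabilizer G u) v) :=
    Finite.of_equiv _ (orbitEquivQuotientStabilizer _ v)
  have : (Subgroup.inclusion (inf_le_left : stabilizer G u ⊓ stabilizer G v ≤
      stabilizer G u)).range.FiniteIndex := by
    rw [h1]; exact Subgroup.finiteIndex_of_finite_quotient
  exact tp_of_finiteIndex _ (Subgroup.inclusion_injective _)
    (hst _ u u (Or.inl rfl) (fun h hh => by rw [mem_stabilizer_iff.1 hh]))

end Graph

theorem sac_of_trees (n : ℕ) : ∀ (G : Type u) [Group G] (V : Fin n → Type u)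
    [∀ i, MulAction G (V i)] (T : ∀ i, SimpleGraph (V i)), (∀ i, (T i).IsTree) →
    (∀ i (g : G) u v, (T i).Adj u v → (T i).Adj (g • u) (g • v)) →
    (∀ i u v, (T i).Adj u v → {w | ∃ g : G, g • u = u ∧ g • v = w}.Finite) →
    (∀ H : Subgroup G, (∀ i, ∃ u v, (u = v ∨ (T i).Adj u v) ∧
      ∀ h ∈ H, s(h • u, h • v) = s(u, v)) → SAC H) → SAC G := by
  induction n with
  | zero =>
    intro G _ V _ T _ _ _ hst
    exact (hst ⊤ (fun i => i.elim0)).of_injective
      (Subgroup.topEquiv (G := G)).symm.toMonoidHom (Subgroup.topEquiv (G := G)).symm.injective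
  | succ n ih =>
    intro G _ V _ T hT hadj hlf hst
    refine sac_of_graph (hT 0) (hadj 0) (hlf 0) (fun K u v huv hK => ?_)
    refine ih K (fun i => V i.succ) (fun i => T i.succ) (fun i => hT _)
      (fun i g => hadj _ (g : G)) (fun i a b hab => (hlf _ a b hab).subset ?_) (fun H hH => ?_)
    · rintro w ⟨g, hg⟩
      exact ⟨g, hg⟩
    · refine (hst (H.map K.subtype) (fun i => ?_)).of_injective
        (H.equivMapOfInjective K.subtype K.subtype_injective : H →* H.map K.subtype)
        (H.equivMapOfInjective K.subtype K.subtype_injective).injective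
      refine Fin.cases ⟨u, v, huv, ?_⟩ (fun i => ?_) i
      · rintro _ ⟨k, -, rfl⟩
        exact hK k k.2
      · obtain ⟨a, b, hab, h⟩ := hH i
        refine ⟨a, b, hab, ?_⟩
        rintro _ ⟨k, hk, rfl⟩
        exact h k hk

end Pool.Agent.P.MP_0f25e6_al.HN
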