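import Mathlib

/-!
Operators on the Hilbert space of square-summable functions on a group: translations,
multiplications, convolutions, the canonical trace, and the symmetry between kernel and cokernel.
-/

set_option autoImplicit false

open scoped InnerProductSpace ENNReal Topology
open Filter

noncomputable section

namespace Pool.Agent.P.MP_0f25e6_al

/-- Square-summable complex functions on `G`. -/
abbrev L2 (G : Type*) : Type _ := lp (fun _ : G => ℂ) 2

variable {G : Type*}

theorem memℓp_two_iff (f : G → ℂ) : Memℓp f 2 ↔ Summable fun g => ‖f g‖ ^ 2 := by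
  rw [memℓp_gen_iff (by norm_num)]
  simp

theorem hasSum_norm_sq (ξ : L2 G) : HasSum (fun g => ‖ξ g‖ ^ 2) (‖ξ‖ ^ 2) := by
  have := lp.hasSum_norm (p := 2) (by norm_num) ξ
  simpa using this

theorem norm_le_of_hasSum (ξ : L2 G) (C : ℝ) (hC : 0 ≤ C)
    (h : ∑' g, ‖ξ g‖ ^ 2 ≤ C ^ 2) : ‖ξ‖ ≤ C := by
  rw [(hasSum_norm_sq ξ).tsum_eq] at h
  exact (pow_le_pow_iff_left₀ (norm_nonneg _) hC two_ne_zero).1 h

/-- Composition with a permutation, as a linear map. -/
def compL (e : G ≃ G) : L2 G →ₗ[ℂ] L2 G where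
  toFun ξ := ⟨fun g => ξ (e g), by
    change Memℓp (fun g => ξ (e g)) 2
    rw [memℓp_two_iff]
    exact (e.summable_iff (f := fun g => ‖ξ g‖ ^ 2)).2 (hasSum_norm_sq ξ).summable⟩
  map_add' _ _ := rfl
  map_smul' _ _ := rfl

/-- Composition with a permutation, as a bounded operator. -/
def comp (e : G ≃ G) : L2 G →L[ℂ] L2 G :=
  (compL e).mkContinuous 1 (fun ξ => by
    rw [one_mul]
    refine norm_le_of_hasSum _ _ (norm_nonneg _) (le_of_eq ?_)
    rw [← (hasSum_norm_sq ξ).tsum_eq]
    exact e.tsum_eq (fun g => ‖ξ g‖ ^ 2))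

@[simp] theorem comp_apply (e : G ≃ G) (ξ : L2 G) (g : G) : comp e ξ g = ξ (e g) := rfl

theorem inner_comp_left (e : G ≃ G) (ξ η : L2 G) :
    ⟪comp e ξ, η⟫_ℂ = ⟪ξ, comp e.symm η⟫_ℂ := by
  rw [lp.inner_eq_tsum, lp.inner_eq_tsum]
  rw [← e.tsum_eq (fun g => ⟪ξ g, comp e.symm η g⟫_ℂ)]
  simp

theorem star_comp (e : G ≃ G) : star (comp e) = comp e.symm := by
  rw [ContinuousLinearMap.star_eq_adjoint]
  symm
  rw [ContinuousLinearMap.eq_adjoint_iff]
  intro ξ η
  simpa using inner_comp_left e.symm ξ η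

open Classical in
/-- Restriction to a subset, as a linear map. -/
def resL (A : Set G) : L2 G →ₗ[ℂ] L2 G where
  toFun ξ := ⟨fun g => if g ∈ A then ξ g else 0, by
    change Memℓp (fun g => if g ∈ A then ξ g else 0) 2
    rw [memℓp_two_iff]
    refine Summable.of_nonneg_of_le (fun g => by positivity) (fun g => ?_)
      (hasSum_norm_sq ξ).summable
    split_ifs
    · exact le_rfl
    · simp⟩
  map_add' ξ η := by
    ext g
    change (if g ∈ A then ξ g + η g else 0) =
      (if g ∈ A then ξ g else 0) + (if g ∈ A then η g else 0)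
    split_ifs <;> simp
  map_smul' c ξ := by
    ext g
    change (if g ∈ A then c * ξ g else 0) = c * (if g ∈ A then ξ g else 0)
    split_ifs <;> simp

open Classical in
/-- Restriction to a subset, as a bounded operator. -/
def res (A : Set G) : L2 G →L[ℂ] L2 G :=
  (resL A).mkContinuous 1 (fun ξ => by
    rw [one_mul]
    refine norm_le_of_hasSum _ _ (norm_nonneg _) ?_
    rw [← (hasSum_norm_sq ξ).tsum_eq]
    refine Summable.tsum_le_tsum (fun g => ?_) (hasSum_norm_sq _).summable
      (hasSum_norm_sq ξ).summable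
    change ‖(if g ∈ A then ξ g else 0)‖ ^ 2 ≤ _
    split_ifs
    · exact le_rfl
    · simp)

open Classical in
theorem res_apply (A : Set G) (ξ : L2 G) (g : G) :
    res A ξ g = if g ∈ A then ξ g else 0 := rfl

theorem res_apply_of_mem {A : Set G} (ξ : L2 G) {g : G} (h : g ∈ A) : res A ξ g = ξ g := by
  rw [res_apply, if_pos h]

theorem res_apply_of_notMem {A : Set G} (ξ : L2 G) {g : G} (h : g ∉ A) : res A ξ g = 0 := by
  rw [res_apply, if_neg h]

open Classical in
/-- The basis vector at `y`. -/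
def delta (y : G) : L2 G := lp.single 2 y (1 : ℂ)

open Classical in
theorem delta_apply (y g : G) : delta y g = if g = y then 1 else 0 := by
  simp [delta, lp.single_apply, Pi.single_apply]

theorem inner_delta_left (y : G) (ξ : L2 G) : ⟪delta y, ξ⟫_ℂ = ξ y := by
  classical
  rw [delta]
  convert lp.inner_single_left (𝕜 := ℂ) y (1 : ℂ) ξ using 1
  simp

theorem hasSum_delta (ξ : L2 G) : HasSum (fun g => ξ g • delta g) ξ := by
  classical
  have := lp.hasSum_single (p := 2) (by norm_num) ξ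
  convert this using 2 with g
  ext x
  simp [delta_apply, lp.single_apply, Pi.single_apply]

theorem ext_delta {S T : L2 G →L[ℂ] L2 G} (h : ∀ g, S (delta g) = T (delta g)) : S = T := by
  ext1 ξ
  have h1 := (hasSum_delta ξ).mapL S
  have h2 := (hasSum_delta ξ).mapL T
  simp only [map_smul, h] at h1 h2
  exact h1.unique h2

section Group

variable [Group G]

/-- Left translation `ξ ↦ ξ (y * ·)`. -/
def lt (y : G) : L2 G →L[ℂ] L2 G := comp (Equiv.mulLeft y)

/-- Right translation `ξ ↦ ξ (· * y)`. -/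
def rt (y : G) : L2 G →L[ℂ] L2 G := comp (Equiv.mulRight y)

@[simp] theorem lt_apply (y : G) (ξ : L2 G) (g : G) : lt y ξ g = ξ (y * g) := rfl

@[simp] theorem rt_apply (y : G) (ξ : L2 G) (g : G) : rt y ξ g = ξ (g * y) := rfl

theorem star_rt (y : G) : star (rt y) = rt y⁻¹ := by
  rw [rt, star_comp, Equiv.mulRight_symm, rt]

theorem inner_rt_left (y : G) (ξ η : L2 G) : ⟪rt y ξ, η⟫_ℂ = ⟪ξ, rt y⁻¹ η⟫_ℂ := by
  rw [rt, inner_comp_left, Equiv.mulRight_symm, rt]

theorem rt_rt_inv (y : G) (ξ : L2 G) : rt y (rt y⁻¹ ξ) = ξ := by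
  ext g; simp

theorem rt_inv_rt (y : G) (ξ : L2 G) : rt y⁻¹ (rt y ξ) = ξ := by
  ext g; simp

theorem rt_delta_one (y : G) : rt y⁻¹ (delta 1) = delta y := by
  classical
  ext g
  simp [delta_apply, mul_inv_eq_one]

/-- Operators commuting with all right translations. -/
def Equivariant (T : L2 G →L[ℂ] L2 G) : Prop := ∀ y : G, rt y * T = T * rt y

theorem Equivariant.apply {T : L2 G →L[ℂ] L2 G} (hT : Equivariant T) (y : G) (ξ : L2 G) :
    rt y (T ξ) = T (rt y ξ) :=
  congrArg (fun S : L2 G →L[ℂ] L2 G => S ξ) (hT y)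

theorem Equivariant.star {T : L2 G →L[ℂ] L2 G} (hT : Equivariant T) : Equivariant (star T) := by
  intro y
  have := congrArg Star.star (hT y⁻¹)
  rw [star_mul, star_mul, star_rt, inv_inv] at this
  exact this.symm

theorem Equivariant.mul {S T : L2 G →L[ℂ] L2 G} (hS : Equivariant S) (hT : Equivariant T) :
    Equivariant (S * T) := fun y => by
  rw [← mul_assoc, hS y, mul_assoc, hT y, mul_assoc]

theorem Equivariant.one : Equivariant (1 : L2 G →L[ℂ] L2 G) := fun y => by simp

theorem Equivariant.sub {S T : L2 G →L[ℂ] L2 G} (hS : Equivariant S) (hT : Equivariant T) :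
    Equivariant (S - T) := fun y => by
  rw [mul_sub, sub_mul, hS y, hT y]

theorem Equivariant.smul {T : L2 G →L[ℂ] L2 G} (hT : Equivariant T) (c : ℂ) :
    Equivariant (c • T) := fun y => by
  rw [mul_smul_comm, smul_mul_assoc, hT y]

theorem Equivariant.pow {T : L2 G →L[ℂ] L2 G} (hT : Equivariant T) (n : ℕ) :
    Equivariant (T ^ n) := by
  induction n with
  | zero => simpa using Equivariant.one
  | succ n ih => rw [pow_succ]; exact ih.mul hT

/-- The canonical trace. -/
def tr (T : L2 G →L[ℂ] L2 G) : ℂ := T (delta 1) 1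

theorem hasSum_tr_mul {S : L2 G →L[ℂ] L2 G} (hS : Equivariant S) (T : L2 G →L[ℂ] L2 G) :
    HasSum (fun g => T (delta 1) g * S (delta 1) g⁻¹) (tr (S * T)) := by
  have h1 := ((hasSum_delta (T (delta 1))).mapL S).mapL (innerSL ℂ (delta (1 : G)))
  simp only [map_smul, innerSL_apply_apply, inner_delta_left, smul_eq_mul] at h1
  have h2 : ∀ g, S (delta g) 1 = S (delta 1) g⁻¹ := by
    intro g
    rw [← rt_delta_one g, ← hS.apply]
    simp
  simp only [h2] at h1
  exact h1

theorem tr_comm {S T : L2 G →L[ℂ] L2 G} (hS : Equivariant S) (hT : Equivariant T) :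
    tr (S * T) = tr (T * S) := by
  have h1 := hasSum_tr_mul hS T
  have h2 := hasSum_tr_mul hT S
  rw [← (Equiv.inv G).hasSum_iff] at h2
  refine h1.unique ?_
  convert h2 using 2 with g
  simp [mul_comm]

theorem tr_sub (S T : L2 G →L[ℂ] L2 G) : tr (S - T) = tr S - tr T := by
  simp [tr]

omit [Group G] in
theorem norm_star_op (T : L2 G →L[ℂ] L2 G) : ‖star T‖ = ‖T‖ := by
  rw [ContinuousLinearMap.star_eq_adjoint]
  exact LinearIsometryEquiv.norm_map _ _

omit [Group G] in
theorem norm_one_sub_star_mul_le {T : L2 G →L[ℂ] L2 G} (hT : ‖T‖ ≤ 1) :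
    ‖(1 : L2 G →L[ℂ] L2 G) - star T * T‖ ≤ 1 := by
  refine ContinuousLinearMap.opNorm_le_bound _ zero_le_one (fun v => ?_)
  rw [one_mul]
  have h1 : ‖(star T) (T v)‖ ≤ ‖T v‖ := by
    have := (star T).le_of_opNorm_le (c := 1) (by rwa [norm_star_op]) (T v)
    simpa using this
  have h2 : (⟪v, (star T) (T v)⟫_ℂ).re = ‖T v‖ ^ 2 := by
    rw [ContinuousLinearMap.star_eq_adjoint, ContinuousLinearMap.adjoint_inner_right,
      inner_self_eq_norm_sq_to_K]
    norm_cast
  have h3 : ‖v - (star T) (T v)‖ ^ 2 = ‖v‖ ^ 2 - 2 * ‖T v‖ ^ 2 + ‖(star T) (T v)‖ ^ 2 := by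
    rw [@norm_sub_sq ℂ, ← h2]
    rfl
  have h4 : ‖v - (star T) (T v)‖ ^ 2 ≤ ‖v‖ ^ 2 := by
    rw [h3]
    nlinarith [norm_nonneg ((star T) (T v)), norm_nonneg (T v)]
  exact (pow_le_pow_iff_left₀ (norm_nonneg _) (norm_nonneg _) two_ne_zero).1 h4

theorem tr_pow_eq {T : L2 G →L[ℂ] L2 G} (hT : Equivariant T) (n : ℕ) :
    tr ((1 - star T * T) ^ n) = tr ((1 - T * star T) ^ n) := by
  have hA : Equivariant (1 - star T * T) := Equivariant.one.sub (hT.star.mul hT)
  have hcomm : ∀ m : ℕ, T * (1 - star T * T) ^ m = (1 - T * star T) ^ m * T := by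
    intro m
    induction m with
    | zero => simp
    | succ m ih =>
      rw [pow_succ, ← mul_assoc, ih, pow_succ, mul_assoc, mul_assoc]
      congr 1
      rw [mul_sub, sub_mul, mul_one, one_mul, mul_assoc]
  induction n with
  | zero => simp
  | succ n ih =>
    have e1 : (1 - star T * T) ^ (n + 1) =
        (1 - star T * T) ^ n - ((1 - star T * T) ^ n * star T) * T := by
      rw [pow_succ, mul_sub, mul_one, mul_assoc]
    have e2 : (1 - T * star T) ^ (n + 1) =
        (1 - T * star T) ^ n - T * ((1 - star T * T) ^ n * star T) := by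
      rw [pow_succ, mul_sub, mul_one, ← mul_assoc, ← mul_assoc, hcomm]
    rw [e1, e2, tr_sub, tr_sub, ih, tr_comm ((hA.pow n).mul hT.star) hT]

theorem tendsto_avg_tr (A : L2 G →L[ℂ] L2 G) (hA : ‖A‖ ≤ 1) :
    Tendsto (fun N : ℕ => (N : ℂ)⁻¹ * ∑ n ∈ Finset.range N, tr (A ^ n)) atTop
      (𝓝 (⟪delta (1 : G), ((A.eqLocus (1 : L2 G →L[ℂ] L2 G)).orthogonalProjectionOnto
        (delta 1) : L2 G)⟫_ℂ)) := by
  have h := A.tendsto_birkhoffAverage_orthogonalProjection hA (delta 1)
  have h2 := ((innerSL ℂ (delta (1 : G))).continuous.tendsto _).comp h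
  refine Tendsto.congr (fun N => ?_) h2
  simp only [Function.comp_apply, birkhoffAverage, birkhoffSum, id, map_smul, map_sum,
    innerSL_apply_apply, inner_delta_left, smul_eq_mul, tr]
  congr 1
  refine Finset.sum_congr rfl (fun n _ => ?_)
  rw [FunLike.coe_pow_eq_iterate]

theorem inj_of_star_inj_aux {T : L2 G →L[ℂ] L2 G} (hT : Equivariant T) (hn : ‖T‖ ≤ 1)
    (h : ∀ η, (star T) η = 0 → η = 0) (ξ : L2 G) (hξ : T ξ = 0) : ξ = 0 := by
  have hA := tendsto_avg_tr (1 - star T * T) (norm_one_sub_star_mul_le hn)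
  have hB := tendsto_avg_tr (1 - T * star T)
    (by simpa using norm_one_sub_star_mul_le (T := star T) (by rwa [norm_star_op]))
  simp only [tr_pow_eq hT] at hA
  have heq := tendsto_nhds_unique hA hB
  set KA := (1 - star T * T).eqLocus (1 : L2 G →L[ℂ] L2 G) with hKA
  set KB := (1 - T * star T).eqLocus (1 : L2 G →L[ℂ] L2 G) with hKB
  have hB0 : (KB.orthogonalProjectionOnto (delta 1) : L2 G) = 0 := by
    have hmem := (KB.orthogonalProjectionOnto (delta 1)).2
    set v : L2 G := (KB.orthogonalProjectionOnto (delta 1) : L2 G)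
    have h1 : T ((star T) v) = 0 := by
      have : (1 - T * star T) v = (1 : L2 G →L[ℂ] L2 G) v := hmem
      simpa using this
    apply h
    have h2 : ⟪(star T) v, (star T) v⟫_ℂ = 0 := by
      rw [ContinuousLinearMap.star_eq_adjoint, ContinuousLinearMap.adjoint_inner_left,
        ← ContinuousLinearMap.star_eq_adjoint, h1, inner_zero_right]
    exact inner_self_eq_zero.1 h2
  rw [hB0, inner_zero_right] at heq
  have hA0 : KA.starProjection (delta 1) = 0 := by
    have h1 : ⟪KA.starProjection (delta (1 : G)), KA.starProjection (delta 1)⟫_ℂ = 0 := by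
      rw [Submodule.inner_starProjection_left_eq_right,
        Submodule.starProjection_eq_self_iff.2 (KA.starProjection_apply_mem _)]
      exact heq
    exact inner_self_eq_zero.1 h1
  ext g
  have hmem : rt g ξ ∈ KA := by
    change (1 - star T * T) (rt g ξ) = (1 : L2 G →L[ℂ] L2 G) (rt g ξ)
    simp [← hT.apply, hξ]
  have h1 : ⟪delta (1 : G), rt g ξ⟫_ℂ = 0 := by
    rw [← Submodule.starProjection_eq_self_iff.2 hmem,
      ← Submodule.inner_starProjection_left_eq_right, hA0, inner_zero_left]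
  simpa [inner_delta_left] using h1

/-- An equivariant operator with injective adjoint is injective. -/
theorem inj_of_star_inj {T : L2 G →L[ℂ] L2 G} (hT : Equivariant T)
    (h : ∀ η, (star T) η = 0 → η = 0) (ξ : L2 G) (hξ : T ξ = 0) : ξ = 0 := by
  have hpos : 0 < ‖T‖ + 1 := by positivity
  set c : ℝ := (‖T‖ + 1)⁻¹ with hc
  have hc0 : (c : ℂ) ≠ 0 := by
    rw [Complex.ofReal_ne_zero, hc]
    positivity
  refine inj_of_star_inj_aux (hT.smul (c : ℂ)) ?_ ?_ ξ
    (by rw [smul_apply, hξ, smul_zero])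
  · rw [norm_smul, Complex.norm_real, Real.norm_of_nonneg (by positivity), hc,
      inv_mul_le_iff₀ hpos]
    linarith
  · intro η hη
    apply h
    rw [star_smul, smul_apply, smul_eq_zero] at hη
    exact hη.resolve_left (by simpa using hc0)

/-- An injective equivariant operator has injective adjoint. -/
theorem star_inj_of_inj {T : L2 G →L[ℂ] L2 G} (hT : Equivariant T)
    (h : ∀ ξ, T ξ = 0 → ξ = 0) (η : L2 G) (hη : (star T) η = 0) : η = 0 :=
  inj_of_star_inj hT.star (by simpa using h) η hη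

/-- Left convolution by a finitely supported function. -/
def conv (α : G →₀ ℂ) : L2 G →L[ℂ] L2 G := ∑ k ∈ α.support, α k • lt k⁻¹

theorem conv_apply (α : G →₀ ℂ) (ξ : L2 G) (g : G) :
    conv α ξ g = ∑ k ∈ α.support, α k * ξ (k⁻¹ * g) := by
  rw [← inner_delta_left g, conv, sum_apply, inner_sum]
  refine Finset.sum_congr rfl (fun k _ => ?_)
  rw [smul_apply, inner_smul_right, inner_delta_left, lt_apply]

theorem conv_equivariant (α : G →₀ ℂ) : Equivariant (conv α) := by
  intro y
  ext ξ g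
  simp [conv_apply, mul_assoc]

theorem conv_delta (α : G →₀ ℂ) (x g : G) : conv α (delta x) g = α (g * x⁻¹) := by
  classical
  rw [conv_apply, Finset.sum_eq_single (g * x⁻¹)]
  · simp [delta_apply]
  · intro k _ hk
    rw [delta_apply, if_neg, mul_zero]
    intro h
    apply hk
    rw [← h]
    group
  · intro h
    simp [Finsupp.notMem_support_iff.1 h]

/-- Convolution by `α` is injective on square-summable functions. -/
def Inj (α : G →₀ ℂ) : Prop := ∀ ξ : L2 G, conv α ξ = 0 → ξ = 0

end Group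

end Pool.Agent.P.MP_0f25e6_al
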