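import Mathlib
import Pool.Agent.P.MP_0f25e6_al.Ops

/-!
Definitions for the Harder-Narasimhan proof of the strong Atiyah property for groups acting on
trees.
-/

set_option autoImplicit false

open scoped InnerProductSpace ENNReal Topology
open Filter MulAction

noncomputable section

namespace Pool.Agent.P.MP_0f25e6_al.HN

universe u

/-- Pull-back along an injective map, as a linear map. -/
def pullL {Y Z : Type*} (j : Y → Z) (hj : Function.Injective j) : L2 Z →ₗ[ℂ] L2 Y where
  toFun ξ := ⟨fun y => ξ (j y), by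
    change Memℓp (fun y => ξ (j y)) 2
    rw [memℓp_two_iff]
    exact (hasSum_norm_sq ξ).summable.comp_injective hj⟩
  map_add' _ _ := rfl
  map_smul' _ _ := rfl

/-- Pull-back along an injective map. -/
def pull {Y Z : Type*} (j : Y → Z) (hj : Function.Injective j) : L2 Z →L[ℂ] L2 Y :=
  (pullL j hj).mkContinuous 1 (fun ξ => by
    rw [one_mul]
    refine norm_le_of_hasSum _ _ (norm_nonneg _) ?_
    rw [← (hasSum_norm_sq ξ).tsum_eq]
    exact tsum_comp_le_tsum_of_inj (hasSum_norm_sq ξ).summable (fun _ => by positivity) hj)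

/-- Push-forward (extension by zero) along an injective map. -/
def push {Y Z : Type*} (j : Y → Z) (hj : Function.Injective j) : L2 Y →L[ℂ] L2 Z :=
  ContinuousLinearMap.adjoint (pull j hj)

/-- The unitary action of a group on square-summable functions on a set it acts on. -/
def act {H Z : Type*} [Group H] [MulAction H Z] (h : H) : L2 Z →L[ℂ] L2 Z :=
  pull (fun z => h⁻¹ • z) (MulAction.injective h⁻¹)

/-- Free action. -/
def Free (H Z : Type*) [Group H] [MulAction H Z] : Prop := ∀ (h : H) (z : Z), h • z = z → h = 1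

/-- The set `S` meets only finitely many orbits. -/
def Cofin (H : Type*) {Z : Type*} [Group H] [MulAction H Z] (S : Set Z) : Prop :=
  ∃ F : Set Z, F.Finite ∧ ∀ z ∈ S, ∃ h : H, h • z ∈ F

/-- Invariant subspace. -/
def Inv (H : Type*) {Z : Type*} [Group H] [MulAction H Z] (W : Submodule ℂ (L2 Z)) : Prop :=
  ∀ (h : H), ∀ f ∈ W, act h f ∈ W

/-- Equivariant operator. -/
def Eqv (H : Type*) {Y Z : Type*} [Group H] [MulAction H Y] [MulAction H Z]
    (T : L2 Y →L[ℂ] L2 Z) : Prop :=
  ∀ (h : H) (f : L2 Y), T (act h f) = act h (T f)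

/-- Functions supported in `S`. -/
def supp {Z : Type*} (S : Set Z) : Submodule ℂ (L2 Z) where
  carrier := {f | ∀ z, z ∉ S → f z = 0}
  add_mem' := fun {f g} hf hg z hz => by simp [hf z hz, hg z hz]
  zero_mem' := fun z _ => rfl
  smul_mem' := fun c f hf z hz => by simp [hf z hz]

/-- Closure of a subspace. -/
abbrev cl {Z : Type*} (W : Submodule ℂ (L2 Z)) : Submodule ℂ (L2 Z) := W.topologicalClosure

/-- Closed subspace. -/
abbrev Cls {Z : Type*} (W : Submodule ℂ (L2 Z)) : Prop := IsClosed (W : Set (L2 Z))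

/-- Image of a subspace under a bounded operator. -/
abbrev img {Y Z : Type*} (T : L2 Y →L[ℂ] L2 Z) (N : Submodule ℂ (L2 Y)) : Submodule ℂ (L2 Z) :=
  N.map (T : L2 Y →ₗ[ℂ] L2 Z)

/-- Preimage of a subspace under a bounded operator. -/
abbrev pre {Y Z : Type*} (T : L2 Y →L[ℂ] L2 Z) (W : Submodule ℂ (L2 Z)) : Submodule ℂ (L2 Y) :=
  W.comap (T : L2 Y →ₗ[ℂ] L2 Z)

/-- Orthogonal projection onto the closure of a subspace. -/
def proj {Z : Type*} (W : Submodule ℂ (L2 Z)) : L2 Z →L[ℂ] L2 Z := (cl W).starProjection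

/-- Diagonal entries of the projection. -/
def tau {Z : Type*} (W : Submodule ℂ (L2 Z)) (z : Z) : ℝ≥0∞ := ‖proj W (delta z)‖ₑ ^ 2

/-- Sum over orbit representatives. -/
def osum (H : Type*) {Z : Type*} [Group H] [MulAction H Z] (f : Z → ℝ≥0∞) : ℝ≥0∞ :=
  ∑' q : orbitRel.Quotient H Z, f q.out

/-- Von Neumann dimension, with values in the extended reals. -/
def edim (H : Type*) {Z : Type*} [Group H] [MulAction H Z] (W : Submodule ℂ (L2 Z)) : ℝ≥0∞ :=
  osum H (tau W)

/-- Von Neumann dimension, as a real number. -/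
def dim (H : Type*) {Z : Type*} [Group H] [MulAction H Z] (W : Submodule ℂ (L2 Z)) : ℝ :=
  (edim H W).toReal

/-- Finitely supported vector. -/
def FinS {Z : Type*} (f : L2 Z) : Prop := {z | f z ≠ 0}.Finite

/-- The operator preserves finite supports. -/
def FinCols {Y Z : Type*} (T : L2 Y →L[ℂ] L2 Z) : Prop := ∀ a, FinS a → FinS (T a)

/-- The adjoint operator preserves finite supports. -/
def FinRows {Y Z : Type*} (T : L2 Y →L[ℂ] L2 Z) : Prop := FinCols (ContinuousLinearMap.adjoint T)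

/-- The subspace is cut out by finitely supported equations. -/
def Cut {Z : Type*} (N : Submodule ℂ (L2 Z)) : Prop :=
  ∀ f : L2 Z, (∀ a : L2 Z, FinS a → (∀ g ∈ N, ⟪a, g⟫_ℂ = 0) → ⟪a, f⟫_ℂ = 0) → f ∈ N

/-- Rational subspaces: closures of images of solution spaces. -/
def Rat (H : Type u) {Z : Type*} [Group H] [MulAction H Z] (W : Submodule ℂ (L2 Z)) : Prop :=
  ∃ (Y : Type u) (_ : MulAction H Y), Free H Y ∧ Cofin H (Set.univ : Set Y) ∧
    ∃ (N : Submodule ℂ (L2 Y)) (T : L2 Y →L[ℂ] L2 Z),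
      Inv H N ∧ Cut N ∧ Eqv H T ∧ FinCols T ∧ W = cl (img T N)

/-- The subspace is stable under restriction to the fibres of `κ`. -/
def Split {Z X : Type*} (κ : Z → X) (W : Submodule ℂ (L2 Z)) : Prop :=
  ∀ x : X, ∀ f ∈ W, res (κ ⁻¹' {x}) f ∈ W

/-- The functional whose maximisers form the Harder-Narasimhan filtration of `E`. -/
def psi (H : Type*) {Z : Type*} [Group H] [MulAction H Z] (E : Submodule ℂ (L2 Z)) (t : ℝ)
    (W : Submodule ℂ (L2 Z)) : ℝ :=
  dim H (E ⊓ W) - t * dim H W

/-- The strong Atiyah property with integer values, internal form. -/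
def SAC (H : Type u) [Group H] : Prop :=
  ∀ (Y : Type u) [MulAction H Y], Free H Y → Cofin H (Set.univ : Set Y) →
    ∀ N : Submodule ℂ (L2 Y), Inv H N → Cut N → ∃ n : ℕ, edim H N = n

/-- The transfer property of an embedding of groups: inducing does not increase the maximum
of `psi` over rational subspaces. -/
def TP {C A : Type u} [Group C] [Group A] (ι : C →* A) : Prop :=
  ∀ (Z X : Type u) [MulAction A Z] [MulAction C Z] [MulAction A X] (κ : Z → X) (x₀ : X),
    Free A Z → (∀ (c : C) (z : Z), ι c • z = c • z) → (∀ (a : A) (z : Z), κ (a • z) = a • κ z) →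
    stabilizer A x₀ = ι.range → Cofin C (κ ⁻¹' {x₀}) →
    ∀ E : Submodule ℂ (L2 Z), Cls E → Inv A E → Split κ E →
    ∀ t : ℝ, 0 ≤ t → t ≤ 1 →
    ∀ W : Submodule ℂ (L2 Z), Rat A W → W ≤ supp (κ ⁻¹' orbit A x₀) →
    ∃ F : Submodule ℂ (L2 Z), Rat C F ∧ F ≤ supp (κ ⁻¹' {x₀}) ∧ psi A E t W ≤ psi C E t F

/-- `F` is the largest maximiser of `psi H E t` among rational subspaces supported in `S`. -/
structure IsHN (H : Type u) {Z : Type*} [Group H] [MulAction H Z] (S : Set Z)
    (E : Submodule ℂ (L2 Z)) (t : ℝ) (F : Submodule ℂ (L2 Z)) : Prop where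
  rat : Rat H F
  le : F ≤ supp S
  max : ∀ W, Rat H W → W ≤ supp S → psi H E t W ≤ psi H E t F
  largest : ∀ W, Rat H W → W ≤ supp S → psi H E t F ≤ psi H E t W → W ≤ F

/-- Product with a set on which the group acts trivially. -/
@[ext] structure Tw (Y K : Type*) where
  /-- first coordinate -/
  y : Y
  /-- second coordinate -/
  k : K

instance {H Y K : Type*} [Group H] [MulAction H Y] : MulAction H (Tw Y K) where
  smul h p := ⟨h • p.y, p.k⟩
  one_smul p := by
    change (⟨(1 : H) • p.y, p.k⟩ : Tw Y K) = p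
    rw [one_smul]
  mul_smul a b p := by
    change (⟨(a * b) • p.y, p.k⟩ : Tw Y K) = ⟨a • b • p.y, p.k⟩
    rw [mul_smul]

/-- A tree with a group action without inversions, in oriented form. -/
structure TreeData (G V E : Type*) [Group G] [MulAction G V] [MulAction G E] where
  /-- origin -/
  o : E → V
  /-- terminus -/
  t : E → V
  o_smul : ∀ (g : G) (e : E), o (g • e) = g • o e
  t_smul : ∀ (g : G) (e : E), t (g • e) = g • t e
  ne : Nonempty V
  conn : ∀ S : Set V, (∀ e, o e ∈ S ↔ t e ∈ S) → ∀ v ∈ S, ∀ w, w ∈ S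
  cut : ∀ e, ∃ S : Set V, t e ∈ S ∧ o e ∉ S ∧ ∀ e', e' ≠ e → (o e' ∈ S ↔ t e' ∈ S)

end Pool.Agent.P.MP_0f25e6_al.HN
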