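import Pool.Agent.P.MP_0f25e6_al.TP8

/-!
Position preserving operators, density lemmas, and rationality of restrictions.
-/

set_option autoImplicit false

open scoped InnerProductSpace ENNReal Topology
open Filter MulAction

noncomputable section

namespace Pool.Agent.P.MP_0f25e6_al.HR

open HN TP

universe u

section Basic

variable {X X' Y Z U : Type*}

/-- The operator preserves positions. -/
def Pres (γ : Y → X) (γ' : Z → X) (T : L2 Y →L[ℂ] L2 Z) : Prop :=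
  ∀ (S : Set X) (f : L2 Y), T (res (γ ⁻¹' S) f) = res (γ' ⁻¹' S) (T f)

theorem Pres.comp {γ : Y → X} {γ' : Z → X} {γ'' : U → X} {T : L2 Y →L[ℂ] L2 Z}
    {S : L2 U →L[ℂ] L2 Y} (hT : Pres γ γ' T) (hS : Pres γ'' γ S) : Pres γ'' γ' (T ∘L S) :=
  fun A f => by rw [ContinuousLinearMap.comp_apply, hS, hT, ContinuousLinearMap.comp_apply]

theorem Pres.sub {γ : Y → X} {γ' : Z → X} {T S : L2 Y →L[ℂ] L2 Z} (hT : Pres γ γ' T)
    (hS : Pres γ γ' S) : Pres γ γ' (T - S) := fun A f => by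
  rw [sub_apply, hT, hS, sub_apply, map_sub]

theorem Pres.map {γ : Y → X} {γ' : Z → X} {T : L2 Y →L[ℂ] L2 Z} (hT : Pres γ γ' T) (q : X → X') :
    Pres (q ∘ γ) (q ∘ γ') T := fun A f => hT (q ⁻¹' A) f

theorem pres_of_apply {γ : Y → X} {γ' : Z → X} {T : L2 Y →L[ℂ] L2 Z} (σ : Z → Y)
    (hT : ∀ f z, T f z = f (σ z)) (hσ : ∀ z, γ (σ z) = γ' z) : Pres γ γ' T := by
  intro A f
  ext z
  rw [hT]
  by_cases h : γ' z ∈ A
  · rw [res_pre_pos _ h, res_pre_pos _ (hσ z ▸ h), hT]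
  · rw [res_pre_neg _ h, res_pre_neg _ (hσ z ▸ h)]

theorem pres_pull {γ : Y → X} {γ' : Z → X} (j : Z → Y) (hj : Function.Injective j)
    (h : ∀ z, γ (j z) = γ' z) : Pres γ γ' (pull j hj) := pres_of_apply j (fun _ _ => rfl) h

theorem Pres.split_pre {γ : Y → X} {γ' : Z → X} {T : L2 Y →L[ℂ] L2 Z} (hT : Pres γ γ' T)
    {W : Submodule ℂ (L2 Z)} (hW : Split γ' W) : Split γ (pre T W) := fun x f hf => by
  change T _ ∈ W
  rw [hT]
  exact hW x _ hf

theorem Pres.mem_supp {γ : Y → X} {γ' : Z → X} {T : L2 Y →L[ℂ] L2 Z} (hT : Pres γ γ' T)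
    {S : Set X} {f : L2 Y} (hf : f ∈ supp (γ ⁻¹' S)) : T f ∈ supp (γ' ⁻¹' S) := by
  rw [← res_eq_self hf, hT]
  exact res_mem_supp _ _

theorem split_bot (γ : Y → X) : Split γ (⊥ : Submodule ℂ (L2 Y)) := fun x f hf => by
  rw [(Submodule.mem_bot ℂ).1 hf, map_zero]
  exact Submodule.zero_mem _

theorem map_mem_cl {T : L2 Y →L[ℂ] L2 Z} {M : Submodule ℂ (L2 Y)} {N : Submodule ℂ (L2 Z)}
    (hN : Cls N) (h : ∀ g ∈ M, T g ∈ N) {f : L2 Y} (hf : f ∈ cl M) : T f ∈ N :=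
  (cl_le (W' := pre T N) h (hN.pre T)) hf

theorem mem_cl_img (T : L2 Y →L[ℂ] L2 Z) {M : Submodule ℂ (L2 Y)} {f : L2 Y} (hf : f ∈ M) :
    T f ∈ cl (img T M) := le_cl _ ⟨f, hf, rfl⟩

theorem map_mem_cl_img {T : L2 Y →L[ℂ] L2 Z} {S : L2 U →L[ℂ] L2 Y} {M : Submodule ℂ (L2 U)}
    {N : Submodule ℂ (L2 Z)} (hN : Cls N) (h : ∀ g ∈ M, T (S g) ∈ N) {f : L2 Y}
    (hf : f ∈ cl (img S M)) : T f ∈ N :=
  map_mem_cl hN (by rintro _ ⟨g, hg, rfl⟩; exact h g hg) hf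

theorem cl_img_le {T : L2 Y →L[ℂ] L2 Z} {M : Submodule ℂ (L2 Y)} {N : Submodule ℂ (L2 Z)}
    (hN : Cls N) (h : ∀ g ∈ M, T g ∈ N) : cl (img T M) ≤ N :=
  cl_le (by rintro _ ⟨g, hg, rfl⟩; exact h g hg) hN

/-- First projection. -/
abbrev pl : L2 (Y ⊕ Z) →L[ℂ] L2 Y := pull Sum.inl Sum.inl_injective

/-- Second projection. -/
abbrev pr : L2 (Y ⊕ Z) →L[ℂ] L2 Z := pull Sum.inr Sum.inr_injective

/-- The vector with two given components. -/
def mk2 (f : L2 Y) (g : L2 Z) : L2 (Y ⊕ Z) :=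
  push Sum.inl Sum.inl_injective f + push Sum.inr Sum.inr_injective g

@[simp] theorem pl_mk2 (f : L2 Y) (g : L2 Z) : pl (mk2 f g) = f := by
  rw [mk2, map_add, pull_push, pull_inl_push_inr, add_zero]

@[simp] theorem pr_mk2 (f : L2 Y) (g : L2 Z) : pr (mk2 f g) = g := by
  rw [mk2, map_add, pull_push, pull_inr_push_inl, zero_add]

/-- The operator with two given components. -/
def pair (S : L2 U →L[ℂ] L2 Y) (T : L2 U →L[ℂ] L2 Z) : L2 U →L[ℂ] L2 (Y ⊕ Z) :=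
  push Sum.inl Sum.inl_injective ∘L S + push Sum.inr Sum.inr_injective ∘L T

theorem pair_apply (S : L2 U →L[ℂ] L2 Y) (T : L2 U →L[ℂ] L2 Z) (f : L2 U) :
    pair S T f = mk2 (S f) (T f) := rfl

theorem finRows_pl : FinRows (pl : L2 (Y ⊕ Z) →L[ℂ] L2 Y) := finRows_pull _ _

theorem finRows_pr : FinRows (pr : L2 (Y ⊕ Z) →L[ℂ] L2 Z) := finRows_pull _ _

theorem mem_ker_sub {S T : L2 Y →L[ℂ] L2 Z} {f : L2 Y} : f ∈ pre (S - T) ⊥ ↔ S f = T f :=
  sub_eq_zero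

end Basic

section Dense

variable {H X Y Z U : Type*} [Group H] [MulAction H X] [MulAction H Y] [MulAction H Z]
  [MulAction H U]

theorem eqv_pair {S : L2 U →L[ℂ] L2 Y} {T : L2 U →L[ℂ] L2 Z} {G : Type u} [Group G]
    [MulAction G Y] [MulAction G Z] [MulAction G U] (hS : Eqv G S) (hT : Eqv G T) :
    Eqv G (pair S T) := (eqv_push_inl.comp hS).add (eqv_push_inr.comp hT)

/-- A subspace whose image is dense generates everything together with the kernel. -/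
theorem le_cl_sup_ker (hY : Free H Y) (hZ : Free H Z) {T : L2 Y →L[ℂ] L2 Z} (hT : Eqv H T)
    {A M : Submodule ℂ (L2 Y)} (hc : Cls A) (hi : Inv H A) (hf : edim H A ≠ ⊤) (hM : M ≤ A)
    (hMi : Inv H M) (h : ∀ f ∈ A, T f ∈ cl (img T M)) : A ≤ cl (M ⊔ A ⊓ pre T ⊥) := by
  have hi' : Inv H (cl (M ⊔ A ⊓ pre T ⊥)) := (hMi.sup (hi.inf (inv_bot.pre hT))).cl
  have hle : cl (M ⊔ A ⊓ pre T ⊥) ≤ A := cl_le (sup_le hM inf_le_left) hc
  refine (eq_of_edim_le (cls_cl _) hc hi' hi hle (fin_of_le hf hle) ?_).ge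
  rw [rank_nullity hY hZ hT hc hi, rank_nullity hY hZ hT (cls_cl _) hi']
  refine add_le_add (edim_mono (le_inf (le_sup_right.trans (le_cl _)) inf_le_right)) ?_
  rw [← edim_cl (img T (cl _))]
  refine edim_mono ?_
  rintro _ ⟨f, hf, rfl⟩
  exact cl_mono (Submodule.map_mono (le_sup_left.trans (le_cl _))) (h f hf)

end Dense

section Fp

variable {G : Type u} {Y Z U : Type*} [Group G] [MulAction G Y] [MulAction G Z] [MulAction G U]

/-- The fibre product of two subspaces. -/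
def fp (S : L2 Y →L[ℂ] L2 Z) (P : L2 U →L[ℂ] L2 Z) (N : Submodule ℂ (L2 Y))
    (M : Submodule ℂ (L2 U)) : Submodule ℂ (L2 (Y ⊕ U)) :=
  (pre pl N ⊓ pre pr M) ⊓ pre (S ∘L pl - P ∘L pr) ⊥

omit [Group G] [MulAction G Y] [MulAction G Z] [MulAction G U] in
theorem mem_fp {S : L2 Y →L[ℂ] L2 Z} {P : L2 U →L[ℂ] L2 Z} {N : Submodule ℂ (L2 Y)}
    {M : Submodule ℂ (L2 U)} {f : L2 (Y ⊕ U)} :
    f ∈ fp S P N M ↔ pl f ∈ N ∧ pr f ∈ M ∧ S (pl f) = P (pr f) :=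
  ⟨fun h => ⟨h.1.1, h.1.2, mem_ker_sub.1 h.2⟩, fun h => ⟨⟨h.1, h.2.1⟩, mem_ker_sub.2 h.2.2⟩⟩

theorem inv_fp {S : L2 Y →L[ℂ] L2 Z} {P : L2 U →L[ℂ] L2 Z} (hS : Eqv G S) (hP : Eqv G P)
    {N : Submodule ℂ (L2 Y)} {M : Submodule ℂ (L2 U)} (hN : Inv G N) (hM : Inv G M) :
    Inv G (fp S P N M) :=
  ((hN.pre eqv_pull_inl).inf (hM.pre eqv_pull_inr)).inf
    (inv_bot.pre ((hS.comp eqv_pull_inl).sub (hP.comp eqv_pull_inr)))

omit [Group G] [MulAction G Y] [MulAction G Z] [MulAction G U] in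
theorem cut_fp {S : L2 Y →L[ℂ] L2 Z} {P : L2 U →L[ℂ] L2 Z} (hS : FinRows S) (hP : FinRows P)
    {N : Submodule ℂ (L2 Y)} {M : Submodule ℂ (L2 U)} (hN : Cut N) (hM : Cut M) :
    Cut (fp S P N M) :=
  ((hN.pre finRows_pl).inf (hM.pre finRows_pr)).inf
    (cut_bot.pre ((hS.comp finRows_pl).sub (hP.comp finRows_pr)))

/-- The first projection of a fibre product is dense. -/
theorem mem_cl_fp (hY : Free G Y) (hZ : Free G Z) (hU : Free G U)
    (cY : Cofin G (Set.univ : Set Y)) (cU : Cofin G (Set.univ : Set U))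
    {S : L2 Y →L[ℂ] L2 Z} {P : L2 U →L[ℂ] L2 Z} (hS : Eqv G S) (hP : Eqv G P)
    {N : Submodule ℂ (L2 Y)} {M : Submodule ℂ (L2 U)} (hN : Cls N) (hNi : Inv G N) (hM : Cls M)
    (hMi : Inv G M) (h : ∀ n ∈ N, S n ∈ cl (img P M)) : N ≤ cl (img pl (fp S P N M)) := by
  have h1 := le_cl_sup_ker (free_sum hY hU) hZ
    ((hS.comp eqv_pull_inl).sub (hP.comp eqv_pull_inr))
    (A := pre pl N ⊓ pre pr M) (M := pre pl ⊥ ⊓ pre pr M) ((hN.pre _).inf (hM.pre _))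
    ((hNi.pre eqv_pull_inl).inf (hMi.pre eqv_pull_inr)) (edim_ne_top (cofin_sum cY cU) _)
    (inf_le_inf_right _ (Submodule.comap_mono bot_le))
    ((inv_bot.pre eqv_pull_inl).inf (hMi.pre eqv_pull_inr)) (fun f hf => by
      have h2 : cl (img P M) ≤ cl (img (S ∘L pl - P ∘L pr) (pre pl ⊥ ⊓ pre pr M)) := by
        refine cl_img_le (cls_cl _) fun u hu => le_cl _ ⟨mk2 0 (-u), ⟨?_, ?_⟩, ?_⟩
        · exact pl_mk2 _ _
        · change pr _ ∈ M
          rw [pr_mk2]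
          exact M.neg_mem hu
        · change S (pl _) - P (pr _) = _
          rw [pl_mk2, pr_mk2, map_zero, map_neg, zero_sub, neg_neg]
      exact Submodule.sub_mem _ (h2 (h _ hf.1)) (h2 (mem_cl_img P hf.2)))
  intro n hn
  have h3 : mk2 n (0 : L2 U) ∈ pre pl N ⊓ pre pr M := by
    constructor
    · change pl _ ∈ N
      rwa [pl_mk2]
    · change pr _ ∈ M
      rw [pr_mk2]
      exact M.zero_mem
  rw [← pl_mk2 n (0 : L2 U)]
  refine map_mem_cl (cls_cl _) (fun g hg => ?_) (h1 h3)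
  obtain ⟨a, ha, b, hb, rfl⟩ := Submodule.mem_sup.1 hg
  rw [map_add, show pl a = 0 from ha.1, zero_add]
  exact mem_cl_img _ hb

end Fp

section Fibres

variable {G : Type u} {X Z : Type*} [Group G] [MulAction G X] [MulAction G Z]

theorem rat_of_fibres (hZ : Free G Z) {κ : Z → X} (hκ : ∀ (a : G) (z : Z), κ (a • z) = a • κ z)
    (A : Subgroup G) {F : Submodule ℂ (L2 Z)} (hc : Cls F) (hi : Inv A F) (hs : Split κ F)
    {S : Set X} (hS : ∀ (a : A), ∀ x ∈ S, a • x ∈ S) (hcof : Cofin A (κ ⁻¹' S))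
    (hle : ∀ x ∈ S, stabilizer G x ≤ A)
    (hr : ∀ x ∈ S, Rat (stabilizer G x) (F ⊓ supp (κ ⁻¹' {x}))) :
    Rat A (F ⊓ supp (κ ⁻¹' S)) := by
  obtain ⟨R, hR, -, hU⟩ := exists_reps (H := A) (fun a z => hκ a z) hS hcof
  rw [hU]
  refine rat_biUnion (free_subgroup hZ A) R _ hc
    (fun x _ f hf => hs.res_preimage hc _ hf) (fun x hx => ?_)
  exact Rat.orbit (Subgroup.inclusion (hle x (hR x hx))) (free_subgroup hZ A)
    (Subgroup.inclusion_injective _) (fun _ _ => rfl) (fun a z => hκ a z) x hc hi hs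
    (hr x (hR x hx))

/-- Finitely many orbits of equations, each living over one point. -/
theorem exists_split_eqs (hG : SAC G) (hZ : Free G Z) (hc : Cofin G (Set.univ : Set Z))
    {κ : Z → X} (hκ : ∀ (a : G) (z : Z), κ (a • z) = a • κ z) {N : Submodule ℂ (L2 Z)}
    (hi : Inv G N) (hcut : Cut N) (hs : Split κ N) :
    ∃ s : Set (L2 Z), s.Finite ∧ (∀ a ∈ s, FinS a ∧ ∃ x, a ∈ supp (κ ⁻¹' {x})) ∧
      N = sol G (fun a : s => a.1) := by
  obtain ⟨Φ, h1, h2, h3⟩ := exists_finite_eqs hG hZ hc hi hcut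
  refine ⟨⋃ a ∈ Φ, (fun z => res (κ ⁻¹' {κ z}) a) '' {z | a z ≠ 0},
    h1.biUnion fun a ha => Set.Finite.image _ (h2 a ha), ?_, ?_⟩
  · intro b hb
    obtain ⟨a, ha, z, -, rfl⟩ := Set.mem_iUnion₂.1 hb
    exact ⟨finCols_res _ _ (h2 a ha), κ z, res_mem_supp _ _⟩
  · ext f
    rw [mem_sol]
    constructor
    · rintro hf g ⟨b, hb⟩
      obtain ⟨a, ha, z, -, rfl⟩ := Set.mem_iUnion₂.1 hb
      change ⟪act g (res _ a), f⟫_ℂ = 0
      rw [act_res_fibre hκ, inner_res_left]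
      exact (h3 _).1 (hs _ f hf) g a ha
    · intro hf
      refine (h3 f).2 fun g a ha => ?_
      have h4 : a ∈ perp (fun _ : Unit => act g⁻¹ f) := by
        refine mem_of_res (κ := κ) (cls_perp _) fun x _ => ?_
        rw [inner_eq_zero_symm, ← inner_act_left]
        by_cases hx : ∃ z, a z ≠ 0 ∧ κ z = x
        · obtain ⟨z, hz, rfl⟩ := hx
          exact hf g ⟨_, Set.mem_biUnion ha ⟨z, hz, rfl⟩⟩
        · rw [res_eq_zero (T := (κ ⁻¹' {x})ᶜ) (fun z hz => by_contra fun h =>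
            hx ⟨z, h, not_not.1 hz⟩) fun _ h h' => h' h, map_zero, inner_zero_left]
      rw [inner_act_left, inner_eq_zero_symm]
      exact h4 ()

end Fibres

section Res

/-- Restrictions of rational subspaces to a fibre are rational over its stabiliser. -/
def RES {C A : Type u} [Group C] [Group A] (ι : C →* A) : Prop :=
  ∀ (Z X : Type u) [MulAction A Z] [MulAction C Z] [MulAction A X] (κ : Z → X) (x₀ : X),
    Free A Z → (∀ (c : C) (z : Z), ι c • z = c • z) → (∀ (a : A) (z : Z), κ (a • z) = a • κ z) →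
    stabilizer A x₀ = ι.range → Cofin C (κ ⁻¹' {x₀}) →
    ∀ W : Submodule ℂ (L2 Z), Rat A W → Rat C (cl (img (res (κ ⁻¹' {x₀})) W))

theorem exists_ind {C A Z X : Type*} [Group C] [Group A] [MulAction A Z] [MulAction C Z]
    [MulAction A X] (ι : C →* A) (hι : ∀ (c : C) (z : Z), ι c • z = c • z) {κ : Z → X}
    (hκ : ∀ (a : A) (z : Z), κ (a • z) = a • κ z) {x₀ : X} (hx : stabilizer A x₀ = ι.range)
    {F : Submodule ℂ (L2 Z)} (hc : Cls F) (hi : Inv C F) (hF : F ≤ supp (κ ⁻¹' {x₀})) :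
    ∃ U : Submodule ℂ (L2 Z), Cls U ∧ Inv A U ∧ Split κ U ∧ U ⊓ supp (κ ⁻¹' {x₀}) = F ∧
      ∀ f, f ∈ U ↔ ∀ a : A, res (κ ⁻¹' {x₀}) (act a f) ∈ F := by
  have hm : ∀ f, f ∈ (⨅ a : A, pre (res (κ ⁻¹' {x₀}) ∘L act a) F) ↔
      ∀ a : A, res (κ ⁻¹' {x₀}) (act a f) ∈ F := fun f => Submodule.mem_iInf _
  refine ⟨_, cls_iInf fun _ => hc.pre _, fun a f hf => (hm _).2 fun b => ?_,
    fun x f hf => (hm _).2 fun a => ?_, le_antisymm (fun f hf => ?_) (le_inf (fun f hf =>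
      (hm _).2 fun a => ?_) hF), hm⟩
  · rw [← act_mul]
    exact (hm f).1 hf _
  · rw [act_res_fibre hκ]
    by_cases h : x₀ = a • x
    · rw [← h, res_eq_self (res_mem_supp _ _)]
      exact (hm f).1 hf a
    · rw [res_fibre_ne h (res_mem_supp _ _)]
      exact F.zero_mem
  · have := (hm f).1 hf.1 1
    rwa [act_one, res_eq_self hf.2] at this
  · by_cases h : x₀ = a • x₀
    · obtain ⟨c, rfl⟩ := hx.le h.symm
      rw [act_hom ι hι, res_eq_self (hF (hi c f hf))]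
      exact hi c f hf
    · rw [← res_eq_self (hF hf), act_res_fibre hκ, res_fibre_ne h (res_mem_supp _ _)]
      exact F.zero_mem

theorem le_of_forall_nat {a b d : ℝ} {n₀ : ℕ} (h : ∀ n : ℕ, n₀ ≤ n → a ≤ b + d / (n + 1)) :
    a ≤ b := by
  have h1 : Tendsto (fun n : ℕ => b + d / (n + 1)) atTop (𝓝 (b + 0)) :=
    tendsto_const_nhds.add (tendsto_const_nhds.div_atTop
      (tendsto_natCast_atTop_atTop.atTop_add tendsto_const_nhds))
  rw [add_zero] at h1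
  exact ge_of_tendsto h1 (eventually_atTop.2 ⟨n₀, h⟩)

theorem res_of_tp {C A : Type u} [Group C] [Group A] {ι : C →* A} (hinj : Function.Injective ι)
    (hA : SAC A) (htp : TP ι) : RES ι := by
  classical
  intro Z X _ _ _ κ x₀ hZ hι hκ hx hcof W hW
  have hC := hA.of_injective ι hinj
  have hZC := hZ.of_hom ι hinj hι
  have hfib : ∀ (c : C), ∀ z ∈ κ ⁻¹' {x₀}, c • z ∈ κ ⁻¹' {x₀} := fun c z hz => by
    rw [Set.mem_preimage, ← hι, hκ, show κ z = x₀ from hz]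
    exact hx.ge ⟨c, rfl⟩
  set W₀ := cl (img (res (κ ⁻¹' {x₀})) W) with hW₀
  have hW₀i : Inv C W₀ := ((hW.inv.of_hom ι hι).img (eqv_res hfib)).cl
  have hW₀s : W₀ ≤ supp (κ ⁻¹' {x₀}) := cl_img_le (cls_supp _) fun g _ => res_mem_supp _ g
  obtain ⟨E, hE, hEi, hEs, hE₀, hEm⟩ := exists_ind ι hι hκ hx (cls_cl _) hW₀i hW₀s
  have hEC := hEi.of_hom ι hι
  let t : ℕ → ℝ := fun n => 1 - 1 / (n + 1)
  have ht0 : ∀ n, 0 ≤ t n := fun n => by
    have : (1 : ℝ) / (n + 1) ≤ 1 := by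
      rw [div_le_one (by positivity)]
      linarith [Nat.cast_nonneg (α := ℝ) n]
    simp only [t]
    linarith
  have ht1 : ∀ n, t n ≤ 1 := fun n => by
    have : (0 : ℝ) ≤ 1 / (n + 1) := by positivity
    simp only [t]
    linarith
  have htm : ∀ m n, m ≤ n → t m ≤ t n := fun m n h => by
    have : (1 : ℝ) / (n + 1) ≤ 1 / (m + 1) := Nat.one_div_le_one_div h
    simp only [t]
    linarith
  choose F hF using fun n => exists_isHN hC hZC hcof hE hEC (t n)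
  choose k hk using fun n => (hF n).rat.dim_int hC hZC
  have hex : ∃ m, ∃ n, k n = m := ⟨_, 0, rfl⟩
  obtain ⟨n₀, hn₀⟩ := Nat.find_spec hex
  have hst : ∀ n, n₀ ≤ n → F n = F n₀ := fun n hn =>
    eq_of_dim_le (hF n).rat.cls (hF n₀).rat.cls (hF n).rat.inv (hF n₀).rat.inv
      ((hF n₀).anti hZC hE hEC (htm _ _ hn) (hF n)) ((hF n₀).rat.edim_ne_top hZC) (by
        rw [hk, hk, hn₀]
        exact_mod_cast Nat.find_min' hex ⟨n, rfl⟩)
  have hr := (hF n₀).rat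
  have hFE : F n₀ ≤ E := by
    refine inf_eq_right.1 (eq_of_dim_le (hE.inf hr.cls) hr.cls (hEC.inf hr.inv) hr.inv inf_le_right
      (hr.edim_ne_top hZC) (le_of_forall_nat (d := dim C (F n₀)) (n₀ := n₀) fun n hn => ?_))
    have h1 := (hF n).nonneg hZC
    rw [hst n hn, psi] at h1
    simp only [t] at h1
    rw [div_eq_mul_one_div]
    linarith
  obtain ⟨U, hU, hUi, hUs, hU₀, hUm⟩ := exists_ind ι hι hκ hx hr.cls hr.inv (hF n₀).le
  have horb := inv_preimage hκ (orbit_inv (H := A) x₀)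
  have hUr : Rat A (U ⊓ supp (κ ⁻¹' orbit A x₀)) :=
    Rat.orbit ι hZ hinj hι hκ x₀ hU hUi hUs (hU₀ ▸ hr)
  have hW' := hW.img (eqv_res horb) (finCols_res _)
  have hV := hUr.sup hW'
  have key : ∀ (a : A) f, res (κ ⁻¹' {x₀}) (act a (res (κ ⁻¹' orbit A x₀) f)) =
      res (κ ⁻¹' {x₀}) (act a f) := fun a f => by
    rw [← eqv_res horb, res_res, Set.inter_eq_left.2]
    exact Set.preimage_mono (Set.singleton_subset_iff.2 (mem_orbit_self x₀))
  set V := cl (U ⊓ supp (κ ⁻¹' orbit A x₀) ⊔ cl (img (res (κ ⁻¹' orbit A x₀)) W)) with hVd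
  have hVs : V ≤ supp (κ ⁻¹' orbit A x₀) := cl_le (sup_le inf_le_right
    (cl_img_le (cls_supp _) fun g _ => res_mem_supp _ g)) (cls_supp _)
  have hVE : V ≤ E := by
    refine cl_le (sup_le (fun f hf => (hEm f).2 fun a => ?_)
      (cl_img_le hE fun g hg => (hEm _).2 fun a => ?_)) hE
    · have h1 := (hUm f).1 hf.1 a
      exact hE₀.le ⟨hFE h1, (hF n₀).le h1⟩
    · rw [key]
      exact mem_cl_img _ (hW.inv a g hg)
  have hdim : dim A V ≤ dim A (U ⊓ supp (κ ⁻¹' orbit A x₀)) := by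
    rw [dim_induce ι hZ hinj hι hκ hx hU hUi hUs, hU₀]
    obtain ⟨F', h1, h2, h3⟩ := htp Z X κ x₀ hZ hι hκ hx hcof E hE hEi hEs (t n₀) (ht0 _) (ht1 _)
      V hV hVs
    have h4 := h3.trans ((hF n₀).max F' h1 h2)
    rw [psi, psi, inf_eq_right.2 hVE, inf_eq_right.2 hFE] at h4
    have h5 : (0 : ℝ) < 1 / (n₀ + 1) := by positivity
    simp only [t] at h4
    nlinarith
  have hUV := eq_of_dim_le hUr.cls hV.cls hUr.inv hV.inv (le_sup_left.trans (le_cl _))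
    (hV.edim_ne_top hZ) hdim
  convert hr using 1
  refine le_antisymm (cl_img_le hr.cls fun g hg => ?_) fun f hf => hE₀.le ⟨hFE hf, (hF n₀).le hf⟩
  have h1 := (hUm _).1 (hUV.ge (le_cl _ (Submodule.mem_sup_right (mem_cl_img _ hg)))).1 1
  rwa [key, act_one] at h1

end Res

end Pool.Agent.P.MP_0f25e6_al.HR
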