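import Pool.Agent.P.MP_0f25e6_al.HR1

/-!
Presentations of rational families, and their localisation along a tree.
-/

set_option autoImplicit false

open scoped InnerProductSpace ENNReal Topology
open Filter MulAction

noncomputable section

namespace Pool.Agent.P.MP_0f25e6_al.HR

open HN TP

universe u

theorem finRows_one {Z : Type*} : FinRows (1 : L2 Z →L[ℂ] L2 Z) := by
  rw [FinRows, ContinuousLinearMap.adjoint_one]
  exact fun _ h => h

theorem pres_one {Z X : Type*} (γ : Z → X) : Pres γ γ (1 : L2 Z →L[ℂ] L2 Z) := fun _ _ => rfl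

theorem res_fibre_empty {Z X : Type*} {κ : Z → X} {x : X} (h : ¬∃ z, κ z = x) (f : L2 Z) :
    res (κ ⁻¹' {x}) f = 0 := by
  ext z
  exact res_fibre_neg f fun h' => h ⟨z, h'⟩

theorem res_res_of_subset {Z : Type*} {S S' : Set Z} (h : ∀ z ∈ S, z ∈ S') (f : L2 Z) :
    res S (res S' f) = res S f := by rw [res_res, Set.inter_eq_left.2 h]

section Graph

variable {G X Z : Type u} [Group G] [MulAction G X] [MulAction G Z]

/-- A family of subspaces that are rational over the stabilisers is the projection of a split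
solution space. -/
theorem exists_graph (hZ : Free G Z) (hc : Cofin G (Set.univ : Set Z)) {κ : Z → X}
    (hκ : ∀ (a : G) (z : Z), κ (a • z) = a • κ z) {W : Submodule ℂ (L2 Z)} (hW : Cls W)
    (hi : Inv G W) (hs : Split κ W) (hr : ∀ x, Rat (stabilizer G x) (W ⊓ supp (κ ⁻¹' {x}))) :
    ∃ (Y : Type u) (_ : MulAction G Y) (γ : Y → X) (N : Submodule ℂ (L2 (Z ⊕ Y))),
      Free G Y ∧ Cofin G (Set.univ : Set Y) ∧ (∀ (a : G) y, γ (a • y) = a • γ y) ∧ Cut N ∧
      Inv G N ∧ Split (Sum.elim κ γ) N ∧ cl (img pl N) = W := by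
  classical
  let Q := {q : orbitRel.Quotient G X // ∃ z, Quotient.mk _ (κ z) = q}
  have : Finite Q := by
    obtain ⟨F, hF, hF'⟩ := hc
    refine Set.Finite.to_subtype ((hF.image fun z => (Quotient.mk _ (κ z) :
      orbitRel.Quotient G X)).subset ?_)
    rintro _ ⟨z, rfl⟩
    obtain ⟨h, hh⟩ := hF' z trivial
    exact ⟨_, hh, by simp only [hκ, mk_smul]⟩
  let x : Q → X := fun q => q.1.out
  choose K hK N T hNi hNc hT hTf hWq using fun q : Q => (hr (x q)).std
  let Y := Tw G (Σ q, K q)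
  let γ : Y → X := fun y => y.y • x y.k.1
  let δ : Z ⊕ Y → X := Sum.elim κ γ
  have hγ : ∀ (a : G) y, γ (a • y) = a • γ y := fun a y => mul_smul _ _ _
  have hδ : ∀ (a : G) y, δ (a • y) = a • δ y := by
    rintro a (z | y)
    · exact hκ a z
    · exact hγ a y
  let j : ∀ q, Z ⊕ Tw (stabilizer G (x q)) (K q) → Z ⊕ Y := fun q =>
    Sum.map id fun p => ⟨p.y, ⟨q, p.k⟩⟩
  have hj : ∀ q, Function.Injective (j q) := fun q =>
    Sum.map_injective.2 ⟨Function.injective_id, fun a b h => Tw.ext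
      (Subtype.ext (congrArg Tw.y h)) (sigma_mk_injective (congrArg Tw.k h))⟩
  let Gr := fun q => fp (1 : L2 Z →L[ℂ] L2 Z) (T q) ⊤ (N q)
  let M : Submodule ℂ (L2 (Z ⊕ Y)) :=
    ⨅ r : G × Q, pre (pull (j r.2) (hj r.2) ∘L res (δ ⁻¹' {x r.2}) ∘L act r.1) (Gr r.2)
  have hM : ∀ f, f ∈ M ↔ ∀ (a : G) q, pull (j q) (hj q) (res (δ ⁻¹' {x q}) (act a f)) ∈ Gr q :=
    fun f => (Submodule.mem_iInf _).trans Prod.forall
  have hMi : Inv G M := fun a f hf => (hM _).2 fun b q => by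
    rw [← act_mul]
    exact (hM f).1 hf _ q
  have hTW : ∀ q, ∀ n ∈ N q, T q n ∈ W ⊓ supp (κ ⁻¹' {x q}) := fun q n hn =>
    (hWq q).ge (mem_cl_img _ hn)
  have hpl : Pres δ κ pl := pres_pull _ _ fun _ => rfl
  have hfib : ∀ (U : Submodule ℂ (L2 Z)), Cls U → Inv G U → ∀ f : L2 Z,
      (∀ (a : G) q, res (κ ⁻¹' {x q}) (act a f) ∈ U) → f ∈ U := by
    intro U hU hUi f hf
    refine mem_of_res (κ := κ) hU fun y => ?_
    by_cases hy : ∃ z, κ z = y
    · obtain ⟨z, rfl⟩ := hy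
      obtain ⟨h, hh⟩ := exists_smul_out (H := G) (κ z)
      have := hUi h _ (hf h⁻¹ ⟨_, z, rfl⟩)
      rwa [act_res_fibre hκ, act_act_inv, hh] at this
    · rw [res_fibre_empty hy]
      exact U.zero_mem
  refine ⟨Y, inferInstance, γ, M, free_tw free_self, cofin_tw cofin_self, hγ,
    cut_iInf fun r => (cut_fp finRows_one (finRows_of_finCols (cofin_tw cofin_self)
      (free_subgroup hZ _) (hT _) (hTf _)) cut_top (hNc _)).pre
        ((finRows_pull _ _).comp ((finRows_res _).comp (finRows_act _))), hMi,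
    fun y f hf => (hM _).2 fun a q => ?_, le_antisymm (cl_img_le hW fun f hf =>
      hfib W hW hi _ fun a q => ?_) fun w hw =>
        hfib _ (cls_cl _) (hMi.img eqv_pull_inl).cl w fun a q => ?_⟩
  · rw [act_res_fibre hδ]
    by_cases h : x q = a • y
    · rw [← h, res_eq_self (res_mem_supp _ _)]
      exact (hM f).1 hf a q
    · rw [res_fibre_ne h (res_mem_supp _ _), map_zero]
      exact Submodule.zero_mem _
  · obtain ⟨-, h1, h2⟩ := mem_fp.1 ((hM f).1 hf a q)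
    rw [← eqv_pull_inl, ← hpl]
    exact (congrArg (· ∈ W) h2).mpr (hTW q _ h1).1
  · refine (cl_img_le (cls_cl _) fun n hn => ?_ : cl (img (T q) (N q)) ≤ _)
      ((hWq q).le ⟨hs _ _ (hi a w hw), res_mem_supp _ _⟩)
    have h1 : push (j q) (hj q) (mk2 (T q n) n) ∈ supp (δ ⁻¹' {x q}) := by
      intro y hy
      by_cases h : ∃ p, j q p = y
      · obtain ⟨z | p, rfl⟩ := h
        · rw [push_apply_self, ← pull_apply Sum.inl Sum.inl_injective, pl_mk2]
          exact (hTW q n hn).2 z hy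
        · exact absurd p.y.2 hy
      · exact push_apply_not _ _ _ fun p hp => h ⟨p, hp⟩
    refine le_cl _ ⟨push (j q) (hj q) (mk2 (T q n) n), (hM _).2 fun b q' => ?_, ?_⟩
    · rw [← res_eq_self h1, act_res_fibre hδ]
      by_cases h : x q' = b • x q
      · obtain rfl : q' = q := Subtype.ext (by
          rw [← Quotient.out_eq q'.1, ← Quotient.out_eq q.1]
          exact (congrArg (Quotient.mk (orbitRel G X)) h).trans (mk_smul b _))
        have h2 : pull (j q') (hj q') (act b (push (j q') (hj q') (mk2 (T q' n) n))) =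
            act (⟨b, h.symm⟩ : stabilizer G (x q')) (mk2 (T q' n) n) := by
          ext p
          rw [pull_apply, act_apply, act_apply, ← push_apply_self (j q') (hj q')]
          rcases p with z | p <;> rfl
        have h3 := act_res_fibre hδ b (x q') (push (j q') (hj q') (mk2 (T q' n) n))
        rw [res_eq_self h1, ← h] at h3
        rw [← h, res_eq_self (res_mem_supp _ _), ← h3, h2]
        refine inv_fp eqv_one (hT q') inv_top (hNi q') _ _ (mem_fp.2 ⟨trivial, ?_, ?_⟩)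
        · rwa [pr_mk2]
        · rw [pr_mk2, pl_mk2]
          rfl
      · rw [res_fibre_ne h (res_mem_supp _ _), map_zero]
        exact Submodule.zero_mem _
    · ext z
      exact (push_apply_self (j q) (hj q) _ (Sum.inl z)).trans
        (congrArg (fun f : L2 Z => f z) (pl_mk2 (T q n) n))

end Graph

section Loc

variable {G V E Y U : Type*} [Group G] [MulAction G V] [MulAction G E] (T : TreeData G V E)

/-- The edges at a vertex. -/
def star (w : V) : Set E := {e | T.o e = w ∨ T.t e = w}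

/-- A subspace is local if membership can be tested on the stars of vertices. -/
def Loc (p : Y → E) (M : Submodule ℂ (L2 Y)) : Prop :=
  ∀ f, (∀ w, res (p ⁻¹' star T w) f ∈ cl (img (res (p ⁻¹' star T w)) M)) → f ∈ M

theorem inner_eq_zero_of_res {S : Set Y} {M : Submodule ℂ (L2 Y)} {b f : L2 Y} (hb : b ∈ supp S)
    (hM : ∀ g ∈ M, ⟪b, g⟫_ℂ = 0) (hf : res S f ∈ cl (img (res S) M)) : ⟪b, f⟫_ℂ = 0 := by
  have h : ∀ g, ⟪b, res S g⟫_ℂ = ⟪b, g⟫_ℂ := fun g => by rw [← inner_res_left, res_eq_self hb]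
  rw [← h]
  exact (cl_img_le (N := perp fun _ : Unit => b) (cls_perp _)
    fun g hg _ => (h g).trans (hM g hg)) hf ()

theorem o_ne_t (e : E) : T.o e ≠ T.t e := fun h => o_notMem_side T e (h ▸ t_mem_side T e)

/-- The part of a pair of vectors that is seen from a vertex. -/
def fold (p : Y → E) (w : V) : L2 (Y ⊕ Y) →L[ℂ] L2 Y :=
  res (p ⁻¹' {e | T.o e = w}) ∘L pl + res (p ⁻¹' {e | T.t e = w}) ∘L pr

theorem fold_apply (p : Y → E) (w : V) (F : L2 (Y ⊕ Y)) : fold T p w F =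
    res (p ⁻¹' {e | T.o e = w}) (pl F) + res (p ⁻¹' {e | T.t e = w}) (pr F) := rfl

theorem res_star (p : Y → E) (w : V) (f : L2 Y) : res (p ⁻¹' star T w) f =
    res (p ⁻¹' {e | T.o e = w}) f + res (p ⁻¹' {e | T.t e = w}) f := by
  ext y
  have := o_ne_t T (p y)
  by_cases h1 : T.o (p y) = w <;> by_cases h2 : T.t (p y) = w
  · exact absurd (h1.trans h2.symm) this
  all_goals simp [res_apply, star, h1, h2]

/-- Pairs of vectors that look like elements of `M` from every vertex. -/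
def AA (p : Y → E) (M : Submodule ℂ (L2 Y)) : Submodule ℂ (L2 (Y ⊕ Y)) :=
  ⨅ w, pre (fold T p w) (cl (img (res (p ⁻¹' star T w)) M))

theorem mem_AA {p : Y → E} {M : Submodule ℂ (L2 Y)} {F : L2 (Y ⊕ Y)} :
    F ∈ AA T p M ↔ ∀ w, fold T p w F ∈ cl (img (res (p ⁻¹' star T w)) M) := Submodule.mem_iInf _

theorem cls_AA (p : Y → E) (M : Submodule ℂ (L2 Y)) : Cls (AA T p M) :=
  cls_iInf fun _ => (cls_cl _).pre _

theorem dup_mem_AA (p : Y → E) {M : Submodule ℂ (L2 Y)} {f : L2 Y} (hf : f ∈ M) :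
    mk2 f f ∈ AA T p M := (mem_AA T).2 fun w => by
  rw [fold_apply, pl_mk2, pr_mk2, ← res_star]
  exact mem_cl_img _ hf

theorem exists_AA (p : Y → E) {M : Submodule ℂ (L2 Y)} {f : L2 Y} (hf : f ∈ M) (e : E) :
    ∃ F ∈ AA T p M, pr F - pl F = res (p ⁻¹' {e}) f := by
  refine ⟨mk2 (res (p ⁻¹' {e' | T.o e' ∈ side T e}) f) (res (p ⁻¹' {e' | T.t e' ∈ side T e}) f),
    (mem_AA T).2 fun w => ?_, ?_⟩
  · rw [fold_apply, pl_mk2, pr_mk2]
    by_cases hw : w ∈ side T e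
    · rw [res_res_of_subset, res_res_of_subset, ← res_star]
      · exact mem_cl_img _ hf
      · exact fun y (hy : T.t (p y) = w) => show T.t (p y) ∈ side T e from hy ▸ hw
      · exact fun y (hy : T.o (p y) = w) => show T.o (p y) ∈ side T e from hy ▸ hw
    · rw [res_eq_zero (res_mem_supp _ _), res_eq_zero (res_mem_supp _ _), add_zero]
      · exact Submodule.zero_mem _
      · exact fun y (hy : T.t (p y) = w) (h : T.t (p y) ∈ side T e) => hw (hy ▸ h)
      · exact fun y (hy : T.o (p y) = w) (h : T.o (p y) ∈ side T e) => hw (hy ▸ h)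
  · rw [pl_mk2, pr_mk2]
    ext y
    by_cases h : p y = e
    · simp [res_apply, h, t_mem_side, o_notMem_side]
    · have := side_iff T h
      by_cases h' : T.o (p y) ∈ side T e
      · simp [res_apply, h, h', this.1 h']
      · simp [res_apply, h, h', mt this.2 h']

theorem pl_mem_of_AA {p : Y → E} {M Q : Submodule ℂ (L2 Y)} (hQ : Cls Q) (hs : Split (T.o ∘ p) Q)
    (hM : M ≤ Q) {F : L2 (Y ⊕ Y)} (hF : F ∈ AA T p M) : pl F ∈ Q := by
  refine mem_of_res (κ := T.o ∘ p) hQ fun w => ?_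
  have h1 : res ((T.o ∘ p) ⁻¹' {w}) (pl F) = res ((T.o ∘ p) ⁻¹' {w}) (fold T p w F) := by
    ext y
    have := o_ne_t T (p y)
    by_cases h : T.o (p y) = w
    · simp [fold_apply, res_apply, h, show ¬T.t (p y) = w from fun h' => this (h.trans h'.symm)]
    · simp [res_apply, h]
  rw [h1]
  refine map_mem_cl_img hQ (fun g hg => ?_) ((mem_AA T).1 hF w)
  rw [res_res_of_subset]
  · exact hs w g (hM hg)
  · exact fun y hy => Or.inl hy

theorem pr_mem_of_AA {p : Y → E} {M Q : Submodule ℂ (L2 Y)} (hQ : Cls Q) (hs : Split (T.t ∘ p) Q)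
    (hM : M ≤ Q) {F : L2 (Y ⊕ Y)} (hF : F ∈ AA T p M) : pr F ∈ Q := by
  refine mem_of_res (κ := T.t ∘ p) hQ fun w => ?_
  have h1 : res ((T.t ∘ p) ⁻¹' {w}) (pr F) = res ((T.t ∘ p) ⁻¹' {w}) (fold T p w F) := by
    ext y
    have := o_ne_t T (p y)
    by_cases h : T.t (p y) = w
    · simp [fold_apply, res_apply, h, show ¬T.o (p y) = w from fun h' => this (h'.trans h.symm)]
    · simp [res_apply, h]
  rw [h1]
  refine map_mem_cl_img hQ (fun g hg => ?_) ((mem_AA T).1 hF w)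
  rw [res_res_of_subset]
  · exact hs w g (hM hg)
  · exact fun y hy => Or.inr hy

end Loc

section Snake

variable {G : Type u} {V E Y U : Type*} [Group G] [MulAction G V] [MulAction G E] [MulAction G Y]
  [MulAction G U] (T : TreeData G V E)

theorem star_smul (g : G) {e : E} {w : V} (h : e ∈ star T w) : g • e ∈ star T (g • w) :=
  h.imp (fun h => by rw [T.o_smul, h]) fun h => by rw [T.t_smul, h]

theorem act_res_pre {X : Type*} [MulAction G X] {p : Y → X}
    (hp : ∀ (g : G) y, p (g • y) = g • p y) (g : G) {S S' : Set X}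
    (h : ∀ x, g • x ∈ S' ↔ x ∈ S) (f : L2 Y) :
    act g (res (p ⁻¹' S) f) = res (p ⁻¹' S') (act g f) := by
  rw [act_res]
  congr 2
  ext y
  rw [Set.mem_ofPred_eq, Set.mem_preimage, Set.mem_preimage, hp, ← h, smul_inv_smul]

theorem inv_AA {p : Y → E} (hp : ∀ (g : G) y, p (g • y) = g • p y) {M : Submodule ℂ (L2 Y)}
    (hM : Inv G M) : Inv G (AA T p M) := fun g F hF => (mem_AA T).2 fun w => by
  have h1 : ∀ e, g • e ∈ {e | T.o e = w} ↔ e ∈ {e | T.o e = g⁻¹ • w} := fun e => by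
    rw [Set.mem_ofPred_eq, Set.mem_ofPred_eq, T.o_smul, eq_inv_smul_iff]
  have h2 : ∀ e, g • e ∈ {e | T.t e = w} ↔ e ∈ {e | T.t e = g⁻¹ • w} := fun e => by
    rw [Set.mem_ofPred_eq, Set.mem_ofPred_eq, T.t_smul, eq_inv_smul_iff]
  rw [fold_apply, eqv_pull_inl, eqv_pull_inr, ← act_res_pre hp g h1, ← act_res_pre hp g h2,
    ← map_add, ← fold_apply]
  refine map_mem_cl_img (cls_cl _) (fun f hf => ?_) ((mem_AA T).1 hF (g⁻¹ • w))
  rw [act_res_pre hp g (S := star T (g⁻¹ • w)) (S' := star T w) fun e => or_congr (h1 e) (h2 e)]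
  exact mem_cl_img _ (hM g f hf)

theorem snake (hY : Free G Y) (hU : Free G U) (cY : Cofin G (Set.univ : Set Y)) {p : Y → E}
    (hp : ∀ (g : G) y, p (g • y) = g • p y) {q : U → E} {D : L2 Y →L[ℂ] L2 U} (hD : Eqv G D)
    (hDp : Pres p q D) {N : Submodule ℂ (L2 Y)} (hNi : Inv G N) {L : Submodule ℂ (L2 U)}
    (hL : Loc T q L) (hNL : ∀ n ∈ N, D n ∈ L) (hLN : L ≤ cl (img D N)) (e : E) :
    cl (img (res (p ⁻¹' {e})) N) ⊓ pre D ⊥ ≤
      cl (img (pr - pl) (AA T p N ⊓ pre (D ∘L pl) ⊥ ⊓ pre (D ∘L pr) ⊥)) := by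
  have hYY := free_sum hY hY
  have hh : Eqv G (pr - pl : L2 (Y ⊕ Y) →L[ℂ] L2 Y) := eqv_pull_inr.sub eqv_pull_inl
  have h1 := cl_img_inf hYY hY hh (cls_AA T p N) (inv_AA T hp hNi)
    (edim_ne_top (cofin_sum cY cY) _) (cls_bot.pre D) (inv_bot.pre hD)
  have h2 : cl (img (res (p ⁻¹' {e})) N) ≤ cl (img (pr - pl) (AA T p N)) :=
    cl_img_le (cls_cl _) fun f hf => by
      obtain ⟨F, h3, h4⟩ := exists_AA T p hf e
      exact le_cl _ ⟨F, h3, h4⟩
  refine (inf_le_inf_right _ h2).trans (h1.ge.trans (cl_img_le (cls_cl _) fun F hF => ?_))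
  have hA : ∀ F ∈ AA T p N ⊓ pre (pr - pl) (pre D ⊥), D (pr F) = D (pl F) := fun F hF => by
    rw [← sub_eq_zero, ← map_sub]
    exact hF.2
  have h3 := le_cl_sup_ker hYY hU (hD.comp eqv_pull_inl)
    (A := AA T p N ⊓ pre (pr - pl) (pre D ⊥)) (M := img (pair 1 1) N)
    ((cls_AA T p N).inf ((cls_bot.pre D).pre _)) ((inv_AA T hp hNi).inf ((inv_bot.pre hD).pre hh))
    (edim_ne_top (cofin_sum cY cY) _) (by
      rintro _ ⟨f, hf, rfl⟩
      refine ⟨dup_mem_AA T p hf, ?_⟩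
      change D (pr (mk2 f f) - pl (mk2 f f)) = 0
      rw [pl_mk2, pr_mk2, sub_self, map_zero]) (hNi.img (eqv_pair eqv_one eqv_one))
    (fun F hF => by
      have h4 : D (pl F) ∈ L := hL _ fun w => by
        rw [res_star]
        nth_rewrite 2 [← hA F hF]
        rw [← hDp, ← hDp, ← map_add, ← fold_apply]
        refine map_mem_cl_img (cls_cl _) (fun f hf => ?_) ((mem_AA T).1 hF.1 w)
        rw [hDp]
        exact mem_cl_img _ (hNL f hf)
      refine (cl_img_le (cls_cl _) fun f hf => ?_ :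
        cl (img D N) ≤ cl (img (D ∘L pl) (img (pair 1 1) N))) (hLN h4)
      refine le_cl _ ⟨mk2 f f, ⟨f, hf, rfl⟩, ?_⟩
      change D (pl _) = _
      rw [pl_mk2])
  refine map_mem_cl (cls_cl _) (fun g hg => ?_) (h3 hF)
  obtain ⟨_, ⟨f, hf, rfl⟩, b, hb, rfl⟩ := Submodule.mem_sup.1 hg
  have h5 : (pr - pl : L2 (Y ⊕ Y) →L[ℂ] L2 Y) (mk2 f f) = 0 := by
    rw [sub_apply, pl_mk2, pr_mk2, sub_self]
  change (pr - pl : L2 (Y ⊕ Y) →L[ℂ] L2 Y) (mk2 f f + b) ∈ _
  rw [map_add, h5, zero_add]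
  exact mem_cl_img _ ⟨⟨hb.1.1, hb.2⟩, (hA b hb.1).trans hb.2⟩

end Snake

section Cover

variable {G V E Y : Type u} {X : Type*} [Group G] [MulAction G V] [MulAction G E] [MulAction G Y]

/-- Every solution space is the projection of a local one. -/
theorem exists_cover (hG : SAC G) (T : TreeData G V E) (e₀ : E) (hY : Free G Y)
    (hc : Cofin G (Set.univ : Set Y)) {γ : Y → X} {p : Y → E}
    (hp : ∀ (g : G) y, p (g • y) = g • p y) {M : Submodule ℂ (L2 Y)} (hM : Cut M) (hMi : Inv G M)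
    (hMs : Split γ M) :
    ∃ (K : Type u) (_ : Finite K) (q : Tw Y K → E) (k : Y → K) (L : Submodule ℂ (L2 (Tw Y K))),
      (∀ (g : G) u, q (g • u) = g • q u) ∧ (∀ (g : G) y, k (g • y) = k y) ∧
      (∀ y, q ⟨y, k y⟩ = p y) ∧ Cut L ∧ Inv G L ∧ Split (γ ∘ Tw.y) L ∧ Loc T q L ∧
      img (pull _ (tw_inj k)) L = M := by
  classical
  obtain ⟨Φ, hΦ, hΦf, hΦM⟩ := exists_finite_eqs hG hY hc hMi hM
  obtain ⟨c, hcc⟩ := exists_cocycle hY
  have hk : ∀ (g : G) y, (c (g • y))⁻¹ • p (g • y) = (c y)⁻¹ • p y := fun g y => by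
    rw [hcc, hp, mul_inv_rev, mul_smul, inv_smul_smul]
  let E₁ : Set E := (fun y => (c y)⁻¹ • e₀) '' (⋃ a ∈ Φ, {y | a y ≠ 0}) ∪
    Set.range fun y => (c y)⁻¹ • p y
  have hE₁ : E₁.Finite := by
    refine ((hΦ.biUnion hΦf).image _).union ?_
    obtain ⟨F, hF, hF'⟩ := hc
    refine (hF.image fun y => (c y)⁻¹ • p y).subset ?_
    rintro _ ⟨y, rfl⟩
    obtain ⟨g, hg⟩ := hF' y trivial
    exact ⟨_, hg, hk g y⟩
  obtain ⟨V₀, E₀, -, hE₀, -, hU, hend, hconn⟩ := HN.exists_subtree T (T.o e₀) (hE₁.image T.o)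
  have := (hE₀.union hE₁).fintype
  let K := (E₀ ∪ E₁ : Set E)
  let k : Y → K := fun y => ⟨(c y)⁻¹ • p y, Or.inr (Or.inr ⟨y, rfl⟩)⟩
  let q : Tw Y K → E := fun u => c u.y • (u.k : E)
  have hq : ∀ (g : G) u, q (g • u) = g • q u := fun g u => by
    simp only [q, Tw.smul_y, Tw.smul_k, hcc, mul_smul]
  have hk' : ∀ (g : G) y, k (g • y) = k y := fun g y => Subtype.ext (hk g y)
  let J : L2 Y →L[ℂ] L2 (Tw Y K) := stack fun _ : K => 1
  have hJ : ∀ f (u : Tw Y K), J f u = f u.y := fun f u => stack_apply _ f u.y u.k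
  have hJe : Eqv G J := eqv_stack fun _ => eqv_one
  let π : L2 (Tw Y K) →L[ℂ] L2 Y := pull _ (tw_inj k)
  have hπ : Eqv G π := eqv_pull _ fun g y => Tw.ext rfl (hk' g y)
  have hπJ : ∀ f, π (J f) = f := fun f => by
    ext y
    exact hJ f _
  have hpπ : Pres (γ ∘ Tw.y) γ π := pres_pull _ _ fun _ => rfl
  have hmem : ∀ F, F ∈ pre (J ∘L π - 1) ⊥ ⊓ pre π M → ∃ f ∈ M, J f = F := fun F hF =>
    ⟨π F, hF.2, mem_ker_sub.1 hF.1⟩
  refine ⟨K, inferInstance, q, k, pre (J ∘L π - 1) ⊥ ⊓ pre π M, hq, hk',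
    fun y => smul_inv_smul _ _,
    (cut_bot.pre (((finRows_of_finCols hc (free_tw hY) hJe (finCols_stack fun _ _ h => h)).comp
      (finRows_pull _ _)).sub finRows_one)).inf (hM.pre (finRows_pull _ _)),
    (inv_bot.pre ((hJe.comp hπ).sub eqv_one)).inf (hMi.pre hπ),
    (((((pres_of_apply Tw.y hJ fun _ => rfl).comp hpπ).sub (pres_one _)).split_pre
      (split_bot _)).inf (hpπ.split_pre hMs)), fun F hF => ?_,
    le_antisymm (by rintro _ ⟨F, hF, rfl⟩; exact hF.2) fun f hf => ⟨J f, ⟨mem_ker_sub.2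
      (congrArg J (hπJ f)), (congrArg (· ∈ M) (hπJ f)).mpr hf⟩, hπJ f⟩⟩
  have h1 : ∀ y (ε ε' : K) w, (ε : E) ∈ star T w → (ε' : E) ∈ star T w →
      F ⟨y, ε⟩ = F ⟨y, ε'⟩ := by
    intro y ε ε' w h h'
    have := inner_eq_zero_of_res (b := delta ⟨y, ε⟩ - delta ⟨y, ε'⟩)
      (Submodule.sub_mem _ (delta_mem_supp (star_smul T (c y) h))
        (delta_mem_supp (star_smul T (c y) h'))) (fun g hg => by
          obtain ⟨f, -, rfl⟩ := hmem g hg
          rw [inner_sub_left, inner_delta_left, inner_delta_left, hJ, hJ, sub_self]) (hF _)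
    rwa [inner_sub_left, inner_delta_left, inner_delta_left, sub_eq_zero] at this
  have h2 : J (π F) = F := by
    ext ⟨y, ε⟩
    let φ : V → ℂ := fun v => if h : ∃ ε : K, (ε : E) ∈ star T v then F ⟨y, h.choose⟩ else 0
    have h3 : ∀ (ε : K) v, (ε : E) ∈ star T v → φ v = F ⟨y, ε⟩ := fun ε v h => by
      have h' : ∃ ε : K, (ε : E) ∈ star T v := ⟨ε, h⟩
      simp only [φ, dif_pos h']
      exact h1 y _ _ v h'.choose_spec h
    have h4 := hconn φ fun e he =>
      (h3 ⟨e, Or.inl he⟩ _ (Or.inr rfl)).trans (h3 ⟨e, Or.inl he⟩ _ (Or.inl rfl)).symm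
    have h5 : ∀ ε : K, F ⟨y, ε⟩ = φ (T.o e₀) := fun ε =>
      (h3 ε _ (Or.inl rfl)).symm.trans
        (h4 _ (ε.2.elim (fun h => (hend _ h).1) fun h => hU ⟨_, h, rfl⟩))
    rw [hJ]
    exact (h5 _).trans (h5 ε).symm
  refine ⟨mem_ker_sub.2 h2, (hΦM _).2 fun g a ha => ?_⟩
  let k₀ : Y → K := fun y => if h : (c y)⁻¹ • e₀ ∈ K then ⟨_, h⟩ else k y
  have h3 : ∀ f, ⟪act g (push _ (tw_inj k₀) a), J f⟫_ℂ = ⟪act g a, f⟫_ℂ := fun f => by
    rw [inner_act_left, inner_act_left, ← hJe, inner_push_left]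
    congr 1
    ext y
    exact hJ _ _
  have h4 : push _ (tw_inj k₀) a ∈ supp (q ⁻¹' {e₀}) := by
    intro u hu
    by_cases h : ∃ y, (⟨y, k₀ y⟩ : Tw Y K) = u
    · obtain ⟨y, rfl⟩ := h
      rw [push_apply_self _ (tw_inj k₀)]
      by_contra h0
      have h5 : (c y)⁻¹ • e₀ ∈ K := Or.inr (Or.inl ⟨y, Set.mem_biUnion ha h0, rfl⟩)
      refine hu ?_
      change c y • (k₀ y : E) = e₀
      simp only [k₀, dif_pos h5, smul_inv_smul]
    · exact push_apply_not _ _ _ fun y hy => h ⟨y, hy⟩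
  change ⟪act g a, π F⟫_ℂ = 0
  rw [← h3, h2]
  refine inner_eq_zero_of_res ?_ (fun g' hg' => ?_) (hF (T.o (g • e₀)))
  · rw [← res_eq_self h4, act_res_fibre hq]
    exact supp_mono (fun u (hu : q u = g • e₀) => Or.inl (congrArg T.o hu)) (res_mem_supp _ _)
  · obtain ⟨f, hf, rfl⟩ := hmem g' hg'
    rw [h3]
    exact (hΦM f).1 hf g a ha

end Cover

end Pool.Agent.P.MP_0f25e6_al.HR
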