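import Pool.Agent.P.MP_0f25e6_al.HR2

/-!
The rational cut lemma for a group acting on two trees.
-/

set_option autoImplicit false

open scoped InnerProductSpace ENNReal Topology
open Filter MulAction

noncomputable section

namespace Pool.Agent.P.MP_0f25e6_al.HR

open HN TP

universe u

theorem split_fp {X Y Z U : Type*} {γ₁ : Y → X} {γ₂ : U → X} {γ₃ : Z → X}
    {S : L2 Y →L[ℂ] L2 Z} {P : L2 U →L[ℂ] L2 Z} (hS : Pres γ₁ γ₃ S) (hP : Pres γ₂ γ₃ P)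
    {N : Submodule ℂ (L2 Y)} {M : Submodule ℂ (L2 U)} (hN : Split γ₁ N) (hM : Split γ₂ M) :
    Split (Sum.elim γ₁ γ₂) (fp S P N M) := by
  have h1 : Pres (Sum.elim γ₁ γ₂) γ₁ pl := pres_pull _ _ fun _ => rfl
  have h2 : Pres (Sum.elim γ₁ γ₂) γ₂ pr := pres_pull _ _ fun _ => rfl
  exact ((h1.split_pre hN).inf (h2.split_pre hM)).inf
    (((hS.comp h1).sub (hP.comp h2)).split_pre (split_bot _))

theorem elim_smul {G X Y Z : Type*} [Group G] [MulAction G X] [MulAction G Y] [MulAction G Z]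
    {γ₁ : Y → X} {γ₂ : Z → X} (h1 : ∀ (g : G) y, γ₁ (g • y) = g • γ₁ y)
    (h2 : ∀ (g : G) y, γ₂ (g • y) = g • γ₂ y) (g : G) (y : Y ⊕ Z) :
    Sum.elim γ₁ γ₂ (g • y) = g • Sum.elim γ₁ γ₂ y := by
  rcases y with y | y
  · exact h1 g y
  · exact h2 g y

section Flux

variable {G V X Z₁ Z₂ : Type u} [Group G] [MulAction G V] [MulAction G X] [MulAction G Z₁]
  [MulAction G Z₂]

/-- The cut formula holds with a rational family. -/
theorem exists_flux (C : Cx G V X Z₁ Z₂) (T : TreeData G V X)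
    (hinc : ∀ e v, C.inc e v → v = T.o e ∨ v = T.t e) (hV : ∀ v : V, SAC (stabilizer G v))
    (htp : ∀ x v, v = T.o x ∨ v = T.t x →
      ∃ hle : stabilizer G x ≤ stabilizer G v, TP (Subgroup.inclusion hle))
    {N : Submodule ℂ (L2 Z₁)} (hN : Cut N) (hNi : Inv G N) (hNs : Split C.π N) :
    ∃ F : Submodule ℂ (L2 Z₂), Cls F ∧ Inv G F ∧ Split C.κ F ∧
      (∀ x, Rat (stabilizer G x) (F ⊓ supp (C.κ ⁻¹' {x}))) ∧ N ⊓ pre C.D ⊥ ≤ C.loc N F ∧
      F ≤ cl (img C.D (C.loc N F)) := by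
  have hX : ∀ x : X, SAC (stabilizer G x) := fun x =>
    (hV (T.o x)).of_injective _ (Subgroup.inclusion_injective (htp x _ (Or.inl rfl)).1)
  have htp' := fun x v (h : C.inc x v) => htp x v (hinc x v h)
  obtain ⟨L, hL, hLi, hLs, hcut⟩ := C.cut_eq T hinc hN.cls hNi hNs
  obtain ⟨k, hk⟩ := C.ker_int T hinc hV htp hN hNi hNs
  set d := dim G (⊤ : Submodule ℂ (L2 Z₂)) with hd
  obtain ⟨n, hn⟩ := exists_nat_gt d
  have hn0 : 0 < n := by exact_mod_cast (dim_nonneg _).trans_lt hn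
  choose F hF using fun j : ℕ => exists_isFam C.free₂ C.cof₂ C.κ_smul hX hL hLi ((j : ℝ) / n)
  obtain ⟨j, hj⟩ : ∃ j, k + dim G (F j) ≤ dim G (C.loc N (F j)) := by
    by_contra hcon
    push Not at hcon
    have h1 := C.loc_riemann htp' hN hNi hL hLi hLs hn0 F hF
    have h2 := fam_riemann C.free₂ C.cof₂ C.κ_smul hL hLi hLs hn0 F hF (S := Set.univ)
      (fun _ _ _ => trivial)
    simp only [Set.preimage_univ, supp_univ, inf_top_eq] at h2
    have h3 : ∀ j, dim G (C.loc N (F j)) ≤ k - 1 + dim G (F j) := by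
      intro j
      obtain ⟨a, ha⟩ := C.loc_int hV (fun x v h => (htp' x v h).1) hN hNi (hF j)
      obtain ⟨b, hb⟩ := (hF j).int C.free₂ C.cof₂ C.κ_smul hX (S := Set.univ)
        (fun _ _ _ => trivial)
      simp only [Set.preimage_univ, supp_univ, inf_top_eq] at hb
      have h4 := hcon j
      rw [ha, hb] at h4 ⊢
      have h5 : a + 1 ≤ k + b := by exact_mod_cast h4
      have h6 : (a : ℝ) + 1 ≤ k + b := by exact_mod_cast h5
      linarith
    have h4 := Finset.sum_le_sum (fun j (_ : j ∈ Finset.range n) => h3 j)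
    rw [Finset.sum_add_distrib, Finset.sum_const, Finset.card_range, nsmul_eq_mul] at h4
    have h6 := Finset.sum_range_succ' (fun j => dim G (F j)) n
    rw [Finset.sum_range_succ] at h6
    have h7 : dim G (F 0) ≤ d := dim_mono (edim_ne_top C.cof₂ _) le_top
    have h8 := dim_nonneg (H := G) (F n)
    have hn' : (0 : ℝ) ≤ n := Nat.cast_nonneg n
    rw [hk] at hcut
    nlinarith
  have c1 := C.cls_loc hN.cls (hF j).cls
  have i1 := C.inv_loc hNi (hF j).inv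
  have l1 : C.loc N (F j) ⊓ pre C.D ⊥ ≤ N ⊓ pre C.D ⊥ := inf_le_inf_right _ fun f hf =>
    mem_of_res (κ := C.π) hN.cls fun v => (mem_glue.1 hf v).1
  have l2 : cl (img C.D (C.loc N (F j))) ≤ F j := cl_img_le (hF j).cls fun f hf =>
    mem_of_hasSum (hF j).cls ((hasSum_res C.π f).mapL C.D) fun v => (mem_glue.1 hf v).2
  have d1 := dim_mono (edim_ne_top C.cof₁ _) l1
  have d2 := dim_mono (edim_ne_top C.cof₂ _) l2
  rw [dim_rank_nullity C.free₁ C.free₂ C.eqv c1 i1 (edim_ne_top C.cof₁ _), ← hk,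
    ← dim_cl (img _ _)] at hj
  refine ⟨F j, (hF j).cls, (hF j).inv, (hF j).split, fun x => ((hF j).hn x).rat, ?_,
    (eq_of_dim_le (cls_cl _) (hF j).cls (i1.img C.eqv).cl (hF j).inv l2 (edim_ne_top C.cof₂ _)
      (by linarith)).ge⟩
  rw [← eq_of_dim_le (c1.inf (cls_bot.pre _)) (hN.cls.inf (cls_bot.pre _))
    (i1.inf (inv_bot.pre C.eqv)) (hNi.inf (inv_bot.pre C.eqv)) l1 (edim_ne_top C.cof₁ _)
    (by linarith)]
  exact inf_le_left

end Flux

section Main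

variable {G V E V' E' Y : Type u} [Group G] [MulAction G V] [MulAction G E] [MulAction G V']
  [MulAction G E'] [MulAction G Y]

theorem exists_cx' (T : TreeData G V E) (v₀ : V) (hY : Free G Y)
    (hc : Cofin G (Set.univ : Set Y)) {B : Set Y} (hB : B.Finite) :
    ∃ (K₁ K₂ : Type u) (C : Cx G V E (Tw Y K₁) (Tw Y K₂))
      (Do Dt : L2 (Tw Y K₁) →L[ℂ] L2 (Tw Y K₂)) (J : L2 Y →L[ℂ] L2 (Tw Y K₁)) (k₁ : K₁)
      (k₀ : Y → K₁), (∀ e v, C.inc e v → v = T.o e ∨ v = T.t e) ∧ C.D = Dt - Do ∧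
      Pres C.π (T.o ∘ C.κ) Do ∧ Pres C.π (T.t ∘ C.κ) Dt ∧ Pres Tw.y Tw.y C.D ∧
      Eqv G Do ∧ Eqv G Dt ∧ FinCols Do ∧ FinCols Dt ∧ (∀ f u, J f u = f u.y) ∧ Eqv G J ∧
      (∀ f, C.D (J f) = 0) ∧ (∀ F, C.D F = 0 → J (pull _ (tw_inj fun _ => k₁) F) = F) ∧
      ∀ y ∈ B, C.π ⟨y, k₀ y⟩ = v₀ := by
  classical
  obtain ⟨c, hcc⟩ := exists_cocycle hY
  obtain ⟨V₀, E₀, hV₀, hE₀, hv₀, hU, hend, hconn⟩ :=
    HN.exists_subtree T v₀ (hB.image (fun y => (c y)⁻¹ • v₀))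
  have := hV₀.fintype
  have := hE₀.fintype
  let σo : E₀ → V₀ := fun ε => ⟨T.o ε, (hend ε ε.2).1⟩
  let σt : E₀ → V₀ := fun ε => ⟨T.t ε, (hend ε ε.2).2⟩
  let S : (E₀ → V₀) → L2 (Tw Y V₀) →L[ℂ] L2 (Tw Y E₀) := fun σ =>
    stack fun ε : E₀ => pull _ (tw_inj fun _ => σ ε)
  have hS : ∀ σ f (u : Tw Y E₀), S σ f u = f ⟨u.y, σ u.k⟩ := fun σ f u => stack_apply _ f u.y u.k
  have hSe : ∀ σ, Eqv G (S σ) := fun σ => eqv_stack fun ε => eqv_pull _ fun _ _ => rfl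
  have hSf : ∀ σ, FinCols (S σ) := fun σ => finCols_stack fun ε => finCols_pull _ _
  have hSy : ∀ σ, Pres Tw.y Tw.y (S σ) := fun σ => pres_of_apply _ (hS σ) fun _ => rfl
  have hD : ∀ f (u : Tw Y E₀), (S σt - S σo) f u = f ⟨u.y, σt u.k⟩ - f ⟨u.y, σo u.k⟩ :=
    fun f u => by rw [sub_apply, lp.coeFn_sub, Pi.sub_apply, hS, hS]
  let C : Cx G V E (Tw Y V₀) (Tw Y E₀) :=
    { π := fun p => c p.y • (p.k : V)
      κ := fun p => c p.y • (p.k : E)
      inc := fun e v => v = T.o e ∨ v = T.t e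
      D := S σt - S σo
      π_smul := fun g p => by simp only [Tw.smul_y, Tw.smul_k, hcc, mul_smul]
      κ_smul := fun g p => by simp only [Tw.smul_y, Tw.smul_k, hcc, mul_smul]
      inc_smul := fun g e v h => by
        rw [T.o_smul, T.t_smul]
        exact h.imp (congrArg _) (congrArg _)
      inc_fin := fun e => (Set.toFinite {T.o e, T.t e}).subset (fun v hv => hv)
      free₁ := free_tw hY
      free₂ := free_tw hY
      cof₁ := cofin_tw hc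
      cof₂ := cofin_tw hc
      eqv := (hSe _).sub (hSe _)
      cols := (hSf _).sub (hSf _)
      near := fun v f hf p hp => by
        simp only [Set.mem_preimage, Set.mem_ofPred_eq, not_or, T.o_smul, T.t_smul] at hp
        rw [hD, hf _ (fun h => hp.2 (Eq.symm h)), hf _ (fun h => hp.1 (Eq.symm h)), sub_self] }
  let J : L2 Y →L[ℂ] L2 (Tw Y V₀) := stack (fun _ : V₀ => (1 : L2 Y →L[ℂ] L2 Y))
  have hJ : ∀ f (u : Tw Y V₀), J f u = f u.y := fun f u => stack_apply _ f u.y u.k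
  let k₀ : Y → V₀ := fun y => if h : (c y)⁻¹ • v₀ ∈ V₀ then ⟨_, h⟩ else ⟨v₀, hv₀⟩
  refine ⟨V₀, E₀, C, S σo, S σt, J, ⟨v₀, hv₀⟩, k₀, fun e v h => h, rfl,
    pres_of_apply _ (hS _) fun u => (T.o_smul _ _).symm,
    pres_of_apply _ (hS _) fun u => (T.t_smul _ _).symm, (hSy _).sub (hSy _), hSe _, hSe _,
    hSf _, hSf _, hJ, eqv_stack fun _ => eqv_one, fun f => ?_, fun F hF => ?_, fun y hy => ?_⟩
  · ext u
    exact (hD _ u).trans (by rw [hJ, hJ, sub_self]; rfl)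
  · ext ⟨y, u⟩
    rw [hJ, pull_apply]
    have h1 := hconn (fun v => if h : v ∈ V₀ then F ⟨y, ⟨v, h⟩⟩ else 0) (fun e he => by
      have h2 := hD F ⟨y, ⟨e, he⟩⟩
      have h3 : (S σt - S σo) F = 0 := hF
      rw [h3] at h2
      simp only [dif_pos (hend e he).1, dif_pos (hend e he).2]
      exact sub_eq_zero.1 h2.symm) u u.2
    simp only [dif_pos u.2, dif_pos hv₀] at h1
    exact h1.symm
  · have h1 : (c y)⁻¹ • v₀ ∈ V₀ := hU ⟨y, hy, rfl⟩
    change c y • (k₀ y : V) = v₀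
    simp only [k₀, dif_pos h1, smul_inv_smul]

theorem rat_res (hY : Free G Y) (hc : Cofin G (Set.univ : Set Y)) {π : Y → V}
    (hπ : ∀ (g : G) y, π (g • y) = g • π y) {p : Y → E'} (hp : ∀ (g : G) y, p (g • y) = g • p y)
    (hV : ∀ v : V, SAC (stabilizer G v)) (e' : E')
    (hb : ∀ (v : V) (h : stabilizer G (v, e') ≤ stabilizer G v), TP (Subgroup.inclusion h))
    {N : Submodule ℂ (L2 Y)} (hN : Cut N) (hNi : Inv G N) (hNs : Split π N) :
    Rat (stabilizer G e') (cl (img (res (p ⁻¹' {e'})) N)) := by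
  let κ : Y → V × E' := fun y => (π y, p y)
  have hκ : ∀ (g : G) y, κ (g • y) = g • κ y := fun g y => Prod.ext (hπ g y) (hp g y)
  have h1 : ∀ v f, res (κ ⁻¹' {(v, e')}) f = res (p ⁻¹' {e'}) (res (π ⁻¹' {v}) f) := by
    intro v f
    rw [res_res]
    congr 2
    ext y
    simp [κ, and_comm]
  have h2 : ∀ v f, res (κ ⁻¹' {(v, e')}) (res (p ⁻¹' {e'}) f) = res (κ ⁻¹' {(v, e')}) f :=
    fun v f => res_res_of_subset (fun y hy => congrArg Prod.snd hy) f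
  have h3 : cl (img (res (p ⁻¹' {e'})) N) ≤ supp (κ ⁻¹' {x | x.2 = e'}) :=
    cl_img_le (cls_supp _) fun g _ => res_mem_supp _ g
  rw [← inf_eq_left.2 h3]
  refine rat_of_fibres hY hκ (stabilizer G e') (cls_cl _)
    ((hNi.subgroup _).img (eqv_res (fibre_inv hp e'))).cl ?_
    (fun a x hx => (congrArg ((a : G) • ·) hx).trans a.2)
    (cofin_fibre hp hc e') (fun x hx g hg => hx ▸ congrArg Prod.snd hg) ?_
  · rintro ⟨v, e⟩ f hf
    by_cases he : e = e'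
    · subst he
      refine map_mem_cl_img (cls_cl _) (fun g hg => ?_) hf
      rw [h2, h1]
      exact mem_cl_img _ (hNs v g hg)
    · rw [res_eq_zero (h3 hf)]
      · exact Submodule.zero_mem _
      · exact fun y hy hy' => he ((congrArg Prod.snd hy).symm.trans hy')
  · rintro ⟨v, e⟩ (rfl : e = e')
    have hle : stabilizer G (v, e) ≤ stabilizer G v := fun g hg => congrArg Prod.fst hg
    have h4 := res_of_tp (Subgroup.inclusion_injective hle) (hV v) (hb v hle) Y (V × E') κ (v, e)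
      (free_subgroup hY _) (fun _ _ => rfl) (fun a z => hκ a z)
      (by rw [Subgroup.inclusion_range]; rfl) (cofin_fibre hκ hc _) _
      ((rat_supp (free_subgroup hY _) (fibre_inv hπ v) (cofin_fibre hπ hc v)).inf_cut
        (free_subgroup hY _) hN (hNi.subgroup _))
    convert h4 using 1
    refine le_antisymm (fun f hf => ?_) (cl_img_le ((cls_cl _).inf (cls_supp _)) fun g hg =>
      ⟨?_, res_mem_supp _ _⟩)
    · rw [← res_eq_self hf.2]
      refine map_mem_cl_img (cls_cl _) (fun g hg => ?_) hf.1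
      rw [h2, ← res_res_of_subset (S := κ ⁻¹' {(v, e)}) (S' := π ⁻¹' {v})
        fun y hy => congrArg Prod.fst hy]
      exact mem_cl_img _ ⟨res_mem_supp _ _, hNs v g hg⟩
    · rw [h1]
      exact mem_cl_img _ (hNs v g hg.2)

/-- The rational cut lemma. -/
theorem rational_cut (T : TreeData G V E) (T' : TreeData G V' E')
    (hV : ∀ v : V, SAC (stabilizer G v))
    (ho : ∀ e (h : stabilizer G e ≤ stabilizer G (T.o e)), TP (Subgroup.inclusion h))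
    (ht : ∀ e (h : stabilizer G e ≤ stabilizer G (T.t e)), TP (Subgroup.inclusion h)) (e' : E')
    (hb : ∀ (v : V) (h : stabilizer G (v, e') ≤ stabilizer G v), TP (Subgroup.inclusion h))
    (hY : Free G Y) (hc : Cofin G (Set.univ : Set Y)) {p : Y → E'}
    (hp : ∀ (g : G) y, p (g • y) = g • p y) {Mo Mt : Submodule ℂ (L2 Y)} (co : Cut Mo)
    (io : Inv G Mo) (so : Split (T'.o ∘ p) Mo) (ct : Cut Mt) (it : Inv G Mt)
    (st : Split (T'.t ∘ p) Mt) :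
    ∃ F, Rat (stabilizer G e') F ∧ (∀ m ∈ Mo ⊓ Mt, res (p ⁻¹' {e'}) m ∈ F) ∧
      F ≤ cl (Mo ⊔ Mt) ∧ F ≤ supp (p ⁻¹' {e'}) := by
  have hG : SAC G := sac_of_tree T hV ho ht
  obtain ⟨Φo, a1, a2, rfl⟩ := exists_split_eqs hG hY hc
    (fun g y => (congrArg T'.o (hp g y)).trans (T'.o_smul _ _)) io co so
  obtain ⟨Φt, b1, b2, rfl⟩ := exists_split_eqs hG hY hc
    (fun g y => (congrArg T'.t (hp g y)).trans (T'.t_smul _ _)) it ct st
  obtain ⟨v₀⟩ := T.ne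
  obtain ⟨K₁, K₂, C, Do, Dt, J, k₁, k₀, hinc, hD, hDo, hDt, hDy, eo, et, fo, ft, hJ, eJ, hDJ, hJR,
    hk₀⟩ := exists_cx' T v₀ hY hc (B := ⋃ a ∈ Φo ∪ Φt, {y | a y ≠ 0})
      ((a1.union b1).biUnion fun a ha => ha.elim (fun h => (a2 a h).1) fun h => (b2 a h).1)
  let R : L2 (Tw Y K₁) →L[ℂ] L2 Y := pull _ (tw_inj fun _ => k₁)
  have hRJ : ∀ f, R (J f) = f := fun f => by
    ext y
    exact hJ f _
  let S : Set (L2 Y) → Submodule ℂ (L2 (Tw Y K₁)) := fun Φ =>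
    sol G fun a : Φ => push _ (tw_inj k₀) a.1
  have hSJ : ∀ Φ f, J f ∈ S Φ ↔ f ∈ sol G fun a : Φ => a.1 := fun Φ f => by
    rw [mem_sol, mem_sol]
    refine forall₂_congr fun g a => ?_
    rw [inner_act_left, inner_act_left, ← eJ, inner_push_left,
      show pull _ (tw_inj k₀) (J (act g⁻¹ f)) = act g⁻¹ f from lp.ext (funext fun y => hJ _ _)]
  have hpush : ∀ (a : L2 Y) (A : Set (Tw Y K₁)), (∀ y, a y ≠ 0 → ⟨y, k₀ y⟩ ∈ A) →
      push _ (tw_inj k₀) a ∈ supp A := by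
    intro a A h u hu
    by_cases h' : ∃ y, (⟨y, k₀ y⟩ : Tw Y K₁) = u
    · obtain ⟨y, rfl⟩ := h'
      rw [push_apply_self _ (tw_inj k₀)]
      exact by_contra fun h0 => hu (h y h0)
    · exact push_apply_not _ _ _ fun y hy => h' ⟨y, hy⟩
  have hSs : ∀ Φ, Φ ⊆ Φo ∪ Φt → Split C.π (S Φ) := fun Φ h => split_sol C.π_smul fun a =>
    ⟨v₀, hpush _ _ fun y hy => hk₀ y (Set.mem_biUnion (h a.2) hy)⟩
  have co' : Cut (S Φo) := cut_sol fun a => finCols_push _ _ _ (a2 a.1 a.2).1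
  have ct' : Cut (S Φt) := cut_sol fun a => finCols_push _ _ _ (b2 a.1 a.2).1
  set N := S Φo ⊓ S Φt with hN
  have cN : Cut N := co'.inf ct'
  have iN : Inv G N := (inv_sol _).inf (inv_sol _)
  have sN : Split C.π N := (hSs _ Set.subset_union_left).inf (hSs _ Set.subset_union_right)
  obtain ⟨F, cF, iF, sF, rF, hKF, hFD⟩ := exists_flux C T hinc hV (by
      rintro e v (rfl | rfl)
      · have h : stabilizer G e ≤ stabilizer G (T.o e) := fun g hg => by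
          rw [mem_stabilizer_iff, ← T.o_smul, mem_stabilizer_iff.1 hg]
        exact ⟨h, ho e h⟩
      · have h : stabilizer G e ≤ stabilizer G (T.t e) := fun g hg => by
          rw [mem_stabilizer_iff, ← T.t_smul, mem_stabilizer_iff.1 hg]
        exact ⟨h, ht e h⟩) cN iN sN
  have hloc : ∀ n ∈ C.loc N F, n ∈ N ∧ Do n ∈ F ∧ Dt n ∈ F := by
    intro n hn
    have hpos : ∀ (r : E → V) e f, res (C.κ ⁻¹' {e}) (res ((r ∘ C.κ) ⁻¹' {r e}) f) =
        res (C.κ ⁻¹' {e}) f := fun r e f => res_res_of_subset (fun z hz => congrArg r hz) f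
    have hneg : ∀ (r : E → V) e v f, r e ≠ v →
        res (C.κ ⁻¹' {e}) (res ((r ∘ C.κ) ⁻¹' {v}) f) = 0 := fun r e v f h =>
      res_eq_zero (res_mem_supp _ _) fun z hz hz' => h ((congrArg r hz).symm.trans hz')
    have h1 : ∀ e v, res (C.κ ⁻¹' {e}) (res ((T.t ∘ C.κ) ⁻¹' {v}) (Dt n)) -
        res (C.κ ⁻¹' {e}) (res ((T.o ∘ C.κ) ⁻¹' {v}) (Do n)) ∈ F := fun e v => by
      rw [← hDo, ← hDt, ← map_sub, ← sub_apply, ← hD]
      exact sF e _ (mem_glue.1 hn v).2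
    refine ⟨mem_of_res (κ := C.π) cN.cls fun v => (mem_glue.1 hn v).1,
      mem_of_res (κ := C.κ) cF fun e => ?_, mem_of_res (κ := C.κ) cF fun e => ?_⟩
    · have := h1 e (T.o e)
      rw [hneg _ _ _ _ (o_ne_t T e).symm, hpos, zero_sub] at this
      exact F.neg_mem_iff.1 this
    · have := h1 e (T.t e)
      rwa [hneg _ _ _ _ (o_ne_t T e), hpos, sub_zero] at this
  obtain ⟨Y₀, _, γ, Gr, f₀, c₀, hγ, cG, iG, sG, hGF⟩ :=
    exists_graph C.free₂ C.cof₂ C.κ_smul cF iF sF rF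
  obtain ⟨p₀, hp₀⟩ := exists_position f₀ e'
  have hpy : ∀ (K : Type u) (g : G) (u : Tw Y K), (p ∘ Tw.y) (g • u) = g • (p ∘ Tw.y) u :=
    fun K g u => hp g u.y
  obtain ⟨K, _, q, k, L, hq, hk, hqk, cL, iL, sL, lL, hLG⟩ := exists_cover hG T' e'
    (free_sum C.free₂ f₀) (cofin_sum C.cof₂ c₀) (elim_smul (hpy K₂) hp₀) cG iG sG
  have fU : Free G (Tw (Tw Y K₂ ⊕ Y₀) K) := free_tw (free_sum C.free₂ f₀)
  have cU : Cofin G (Set.univ : Set (Tw (Tw Y K₂ ⊕ Y₀) K)) := cofin_tw (cofin_sum C.cof₂ c₀)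
  let P : L2 (Tw (Tw Y K₂ ⊕ Y₀) K) →L[ℂ] L2 (Tw Y K₂) := pl ∘L pull _ (tw_inj k)
  have eP : Eqv G P := eqv_pull_inl.comp (eqv_pull _ fun g y => Tw.ext rfl (hk g y))
  have rP : FinRows P := finRows_pl.comp (finRows_pull _ _)
  have hPL : cl (img P L) = F := by
    rw [← hGF, ← hLG, img, img, img, ← Submodule.map_comp]
    rfl
  let γ' := Sum.elim C.κ γ ∘ (Tw.y : Tw (Tw Y K₂ ⊕ Y₀) K → _)
  have hγ' : ∀ (g : G) u, γ' (g • u) = g • γ' u := fun g u => elim_smul C.κ_smul hγ g u.y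
  have pP : Pres γ' C.κ P := (pres_pull _ _ fun _ => rfl).comp (pres_pull _ _ fun _ => rfl)
  have qP : Pres q (p ∘ Tw.y) P := (pres_pull _ _ fun _ => rfl).comp (pres_pull _ _ hqk)
  have ro := finRows_of_finCols C.cof₁ C.free₂ eo fo
  have rt := finRows_of_finCols C.cof₁ C.free₂ et ft
  set M := fp (Dt ∘L pl) P (fp Do P N L) L with hM
  have cM : Cut M := cut_fp (rt.comp finRows_pl) rP (cut_fp ro rP cN cL) cL
  have iM : Inv G M := inv_fp (et.comp eqv_pull_inl) eP (inv_fp eo eP iN iL) iL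
  have sM : Split (Sum.elim (Sum.elim C.π (T.o ∘ γ')) (T.t ∘ γ')) M :=
    split_fp (hDt.comp (pres_pull Sum.inl _ fun _ => rfl)) (pP.map T.t) (split_fp hDo (pP.map T.o) sN (split_of_factor cL.cls sL T.o))
    (split_of_factor cL.cls sL T.t)
  have fZ := free_sum (free_sum C.free₁ fU) fU
  have cZ := cofin_sum (cofin_sum C.cof₁ cU) cU
  let p' := Sum.elim (Sum.elim (p ∘ (Tw.y : Tw Y K₁ → Y)) q) q
  have hp' : ∀ (g : G) z, p' (g • z) = g • p' z := elim_smul (elim_smul (hpy K₁) hq) hq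
  let D' : L2 ((Tw Y K₁ ⊕ Tw (Tw Y K₂ ⊕ Y₀) K) ⊕ Tw (Tw Y K₂ ⊕ Y₀) K) →L[ℂ] _ := pr - pr ∘L pl
  have eD : Eqv G D' := eqv_pull_inr.sub (eqv_pull_inr.comp eqv_pull_inl)
  have pD : Pres p' q D' := (pres_pull _ _ fun _ => rfl).sub
    ((pres_pull _ _ fun _ => rfl).comp (pres_pull _ _ fun _ => rfl))
  have pρ : Pres p' (p ∘ Tw.y) (pl ∘L pl) :=
    (pres_pull _ _ fun _ => rfl).comp (pres_pull _ _ fun _ => rfl)
  have pR : Pres p' p (R ∘L pl ∘L pl) := (pres_pull _ _ fun _ => rfl).comp pρ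
  have hDD : ∀ f ∈ M, C.D (pl (pl f)) = P (D' f) := fun f hf => by
    obtain ⟨h1, -, h2⟩ := mem_fp.1 hf
    rw [hD, sub_apply, (mem_fp.1 h1).2.2, sub_apply, map_sub, ← h2]
    rfl
  have hML : ∀ f ∈ M, D' f ∈ L := fun f hf =>
    L.sub_mem (mem_fp.1 hf).2.1 (mem_fp.1 (mem_fp.1 hf).1).2.1
  have hLM : L ≤ cl (img D' M) := by
    have c1 := C.cls_loc cN.cls cF
    have i1 := C.inv_loc iN iF
    refine (le_cl_sup_ker fU C.free₂ eP cL.cls iL (edim_ne_top cU _)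
      (by rintro _ ⟨f, hf, rfl⟩; exact hML f hf) (iM.img eD) fun l hl => ?_).trans
      (cl_mono (sup_le le_rfl fun u hu => ⟨mk2 0 u, mem_fp.2 ⟨?_, ?_, ?_⟩, ?_⟩))
    · refine (cl_img_le (cls_cl _) fun n hn => ?_ : cl (img C.D (C.loc N F)) ≤ _)
        (hFD (hPL.le (mem_cl_img P hl)))
      refine map_mem_cl_img (cls_cl _) (fun g hg => ?_) (mem_cl_fp C.free₁ C.free₂ fU C.cof₁ cU
        eo eP c1 i1 cL.cls iL (fun n hn => hPL.ge (hloc n hn).2.1) hn)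
      refine map_mem_cl_img (T := C.D ∘L pl) (cls_cl _) (fun f hf => ?_)
        (mem_cl_fp (free_sum C.free₁ fU) C.free₂ fU (cofin_sum C.cof₁ cU) cU
          (et.comp eqv_pull_inl) eP (N := fp Do P (C.loc N F) L)
          (((c1.pre _).inf (cL.cls.pre _)).inf (cls_bot.pre _)) (inv_fp eo eP i1 iL) cL.cls iL
          (fun n hn => hPL.ge (hloc _ (mem_fp.1 hn).1).2.2) hg)
      obtain ⟨h1, h2⟩ := mem_fp.1 hf
      obtain ⟨h3, h4⟩ := mem_fp.1 h1
      have h5 : f ∈ M := mem_fp.2 ⟨mem_fp.2 ⟨(hloc _ h3).1, h4⟩, h2⟩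
      exact (congrArg (· ∈ _) (hDD f h5)).mpr (mem_cl_img P ⟨f, h5, rfl⟩)
    · rw [pl_mk2]
      exact Submodule.zero_mem _
    · rw [pr_mk2]
      exact hu.1
    · rw [pl_mk2, pr_mk2, map_zero]
      exact Eq.symm hu.2
    · change pr _ - pr (pl _) = u
      rw [pl_mk2, pr_mk2, map_zero, sub_zero]
  have hW := (rat_res fZ cZ (elim_smul (elim_smul C.π_smul fun g u =>
    (congrArg T.o (hγ' g u)).trans (T.o_smul _ _)) fun g u =>
      (congrArg T.t (hγ' g u)).trans (T.t_smul _ _)) hp' hV e' hb cM iM sM).inf_cut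
    (free_subgroup fZ _) (cut_bot.pre (finRows_pr.sub (finRows_pr.comp finRows_pl)))
    ((inv_bot.pre eD).subgroup _)
  have eR : Eqv G (R ∘L pl ∘L pl : L2 ((Tw Y K₁ ⊕ Tw (Tw Y K₂ ⊕ Y₀) K) ⊕ Tw (Tw Y K₂ ⊕ Y₀) K)
      →L[ℂ] L2 Y) := (eqv_pull _ fun _ _ => rfl).comp (eqv_pull_inl.comp eqv_pull_inl)
  refine ⟨_, hW.img (eR.subgroup _) ((finCols_pull _ _).comp ((finCols_pull _ _).comp
    (finCols_pull _ _))), fun m hm => ?_, cl_img_le (cls_cl _) fun w hw => ?_,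
    cl_img_le (cls_supp _) fun w hw => pR.mem_supp
      ((cl_img_le (cls_supp _) fun g _ => res_mem_supp _ g : cl (img _ M) ≤ _) hw.1)⟩
  · rw [← hRJ m]
    refine map_mem_cl_img (T := res (p ⁻¹' {e'}) ∘L R) (cls_cl _) (fun g hg => ?_)
      (mem_cl_fp C.free₁ C.free₂ fU C.cof₁ cU eo eP (N := N ⊓ pre C.D ⊥)
        (cN.cls.inf (cls_bot.pre _)) (iN.inf (inv_bot.pre C.eqv)) cL.cls iL
        (fun n hn => hPL.ge (hloc n (hKF hn)).2.1) ⟨⟨(hSJ _ m).2 hm.1, (hSJ _ m).2 hm.2⟩, hDJ m⟩)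
    obtain ⟨h1, h2, h3⟩ := mem_fp.1 hg
    have h4 : mk2 g (pr g) ∈ M := by
      refine mem_fp.2 ⟨?_, ?_, ?_⟩
      · rw [pl_mk2]
        exact mem_fp.2 ⟨h1.1, h2, h3⟩
      · rwa [pr_mk2]
      · rw [pl_mk2, pr_mk2, ← h3]
        have h5 : C.D (pl g) = 0 := h1.2
        rwa [hD, sub_apply, sub_eq_zero] at h5
    have h5 := pR {e'} (mk2 g (pr g))
    conv_rhs at h5 => rw [ContinuousLinearMap.comp_apply, ContinuousLinearMap.comp_apply, pl_mk2]
    refine (congrArg (· ∈ _) h5).mp (mem_cl_img _ ⟨mem_cl_img _ h4, ?_⟩)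
    change D' _ = 0
    rw [pD, show D' (mk2 g (pr g)) = 0 from ?_, map_zero]
    change pr _ - pr (pl _) = 0
    rw [pl_mk2, pr_mk2, sub_self]
  · refine map_mem_cl_img (cls_cl _) (fun Ψ hΨ => le_cl _ ?_)
      (snake T' fZ fU cZ hp' eD pD iM lL hML hLM e' hw)
    have key : ∀ (Φ : Set (L2 Y)) (r : E' → V'), (∀ (g : G) e, r (g • e) = g • r e) →
        (∀ a ∈ Φ, FinS a ∧ ∃ x, a ∈ supp ((r ∘ p) ⁻¹' {x})) → N ≤ S Φ →
        ∃ Q, Cls Q ∧ Split (r ∘ p') Q ∧ M ≤ Q ∧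
          ∀ f ∈ Q, D' f = 0 → (R ∘L pl ∘L pl) f ∈ sol G fun a : Φ => a.1 := by
      intro Φ r hr hΦ hNS
      refine ⟨pre (C.D ∘L pl ∘L pl - P ∘L D') ⊥ ⊓ pre (pl ∘L pl) (S Φ), (cls_bot.pre _).inf
        ((cut_sol fun a : Φ => finCols_push _ _ _ (hΦ a.1 a.2).1).cls.pre _),
        (((((hDy.map p).comp pρ).sub (qP.comp pD)).map r).split_pre (split_bot _)).inf
          ((pρ.map r).split_pre (split_sol (fun g u => (congrArg r (hp g u.y)).trans (hr _ _))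
            fun a => (hΦ a.1 a.2).2.imp fun x hx => hpush _ _ fun y hy =>
              by_contra fun h => hy (hx y h))),
        fun f hf => ⟨mem_ker_sub.2 (hDD f hf), hNS (mem_fp.1 (mem_fp.1 hf).1).1⟩,
        fun f hf h0 => (hSJ Φ _).1 ?_⟩
      have h1 : C.D (pl (pl f)) = P (D' f) := mem_ker_sub.1 hf.1
      rw [h0, map_zero] at h1
      exact (congrArg (· ∈ S Φ) (hJR _ h1)).mpr hf.2
    obtain ⟨Qo, c1, c2, c3, c4⟩ := key Φo T'.o T'.o_smul a2 inf_le_left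
    obtain ⟨Qt, d1, d2, d3, d4⟩ := key Φt T'.t T'.t_smul b2 inf_le_right
    rw [sub_apply, map_sub]
    exact Submodule.sub_mem _
      (Submodule.mem_sup_right (d4 _ (pr_mem_of_AA T' d1 d2 d3 hΨ.1.1) hΨ.2))
      (Submodule.mem_sup_left (c4 _ (pl_mem_of_AA T' c1 c2 c3 hΨ.1.1) hΨ.1.2))

end Main

end Pool.Agent.P.MP_0f25e6_al.HR
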