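import Pool.Agent.P.MP_0f25e6_al.HR3

/-!
Rational subspaces that are split over a subgroup are rational over that subgroup.
-/

set_option autoImplicit false

open scoped InnerProductSpace ENNReal Topology
open Filter MulAction SemidirectProduct

noncomputable section

namespace Pool.Agent.P.MP_0f25e6_al.HR

open HN TP

universe u

theorem mem_cl_img' {Y Z : Type*} {T : L2 Y →L[ℂ] L2 Z} {M : Submodule ℂ (L2 Y)} (f : L2 Y)
    (hf : f ∈ M) {g : L2 Z} (h : T f = g) : g ∈ cl (img T M) := h ▸ mem_cl_img T hf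

/-- Groups with a finite subnormal series whose quotients embed in free groups. -/
inductive PF : (G : Type u) → [Group G] → Prop
  | triv (G : Type u) [Group G] [Subsingleton G] : PF G
  | ext (G F : Type u) [Group G] [Group F] [IsFreeGroup F] (ρ : G →* F) (h : PF ρ.ker) : PF G

theorem PF.of_inj {G : Type u} [Group G] (h : PF G) :
    ∀ (H : Type u) [Group H] (i : H →* G), Function.Injective i → PF H := by
  induction h with
  | triv G =>
    intro H _ i hi
    have := hi.subsingleton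
    exact PF.triv H
  | ext G F ρ _ ih =>
    intro H _ i hi
    refine PF.ext H F (ρ.comp i) (ih _ ((i.comp (ρ.comp i).ker.subtype).codRestrict _
      fun x => x.2) fun a b hab => Subtype.ext (hi (congrArg Subtype.val hab)))

theorem PF.of_ker {G : Type u} [Group G] (h : PF G) :
    ∀ (H : Type u) [Group H] (q : H →* G), PF q.ker → PF H := by
  induction h with
  | triv G =>
    intro H _ q hq
    exact hq.of_inj H ((MonoidHom.id H).codRestrict _ fun x => Subsingleton.elim _ _)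
      fun a b hab => congrArg Subtype.val hab
  | ext G F ρ _ ih =>
    intro H _ q hq
    refine PF.ext H F (ρ.comp q) (ih _ ((q.comp (ρ.comp q).ker.subtype).codRestrict _
      fun x => x.2) (hq.of_inj _ (((ρ.comp q).ker.subtype.comp (Subgroup.subtype _)).codRestrict _
        fun x => congrArg Subtype.val x.2) fun a b hab =>
          Subtype.ext (Subtype.ext (congrArg Subtype.val hab :))))

theorem PF.ker_comp {H G A : Type u} [Group H] [Group G] [Group A] {q : H →* G} {r : G →* A}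
    (hr : PF r.ker) (hq : PF q.ker) : PF (r.comp q).ker :=
  hr.of_ker _ ((q.comp (r.comp q).ker.subtype).codRestrict _ fun x => x.2)
    (hq.of_inj _ (((r.comp q).ker.subtype.comp (Subgroup.subtype _)).codRestrict _
      fun x => congrArg Subtype.val x.2) fun _ _ hab =>
        Subtype.ext (Subtype.ext (congrArg Subtype.val hab :)))

theorem pf_ker_of_inj {H G : Type u} [Group H] [Group G] {q : H →* G}
    (hq : Function.Injective q) : PF q.ker := by
  have : Subsingleton q.ker := ⟨fun a b => Subtype.ext (hq (a.2.trans b.2.symm))⟩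
  exact PF.triv _

theorem pf_ker_right (A L : Type u) [Group A] [MulAction A L] :
    PF (rightHom : FreeGroup L ⋊[actF A L] A →* A).ker := by
  let ρ : (rightHom : FreeGroup L ⋊[actF A L] A →* A).ker →* FreeGroup L :=
    { toFun := fun g => g.1.left
      map_one' := rfl
      map_mul' := fun a b => by
        have h : a.1.right = 1 := a.2
        simp [h] }
  refine PF.ext _ _ ρ (pf_ker_of_inj fun a b h => Subtype.ext (SemidirectProduct.ext h ?_))
  exact (a.2 : a.1.right = 1).trans (b.2 : b.1.right = 1).symm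

theorem PF.sac {G : Type u} [Group G] (h : PF G) : SAC G := by
  induction h with
  | triv G => exact sac_of_subsingleton
  | ext G F ρ _ ih => exact sacx_of_free F G ρ ih

/-- The inductive hypotheses of the tree step. -/
structure Hyp {A C V E : Type u} [Group A] [Group C] [MulAction A V] [MulAction A E]
    (T : TreeData A V E) (ι : C →* A) : Prop where
  sac : ∀ (H : Type u) [Group H] (q : H →* A) (v : V), PF q.ker → (∀ h, q h • v = v) → SAC H
  edge : ∀ (H : Type u) [Group H] (q : H →* A) (v : V), PF q.ker → (∀ h, q h • v = v) →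
    ∀ (C' : Type u) [Group C'] (j : C' →* H) (e : E), Function.Injective j →
      (∀ h, q h • e = e → h ∈ j.range) → TP j
  sub : ∀ (H : Type u) [Group H] (q : H →* A) (v : V), PF q.ker → (∀ h, q h • v = v) →
    ∀ (C' : Type u) [Group C'] (j : C' →* H), (∀ c, q (j c) = 1 → c = 1) →
      (∀ c, q (j c) ∈ ι.range) → TP j

/-- Rational split subspaces have rational fibres. -/
def RI {C A : Type u} [Group C] [Group A] (ι : C →* A) : Prop :=
  ∀ (Z X : Type u) [MulAction A Z] [MulAction C Z] [MulAction A X] (κ : Z → X) (x₀ : X),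
    Free A Z → (∀ (c : C) (z : Z), ι c • z = c • z) → (∀ (a : A) (z : Z), κ (a • z) = a • κ z) →
    stabilizer A x₀ = ι.range →
    ∀ W : Submodule ℂ (L2 Z), Rat A W → Split κ W → Rat C (W ⊓ supp (κ ⁻¹' {x₀}))

section Ex

variable {A M : Type u} {Z X : Type*} [Group A] [Group M] {φ : A →* MulAut M} [MulAction A Z]

theorem cofin_ex (hc : Cofin A (Set.univ : Set Z)) :
    Cofin (M ⋊[φ] A) (Set.univ : Set (Ex φ Z)) := by
  obtain ⟨F, hF, hF'⟩ := hc
  refine ⟨(fun z => ⟨1, z⟩) '' F, hF.image _, fun p _ => ?_⟩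
  obtain ⟨a, ha⟩ := hF' p.z trivial
  exact ⟨inr a * inl p.m⁻¹, _, ha, Ex.ext (by simp) (by simp)⟩

/-- The twist of the induced set. -/
def twist (τ : Z → M) (p : Ex φ Z) : Ex φ Z := ⟨p.m * τ p.z, p.z⟩

omit [MulAction A Z] in
theorem twist_inj (τ : Z → M) : Function.Injective (twist τ : Ex φ Z → Ex φ Z) := by
  rintro ⟨a, z⟩ ⟨b, w⟩ h
  obtain rfl : z = w := congrArg Ex.z h
  exact Ex.ext (mul_right_cancel (congrArg Ex.m h)) rfl

omit [MulAction A Z] in
theorem pull_twist_twist (τ τ' : Z → M) (h : ∀ z, τ z * τ' z = 1) (f : L2 (Ex φ Z)) :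
    pull _ (twist_inj τ) (pull _ (twist_inj τ') f) = f := by
  ext p
  exact congrArg f (Ex.ext ((mul_assoc _ _ _).trans ((congrArg (p.m * ·) (h p.z)).trans
    (mul_one _))) rfl)

theorem twist_mem {κ : Z → X} (τ : X → M) {W : Submodule ℂ (L2 Z)} (hc : Cls W) (hi : Inv A W)
    (hs : Split κ W) {f : L2 (Ex φ Z)} (hf : f ∈ (baseEmb Z φ).ind W) :
    pull _ (twist_inj (τ ∘ κ)) f ∈ (baseEmb Z φ).ind W := by
  rw [mem_ind_base hi] at hf ⊢
  refine fun m => mem_of_res (κ := κ) hc fun x => ?_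
  convert hs x _ (hf (m * τ x)) using 1
  ext z
  by_cases hz : κ z = x
  · subst hz
    rw [res_fibre_pos _ rfl, res_fibre_pos _ rfl]
    rfl
  · rw [res_fibre_neg _ hz, res_fibre_neg _ hz]

theorem push_mem_ind {W : Submodule ℂ (L2 Z)} (hi : Inv A W) (m : M) {f : L2 Z} (hf : f ∈ W) :
    push _ (ins_inj m) f ∈ (baseEmb Z φ).ind W := by
  refine (mem_ind_base hi).2 fun m' => ?_
  by_cases h : m' = m
  · subst h
    rwa [pull_push]
  · convert W.zero_mem using 1
    ext z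
    exact push_apply_not _ _ _ fun y hy => h (congrArg Ex.m hy).symm

end Ex

section Core

variable {A C V E : Type u} [Group A] [Group C] [MulAction A V] [MulAction A E]
  {T : TreeData A V E} {ι : C →* A}

theorem Hyp.stab (hyp : Hyp T ι) {G : Type u} [Group G] {q : G →* A} (hq : PF q.ker)
    [MulAction G V] [MulAction G E] (hV : ∀ (g : G) (v : V), q g • v = g • v)
    (hE : ∀ (g : G) (e : E), q g • e = g • e) :
    (∀ v : V, SAC (stabilizer G v)) ∧
      ∀ (e : E) (v : V) (h : stabilizer G e ≤ stabilizer G v), TP (Subgroup.inclusion h) :=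
  ⟨fun v => hyp.sac _ (q.comp (stabilizer G v).subtype) v
    (hq.ker_comp (pf_ker_of_inj (Subgroup.subtype_injective _))) fun h => (hV _ _).trans h.2,
  fun e v h => hyp.edge _ (q.comp (stabilizer G v).subtype) v
    (hq.ker_comp (pf_ker_of_inj (Subgroup.subtype_injective _))) (fun h => (hV _ _).trans h.2)
    _ _ e (Subgroup.inclusion_injective h) fun g hg => ⟨⟨g.1, (hE _ _).symm.trans hg⟩, rfl⟩⟩

theorem Hyp.sac' (hyp : Hyp T ι) {G : Type u} [Group G] {q : G →* A} (hq : PF q.ker) : SAC G := by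
  let _ : MulAction G V := MulAction.compHom V q
  let _ : MulAction G E := MulAction.compHom E q
  obtain ⟨h1, h2⟩ := hyp.stab hq (fun _ _ => rfl) fun _ _ => rfl
  exact sac_of_tree (comap T q (fun _ _ => rfl) fun _ _ => rfl) h1 (fun e => h2 e _)
    fun e => h2 e _

theorem ri_core (hyp : Hyp T ι) (hinj : Function.Injective ι) {Γ : Type u} [Group Γ]
    {q : Γ →* A} (hq : PF q.ker) {ι' : C →* Γ} (hι' : ∀ c, q (ι' c) = ι c) {Z X Y₀ : Type u}
    [MulAction Γ Z] [MulAction C Z] [MulAction Γ X] [MulAction Γ Y₀] {κ : Z → X} {x₀ : X}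
    (hZ : Free Γ Z) (cZ : Cofin Γ (Set.univ : Set Z)) (hY₀ : Free Γ Y₀)
    (cY₀ : Cofin Γ (Set.univ : Set Y₀)) (hι : ∀ (c : C) (z : Z), ι' c • z = c • z)
    (hκ : ∀ (a : Γ) (z : Z), κ (a • z) = a • κ z) (hx : stabilizer Γ x₀ = ι'.range)
    {Gr : Submodule ℂ (L2 (Z ⊕ Y₀))} (cG : Cut Gr) (iG : Inv Γ Gr)
    (hs : Split κ (cl (img pl Gr))) : Rat C (cl (img pl Gr) ⊓ supp (κ ⁻¹' {x₀})) := by
  set W := cl (img pl Gr) with hW
  have iW : Inv Γ W := (iG.img eqv_pull_inl).cl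
  let φ := actF Γ X
  let _ : MulAction (FreeGroup X ⋊[φ] Γ) V := MulAction.compHom V (q.comp rightHom)
  let _ : MulAction (FreeGroup X ⋊[φ] Γ) E := MulAction.compHom E (q.comp rightHom)
  have hq' : PF (q.comp (rightHom : FreeGroup X ⋊[φ] Γ →* Γ)).ker := hq.ker_comp (pf_ker_right Γ X)
  obtain ⟨h1, h2⟩ := hyp.stab hq' (fun _ _ => rfl) fun _ _ => rfl
  have hst : ∀ g : FreeGroup X ⋊[φ] Γ, g • (⟨1, x₀⟩ : Ex φ X) = ⟨1, x₀⟩ → ∃ c, inr (ι' c) = g := by
    intro g hg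
    obtain ⟨c, hc⟩ := hx.le (congrArg Ex.z hg)
    refine ⟨c, SemidirectProduct.ext ?_ hc⟩
    simpa using (congrArg Ex.m hg).symm
  obtain ⟨χ₀, hχ₀⟩ := exists_position hY₀ x₀
  let χ : Z ⊕ Y₀ → X := Sum.elim κ χ₀
  have hχ : ∀ (a : Γ) y, χ (a • y) = a • χ y := elim_smul hκ hχ₀
  have fY : Free _ (Ex φ (Z ⊕ Y₀)) := free_ex (free_sum hZ hY₀)
  have cY : Cofin _ (Set.univ : Set (Ex φ (Z ⊕ Y₀))) := cofin_ex (cofin_sum cZ cY₀)
  let p₂ : Ex φ (Z ⊕ Y₀) → Ex φ X := fun y => ⟨y.m, χ y.z⟩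
  have hp₂ : ∀ (g : FreeGroup X ⋊[φ] Γ) y, p₂ (g • y) = g • p₂ y := fun g y => Ex.ext rfl (hχ _ _)
  set I := (baseEmb (Z ⊕ Y₀) φ).ind Gr with hI
  have cI : Cut I := cut_iInf fun g => cG.pre ((finRows_pull _ _).comp (finRows_act g))
  have iI : Inv (FreeGroup X ⋊[φ] Γ) I := Emb.inv_ind _ _
  have sI : Split ((exTree Γ X).o ∘ p₂) I := split_of_factor cI.cls
    ((baseEmb (Z ⊕ Y₀) φ).split_ind Gr) fun x => (⟨x.m, ⟨⟩⟩ : Ex φ PUnit.{u + 1})
  let τ : X → FreeGroup X := fun x => (FreeGroup.of x)⁻¹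
  let Θ : L2 (Ex φ (Z ⊕ Y₀)) →L[ℂ] L2 (Ex φ (Z ⊕ Y₀)) := pull _ (twist_inj (τ ∘ χ))
  have eΘ : Eqv (FreeGroup X ⋊[φ] Γ) Θ := eqv_pull _ fun g y => Ex.ext (by
    simp only [twist, Ex.smul_m, Ex.smul_z, Function.comp_apply, hχ, map_mul, map_inv, τ,
      mul_assoc]
    rfl) rfl
  have hζ : Function.Injective fun y : Ex φ Z => (⟨y.m, Sum.inl y.z⟩ : Ex φ (Z ⊕ Y₀)) :=
    fun a b h => Ex.ext (congrArg Ex.m h :) (Sum.inl_injective (congrArg Ex.z h))
  let S : L2 (Ex φ (Z ⊕ Y₀)) →L[ℂ] L2 (Ex φ Z) := pull _ hζ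
  have eS : Eqv (FreeGroup X ⋊[φ] Γ) S := eqv_pull _ fun g y => rfl
  set X' := (baseEmb Z φ).ind W with hX'
  have cX : Cls X' := Emb.cls_ind _ (cls_cl _)
  have hSI : ∀ f ∈ I, S f ∈ X' := fun f hf => (mem_ind_base iW).2 fun m =>
    mem_cl_img pl ((mem_ind_base iG).1 hf m)
  have hXI : X' ≤ cl (img S I) := fun f hf => mem_of_res (κ := Ex.m) (cls_cl _) fun m => by
    have h3 : res (Ex.m ⁻¹' {m}) f = push _ (ins_inj m) (pull _ (ins_inj m) f) := by
      rw [push_pull]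
      congr 2
      exact Set.ext fun y => ⟨fun h => ⟨y.z, Ex.ext h.symm rfl⟩, by rintro ⟨z, rfl⟩; rfl⟩
    rw [h3]
    refine map_mem_cl_img (cls_cl _) (fun g hg => mem_cl_img' _ (push_mem_ind iG m hg) ?_)
      ((mem_ind_base iW).1 hf m)
    ext ⟨m', z⟩
    by_cases h : m' = m
    · subst h
      exact (push_apply_self _ (ins_inj m') g _).trans (push_apply_self _ (ins_inj m') (pl g) _).symm
    · exact (push_apply_not _ _ _ fun y hy => h (congrArg Ex.m hy).symm).trans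
        (push_apply_not _ _ _ fun y hy => h (congrArg Ex.m hy).symm).symm
  have hSI' : ∀ f ∈ pre Θ I, S f ∈ X' := fun f hf => by
    rw [← pull_twist_twist (FreeGroup.of ∘ κ) (τ ∘ κ) (fun _ => mul_inv_cancel _) (S f)]
    exact twist_mem FreeGroup.of (cls_cl _) iW hs (hSI _ hf)
  have hXI' : X' ≤ cl (img S (pre Θ I)) := fun f hf => by
    rw [← pull_twist_twist (FreeGroup.of ∘ κ) (τ ∘ κ) (fun _ => mul_inv_cancel _) f]
    refine map_mem_cl_img (cls_cl _) (fun g hg => ?_) (hXI (twist_mem τ (cls_cl _) iW hs hf))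
    refine mem_cl_img' (pull _ (twist_inj (FreeGroup.of ∘ χ)) g) ?_ rfl
    exact (congrArg (· ∈ I) (pull_twist_twist (τ ∘ χ) (FreeGroup.of ∘ χ)
      (fun _ => inv_mul_cancel _) g)).mpr hg
  let p := Sum.elim p₂ p₂
  have pl' : Pres p p₂ pl := pres_pull _ _ fun _ => rfl
  have pr' : Pres p p₂ pr := pres_pull _ _ fun _ => rfl
  have pS : Pres p₂ (fun y => ⟨y.m, κ y.z⟩) S := pres_pull _ _ fun _ => rfl
  let Q : Submodule ℂ (L2 (Ex φ (Z ⊕ Y₀) ⊕ Ex φ (Z ⊕ Y₀))) := pre (S ∘L pl - S ∘L pr) ⊥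
  have sQ : ∀ r : Ex φ X → Ex φ PUnit.{u + 1}, Split (r ∘ p) Q := fun r =>
    (((pS.comp pl').sub (pS.comp pr')).map r).split_pre (split_bot _)
  have cQ : Cut Q := cut_bot.pre (((finRows_pull _ hζ).comp finRows_pl).sub
    ((finRows_pull _ hζ).comp finRows_pr))
  have iQ : Inv (FreeGroup X ⋊[φ] Γ) Q :=
    inv_bot.pre ((eS.comp eqv_pull_inl).sub (eS.comp eqv_pull_inr))
  have hb : ∀ (v : V) (h : stabilizer (FreeGroup X ⋊[φ] Γ) (v, (⟨1, x₀⟩ : Ex φ X)) ≤
      stabilizer (FreeGroup X ⋊[φ] Γ) v), TP (Subgroup.inclusion h) := by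
    intro v h
    refine hyp.sub _ ((q.comp rightHom).comp (stabilizer (FreeGroup X ⋊[φ] Γ) v).subtype) v
      (hq'.ker_comp (pf_ker_of_inj (Subgroup.subtype_injective _))) (fun g => g.2) _ _
      (fun g hg => ?_) fun g => ?_
    · obtain ⟨c, hc⟩ := hst g (congrArg Prod.snd g.2)
      have h3 : q g.1.right = 1 := hg
      rw [← hc, right_inr, hι', ← map_one ι] at h3
      rw [hinj h3, map_one, map_one] at hc
      exact Subtype.ext hc.symm
    · obtain ⟨c, hc⟩ := hst g (congrArg Prod.snd g.2)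
      exact ⟨c, (hι' c).symm.trans (congrArg (fun g => q g.right) hc)⟩
  have pΘ : Pres ((exTree Γ X).t ∘ p₂) ((exTree Γ X).o ∘ p₂) Θ :=
    pres_pull _ _ fun y => Ex.ext (inv_mul_cancel_right _ _) rfl
  have so : Split ((exTree Γ X).o ∘ p) (pre pl I ⊓ Q) := ((pl'.map _).split_pre sI).inf (sQ _)
  have st : Split ((exTree Γ X).t ∘ p) (pre pr (pre Θ I) ⊓ Q) :=
    ((pr'.map _).split_pre (pΘ.split_pre sI)).inf (sQ _)
  have ct : Cut (pre pr (pre Θ I) ⊓ Q) :=
    ((cI.pre (finRows_pull _ (twist_inj (τ ∘ χ)))).pre finRows_pr).inf cQ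
  obtain ⟨F, hF, hF1, hF2, hF3⟩ := rational_cut
    (comap T (q.comp rightHom) (fun _ _ => rfl) fun _ _ => rfl) (exTree Γ X) h1 (fun e => h2 e _)
    (fun e => h2 e _) ⟨1, x₀⟩ hb (free_sum fY fY) (cofin_sum cY cY) (elim_smul hp₂ hp₂)
    ((cI.pre finRows_pl).inf cQ) ((iI.pre eqv_pull_inl).inf iQ) so ct
    (((iI.pre eΘ).pre eqv_pull_inr).inf iQ) st
  let ψ : C →* stabilizer (FreeGroup X ⋊[φ] Γ) (⟨1, x₀⟩ : Ex φ X) :=
    (inr.comp ι').codRestrict _ fun c => Ex.ext (by simp) (hx.ge ⟨c, rfl⟩)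
  have : ψ.range.FiniteIndex := by
    rw [(MonoidHom.range_eq_top (f := ψ)).2 fun g => (hst g.1 g.2).imp fun c hc => Subtype.ext hc]
    infer_instance
  have hR := hF.transport ψ (fun a b h => hinj (by
      rw [← hι', ← hι']
      exact congrArg (fun g => q g.1.right) h))
    (S := pull _ (ins_inj 1) ∘L S ∘L pl) (fun c f => by
      ext z
      refine congrArg f (congrArg Sum.inl (Ex.ext (by simp [ψ]) (congrArg Sum.inl ?_)))
      change (ι' c)⁻¹ • z = c⁻¹ • z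
      rw [← hι, map_inv]) ((finCols_pull _ _).comp ((finCols_pull _ _).comp (finCols_pull _ _)))
  refine (congrArg (Rat C) ?_).mpr hR
  refine le_antisymm (fun w hw => ?_) (cl_img_le ((cls_cl _).inf (cls_supp _)) fun f hf =>
    ⟨(mem_ind_base iW).1 (map_mem_cl (T := S ∘L pl) cX (fun g hg => ?_) (hF2 hf)) 1,
      fun z hz => hF3 hf _ fun h => hz (congrArg Ex.z h)⟩)
  · rw [← res_eq_self hw.2, ← pull_push _ (ins_inj (φ := φ) 1) w]
    refine map_mem_cl_img (T := res (κ ⁻¹' {x₀}) ∘L pull _ (ins_inj 1)) (cls_cl _)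
      (fun g hg => ?_) (hXI (push_mem_ind iW 1 hw.1))
    refine map_mem_cl_img (T := res (κ ⁻¹' {x₀}) ∘L pull _ (ins_inj 1) ∘L S) (cls_cl _)
      (fun m hm => ?_) (mem_cl_fp fY (free_ex hZ) fY cY cY eS eS cI.cls iI (cI.cls.pre Θ)
        (iI.pre eΘ) (fun n hn => hXI' (hSI n hn)) hg)
    refine mem_cl_img' _ (hF1 m ⟨⟨hm.1.1, hm.2⟩, hm.1.2, hm.2⟩) ?_
    ext z
    by_cases hz : κ z = x₀
    · refine Eq.trans ?_ (res_fibre_pos _ hz).symm
      exact res_fibre_pos (κ := p) (x := ⟨1, x₀⟩) (z := Sum.inl ⟨1, Sum.inl z⟩) m (Ex.ext rfl hz)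
    · refine Eq.trans ?_ (res_fibre_neg _ hz).symm
      exact res_fibre_neg (κ := p) (x := ⟨1, x₀⟩) (z := Sum.inl ⟨1, Sum.inl z⟩) m
        fun h => hz (congrArg Ex.z h)
  · obtain ⟨a, ha, b, hb, rfl⟩ := Submodule.mem_sup.1 hg
    rw [map_add]
    exact X'.add_mem (hSI _ ha.1) ((congrArg (· ∈ X') (mem_ker_sub.1 hb.2)).mpr (hSI' _ hb.1))

theorem ri_of_hyp (hyp : Hyp T ι) (hinj : Function.Injective ι) {Γ : Type u} [Group Γ]
    {q : Γ →* A} (hq : PF q.ker) {ι' : C →* Γ} (hι' : ∀ c, q (ι' c) = ι c) : RI ι' := by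
  rintro Z X _ _ _ κ x₀ hZ hι hκ hx _ ⟨Y₀, _, hY₀, cY₀, N, P, iN, cN, eP, fP, rfl⟩ hs
  let Z₀ : SubMulAction Γ Z :=
    { carrier := {z | ∃ y, P (delta y) z ≠ 0}
      smul_mem' := by
        rintro g z ⟨y, hy⟩
        exact ⟨g • y, by rwa [← act_delta, eP, act_apply, inv_smul_smul]⟩ }
  let _ : MulAction C Z₀ := MulAction.compHom Z₀ ι'
  have hi : Function.Injective ((↑) : Z₀ → Z) := Subtype.val_injective
  have hP : ∀ n, push _ hi (pull _ hi (P n)) = P n := fun n => by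
    rw [push_pull]
    refine res_eq_self (mem_of_hasSum (cls_supp _) ((hasSum_delta n).mapL P) fun y => ?_)
    rw [map_smul]
    exact Submodule.smul_mem _ _ fun z hz => by_contra fun h => hz ⟨⟨z, y, h⟩, rfl⟩
  have ei : Eqv Γ (push _ hi) := eqv_push hi fun _ _ => rfl
  have pi : Pres κ (κ ∘ (↑)) (pull _ hi) := pres_pull _ _ fun _ => rfl
  have h1 : ∀ f ∈ cl (img pl (fp (push _ hi) P ⊤ N)), push _ hi f ∈ cl (img P N) := fun f hf =>
    map_mem_cl_img (cls_cl _) (fun g hg => by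
      rw [(mem_fp.1 hg).2.2]
      exact mem_cl_img _ (mem_fp.1 hg).2.1) hf
  have h2 : ∀ f ∈ cl (img P N), pull _ hi f ∈ cl (img pl (fp (push _ hi) P ⊤ N)) := fun f hf =>
    map_mem_cl_img (cls_cl _) (fun n hn => by
      refine mem_cl_img' (mk2 (pull _ hi (P n)) n) ?_ (pl_mk2 _ _)
      exact mem_fp.2 ⟨trivial, by rwa [pr_mk2], by rw [pl_mk2, pr_mk2, hP]⟩) hf
  have h3 : ∀ f ∈ cl (img P N), push _ hi (pull _ hi f) = f := fun f hf =>
    mem_ker_sub.1 (cl_img_le (N := pre (push _ hi ∘L pull _ hi - 1) ⊥) (cls_bot.pre _)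
      (fun n _ => mem_ker_sub.2 (hP n)) hf)
  have h4 := ri_core hyp hinj hq hι' (κ := κ ∘ ((↑) : Z₀ → Z)) (x₀ := x₀)
    (fun g z h => hZ g z (congrArg Subtype.val h)) (by
      obtain ⟨F, hF, hF'⟩ := cY₀
      refine ⟨(↑) ⁻¹' ⋃ y ∈ F, {z | P (delta y) z ≠ 0}, (hF.biUnion fun y _ =>
        fP _ (finS_delta y)).preimage hi.injOn, ?_⟩
      rintro ⟨z, y, hy⟩ -
      obtain ⟨g, hg⟩ := hF' y trivial
      refine ⟨g, Set.mem_biUnion hg ?_⟩
      change P (delta (g • y)) (g • z) ≠ 0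
      rwa [← act_delta, eP, act_apply, inv_smul_smul]) hY₀ cY₀ (fun _ _ => rfl)
    (fun a z => hκ a z) hx (cut_fp (finRows_push _ hi) (finRows_of_finCols cY₀ hZ eP fP) cut_top cN)
    (inv_fp ei eP inv_top iN) fun x f hf => by
      rw [← pull_push _ hi f, ← pi]
      exact h2 _ (hs x _ (h1 f hf))
  refine (congrArg (Rat C) ?_).mpr (h4.img (eqv_push hi fun c z => hι c z) (finCols_push _ _))
  refine le_antisymm (fun f hf => mem_cl_img' (pull _ hi f)
    (Submodule.mem_inf.2 ⟨h2 f hf.1, pi.mem_supp hf.2⟩) (h3 f hf.1))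
    (cl_img_le ((cls_cl _).inf (cls_supp _)) fun f hf => ⟨h1 f hf.1, fun z hz => ?_⟩)
  by_cases h : ∃ y : Z₀, y = z
  · obtain ⟨y, rfl⟩ := h
    exact (push_apply_self _ hi f y).trans (hf.2 y hz)
  · exact push_apply_not _ _ _ fun y hy => h ⟨y, hy⟩

end Core

end Pool.Agent.P.MP_0f25e6_al.HR
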