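import Pool.Agent.P.MP_0f25e6_al.HR4

/-!
The induction over hierarchies of actions on trees.
-/

set_option autoImplicit false

open scoped InnerProductSpace ENNReal Topology
open Filter MulAction SemidirectProduct

noncomputable section

namespace Pool.Agent.P.MP_0f25e6_al.HR

open HN TP

universe u

theorem tp_of_ri {C A : Type u} [Group C] [Group A] (ι : C →* A) (hinj : Function.Injective ι)
    (hA : ∀ (L : Type u) [MulAction A L], SAC (FreeGroup L ⋊[actF A L] A) ∧
      RI ((inr : A →* FreeGroup L ⋊[actF A L] A).comp ι)) : TP ι := by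
  classical
  intro Z X _ _ _ κ x₀ hZ hι hκ hx hcof E hEc hEi hEs t _ _ W hW hWs
  let L := Tw (orbit A x₀) ℕ
  let φ := actF A L
  have hφ : ∀ a m, φ a m = FreeGroup.map (fun l => a • l) m := fun _ _ => rfl
  have hΓ : SAC (FreeGroup L ⋊[φ] A) := (hA L).1
  have hZ' : Free _ (Ex φ Z) := free_ex hZ
  let 𝓑 := baseEmb Z φ
  let κ' : Ex φ Z → Ex φ X := fun p => ⟨p.m, κ p.z⟩
  let S : Set (Ex φ Z) := {p | κ p.z ∈ orbit A x₀}
  have hS : Cofin (FreeGroup L ⋊[φ] A) S := by
    obtain ⟨F, hF, hF'⟩ := hcof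
    refine ⟨𝓑.J '' F, hF.image _, ?_⟩
    rintro p ⟨a, ha⟩
    obtain ⟨c, hc⟩ := hF' (a⁻¹ • p.z) (by rw [Set.mem_preimage, hκ, ← ha]; simp)
    exact ⟨inr (ι c * a⁻¹) * inl p.m⁻¹, _, hc,
      Ex.ext (by simp [𝓑, baseEmb]) (by simp [𝓑, baseEmb, mul_smul, hι])⟩
  have hE'c := 𝓑.cls_ind hEc
  have hE's : Split κ' (𝓑.ind E) := split_ind_base hEi hEs
  obtain ⟨U, hU⟩ := exists_isHN hΓ hZ' hS hE'c (𝓑.inv_ind E) t
  have horb : ∀ (a : A) z, κ z ∈ orbit A x₀ → κ (a • z) ∈ orbit A x₀ := fun a z hz => by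
    rw [hκ]
    exact mem_orbit_of_mem_orbit a hz
  have hsp : ∀ (b : ℕ → ℕ) (hb : Function.Injective b) (τ : X → FreeGroup L)
      (hτ : ∀ (a : A) x, τ (a • x) = φ a (τ x)), ∃ (P : Type u) (q : Ex φ X → P), Split (q ∘ κ') U ∧
        ∀ x y, q x = q y → (x.m * (τ x.z)⁻¹)⁻¹ * (y.m * (τ y.z)⁻¹) ∈
          (FreeGroup.map fun l : L => (⟨l.y, b l.k⟩ : L)).range := by
    intro b hb τ hτ
    have h1 : Function.Injective fun l : L => (⟨l.y, b l.k⟩ : L) :=
      fun l l' h => Tw.ext (congrArg Tw.y h :) (hb (congrArg Tw.k h))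
    have h2 : ∀ a m, FreeGroup.map (fun l : L => (⟨l.y, b l.k⟩ : L)) (φ a m) =
        φ a (FreeGroup.map (fun l : L => (⟨l.y, b l.k⟩ : L)) m) := fun a m => by
      rw [hφ, hφ, FreeGroup.map.comp, FreeGroup.map.comp]
      rfl
    refine ⟨_ ⧸ (selfHom _ h2).range, fun x => (inl (x.m * (τ x.z)⁻¹) : _ ⋊[φ] A), ?_,
      fun x y h => ?_⟩
    · exact split_of_isHN (selfEmb hκ _ (FreeGroup.map_injective h1) h2 τ hτ) hZ'
        (fun g y hy => horb g.right y.z hy) hE'c (𝓑.inv_ind E) (split_of_factor hE'c hE's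
          fun x => ((inl (x.m * (τ x.z)⁻¹) : _ ⋊[φ] A) : _ ⧸ (selfHom _ h2).range))
        (down_ind_base hκ _ _ h2 τ hτ hEc hEi hEs) hU
    · rw [QuotientGroup.eq, mem_selfHom, ← map_inv, ← map_mul] at h
      exact h
  obtain ⟨P₀, q₀, a1, a2⟩ := hsp (fun n => 2 * n + 1) (fun _ _ h => by simpa using h) (fun _ => 1)
    fun a _ => (map_one _).symm
  obtain ⟨P₁, q₁, b1, b2⟩ := hsp (fun n => 2 * n + 2) (fun _ _ h => by simpa using h)
    (fun x => if h : x ∈ orbit A x₀ then FreeGroup.of ⟨⟨x, h⟩, 0⟩ else 1) fun a x => by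
      by_cases h : x ∈ orbit A x₀
      · rw [dif_pos h, dif_pos (mem_orbit_of_mem_orbit a h)]
        rfl
      · rw [dif_neg h, dif_neg fun h' => h (by simpa using mem_orbit_of_mem_orbit a⁻¹ h'), map_one]
  have hq : ∀ x y, x.z ∈ orbit A x₀ → y.z ∈ orbit A x₀ → q₀ x = q₀ y → q₁ x = q₁ y → x = y := by
    intro x y hx hy h0 h1
    obtain ⟨u, hu⟩ := a2 x y h0
    obtain ⟨w, hw⟩ := b2 x y h1
    rw [dif_pos hx, dif_pos hy] at hw
    let θ : (ℕ → Prop) → FreeGroup L →* FreeGroup L := fun R =>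
      FreeGroup.lift fun l => if R l.k then FreeGroup.of l else 1
    have h2 : ∀ (R : ℕ → Prop) (b : ℕ → ℕ), (∀ n, ¬R (b n)) →
        ∀ m, θ R (FreeGroup.map (fun l : L => (⟨l.y, b l.k⟩ : L)) m) = 1 := fun R b h m =>
      DFunLike.congr_fun (show (θ R).comp (FreeGroup.map _) = 1 from
        FreeGroup.ext_hom _ _ fun l => by simp [θ, h]) m
    have h3 := DFunLike.congr_fun (show (θ fun n => n % 2 = 1).comp
      (FreeGroup.map fun l : L => (⟨l.y, 2 * l.k + 1⟩ : L)) =
        FreeGroup.map fun l : L => (⟨l.y, 2 * l.k + 1⟩ : L) from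
      FreeGroup.ext_hom _ _ fun l => by simp [θ]) u
    simp only [inv_one, mul_one] at hu
    have h4 := h2 (fun n => n % 2 = 1) (fun n => 2 * n + 2) (fun n => by omega) w
    have h5 := h2 (fun n => n = 0) (fun n => 2 * n + 2) (fun n => by omega) w
    rw [hw, mul_inv_rev, inv_inv, mul_assoc, ← mul_assoc x.m⁻¹] at h4 h5
    rw [MonoidHom.comp_apply, hu] at h3
    rw [map_mul, map_mul, h3, map_inv] at h4
    have h6 : x.m = y.m := by simpa [θ, inv_mul_eq_one] using h4
    refine Ex.ext h6 ?_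
    have h7 : FreeGroup.of (⟨⟨x.z, hx⟩, 0⟩ : L) = FreeGroup.of ⟨⟨y.z, hy⟩, 0⟩ := by
      simpa [θ, h6, mul_inv_eq_one] using h5
    exact congrArg (fun l : L => l.y.1) (FreeGroup.of_injective h7)
  have hUs : Split κ' U := by
    intro x f hf
    by_cases hx : x.z ∈ orbit A x₀
    · have := a1 (q₀ x) _ (b1 (q₁ x) f hf)
      rw [← res_eq_self (hU.le hf), res_res, res_res] at this
      convert this using 3
      ext p
      refine ⟨fun h => ⟨⟨congrArg q₀ h, congrArg q₁ h⟩, ?_⟩,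
        fun h => hq _ _ h.2 hx h.1.1 h.1.2⟩
      rwa [← show κ' p = x from h] at hx
    · rw [res_eq_zero (hU.le hf) fun p h h' => hx (by rwa [← show κ' p = x from h])]
      exact U.zero_mem
  have hUb : Split 𝓑.π U := split_of_factor hU.rat.cls hUs fun x => (⟨x.m, ⟨⟩⟩ : Ex φ PUnit.{1})
  let _ : MulAction C (Ex φ Z) := MulAction.compHom _ ((inr : A →* FreeGroup L ⋊[φ] A).comp ι)
  have hr₀ := (hA L).2 (Ex φ Z) (Ex φ X) κ' ⟨1, x₀⟩ hZ' (fun _ _ => rfl)
    (fun g p => Ex.ext rfl (hκ _ _)) (le_antisymm (fun g hg => by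
      obtain ⟨c, hc⟩ := hx.le (congrArg Ex.z hg)
      refine ⟨c, SemidirectProduct.ext ?_ hc⟩
      simpa using (congrArg Ex.m hg).symm) (by
      rintro _ ⟨c, rfl⟩
      exact Ex.ext (by simp) (hx.ge ⟨c, rfl⟩))) U hU.rat hUs
  have hr : Rat C (pre (push 𝓑.J 𝓑.J_inj) U ⊓ supp (κ ⁻¹' {x₀})) := by
    refine (congrArg (Rat C) ?_).mpr (hr₀.img (eqv_pull 𝓑.J_inj fun c y => by
      rw [← hι, 𝓑.J_smul]; rfl) (finCols_pull _ _))
    have h1 : ∀ g ∈ supp (κ' ⁻¹' {⟨1, x₀⟩}), push 𝓑.J 𝓑.J_inj (pull 𝓑.J 𝓑.J_inj g) = g := by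
      intro g hg
      rw [push_pull]
      refine res_eq_self (supp_mono (fun p hp => ?_) hg)
      exact ⟨p.z, Ex.ext (congrArg Ex.m hp).symm rfl⟩
    refine le_antisymm (fun f hf => mem_cl_img' (push 𝓑.J 𝓑.J_inj f)
      (Submodule.mem_inf.2 ⟨hf.1, fun p hp => ?_⟩) (pull_push _ _ f))
      (cl_img_le ((hU.rat.cls.pre _).inf (cls_supp _)) fun g hg =>
        ⟨(congrArg (· ∈ U) (h1 g hg.2)).mpr hg.1, fun z hz => hg.2 _ fun h =>
          hz (congrArg Ex.z h)⟩)
    by_cases h : ∃ z, 𝓑.J z = p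
    · obtain ⟨z, rfl⟩ := h
      exact (push_apply_self _ _ f z).trans (hf.2 z fun h => hp (Ex.ext rfl h))
    · exact push_apply_not _ _ _ fun z hz => h ⟨z, hz⟩
  refine ⟨_, hr, inf_le_right, ?_⟩
  have c1 := 𝓑.psi_down hZ' hE'c (𝓑.inv_ind E) (𝓑.split_ind E) (𝓑.cls_ind hW.cls) (𝓑.inv_ind W)
    (𝓑.split_ind W) t
  have c2 := 𝓑.psi_down hZ' hE'c (𝓑.inv_ind E) (𝓑.split_ind E) hU.rat.cls hU.rat.inv hUb t
  have c3 := hU.max _ (𝓑.rat_ind hZ' hW) (𝓑.ind_le_supp hWs fun g y hy => horb _ _ hy)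
  rw [c1, c2, 𝓑.down_ind hW.inv, 𝓑.down_ind hEi] at c3
  refine c3.trans_eq ?_
  have d1 : Cls (𝓑.down U) := hU.rat.cls.pre _
  have d2 := 𝓑.inv_down hU.rat.inv
  have d3 : Split κ (𝓑.down U) := by
    intro x f hf
    change push _ _ _ ∈ U
    convert hUs ⟨1, x⟩ _ hf using 1
    ext p
    by_cases hp : ∃ z, 𝓑.J z = p
    · obtain ⟨z, rfl⟩ := hp
      rw [push_apply_self]
      by_cases hz : z ∈ κ ⁻¹' {x}
      · rw [res_apply_of_mem _ hz,
          res_apply_of_mem _ (show 𝓑.J z ∈ κ' ⁻¹' {⟨1, x⟩} from Ex.ext rfl hz)]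
        exact (push_apply_self _ _ _ _).symm
      · rw [res_apply_of_notMem _ hz, res_apply_of_notMem _
          (show 𝓑.J z ∉ κ' ⁻¹' {⟨1, x⟩} from fun h => hz (congrArg Ex.z h))]
    · rw [push_apply_not _ _ _ fun z h => hp ⟨z, h⟩, res_apply, ContinuousLinearMap.coe_coe,
        push_apply_not _ _ _ fun z h => hp ⟨z, h⟩, ite_self]
  have d4 : 𝓑.down U ≤ supp (κ ⁻¹' orbit A x₀) := fun f hf z hz =>
    (push_apply_self _ 𝓑.J_inj f z).symm.trans (hU.le hf _ hz)
  rw [psi, psi, ← inf_assoc, ← dim_induce ι hZ hinj hι hκ hx d1 d2 d3,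
    ← dim_induce ι hZ hinj hι hκ hx (hEc.inf d1) (hEi.inf d2) (split_inf hEs d3), inf_assoc,
    inf_eq_left.2 d4]

/-- The tree step for the transfer property. -/
theorem Hyp.tp {A C V E : Type u} [Group A] [Group C] [MulAction A V] [MulAction A E]
    {T : TreeData A V E} {ι : C →* A} (hyp : Hyp T ι) (hinj : Function.Injective ι) : TP ι :=
  tp_of_ri ι hinj fun L _ => ⟨hyp.sac' (pf_ker_right A L),
    ri_of_hyp hyp hinj (pf_ker_right A L) fun _ => rfl⟩

theorem PF.tp {A : Type u} [Group A] (h : PF A) : ∀ (Γ : Type u) [Group Γ] (r : Γ →* A),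
    PF r.ker → ∀ (C : Type u) [Group C] (ι : C →* Γ), (∀ c, r (ι c) = 1 → c = 1) → TP ι := by
  induction h with
  | triv A =>
    intro Γ _ r _ C _ ι hι
    have h1 : ∀ c : C, c = 1 := fun c => hι c (Subsingleton.elim _ _)
    have : Subsingleton C := ⟨fun a b => (h1 a).trans (h1 b).symm⟩
    exact tp_of_subsingleton ι
  | ext A F ρ hρ ih =>
    intro Γ _ r hr C _ ι hι
    let _ : MulAction Γ F := MulAction.compHom F (ρ.comp r)
    let _ : MulAction Γ (Tw F (IsFreeGroup.Generators F)) := MulAction.compHom _ (ρ.comp r)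
    have h1 : ∀ (H : Type u) [Group H] (q : H →* Γ) (v : F), PF q.ker → (∀ h, q h • v = v) →
        ∃ s : H →* ρ.ker, PF s.ker ∧ ∀ h, (s h : A) = r (q h) := fun H _ q v hq hv =>
      ⟨(r.comp q).codRestrict _ fun h => mul_eq_right.1 (hv h), by
        rw [MonoidHom.ker_codRestrict]
        exact hr.ker_comp hq, fun _ => rfl⟩
    have h2 : ∀ (H : Type u) [Group H] (q : H →* Γ) (v : F), PF q.ker → (∀ h, q h • v = v) →
        SAC H := fun H _ q v hq hv => by
      obtain ⟨s, hs, -⟩ := h1 H q v hq hv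
      exact (hρ.of_ker H s hs).sac
    refine Hyp.tp (T := comap (cayley (IsFreeGroup.basis F)) (ρ.comp r) (fun _ _ => rfl)
      fun _ _ => rfl) ⟨h2, fun H _ q v hq hv C' _ j e hj he => ?_,
        fun H _ q v hq hv C' _ j hj hj' => ?_⟩
      ((injective_iff_map_eq_one ι).2 fun c hc => hι c (by rw [hc, map_one]))
    · have : j.range.FiniteIndex := by
        rw [(Subgroup.eq_top_iff' _).2 fun h => he h (by
          rw [MulAction.compHom_smul_def, show (ρ.comp r) (q h) = 1 from mul_eq_right.1 (hv h),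
            one_smul])]
        infer_instance
      exact tp_of_finiteIndex j hj (h2 H q v hq hv)
    · obtain ⟨s, hs, hs'⟩ := h1 H q v hq hv
      refine ih H s hs C' j fun c hc => hj c ?_
      obtain ⟨d, hd⟩ := hj' c
      rw [← hd, hι d (by rw [hd, ← hs', hc]; rfl), map_one]

/-- The strong form of the Atiyah property that is carried through the induction. -/
def Full (A : Type u) [Group A] : Prop :=
  ∀ (Γ : Type u) [Group Γ] (r : Γ →* A), PF r.ker →
    SAC Γ ∧ ∀ (C : Type u) [Group C] (ι : C →* Γ), Function.Injective ι → TP ι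

theorem full_of_subsingleton (A : Type u) [Group A] [Subsingleton A] : Full A := by
  intro Γ _ r hr
  have h := (PF.triv A).of_ker Γ r hr
  exact ⟨h.sac, fun C _ ι hι => h.tp Γ (MonoidHom.id Γ) (pf_ker_of_inj Function.injective_id) C ι
    ((injective_iff_map_eq_one ι).1 hι)⟩

theorem Full.sac {A : Type u} [Group A] (h : Full A) : SAC A :=
  (h A (MonoidHom.id A) (pf_ker_of_inj Function.injective_id)).1

theorem full_of_tree {A V E : Type u} [Group A] [MulAction A V] [MulAction A E]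
    (T : TreeData A V E) (hV : ∀ v : V, Full (stabilizer A v)) : Full A := by
  intro Γ _ r hr
  let _ : MulAction Γ V := MulAction.compHom V r
  let _ : MulAction Γ E := MulAction.compHom E r
  have h1 : ∀ (H : Type u) [Group H] (q : H →* Γ) (v : V), PF q.ker → (∀ h, q h • v = v) →
      SAC H ∧ ∀ (C : Type u) [Group C] (ι : C →* H), Function.Injective ι → TP ι :=
    fun H _ q v hq hv => hV v H ((r.comp q).codRestrict _ hv) (by
      rw [MonoidHom.ker_codRestrict]
      exact hr.ker_comp hq)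
  have hyp : ∀ (C : Type u) [Group C] (ι : C →* Γ),
      Hyp (comap T r (fun _ _ => rfl) fun _ _ => rfl) ι := fun C _ ι =>
    ⟨fun H _ q v hq hv => (h1 H q v hq hv).1,
      fun H _ q v hq hv C' _ j _ hj _ => (h1 H q v hq hv).2 C' j hj,
      fun H _ q v hq hv C' _ j hj _ => (h1 H q v hq hv).2 C' j
        ((injective_iff_map_eq_one j).2 fun c hc => hj c (by rw [hc, map_one]))⟩
  exact ⟨(hyp Γ (MonoidHom.id Γ)).sac' (q := MonoidHom.id Γ) (pf_ker_of_inj Function.injective_id),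
    fun C _ ι hι => (hyp C ι).tp hι⟩

theorem full_of_graph {G V : Type u} [Group G] [MulAction G V] {T : SimpleGraph V}
    (hT : T.IsTree) (hadj : ∀ (g : G) (u v : V), T.Adj u v → T.Adj (g • u) (g • v))
    (hst : ∀ (K : Subgroup G) (u v : V), u = v ∨ T.Adj u v →
      (∀ h ∈ K, s(h • u, h • v) = s(u, v)) → Full K) : Full G := by
  let _ := cellAction hadj
  let _ := dartAction hadj
  let dg : V → Cell T := fun v => ⟨s(v, v), Or.inl (Sym2.mk_isDiag_iff.2 rfl)⟩
  let ed : T.Dart → Cell T := fun d => ⟨s(d.fst, d.snd), Or.inr d.adj⟩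
  have hcut := hasCuts_of_isAcyclic hT.isAcyclic
  let D : TreeData G (Cell T) T.Dart :=
    { o := fun d => dg d.fst
      t := ed
      o_smul := fun _ _ => rfl
      t_smul := fun _ _ => rfl
      ne := hT.connected.nonempty.map dg
      conn := by
        intro S hS
        have h1 : ∀ a b, T.Adj a b → (dg a ∈ S ↔ dg b ∈ S) := by
          intro a b hab
          have h2 := hS ⟨(a, b), hab⟩
          have h3 := hS ⟨(b, a), hab.symm⟩
          have h4 : ed ⟨(b, a), hab.symm⟩ = ed ⟨(a, b), hab⟩ := Subtype.ext Sym2.eq_swap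
          rw [h4] at h3
          exact h2.trans h3.symm
        have h2 : ∀ a b, dg a ∈ S → dg b ∈ S := by
          intro a b
          obtain ⟨p⟩ := hT.connected.preconnected a b
          induction p with
          | nil => exact id
          | cons hab _ ih => exact fun h => ih ((h1 _ _ hab).1 h)
        have h3 : ∀ c : Cell T, ∃ a, (c ∈ S ↔ dg a ∈ S) := by
          rintro ⟨c, hc⟩
          induction c using Sym2.ind with
          | _ a b =>
            rcases hc with hc | hc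
            · obtain rfl := Sym2.mk_isDiag_iff.1 hc
              exact ⟨a, Iff.rfl⟩
            · exact ⟨a, (hS ⟨(a, b), hc⟩).symm⟩
        intro c hc c'
        obtain ⟨a, ha⟩ := h3 c
        obtain ⟨b, hb⟩ := h3 c'
        exact hb.2 (h2 a b (ha.1 hc))
      cut := by
        rintro ⟨⟨a, b⟩, hab⟩
        obtain ⟨side, h1, h2, h3⟩ := hcut a b hab
        have hdg : ∀ x, (s(x, x) = s(a, b) ∨ ∀ y ∈ s(x, x), side y) ↔ side x := by
          intro x
          constructor
          · rintro (h | h)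
            · rcases Sym2.eq_iff.1 h with ⟨h4, h5⟩ | ⟨h4, h5⟩
              · exact absurd (h4.symm.trans h5) hab.ne
              · exact absurd (h5.symm.trans h4) hab.ne
            · exact h x (Sym2.mem_mk_left _ _)
          · intro h
            refine Or.inr (fun y hy => ?_)
            rcases Sym2.mem_iff.1 hy with rfl | rfl <;> exact h
        refine ⟨{c | c.1 = s(a, b) ∨ ∀ y ∈ c.1, side y}, Or.inl rfl,
          fun h => h2 ((hdg a).1 h), ?_⟩
        rintro ⟨⟨x, y⟩, hxy⟩ hne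
        refine (hdg x).trans ?_
        change side x ↔ (s(x, y) = s(a, b) ∨ ∀ z ∈ s(x, y), side z)
        by_cases he : s(x, y) = s(a, b)
        · rcases Sym2.eq_iff.1 he with ⟨rfl, rfl⟩ | ⟨rfl, rfl⟩
          · exact absurd rfl hne
          · exact ⟨fun _ => Or.inl he, fun _ => h1⟩
        · have h4 := h3 x y hxy he
          refine ⟨fun h => Or.inr (fun z hz => ?_),
            fun h => (h.resolve_left he) x (Sym2.mem_mk_left _ _)⟩
          rcases Sym2.mem_iff.1 hz with rfl | rfl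
          · exact h
          · exact h4.1 h }
  refine full_of_tree D ?_
  rintro ⟨c, hc⟩
  induction c using Sym2.ind with
  | _ a b =>
    exact hst _ a b (hc.imp Sym2.mk_isDiag_iff.1 id) (fun h hh => congrArg Subtype.val hh)

end Pool.Agent.P.MP_0f25e6_al.HR
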