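import Pool.Agent.P.MP_0f25e6_al.Flux

/-!
Passing from the kernel of a homomorphism to a left-ordered group to the whole group
(the argument of Linnell, 1992).
-/

set_option autoImplicit false

open scoped InnerProductSpace Topology
open Filter

noncomputable section

namespace Pool.Agent.P.MP_0f25e6_al

section Orth

variable {E : Type*} [NormedAddCommGroup E] [InnerProductSpace ℂ E] {ι : Type*}

theorem orthFamily_of_pairwise (v : ι → E) (hv : ∀ i j, i ≠ j → ⟪v i, v j⟫_ℂ = 0) :
    OrthogonalFamily ℂ (fun i => (ℂ ∙ v i : Submodule ℂ E)) (fun i => (ℂ ∙ v i).subtypeₗᵢ) := by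
  rintro i j hij ⟨x, hx⟩ ⟨y, hy⟩
  obtain ⟨a, rfl⟩ := Submodule.mem_span_singleton.1 hx
  obtain ⟨b, rfl⟩ := Submodule.mem_span_singleton.1 hy
  simp [inner_smul_left, inner_smul_right, hv i j hij]

theorem norm_sum_sq_of_pairwise (v : ι → E) (hv : ∀ i j, i ≠ j → ⟪v i, v j⟫_ℂ = 0)
    (s : Finset ι) : ‖∑ i ∈ s, v i‖ ^ 2 = ∑ i ∈ s, ‖v i‖ ^ 2 :=
  (orthFamily_of_pairwise v hv).norm_sum
    (fun i => ⟨v i, Submodule.mem_span_singleton_self _⟩) s

theorem summable_of_pairwise [CompleteSpace E] (v : ι → E)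
    (hv : ∀ i j, i ≠ j → ⟪v i, v j⟫_ℂ = 0) (C : ℝ) (hC : ∀ s : Finset ι, ∑ i ∈ s, ‖v i‖ ^ 2 ≤ C) :
    Summable v :=
  ((orthFamily_of_pairwise v hv).summable_iff_norm_sq_summable
    (fun i => ⟨v i, Submodule.mem_span_singleton_self _⟩)).2
    (summable_of_sum_le (fun _ => by positivity) hC)

end Orth

variable {G L : Type*} [Group G] [Group L]

/-- The fibre of `φ` over `c`. -/
def fib (φ : G →* L) (c : L) : Set G := {x | φ x = c}

theorem sum_res_fib_le (φ : G →* L) (ξ : L2 G) (s : Finset L) :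
    ∑ c ∈ s, ‖res (fib φ c) ξ‖ ^ 2 ≤ ‖ξ‖ ^ 2 := by
  classical
  have h1 := hasSum_sum (s := s) (fun c _ => hasSum_norm_sq (res (fib φ c) ξ))
  refine hasSum_le (fun g => ?_) h1 (hasSum_norm_sq ξ)
  have h2 : ∀ c ∈ s, ‖res (fib φ c) ξ g‖ ^ 2 = if φ g = c then ‖ξ g‖ ^ 2 else 0 := by
    intro c _
    split_ifs with hc
    · rw [res_apply_of_mem ξ (show g ∈ fib φ c from hc)]
    · rw [res_apply_of_notMem ξ (show g ∉ fib φ c from hc)]
      simp
  rw [Finset.sum_congr rfl h2, Finset.sum_ite_eq]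
  split_ifs
  · exact le_rfl
  · positivity

theorem rt_res (A B : Set G) (g : G) (h : ∀ x, x ∈ B ↔ x * g ∈ A) (ξ : L2 G) :
    rt g (res A ξ) = res B (rt g ξ) := by
  ext x
  by_cases hx : x ∈ B
  · rw [rt_apply, res_apply_of_mem _ hx, res_apply_of_mem _ ((h x).1 hx), rt_apply]
  · rw [rt_apply, res_apply_of_notMem _ hx, res_apply_of_notMem _ (mt (h x).2 hx)]

variable [LinearOrder L] [MulLeftStrictMono L]

/-- The elements strictly above level `c`. -/
def up (φ : G →* L) (c : L) : Set G := {x | 1 < φ x * c⁻¹}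

/-- The orthogonal complement of the image of the functions supported above level `c`. -/
def perp (φ : G →* L) (T : L2 G →L[ℂ] L2 G) (c : L) : Submodule ℂ (L2 G) :=
  (T * res (up φ c)).rangeᗮ

instance (φ : G →* L) (T : L2 G →L[ℂ] L2 G) (c : L) : (perp φ T c).HasOrthogonalProjection := by
  unfold perp
  infer_instance

omit [MulLeftStrictMono L] in
theorem mem_perp {φ : G →* L} {T : L2 G →L[ℂ] L2 G} {c : L} {v : L2 G} :
    v ∈ perp φ T c ↔ ∀ ξ, ⟪T (res (up φ c) ξ), v⟫_ℂ = 0 := by
  rw [perp, Submodule.mem_orthogonal]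
  constructor
  · intro h ξ
    exact h _ ⟨ξ, rfl⟩
  · rintro h _ ⟨ξ, rfl⟩
    exact h ξ

/-- The level `c` block of the auxiliary operator. -/
def block (φ : G →* L) (T : L2 G →L[ℂ] L2 G) (c : L) : L2 G →L[ℂ] L2 G :=
  (perp φ T c).starProjection * T * res (fib φ c)

omit [MulLeftStrictMono L] in
theorem block_apply (φ : G →* L) (T : L2 G →L[ℂ] L2 G) (c : L) (ξ : L2 G) :
    block φ T c ξ = (perp φ T c).starProjection (T (res (fib φ c) ξ)) := rfl

omit [Group G] in
theorem res_res_of_subset {A B : Set G} (h : B ⊆ A) (ξ : L2 G) : res A (res B ξ) = res B ξ := by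
  ext x
  by_cases hx : x ∈ A
  · rw [res_apply_of_mem _ hx]
  · rw [res_apply_of_notMem _ hx, res_apply_of_notMem _ (fun hb => hx (h hb))]

theorem one_lt_mul_of {a b : L} (ha : 1 < a) (hb : 1 < b) : 1 < a * b :=
  ha.trans (by simpa using mul_lt_mul_right hb a)

theorem block_orth_of_lt (φ : G →* L) (T : L2 G →L[ℂ] L2 G) {c c' : L} (h : 1 < c' * c⁻¹)
    (ξ ξ' : L2 G) : ⟪block φ T c' ξ', block φ T c ξ⟫_ℂ = 0 := by
  have hv : block φ T c ξ ∈ perp φ T c := Submodule.starProjection_apply_mem _ _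
  have hv' : block φ T c ξ ∈ perp φ T c' := by
    rw [mem_perp] at hv ⊢
    intro ζ
    rw [← res_res_of_subset (A := up φ c)]
    · exact hv _
    · intro x hx
      have := one_lt_mul_of (show 1 < φ x * c'⁻¹ from hx) h
      simpa [up, mul_assoc] using this
  rw [block_apply φ T c', Submodule.inner_starProjection_left_eq_right,
    Submodule.starProjection_eq_self_iff.2 hv', ← res_res_of_subset (A := up φ c)]
  · exact mem_perp.1 hv _
  · intro x hx
    change 1 < φ x * c⁻¹
    rwa [show φ x = c' from hx]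

theorem block_orth (φ : G →* L) (T : L2 G →L[ℂ] L2 G) {c c' : L} (h : c ≠ c')
    (ξ ξ' : L2 G) : ⟪block φ T c ξ, block φ T c' ξ'⟫_ℂ = 0 := by
  rcases lt_trichotomy 1 (c' * c⁻¹) with h1 | h1 | h1
  · rw [inner_eq_zero_symm]
    exact block_orth_of_lt φ T h1 ξ ξ'
  · exact absurd (mul_inv_eq_one.1 h1.symm).symm h
  · refine block_orth_of_lt φ T ?_ ξ' ξ
    have := mul_lt_mul_right h1 (c * c'⁻¹)
    simpa [mul_assoc] using this

omit [MulLeftStrictMono L] in
theorem sum_block_le (φ : G →* L) (T : L2 G →L[ℂ] L2 G) (ξ : L2 G) (s : Finset L) :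
    ∑ c ∈ s, ‖block φ T c ξ‖ ^ 2 ≤ (‖T‖ * ‖ξ‖) ^ 2 := by
  calc ∑ c ∈ s, ‖block φ T c ξ‖ ^ 2 ≤ ∑ c ∈ s, ‖T‖ ^ 2 * ‖res (fib φ c) ξ‖ ^ 2 := by
        refine Finset.sum_le_sum (fun c _ => ?_)
        rw [← mul_pow, block_apply]
        gcongr
        exact (Submodule.norm_starProjection_apply_le _ _).trans (T.le_opNorm _)
    _ ≤ (‖T‖ * ‖ξ‖) ^ 2 := by
        rw [← Finset.mul_sum, mul_pow]
        gcongr
        exact sum_res_fib_le φ ξ s

theorem summable_block (φ : G →* L) (T : L2 G →L[ℂ] L2 G) (ξ : L2 G) :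
    Summable (fun c => block φ T c ξ) :=
  summable_of_pairwise _ (fun _ _ h => block_orth φ T h ξ ξ) _ (sum_block_le φ T ξ)

/-- The auxiliary operator, as a linear map. -/
def thetaL (φ : G →* L) (T : L2 G →L[ℂ] L2 G) : L2 G →ₗ[ℂ] L2 G where
  toFun ξ := ∑' c, block φ T c ξ
  map_add' ξ η := by
    simp only [map_add]
    exact (summable_block φ T ξ).tsum_add (summable_block φ T η)
  map_smul' a ξ := by
    simp only [map_smul, RingHom.id_apply]
    exact (summable_block φ T ξ).tsum_const_smul a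

/-- The auxiliary operator. -/
def theta (φ : G →* L) (T : L2 G →L[ℂ] L2 G) : L2 G →L[ℂ] L2 G :=
  (thetaL φ T).mkContinuous ‖T‖ (fun ξ => by
    have h1 : Tendsto (fun s : Finset L => ‖∑ c ∈ s, block φ T c ξ‖) atTop
        (𝓝 ‖∑' c, block φ T c ξ‖) := by
      have := (summable_block φ T ξ).hasSum
      rw [HasSum] at this
      exact this.norm
    refine le_of_tendsto' h1 (fun s => ?_)
    refine (pow_le_pow_iff_left₀ (norm_nonneg _) (by positivity) two_ne_zero).1 ?_
    rw [norm_sum_sq_of_pairwise _ (fun _ _ h => block_orth φ T h ξ ξ)]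
    exact sum_block_le φ T ξ s)

theorem hasSum_theta (φ : G →* L) (T : L2 G →L[ℂ] L2 G) (ξ : L2 G) :
    HasSum (fun c => block φ T c ξ) (theta φ T ξ) :=
  (summable_block φ T ξ).hasSum

omit [MulLeftStrictMono L] in
theorem rt_mem_perp (φ : G →* L) {T : L2 G →L[ℂ] L2 G} (hT : Equivariant T) (g : G) {c c' : L}
    (hc : c' * φ g = c) {v : L2 G} (hv : v ∈ perp φ T c) : rt g v ∈ perp φ T c' := by
  rw [mem_perp] at hv ⊢
  intro ξ
  rw [← inv_inv g, ← inner_rt_left, hT.apply, rt_res (up φ c') (up φ c) g⁻¹]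
  · exact hv _
  · intro x
    simp [up, ← hc, mul_assoc]

omit [MulLeftStrictMono L] in
theorem rt_block (φ : G →* L) {T : L2 G →L[ℂ] L2 G} (hT : Equivariant T) (g : G) (c' : L)
    (ξ : L2 G) : rt g (block φ T (c' * φ g) ξ) = block φ T c' (rt g ξ) := by
  rw [block_apply, block_apply, ← rt_res (fib φ (c' * φ g)) (fib φ c') g, ← hT.apply]
  · symm
    refine Submodule.eq_starProjection_of_mem_orthogonal
      (rt_mem_perp φ hT g rfl (Submodule.starProjection_apply_mem _ _)) ?_
    rw [← map_sub, Submodule.mem_orthogonal]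
    intro u hu
    rw [← inv_inv g, ← inner_rt_left, inv_inv]
    exact Submodule.inner_right_of_mem_orthogonal
      (rt_mem_perp φ hT g⁻¹ (by simp) hu) (Submodule.sub_starProjection_mem_orthogonal _)
  · intro x
    simp [fib]

theorem theta_equivariant (φ : G →* L) {T : L2 G →L[ℂ] L2 G} (hT : Equivariant T) :
    Equivariant (theta φ T) := by
  intro g
  ext1 ξ
  have h1 := (hasSum_theta φ T ξ).mapL (rt g)
  rw [← (Equiv.mulRight (φ g)).hasSum_iff] at h1
  have h2 : ((fun c => rt g (block φ T c ξ)) ∘ (Equiv.mulRight (φ g))) =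
      fun c' => block φ T c' (rt g ξ) := by
    funext c'
    exact rt_block φ hT g c' ξ
  rw [h2] at h1
  exact h1.unique (hasSum_theta φ T (rt g ξ))

theorem block_eq_zero (φ : G →* L) (T : L2 G →L[ℂ] L2 G) (ξ : L2 G) (h : theta φ T ξ = 0)
    (c : L) : block φ T c ξ = 0 := by
  have h1 := (hasSum_theta φ T ξ).mapL (innerSL ℂ (block φ T c ξ))
  simp only [innerSL_apply_apply, h, inner_zero_right] at h1
  have h2 : HasSum (fun c' => ⟪block φ T c ξ, block φ T c' ξ⟫_ℂ)
      ⟪block φ T c ξ, block φ T c ξ⟫_ℂ :=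
    hasSum_single c (fun c' hc' => block_orth φ T (Ne.symm hc') ξ ξ)
  exact inner_self_eq_zero.1 (h2.unique h1)

/-- Injectivity of all convolutions follows from injectivity of those supported in a fibre of a
homomorphism to a left-ordered group. -/
theorem inj_of_ordered (φ : G →* L)
    (hN : ∀ α : G →₀ ℂ, α ≠ 0 → (∀ s ∈ α.support, ∀ t ∈ α.support, φ s = φ t) → Inj α)
    (α : G →₀ ℂ) (hα : α ≠ 0) : Inj α := by
  classical
  obtain ⟨s₀, hs₀, hmin⟩ := α.support.exists_min_image φ (Finsupp.support_nonempty_iff.2 hα)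
  set m := φ s₀ with hm
  set T := conv α with hT
  have hTe : Equivariant T := conv_equivariant α
  let α₀ : G →₀ ℂ := α.filter (fun s => φ s = m)
  have hα₀app : ∀ s, φ s = m → α₀ s = α s := fun s hs =>
    Finsupp.filter_apply_pos (fun s => φ s = m) α hs
  have hα₀ : α₀ ≠ 0 := by
    intro h0
    have : α₀ s₀ = 0 := by rw [h0]; rfl
    rw [hα₀app s₀ hm.symm] at this
    exact Finsupp.mem_support_iff.1 hs₀ this
  have hinj₀ : Inj α₀ := by
    refine hN α₀ hα₀ (fun s hs t ht => ?_)
    rw [Finsupp.support_filter, Finset.mem_filter] at hs ht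
    rw [hs.2, ht.2]
  have hdelta : ∀ (c : L) (y : G), φ y = m * c → delta y ∈ perp φ T c := by
    intro c y hy
    rw [mem_perp]
    intro ξ
    rw [inner_eq_zero_symm, inner_delta_left, hT, conv_apply]
    refine Finset.sum_eq_zero (fun s hs => ?_)
    rw [res_apply_of_notMem, mul_zero]
    intro hup
    have h1 : 1 < (φ s)⁻¹ * m := by
      simpa [up, hy, mul_assoc] using hup
    have h2 := mul_lt_mul_right h1 (φ s)
    simp only [mul_one, mul_inv_cancel_left] at h2
    exact absurd (hmin s hs) (not_le.2 h2)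
  have hθinj : ∀ ξ, theta φ T ξ = 0 → ξ = 0 := by
    intro ξ hξ
    have hres : ∀ c, res (fib φ c) ξ = 0 := by
      intro c
      have hb := block_eq_zero φ T ξ hξ c
      apply hinj₀
      ext y
      by_cases hy : φ y = m * c
      · have h1 : T (res (fib φ c) ξ) y = 0 := by
          rw [← inner_delta_left, ← Submodule.starProjection_eq_self_iff.2 (hdelta c y hy),
            Submodule.inner_starProjection_left_eq_right, ← block_apply, hb, inner_zero_right]
        rw [hT, conv_apply] at h1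
        rw [conv_apply, Finsupp.support_filter, Finset.sum_filter]
        refine Eq.trans (Finset.sum_congr rfl (fun s _ => ?_)) h1
        split_ifs with hs
        · rw [hα₀app s hs]
        · rw [res_apply_of_notMem, mul_zero]
          intro hf
          apply hs
          have h2 : (φ s)⁻¹ * (m * c) = c := by simpa [fib, hy] using hf
          rw [← mul_assoc, mul_eq_right, inv_mul_eq_one] at h2
          exact h2
      · rw [conv_apply]
        refine Finset.sum_eq_zero (fun s hs => ?_)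
        rw [Finsupp.support_filter, Finset.mem_filter] at hs
        rw [res_apply_of_notMem, mul_zero]
        intro hf
        apply hy
        have h2 : (φ s)⁻¹ * φ y = c := by simpa [fib] using hf
        rw [← h2, hs.2, mul_inv_cancel_left]
    ext x
    have := congrArg (fun v : L2 G => v x) (hres (φ x))
    simpa [res_apply_of_mem ξ (show x ∈ fib φ (φ x) from rfl)] using this
  refine inj_of_star_inj hTe (fun η hη => ?_)
  have hηT : ∀ v, ⟪η, T v⟫_ℂ = 0 := by
    intro v
    rw [← ContinuousLinearMap.adjoint_inner_left, ← ContinuousLinearMap.star_eq_adjoint, hη,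
      inner_zero_left]
  refine star_inj_of_inj (theta_equivariant φ hTe) hθinj η ?_
  have hηθ : ∀ ξ, ⟪η, theta φ T ξ⟫_ℂ = 0 := by
    intro ξ
    have h1 := (hasSum_theta φ T ξ).mapL (innerSL ℂ η)
    simp only [innerSL_apply_apply] at h1
    have h2 : ∀ c, ⟪η, block φ T c ξ⟫_ℂ = 0 := by
      intro c
      have hmem : η ∈ perp φ T c := by
        rw [mem_perp]
        intro ζ
        rw [inner_eq_zero_symm]
        exact hηT _
      rw [block_apply, ← Submodule.inner_starProjection_left_eq_right,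
        Submodule.starProjection_eq_self_iff.2 hmem]
      exact hηT _
    simp only [h2] at h1
    exact h1.unique hasSum_zero
  rw [← inner_self_eq_zero (𝕜 := ℂ), ContinuousLinearMap.star_eq_adjoint,
    ContinuousLinearMap.adjoint_inner_left]
  exact hηθ _

end Pool.Agent.P.MP_0f25e6_al
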