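import Pool.Agent.P.MP_0f25e6_al.HN8

/-!
Weighted traces for abelian groups, and multiplication operators.
-/

set_option autoImplicit false

open scoped InnerProductSpace ENNReal Topology
open Filter MulAction

noncomputable section

namespace Pool.Agent.P.MP_0f25e6_al.RM

open HN

section Series

variable {H Y Z : Type*} [Group H] [MulAction H Y] [MulAction H Z]

theorem enorm_sq_ofReal {W : Type*} (f : L2 W) : ‖f‖ₑ ^ 2 = ENNReal.ofReal (‖f‖ ^ 2) := by
  rw [← ofReal_norm, ENNReal.ofReal_pow (norm_nonneg _)]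

theorem proj_orth_ker {S : L2 Y →L[ℂ] L2 Z} (hS : ‖S‖ ≤ 1) (v : L2 Y) (a : ℕ → ℝ)
    (ha0 : ∀ k, 0 ≤ a k)
    (ha : ∀ k, a k = (⟪v, ((defect S) ^ k) (adj S (S v))⟫_ℂ).re) :
    ‖proj (pre S ⊥)ᗮ v‖ₑ ^ 2 = ∑' k, ENNReal.ofReal (a k) := by
  have hp : proj (pre S ⊥) v ∈ pre S ⊥ :=
    cl_le le_rfl (cls_bot.pre S) (proj_mem _ _)
  have h := hasSum_defect hS v a ha0 ha (proj (pre S ⊥) v) hp
    (fun u hu => sub_proj_mem (pre S ⊥) v u hu)
  have h1 : proj (pre S ⊥)ᗮ v = v - proj (pre S ⊥) v :=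
    proj_eq (le_cl _ (sub_proj_mem _ _)) (by
      rw [sub_sub_cancel]; exact Submodule.le_orthogonal_orthogonal _ hp)
  rw [h1, enorm_sq_ofReal, ← h.tsum_eq, ENNReal.ofReal_tsum_of_nonneg ha0 h.summable]

theorem exists_series {S : L2 Y →L[ℂ] L2 Z} (hS : Eqv H S) (hn : ‖S‖ ≤ 1) :
    ∃ T : ℕ → (L2 Y →L[ℂ] L2 Z), (∀ k, Eqv H (T k)) ∧
      (∀ v, ‖proj (pre S ⊥)ᗮ v‖ₑ ^ 2 = ∑' k, ‖T k v‖ₑ ^ 2) ∧
      ∀ w, ‖proj (pre (adj S) ⊥)ᗮ w‖ₑ ^ 2 = ∑' k, ‖adj (T k) w‖ₑ ^ 2 := by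
  set A := defect S with hA
  have hA0 : 0 ≤ A := defect_nonneg hn
  obtain ⟨R, hRs, hRR, hRc⟩ := exists_sqrt hA0
  have hAe : Eqv H A := eqv_one.sub (hS.adj.comp hS)
  have hRe : Eqv H R := by
    intro h f
    have h1 : Commute A (act h) := by
      ext1 g
      exact hAe h g
    have h2 : Commute R (act h) := hRc _ h1
    exact congrArg (fun T : L2 Y →L[ℂ] L2 Y => T f) h2
  have hRk : ∀ (k : ℕ) (f g : L2 Y), ⟪(R ^ k) f, g⟫_ℂ = ⟪f, (R ^ k) g⟫_ℂ := fun k f g =>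
    (hRs.pow k).isSymmetric f g
  have hRA : ∀ (k : ℕ) (f : L2 Y), (R ^ k) ((R ^ k) f) = (A ^ k) f := by
    intro k f
    rw [← mul_apply_eq_comp, ← (Commute.refl R).mul_pow, hRR]
  have hcomm : ∀ (k : ℕ) (f : L2 Y), adj S (S ((R ^ k) f)) = (R ^ k) (adj S (S f)) := by
    intro k f
    have h1 : Commute A (R ^ k) := by
      rw [← hRR]
      exact ((Commute.refl R).mul_left (Commute.refl R)).pow_right k
    have h2 : A ((R ^ k) f) = (R ^ k) (A f) := congrArg (fun T : L2 Y →L[ℂ] L2 Y => T f) h1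
    rw [hA, defect_apply, defect_apply, map_sub, sub_right_inj] at h2
    exact h2
  refine ⟨fun k => S ∘L R ^ k, fun k => hS.comp (hRe.pow k), fun v => ?_, fun w => ?_⟩
  · simp only [enorm_sq_ofReal ((S ∘L R ^ _) v)]
    refine proj_orth_ker hn v (fun k => ‖(S ∘L R ^ k) v‖ ^ 2) (fun k => by positivity)
      (fun k => ?_)
    rw [ContinuousLinearMap.comp_apply, ← re_inner_adj, hcomm, hRk, hRA]
  · simp only [enorm_sq_ofReal (adj (S ∘L R ^ _) w)]
    refine proj_orth_ker (by rwa [LinearIsometryEquiv.norm_map]) w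
      (fun k => ‖adj (S ∘L R ^ k) w‖ ^ 2) (fun k => by positivity) (fun k => ?_)
    have h1 : adj (S ∘L R ^ k) w = (R ^ k) (adj S w) := by
      refine ext_inner_left ℂ (fun g => ?_)
      rw [inner_adj_right, ContinuousLinearMap.comp_apply, ← hRk, inner_adj_right]
    rw [h1, adj, adj, ContinuousLinearMap.adjoint_adjoint, ← comp_defect_pow, ← inner_adj_left,
      ← hA, ← hRA, ← hRk, inner_self_eq_norm_sq_to_K]
    norm_cast

end Series

section Weight

variable {H Y Z : Type*} [CommGroup H] [MulAction H Y] [MulAction H Z]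

/-- The operator `1 + ζ b`. -/
def wop (ζ : ℂ) (b : H) : L2 Y →L[ℂ] L2 Y := 1 + ζ • act b

theorem wop_apply (ζ : ℂ) (b : H) (f : L2 Y) : wop ζ b f = f + ζ • act b f := rfl

theorem eqv_act (b : H) : Eqv H (act b : L2 Y →L[ℂ] L2 Y) := fun h f => by
  rw [← act_mul, ← act_mul, mul_comm]

theorem eqv_wop (ζ : ℂ) (b : H) : Eqv H (wop ζ b : L2 Y →L[ℂ] L2 Y) :=
  eqv_one.add ((eqv_act b).smul ζ)

theorem map_wop {T : L2 Y →L[ℂ] L2 Z} (hT : Eqv H T) (ζ : ℂ) (b : H) (f : L2 Y) :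
    T (wop ζ b f) = wop ζ b (T f) := by
  rw [wop_apply, wop_apply, map_add, map_smul, hT]

theorem norm_wop_sq (ζ : ℂ) (b : H) (f : L2 Y) :
    ‖wop ζ b f‖ ^ 2 = (1 + ‖ζ‖ ^ 2) * ‖f‖ ^ 2 + 2 * (ζ * ⟪f, act b f⟫_ℂ).re := by
  rw [wop_apply, @norm_add_sq ℂ, norm_smul, norm_act, inner_smul_right]
  simp only [RCLike.re_to_complex]
  ring

theorem adj_wop (ζ : ℂ) (b : H) (f : L2 Y) :
    adj (wop ζ b) f = wop (starRingEnd ℂ ζ) b⁻¹ f := by
  refine ext_inner_left ℂ (fun g => ?_)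
  rw [inner_adj_right, wop_apply, wop_apply, inner_add_left, inner_add_right, inner_smul_left,
    inner_smul_right, inner_act_left]

theorem enorm_adj_wop (ζ : ℂ) (b : H) (f : L2 Y) :
    ‖adj (wop ζ b) f‖ₑ ^ 2 = ‖wop ζ b f‖ₑ ^ 2 := by
  rw [enorm_sq_ofReal, enorm_sq_ofReal, adj_wop, norm_wop_sq, norm_wop_sq, ← inner_act_left,
    ← inner_conj_symm (act b f) f, ← map_mul, Complex.conj_re, RCLike.norm_conj]

/-- The weighted dimension. -/
def wdim (H : Type*) {Y : Type*} [CommGroup H] [MulAction H Y] (ζ : ℂ) (b : H)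
    (N : Submodule ℂ (L2 Y)) : ℝ≥0∞ :=
  osum H (fun y => ‖proj N (wop ζ b (delta y))‖ₑ ^ 2)

theorem wdim_cl (ζ : ℂ) (b : H) (N : Submodule ℂ (L2 Y)) : wdim H ζ b (cl N) = wdim H ζ b N := by
  rw [wdim, proj_cl, wdim]

theorem wdim_split (ζ : ℂ) (b : H) {K N : Submodule ℂ (L2 Y)} (hN : Cls N) (h : K ≤ N) :
    wdim H ζ b N = wdim H ζ b K + wdim H ζ b (N ⊓ Kᗮ) := by
  rw [wdim, wdim, wdim, ← osum_add]
  congr 1
  funext y
  rw [proj_split hN h, enorm_add_sq]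
  refine inner_mem_orth (proj_mem K _) ?_
  exact cl_le inf_le_right (cls_orth K) (proj_mem _ _)

theorem wdim_bot (ζ : ℂ) (b : H) : wdim H ζ b (⊥ : Submodule ℂ (L2 Y)) = 0 := by
  rw [wdim, ← osum_zero (H := H) (Z := Y)]
  congr 1
  funext y
  rw [proj_eq_zero (by simp)]
  simp

theorem wdim_ne_top (ζ : ℂ) (b : H) {N : Submodule ℂ (L2 Y)} (hi : Inv H N)
    (hf : edim H N ≠ ⊤) : wdim H ζ b N ≠ ⊤ := by
  refine ne_top_of_le_ne_top (b := ‖(wop ζ b : L2 Y →L[ℂ] L2 Y)‖ₑ ^ 2 * edim H N)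
    (ENNReal.mul_ne_top (ENNReal.pow_ne_top enorm_ne_top) hf) ?_
  rw [edim, ← osum_mul]
  refine osum_mono (fun y => ?_)
  rw [map_wop (eqv_proj hi), tau, ← mul_pow]
  exact pow_le_pow_left₀ (by positivity) (ContinuousLinearMap.le_opENorm _ _) 2

theorem wdim_orth_ker_aux (hY : Free H Y) (hZ : Free H Z) (ζ : ℂ) (b : H)
    {S : L2 Y →L[ℂ] L2 Z} (hS : Eqv H S) (hn : ‖S‖ ≤ 1) :
    wdim H ζ b (pre S ⊥)ᗮ = wdim H ζ b (pre (adj S) ⊥)ᗮ := by
  obtain ⟨T, hT, h1, h2⟩ := exists_series hS hn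
  simp only [wdim, h1, h2]
  rw [osum_tsum, osum_tsum]
  refine tsum_congr (fun k => ?_)
  have h3 := osum_adj hY hZ ((hT k).comp (eqv_wop ζ b))
  simp only [ContinuousLinearMap.comp_apply, ContinuousLinearMap.adjoint_comp] at h3
  rw [h3]
  congr 1
  funext z
  rw [enorm_adj_wop, map_wop (hT k).adj]

theorem wdim_orth_ker (hY : Free H Y) (hZ : Free H Z) (ζ : ℂ) (b : H)
    {S : L2 Y →L[ℂ] L2 Z} (hS : Eqv H S) :
    wdim H ζ b (pre S ⊥)ᗮ = wdim H ζ b (img S ⊤) := by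
  have hpos : 0 < ‖S‖ + 1 := by positivity
  set c : ℝ := (‖S‖ + 1)⁻¹ with hc
  have hc0 : (c : ℂ) ≠ 0 := by
    rw [Complex.ofReal_ne_zero, hc]
    positivity
  have h := wdim_orth_ker_aux hY hZ ζ b (hS.smul (c : ℂ)) (by
    rw [norm_smul, Complex.norm_real, Real.norm_of_nonneg (by positivity), hc,
      inv_mul_le_iff₀ hpos]
    linarith)
  have h1 : pre ((c : ℂ) • S) ⊥ = pre S ⊥ := by
    ext f
    change ((c : ℂ) • S) f = 0 ↔ S f = 0
    rw [smul_apply, smul_eq_zero, or_iff_right hc0]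
  have h2 : pre (adj ((c : ℂ) • S)) ⊥ = (img S ⊤)ᗮ := by
    ext g
    rw [Submodule.mem_comap, Submodule.mem_bot, Submodule.mem_orthogonal]
    constructor
    · rintro hg _ ⟨f, -, rfl⟩
      have h3 : ⟪f, adj ((c : ℂ) • S) g⟫_ℂ = 0 := by
        have : adj ((c : ℂ) • S) g = 0 := hg
        rw [this, inner_zero_right]
      rw [inner_adj_right, smul_apply, inner_smul_left, mul_eq_zero] at h3
      exact h3.resolve_left (by simpa using hc0)
    · intro hg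
      refine ext_inner_left ℂ (fun f => ?_)
      change ⟪f, adj ((c : ℂ) • S) g⟫_ℂ = _
      rw [inner_adj_right, smul_apply, inner_smul_left, hg (S f) ⟨f, trivial, rfl⟩]
      simp
  rw [h1, h2, Submodule.orthogonal_orthogonal_eq_closure] at h
  rw [h, wdim_cl]

theorem wrank_nullity (hY : Free H Y) (hZ : Free H Z) (ζ : ℂ) (b : H) {T : L2 Y →L[ℂ] L2 Z}
    (hT : Eqv H T) {N : Submodule ℂ (L2 Y)} (hc : Cls N) (hi : Inv H N) :
    wdim H ζ b N = wdim H ζ b (N ⊓ pre T ⊥) + wdim H ζ b (img T N) := by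
  have hP : ∀ f, proj N f ∈ N := fun f => cl_le le_rfl hc (proj_mem N f)
  have h := wdim_orth_ker hY hZ ζ b (hT.comp (eqv_proj hi))
  have h1 : img (T ∘L proj N) ⊤ = img T N := by
    apply le_antisymm
    · rintro _ ⟨f, -, rfl⟩
      exact ⟨proj N f, hP f, rfl⟩
    · rintro _ ⟨f, hf, rfl⟩
      exact ⟨f, trivial, by simp [proj_eq_self (le_cl N hf)]⟩
  have h2 : (pre (T ∘L proj N) ⊥)ᗮ = N ⊓ (N ⊓ pre T ⊥)ᗮ := by
    apply le_antisymm
    · refine le_inf (fun f hf => ?_) (Submodule.orthogonal_le (fun f hf => ?_))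
      · rw [← cl_eq hc]
        refine mem_cl_of_orth (fun g hg => hf g ?_)
        change T (proj N g) = 0
        rw [proj_eq_zero hg, map_zero]
      · change T (proj N f) = 0
        rw [proj_eq_self (le_cl N hf.1)]
        exact hf.2
    · rintro f ⟨hf, hf'⟩ g hg
      rw [← proj_eq_self (le_cl N hf), ← inner_proj_left]
      exact hf' _ ⟨hP g, hg⟩
  rw [h1, h2] at h
  rw [wdim_split ζ b hc (inf_le_left : N ⊓ pre T ⊥ ≤ N), h]

theorem pre_proj_bot (M : Submodule ℂ (L2 Y)) : pre (proj M) ⊥ = Mᗮ := by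
  ext f
  refine ⟨fun h => ?_, fun h => proj_eq_zero h⟩
  have h1 := sub_proj_mem M f
  have h2 : proj M f = 0 := h
  rwa [h2, sub_zero] at h1

/-- Two subspaces of the same dimension in general position have the same weighted dimension. -/
theorem wdim_eq_of_inf (hY : Free H Y) (ζ : ℂ) (b : H) {N M : Submodule ℂ (L2 Y)} (hN : Cls N)
    (hM : Cls M) (hNi : Inv H N) (hMi : Inv H M) (h0 : N ⊓ Mᗮ = ⊥) (hf : edim H M ≠ ⊤)
    (he : edim H N = edim H M) : wdim H ζ b N = wdim H ζ b M := by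
  have h1 := rank_nullity hY hY (eqv_proj hMi) hN hNi
  have h2 := wrank_nullity hY hY ζ b (eqv_proj hMi) hN hNi
  rw [pre_proj_bot, h0] at h1 h2
  rw [edim_bot, zero_add] at h1
  rw [wdim_bot, zero_add] at h2
  have hle : cl (img (proj M) N) ≤ M := cl_le (by
    rintro _ ⟨f, -, rfl⟩
    exact (cl_eq hM).le (proj_mem M f)) hM
  have h3 : cl (img (proj M) N) = M := eq_of_edim_le (cls_cl _) hM (hNi.img (eqv_proj hMi)).cl hMi
    hle (fin_of_le hf hle) (by rw [edim_cl, ← h1, he])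
  rw [h2, ← wdim_cl, h3]

end Weight

section Mul

variable {X Y : Type*}

/-- Multiplication by a unimodular function, as a linear map. -/
def mulL (φ : Y → Circle) : L2 Y →ₗ[ℂ] L2 Y where
  toFun f := ⟨fun y => φ y * f y, by
    change Memℓp (fun y => (φ y : ℂ) * f y) 2
    rw [memℓp_two_iff]
    simpa using (hasSum_norm_sq f).summable⟩
  map_add' f g := by
    ext y
    change (φ y : ℂ) * (f y + g y) = φ y * f y + φ y * g y
    ring
  map_smul' c f := by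
    ext y
    change (φ y : ℂ) * (c * f y) = c * (φ y * f y)
    ring

theorem norm_mulL (φ : Y → Circle) (f : L2 Y) : ‖mulL φ f‖ = ‖f‖ := by
  have h1 := hasSum_norm_sq (mulL φ f)
  have h2 : ∀ y, ‖mulL φ f y‖ = ‖f y‖ := fun y => by
    change ‖(φ y : ℂ) * f y‖ = _
    simp
  simp only [h2] at h1
  exact (pow_left_inj₀ (norm_nonneg _) (norm_nonneg _) two_ne_zero).1
    (h1.unique (hasSum_norm_sq f))

/-- Multiplication by a unimodular function. -/
def mulO (φ : Y → Circle) : L2 Y →L[ℂ] L2 Y :=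
  (mulL φ).mkContinuous 1 (fun f => by rw [norm_mulL, one_mul])

@[simp] theorem mulO_apply (φ : Y → Circle) (f : L2 Y) (y : Y) : mulO φ f y = φ y * f y := rfl

theorem norm_mulO (φ : Y → Circle) (f : L2 Y) : ‖mulO φ f‖ = ‖f‖ := norm_mulL φ f

theorem mulO_inv (φ : Y → Circle) (f : L2 Y) : mulO φ⁻¹ (mulO φ f) = f := by
  ext y
  simp

theorem mulO_inv' (φ : Y → Circle) (f : L2 Y) : mulO φ (mulO φ⁻¹ f) = f := by
  ext y
  simp

theorem inner_mulO_left (φ : Y → Circle) (f g : L2 Y) :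
    ⟪mulO φ f, g⟫_ℂ = ⟪f, mulO φ⁻¹ g⟫_ℂ := by
  rw [inner_eq_tsum', inner_eq_tsum']
  refine tsum_congr (fun y => ?_)
  rw [mulO_apply, mulO_apply, map_mul, Pi.inv_apply, Circle.coe_inv_eq_conj]
  ring

theorem mulO_delta (φ : Y → Circle) (y : Y) : mulO φ (delta y) = (φ y : ℂ) • delta y := by
  ext w
  by_cases h : w = y
  · subst h; simp
  · simp [delta_ne h]

theorem proj_pre_mulO (φ : Y → Circle) {N : Submodule ℂ (L2 Y)} (hN : Cls N) (v : L2 Y) :
    proj (pre (mulO φ) N) v = mulO φ⁻¹ (proj N (mulO φ v)) := by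
  refine proj_eq (le_cl _ ?_) (fun g hg => ?_)
  · change mulO φ _ ∈ N
    rw [mulO_inv']
    exact (cl_eq hN).le (proj_mem _ _)
  · have h1 : v - mulO φ⁻¹ (proj N (mulO φ v)) = mulO φ⁻¹ (mulO φ v - proj N (mulO φ v)) := by
      rw [map_sub, mulO_inv]
    rw [h1, ← inner_mulO_left]
    exact sub_proj_mem N _ _ hg

theorem enorm_proj_pre_mulO (φ : Y → Circle) {N : Submodule ℂ (L2 Y)} (hN : Cls N) (v : L2 Y) :
    ‖proj (pre (mulO φ) N) v‖ₑ = ‖proj N (mulO φ v)‖ₑ := by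
  rw [proj_pre_mulO φ hN, ← ofReal_norm, ← ofReal_norm, norm_mulO]

theorem mulO_mem {κ : Y → X} {N : Submodule ℂ (L2 Y)} (hN : Cls N) (hs : Split κ N)
    (φ : X → Circle) {f : L2 Y} (hf : f ∈ N) : mulO (fun y => φ (κ y)) f ∈ N := by
  refine mem_of_res (κ := κ) hN (fun x => ?_)
  have : res (κ ⁻¹' {x}) (mulO (fun y => φ (κ y)) f) = (φ x : ℂ) • res (κ ⁻¹' {x}) f := by
    ext y
    by_cases h : κ y = x
    · simp [res_fibre_pos _ h, h]
    · simp [res_fibre_neg _ h]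
  rw [this]
  exact N.smul_mem _ (hs x f hf)

theorem Split.orth {κ : Y → X} {N : Submodule ℂ (L2 Y)} (hs : Split κ N) : Split κ Nᗮ :=
  fun x f hf g hg => by
    rw [← inner_res_left]
    exact hf _ (hs x g hg)

theorem split_supp (κ : Y → X) (S : Set Y) : Split κ (supp S) := fun x f hf y hy => by
  by_cases h : κ y = x
  · rw [res_fibre_pos _ h, hf y hy]
  · rw [res_fibre_neg _ h]

end Mul

section Twist

variable {H Y : Type*} [CommGroup H] [MulAction H Y]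

theorem inv_pre_mulO {φ : Y → Circle} {η : H → Circle} (h : ∀ g y, φ (g • y) = η g * φ y)
    {N : Submodule ℂ (L2 Y)} (hi : Inv H N) : Inv H (pre (mulO φ) N) := fun g f hf => by
  change mulO φ (act g f) ∈ N
  have : mulO φ (act g f) = (η g : ℂ) • act g (mulO φ f) := by
    ext y
    have h1 := h g (g⁻¹ • y)
    rw [smul_inv_smul] at h1
    simp [h1, mul_assoc]
  rw [this]
  exact N.smul_mem _ (hi g _ hf)

theorem wdim_pre_mulO {φ : Y → Circle} (ζ : ℂ) (b : H) {η : Circle}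
    (h : ∀ y, φ (b • y) = η * φ y) {N : Submodule ℂ (L2 Y)} (hN : Cls N) :
    wdim H ζ b (pre (mulO φ) N) = wdim H (ζ * η) b N := by
  rw [wdim, wdim]
  congr 1
  funext y
  have : mulO φ (wop ζ b (delta y)) = (φ y : ℂ) • wop (ζ * η) b (delta y) := by
    rw [wop_apply, wop_apply, map_add, map_smul, act_delta, mulO_delta, mulO_delta, h, smul_add,
      smul_smul, smul_smul]
    congr 2
    simp only [Circle.coe_mul]
    ring
  rw [enorm_proj_pre_mulO φ hN, this, map_smul, enorm_smul, ← ofReal_norm (φ y : ℂ)]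
  simp

theorem edim_pre_mulO (φ : Y → Circle) {N : Submodule ℂ (L2 Y)} (hN : Cls N) :
    edim H (pre (mulO φ) N) = edim H N := by
  rw [edim, edim]
  congr 1
  funext y
  rw [tau, tau, enorm_proj_pre_mulO φ hN, mulO_delta, map_smul, enorm_smul,
    ← ofReal_norm (φ y : ℂ)]
  simp

end Twist

end Pool.Agent.P.MP_0f25e6_al.RM
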