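import Pool.Agent.P.MP_0f25e6_al.RM1

/-!
Twisting by a circle action: generic position, and invariance of the weighted dimension.
-/

set_option autoImplicit false

open scoped InnerProductSpace ENNReal Topology
open Filter MulAction

noncomputable section

namespace Pool.Agent.P.MP_0f25e6_al.RM

open HN

section Gen

variable {H X Y : Type*} [Group H] [MulAction H Y]

/-- The subspace is cut out of a subspace split along `κ` by finitely many orbits of finitely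
supported equations. -/
def Loc (H : Type*) {X Y : Type*} [Group H] [MulAction H Y] (κ : Y → X)
    (N : Submodule ℂ (L2 Y)) : Prop :=
  ∃ (K : Submodule ℂ (L2 Y)) (s : Finset (L2 Y)), Cls K ∧ Inv H K ∧ Split κ K ∧
    (∀ a ∈ s, FinS a) ∧ N = K ⊓ sol H (fun a : s => a.1)

theorem cls_sol {I : Type*} (a : I → L2 Y) : Cls (sol H a) := by
  have : (sol H a : Set (L2 Y)) = ⋂ p : H × I, {f | ⟪act p.1 (a p.2), f⟫_ℂ = 0} := by
    ext f
    simp only [SetLike.mem_coe, Set.mem_iInter, Set.mem_ofPred_eq]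
    exact mem_perp
  rw [Cls, this]
  exact isClosed_iInter fun _ => isClosed_eq (continuous_const.inner continuous_id) continuous_const

theorem Loc.cls {κ : Y → X} {N : Submodule ℂ (L2 Y)} (h : Loc H κ N) : Cls N := by
  obtain ⟨K, s, h1, -, -, -, rfl⟩ := h
  exact h1.inf (cls_sol _)

theorem Loc.inv {κ : Y → X} {N : Submodule ℂ (L2 Y)} (h : Loc H κ N) : Inv H N := by
  obtain ⟨K, s, -, h1, -, -, rfl⟩ := h
  exact h1.inf (inv_sol _)

theorem Loc.comp {X' : Type*} {κ : Y → X} {N : Submodule ℂ (L2 Y)} (h : Loc H κ N) (q : X → X') :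
    Loc H (fun y => q (κ y)) N := by
  obtain ⟨K, s, h1, h2, h3, h4, rfl⟩ := h
  exact ⟨K, s, h1, h2, fun x f hf => h3.res_preimage h1 (q ⁻¹' {x}) hf, h4, rfl⟩

/-- The union of the translates of the supports. -/
def hull (H : Type*) {Y : Type*} [Group H] [MulAction H Y] (s : Finset (L2 Y)) : Set Y :=
  {y | ∃ (g : H), ∃ a ∈ s, a (g • y) ≠ 0}

theorem hull_inv (s : Finset (L2 Y)) (h : H) (y : Y) (hy : y ∈ hull H s) : h • y ∈ hull H s := by
  obtain ⟨g, a, ha, hg⟩ := hy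
  exact ⟨g * h⁻¹, a, ha, by rwa [mul_smul, inv_smul_smul]⟩

theorem finite_supports {s : Finset (L2 Y)} (hs : ∀ a ∈ s, FinS a) :
    {y | ∃ a ∈ s, a y ≠ 0}.Finite := by
  refine (s.finite_toSet.biUnion (fun a ha => hs a ha)).subset ?_
  rintro y ⟨a, ha, hy⟩
  exact Set.mem_biUnion ha hy

theorem hull_cofin {s : Finset (L2 Y)} (hs : ∀ a ∈ s, FinS a) : Cofin H (hull H s) :=
  ⟨_, finite_supports hs, fun _ ⟨g, a, ha, hg⟩ => ⟨g, a, ha, hg⟩⟩

theorem supp_hull_le (s : Finset (L2 Y)) : supp (hull H s)ᶜ ≤ sol H (fun a : s => a.1) :=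
  fun _ hf => mem_sol.2 fun g a => inner_eq_zero_of_supp (S := hull H s)
    (fun y hy => by
      by_contra h
      exact hy ⟨g⁻¹, a, a.2, h⟩) hf fun _ h1 h2 => h2 h1

theorem compl_inv {S : Set Y} (hS : ∀ (h : H), ∀ z ∈ S, h • z ∈ S) :
    ∀ (h : H), ∀ z ∈ Sᶜ, h • z ∈ Sᶜ := fun h z hz hz' => hz (by simpa using hS h⁻¹ _ hz')

theorem pre_res_bot (S : Set Y) : pre (res S) ⊥ = supp Sᶜ := by
  ext f
  refine ⟨fun h y hy => ?_, fun h => res_eq_zero h fun _ h1 h2 => h2 h1⟩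
  have h2 : res S f = 0 := h
  rw [← res_apply_of_mem f (Set.notMem_compl_iff.1 hy), h2]
  rfl

theorem edim_orth_supp (hY : Free H Y) {S : Set Y} (hS : ∀ (h : H), ∀ z ∈ S, h • z ∈ S)
    {N : Submodule ℂ (L2 Y)} (hc : Cls N) (hi : Inv H N) :
    edim H (N ⊓ (N ⊓ supp Sᶜ)ᗮ : Submodule ℂ (L2 Y)) = edim H (img (res S) N) := by
  have hi0 : Inv H (N ⊓ supp Sᶜ) := hi.inf (inv_supp (compl_inv hS))
  rw [rank_nullity hY hY (eqv_res hS) (hc.inf (cls_orth _)) (hi.inf hi0.orth), pre_res_bot]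
  have h1 : N ⊓ (N ⊓ supp Sᶜ)ᗮ ⊓ supp Sᶜ = ⊥ :=
    eq_bot_iff.2 fun f hf => inner_self_eq_zero.1 (hf.1.2 f ⟨hf.1.1, hf.2⟩)
  rw [h1, edim_bot, zero_add]
  congr 1
  refine le_antisymm (Submodule.map_mono inf_le_left) ?_
  rintro _ ⟨f, hf, rfl⟩
  have h2 := proj_split (K := N ⊓ supp Sᶜ) hc inf_le_left f
  rw [proj_eq_self (le_cl N hf)] at h2
  refine ⟨_, (cl_eq (hc.inf (cls_orth (N ⊓ supp Sᶜ)))).le (proj_mem _ f), ?_⟩
  have h3 : res S (proj (N ⊓ supp Sᶜ) f) = 0 :=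
    res_eq_zero ((cl_eq (hc.inf (cls_supp _))).le (proj_mem _ f)).2 fun _ h1 h2 => h2 h1
  change res S _ = res S f
  conv_rhs => rw [h2, map_add, h3, zero_add]

theorem img_res_le (S : Set Y) (N : Submodule ℂ (L2 Y)) : img (res S) N ≤ supp S := by
  rintro _ ⟨f, -, rfl⟩
  exact res_mem_supp S f

theorem edim_orth_supp_ne_top (hY : Free H Y) {S : Set Y} (hS : ∀ (h : H), ∀ z ∈ S, h • z ∈ S)
    (hf : Cofin H S) {N : Submodule ℂ (L2 Y)} (hc : Cls N) (hi : Inv H N) :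
    edim H (N ⊓ (N ⊓ supp Sᶜ)ᗮ : Submodule ℂ (L2 Y)) ≠ ⊤ := by
  rw [edim_orth_supp hY hS hc hi]
  exact edim_ne_top_of_cofin hf (img_res_le S N)

theorem exists_width {u : Y → ℤ} {ψ : H → ℤ} (hu : ∀ g y, u (g • y) = ψ g + u y)
    {s : Finset (L2 Y)} (hs : ∀ a ∈ s, FinS a) :
    ∃ d : ℕ, ∀ (g : H), ∃ c : ℤ, ∀ a ∈ s, ∀ y, act g a y ≠ 0 → c ≤ u y ∧ u y ≤ c + d := by
  obtain ⟨c, hc⟩ := ((finite_supports hs).image (fun y => (u y).natAbs)).bddAbove
  refine ⟨2 * c, fun g => ⟨ψ g - c, fun a ha y hy => ?_⟩⟩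
  have h1 : (u (g⁻¹ • y)).natAbs ≤ c := hc ⟨_, ⟨a, ha, hy⟩, rfl⟩
  have h2 := hu g (g⁻¹ • y)
  rw [smul_inv_smul] at h2
  omega

theorem inner_eq_sum {a : L2 Y} (ha : FinS a) (f : L2 Y) :
    ⟪a, f⟫_ℂ = ∑ y ∈ Set.Finite.toFinset ha, starRingEnd ℂ (a y) * f y := by
  conv_lhs => rw [ha.eq_sum, sum_inner]
  exact Finset.sum_congr rfl fun y _ => by rw [inner_smul_left, inner_delta_left]

theorem sum_apply' {I : Type*} (s : Finset I) (f : I → L2 Y) (y : Y) :
    (∑ i ∈ s, f i) y = ∑ i ∈ s, f i y := by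
  rw [← inner_delta_left, inner_sum]
  simp only [inner_delta_left]

/-- Solutions of differently twisted systems are independent. -/
theorem indep {u : Y → ℤ} {s : Finset (L2 Y)} (hs : ∀ a ∈ s, FinS a) {d : ℕ}
    (hd : ∀ (g : H), ∃ c : ℤ, ∀ a ∈ s, ∀ y, act g a y ≠ 0 → c ≤ u y ∧ u y ≤ c + d)
    {M : Submodule ℂ (L2 Y)} (hM : M ⊓ sol H (fun a : s => a.1) = ⊥) {n : ℕ} {z : Fin n → Circle}
    (hz : Function.Injective z) (hz1 : ∀ j, z j ≠ 1) {x : Fin n → L2 Y} (hx : ∀ j, x j ∈ M)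
    (hx' : ∀ j, mulO (fun y => z j ^ u y) (x j) ∈ sol H (fun a : s => a.1))
    (h0 : ∀ i < d, ∑ j, ((z j : ℂ) - 1)⁻¹ ^ i • x j = 0) (j : Fin n) : x j = 0 := by
  let w : Fin n → ℂ := fun j => ((z j : ℂ) - 1)⁻¹
  have hne : ∀ j, (z j : ℂ) - 1 ≠ 0 := fun j h => hz1 j (Circle.ext (sub_eq_zero.1 h))
  have hw : ∀ j, (z j : ℂ) * w j = w j + 1 := fun j => by
    have := hne j
    simp only [w]
    field_simp
    ring
  let m : ℕ → ℕ → L2 Y := fun k l => ∑ j, ((z j : ℂ) ^ k * w j ^ l) • x j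
  have hm : ∀ k l, m (k + 1) (l + 1) = m k (l + 1) + m k l := fun k l => by
    simp only [m]
    rw [← Finset.sum_add_distrib]
    refine Finset.sum_congr rfl fun j _ => ?_
    rw [← add_smul]
    congr 1
    linear_combination ((z j : ℂ) ^ k * w j ^ l) * hw j
  have key : ∀ l, m 0 l = 0 := by
    intro l
    induction l using Nat.strong_induction_on with
    | _ l ih =>
      rcases lt_or_ge l d with hl | hl
      · simpa only [m, pow_zero, one_mul] using h0 l hl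
      have h1 : ∀ k i, k ≤ i → i ≤ l → m k i = m 0 i := by
        intro k
        induction k with
        | zero => intros; rfl
        | succ k ihk =>
          intro i hi hil
          obtain ⟨i, rfl⟩ : ∃ i', i = i' + 1 := ⟨i - 1, by omega⟩
          rw [hm, ihk _ (by omega) hil, ihk _ (by omega) (by omega), ih i (by omega), add_zero]
      rw [← Submodule.mem_bot ℂ, ← hM]
      refine ⟨M.sum_mem fun j _ => M.smul_mem _ (hx j), mem_sol.2 fun g a => ?_⟩
      obtain ⟨c, hc⟩ := hd g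
      have hfin : FinS (act g a.1) := finCols_act g _ (hs a a.2)
      have h2 : ∑ j, w j ^ l * ((z j : ℂ) ^ c)⁻¹ *
          ⟪act g a.1, mulO (fun y => z j ^ u y) (x j)⟫_ℂ = 0 :=
        Finset.sum_eq_zero fun j _ => by rw [mem_sol.1 (hx' j) g a, mul_zero]
      rw [← h2, inner_eq_sum hfin]
      simp only [inner_eq_sum hfin, Finset.mul_sum]
      rw [Finset.sum_comm]
      refine Finset.sum_congr rfl fun y hy => ?_
      obtain ⟨h3, h4⟩ := hc a a.2 y (by simpa using hy)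
      obtain ⟨k, hk⟩ := Int.eq_ofNat_of_zero_le (sub_nonneg.2 h3)
      rw [← h1 k l (by omega) le_rfl]
      simp only [m]
      rw [sum_apply', Finset.mul_sum]
      refine Finset.sum_congr rfl fun j _ => ?_
      have h5 : u y = c + k := by omega
      have h6 : (z j : ℂ) ^ c ≠ 0 := zpow_ne_zero _ (z j).coe_ne_zero
      rw [mulO_apply, h5, Circle.coe_zpow, zpow_add₀ (z j).coe_ne_zero, zpow_natCast,
        lp.coeFn_smul, Pi.smul_apply, smul_eq_mul]
      field_simp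
  ext y
  have hwi : Function.Injective w := fun i j h => hz (Circle.ext (sub_left_inj.1 (inv_inj.1 h)))
  have := Matrix.eq_zero_of_forall_pow_sum_mul_pow_eq_zero (v := fun j => x j y) hwi (fun i => by
    have h1 := congrArg (fun f : L2 Y => f y) (key i)
    simp only [m] at h1
    rw [sum_apply'] at h1
    simpa [mul_comm] using h1)
  exact congrFun this j

theorem sum_edim_le (hY : Free H Y) {n : ℕ} {k : Fin n → Submodule ℂ (L2 Y)}
    (hc : ∀ j, Cls (k j)) (hi : ∀ j, Inv H (k j)) :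
    ∑ j, edim H (k j) ≤
      edim H (⨅ j, pre (pull _ (tw_inj (fun _ : Y => j))) (k j) : Submodule ℂ (L2 (Tw Y (Fin n)))) := by
  have h1 : ∀ j, edim H (k j) = edim H (img (push _ (tw_inj (fun _ : Y => j))) (k j)) := fun j =>
    (edim_img_of_inj hY (free_tw hY) (eqv_push _ fun _ _ => rfl)
      (fun f hf => by rw [← pull_push _ (tw_inj (fun _ : Y => j)) f, hf, map_zero])
      (hc j) (hi j)).symm
  simp only [h1]
  simp only [edim]
  rw [← tsum_fintype (L := SummationFilter.unconditional _), ← osum_tsum]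
  refine osum_mono fun p => ?_
  rw [tsum_eq_single p.k]
  · refine tau_mono ?_ p
    rintro _ ⟨f, hf, rfl⟩
    refine (Submodule.mem_iInf _).2 fun j => ?_
    change pull _ _ (push _ _ f) ∈ k j
    by_cases h : j = p.k
    · subst h; rwa [pull_push]
    · have : pull _ (tw_inj (fun _ : Y => j)) (push _ (tw_inj (fun _ : Y => p.k)) f) = 0 := by
        ext y
        exact push_apply_not _ _ _ fun w hw => h (congrArg Tw.k hw).symm
      rw [this]
      exact Submodule.zero_mem _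
  · intro j hj
    refine tau_eq_zero_of_supp (S := {q | q.k = j}) ?_ (fun h => hj h.symm)
    rintro _ ⟨f, -, rfl⟩ q hq
    exact push_apply_not _ _ _ fun w hw => hq (congrArg Tw.k hw).symm

end Gen

section Gen2

variable {H X Y : Type*} [CommGroup H] [MulAction H Y]

theorem tw_smul {u : Y → ℤ} {ψ : H → ℤ} (hu : ∀ g y, u (g • y) = ψ g + u y) (z : Circle) (g : H)
    (y : Y) : z ^ u (g • y) = z ^ ψ g * z ^ u y := by rw [hu, zpow_add]

theorem sum_twisted_le (hY : Free H Y) {u : Y → ℤ} {ψ : H → ℤ}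
    (hu : ∀ g y, u (g • y) = ψ g + u y) {s : Finset (L2 Y)} (hs : ∀ a ∈ s, FinS a) {d : ℕ}
    (hd : ∀ (g : H), ∃ c : ℤ, ∀ a ∈ s, ∀ y, act g a y ≠ 0 → c ≤ u y ∧ u y ≤ c + d)
    {M : Submodule ℂ (L2 Y)} (hc : Cls M) (hi : Inv H M)
    (hM : M ⊓ sol H (fun a : s => a.1) = ⊥) {n : ℕ} {z : Fin n → Circle}
    (hz : Function.Injective z) (hz1 : ∀ j, z j ≠ 1) :
    ∑ j, edim H (M ⊓ pre (mulO fun y => z j ^ u y) (sol H fun a : s => a.1) :
      Submodule ℂ (L2 Y)) ≤ d * edim H M := by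
  have hck : ∀ j, Cls (M ⊓ pre (mulO fun y => z j ^ u y) (sol H fun a : s => a.1)) :=
    fun j => hc.inf ((cls_sol _).pre _)
  have hik : ∀ j, Inv H (M ⊓ pre (mulO fun y => z j ^ u y) (sol H fun a : s => a.1)) :=
    fun j => hi.inf (inv_pre_mulO (tw_smul hu (z j)) (inv_sol _))
  refine (sum_edim_le hY hck hik).trans ?_
  set X₀ : Submodule ℂ (L2 (Tw Y (Fin n))) := ⨅ j, pre (pull _ (tw_inj (fun _ : Y => j)))
    (M ⊓ pre (mulO fun y => z j ^ u y) (sol H fun a : s => a.1)) with hX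
  have hpe : ∀ j : Fin n, Eqv H (pull _ (tw_inj (fun _ : Y => j))) :=
    fun j => eqv_pull _ fun _ _ => rfl
  let T : ℕ → L2 (Tw Y (Fin n)) →L[ℂ] L2 Y := fun i =>
    ∑ j, ((z j : ℂ) - 1)⁻¹ ^ i • pull _ (tw_inj (fun _ : Y => j))
  have hT : ∀ i, Eqv H (T i) := fun i => eqv_sum _ fun j _ => (hpe j).smul _
  have hTa : ∀ i f, T i f = ∑ j, ((z j : ℂ) - 1)⁻¹ ^ i • pull _ (tw_inj (fun _ : Y => j)) f :=
    fun i f => by simp only [T, sum_apply, smul_apply]
  let Xl : ℕ → Submodule ℂ (L2 (Tw Y (Fin n))) := fun l => X₀ ⊓ ⨅ i : {i // i < l}, pre (T i) ⊥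
  have hXc : Cls X₀ := cls_iInf fun j => (hck j).pre _
  have hXi : Inv H X₀ := inv_iInf fun j => (hik j).pre (hpe j)
  have c1 : ∀ l, Cls (Xl l) := fun l => hXc.inf (cls_iInf fun i => cls_bot.pre _)
  have i1 : ∀ l, Inv H (Xl l) := fun l => hXi.inf (inv_iInf fun i => inv_bot.pre (hT i))
  have key : ∀ l : ℕ, edim H X₀ ≤ edim H (Xl l) + l * edim H M := by
    intro l
    induction l with
    | zero =>
      rw [Nat.cast_zero, zero_mul, add_zero]
      exact edim_mono (le_inf le_rfl (le_iInf fun i => absurd i.2 (Nat.not_lt_zero _)))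
    | succ l ih =>
      refine ih.trans ?_
      rw [rank_nullity (free_tw hY) hY (hT l) (c1 l) (i1 l), Nat.cast_succ, add_mul, one_mul,
        add_assoc, add_comm (edim H (img _ _))]
      refine add_le_add (edim_mono fun f hf => ⟨hf.1.1, (Submodule.mem_iInf _).2 fun i => ?_⟩)
        (add_le_add le_rfl (edim_mono ?_))
      · rcases Nat.lt_succ_iff_lt_or_eq.1 i.2 with h | h
        · exact (Submodule.mem_iInf _).1 hf.1.2 ⟨i, h⟩
        · rw [h]; exact hf.2
      · rintro _ ⟨f, hf, rfl⟩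
        change T l f ∈ M
        rw [hTa]
        exact M.sum_mem fun j _ => M.smul_mem _ ((Submodule.mem_iInf _).1 hf.1 j).1
  have h0 : Xl d = ⊥ := eq_bot_iff.2 fun f hf => by
    have h1 := indep hs hd hM hz hz1 (x := fun j => pull _ (tw_inj (fun _ : Y => j)) f)
      (fun j => ((Submodule.mem_iInf _).1 hf.1 j).1) (fun j => ((Submodule.mem_iInf _).1 hf.1 j).2)
      (fun i hi => by
        rw [← hTa]
        exact (Submodule.mem_iInf _).1 hf.2 ⟨i, hi⟩)
    rw [Submodule.mem_bot]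
    ext ⟨y, j⟩
    exact congrArg (fun g : L2 Y => g y) (h1 j)
  have := key d
  rwa [h0, edim_bot, zero_add] at this

theorem countable_twisted (hY : Free H Y) {u : Y → ℤ} {ψ : H → ℤ}
    (hu : ∀ g y, u (g • y) = ψ g + u y) {s : Finset (L2 Y)} (hs : ∀ a ∈ s, FinS a)
    {M : Submodule ℂ (L2 Y)} (hc : Cls M) (hi : Inv H M) (hf : edim H M ≠ ⊤)
    (hM : M ⊓ sol H (fun a : s => a.1) = ⊥) :
    {z : Circle | M ⊓ pre (mulO fun y => z ^ u y) (sol H fun a : s => a.1) ≠ ⊥}.Countable := by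
  classical
  obtain ⟨d, hd⟩ := exists_width hu hs
  let F : {z : Circle // z ≠ 1} → ℝ≥0∞ := fun z =>
    edim H (M ⊓ pre (mulO fun y => z.1 ^ u y) (sol H fun a : s => a.1) : Submodule ℂ (L2 Y))
  have h1 : ∑' z, F z ≠ ⊤ := by
    refine ne_top_of_le_ne_top (ENNReal.mul_ne_top (ENNReal.natCast_ne_top d) hf) ?_
    rw [ENNReal.tsum_eq_iSup_sum]
    refine iSup_le fun t => ?_
    rw [← Finset.sum_coe_sort, ← t.equivFin.symm.sum_comp]
    exact sum_twisted_le hY hu hs hd hc hi hM (z := fun j => (t.equivFin.symm j).1.1)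
      (fun i j h => t.equivFin.symm.injective (Subtype.ext (Subtype.ext h)))
      (fun j => (t.equivFin.symm j).1.2)
  refine (((Summable.countable_support_ennreal h1).image Subtype.val).insert 1).mono ?_
  intro z hz
  by_cases h : z = 1
  · exact Or.inl h
  · refine Or.inr ⟨⟨z, h⟩, fun h0 => hz (eq_bot_of_edim ?_ h0), rfl⟩
    exact hi.inf (inv_pre_mulO (tw_smul hu z) (inv_sol _))

/-- The weighted dimension of the finite part does not see generic twists. -/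
theorem countable_wdim (hY : Free H Y) {u : Y → ℤ} {ψ : H → ℤ}
    (hu : ∀ g y, u (g • y) = ψ g + u y) {s : Finset (L2 Y)} (hs : ∀ a ∈ s, FinS a)
    {K : Submodule ℂ (L2 Y)} (hc : Cls K) (hi : Inv H K) (hK : Split u K) (hf : edim H K ≠ ⊤)
    (b : H) : {z : Circle | ¬∀ ζ : ℂ, wdim H (ζ * (z ^ ψ b : Circle)) b
      (K ⊓ sol H fun a : s => a.1) = wdim H ζ b (K ⊓ sol H fun a : s => a.1)}.Countable := by
  set k := K ⊓ sol H fun a : s => a.1 with hk
  have ck : Cls k := hc.inf (cls_sol _)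
  have ik : Inv H k := hi.inf (inv_sol _)
  refine (countable_twisted hY hu hs (hc.inf (cls_orth k)) (hi.inf ik.orth)
    (fin_of_le hf inf_le_left) (eq_bot_iff.2 fun f hf =>
      inner_self_eq_zero.1 (hf.1.2 f ⟨hf.1.1, hf.2⟩))).mono ?_
  intro z hz h0
  refine hz fun ζ => ?_
  rw [← wdim_pre_mulO ζ b (φ := fun y => z ^ u y) (tw_smul hu z b) ck]
  refine wdim_eq_of_inf hY ζ b (ck.pre _) ck (inv_pre_mulO (tw_smul hu z) ik) ik ?_
    (fin_of_le hf inf_le_left) (edim_pre_mulO _ ck)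
  refine eq_bot_iff.2 fun f hf => h0.le ⟨⟨?_, hf.2⟩, hf.1.2⟩
  rw [← mulO_inv (fun y => z ^ u y) f]
  exact mulO_mem hc hK (fun i => (z ^ i)⁻¹) hf.1.1

theorem exists_twist {S : Set Circle} (hS : S.Countable) {n : ℤ} (hn : n ≠ 0) :
    ∃ z : Circle, z ∉ S ∧ z ^ n ≠ 1 := by
  have h1 : {z : Circle | z ^ n = 1}.Countable := by
    have h2 : {x : ℂ | x ^ n.natAbs = 1}.Finite := by
      refine (Polynomial.nthRoots n.natAbs (1 : ℂ)).finite_toSet.subset fun x hx => ?_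
      exact (Polynomial.mem_nthRoots (Int.natAbs_pos.2 hn)).2 hx
    refine (h2.preimage Circle.coe_injective.injOn).countable.mono fun z hz => ?_
    change (z : ℂ) ^ n.natAbs = 1
    rw [← Circle.coe_pow, pow_natAbs_eq_one.2 hz, Circle.coe_one]
  by_contra h
  push Not at h
  have h3 : (Set.univ : Set Circle).Countable := (hS.union h1).mono fun z _ => by
    by_cases hz : z ∈ S
    · exact Or.inl hz
    · exact Or.inr (h z hz)
  have h4 : (Set.Icc (0 : ℝ) 1).Countable :=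
    Set.countable_of_injective_of_countable_image
      (Circle.exp_injOn_Icc (by linarith [Real.pi_gt_three])) (h3.mono (Set.subset_univ _))
  exact absurd (Cardinal.Real.Icc_countable_iff.1 h4) (by norm_num)

/-- The weighted dimension of a restriction space is invariant under a nontrivial twist. -/
theorem exists_wdim_twist (hY : Free H Y) {u : Y → ℤ} {ψ : H → ℤ}
    (hu : ∀ g y, u (g • y) = ψ g + u y) {N : Submodule ℂ (L2 Y)} (hN : Loc H u N) {Z : Set Y}
    (hZ : ∀ (h : H), ∀ z ∈ Z, h • z ∈ Z) (hZc : Cofin H Z) {b : H} (hb : ψ b ≠ 0) :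
    ∃ η : Circle, η ≠ 1 ∧ ∀ ζ : ℂ,
      wdim H (ζ * η) b (img (res Z) N) = wdim H ζ b (img (res Z) N) := by
  obtain ⟨K, s, hc, hi, hK, hs, rfl⟩ := hN
  set Z' := Z ∪ hull H s with hZ'
  have hZi : ∀ (h : H), ∀ z ∈ Z', h • z ∈ Z' := fun h z hz =>
    hz.imp (hZ h z) (hull_inv s h z)
  have hZf : Cofin H Z' := by
    obtain ⟨F, hF, h1⟩ := hZc
    obtain ⟨F', hF', h2⟩ := hull_cofin (H := H) hs
    refine ⟨F ∪ F', hF.union hF', fun z hz => ?_⟩
    rcases hz with hz | hz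
    · exact (h1 z hz).imp fun _ h => Or.inl h
    · exact (h2 z hz).imp fun _ h => Or.inr h
  set K₀ := K ⊓ supp Z'ᶜ with hK₀
  set K₁ := K ⊓ K₀ᗮ with hK₁
  have i0 : Inv H K₀ := hi.inf (inv_supp (compl_inv hZi))
  have c1 : Cls K₁ := hc.inf (cls_orth _)
  have i1 : Inv H K₁ := hi.inf i0.orth
  have s1 : Split u K₁ := hK.inf (Split.orth (hK.inf (split_supp _ _)))
  have f1 : edim H K₁ ≠ ⊤ := edim_orth_supp_ne_top hY hZi hZf hc hi
  have c2 : Cls (K₁ ⊓ supp Zᶜ) := c1.inf (cls_supp _)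
  have i2 : Inv H (K₁ ⊓ supp Zᶜ) := i1.inf (inv_supp (compl_inv hZ))
  obtain ⟨z, hz, hz1⟩ := exists_twist ((countable_wdim hY hu hs c1 i1 s1 f1 b).union
    (countable_wdim hY hu hs c2 i2 (s1.inf (split_supp _ _)) (fin_of_le f1 inf_le_left) b)) hb
  simp only [Set.mem_union, Set.mem_ofPred_eq, not_or, not_not] at hz
  refine ⟨z ^ ψ b, hz1, fun ζ => ?_⟩
  have ck : Cls (K₁ ⊓ sol H fun a : s => a.1) := c1.inf (cls_sol _)
  have ik : Inv H (K₁ ⊓ sol H fun a : s => a.1) := i1.inf (inv_sol _)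
  have e1 : (K₁ ⊓ sol H fun a : s => a.1) ⊓ pre (res Z) ⊥ =
      K₁ ⊓ supp Zᶜ ⊓ sol H fun a : s => a.1 := by
    rw [pre_res_bot, inf_right_comm]
  have e2 : img (res Z) (K₁ ⊓ sol H fun a : s => a.1) =
      img (res Z) (K ⊓ sol H fun a : s => a.1) := by
    refine le_antisymm (Submodule.map_mono (inf_le_inf_right _ inf_le_left)) ?_
    rintro _ ⟨f, hf, rfl⟩
    have h1 : proj K₀ f ∈ K₀ := (cl_eq (hc.inf (cls_supp _))).le (proj_mem _ f)
    refine ⟨f - proj K₀ f, ⟨⟨K.sub_mem hf.1 h1.1, sub_proj_mem _ _⟩, Submodule.sub_mem _ hf.2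
      (supp_hull_le s (supp_mono (Set.compl_subset_compl.2 Set.subset_union_right) h1.2))⟩, ?_⟩
    change res Z _ = res Z f
    rw [map_sub, res_eq_zero h1.2 fun _ h2 h3 => h3 (Or.inl h2), sub_zero]
  have h1 := wrank_nullity hY hY ζ b (eqv_res hZ) ck ik
  have h2 := wrank_nullity hY hY (ζ * (z ^ ψ b : Circle)) b (eqv_res hZ) ck ik
  rw [e1, e2] at h1 h2
  rw [hz.1, hz.2, h1] at h2
  exact ((ENNReal.add_right_inj (wdim_ne_top ζ b (i2.inf (inv_sol _))
    (fin_of_le f1 (inf_le_left.trans inf_le_left)))).1 h2).symm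

end Gen2

end Pool.Agent.P.MP_0f25e6_al.RM
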