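import Pool.Agent.P.MP_0f25e6_al.RM2

/-!
Integrality of restriction spaces over abelian groups with enough circle symmetries.
-/

set_option autoImplicit false

open scoped InnerProductSpace ENNReal Topology
open Filter MulAction

noncomputable section

namespace Pool.Agent.P.MP_0f25e6_al.RM

open HN

theorem idem_trace {A J : Type*} [CommRing A] [Algebra ℂ A] [Nontrivial A] [Fintype J]
    [DecidableEq J] (e : Matrix J J A) (he : e * e = e) {τ : ℂ}
    (ht : e.trace = algebraMap ℂ A τ) : ∃ n : ℕ, τ = n := by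
  obtain ⟨m, hm⟩ := Ideal.exists_maximal A
  let _ := Ideal.Quotient.field m
  let q : A →ₐ[ℂ] A ⧸ m := Ideal.Quotient.mkₐ ℂ m
  let e' : Matrix J J (A ⧸ m) := e.map q
  have h1 : e' * e' = e' := by
    simp only [e']
    rw [← Matrix.map_mul, he]
  have h2 : IsIdempotentElem (Matrix.toLin' e') := by
    change Matrix.toLin' e' ∘ₗ Matrix.toLin' e' = _
    rw [← Matrix.toLin'_mul, h1]
  have h3 := (LinearMap.IsIdempotentElem.isProj_range _ h2).trace
  rw [Matrix.trace_toLin'_eq] at h3
  have h4 : e'.trace = algebraMap ℂ (A ⧸ m) τ := by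
    rw [← q.commutes, ← ht]
    simp only [e', Matrix.trace, Matrix.diag, Matrix.map_apply, map_sum]
  exact ⟨_, (algebraMap ℂ (A ⧸ m)).injective (by rw [← h4, h3, map_natCast])⟩

variable {H Y : Type*} [CommGroup H] [MulAction H Y]

theorem ext_eqv {S T : L2 H →L[ℂ] L2 H} (hS : Eqv H S) (hT : Eqv H T)
    (h : S (delta 1) = T (delta 1)) : S = T := ext_delta fun g => by
  have h1 : (delta g : L2 H) = act g (delta 1) := by rw [act_delta, smul_eq_mul, mul_one]
  rw [h1, hS, hT, h]

theorem hasSum_eqv {S : L2 H →L[ℂ] L2 H} (hS : Eqv H S) (f : L2 H) (g : H) :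
    HasSum (fun c => f c * S (delta 1) (c⁻¹ * g)) (S f g) := by
  have h1 := ((hasSum_delta f).mapL S).mapL (innerSL ℂ (delta g))
  simp only [map_smul, innerSL_apply_apply, inner_delta_left, smul_eq_mul] at h1
  have h2 : ∀ c, S (delta c) g = S (delta 1) (c⁻¹ * g) := fun c => by
    have h3 : (delta c : L2 H) = act c (delta 1) := by rw [act_delta, smul_eq_mul, mul_one]
    rw [h3, hS, act_apply, smul_eq_mul]
  simpa only [h2] using h1

theorem eqv_comm {S T : L2 H →L[ℂ] L2 H} (hS : Eqv H S) (hT : Eqv H T) : S * T = T * S := by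
  refine ext_eqv (hS.mul hT) (hT.mul hS) ?_
  ext g
  have h1 := hasSum_eqv hS (T (delta 1)) g
  have h2 := hasSum_eqv hT (S (delta 1)) g
  rw [← ((Equiv.inv H).trans (Equiv.mulRight g)).hasSum_iff] at h2
  have h3 : (fun c => T (delta 1) c * S (delta 1) (c⁻¹ * g)) =
      (fun c => S (delta 1) c * T (delta 1) (c⁻¹ * g)) ∘
        ((Equiv.inv H).trans (Equiv.mulRight g)) := by
    funext c
    simp [mul_comm]
  rw [h3] at h1
  exact h1.unique h2

/-- The algebra of equivariant operators. -/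
def eqvAlg (H : Type*) [CommGroup H] : Subalgebra ℂ (L2 H →L[ℂ] L2 H) where
  carrier := {T | Eqv H T}
  mul_mem' := Eqv.mul
  add_mem' := Eqv.add
  algebraMap_mem' c := by
    rw [Algebra.algebraMap_eq_smul_one]
    exact eqv_one.smul c

theorem int_of_twist (hY : Free H Y) {U : Submodule ℂ (L2 Y)} (hi : Inv H U) {Z : Set Y}
    (hZ : ∀ (h : H), ∀ z ∈ Z, h • z ∈ Z) (hZc : Cofin H Z) (hU : U ≤ supp Z)
    (h : ∀ b : H, b ≠ 1 → ∃ η : Circle, η ≠ 1 ∧ ∀ ζ : ℂ, wdim H (ζ * η) b U = wdim H ζ b U) :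
    ∃ n : ℕ, edim H U = n := by
  classical
  have hfin : {q : orbitRel.Quotient H Y | q.out ∈ Z}.Finite := by
    obtain ⟨F, hF, hFS⟩ := hZc
    refine (hF.image (Quotient.mk (orbitRel H Y))).subset fun q hq => ?_
    obtain ⟨g, hg⟩ := hFS _ hq
    exact ⟨_, hg, by rw [mk_smul, Quotient.out_eq]⟩
  set t := hfin.toFinset with ht
  have hP0 : ∀ y, y ∉ Z → proj U (delta y) = 0 := fun y hy => proj_eq_zero fun g hg => by
    rw [inner_delta_right, hU hg y hy, map_zero]
  have hPe := eqv_proj hi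
  have hos : ∀ F : L2 Y → ℝ, F 0 = 0 → (∀ f, 0 ≤ F f) →
      osum H (fun y => ENNReal.ofReal (F (proj U (delta y)))) =
        ENNReal.ofReal (∑ q : t, F (proj U (delta q.1.out))) := by
    intro F hF hF0
    rw [osum, tsum_eq_sum (s := t), ENNReal.ofReal_sum_of_nonneg fun _ _ => hF0 _,
      Finset.sum_coe_sort t (fun q => ENNReal.ofReal (F (proj U (delta q.out))))]
    intro q hq
    rw [hP0 _ (by simpa [ht] using hq), hF, ENNReal.ofReal_zero]
  have hs : ∀ b : H, b ≠ 1 →
      ∑ q : t, ⟪proj U (delta q.1.out), act b (proj U (delta q.1.out))⟫_ℂ = 0 := by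
    intro b hb
    obtain ⟨η, hη, h1⟩ := h b hb
    set σ := ∑ q : t, ⟪proj U (delta q.1.out), act b (proj U (delta q.1.out))⟫_ℂ with hσ
    have h2 : ∀ ζ : ℂ, wdim H ζ b U =
        ENNReal.ofReal (∑ q : t, ‖wop ζ b (proj U (delta q.1.out))‖ ^ 2) := fun ζ => by
      rw [← hos (fun f => ‖wop ζ b f‖ ^ 2) (by simp) (fun _ => by positivity), wdim]
      simp only [map_wop hPe, enorm_sq_ofReal]
    have h3 : ∀ ζ : ℂ, (ζ * η * σ).re = (ζ * σ).re := fun ζ => by
      have h4 := h1 ζ
      rw [h2, h2, ENNReal.ofReal_eq_ofReal_iff (by positivity) (by positivity)] at h4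
      simp only [norm_wop_sq, Finset.sum_add_distrib, norm_mul, Circle.norm_coe, mul_one,
        add_right_inj, ← Finset.mul_sum, ← Complex.re_sum] at h4
      exact mul_left_cancel₀ two_ne_zero h4
    have h5 : ((η : ℂ) - 1) * σ = 0 := by
      have h6 := h3 1
      have h7 := h3 Complex.I
      apply Complex.ext
      · simp only [one_mul] at h6
        rw [sub_mul, Complex.sub_re, h6]
        simp
      · rw [mul_assoc, Complex.I_mul_re, Complex.I_mul_re, neg_inj] at h7
        rw [sub_mul, Complex.sub_im, h7]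
        simp
    exact (mul_eq_zero.1 h5).resolve_left fun h8 => hη (Circle.ext (sub_eq_zero.1 h8))
  have hinj : ∀ q : t, Function.Injective fun g : H => g • q.1.out := fun q a c hac => by
    have := (orbit_bij hY).1 (a₁ := (q.1, a)) (a₂ := (q.1, c)) hac
    exact congrArg Prod.snd this
  have hje : ∀ (q : t) (a g : H), (a • g) • q.1.out = a • g • q.1.out :=
    fun q a g => mul_smul a g _
  let _ : CommRing (eqvAlg H) :=
    { (inferInstance : Ring (eqvAlg H)) with
      mul_comm := fun a b => Subtype.ext (eqv_comm a.2 b.2) }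
  have : Nontrivial (eqvAlg H) := ⟨0, 1, fun h0 => by
    have h1 := congrArg (fun T : eqvAlg H => T.1 (delta 1) 1) h0
    simp [delta_self] at h1⟩
  let e : Matrix t t (eqvAlg H) := fun i j =>
    ⟨pull _ (hinj i) ∘L proj U ∘L push _ (hinj j),
      (eqv_pull _ (hje i)).comp (hPe.comp (eqv_push _ (hje j)))⟩
  have hsum : ∀ f ∈ supp Z, ∑ q : t, push _ (hinj q) (pull _ (hinj q) f) = f := by
    intro f hf
    ext y
    rw [sum_apply']
    by_cases hy : y ∈ Z
    · obtain ⟨g, hg⟩ := exists_smul_out (H := H) y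
      have hq : Quotient.mk (orbitRel H Y) y ∈ t := by
        have := hZ g⁻¹ y hy
        rw [← hg, inv_smul_smul] at this
        simpa [ht] using this
      rw [Finset.sum_eq_single ⟨_, hq⟩]
      · have h2 := push_apply_self _ (hinj ⟨_, hq⟩) (pull _ (hinj ⟨_, hq⟩) f) g
        rw [pull_apply] at h2
        simp only [hg] at h2
        exact h2
      · intro q _ hne
        refine push_apply_not _ _ _ fun a ha => hne (Subtype.ext ?_)
        change q.1 = Quotient.mk _ y
        rw [← ha, mk_smul, Quotient.out_eq]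
      · intro h; exact absurd (Finset.mem_univ _) h
    · rw [hf y hy]
      refine Finset.sum_eq_zero fun q _ => push_apply_not _ _ _ fun a ha => hy ?_
      rw [← ha]
      exact hZ a _ (hfin.mem_toFinset.1 q.2)
  have he : e * e = e := by
    ext i k : 1
    refine Subtype.ext ?_
    rw [Matrix.mul_apply, AddSubmonoidClass.coe_finsetSum]
    ext1 f
    rw [sum_apply]
    change ∑ j : t, pull _ (hinj i) (proj U (push _ (hinj j) (pull _ (hinj j)
      (proj U (push _ (hinj k) f))))) = pull _ (hinj i) (proj U (push _ (hinj k) f))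
    rw [← map_sum, ← map_sum, hsum _ (cl_le hU (cls_supp Z) (proj_mem _ _)),
      proj_eq_self (proj_mem _ _)]
  have htr : e.trace = algebraMap ℂ (eqvAlg H)
      ((∑ q : t, ‖proj U (delta q.1.out)‖ ^ 2 : ℝ) : ℂ) := by
    refine Subtype.ext (ext_eqv (Subtype.prop _) (Subtype.prop _) ?_)
    rw [Matrix.trace, AddSubmonoidClass.coe_finsetSum, sum_apply, Algebra.algebraMap_eq_smul_one]
    ext g
    rw [sum_apply']
    have h1 : ∀ q : t, (e.diag q).1 (delta 1) g =
        ⟪proj U (delta q.1.out), act g⁻¹ (proj U (delta q.1.out))⟫_ℂ := fun q => by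
      change proj U (push _ (hinj q) (delta 1)) (g • q.1.out) = _
      rw [push_delta, one_smul, ← hPe, inner_proj_left, proj_eq_self (proj_mem _ _), hPe,
        inner_delta_left, act_apply, inv_inv]
    simp only [h1]
    change _ = _ * delta (1 : H) g
    by_cases hg : g = 1
    · subst hg
      simp only [inv_one, act_one, delta_self, mul_one, Complex.ofReal_sum]
      refine Finset.sum_congr rfl fun q _ => ?_
      rw [inner_self_eq_norm_sq_to_K]
      norm_cast
    · rw [hs _ (inv_ne_one.2 hg), delta_ne hg, mul_zero]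
  obtain ⟨n, hn⟩ := idem_trace e he htr
  refine ⟨n, ?_⟩
  have h1 := hos (fun f => ‖f‖ ^ 2) (by simp) (fun _ => by positivity)
  rw [edim]
  have h2 : tau U = fun y => ENNReal.ofReal (‖proj U (delta y)‖ ^ 2) :=
    funext fun y => enorm_sq_ofReal _
  rw [h2, h1, ← ENNReal.ofReal_natCast]
  congr 1
  exact_mod_cast hn

/-- Every nontrivial group element is seen by a grading for which `N` is local. -/
def Adm (H : Type*) {Y : Type*} [Group H] [MulAction H Y] (N : Submodule ℂ (L2 Y)) : Prop :=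
  ∀ b : H, b ≠ 1 → ∃ (u : Y → ℤ) (ψ : H → ℤ), (∀ g y, u (g • y) = ψ g + u y) ∧ ψ b ≠ 0 ∧
    Loc H u N

theorem Adm.int (hY : Free H Y) {N : Submodule ℂ (L2 Y)} (hc : Cls N) (hi : Inv H N)
    (hN : Adm H N) {Z : Set Y} (hZ : ∀ (h : H), ∀ z ∈ Z, h • z ∈ Z) (hZc : Cofin H Z) :
    ∃ n : ℕ, edim H (N ⊓ (N ⊓ supp Zᶜ)ᗮ : Submodule ℂ (L2 Y)) = n := by
  rw [edim_orth_supp hY hZ hc hi]
  refine int_of_twist hY (hi.img (eqv_res hZ)) hZ hZc (img_res_le Z N) fun b hb => ?_
  obtain ⟨u, ψ, hu, hb', hl⟩ := hN b hb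
  exact exists_wdim_twist hY hu hl hZ hZc hb'

end Pool.Agent.P.MP_0f25e6_al.RM
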