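import Mathlib

/-!
A Hilbert function lemma for supermodular, translation invariant, integer valued functions on
finite subsets of the plane lattice.
-/

set_option autoImplicit false

namespace Pool.Agent.P.MP_0f25e6_al.RM

theorem exists_quad (a b ε : ℝ) (hε : 0 < ε) : ∃ n : ℕ, a + b * n < ε * (n * (n - 1) / 2) := by
  obtain ⟨n, hn⟩ := exists_nat_gt (2 * (|a| + |b|) / ε + 2)
  refine ⟨n, ?_⟩
  have h0 : 0 ≤ 2 * (|a| + |b|) / ε := by positivity
  have h1 : 2 * (|a| + |b|) < (n - 2) * ε := (div_lt_iff₀ hε).1 (by linarith)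
  have h2 : (1 : ℝ) ≤ n := by linarith
  have h3 := le_abs_self a
  have h4 := le_abs_self b
  have h5 := abs_nonneg a
  nlinarith

theorem eventually_linear (α : ℕ → ℕ → ℝ) (θ C : ℝ) (A : ℕ → ℝ)
    (h1 : ∀ i j, α (i + 1) j ≤ α i j) (h2 : ∀ i j, α i (j + 1) ≤ α i j)
    (hint : ∀ i j, ∃ n : ℤ, α i j = θ - n)
    (hA : ∀ D, A (D + 1) = A D + ∑ i ∈ Finset.range (D + 1), α i (D - i))
    (h0 : ∀ D, 0 ≤ A D) (hC : ∀ D : ℕ, A D ≤ C * (D + 1)) :
    ∃ (κ : ℤ) (c : ℝ) (D₀ : ℕ), ∀ D : ℕ, D₀ ≤ D → A D = κ * D + c := by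
  set s : ℕ → ℝ := fun D => ∑ i ∈ Finset.range (D + 1), α i (D - i) with hs
  have hm : ∀ i j j', j ≤ j' → α i j' ≤ α i j := fun i => antitone_nat_of_succ_le (h2 i)
  have step : ∀ i r D, D + 1 = i + r → s (D + 1) ≤ s D + α i r := by
    intro i r D hD
    simp only [hs]
    rw [show D + 1 + 1 = i + 1 + r by omega, Finset.sum_range_add, Finset.sum_range_succ]
    conv_rhs => rw [hD, Finset.sum_range_add]
    have e1 : ∑ x ∈ Finset.range i, α x (D + 1 - x) ≤ ∑ x ∈ Finset.range i, α x (D - x) :=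
      Finset.sum_le_sum fun x _ => hm _ _ _ (by omega)
    have e2 : ∑ x ∈ Finset.range r, α (i + 1 + x) (D + 1 - (i + 1 + x)) ≤
        ∑ x ∈ Finset.range r, α (i + x) (D - (i + x)) := Finset.sum_le_sum fun x _ => by
      rw [show i + 1 + x = i + x + 1 by omega, show D + 1 - (i + x + 1) = D - (i + x) by omega]
      exact h1 _ _
    rw [show D + 1 - i = r by omega]
    linarith
  have step' : ∀ i j n, s (i + j + n + 1) ≤ s (i + j + n) + α i j := fun i j n =>
    (step i (j + n + 1) _ (by omega)).trans (add_le_add le_rfl (hm _ _ _ (by omega)))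
  have hpos : ∀ i j, 0 ≤ α i j := by
    intro i j
    by_contra hneg
    have e1 : ∀ n : ℕ, s (i + j + n) ≤ s (i + j) + n * α i j := by
      intro n
      induction n with
      | zero => simp
      | succ n ih =>
        have := step' i j n
        rw [← add_assoc]
        push_cast
        linarith
    have e2 : ∀ n : ℕ, A (i + j + n) ≤ A (i + j) + s (i + j) * n + α i j * (n * (n - 1) / 2) := by
      intro n
      induction n with
      | zero => simp
      | succ n ih =>
        have := e1 n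
        rw [← add_assoc, hA]
        push_cast
        change A _ + s _ ≤ _
        nlinarith
    obtain ⟨n, hn⟩ := exists_quad (A (i + j)) (s (i + j)) (-α i j) (by linarith)
    have := e2 n
    have := h0 (i + j + n)
    linarith
  have hzero : ∃ i j, α i j = 0 := by
    by_contra hne
    push Not at hne
    set ε : ℝ := θ - (⌈θ⌉ - 1) with hε
    have hε0 : 0 < ε := by have := Int.ceil_lt_add_one θ; linarith
    have e0 : ∀ i j, ε ≤ α i j := by
      intro i j
      obtain ⟨n, hn⟩ := hint i j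
      have h3 : (n : ℝ) < θ := by
        have := lt_of_le_of_ne (hpos i j) (hne i j).symm
        linarith
      have h4 : n ≤ ⌈θ⌉ - 1 := by have := Int.lt_ceil.2 h3; omega
      have h5 : (n : ℝ) ≤ ⌈θ⌉ - 1 := by exact_mod_cast h4
      linarith
    have e2 : ∀ n : ℕ, ε * (n * (n - 1) / 2) ≤ A n := by
      intro n
      induction n with
      | zero => simpa using h0 0
      | succ n ih =>
        have h3 : ∑ i ∈ Finset.range (n + 1), ε ≤ s n := Finset.sum_le_sum fun x _ => e0 _ _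
        rw [Finset.sum_const, Finset.card_range, nsmul_eq_mul] at h3
        rw [hA]
        push_cast at h3 ⊢
        change _ ≤ A _ + s _
        nlinarith
    obtain ⟨n, hn⟩ := exists_quad C C ε hε0
    have := e2 n
    have := hC n
    linarith
  obtain ⟨i, j, hij⟩ := hzero
  have hnat : ∀ D, ∃ n : ℕ, s D = n := by
    intro D
    obtain ⟨m, hm'⟩ := hint i j
    refine Finset.sum_induction _ (fun x : ℝ => ∃ n : ℕ, x = n) ?_ ⟨0, by simp⟩ fun x _ => ?_
    · rintro _ _ ⟨a, rfl⟩ ⟨b, rfl⟩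
      exact ⟨a + b, by simp⟩
    · obtain ⟨n, hn⟩ := hint x (D - x)
      have h3 : α x (D - x) = ((m - n : ℤ) : ℝ) := by push_cast; linarith
      have h4 : 0 ≤ m - n := by
        have := hpos x (D - x)
        rw [h3] at this
        exact_mod_cast this
      obtain ⟨k, hk⟩ := Int.eq_ofNat_of_zero_le h4
      exact ⟨k, by rw [h3, hk]; simp⟩
  choose t ht using hnat
  have hanti : Antitone fun n => t (i + j + n) := antitone_nat_of_succ_le fun n => by
    have := step' i j n
    rw [hij, add_zero, ht, ht] at this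
    exact_mod_cast this
  obtain ⟨n₀, hn₀⟩ := Nat.sInf_mem (Set.range_nonempty fun n => t (i + j + n))
  have hconst : ∀ n, t (i + j + n₀ + n) = t (i + j + n₀) := fun n => by
    refine le_antisymm ?_ ?_
    · rw [add_assoc]; exact hanti (Nat.le_add_right n₀ n)
    · simp only at hn₀
      rw [hn₀, add_assoc]
      exact Nat.sInf_le ⟨_, rfl⟩
  refine ⟨t (i + j + n₀), A (i + j + n₀) - t (i + j + n₀) * (i + j + n₀ : ℕ), i + j + n₀,
    fun D hD => ?_⟩
  obtain ⟨n, rfl⟩ := Nat.exists_eq_add_of_le hD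
  clear hD
  induction n with
  | zero => simp
  | succ n ih =>
    rw [← add_assoc, hA, ih]
    change _ + s _ = _
    rw [ht, hconst]
    push_cast
    ring

/-- A lattice triangle. -/
def tri (D : ℤ) : Set (ℤ × ℤ) := {p | 0 ≤ p.1 ∧ 0 ≤ p.2 ∧ p.1 + p.2 < D}

/-- A lattice triangle together with an initial part of the next diagonal. -/
def stair (D m : ℤ) : Set (ℤ × ℤ) :=
  {p | 0 ≤ p.1 ∧ 0 ≤ p.2 ∧ (p.1 + p.2 < D ∨ (p.1 + p.2 = D ∧ p.1 < m))}

theorem finite_stair (D m : ℤ) : (stair D m).Finite :=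
  ((Set.finite_Icc 0 D).prod (Set.finite_Icc 0 D)).subset fun p hp => by
    simp only [stair, Set.mem_ofPred_eq] at hp
    simp only [Set.mem_prod, Set.mem_Icc]
    omega

theorem finite_tri (D : ℤ) : (tri D).Finite :=
  (finite_stair D 0).subset fun _ hp => ⟨hp.1, hp.2.1, Or.inl hp.2.2⟩

theorem ncard_tri (D : ℕ) : ((tri D).ncard : ℝ) = D * (D + 1) / 2 := by
  induction D with
  | zero =>
    have : tri (0 : ℕ) = ∅ := by
      ext p
      simp only [tri, Set.mem_ofPred_eq, Set.mem_empty_iff_false, iff_false]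
      omega
    rw [this]
    simp
  | succ D ih =>
    have h1 : tri (D + 1 : ℕ) = tri D ∪ (fun i : ℤ => (i, D - i)) '' Set.Icc 0 D := by
      ext ⟨a, b⟩
      simp only [tri, Set.mem_ofPred_eq, Set.mem_union, Set.mem_image, Set.mem_Icc, Prod.mk.injEq]
      constructor
      · intro h
        by_cases h2 : a + b < D
        · exact Or.inl ⟨h.1, h.2.1, h2⟩
        · exact Or.inr ⟨a, by omega, rfl, by omega⟩
      · rintro (h | ⟨i, h⟩) <;> omega
    rw [h1, Set.ncard_union_eq _ (finite_tri D) ((Set.finite_Icc _ _).image _),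
      Set.ncard_image_of_injective _ fun _ _ h => congrArg Prod.fst h, ← Finset.coe_Icc,
      Set.ncard_coe_finset, Int.card_Icc]
    · push_cast
      rw [ih]
      simp
      ring
    · rw [Set.disjoint_left]
      rintro _ h ⟨i, -, rfl⟩
      simp only [tri, Set.mem_ofPred_eq] at h
      omega

theorem hilbert (h : Set (ℤ × ℤ) → ℝ) (hint : ∀ S : Set (ℤ × ℤ), S.Finite → ∃ n : ℤ, h S = n)
    (hsup : ∀ S T : Set (ℤ × ℤ), S.Finite → T.Finite → h S + h T ≤ h (S ∪ T) + h (S ∩ T))
    (htr : ∀ (S : Set (ℤ × ℤ)) (q : ℤ × ℤ), h {p | p - q ∈ S} = h S) (θ C : ℝ) (A : ℕ → ℝ)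
    (hA : ∀ D : ℕ, A D + h (tri D) = θ * (D * (D + 1) / 2))
    (h0 : ∀ D, 0 ≤ A D) (hC : ∀ D : ℕ, A D ≤ C * (D + 1)) :
    ∃ (κ : ℤ) (c : ℝ) (D₀ : ℕ), ∀ D : ℕ, D₀ ≤ D → A D = κ * D + c := by
  have hfin : ∀ (D m : ℤ) (q : ℤ × ℤ), {p | p - q ∈ stair D m}.Finite := fun D m q =>
    (finite_stair D m).preimage (sub_left_injective.injOn)
  have key : ∀ (i j : ℕ) (q : ℤ × ℤ) (m : ℤ), (q = (1, 0) ∧ m = i + 1) ∨ (q = (0, 1) ∧ m = i) →
      h (stair (i + j) (i + 1)) - h (stair (i + j) i) ≤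
        h (stair (i + j + 1) (m + 1)) - h (stair (i + j + 1) m) := by
    intro i j q m hq
    have h1 := hsup _ _ (hfin (i + j) (i + 1) q) (finite_stair (i + j + 1) m)
    have h2 : {p | p - q ∈ stair (i + j) (i + 1)} ∪ stair (i + j + 1) m =
        stair (i + j + 1) (m + 1) := by
      ext ⟨a, b⟩
      rcases hq with ⟨rfl, rfl⟩ | ⟨rfl, rfl⟩ <;>
        simp only [stair, Set.mem_union, Set.mem_ofPred_eq, Prod.mk_sub_mk] <;> omega
    have h3 : {p | p - q ∈ stair (i + j) (i + 1)} ∩ stair (i + j + 1) m =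
        {p | p - q ∈ stair (i + j) i} := by
      ext ⟨a, b⟩
      rcases hq with ⟨rfl, rfl⟩ | ⟨rfl, rfl⟩ <;>
        simp only [stair, Set.mem_inter_iff, Set.mem_ofPred_eq, Prod.mk_sub_mk] <;> omega
    rw [h2, h3, htr, htr] at h1
    linarith
  refine eventually_linear
    (fun i j => θ - (h (stair (i + j) (i + 1)) - h (stair (i + j) i))) θ C A
    (fun i j => ?_) (fun i j => ?_) (fun i j => ?_) (fun D => ?_) h0 hC
  · have := key i j (1, 0) (i + 1) (Or.inl ⟨rfl, rfl⟩)
    push_cast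
    rw [show (i : ℤ) + 1 + j = i + j + 1 by ring]
    linarith
  · have := key i j (0, 1) i (Or.inr ⟨rfl, rfl⟩)
    push_cast
    rw [show (i : ℤ) + (j + 1) = i + j + 1 by ring]
    linarith
  · obtain ⟨a, ha⟩ := hint _ (finite_stair (i + j) (i + 1))
    obtain ⟨b, hb⟩ := hint _ (finite_stair (i + j) i)
    exact ⟨a - b, by rw [ha, hb]; push_cast; ring⟩
  · have h1 : ∑ i ∈ Finset.range (D + 1), (θ - (h (stair (i + (D - i : ℕ)) (i + 1)) -
        h (stair (i + (D - i : ℕ)) i))) =
        ∑ i ∈ Finset.range (D + 1), (θ - (h (stair D (i + 1 : ℕ)) - h (stair D (i : ℕ)))) :=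
      Finset.sum_congr rfl fun i hi => by
        have : (i : ℤ) + (D - i : ℕ) = D := by
          have := Finset.mem_range.1 hi
          omega
        rw [this]
        push_cast
        rfl
    have h2 : stair D (D + 1 : ℕ) = tri (D + 1 : ℕ) := by
      ext ⟨a, b⟩
      simp only [stair, tri, Set.mem_ofPred_eq]
      omega
    have h3 : stair D (0 : ℕ) = tri D := by
      ext ⟨a, b⟩
      simp only [stair, tri, Set.mem_ofPred_eq]
      omega
    rw [h1, Finset.sum_sub_distrib, Finset.sum_range_sub (fun i : ℕ => h (stair D i)), h2, h3,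
      Finset.sum_const, Finset.card_range, nsmul_eq_mul]
    have h4 := hA D
    have h5 := hA (D + 1)
    push_cast at h5 ⊢
    linarith

end Pool.Agent.P.MP_0f25e6_al.RM
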