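import Pool.Agent.P.MP_0f25e6_al.RM3

/-!
Defects of subsets, codimensions, and fundamental domains.
-/

set_option autoImplicit false

open scoped InnerProductSpace ENNReal Topology
open Filter MulAction

noncomputable section

namespace Pool.Agent.P.MP_0f25e6_al.RM

open HN

section Sums

variable {H H' Y : Type*} [Group H] [MulAction H Y] [Group H'] [MulAction H' Y]

theorem osum_le_cover {J : Type*} (y : J → Y) (g : J → ℝ≥0∞) {f : Y → ℝ≥0∞}
    (h : ∀ z, f z ≠ 0 → ∃ j, ∃ c : H, c • y j = z ∧ f z ≤ g j) : osum H f ≤ ∑' j, g j := by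
  rw [osum, ← tsum_subtype_support]
  choose e c hc hle using fun q : Function.support
    (fun q : orbitRel.Quotient H Y => f q.out) => h q.1.out q.2
  refine (ENNReal.tsum_le_tsum hle).trans (ENNReal.tsum_comp_le_tsum_of_injective (f := e) ?_ g)
  intro q q' hq
  apply Subtype.ext
  rw [← Quotient.out_eq q.1, ← Quotient.out_eq q'.1, ← hc, ← hc, mk_smul, mk_smul, hq]

theorem le_osum_inj {J : Type*} (y : J → Y) (g : J → ℝ≥0∞) {f : Y → ℝ≥0∞}
    (hf : ∀ (h : H) z, f (h • z) = f z) (h1 : ∀ j, g j ≤ f (y j))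
    (h2 : ∀ j j' (c : H), g j ≠ 0 → g j' ≠ 0 → c • y j = y j' → j = j') :
    ∑' j, g j ≤ osum H f := by
  rw [osum, ← tsum_subtype_support]
  refine le_trans (ENNReal.tsum_le_tsum fun j => ?_) (ENNReal.tsum_comp_le_tsum_of_injective
    (f := fun j : Function.support g => Quotient.mk (orbitRel H Y) (y j)) ?_ fun q => f q.out)
  · rw [inv_out hf]
    exact h1 j
  · intro j j' hj
    obtain ⟨c, hc⟩ : (orbitRel H Y) (y j') (y j) := Quotient.exact hj.symm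
    exact Subtype.ext (h2 j j' c j.2 j'.2 hc)

theorem fd_le {f : Y → ℝ≥0∞} (hf : ∀ (h : H') z, f (h • z) = f z) {Q : Set Y}
    (hQ : ∀ (c' : H') y, y ∈ Q → c' • y ∈ Q → ∃ c : H, c • y = c' • y) :
    osum H (Q.indicator f) ≤ osum H' f := by
  refine le_osum_inj (fun q : orbitRel.Quotient H Y => q.out) _ hf
    (fun q => Set.indicator_le_self _ _ _) fun q q' c h1 h2 h3 => ?_
  obtain ⟨a, ha⟩ := hQ c _ (Set.mem_of_indicator_ne_zero h1)
    (h3 ▸ Set.mem_of_indicator_ne_zero h2)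
  rw [← Quotient.out_eq q, ← Quotient.out_eq q', ← h3, ← ha, mk_smul]

theorem fd_ge {f : Y → ℝ≥0∞} (hf : ∀ (h : H') z, f (h • z) = f z) {Q : Set Y}
    (hQ : ∀ (c : H), ∀ y ∈ Q, c • y ∈ Q) (hH : ∀ (c : H) (y : Y), ∃ c' : H', c' • y = c • y)
    (h : ∀ z, f z ≠ 0 → ∃ c' : H', c' • z ∈ Q) : osum H' f ≤ osum H (Q.indicator f) := by
  refine osum_le_cover (fun q : orbitRel.Quotient H Y => q.out) _ fun z hz => ?_
  obtain ⟨c', hc'⟩ := h z hz
  obtain ⟨a, ha⟩ := exists_smul_out (H := H) (c' • z)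
  obtain ⟨a', ha'⟩ := hH a (Quotient.mk (orbitRel H Y) (c' • z)).out
  have h1 : (c'⁻¹ * a') • (Quotient.mk (orbitRel H Y) (c' • z)).out = z := by
    rw [mul_smul, ha', ha, inv_smul_smul]
  refine ⟨_, _, h1, ?_⟩
  have h2 := hQ a⁻¹ _ hc'
  rw [← ha, inv_smul_smul] at h2
  rw [Set.indicator_of_mem h2]
  exact le_of_eq ((congrArg f h1).symm.trans (hf _ _))

theorem osum_finsum {I : Type*} (s : Finset I) (f : I → Y → ℝ≥0∞) :
    osum H (fun z => ∑ i ∈ s, f i z) = ∑ i ∈ s, osum H (f i) :=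
  Summable.tsum_finsetSum fun _ _ => ENNReal.summable

end Sums

section Defect

variable {H H' Γ X Y : Type*} [Group H] [MulAction H Y] [Group H'] [MulAction H' Y]
  [Group Γ] [MulAction Γ Y]

/-- The elements preserving a function. -/
def fix (H : Type*) {X Y : Type*} [Group H] [MulAction H Y] (u : Y → X) : Subgroup H where
  carrier := {g | ∀ y, u (g • y) = u y}
  mul_mem' := fun {a b} ha hb y => by rw [mul_smul, ha, hb]
  one_mem' := fun y => by rw [one_smul]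
  inv_mem' := fun {a} ha y => by rw [← ha, smul_inv_smul]

theorem fix_smul {u : Y → X} (c : fix H u) (y : Y) : u (c • y) = u y := c.2 y

theorem fix_pre {u : Y → X} (P : Set X) (c : fix H u) (y : Y) (hy : y ∈ u ⁻¹' P) :
    c • y ∈ u ⁻¹' P := by rwa [Set.mem_preimage, fix_smul c y]

/-- The local defect of the set `S`. -/
def dd (W : Submodule ℂ (L2 Y)) (S : Set Y) : Y → ℝ≥0∞ := tau (W ⊓ (W ⊓ supp S)ᗮ)

/-- The defect of `S`, summed over the orbits in `Q`. -/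
def ee (H : Type*) {Y : Type*} [Group H] [MulAction H Y] (W : Submodule ℂ (L2 Y)) (Q S : Set Y) :
    ℝ≥0∞ := osum H (Q.indicator (dd W S))

/-- The defect of the half-space of a grading. -/
def cc (H : Type*) {Y : Type*} [Group H] [MulAction H Y] (W : Submodule ℂ (L2 Y)) (u : Y → ℤ) :
    ℝ≥0∞ := ee (fix H u) W (u ⁻¹' Set.Ici 0) (u ⁻¹' Set.Ici 0)

/-- Codimension. -/
def cod (H : Type*) {Y : Type*} [Group H] [MulAction H Y] (M N : Submodule ℂ (L2 Y)) : ℝ≥0∞ :=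
  edim H (N ⊓ Mᗮ)

theorem tau_ne_top (W : Submodule ℂ (L2 Y)) (y : Y) : tau W y ≠ ⊤ :=
  ne_top_of_le_ne_top ENNReal.one_ne_top (tau_le_one W y)

theorem tau_le_dd {W M : Submodule ℂ (L2 Y)} {S : Set Y} (h : W ⊓ supp S ≤ M) (y : Y) :
    tau (W ⊓ Mᗮ) y ≤ dd W S y := tau_mono (inf_le_inf_left _ (Submodule.orthogonal_le h)) y

theorem dd_anti (W : Submodule ℂ (L2 Y)) {S T : Set Y} (h : S ⊆ T) (y : Y) :
    dd W T y ≤ dd W S y := tau_le_dd (inf_le_inf_left _ (supp_mono h)) y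

theorem tau_eq_add_dd {W : Submodule ℂ (L2 Y)} (hW : Cls W) (S : Set Y) (y : Y) :
    tau W y = tau (W ⊓ supp S) y + dd W S y := tau_split hW inf_le_left y

theorem dd_le_tau {W M : Submodule ℂ (L2 Y)} (hW : Cls W) (hM : M ≤ W) {S : Set Y}
    (h : ∀ f ∈ M, res S f ∈ W) {y : Y} (hy : y ∈ S) : dd W S y ≤ tau (W ⊓ Mᗮ) y := by
  have h1 := tau_eq_add_dd hW S y
  have h2 := tau_split (K := W ⊓ pre (res S) W) hW inf_le_left y
  have h3 : W ⊓ pre (res S) W ⊓ supp S = W ⊓ supp S :=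
    le_antisymm (inf_le_inf_right _ inf_le_left) fun f hf => ⟨⟨hf.1, by
      change res S f ∈ W
      rw [res_eq_self hf.2]; exact hf.1⟩, hf.2⟩
  rw [← tau_inf_supp (W := W ⊓ pre (res S) W) (fun f hf => ⟨hf.2, by
    change res S (res S f) ∈ W
    rw [res_eq_self (res_mem_supp S f)]; exact hf.2⟩) hy, h3, h1,
    ENNReal.add_right_inj (tau_ne_top _ _)] at h2
  rw [h2]
  have h4 : M ≤ W ⊓ pre (res S) W := fun f hf => ⟨hM hf, h f hf⟩
  exact tau_mono (inf_le_inf_left _ (Submodule.orthogonal_le h4)) y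

theorem dd_eq_zero {W : Submodule ℂ (L2 Y)} (hW : Cls W) {S : Set Y}
    (h : ∀ f ∈ W, res S f ∈ W) {y : Y} (hy : y ∈ S) : dd W S y = 0 := by
  have h1 := dd_le_tau hW le_rfl h hy
  rw [(Submodule.orthogonal_disjoint W).eq_bot, tau_bot] at h1
  exact le_zero_iff.1 h1

theorem act_mem_supp {S S' : Set Y} {γ : Γ} (hS : ∀ y, γ • y ∈ S' ↔ y ∈ S) {f : L2 Y}
    (hf : f ∈ supp S) : act γ f ∈ supp S' := fun y hy =>
  hf _ fun h => hy (by simpa using (hS _).2 h)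

theorem dd_smul {W : Submodule ℂ (L2 Y)} (hW : Inv Γ W) {S S' : Set Y} {γ : Γ}
    (hS : ∀ y, γ • y ∈ S' ↔ y ∈ S) (y : Y) : dd W S' (γ • y) = dd W S y := by
  have hS' : ∀ y, γ⁻¹ • y ∈ S ↔ y ∈ S' := fun y => by rw [← hS, smul_inv_smul]
  rw [dd, dd, ← tau_img_act _ γ y]
  congr 1
  ext f
  rw [mem_img_act]
  refine ⟨fun hf => ⟨hW _ _ hf.1, fun g hg => ?_⟩, fun hf => ⟨?_, fun g hg => ?_⟩⟩
  · rw [← inner_act_left]
    exact hf.2 _ ⟨hW _ _ hg.1, act_mem_supp hS hg.2⟩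
  · simpa using hW γ _ hf.1
  · rw [← act_act_inv γ g, inner_act_left]
    exact hf.2 _ ⟨hW _ _ hg.1, act_mem_supp hS' hg.2⟩

theorem iff_of_inv {S : Set Y} (hS : ∀ (h : H), ∀ z ∈ S, h • z ∈ S) (h : H) (z : Y) :
    h • z ∈ S ↔ z ∈ S := ⟨fun h1 => by simpa using hS h⁻¹ _ h1, hS h z⟩

theorem indicator_smul {Q : Set Y} (hQ : ∀ (h : H), ∀ z ∈ Q, h • z ∈ Q) {f : Y → ℝ≥0∞}
    (hf : ∀ (h : H) z, f (h • z) = f z) (h : H) (z : Y) :
    Q.indicator f (h • z) = Q.indicator f z := by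
  by_cases hz : z ∈ Q
  · rw [Set.indicator_of_mem hz, Set.indicator_of_mem (hQ h z hz), hf]
  · rw [Set.indicator_of_notMem hz, Set.indicator_of_notMem (mt (iff_of_inv hQ h z).1 hz)]

theorem ind_dd_smul {W : Submodule ℂ (L2 Y)} (hW : Inv H W) {u : Y → X} (P R : Set X)
    (c : fix H u) (z : Y) : (u ⁻¹' P).indicator (dd W (u ⁻¹' R)) (c • z) =
      (u ⁻¹' P).indicator (dd W (u ⁻¹' R)) z :=
  indicator_smul (fix_pre P) (fun c => dd_smul (hW.subgroup _) (iff_of_inv (fix_pre R) c)) c z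

theorem ee_congr {W : Submodule ℂ (L2 Y)} (hW : Inv H W) (hΓ : Inv Γ W) (γ : Γ)
    (h1 : ∀ b : H, ∃ b' : H, ∀ y : Y, γ • b • y = b' • γ • y)
    (h2 : ∀ b' : H, ∃ b : H, ∀ y : Y, γ • b • y = b' • γ • y) {u u' : Y → X}
    (hu : ∀ y, u' (γ • y) = u y) (P R : Set X) :
    ee (fix H u') W (u' ⁻¹' P) (u' ⁻¹' R) = ee (fix H u) W (u ⁻¹' P) (u ⁻¹' R) := by
  rw [ee, ee, ← osum_congr (H := fix H u) (MulAction.toPerm γ) _ (ind_dd_smul hW P R)]
  · congr 1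
    funext y
    change (u' ⁻¹' P).indicator _ (γ • y) = _
    by_cases hy : u y ∈ P
    · rw [Set.indicator_of_mem (show y ∈ u ⁻¹' P from hy), Set.indicator_of_mem
        (show γ • y ∈ u' ⁻¹' P by rwa [Set.mem_preimage, hu])]
      exact dd_smul hΓ (fun z => by simp only [Set.mem_preimage, hu]) y
    · rw [Set.indicator_of_notMem (show y ∉ u ⁻¹' P from hy), Set.indicator_of_notMem
        (show γ • y ∉ u' ⁻¹' P by rwa [Set.mem_preimage, hu])]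
  · intro z w
    constructor
    · rintro ⟨b, rfl⟩
      obtain ⟨b', hb⟩ := h1 b
      refine ⟨⟨b', fun y => ?_⟩, (hb z).symm⟩
      rw [← smul_inv_smul γ y, ← hb, hu, hu, b.2]
    · rintro ⟨b', hb'⟩
      obtain ⟨b, hb⟩ := h2 b'
      refine ⟨⟨b, fun y => ?_⟩, MulAction.injective γ ((hb z).trans hb')⟩
      rw [← hu, ← hu, hb, b'.2]

theorem cod_anti {M M' N : Submodule ℂ (L2 Y)} (h : M ≤ M') : cod H M' N ≤ cod H M N :=
  edim_mono (inf_le_inf_left _ (Submodule.orthogonal_le h))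

theorem cod_chain {M M' N : Submodule ℂ (L2 Y)} (h : M ≤ M') (h' : M' ≤ N) (hc : Cls M')
    (hN : Cls N) : cod H M N = cod H M M' + cod H M' N := by
  rw [cod, cod, cod, edim, edim, edim, ← osum_add]
  congr 1
  funext y
  have h1 := tau_split hN (h.trans h') y
  rw [tau_split hN h', tau_split hc h, add_assoc, ENNReal.add_right_inj (tau_ne_top _ _)] at h1
  exact h1.symm

theorem cod_inf_le (hY : Free H Y) {M M' N : Submodule ℂ (L2 Y)} (h : M ≤ N) (h' : M' ≤ N)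
    (hc : Cls M) (hc' : Cls M') (hN : Cls N) (hi : Inv H M) (hi' : Inv H M') (hNi : Inv H N) :
    cod H (M ⊓ M') N ≤ cod H M N + cod H M' N := by
  rw [cod_chain inf_le_left h hc hN, add_comm]
  refine add_le_add le_rfl ?_
  rw [cod, rank_nullity hY hY (eqv_proj (hNi.inf hi'.orth)) (hc.inf (cls_orth _))
    (hi.inf (hi.inf hi').orth)]
  have h1 : M ⊓ (M ⊓ M')ᗮ ⊓ pre (proj (N ⊓ M'ᗮ)) ⊥ = ⊥ := eq_bot_iff.2 fun f hf => by
    have h2 := proj_split hN h' f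
    have h3 : proj (N ⊓ M'ᗮ) f = 0 := hf.2
    rw [proj_eq_self (le_cl N (h hf.1.1)), h3, add_zero] at h2
    exact inner_self_eq_zero.1 (hf.1.2 f ⟨hf.1.1, h2 ▸ (cl_eq hc').le (proj_mem _ _)⟩)
  rw [h1, edim_bot, zero_add, cod, ← edim_cl (N ⊓ M'ᗮ)]
  refine edim_mono ?_
  rintro _ ⟨f, -, rfl⟩
  exact proj_mem _ f

theorem cod_supp_le (hY : Free H Y) {Q : Set Y} (hQ : ∀ (h : H), ∀ z ∈ Q, h • z ∈ Q)
    {N : Submodule ℂ (L2 Y)} (hc : Cls N) (hi : Inv H N) :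
    cod H (N ⊓ supp Qᶜ) N ≤ osum H (Q.indicator 1) := by
  rw [cod, edim_orth_supp hY hQ hc hi]
  refine osum_mono fun y => ?_
  by_cases hy : y ∈ Q
  · rw [Set.indicator_of_mem hy]; exact tau_le_one _ _
  · rw [tau_eq_zero_of_supp (img_res_le Q N) hy]; exact zero_le

theorem osum_indicator_ne_top {Q : Set Y} (hQ : Cofin H Q) : osum H (Q.indicator 1) ≠ ⊤ :=
  osum_ne_top hQ (fun z => Set.indicator_le_self' (fun _ _ => zero_le) z)
    fun _ hz => Set.indicator_of_notMem hz _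

theorem res_empty (f : L2 Y) : res ∅ f = 0 := by
  ext y
  exact res_apply_of_notMem f (Set.notMem_empty y)

theorem res_univ (f : L2 Y) : res Set.univ f = f := by
  ext y
  exact res_apply_of_mem f (Set.mem_univ y)

theorem res_mem_sol {s : Finset (L2 Y)} {f : L2 Y} {S : Set Y}
    (h : ∀ (g : H), ∀ a ∈ s, ∃ T : Set Y, res T f ∈ sol H (fun a : s => a.1) ∧
      ∀ y, act g a y ≠ 0 → f y ≠ 0 → (y ∈ S ↔ y ∈ T)) : res S f ∈ sol H (fun a : s => a.1) := by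
  refine mem_sol.2 fun g a => ?_
  obtain ⟨T, hT, h1⟩ := h g a a.2
  rw [← mem_sol.1 hT g a, inner_eq_tsum', inner_eq_tsum']
  refine tsum_congr fun y => ?_
  by_cases h2 : act g a.1 y = 0
  · rw [h2, map_zero, zero_mul, zero_mul]
  by_cases h3 : f y = 0
  · classical
    rw [res_apply, res_apply, h3, ite_self, ite_self]
  by_cases h4 : y ∈ T
  · rw [res_apply_of_mem f h4, res_apply_of_mem f ((h1 y h2 h3).2 h4)]
  · rw [res_apply_of_notMem f h4, res_apply_of_notMem f (mt (h1 y h2 h3).1 h4)]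

theorem inv_glue' {κ : Y → X} (hκ : ∀ (c : H) y y', κ y = κ y' → κ (c • y) = κ (c • y'))
    {W : Submodule ℂ (L2 Y)} (hW : Inv H W) : Inv H (glue κ fun _ => W) := by
  intro c f hf
  rw [mem_glue] at hf ⊢
  intro x
  by_cases hx : ∃ y, κ y = x
  · obtain ⟨y, rfl⟩ := hx
    have h1 := hW c _ (hf (κ (c⁻¹ • y)))
    rw [act_res] at h1
    convert h1 using 3
    ext z
    refine ⟨fun h => hκ _ _ _ h, fun h => ?_⟩
    simpa using hκ c _ _ h
  · have : κ ⁻¹' {x} = ∅ := Set.eq_empty_of_forall_notMem fun y hy => hx ⟨y, hy⟩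
    rw [this, res_empty]
    exact W.zero_mem

theorem glue_le {κ : Y → X} {W : Submodule ℂ (L2 Y)} (hW : Cls W) : (glue κ fun _ => W) ≤ W :=
  fun _ hf => mem_of_res hW (mem_glue.1 hf)

theorem le_glue (κ : Y → X) (W : Submodule ℂ (L2 Y)) (x : X) :
    W ⊓ supp (κ ⁻¹' {x}) ≤ glue κ fun _ => W :=
  (glue_inf κ (fun _ => W) x).ge.trans inf_le_left

end Defect

section Grading

variable {H X Y A : Type*} [Group H] [MulAction H Y] [AddCommGroup A]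

theorem mem_fix {π : Y → A} {ψ : H → A} (hπ : ∀ g y, π (g • y) = ψ g + π y) {g : H} {y : Y}
    (h : π (g • y) = π y) : g ∈ fix H π := fun z => by
  rw [hπ] at h ⊢
  rw [add_eq_right.1 h, zero_add]

theorem exists_reps_fin {π : Y → A} {ψ : H → A} (hπ : ∀ g y, π (g • y) = ψ g + π y) {F : Set Y}
    (hF : F.Finite) {P : Set A} (hP : P.Finite) :
    ∃ G₀ : Finset H, ∀ g : H, ∀ y ∈ F, π (g • y) ∈ P → ∃ g₀ ∈ G₀, g * g₀⁻¹ ∈ fix H π := by
  classical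
  have h1 : (ψ '' {g | ∃ y ∈ F, π (g • y) ∈ P}).Finite := by
    refine ((hP.prod hF).image fun p => p.1 - π p.2).subset ?_
    rintro _ ⟨g, ⟨y, hy, hg⟩, rfl⟩
    exact ⟨(_, y), ⟨hg, hy⟩, by simp [hπ]⟩
  obtain ⟨G₀, -, hG⟩ := (Finset.subset_set_image_iff (t := h1.toFinset)).1
    (h1.coe_toFinset.le)
  refine ⟨G₀, fun g y hy hg => ?_⟩
  have h2 : ψ g ∈ G₀.image ψ := hG ▸ h1.mem_toFinset.2 ⟨g, ⟨y, hy, hg⟩, rfl⟩
  obtain ⟨g₀, h3, h4⟩ := Finset.mem_image.1 h2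
  refine ⟨g₀, h3, mem_fix hπ (y := g₀ • y) ?_⟩
  rw [mul_smul, inv_smul_smul, hπ, hπ, h4]

theorem cofin_fibres {π : Y → A} {ψ : H → A} (hπ : ∀ g y, π (g • y) = ψ g + π y) {Z : Set Y}
    (hZ : Cofin H Z) {P : Set A} (hP : P.Finite) : Cofin (fix H π) (Z ∩ π ⁻¹' P) := by
  obtain ⟨F, hF, h1⟩ := hZ
  obtain ⟨G₀, hG⟩ := exists_reps_fin hπ hF hP
  refine ⟨_, (G₀.finite_toSet.prod hF).image fun p => p.1 • p.2, fun z hz => ?_⟩
  obtain ⟨h, hh⟩ := h1 z hz.1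
  obtain ⟨g₀, h2, h3⟩ := hG h⁻¹ _ hh (by rw [inv_smul_smul]; exact hz.2)
  refine ⟨⟨_, (fix H π).inv_mem h3⟩, (g₀, h • z), ⟨h2, hh⟩, ?_⟩
  simp [mul_smul]

theorem Loc.restrict {π : Y → A} {ψ : H → A} (hπ : ∀ g y, π (g • y) = ψ g + π y) {κ : Y → X}
    {N : Submodule ℂ (L2 Y)} (hN : Loc H κ N) {S : Set Y}
    (hS : ∀ (c : fix H π), ∀ y ∈ S, c • y ∈ S) {P : Set A} (hP : P.Finite) (hSP : S ⊆ π ⁻¹' P) :
    Loc (fix H π) κ (N ⊓ supp S) := by
  classical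
  obtain ⟨K, s, hc, hi, hK, hs, rfl⟩ := hN
  obtain ⟨G₀, hG⟩ := exists_reps_fin hπ (finite_supports hs) hP
  refine ⟨K ⊓ supp S, (G₀ ×ˢ s).image fun p => act p.1 p.2, hc.inf (cls_supp S),
    (hi.subgroup _).inf (inv_supp hS), hK.inf (split_supp _ _), fun a ha => ?_, ?_⟩
  · obtain ⟨p, hp, rfl⟩ := Finset.mem_image.1 ha
    exact finCols_act _ _ (hs _ (Finset.mem_product.1 hp).2)
  · ext f
    refine ⟨fun hf => ⟨⟨hf.1.1, hf.2⟩, mem_sol.2 fun c a => ?_⟩,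
      fun hf => ⟨⟨hf.1.1, mem_sol.2 fun g a => ?_⟩, hf.1.2⟩⟩
    · obtain ⟨p, hp, h1⟩ := Finset.mem_image.1 a.2
      rw [← h1]
      have := mem_sol.1 hf.1.2 ((c : H) * p.1) ⟨p.2, (Finset.mem_product.1 hp).2⟩
      rwa [act_mul] at this
    · by_cases h : ∃ y ∈ S, act g a.1 y ≠ 0
      · obtain ⟨y, hy, h1⟩ := h
        obtain ⟨g₀, h2, h3⟩ := hG g (g⁻¹ • y) ⟨a, a.2, h1⟩ (by rw [smul_inv_smul]; exact hSP hy)
        have := mem_sol.1 hf.2 ⟨_, h3⟩ ⟨act g₀ a.1,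
          Finset.mem_image.2 ⟨(g₀, a.1), Finset.mem_product.2 ⟨h2, a.2⟩, rfl⟩⟩
        change ⟪act (g * g₀⁻¹) (act g₀ a.1), f⟫_ℂ = 0 at this
        rwa [← act_mul, inv_mul_cancel_right] at this
      · push Not at h
        exact inner_eq_zero_of_supp (S := Sᶜ) (fun y hy => h y (Set.notMem_compl_iff.1 hy)) hf.1.2
          fun _ h1 h2 => h1 h2

theorem Adm.restrict {π : Y → A} {ψ : H → A} (hπ : ∀ g y, π (g • y) = ψ g + π y)
    {N : Submodule ℂ (L2 Y)} (hN : Adm H N) {S : Set Y}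
    (hS : ∀ (c : fix H π), ∀ y ∈ S, c • y ∈ S) {P : Set A} (hP : P.Finite) (hSP : S ⊆ π ⁻¹' P) :
    Adm (fix H π) (N ⊓ supp S) := fun b hb => by
  obtain ⟨u, φ, hu, h1, h2⟩ := hN b fun h => hb (Subtype.ext h)
  exact ⟨u, fun c => φ c, fun c y => hu c y, h1, h2.restrict hπ hS hP hSP⟩

end Grading

end Pool.Agent.P.MP_0f25e6_al.RM
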