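import Pool.Agent.P.MP_0f25e6_al.RM4
import Pool.Agent.P.MP_0f25e6_al.RM5

/-!
Half-spaces, strips and the periodic tiling by triangles.
-/

set_option autoImplicit false

open scoped InnerProductSpace ENNReal Topology
open Filter MulAction

noncomputable section

namespace Pool.Agent.P.MP_0f25e6_al.RM

open HN

theorem sum_indicator_le {I Y : Type*} (s : Finset I) {S : I → Set Y} {g : I → Y → ℝ≥0∞} {y : Y}
    {t : ℝ≥0∞} (hd : ∀ i ∈ s, ∀ j ∈ s, y ∈ S i → y ∈ S j → i = j)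
    (h : ∀ i ∈ s, y ∈ S i → g i y ≤ t) :
    ∑ i ∈ s, (S i).indicator (g i) y ≤ t := by
  by_cases hy : ∃ i ∈ s, y ∈ S i
  · obtain ⟨i, hi, hy⟩ := hy
    rw [Finset.sum_eq_single_of_mem i hi fun j hj' hj =>
      Set.indicator_of_notMem (fun h => hj (hd _ hj' _ hi h hy)) _, Set.indicator_of_mem hy]
    exact h i hi hy
  · push Not at hy
    rw [Finset.sum_eq_zero fun i hi => Set.indicator_of_notMem (hy i hi) _]
    exact zero_le

theorem near_mul {D x x' c d : ℤ} (hD : 0 < D) (h : x / D ≠ x' / D) (h1 : c ≤ x ∧ x ≤ c + d)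
    (h2 : c ≤ x' ∧ x' ≤ c + d) : ∃ a, c ≤ D * a ∧ D * a ≤ c + d := by
  wlog hlt : x / D < x' / D generalizing x x'
  · exact this h.symm h2 h1 (by omega)
  refine ⟨x' / D, ?_, (Int.mul_ediv_self_le hD.ne').trans h2.2⟩
  have h3 := Int.lt_mul_ediv_self_add (x := x) hD
  have h4 : D * (x / D + 1) ≤ D * (x' / D) := mul_le_mul_of_nonneg_left hlt hD.le
  linarith [h1.1]

theorem emod_cases {D x : ℤ} (h1 : -D ≤ x) (h2 : x < D) :
    (0 ≤ x ∧ x % D = x) ∨ (x < 0 ∧ x % D = x + D) := by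
  rcases le_or_gt 0 x with h | h
  · exact Or.inl ⟨h, Int.emod_eq_of_lt h h2⟩
  · exact Or.inr ⟨h, by rw [← Int.add_emod_right, Int.emod_eq_of_lt] <;> omega⟩

variable {H X X' Y A : Type*} [CommGroup H] [MulAction H Y] [AddCommGroup A]

theorem fix_congr {u : Y → X} {v : Y → X'} (h : ∀ y y', u y = u y' ↔ v y = v y') :
    fix H u = fix H v := by
  ext g
  exact forall_congr' fun y => h _ _

theorem ee_shift {W : Submodule ℂ (L2 Y)} (hW : Inv H W) {π : Y → A} {ψ : H → A}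
    (hπ : ∀ g y, π (g • y) = ψ g + π y) (hψ : Function.Surjective ψ) (s : A) (P R : Set A)
    {L : Subgroup H} (hL : L = fix H π) {Q S : Set Y} (hQ : ∀ y, y ∈ Q ↔ s + π y ∈ P)
    (hS : ∀ y, y ∈ S ↔ s + π y ∈ R) : ee L W Q S = ee (fix H π) W (π ⁻¹' P) (π ⁻¹' R) := by
  obtain ⟨b, rfl⟩ := hψ s
  rw [ee_congr hW hW b (fun c => ⟨c, fun y => smul_comm b c y⟩)
    (fun c => ⟨c, fun y => smul_comm b c y⟩) (hπ b) P R]
  obtain rfl : Q = (fun y => ψ b + π y) ⁻¹' P := Set.ext hQ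
  obtain rfl : S = (fun y => ψ b + π y) ⁻¹' R := Set.ext hS
  rw [hL, fix_congr (u := π) (v := fun y => ψ b + π y) fun y y' => by simp]

section One

variable {W : Submodule ℂ (L2 Y)} {u : Y → ℤ} {ψ : H → ℤ}

theorem neg_grading (hu : ∀ g y, u (g • y) = ψ g + u y) (g : H) (y : Y) :
    -u (g • y) = -ψ g + -u y := by rw [hu]; ring

theorem ee_ge (hW : Inv H W) (hu : ∀ g y, u (g • y) = ψ g + u y) (hψ : Function.Surjective ψ)
    (k : ℤ) : ee (fix H u) W {y | k ≤ u y} {y | k ≤ u y} = cc H W u :=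
  ee_shift hW hu hψ (-k) _ _ rfl (fun y => by simp) (fun y => by simp)

theorem ee_lt (hW : Inv H W) (hu : ∀ g y, u (g • y) = ψ g + u y) (hψ : Function.Surjective ψ)
    (k : ℤ) : ee (fix H u) W {y | u y < k} {y | u y < k} = cc H W fun y => -u y :=
  ee_shift hW (neg_grading hu) (neg_surjective.comp hψ) (k - 1) _ _
    (fix_congr fun y y' => by simp) (fun y => by simp) (fun y => by simp)

theorem res_compl_mem {S : Set Y} {f : L2 Y} (hf : f ∈ W) (h : res S f ∈ W) : res Sᶜ f ∈ W := by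
  rw [← add_sub_cancel_left (res S f) (res Sᶜ f), res_add_res_compl]
  exact W.sub_mem hf h

theorem compl_ge (k : ℤ) : {y | k ≤ u y}ᶜ = {y | u y < k} := by
  ext y
  simp

theorem cc_ne_top (hY : Free H Y) (hu : ∀ g y, u (g • y) = ψ g + u y)
    (hψ : Function.Surjective ψ) (hW : Loc H u W) : cc H W u + cc H W (fun y => -u y) ≠ ⊤ := by
  have hc := hW.cls
  have hi := hW.inv
  rw [← ee_ge hi hu hψ 0, ← ee_lt hi hu hψ 0]
  obtain ⟨K, s, cK, iK, hK, hs, hW⟩ := hW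
  obtain ⟨d, hd⟩ := exists_width hu hs
  set Q := hull H s ∩ u ⁻¹' Set.Icc (-d : ℤ) d with hQ
  have hQi : ∀ c : fix H u, ∀ y ∈ Q, c • y ∈ Q := fun c y hy =>
    ⟨hull_inv s (c : H) y hy.1, fix_pre _ c y hy.2⟩
  refine ne_top_of_le_ne_top (osum_indicator_ne_top
    (cofin_fibres hu (hull_cofin hs) (Set.finite_Icc (-d : ℤ) d)))
    (le_trans ?_ (cod_supp_le (free_subgroup hY _) hQi hc (hi.subgroup _)))
  have h1 : ∀ f ∈ W ⊓ supp Qᶜ, res {y | 0 ≤ u y} f ∈ W := by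
    intro f hf
    have hf1 := hf.1
    rw [hW] at hf1 ⊢
    refine ⟨hK.res_preimage cK (Set.Ici 0) hf1.1, res_mem_sol fun g a ha => ?_⟩
    by_cases h2 : ∀ y, act g a y ≠ 0 → 0 ≤ u y
    · exact ⟨Set.univ, by rw [res_univ]; exact hf1.2, fun y hy _ => by simpa using h2 y hy⟩
    refine ⟨∅, by rw [res_empty]; exact Submodule.zero_mem _, fun y hy hy' => ?_⟩
    push Not at h2
    obtain ⟨y', h3, h4⟩ := h2
    obtain ⟨c, hc⟩ := hd g
    have h5 := hc a ha y hy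
    have h6 := hc a ha y' h3
    refine ⟨fun h7 => hy' (hf.2 y fun h8 => h8 ⟨⟨g⁻¹, a, ha, hy⟩, ?_⟩), False.elim⟩
    have h9 : 0 ≤ u y := h7
    constructor <;> omega
  rw [ee, ee, ← osum_add]
  refine osum_mono fun y => ?_
  by_cases hy : 0 ≤ u y
  · rw [Set.indicator_of_mem (show y ∈ {y | 0 ≤ u y} from hy),
      Set.indicator_of_notMem (show y ∉ {y | u y < 0} from not_lt.2 hy), add_zero]
    exact dd_le_tau hc inf_le_left h1 hy
  · rw [Set.indicator_of_notMem (show y ∉ {y | 0 ≤ u y} from hy),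
      Set.indicator_of_mem (show y ∈ {y | u y < 0} from not_le.1 hy), zero_add]
    exact dd_le_tau hc inf_le_left
      (fun f hf => compl_ge (u := u) 0 ▸ res_compl_mem hf.1 (h1 f hf)) (not_le.1 hy)

theorem cod_half_le (hW : Inv H W) (hu : ∀ g y, u (g • y) = ψ g + u y)
    (hψ : Function.Surjective ψ) (k : ℤ) :
    cod (fix H u) (W ⊓ pre (res {y | k ≤ u y}) W) W ≤ cc H W u + cc H W (fun y => -u y) := by
  rw [← ee_ge hW hu hψ k, ← ee_lt hW hu hψ k, ee, ee, ← osum_add]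
  refine osum_mono fun y => ?_
  by_cases hy : k ≤ u y
  · rw [Set.indicator_of_mem (show y ∈ {y | k ≤ u y} from hy)]
    refine le_add_right (tau_le_dd (le_inf inf_le_left fun f hf => ?_) y)
    change res _ f ∈ W
    rw [res_eq_self hf.2]
    exact hf.1
  · rw [Set.indicator_of_mem (show y ∈ {y | u y < k} from not_le.1 hy)]
    refine le_add_left (tau_le_dd (le_inf inf_le_left fun f hf => ?_) y)
    change res _ f ∈ W
    rw [res_eq_zero (S := {y | k ≤ u y}) hf.2 fun z h1 h2 => not_lt.2 (show k ≤ u z from h1) h2]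
    exact W.zero_mem

theorem strip_le (hY : Free H Y) (hu : ∀ g y, u (g • y) = ψ g + u y)
    (hψ : Function.Surjective ψ) (hW : Loc H u W) {D : ℤ} (hD : 0 ≤ D) :
    ee (fix H u) W {y | 0 ≤ u y ∧ u y < D} {y | 0 ≤ u y ∧ u y < D} ≤
      cc H W u + cc H W (fun y => -u y) := by
  have hc := hW.cls
  have hi := hW.inv
  have hi' : ∀ k, Inv (fix H u) (W ⊓ pre (res {y | k ≤ u y}) W) := fun k =>
    (hi.subgroup _).inf ((hi.subgroup _).pre (eqv_res (fix_pre (Set.Ici k))))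
  have h1 := (cod_inf_le (free_subgroup hY _) inf_le_left inf_le_left (hc.inf (hc.pre _))
    (hc.inf (hc.pre _)) hc (hi' 0) (hi' D) (hi.subgroup _)).trans
    (add_le_add (cod_half_le hi hu hψ 0) (cod_half_le hi hu hψ D))
  refine (ENNReal.add_le_add_iff_right (cc_ne_top hY hu hψ hW)).1 (le_trans ?_ h1)
  rw [← ee_ge hi hu hψ D, ← ee_lt hi hu hψ 0, ee, ee, ee, ← osum_add, ← osum_add]
  refine osum_mono fun y => ?_
  rcases lt_or_ge (u y) 0 with h | h
  · rw [Set.indicator_of_notMem (show y ∉ {y | 0 ≤ u y ∧ u y < D} from fun h' => by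
        have := h'.1; omega),
      Set.indicator_of_notMem (show y ∉ {y | D ≤ u y} from fun h' => by
        have : D ≤ u y := h'; omega),
      Set.indicator_of_mem (show y ∈ {y | u y < 0} from h), zero_add, zero_add]
    exact dd_le_tau hc (inf_le_left.trans inf_le_left)
      (fun f hf => compl_ge (u := u) 0 ▸ res_compl_mem hf.1.1 hf.1.2) h
  rw [Set.indicator_of_notMem (show y ∉ {y | u y < 0} from not_lt.2 h), add_zero]
  rcases lt_or_ge (u y) D with h' | h'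
  · rw [Set.indicator_of_notMem (show y ∉ {y | D ≤ u y} from not_le.2 h'), add_zero,
      Set.indicator_of_mem (show y ∈ {y | 0 ≤ u y ∧ u y < D} from ⟨h, h'⟩)]
    refine dd_le_tau hc (inf_le_left.trans inf_le_left) (fun f hf => ?_) ⟨h, h'⟩
    have h2 : res {y | 0 ≤ u y ∧ u y < D} f = res {y | 0 ≤ u y} f - res {y | D ≤ u y} f := by
      classical
      ext z
      simp only [lp.coeFn_sub, Pi.sub_apply, res_apply, Set.mem_ofPred_eq]
      split_ifs <;> first | omega | simp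
    rw [h2]
    exact W.sub_mem hf.1.2 hf.2.2
  · rw [Set.indicator_of_notMem (show y ∉ {y | 0 ≤ u y ∧ u y < D} from fun h => by
        have := h.2; omega), zero_add, Set.indicator_of_mem (show y ∈ {y | D ≤ u y} from h')]
    refine dd_le_tau hc (inf_le_left.trans inf_le_left) (fun f hf => ?_) h'
    exact hf.2.2

theorem cc_eq_tsum : cc H W u = ∑' k : ℕ, ee (fix H u) W (u ⁻¹' {(k : ℤ)}) (u ⁻¹' Set.Ici 0) := by
  simp only [cc, ee]
  rw [← osum_tsum]
  congr 1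
  funext y
  by_cases hy : 0 ≤ u y
  · obtain ⟨k, hk⟩ := Int.eq_ofNat_of_zero_le hy
    rw [tsum_eq_single k, Set.indicator_of_mem (show y ∈ u ⁻¹' Set.Ici 0 from hy),
      Set.indicator_of_mem (show y ∈ u ⁻¹' {(k : ℤ)} from hk)]
    intro j hj
    refine Set.indicator_of_notMem (fun h => hj ?_) _
    have : u y = j := h
    omega
  · rw [Set.indicator_of_notMem (show y ∉ u ⁻¹' Set.Ici 0 from hy), eq_comm,
      ENNReal.tsum_eq_zero]
    exact fun k => Set.indicator_of_notMem (fun h => hy (by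
      rw [Set.mem_singleton_iff.1 h]; exact Int.natCast_nonneg k)) _

end One

section Two

variable {W : Submodule ℂ (L2 Y)} {u v : Y → ℤ} {ψ φ : H → ℤ}

theorem pair_grading (hu : ∀ g y, u (g • y) = ψ g + u y) (hv : ∀ g y, v (g • y) = φ g + v y)
    (g : H) (y : Y) : (u (g • y), v (g • y)) = (ψ g, φ g) + (u y, v y) := by
  rw [hu, hv, Prod.mk_add_mk]

theorem inv_glue_div (hW : Inv H W) (hu : ∀ g y, u (g • y) = ψ g + u y) {D : ℤ} (hD : 0 < D)
    {L : Subgroup H} (hL : ∀ g ∈ L, ∀ y, u (g • y) % D = u y % D) :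
    Inv L (glue (fun y => u y / D) fun _ => W) := by
  refine inv_glue' (fun c y y' h => ?_) (hW.subgroup L)
  have h1 := Int.emod_eq_emod_iff_emod_sub_eq_zero.1 (hL c c.2 y)
  rw [hu, add_sub_cancel_right] at h1
  obtain ⟨k, hk⟩ := Int.dvd_of_emod_eq_zero h1
  change u ((c : H) • y) / D = u ((c : H) • y') / D
  rw [hu, hu, hk, add_comm, add_comm (D * k), Int.add_mul_ediv_left _ _ hD.ne',
    Int.add_mul_ediv_left _ _ hD.ne', h]

theorem cod_strips (hW : Inv H W) (hu : ∀ g y, u (g • y) = ψ g + u y)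
    (hv : ∀ g y, v (g • y) = φ g + v y) (hs : ∀ a b, ∃ g, ψ g = a ∧ φ g = b) {D : ℕ} (hD : 0 < D)
    {L : Subgroup H} (hL : ∀ g ∈ L, ∀ y, u (g • y) % D = u y % D)
    (hL' : ∀ g, (D : ℤ) ∣ ψ g → (D : ℤ) ∣ φ g → g ∈ L)
    (hL'' : fix H (fun y => (u y, v y)) ≤ L) :
    cod L (glue (fun y => u y / D) fun _ => W) W ≤
      D * ee (fix H u) W {y | 0 ≤ u y ∧ u y < D} {y | 0 ≤ u y ∧ u y < D} := by
  have hD' : (0 : ℤ) < D := by exact_mod_cast hD
  have h1 := fd_ge (H := fix H fun y => (u y, v y)) (H' := L)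
    (tau_smul ((hW.subgroup L).inf (inv_glue_div hW hu hD' hL).orth))
    (Q := (fun y => (u y, v y)) ⁻¹' (Set.Ico 0 (D : ℤ) ×ˢ Set.Ico 0 (D : ℤ))) (fix_pre _)
    (fun c y => ⟨⟨c, hL'' c.2⟩, rfl⟩) fun z _ => by
      obtain ⟨g, h1, h2⟩ := hs (-(D * (u z / D))) (-(D * (v z / D)))
      refine ⟨⟨g, hL' g (h1 ▸ (dvd_mul_right _ _).neg_right) (h2 ▸ (dvd_mul_right _ _).neg_right)⟩,
        ?_⟩
      change (u (g • z), v (g • z)) ∈ Set.Ico 0 (D : ℤ) ×ˢ Set.Ico 0 (D : ℤ)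
      rw [hu, hv, h1, h2]
      have h3 := Int.lt_mul_ediv_self_add (x := u z) hD'
      have h4 := Int.lt_mul_ediv_self_add (x := v z) hD'
      have h5 := Int.mul_ediv_self_le (x := u z) hD'.ne'
      have h6 := Int.mul_ediv_self_le (x := v z) hD'.ne'
      simp only [Set.mem_prod, Set.mem_Ico]
      omega
  refine h1.trans ?_
  set S := {y | 0 ≤ u y ∧ u y < D} with hS
  have h2 : ∀ m : ℕ, osum (fix H fun y => (u y, v y))
      ({y | v y = m}.indicator (S.indicator (dd W S))) ≤ ee (fix H u) W S S := fun m =>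
    fd_le (ind_dd_smul hW (Set.Ico 0 (D : ℤ)) (Set.Ico 0 (D : ℤ))) fun c y h3 h4 =>
      ⟨⟨c, mem_fix (pair_grading hu hv) (y := y) (Prod.ext (c.2 y) (h4.trans h3.symm))⟩, rfl⟩
  refine le_trans ?_ ((Finset.sum_le_sum (s := Finset.range D) fun m _ => h2 m).trans (by simp))
  rw [← osum_finsum]
  refine osum_mono fun y => Set.indicator_apply_le' (fun hy => ?_) fun _ => zero_le
  obtain ⟨m, hm⟩ := Int.eq_ofNat_of_zero_le hy.2.1
  have hm' : m ∈ Finset.range D := by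
    have h3 : v y < D := hy.2.2
    have h4 : v y = m := hm
    rw [Finset.mem_range]
    omega
  refine le_trans ?_ (Finset.single_le_sum (f := fun m : ℕ =>
    {y | v y = m}.indicator (S.indicator (dd W S)) y) (fun _ _ => zero_le) hm')
  rw [Set.indicator_of_mem (show y ∈ {y | v y = m} from hm),
    Set.indicator_of_mem (show y ∈ S from hy.1)]
  refine tau_le_dd (le_trans (le_of_eq ?_) (le_glue _ W 0)) y
  congr 2
  ext z
  simp [hS, Int.ediv_eq_iff_of_pos hD']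

theorem res_tile_mem {K : Submodule ℂ (L2 Y)} {s : Finset (L2 Y)} (cK : Cls K)
    (hK : Split (fun y => (u y, v y)) K) (hW : W = K ⊓ sol H fun a : s => a.1) {D r : ℤ}
    (hD : 0 < D) {d₁ d₂ d₃ : ℕ} (hr : r = d₁ + d₂ + d₃)
    (h1 : ∀ (g : H), ∃ c : ℤ, ∀ a ∈ s, ∀ y, act g a y ≠ 0 → c ≤ u y ∧ u y ≤ c + d₁)
    (h2 : ∀ (g : H), ∃ c : ℤ, ∀ a ∈ s, ∀ y, act g a y ≠ 0 → c ≤ v y ∧ v y ≤ c + d₂)
    (h3 : ∀ (g : H), ∃ c : ℤ, ∀ a ∈ s, ∀ y, act g a y ≠ 0 → c ≤ u y + v y ∧ u y + v y ≤ c + d₃)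
    {f : L2 Y} (hf : f ∈ W) (f1 : f ∈ glue (fun y => u y / D) fun _ => W)
    (f2 : f ∈ glue (fun y => v y / D) fun _ => W)
    (f3 : f ∈ glue (fun y => (u y + v y) / D) fun _ => W)
    (f4 : f ∈ supp (hull H s ∩ {y | ∃ a b, |u y - D * a| ≤ r ∧ |v y - D * b| ≤ r})ᶜ) (x : ℤ) :
    res {y | u y / D = x ∧ v y / D = x ∧ (u y + v y) / D = x} f ∈ W := by
  have g1 := mem_glue.1 f1 x
  have g2 := mem_glue.1 f2 x
  have g3 := mem_glue.1 f3 x
  rw [hW] at hf g1 g2 g3 ⊢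
  refine ⟨hK.res_preimage cK {p | p.1 / D = x ∧ p.2 / D = x ∧ (p.1 + p.2) / D = x} hf.1,
    res_mem_sol fun g a ha => ?_⟩
  by_cases h0 : ∃ y, act g a y ≠ 0 ∧ f y ≠ 0 ∧ u y / D = x ∧ v y / D = x ∧ (u y + v y) / D = x
  swap
  · exact ⟨∅, by rw [res_empty]; exact Submodule.zero_mem _,
      fun y hy hy' => ⟨fun h => h0 ⟨y, hy, hy', h⟩, False.elim⟩⟩
  obtain ⟨y₀, hy₀, hf₀, e1, e2, e3⟩ := h0
  obtain ⟨c₁, h1⟩ := h1 g
  obtain ⟨c₂, h2⟩ := h2 g
  obtain ⟨c₃, h3⟩ := h3 g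
  have hno : ∀ p q, ¬(|u y₀ - D * p| ≤ r ∧ |v y₀ - D * q| ≤ r) := fun p q h =>
    hf₀ (f4 y₀ fun h' => h' ⟨⟨g⁻¹, a, ha, hy₀⟩, p, q, h⟩)
  have b1 := h1 a ha y₀ hy₀
  have b2 := h2 a ha y₀ hy₀
  have b3 := h3 a ha y₀ hy₀
  have k1 : (∀ y, act g a y ≠ 0 → u y / D = x) ∨ ∃ p, c₁ ≤ D * p ∧ D * p ≤ c₁ + d₁ := by
    refine or_iff_not_imp_left.2 fun h => ?_
    push Not at h
    obtain ⟨y, hy, h⟩ := h
    exact near_mul hD (e1 ▸ h) (h1 a ha y hy) b1
  have k2 : (∀ y, act g a y ≠ 0 → v y / D = x) ∨ ∃ p, c₂ ≤ D * p ∧ D * p ≤ c₂ + d₂ := by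
    refine or_iff_not_imp_left.2 fun h => ?_
    push Not at h
    obtain ⟨y, hy, h⟩ := h
    exact near_mul hD (e2 ▸ h) (h2 a ha y hy) b2
  have k3 : (∀ y, act g a y ≠ 0 → (u y + v y) / D = x) ∨ ∃ p, c₃ ≤ D * p ∧ D * p ≤ c₃ + d₃ := by
    refine or_iff_not_imp_left.2 fun h => ?_
    push Not at h
    obtain ⟨y, hy, h⟩ := h
    exact near_mul hD (e3 ▸ h) (h3 a ha y hy) b3
  rcases k1 with k1 | ⟨p, k1⟩ <;> rcases k2 with k2 | ⟨q, k2⟩ <;> rcases k3 with k3 | ⟨t, k3⟩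
  · exact ⟨_, g1.2, fun y hy _ => ⟨fun h => h.1, fun h => ⟨h, k2 y hy, k3 y hy⟩⟩⟩
  · exact ⟨_, g3.2, fun y hy _ => ⟨fun h => h.2.2, fun h => ⟨k1 y hy, k2 y hy, h⟩⟩⟩
  · exact ⟨_, g2.2, fun y hy _ => ⟨fun h => h.2.1, fun h => ⟨k1 y hy, h, k3 y hy⟩⟩⟩
  · refine absurd ?_ (hno (t - q) q)
    rw [mul_sub, abs_le, abs_le]
    omega
  · exact ⟨_, g1.2, fun y hy _ => ⟨fun h => h.1, fun h => ⟨h, k2 y hy, k3 y hy⟩⟩⟩
  · refine absurd ?_ (hno p (t - p))
    rw [mul_sub, abs_le, abs_le]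
    omega
  · refine absurd ?_ (hno p q)
    rw [abs_le, abs_le]
    omega
  · refine absurd ?_ (hno p q)
    rw [abs_le, abs_le]
    omega

/-- The defect of a triangle. -/
def ta (H : Type*) {Y : Type*} [Group H] [MulAction H Y] (W : Submodule ℂ (L2 Y)) (u v : Y → ℤ)
    (D : ℤ) : ℝ≥0∞ :=
  ee (fix H fun y => (u y, v y)) W ((fun y => (u y, v y)) ⁻¹' tri D)
    ((fun y => (u y, v y)) ⁻¹' tri D)

theorem tiling (hY : Free H Y) (hu : ∀ g y, u (g • y) = ψ g + u y)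
    (hv : ∀ g y, v (g • y) = φ g + v y) (hs : ∀ a b, ∃ g, ψ g = a ∧ φ g = b)
    (hW : Loc H (fun y => (u y, v y)) W) : ∃ C : ℝ≥0∞, C ≠ ⊤ ∧ ∀ D : ℕ,
      ta H W u v (D + 1) + ta H W (fun y => -1 - u y) (fun y => -1 - v y) D ≤
        (D + 1) * ((cc H W u + cc H W fun y => -u y) + (cc H W v + cc H W fun y => -v y) +
          ((cc H W fun y => u y + v y) + cc H W fun y => -(u y + v y))) + C := by
  have hc := hW.cls
  have hi := hW.inv
  have hw : ∀ g y, u (g • y) + v (g • y) = (ψ g + φ g) + (u y + v y) := fun g y => by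
    rw [hu, hv]; ring
  have s1 := fun (D : ℤ) hD => strip_le hY hu (fun a => (hs a 0).imp fun _ h => h.1)
    (hW.comp Prod.fst) (D := D) hD
  have s2 := fun (D : ℤ) hD => strip_le hY hv (fun a => (hs 0 a).imp fun _ h => h.2)
    (hW.comp Prod.snd) (D := D) hD
  have s3 := fun (D : ℤ) hD => strip_le (u := fun y => u y + v y) hY hw
    (fun a => (hs a 0).imp fun _ h => by simp [h.1, h.2]) (hW.comp fun p => p.1 + p.2) (D := D) hD
  obtain ⟨K, s, cK, iK, hK, hfs, hW⟩ := hW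
  obtain ⟨d₁, h1⟩ := exists_width hu hfs
  obtain ⟨d₂, h2⟩ := exists_width hv hfs
  obtain ⟨d₃, h3⟩ := exists_width (u := fun y => u y + v y) hw hfs
  set r : ℤ := d₁ + d₂ + d₃ with hr
  refine ⟨_, osum_indicator_ne_top (cofin_fibres (π := fun y => (u y, v y))
    (pair_grading hu hv) (hull_cofin hfs)
    ((Set.finite_Icc (-r) r).prod (Set.finite_Icc (-r) r))), fun D₀ => ?_⟩
  set D : ℕ := D₀ + 1 with hD
  have hD0 : (0 : ℤ) < D := by omega
  set L := fix H fun y => (u y % D, v y % D) with hL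
  have hLu : ∀ g ∈ L, ∀ y, u (g • y) % D = u y % D := fun g hg y => congrArg Prod.fst (hg y)
  have hLv : ∀ g ∈ L, ∀ y, v (g • y) % D = v y % D := fun g hg y => congrArg Prod.snd (hg y)
  have hLw : ∀ g ∈ L, ∀ y, (u (g • y) + v (g • y)) % D = (u y + v y) % D := fun g hg y => by
    rw [Int.add_emod, hLu g hg, hLv g hg, ← Int.add_emod]
  have hL1 : ∀ g, (D : ℤ) ∣ ψ g → (D : ℤ) ∣ φ g → g ∈ L := by
    rintro g ⟨a, ha⟩ ⟨b, hb⟩ y
    simp only
    rw [hu, hv, ha, hb, add_comm (D * a), add_comm (D * b), Int.add_mul_emod_self_left,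
      Int.add_mul_emod_self_left]
  have hL2 : fix H (fun y => (u y, v y)) ≤ L := fun g hg y => by
    have h4 : u (g • y) = u y := congrArg Prod.fst (hg y)
    have h5 : v (g • y) = v y := congrArg Prod.snd (hg y)
    simp only [h4, h5]
  have c1 := cod_strips hi hu hv hs (Nat.succ_pos D₀) hLu hL1 hL2
  have c2 := cod_strips hi hv hu (fun a b => (hs b a).imp fun _ h => h.symm) (Nat.succ_pos D₀) hLv
    (fun g h h' => hL1 g h' h) ((fix_congr fun y y' => by simp [and_comm]).le.trans hL2)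
  have c3 := cod_strips (u := fun y => u y + v y) hi hw hu (fun a b => (hs b (a - b)).imp fun _ h => by simp [h.1, h.2])
    (Nat.succ_pos D₀) hLw (fun g h h' => hL1 g h' ((dvd_add_right h').1 h))
    ((fix_congr fun y y' => by
      simp only [Prod.mk.injEq]
      constructor <;> rintro ⟨h4, h5⟩ <;> constructor <;> omega).le.trans hL2)
  set Q := hull H s ∩ {y | ∃ a b, |u y - D * a| ≤ r ∧ |v y - D * b| ≤ r} with hQ
  have hdiv : ∀ g ∈ L, ∀ y : Y, (D : ℤ) ∣ ψ g ∧ (D : ℤ) ∣ φ g := fun g hg y => by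
    have h4 := Int.emod_eq_emod_iff_emod_sub_eq_zero.1 (hLu g hg y)
    have h5 := Int.emod_eq_emod_iff_emod_sub_eq_zero.1 (hLv g hg y)
    rw [hu, add_sub_cancel_right] at h4
    rw [hv, add_sub_cancel_right] at h5
    exact ⟨Int.dvd_of_emod_eq_zero h4, Int.dvd_of_emod_eq_zero h5⟩
  have hQi : ∀ c : L, ∀ y ∈ Q, c • y ∈ Q := by
    rintro c y ⟨h4, a, b, h5⟩
    obtain ⟨⟨p, hp⟩, q, hq⟩ := hdiv c c.2 y
    refine ⟨hull_inv s (c : H) y h4, a + p, b + q, ?_⟩
    change |u ((c : H) • y) - _| ≤ r ∧ |v ((c : H) • y) - _| ≤ r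
    rw [hu, hv, hp, hq]
    convert h5 using 3 <;> ring
  have c4 := (cod_supp_le (free_subgroup hY L) hQi hc (hi.subgroup L)).trans
    (fd_ge (H := fix H fun y => (u y, v y)) (indicator_smul hQi fun _ _ => rfl)
      (Q := hull H s ∩ (fun y => (u y, v y)) ⁻¹' (Set.Icc (-r) r ×ˢ Set.Icc (-r) r))
      (fun c y hy => ⟨hull_inv s (c : H) y hy.1, fix_pre _ c y hy.2⟩)
      (fun c y => ⟨⟨c, hL2 c.2⟩, rfl⟩) fun z hz => by
        obtain ⟨h4, a, b, h5⟩ := Set.mem_of_indicator_ne_zero hz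
        obtain ⟨g, h6, h7⟩ := hs (-(D * a)) (-(D * b))
        refine ⟨⟨g, hL1 g (h6 ▸ (dvd_mul_right _ _).neg_right)
          (h7 ▸ (dvd_mul_right _ _).neg_right)⟩, hull_inv s g z h4, ?_⟩
        change (u (g • z), v (g • z)) ∈ Set.Icc (-r) r ×ˢ Set.Icc (-r) r
        rw [hu, hv, h6, h7]
        rw [abs_le, abs_le] at h5
        simp only [Set.mem_prod, Set.mem_Icc]
        omega)
  have hF := free_subgroup hY L
  have hiL := hi.subgroup L
  have i1 := inv_glue_div hi hu hD0 hLu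
  have i2 := inv_glue_div hi hv hD0 hLv
  have i3 := inv_glue_div (u := fun y => u y + v y) hi hw hD0 hLw
  have i4 := hiL.inf (inv_supp (compl_inv hQi))
  have cg : ∀ κ : Y → ℤ, Cls (glue κ fun _ => W) := fun κ => cls_glue fun _ => hc
  have c12 := cod_inf_le hF (glue_le hc) (glue_le hc) (cg _) (cg _) hc i1 i2 hiL
  have c123 := cod_inf_le hF (inf_le_left.trans (glue_le hc)) (glue_le hc) ((cg _).inf (cg _))
    (cg _) hc (i1.inf i2) i3 hiL
  have c1234 := cod_inf_le hF (inf_le_left.trans (inf_le_left.trans (glue_le hc))) inf_le_left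
    (((cg _).inf (cg _)).inf (cg _)) (hc.inf (cls_supp _)) hc ((i1.inf i2).inf i3) i4 hiL
  refine le_trans ?_ (c1234.trans (add_le_add (c123.trans ((add_le_add (c12.trans
    (add_le_add (c1.trans (mul_le_mul_right (s1 D hD0.le) _))
      (c2.trans (mul_le_mul_right (s2 D hD0.le) _))))
    (c3.trans (mul_le_mul_right (s3 D hD0.le) _))).trans (le_of_eq (by push_cast; ring))))
    (c4.trans (osum_mono fun y => Set.indicator_apply_le fun hy => ?_))))
  swap
  · rw [Set.indicator_of_mem hy]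
    exact Set.indicator_le_self' (fun _ _ => zero_le) y
  set U := (fun y => (u y, v y)) ⁻¹' tri (D₀ + 1) with hU
  set V := (fun y => (-1 - u y, -1 - v y)) ⁻¹' tri D₀ with hV
  have mU : ∀ y, y ∈ U ↔ 0 ≤ u y ∧ 0 ≤ v y ∧ u y + v y < D₀ + 1 := fun y => Iff.rfl
  have mV : ∀ y, y ∈ V ↔ 0 ≤ -1 - u y ∧ 0 ≤ -1 - v y ∧ -1 - u y + (-1 - v y) < D₀ :=
    fun y => Iff.rfl
  refine le_trans ?_ (fd_le (H := fix H fun y => (u y, v y))
    (tau_smul (hiL.inf (((i1.inf i2).inf i3).inf i4).orth)) (Q := U ∪ V) fun c y h4 h5 =>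
      ⟨⟨c, mem_fix (pair_grading hu hv) (y := y) ?_⟩, rfl⟩)
  · rw [ta, ta, ee, ee, fix_congr (u := fun y => (-1 - u y, -1 - v y)) (v := fun y => (u y, v y))
      fun y y' => by simp, ← osum_add]
    refine osum_mono fun y => ?_
    have key : ∀ (x : ℤ) (S : Set Y),
        S = {y | u y / D = x ∧ v y / D = x ∧ (u y + v y) / D = x} → y ∈ S → dd W S y ≤
          tau (W ⊓ ((glue (fun y => u y / D) fun _ => W) ⊓ (glue (fun y => v y / D) fun _ => W) ⊓
            (glue (fun y => (u y + v y) / D) fun _ => W) ⊓ (W ⊓ supp Qᶜ))ᗮ) y :=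
      fun x S hS hy => dd_le_tau hc (inf_le_right.trans inf_le_left) (fun f hf => hS ▸
        res_tile_mem cK hK hW hD0 hr h1 h2 h3 hf.2.1 hf.1.1.1 hf.1.1.2 hf.1.2 hf.2.2 x) hy
    by_cases h4 : y ∈ U
    · rw [Set.indicator_of_mem h4, Set.indicator_of_notMem (show y ∉ V by
        rw [mU] at h4; rw [mV]; omega), add_zero, Set.indicator_of_mem (Set.mem_union_left _ h4)]
      refine key 0 U (Set.ext fun z => ?_) h4
      simp only [mU, Set.mem_ofPred_eq, Int.ediv_eq_iff_of_pos hD0]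
      omega
    rw [Set.indicator_of_notMem h4, zero_add]
    refine Set.indicator_apply_le fun h5 => ?_
    rw [Set.indicator_of_mem (Set.mem_union_right _ h5)]
    refine key (-1) V (Set.ext fun z => ?_) h5
    simp only [mV, Set.mem_ofPred_eq, Int.ediv_eq_iff_of_pos hD0]
    omega
  · have h6 := hLu c c.2 y
    have h7 := hLv c c.2 y
    change (c : H) • y ∈ _ at h5
    simp only [Set.mem_union, mU, mV] at h4 h5
    have e1 := emod_cases (D := D) (x := u y) (by omega) (by omega)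
    have e2 := emod_cases (D := D) (x := v y) (by omega) (by omega)
    have e3 := emod_cases (D := D) (x := u ((c : H) • y)) (by omega) (by omega)
    have e4 := emod_cases (D := D) (x := v ((c : H) • y)) (by omega) (by omega)
    simp only [Prod.mk.injEq]
    omega

end Two

end Pool.Agent.P.MP_0f25e6_al.RM
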