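import Pool.Agent.P.MP_0f25e6_al.RM6

/-!
The triangle relation: the defects of three half-spaces in triangular position add up to an
integer.
-/

set_option autoImplicit false

open scoped InnerProductSpace ENNReal Topology
open Filter MulAction

noncomputable section

namespace Pool.Agent.P.MP_0f25e6_al.RM

open HN

theorem le_of_linear {a b c : ℝ} {n₀ : ℕ} (h : ∀ n : ℕ, n₀ ≤ n → a * n ≤ b * n + c) : a ≤ b := by
  by_contra hab
  obtain ⟨n, hn⟩ := exists_nat_gt (c / (a - b))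
  have h1 := h (max n₀ n) (le_max_left _ _)
  have h2 : (n : ℝ) ≤ (max n₀ n : ℕ) := by exact_mod_cast le_max_right _ _
  have h3 : 0 < a - b := by linarith
  have h4 := (div_lt_iff₀ h3).1 (hn.trans_le h2)
  linarith

variable {H Y : Type*} [CommGroup H] [MulAction H Y]
  {W : Submodule ℂ (L2 Y)} {u v : Y → ℤ} {ψ φ : H → ℤ}

theorem exists_move (hu : ∀ g y, u (g • y) = ψ g + u y) (hv : ∀ g y, v (g • y) = φ g + v y)
    (hs : ∀ a b, ∃ g, ψ g = a ∧ φ g = b) (y : Y) (p : ℤ × ℤ) :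
    ∃ g : H, (u (g • y), v (g • y)) = p := by
  obtain ⟨g, h1, h2⟩ := hs (p.1 - u y) (p.2 - v y)
  exact ⟨g, by rw [hu, hv, h1, h2]; simp⟩

theorem point_ge (hW : Inv H W) (hu : ∀ g y, u (g • y) = ψ g + u y)
    (hv : ∀ g y, v (g • y) = φ g + v y) (hs : ∀ a b, ∃ g, ψ g = a ∧ φ g = b) (l : ℤ × ℤ → ℤ)
    {χ : H → ℤ} (hl : ∀ g y, l (u (g • y), v (g • y)) = χ g + l (u y, v y)) (p : ℤ × ℤ)
    {S : Set Y} (hS : ∀ y ∈ S, 0 ≤ l (u y, v y)) :
    ee (fix H fun y => l (u y, v y)) W ((fun y => l (u y, v y)) ⁻¹' {l p})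
      ((fun y => l (u y, v y)) ⁻¹' Set.Ici 0) ≤
      ee (fix H fun y => (u y, v y)) W ((fun y => (u y, v y)) ⁻¹' {p}) S := by
  refine (fd_ge (H := fix H fun y => (u y, v y))
    (ind_dd_smul (u := fun y => l (u y, v y)) hW {l p} (Set.Ici 0))
    (Q := (fun y => (u y, v y)) ⁻¹' {p}) (fix_pre _)
    (fun c y => ⟨⟨c, fun z => congrArg l (c.2 z)⟩, rfl⟩) fun z hz => ?_).trans
    (osum_mono fun y => Set.indicator_le_indicator ?_)
  swap
  · refine (Set.indicator_le_self' (fun _ _ => zero_le) y).trans (dd_anti W ?_ y)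
    exact hS
  obtain ⟨g, hg⟩ := exists_move hu hv hs z p
  have h0 := Set.mem_of_indicator_ne_zero hz
  have h1 : l (u z, v z) = l p := h0
  exact ⟨⟨g, mem_fix (π := fun y => l (u y, v y)) hl (y := z) (by simp only [hg, h1])⟩, hg⟩

theorem lower (hW : Inv H W) (hu : ∀ g y, u (g • y) = ψ g + u y)
    (hv : ∀ g y, v (g • y) = φ g + v y) (hs : ∀ a b, ∃ g, ψ g = a ∧ φ g = b) (t M : ℕ) :
    M * ∑ k ∈ Finset.range t, (ee (fix H u) W (u ⁻¹' {(k : ℤ)}) (u ⁻¹' Set.Ici 0) +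
      ee (fix H v) W (v ⁻¹' {(k : ℤ)}) (v ⁻¹' Set.Ici 0) +
      ee (fix H fun y => -(u y + v y)) W ((fun y => -(u y + v y)) ⁻¹' {(k : ℤ)})
        ((fun y => -(u y + v y)) ⁻¹' Set.Ici 0)) ≤ ta H W u v (M + 3 * t : ℕ) := by
  set D : ℤ := ((M + 3 * t : ℕ) : ℤ) with hD
  set S := (fun y => (u y, v y)) ⁻¹' tri D with hS
  let p : ℕ × ℕ × ℕ → ℤ × ℤ := fun j =>
    if j.2.2 = 0 then (j.2.1, t + j.1) else if j.2.2 = 1 then (t + j.1, j.2.1)
    else (t + j.1, D - 1 - j.2.1 - t - j.1)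
  have h1 : ∑ j ∈ Finset.range M ×ˢ Finset.range t ×ˢ Finset.range 3,
      ee (fix H fun y => (u y, v y)) W ((fun y => (u y, v y)) ⁻¹' {p j}) S ≤ ta H W u v D := by
    simp only [ta, ee]
    rw [← osum_finsum]
    refine osum_mono fun y => sum_indicator_le _ ?_ ?_
    · rintro ⟨m, k, a⟩ h1 ⟨m', k', a'⟩ h2 h3 h4
      have h5 : p (m, k, a) = p (m', k', a') := h3.symm.trans h4
      simp only [Finset.mem_product, Finset.mem_range] at h1 h2
      simp only [p] at h5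
      simp only [Prod.mk.injEq]
      split_ifs at h5 <;> simp only [Prod.mk.injEq] at h5 <;> omega
    · rintro ⟨m, k, a⟩ h1 h2
      have h3 : (u y, v y) = p (m, k, a) := h2
      rw [Set.indicator_of_mem]
      change (u y, v y) ∈ tri D
      simp only [Finset.mem_product, Finset.mem_range] at h1
      simp only [h3, p, tri, Set.mem_ofPred_eq]
      split_ifs <;> simp only <;> omega
  refine le_trans ?_ h1
  rw [Finset.sum_product, ← nsmul_eq_mul]
  conv_lhs => rw [← Finset.card_range M, ← Finset.sum_const]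
  refine Finset.sum_le_sum fun m _ => ?_
  rw [Finset.sum_product]
  refine Finset.sum_le_sum fun k _ => ?_
  rw [Finset.sum_range_succ, Finset.sum_range_succ, Finset.sum_range_one]
  refine add_le_add (add_le_add ?_ ?_) ?_
  · exact point_ge hW hu hv hs Prod.fst hu (k, t + m) fun y hy => hy.1
  · exact point_ge hW hu hv hs Prod.snd hv (t + m, k) fun y hy => hy.2.1
  · refine le_trans (le_of_eq ?_) (point_ge hW hu hv hs (fun q => D - 1 - q.1 - q.2)
      (χ := fun g => -(ψ g + φ g)) (fun g y => by simp only [hu, hv]; ring)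
      (t + m, D - 1 - k - t - m) fun y hy => by have := hy.2.2; simp only at this ⊢; omega)
    refine (ee_shift hW (π := fun y => -(u y + v y)) (ψ := fun g => -(ψ g + φ g))
      (fun g y => by simp only [hu, hv]; ring)
      (fun a => (hs (-a) 0).imp fun _ h => by simp [h.1, h.2]) (D - 1) _ _
      (fix_congr fun y y' => by constructor <;> intro h <;> omega) (fun y => ?_) fun y => ?_).symm
    · simp only [Set.mem_preimage, Set.mem_singleton_iff]
      constructor <;> intro h <;> omega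
    · simp only [Set.mem_preimage, Set.mem_Ici]
      constructor <;> intro h <;> omega

theorem slope_ge (hW : Inv H W) (hu : ∀ g y, u (g • y) = ψ g + u y)
    (hv : ∀ g y, v (g • y) = φ g + v y) (hs : ∀ a b, ∃ g, ψ g = a ∧ φ g = b)
    (hf : ∀ D : ℕ, ta H W u v D ≠ ⊤) {κ c : ℝ} {D₀ : ℕ}
    (h : ∀ D : ℕ, D₀ ≤ D → (ta H W u v D).toReal = κ * D + c) :
    (cc H W u + cc H W v + cc H W fun y => -(u y + v y)).toReal ≤ κ := by
  have key : ∀ (t : ℕ) (x : ℝ≥0∞), (∀ M : ℕ, M * x ≤ ta H W u v (M + 3 * t : ℕ)) →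
      x ≠ ⊤ ∧ x.toReal ≤ κ := by
    intro t x hx
    have h1 : x ≠ ⊤ := ne_top_of_le_ne_top (hf _) (le_trans (by simp) (hx 1))
    refine ⟨h1, le_of_linear (n₀ := D₀) (c := κ * (3 * t) + c) fun n hn => ?_⟩
    have h2 := ENNReal.toReal_mono (hf _) (hx n)
    rw [h _ (by omega), ENNReal.toReal_mul, ENNReal.toReal_natCast] at h2
    push_cast at h2
    linarith
  have h0 : 0 ≤ κ := by simpa using (key 0 0 (by simp)).2
  refine ENNReal.toReal_le_of_le_ofReal h0 ?_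
  rw [cc_eq_tsum, cc_eq_tsum, cc_eq_tsum, ← ENNReal.tsum_add, ← ENNReal.tsum_add,
    ENNReal.tsum_eq_iSup_nat]
  refine iSup_le fun t => ?_
  obtain ⟨h1, h2⟩ := key t _ (lower hW hu hv hs t)
  exact (ENNReal.le_ofReal_iff_toReal_le h1 h0).2 h2

theorem osum_fibres (hu : ∀ g y, u (g • y) = ψ g + u y) (hv : ∀ g y, v (g • y) = φ g + v y)
    (hs : ∀ a b, ∃ g, ψ g = a ∧ φ g = b) {f : Y → ℝ≥0∞} (hf : ∀ (h : H) z, f (h • z) = f z)
    {P : Set (ℤ × ℤ)} (hP : P.Finite) :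
    osum (fix H fun y => (u y, v y)) (((fun y => (u y, v y)) ⁻¹' P).indicator f) =
      P.ncard * osum H f := by
  have h1 : ∀ p : ℤ × ℤ, osum (fix H fun y => (u y, v y))
      (((fun y => (u y, v y)) ⁻¹' {p}).indicator f) = osum H f := fun p =>
    le_antisymm (fd_le hf fun c y h1 h2 =>
      ⟨⟨c, mem_fix (pair_grading hu hv) (y := y) (h2.trans h1.symm)⟩, rfl⟩)
      (fd_ge hf (fix_pre _) (fun c y => ⟨c, rfl⟩) fun z _ => exists_move hu hv hs z p)
  rw [Set.ncard_eq_toFinset_card P hP, ← nsmul_eq_mul, ← Finset.sum_const,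
    ← Finset.sum_congr rfl fun p _ => h1 p, ← osum_finsum]
  congr 1
  funext y
  by_cases hy : (u y, v y) ∈ P
  · rw [Finset.sum_eq_single_of_mem (u y, v y) (hP.mem_toFinset.2 hy),
      Set.indicator_of_mem (show y ∈ (fun y => (u y, v y)) ⁻¹' P from hy),
      Set.indicator_of_mem (by rfl)]
    intro p _ hp
    refine Set.indicator_of_notMem (fun h => hp ?_) _
    exact (show (u y, v y) = p from h).symm
  · rw [Set.indicator_of_notMem (show y ∉ (fun y => (u y, v y)) ⁻¹' P from hy), eq_comm]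
    refine Finset.sum_eq_zero fun p hp => Set.indicator_of_notMem (fun h => hy ?_) _
    rw [show (u y, v y) = p from h]
    exact hP.mem_toFinset.1 hp

theorem ta_linear (hY : Free H Y) (hu : ∀ g y, u (g • y) = ψ g + u y)
    (hv : ∀ g y, v (g • y) = φ g + v y) (hs : ∀ a b, ∃ g, ψ g = a ∧ φ g = b)
    (hW : Loc H (fun y => (u y, v y)) W) (hA : Adm H W) {C : ℝ}
    (hC : ∀ D : ℕ, (ta H W u v D).toReal ≤ C * (D + 1)) :
    ∃ (κ : ℤ) (c : ℝ) (D₀ : ℕ), ∀ D : ℕ, D₀ ≤ D → (ta H W u v D).toReal = κ * D + c := by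
  have hc := hW.cls
  have hi := hW.inv
  obtain ⟨K, s, cK, iK, hK, hfs, hW⟩ := hW
  set π : Y → ℤ × ℤ := fun y => (u y, v y) with hπ
  set K₀ := W ⊓ supp (hull H s)ᶜ with hK₀
  set W₁ := W ⊓ K₀ᗮ with hW₁
  have i0 : Inv H K₀ := hi.inf (inv_supp (compl_inv (hull_inv s)))
  have i1 : Inv H W₁ := hi.inf i0.orth
  have c1 : Cls W₁ := hc.inf (cls_orth _)
  have f1 : edim H W₁ ≠ ⊤ := edim_orth_supp_ne_top hY (hull_inv s) (hull_cofin hfs) hc hi
  have hF := free_subgroup hY (fix H π)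
  have s0 : ∀ P : Set (ℤ × ℤ), ∀ f ∈ K₀, res (π ⁻¹' P) f ∈ K₀ := fun P f hf => by
    have h1 : res (π ⁻¹' P) f ∈ supp (hull H s)ᶜ :=
      (split_supp π _).res_preimage (cls_supp _) P hf.2
    refine ⟨?_, h1⟩
    rw [hW]
    exact ⟨hK.res_preimage cK P (hW.le hf.1).1, supp_hull_le s h1⟩
  have eA : ∀ P : Set (ℤ × ℤ), W ⊓ supp (π ⁻¹' P) ⊓ (K₀ ⊓ supp (π ⁻¹' P))ᗮ =
      W₁ ⊓ supp (π ⁻¹' P) := fun P => by
    refine le_antisymm (fun f hf => ⟨⟨hf.1.1, fun g hg => ?_⟩, hf.1.2⟩)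
      fun f hf => ⟨⟨hf.1.1, hf.2⟩, fun g hg => hf.1.2 g hg.1⟩
    rw [← res_eq_self hf.1.2, ← inner_res_left]
    exact hf.2 _ ⟨s0 P g hg, res_mem_supp _ _⟩
  have eB : ∀ P : Set (ℤ × ℤ), P.Finite → ee (fix H π) W (π ⁻¹' P) (π ⁻¹' P) +
      edim (fix H π) (W₁ ⊓ supp (π ⁻¹' P)) = P.ncard * edim H W₁ := fun P hP => by
    rw [edim, edim, ← osum_fibres hu hv hs (tau_smul i1) hP, ee, ← osum_add]
    congr 1
    funext y
    by_cases hy : y ∈ π ⁻¹' P
    · rw [Set.indicator_of_mem hy, Set.indicator_of_mem hy]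
      have h1 := tau_eq_add_dd hc (π ⁻¹' P) y
      rw [tau_split (K := K₀) hc inf_le_left, tau_split (K := K₀ ⊓ supp (π ⁻¹' P))
        (hc.inf (cls_supp _)) (inf_le_inf_right _ inf_le_left), eA, tau_inf_supp (s0 P) hy,
        add_assoc, ENNReal.add_right_inj (tau_ne_top _ _)] at h1
      rw [h1, add_comm]
    · rw [Set.indicator_of_notMem hy, Set.indicator_of_notMem hy, zero_add,
        tau_eq_zero_of_supp inf_le_right hy]
  have fB : ∀ P : Set (ℤ × ℤ), P.Finite → ee (fix H π) W (π ⁻¹' P) (π ⁻¹' P) +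
      edim (fix H π) (W₁ ⊓ supp (π ⁻¹' P)) ≠ ⊤ := fun P hP => by
    rw [eB P hP]
    exact ENNReal.mul_ne_top (ENNReal.natCast_ne_top _) f1
  have iP : ∀ P : Set (ℤ × ℤ), Inv (fix H π) (W₁ ⊓ supp (π ⁻¹' P)) := fun P =>
    (i1.subgroup _).inf (inv_supp (fix_pre P))
  refine hilbert (fun P => (edim (fix H π) (W₁ ⊓ supp (π ⁻¹' P))).toReal) (fun P hP => ?_)
    (fun P P' hP hP' => ?_) (fun P q => ?_) (edim H W₁).toReal C _ (fun D => ?_)
    (fun _ => ENNReal.toReal_nonneg) hC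
  · obtain ⟨n, hn⟩ := (hA.restrict (pair_grading hu hv) (fix_pre P) hP subset_rfl).int hF
      (hc.inf (cls_supp _)) ((hi.subgroup _).inf (inv_supp (fix_pre P)))
      (Z := hull H s ∩ π ⁻¹' P) (fun c y hy => ⟨hull_inv s (c : H) y hy.1, fix_pre P c y hy.2⟩)
      (cofin_fibres (pair_grading hu hv) (hull_cofin hfs) hP)
    have h1 : W ⊓ supp (π ⁻¹' P) ⊓ supp (hull H s ∩ π ⁻¹' P)ᶜ = K₀ ⊓ supp (π ⁻¹' P) := by
      refine le_antisymm (fun f hf => ⟨⟨hf.1.1, fun y hy => ?_⟩, hf.1.2⟩) fun f hf =>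
        ⟨⟨hf.1.1, hf.2⟩, supp_mono (Set.compl_subset_compl.2 Set.inter_subset_left) hf.1.2⟩
      by_cases h : y ∈ π ⁻¹' P
      · exact hf.2 y fun h' => h' ⟨Set.notMem_compl_iff.1 hy, h⟩
      · exact hf.1.2 y h
    rw [h1, eA] at hn
    exact ⟨n, by simp [hn]⟩
  · have h1 := edim_modular hF (c1.inf (cls_supp _)) (c1.inf (cls_supp _)) (iP P) (iP P')
    have h2 : W₁ ⊓ supp (π ⁻¹' P) ⊓ (W₁ ⊓ supp (π ⁻¹' P')) = W₁ ⊓ supp (π ⁻¹' (P ∩ P')) := by
      rw [Set.preimage_inter, supp_inter, inf_inf_inf_comm, inf_idem]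
    have g1 := (ENNReal.add_ne_top.1 (fB _ hP)).2
    have g2 := (ENNReal.add_ne_top.1 (fB _ hP')).2
    have g3 := (ENNReal.add_ne_top.1 (fB _ (hP.union hP'))).2
    have g4 := (ENNReal.add_ne_top.1 (fB _ (hP.inter_of_left P'))).2
    rw [← ENNReal.toReal_add g1 g2, ← ENNReal.toReal_add g3 g4, ← h1, h2]
    refine ENNReal.toReal_mono (ENNReal.add_ne_top.2 ⟨g3, g4⟩) (add_le_add (edim_mono ?_) le_rfl)
    exact sup_le (inf_le_inf_left _ (supp_mono (Set.preimage_mono Set.subset_union_left)))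
      (inf_le_inf_left _ (supp_mono (Set.preimage_mono Set.subset_union_right)))
  · obtain ⟨b, h1, h2⟩ := hs q.1 q.2
    have h3 : ∀ y, b • y ∈ π ⁻¹' {p | p - q ∈ P} ↔ y ∈ π ⁻¹' P := fun y => by
      change (u (b • y), v (b • y)) - q ∈ P ↔ (u y, v y) ∈ P
      rw [pair_grading hu hv, h1, h2, add_sub_cancel_left]
    have h4 : img (act b) (W₁ ⊓ supp (π ⁻¹' P)) = W₁ ⊓ supp (π ⁻¹' {p | p - q ∈ P}) := by
      ext f
      rw [mem_img_act]
      refine ⟨fun hf => ?_, fun hf => ⟨i1 _ _ hf.1,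
        act_mem_supp (fun y => by rw [← h3, smul_inv_smul]) hf.2⟩⟩
      rw [← act_act_inv b f]
      exact ⟨i1 _ _ hf.1, act_mem_supp h3 hf.2⟩
    rw [← h4, edim_conj (C := fix H π) b _ (h4 ▸ iP _)]
    refine fun z w => exists_congr fun c => ?_
    change (c : H) • z = w ↔ (c : H) • b • z = b • w
    rw [smul_comm (c : H) b, (MulAction.injective b).eq_iff]
  · have h1 := congrArg ENNReal.toReal (eB _ (finite_tri D))
    obtain ⟨g1, g2⟩ := ENNReal.add_ne_top.1 (fB _ (finite_tri D))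
    rw [ENNReal.toReal_add g1 g2, ENNReal.toReal_mul, ENNReal.toReal_natCast, ncard_tri,
      mul_comm] at h1
    exact h1

theorem cc_shift (hW : Inv H W) (hu : ∀ g y, u (g • y) = ψ g + u y) (hψ : Function.Surjective ψ)
    (k : ℤ) (hv : ∀ y, v y = k + u y) : cc H W v = cc H W u :=
  ee_shift hW hu hψ k _ _ (fix_congr fun y y' => by simp [hv]) (fun y => by simp [hv])
    fun y => by simp [hv]

/-- The triangle relation. -/
theorem triangle (hY : Free H Y) (hu : ∀ g y, u (g • y) = ψ g + u y)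
    (hv : ∀ g y, v (g • y) = φ g + v y) (hs : ∀ a b, ∃ g, ψ g = a ∧ φ g = b)
    (hW : Loc H (fun y => (u y, v y)) W) (hA : Adm H W) :
    ∃ n : ℤ, (cc H W u).toReal + (cc H W v).toReal + (cc H W fun y => -(u y + v y)).toReal = n := by
  have hi := hW.inv
  have hw : ∀ g y, u (g • y) + v (g • y) = (ψ g + φ g) + (u y + v y) := fun g y => by
    rw [hu, hv]; ring
  have su : Function.Surjective ψ := fun a => (hs a 0).imp fun _ h => h.1
  have sv : Function.Surjective φ := fun a => (hs 0 a).imp fun _ h => h.2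
  have sw : Function.Surjective fun g => ψ g + φ g :=
    fun a => (hs a 0).imp fun _ h => by simp [h.1, h.2]
  obtain ⟨f1, f1'⟩ := ENNReal.add_ne_top.1 (cc_ne_top hY hu su (hW.comp Prod.fst))
  obtain ⟨f2, f2'⟩ := ENNReal.add_ne_top.1 (cc_ne_top hY hv sv (hW.comp Prod.snd))
  obtain ⟨f3, f3'⟩ := ENNReal.add_ne_top.1
    (cc_ne_top (u := fun y => u y + v y) hY hw sw (hW.comp fun p => p.1 + p.2))
  obtain ⟨C, hC, h⟩ := tiling hY hu hv hs hW
  have hu' : ∀ g y, -1 - u (g • y) = -ψ g + (-1 - u y) := fun g y => by rw [hu]; ring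
  have hv' : ∀ g y, -1 - v (g • y) = -φ g + (-1 - v y) := fun g y => by rw [hv]; ring
  have hs' : ∀ a b, ∃ g, -ψ g = a ∧ -φ g = b := fun a b =>
    (hs (-a) (-b)).imp fun _ h => by simp [h.1, h.2]
  set G := (cc H W u + cc H W fun y => -u y) + (cc H W v + cc H W fun y => -v y) +
    ((cc H W fun y => u y + v y) + cc H W fun y => -(u y + v y)) with hG
  have fG : G ≠ ⊤ := by simp only [hG, ne_eq, ENNReal.add_eq_top, not_or]; tauto
  have fR : ∀ D : ℕ, (D + 1) * G + C ≠ ⊤ := fun D =>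
    ENNReal.add_ne_top.2 ⟨ENNReal.mul_ne_top (by simp) fG, hC⟩
  have t0 : ta H W u v (0 : ℕ) = 0 := by
    have : tri (0 : ℕ) = ∅ := by
      ext p
      simp only [tri, Set.mem_ofPred_eq, Set.mem_empty_iff_false, iff_false]
      omega
    rw [ta, this]
    simp [ee, osum]
  have g1 : ∀ D : ℕ, ta H W u v D ≠ ⊤ := fun D => by
    rcases D with _ | D
    · rw [t0]; exact ENNReal.zero_ne_top
    · exact ne_top_of_le_ne_top (fR D) (le_trans (by push_cast; exact le_self_add) (h D))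
  have g2 : ∀ D : ℕ, ta H W (fun y => -1 - u y) (fun y => -1 - v y) D ≠ ⊤ := fun D =>
    ne_top_of_le_ne_top (fR D) (le_add_self.trans (h D))
  have hr : ∀ D : ℕ, (ta H W u v (D + 1 : ℕ)).toReal +
      (ta H W (fun y => -1 - u y) (fun y => -1 - v y) D).toReal ≤
        (D + 1) * G.toReal + C.toReal := fun D => by
    have h1 := ENNReal.toReal_mono (fR D) (h D)
    have h2 := g1 (D + 1)
    push_cast at h2 ⊢
    rw [ENNReal.toReal_add h2 (g2 D), ENNReal.toReal_add (ENNReal.mul_ne_top (by simp) fG) hC,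
      ENNReal.toReal_mul, ENNReal.toReal_add (by simp) (by simp)] at h1
    simpa using h1
  have p1 : 0 ≤ G.toReal := ENNReal.toReal_nonneg
  have p2 : 0 ≤ C.toReal := ENNReal.toReal_nonneg
  obtain ⟨κ, c, D₀, hκ⟩ := ta_linear hY hu hv hs hW hA (C := G.toReal + C.toReal) fun D => by
    rcases D with _ | D
    · rw [t0]; simp; positivity
    · have h1 := hr D
      have h2 := ENNReal.toReal_nonneg (a := ta H W (fun y => -1 - u y) (fun y => -1 - v y) D)
      have h3 : (0 : ℝ) ≤ D := Nat.cast_nonneg D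
      push_cast at h1 ⊢
      nlinarith
  obtain ⟨κ', c', D₁, hκ'⟩ := ta_linear (u := fun y => -1 - u y) (v := fun y => -1 - v y) hY hu'
    hv' hs' (hW.comp fun p => (-1 - p.1, -1 - p.2)) hA (C := G.toReal + C.toReal) fun D => by
      have h1 := hr D
      have h2 := ENNReal.toReal_nonneg (a := ta H W u v (D + 1 : ℕ))
      have h3 : (0 : ℝ) ≤ D := Nat.cast_nonneg D
      nlinarith
  have l1 := slope_ge hi hu hv hs g1 hκ
  have l2 := slope_ge (u := fun y => -1 - u y) (v := fun y => -1 - v y) hi hu' hv' hs' g2 hκ'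
  rw [cc_shift (u := fun y => -u y) (v := fun y => -1 - u y) hi (neg_grading hu)
      (neg_surjective.comp su) (-1) fun y => by ring,
    cc_shift (u := fun y => -v y) (v := fun y => -1 - v y) hi (neg_grading hv)
      (neg_surjective.comp sv) (-1) fun y => by ring,
    cc_shift (u := fun y => u y + v y) (v := fun y => -(-1 - u y + (-1 - v y))) hi hw sw 2
      fun y => by ring] at l2
  have l3 : (κ : ℝ) + κ' ≤ G.toReal := by
    refine le_of_linear (n₀ := max D₀ D₁) (c := G.toReal + C.toReal - κ - c - c') fun n hn => ?_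
    have h1 := hr n
    rw [hκ _ (by omega), hκ' _ (by omega)] at h1
    push_cast at h1
    linarith
  rw [ENNReal.toReal_add (ENNReal.add_ne_top.2 ⟨f1, f2⟩) f3', ENNReal.toReal_add f1 f2] at l1
  rw [ENNReal.toReal_add (ENNReal.add_ne_top.2 ⟨f1', f2'⟩) f3, ENNReal.toReal_add f1' f2'] at l2
  rw [hG, ENNReal.toReal_add (ENNReal.add_ne_top.2 ⟨ENNReal.add_ne_top.2 ⟨f1, f1'⟩,
    ENNReal.add_ne_top.2 ⟨f2, f2'⟩⟩) (ENNReal.add_ne_top.2 ⟨f3, f3'⟩),
    ENNReal.toReal_add (ENNReal.add_ne_top.2 ⟨f1, f1'⟩) (ENNReal.add_ne_top.2 ⟨f2, f2'⟩),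
    ENNReal.toReal_add f1 f1', ENNReal.toReal_add f2 f2', ENNReal.toReal_add f3 f3'] at l3
  exact ⟨κ, by linarith⟩

end Pool.Agent.P.MP_0f25e6_al.RM
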