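import Mathlib

/-!
The Magnus embedding.
-/

set_option autoImplicit false

noncomputable section

namespace Pool.Agent.P.MP_0f25e6_al.RM

open SemidirectProduct Multiplicative

universe u

/-- The lamp group: one lamp for each edge of the Cayley graph, and one extra lamp. -/
abbrev Lamp (L S : Type u) : Type u := Multiplicative (Option (L × S) →₀ ℤ)

variable {L S : Type u} [Group L]

/-- Left translation of edges. -/
def sh (S : Type u) (l : L) : Option (L × S) ≃ Option (L × S) :=
  Equiv.optionCongr (Equiv.prodCongr (Equiv.mulLeft l) (Equiv.refl S))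

@[simp] theorem sh_symm_none (l : L) : (sh S l).symm none = none := rfl

@[simp] theorem sh_symm_some (l x : L) (s : S) :
    (sh S l).symm (some (x, s)) = some (l⁻¹ * x, s) := rfl

/-- The action on the lamp group. -/
def lampAut (L S : Type u) [Group L] : L →* MulAut (Lamp L S) where
  toFun l := AddEquiv.toMultiplicative (Finsupp.domCongr (sh S l))
  map_one' := by
    ext b e
    change b.toAdd ((sh S (1 : L)).symm e) = b.toAdd e
    rcases e with _ | ⟨x, s⟩ <;> simp
  map_mul' l m := by
    ext b e
    change b.toAdd ((sh S (l * m)).symm e) = b.toAdd ((sh S m).symm ((sh S l).symm e))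
    rcases e with _ | ⟨x, s⟩ <;> simp [mul_assoc]

theorem lampAut_apply (l : L) (b : Lamp L S) (e : Option (L × S)) :
    (lampAut L S l b).toAdd e = b.toAdd ((sh S l).symm e) := rfl

theorem lampAut_single (l x : L) (s : S) :
    lampAut L S l (ofAdd (Finsupp.single (some (x, s)) 1)) =
      ofAdd (Finsupp.single (some (l * x, s)) 1) := by
  change ofAdd (Finsupp.equivMapDomain _ _) = _
  rw [toAdd_ofAdd, Finsupp.equivMapDomain_single]
  rfl

/-- The wreath product. -/
abbrev Wr (L S : Type u) [Group L] : Type u := Lamp L S ⋊[lampAut L S] L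

/-- The Magnus homomorphism. -/
def magnus (q : FreeGroup S →* L) : FreeGroup S →* Wr L S :=
  FreeGroup.lift fun s => ⟨ofAdd (Finsupp.single (some (1, s)) 1), q (FreeGroup.of s)⟩

theorem magnus_of (q : FreeGroup S →* L) (s : S) : magnus q (FreeGroup.of s) =
    ⟨ofAdd (Finsupp.single (some (1, s)) 1), q (FreeGroup.of s)⟩ := FreeGroup.lift_apply_of

theorem magnus_right (q : FreeGroup S →* L) (k : FreeGroup S) : (magnus q k).right = q k := by
  have : rightHom.comp (magnus q) = q := FreeGroup.ext_hom _ _ fun s => by
    rw [MonoidHom.comp_apply, magnus_of]; rfl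
  exact DFunLike.congr_fun this k

theorem commutator_le_ker (q : FreeGroup S →* L) : ⁅q.ker, q.ker⁆ ≤ (magnus q).ker := by
  rw [Subgroup.commutator_le]
  intro a ha b hb
  rw [MonoidHom.mem_ker, map_commutatorElement, commutatorElement_eq_one_iff_mul_comm]
  have h1 : (magnus q a).right = 1 := by rw [magnus_right]; exact ha
  have h2 : (magnus q b).right = 1 := by rw [magnus_right]; exact hb
  ext1
  · simp [h1, h2, mul_comm]
  · simp [h1, h2]

theorem ker_le_commutator (q : FreeGroup S →* L) (hq : Function.Surjective q) :
    (magnus q).ker ≤ ⁅q.ker, q.ker⁆ := by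
  choose τ hτ using hq
  let c : L → FreeGroup S → Abelianization q.ker := fun l k =>
    Abelianization.of ⟨τ l * k * (τ (l * q k))⁻¹, by simp [hτ]⟩
  have hc : ∀ l k k', c l (k * k') = c l k * c (l * q k) k' := fun l k k' => by
    simp only [c]
    rw [← map_mul Abelianization.of]
    congr 1
    apply Subtype.ext
    simp [mul_assoc]
  have hc1 : ∀ l, c l 1 = 1 := fun l => by
    simp only [c]
    rw [← map_one (Abelianization.of (G := q.ker))]
    congr 1
    apply Subtype.ext
    simp
  let Φ₀ : (Option (L × S) →₀ ℤ) →+ Additive (Abelianization q.ker) :=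
    Finsupp.liftAddHom fun e => zmultiplesHom _
      (e.elim 0 fun p => Additive.ofMul (c p.1 (FreeGroup.of p.2)))
  let Φ : Lamp L S →* Abelianization q.ker := AddMonoidHom.toMultiplicativeLeft Φ₀
  have key : ∀ k l, Φ (lampAut L S l (magnus q k).left) = c l k := by
    intro k
    induction k using FreeGroup.induction_on with
    | C1 => intro l; simp [hc1]
    | of s =>
      intro l
      rw [magnus_of, lampAut_single]
      simp [Φ, Φ₀]
    | inv_of s ih =>
      intro l
      have h1 := hc l (FreeGroup.of s)⁻¹ (FreeGroup.of s)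
      rw [inv_mul_cancel, hc1, ← ih] at h1
      rw [map_inv, inv_left, magnus_right, ← MulAut.mul_apply, ← map_mul, map_inv, map_inv,
        eq_inv_of_mul_eq_one_left h1.symm, map_inv]
    | mul a b iha ihb =>
      intro l
      rw [map_mul, mul_left, magnus_right, map_mul, map_mul, ← MulAut.mul_apply,
        ← map_mul (lampAut L S), iha, ihb, hc]
  intro k hk
  have h1 := key k 1
  rw [MonoidHom.mem_ker.1 hk, one_left, map_one, map_one, eq_comm] at h1
  have h2 : q k = 1 := by rw [← magnus_right, MonoidHom.mem_ker.1 hk, one_right]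
  have h3 := Subgroup.mem_map_of_mem q.ker.subtype ((Abelianization.ker_of (G := q.ker)).le h1)
  rw [commutator, Subgroup.map_commutator, ← MonoidHom.range_eq_map, Subgroup.range_subtype] at h3
  have h4 := (inferInstance : (⁅q.ker, q.ker⁆ : Subgroup _).Normal).conj_mem _ h3 (τ 1)⁻¹
  simpa [h2, mul_assoc] using h4

theorem exists_closure (k : FreeGroup S) :
    ∃ T : Finset S, k ∈ Subgroup.closure (FreeGroup.of '' (T : Set S)) := by
  classical
  induction k using FreeGroup.induction_on with
  | C1 => exact ⟨∅, one_mem _⟩
  | of s => exact ⟨{s}, Subgroup.subset_closure ⟨s, by simp, rfl⟩⟩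
  | inv_of s ih => exact ih.imp fun _ h => inv_mem h
  | mul a b iha ihb =>
    obtain ⟨T, hT⟩ := iha
    obtain ⟨U, hU⟩ := ihb
    exact ⟨T ∪ U, mul_mem (Subgroup.closure_mono (Set.image_mono (by simp)) hT)
      (Subgroup.closure_mono (Set.image_mono (by simp)) hU)⟩

/-- The extra lamp plus the flow into the base vertex along the edges labelled in `T`. -/
def flow (q : FreeGroup S →* L) (T : Finset S) (b : Lamp L S) : ℤ :=
  b.toAdd none + ∑ s ∈ T, (b.toAdd (some ((q (FreeGroup.of s))⁻¹, s)) - b.toAdd (some (1, s)))

theorem flow_mul (q : FreeGroup S →* L) (T : Finset S) (a b : Lamp L S) :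
    flow q T (a * b) = flow q T a + flow q T b := by
  simp only [flow, toAdd_mul, Finsupp.add_apply, Finset.sum_sub_distrib, Finset.sum_add_distrib]
  ring

open Classical in
/-- The conserved quantity. -/
def cons (q : FreeGroup S →* L) (T : Finset S) (g : Wr L S) : ℤ :=
  flow q T g.left - if g.right = 1 then 1 else 0

theorem cons_mul (q : FreeGroup S →* L) (T : Finset S) {k : FreeGroup S}
    (hk : k ∈ Subgroup.closure (FreeGroup.of '' (T : Set S))) (g : Wr L S) :
    cons q T (g * magnus q k) = cons q T g := by
  classical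
  induction hk using Subgroup.closure_induction generalizing g with
  | mem x hx =>
    obtain ⟨s, hs, rfl⟩ := hx
    have h1 : flow q T (ofAdd (Finsupp.single (some (g.right, s)) 1)) =
        (if g.right * q (FreeGroup.of s) = 1 then 1 else 0) - if g.right = 1 then 1 else 0 := by
      rw [flow, Finset.sum_eq_single_of_mem s hs]
      · simp [Finsupp.single_apply, mul_eq_one_iff_eq_inv]
      · intro t _ ht
        simp [ht.symm]
    rw [magnus_of, cons, cons, mul_left, mul_right, lampAut_single, flow_mul, mul_one, h1]
    ring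
  | one => rw [map_one, mul_one]
  | mul x y _ _ hx hy => rw [map_mul, ← mul_assoc, hy, hx]
  | inv x _ hx => rw [← hx, map_inv, inv_mul_cancel_right]

end Pool.Agent.P.MP_0f25e6_al.RM
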