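import Pool.Agent.P.MP_0f25e6_al.RM7
import Pool.Agent.P.MP_0f25e6_al.RM8

/-!
The strong Atiyah property for a free group modulo the commutator subgroup of a normal subgroup.
-/

set_option autoImplicit false

open scoped InnerProductSpace ENNReal Topology
open Filter MulAction SemidirectProduct Multiplicative

noncomputable section

namespace Pool.Agent.P.MP_0f25e6_al.RM

open HN

universe u

theorem cls_perp' {I Y : Type*} (a : I → L2 Y) : Cls (perp a) := by
  have : (perp a : Set (L2 Y)) = ⋂ i, {f | ⟪a i, f⟫_ℂ = 0} := by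
    ext f
    simp only [SetLike.mem_coe, Set.mem_iInter, Set.mem_ofPred_eq]
    exact mem_perp
  rw [Cls, this]
  exact isClosed_iInter fun _ => isClosed_eq (continuous_const.inner continuous_id) continuous_const

theorem split_perp {I X Y : Type*} {κ : Y → X} {a : I → L2 Y}
    (h : ∀ i y y', a i y ≠ 0 → a i y' ≠ 0 → κ y = κ y') : Split κ (perp a) := by
  intro x f hf i
  rw [← inner_res_left]
  by_cases hx : ∃ y, a i y ≠ 0 ∧ κ y = x
  · obtain ⟨y, hy, rfl⟩ := hx
    rw [res_eq_self (S := κ ⁻¹' {κ y}) fun z hz => by_contra fun h' => hz (h i z y h' hy)]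
    exact hf i
  · rw [res_eq_zero (S := κ ⁻¹' {x}) (T := {y | κ y ≠ x}) (fun z hz => by_contra fun h' =>
      hx ⟨z, h', not_not.1 hz⟩) fun z h1 h2 => h2 h1, inner_zero_left]

variable {L S : Type u} [Group L] {n : ℕ}

/-- The action of the lamp group. -/
@[reducible] def lampAct (L S : Type u) [Group L] (n : ℕ) :
    MulAction (Lamp L S) (Tw (Wr L S) (Fin n)) :=
  MulAction.compHom _ (inl : Lamp L S →* Wr L S)

attribute [local instance] lampAct

theorem lamp_smul (b : Lamp L S) (y : Tw (Wr L S) (Fin n)) : b • y = (inl b : Wr L S) • y := rfl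

theorem lamp_left (b : Lamp L S) (y : Tw (Wr L S) (Fin n)) : (b • y).y.left = b * y.y.left := by
  change (inl b * y.y).left = _
  simp

theorem lamp_right (b : Lamp L S) (y : Tw (Wr L S) (Fin n)) : (b • y).y.right = y.y.right := by
  change (inl b * y.y).right = _
  simp

theorem free_lamp : Free (Lamp L S) (Tw (Wr L S) (Fin n)) :=
  (free_tw free_self).of_hom inl inl_injective fun _ _ => rfl

theorem act_lamp (b : Lamp L S) (f : L2 (Tw (Wr L S) (Fin n))) :
    act b f = act (inl b : Wr L S) f := (act_hom inl (fun _ _ => rfl) b f).symm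

theorem inv_lamp {W : Submodule ℂ (L2 (Tw (Wr L S) (Fin n)))} (h : Inv (Wr L S) W) :
    Inv (Lamp L S) W := h.of_hom inl fun _ _ => rfl

theorem loc_lamps {I X : Type*} [Finite I] {a : I → L2 (Tw (Wr L S) (Fin n))}
    (ha : ∀ i, FinS (a i)) (T : Finset (Option (L × S)))
    (h0 : ∀ i y, a i y ≠ 0 → y.y.left.toAdd none = 0) {κ : Tw (Wr L S) (Fin n) → X}
    (hκ : ∀ y y', (∀ e ∈ T, y.y.left.toAdd e = y'.y.left.toAdd e) → κ y = κ y') :
    Loc (Lamp L S) κ (sol (Wr L S) a) := by
  classical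
  have := Fintype.ofFinite I
  let Bad : Set L := {l | ∃ i y, a i y ≠ 0 ∧ ∃ e ∈ T, y.y.left.toAdd ((sh S l).symm e) ≠ 0}
  have hB : Bad.Finite := by
    have h1 : {y | ∃ i, a i y ≠ 0}.Finite :=
      (Set.finite_iUnion fun i => ha i).subset fun y ⟨i, hi⟩ => Set.mem_iUnion.2 ⟨i, hi⟩
    have h2 := h1.biUnion fun y _ => y.y.left.toAdd.support.finite_toSet
    refine ((T.finite_toSet.prod h2).image fun p =>
      p.1.elim 1 Prod.fst * (p.2.elim 1 Prod.fst)⁻¹).subset ?_
    rintro l ⟨i, y, hy, e, he, h3⟩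
    refine ⟨(e, (sh S l).symm e), ⟨he, Set.mem_biUnion (show y ∈ _ from ⟨i, hy⟩)
      (Finsupp.mem_support_iff.2 h3)⟩, ?_⟩
    rcases e with _ | ⟨x, s⟩
    · exact absurd (h0 i y hy) h3
    · simp
  refine ⟨perp fun p : {g : Wr L S // g.right ∉ Bad} × I => act p.1.1 (a p.2),
    (hB.toFinset ×ˢ Finset.univ).image fun p => act (inr p.1 : Wr L S) (a p.2), cls_perp' _,
    fun b f hf p => ?_, split_perp fun p y y' hy hy' => hκ _ _ fun e he => ?_, fun r hr => ?_, ?_⟩
  · rw [← inv_inv b, ← inner_act_left, act_lamp, ← act_mul]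
    exact hf (⟨_, by simpa using p.1.2⟩, p.2)
  · have key : ∀ z, act p.1.1 (a p.2) z ≠ 0 → z.y.left.toAdd e = p.1.1.left.toAdd e := by
      intro z hz
      have h1 : (p.1.1⁻¹ • z).y.left.toAdd ((sh S p.1.1.right).symm e) = 0 :=
        by_contra fun h => p.1.2 ⟨p.2, _, hz, e, he, h⟩
      have h2 : z.y = p.1.1 * (p.1.1⁻¹ • z).y := by simp
      rw [h2, mul_left, toAdd_mul, Finsupp.add_apply, lampAut_apply, h1, add_zero]
    rw [key y hy, key y' hy']
  · obtain ⟨p, -, rfl⟩ := Finset.mem_image.1 hr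
    exact finCols_act _ _ (ha _)
  · ext f
    refine ⟨fun hf => ⟨fun p => mem_sol.1 hf _ _, mem_sol.2 fun b r => ?_⟩,
      fun hf => mem_sol.2 fun g i => ?_⟩
    · obtain ⟨p, -, hp⟩ := Finset.mem_image.1 r.2
      rw [← hp, act_lamp, ← act_mul]
      exact mem_sol.1 hf _ _
    · by_cases hg : g.right ∈ Bad
      · have := mem_sol.1 hf.2 g.left ⟨_, Finset.mem_image.2 ⟨(g.right, i),
          Finset.mem_product.2 ⟨hB.mem_toFinset.2 hg, Finset.mem_univ i⟩, rfl⟩⟩
        rwa [act_lamp, ← act_mul, inl_left_mul_inr_right] at this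
      · exact hf.1 (⟨g, hg⟩, i)

theorem lamp_grading (e : Option (L × S)) (b : Lamp L S) (y : Tw (Wr L S) (Fin n)) :
    (b • y).y.left.toAdd e = b.toAdd e + y.y.left.toAdd e := by
  rw [lamp_left, toAdd_mul, Finsupp.add_apply]

theorem adm_lamps {I : Type*} [Finite I] {a : I → L2 (Tw (Wr L S) (Fin n))}
    (ha : ∀ i, FinS (a i)) (h0 : ∀ i y, a i y ≠ 0 → y.y.left.toAdd none = 0) :
    Adm (Lamp L S) (sol (Wr L S) a) := fun b hb => by
  obtain ⟨e, he⟩ : ∃ e, b.toAdd e ≠ 0 := by
    by_contra h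
    push Not at h
    exact hb (Multiplicative.toAdd.injective (Finsupp.ext h))
  exact ⟨fun y => y.y.left.toAdd e, fun b => b.toAdd e, lamp_grading e, he,
    loc_lamps ha {e} h0 fun y y' h => h e (Finset.mem_singleton_self e)⟩

theorem cc_lamp {W : Submodule ℂ (L2 (Tw (Wr L S) (Fin n)))} (hW : Inv (Wr L S) W) (l : L)
    (s : S) : cc (Lamp L S) W (fun y => y.y.left.toAdd (some (l, s))) =
      cc (Lamp L S) W (fun y => y.y.left.toAdd (some (1, s))) := by
  refine ee_congr (inv_lamp hW) hW (inr l : Wr L S) (fun b => ⟨lampAut L S l b, fun y => ?_⟩)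
    (fun b => ⟨lampAut L S l⁻¹ b, fun y => ?_⟩) (fun y => ?_) _ _
  · rw [lamp_smul, lamp_smul, smul_smul, smul_smul, inl_aut]
    simp
  · rw [lamp_smul, lamp_smul, smul_smul, smul_smul, inl_aut]
    simp [mul_assoc]
  · change (inr l * y.y).left.toAdd _ = _
    simp [lampAut_apply]

theorem triangle_lamp {I : Type*} [Finite I] {a : I → L2 (Tw (Wr L S) (Fin n))}
    (ha : ∀ i, FinS (a i)) (h0 : ∀ i y, a i y ≠ 0 → y.y.left.toAdd none = 0)
    {x : Lamp L S → ℤ} (hx : ∀ b c, x (b * c) = x b + x c)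
    (hx1 : ∀ k, x (ofAdd (Finsupp.single none k)) = k) {T : Finset (Option (L × S))}
    (hT : ∀ b c, (∀ e ∈ T, b.toAdd e = c.toAdd e) → x b = x c) (e : L × S) :
    ∃ k : ℤ, (cc (Lamp L S) (sol (Wr L S) a) fun y => x y.y.left).toReal +
      (cc (Lamp L S) (sol (Wr L S) a) fun y => y.y.left.toAdd (some e)).toReal +
      (cc (Lamp L S) (sol (Wr L S) a) fun y =>
        -(x y.y.left + y.y.left.toAdd (some e))).toReal = k := by
  classical
  refine triangle free_lamp (ψ := x) (fun b y => by rw [lamp_left, hx]) (lamp_grading (some e))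
    (fun p r => ⟨ofAdd (Finsupp.single (some e) r) *
      ofAdd (Finsupp.single none (p - x (ofAdd (Finsupp.single (some e) r)))), ?_, by simp⟩)
    (loc_lamps ha (insert (some e) T) h0 fun y y' h => ?_) (adm_lamps ha h0)
  · rw [hx, hx1, add_sub_cancel]
  · rw [hT _ _ fun e' he' => h e' (Finset.mem_insert_of_mem he'),
      h _ (Finset.mem_insert_self _ _)]

theorem cc_flow_int (q : FreeGroup S →* L) {I : Type*} [Finite I]
    {a : I → L2 (Tw (Wr L S) (Fin n))} (ha : ∀ i, FinS (a i))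
    (h0 : ∀ i y, a i y ≠ 0 → y.y.left.toAdd none = 0) (T : Finset S) :
    ∃ k : ℤ, (cc (Lamp L S) (sol (Wr L S) a) fun y => flow q T y.y.left).toReal = k := by
  classical
  have hx1 : ∀ (T : Finset S) k, flow q T (ofAdd (Finsupp.single none k)) = k := fun T k => by
    simp [flow]
  have hT : ∀ T : Finset S, ∃ U : Finset (Option (L × S)), ∀ b c : Lamp L S,
      (∀ e ∈ U, b.toAdd e = c.toAdd e) → flow q T b = flow q T c := fun T => by
    refine ⟨insert none (T.image (fun s => some ((q (FreeGroup.of s))⁻¹, s)) ∪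
      T.image fun s => some (1, s)), fun b c h => ?_⟩
    rw [flow, flow, h _ (Finset.mem_insert_self _ _)]
    congr 1
    refine Finset.sum_congr rfl fun s hs => ?_
    rw [h _ (Finset.mem_insert_of_mem (Finset.mem_union_left _ (Finset.mem_image_of_mem _ hs))),
      h _ (Finset.mem_insert_of_mem (Finset.mem_union_right _ (Finset.mem_image_of_mem _ hs)))]
  induction T using Finset.induction_on with
  | empty =>
    refine ⟨0, ?_⟩
    have h1 : Split (fun y : Tw (Wr L S) (Fin n) => flow q ∅ y.y.left) (sol (Wr L S) a) := by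
      refine split_perp fun p y y' hy hy' => ?_
      have key : ∀ z, act p.1 (a p.2) z ≠ 0 → flow q ∅ z.y.left = p.1.left.toAdd none := by
        intro z hz
        have h2 : z.y = p.1 * (p.1⁻¹ • z).y := by simp
        rw [flow, Finset.sum_empty, add_zero, h2, mul_left, toAdd_mul, Finsupp.add_apply,
          lampAut_apply, sh_symm_none, h0 _ _ hz, add_zero]
      rw [key y hy, key y' hy']
    have h2 : cc (Lamp L S) (sol (Wr L S) a) (fun y => flow q ∅ y.y.left) = 0 := by
      refine le_zero_iff.1 ((osum_mono fun y => ?_).trans osum_zero.le)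
      exact Set.indicator_apply_le' (fun hy => (dd_eq_zero (cls_sol a)
        (fun f hf => h1.res_preimage (cls_sol a) _ hf) hy).le) fun _ => le_rfl
    simp [h2]
  | insert s T hs ih =>
    obtain ⟨k, hk⟩ := ih
    obtain ⟨U, hU⟩ := hT T
    obtain ⟨U', hU'⟩ := hT (insert s T)
    obtain ⟨k₁, h1⟩ := triangle_lamp ha h0 (flow_mul q T) (hx1 T) hU ((q (FreeGroup.of s))⁻¹, s)
    obtain ⟨k₂, h2⟩ := triangle_lamp ha h0 (flow_mul q (insert s T)) (hx1 _) hU' (1, s)
    have h3 : (fun y : Tw (Wr L S) (Fin n) =>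
        -(flow q (insert s T) y.y.left + y.y.left.toAdd (some (1, s)))) = fun y =>
        -(flow q T y.y.left + y.y.left.toAdd (some ((q (FreeGroup.of s))⁻¹, s))) := by
      funext y
      rw [flow, flow, Finset.sum_insert hs]
      ring
    rw [h3] at h2
    rw [cc_lamp (inv_sol a), hk] at h1
    exact ⟨k₂ - k₁ + k, by push_cast; linarith⟩

theorem edim_int (q : FreeGroup S →* L) {I : Type*} [Finite I]
    {a : I → L2 (Tw (Wr L S) (Fin n))} (ha : ∀ i, FinS (a i))
    (hm : ∀ i y, a i y ≠ 0 → y.y ∈ (magnus q).range) :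
    ∃ k : ℕ, edim (Wr L S) (sol (Wr L S) a) = k := by
  classical
  obtain ⟨T, hT⟩ : ∃ T : Finset S, ∀ i y, a i y ≠ 0 →
      ∃ k ∈ Subgroup.closure (FreeGroup.of '' (T : Set S)), magnus q k = y.y := by
    have h1 : {y | ∃ i, a i y ≠ 0}.Finite :=
      (Set.finite_iUnion fun i => ha i).subset fun y ⟨i, hi⟩ => Set.mem_iUnion.2 ⟨i, hi⟩
    have h2 : ∀ y : h1.toFinset, ∃ T : Finset S,
        ∃ k ∈ Subgroup.closure (FreeGroup.of '' (T : Set S)), magnus q k = y.1.y := fun y => by
      obtain ⟨i, hi⟩ := h1.mem_toFinset.1 y.2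
      obtain ⟨k, hk⟩ := hm i y hi
      exact (exists_closure k).imp fun T hT => ⟨k, hT, hk⟩
    choose U hU using h2
    refine ⟨Finset.univ.biUnion U, fun i y hy => ?_⟩
    obtain ⟨k, h3, h4⟩ := hU ⟨y, h1.mem_toFinset.2 ⟨i, hy⟩⟩
    exact ⟨k, Subgroup.closure_mono (Set.image_mono (Finset.coe_subset.2
      (Finset.subset_biUnion_of_mem U (Finset.mem_univ _)))) h3, h4⟩
  have h0 : ∀ i y, a i y ≠ 0 → y.y.left.toAdd none = 0 := by
    intro i y hy
    obtain ⟨k, hk⟩ := hm i y hy
    rw [← hk]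
    clear hk
    induction k using FreeGroup.induction_on with
    | C1 => simp
    | of s => simp [magnus_of]
    | inv_of s ih =>
      rw [map_inv, inv_left, lampAut_apply, sh_symm_none]
      simp [magnus_of]
    | mul b c ihb ihc => simp [lampAut_apply, ihb, ihc]
  set W := sol (Wr L S) a with hW
  have hc : Cls W := cls_sol a
  have hi : Inv (Wr L S) W := inv_sol a
  let x : Tw (Wr L S) (Fin n) → ℤ := fun y => flow q T y.y.left
  let w : Tw (Wr L S) (Fin n) → ℤ := fun y => cons q T y.y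
  have hx : ∀ (b : Lamp L S) y, x (b • y) = flow q T b + x y := fun b y => by
    simp only [x, lamp_left, flow_mul]
  have hs : Split w W := split_perp fun p y y' hy hy' => by
    have key : ∀ z, act p.1 (a p.2) z ≠ 0 → w z = cons q T p.1 := by
      intro z hz
      obtain ⟨k, h1, h2⟩ := hT _ _ hz
      have h3 : z.y = p.1 * magnus q k := by simp [h2]
      simp only [w]
      rw [h3, cons_mul q T h1]
    rw [key y hy, key y' hy']
  let Q : Set (Tw (Wr L S) (Fin n)) := {y | y.y.right = 1} ∩ x ⁻¹' {0}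
  have hQi : ∀ c : fix (Lamp L S) x, ∀ y ∈ Q, c • y ∈ Q := fun c y hy =>
    ⟨(lamp_right c.1 y).trans hy.1, fix_pre _ c y hy.2⟩
  have hQc : Cofin (fix (Lamp L S) x) Q := cofin_fibres hx
    ⟨Set.range fun j => ⟨1, j⟩, Set.finite_range _, fun y hy => ⟨y.y.left⁻¹, y.k, by
      refine Tw.ext (SemidirectProduct.ext ?_ ?_) rfl
      · simp [lamp_left]
      · rw [lamp_right]; exact hy.symm⟩⟩ (Set.finite_singleton 0)
  obtain ⟨k₁, h1⟩ := ((adm_lamps ha h0).restrict hx hQi (Set.finite_singleton 0)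
    Set.inter_subset_right).int (free_subgroup free_lamp _) (hc.inf (cls_supp _))
    (((inv_lamp hi).subgroup _).inf (inv_supp hQi)) hQi hQc
  have hb : W ⊓ supp Q ⊓ supp Qᶜ = ⊥ := by
    rw [inf_assoc, ← supp_inter, Set.inter_compl_self, supp_empty, inf_bot_eq]
  rw [hb, Submodule.bot_orthogonal_eq_top, inf_top_eq] at h1
  obtain ⟨k₂, h2⟩ := cc_flow_int q ha h0 T
  have h3 : osum (fix (Lamp L S) x) (Q.indicator (tau W)) = edim (Wr L S) W := by
    refine le_antisymm (fd_le (tau_smul hi) fun g y hy hy' => ?_)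
      (fd_ge (tau_smul hi) hQi (fun c y => ⟨inl c.1, rfl⟩) fun z _ => ⟨z.y⁻¹, ?_, ?_⟩)
    · have h4 : g.right = 1 := by
        have h5 : (g * y.y).right = 1 := hy'.1
        rwa [mul_right, show y.y.right = 1 from hy.1, mul_one] at h5
      have h5 : g.left • y = g • y := by
        conv_rhs => rw [← inl_left_mul_inr_right g, h4, map_one, mul_one]
        rfl
      exact ⟨⟨g.left, mem_fix hx (y := y) (by rw [h5]; exact hy'.2.trans hy.2.symm)⟩, h5⟩
    · change (z.y⁻¹ * z.y).right = 1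
      simp
    · change flow q T (z.y⁻¹ * z.y).left = 0
      simp [flow]
  have h4 : cc (Lamp L S) W x + edim (fix (Lamp L S) x) (W ⊓ supp Q) = edim (Wr L S) W := by
    rw [← h3, cc, ee, edim, ← osum_add]
    congr 1
    funext y
    have hwx : ∀ z, w z = x z - if z.y.right = 1 then 1 else 0 := fun z => rfl
    by_cases hy : y ∈ Q
    · have h5 : x y = 0 := hy.2
      have h6 : w y = -1 := by rw [hwx, h5, if_pos (show y.y.right = 1 from hy.1)]; rfl
      rw [Set.indicator_of_mem hy, Set.indicator_of_mem (show y ∈ x ⁻¹' Set.Ici 0 from h5.ge),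
        tau_eq_add_dd hc (x ⁻¹' Set.Ici 0), add_comm,
        ← tau_inf_supp ((hs.inf (split_supp w (x ⁻¹' Set.Ici 0))) (-1)) h6, inf_assoc,
        ← supp_inter]
      congr 4
      ext z
      simp only [Q, Set.mem_inter_iff, Set.mem_ofPred_eq, Set.mem_preimage, Set.mem_singleton_iff,
        Set.mem_Ici, hwx]
      split_ifs with h <;> simp only [h, true_and, false_and, false_iff] <;> omega
    · rw [Set.indicator_of_notMem hy, tau_eq_zero_of_supp inf_le_right hy, add_zero]
      refine le_zero_iff.1 (Set.indicator_apply_le' (fun h5 => ?_) fun _ => le_rfl)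
      have h6 : 0 ≤ w y := by
        have h7 : 0 ≤ x y := h5
        have h8 : ¬(y.y.right = 1 ∧ x y = 0) := hy
        rw [hwx]
        split_ifs with h
        · simp only [h, true_and] at h8
          omega
        · omega
      refine (dd_anti W (S := w ⁻¹' Set.Ici 0) (fun z hz => ?_) y).trans
        (dd_eq_zero hc (fun f hf => hs.res_preimage hc _ hf) h6).le
      have h7 : 0 ≤ w z := hz
      change 0 ≤ x z
      rw [hwx] at h7
      split_ifs at h7 <;> omega
  have hf : edim (Wr L S) W ≠ ⊤ := edim_ne_top (cofin_tw cofin_self) W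
  rw [h1] at h4
  have h5 := congrArg ENNReal.toReal h4
  rw [ENNReal.toReal_add (ne_top_of_le_ne_top hf (h4 ▸ le_self_add)) (ENNReal.natCast_ne_top _),
    h2, ENNReal.toReal_natCast] at h5
  have h6 : (0 : ℤ) ≤ k₂ := by
    have := ENNReal.toReal_nonneg (a := cc (Lamp L S) W x)
    rw [h2] at this
    exact_mod_cast this
  obtain ⟨k₃, rfl⟩ := Int.eq_ofNat_of_zero_le h6
  exact ⟨k₃ + k₁, edim_eq_of_dim hf (by rw [dim, ← h5]; simp)⟩

theorem matSAC_of_embedding (q : FreeGroup S →* L) {G : Type u} [Group G] (ι : G →* Wr L S)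
    (hι : Function.Injective ι) (hr : ι.range ≤ (magnus q).range) : MatSAC G := by
  classical
  intro m n A V hV
  let a : Fin m → L2 (Tw (Wr L S) (Fin n)) := fun i =>
    ∑ j, ∑ k ∈ (A i j).support, starRingEnd ℂ (A i j k) • delta ⟨ι k, j⟩
  have ha : ∀ i, FinS (a i) := fun i =>
    finS_sum _ fun j _ => finS_sum _ fun k _ => (finS_delta _).smul _
  have key : ∀ (g : Wr L S) i f, ⟪act g (a i), f⟫_ℂ =
      ∑ j, ∑ k ∈ (A i j).support, A i j k * f ⟨g * ι k, j⟩ := by
    intro g i f
    rw [map_sum, sum_inner]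
    refine Finset.sum_congr rfl fun j _ => ?_
    rw [map_sum, sum_inner]
    refine Finset.sum_congr rfl fun k _ => ?_
    rw [map_smul, inner_smul_left, act_delta, inner_delta_left, starRingEnd_self_apply]
    rfl
  obtain ⟨d, hd⟩ := edim_int q ha fun i y hy => hr (by
    by_contra h
    apply hy
    simp only [a]
    rw [sum_apply']
    refine Finset.sum_eq_zero fun j _ => ?_
    rw [sum_apply']
    refine Finset.sum_eq_zero fun k _ => ?_
    rw [lp.coeFn_smul, Pi.smul_apply, delta_ne fun h' => h ⟨k, (congrArg Tw.y h').symm⟩,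
      smul_zero])
  set W := sol (Wr L S) a with hW
  let J : G × Fin n → Tw (Wr L S) (Fin n) := fun p => ⟨ι p.1⁻¹, p.2⟩
  have hJ : Function.Injective J := fun p p' h =>
    Prod.ext (inv_injective (hι (congrArg Tw.y h))) (congrArg Tw.k h)
  have hmem : ∀ g j, (⟨g, j⟩ : Tw (Wr L S) (Fin n)) ∈ Set.range J ↔ g ∈ ι.range := fun g j =>
    ⟨fun ⟨p, hp⟩ => ⟨_, congrArg Tw.y hp⟩, fun ⟨k, hk⟩ => ⟨(k⁻¹, j), by simp [J, hk]⟩⟩
  have h1 : ∀ f ∈ W, res (Set.range J) f ∈ W := fun f hf => mem_sol.2 fun g i => by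
    by_cases hg : g ∈ ι.range
    · rw [← mem_sol.1 hf g i, key, key]
      refine Finset.sum_congr rfl fun j _ => Finset.sum_congr rfl fun k _ => ?_
      rw [res_apply_of_mem f ((hmem _ _).2 (mul_mem hg ⟨k, rfl⟩))]
    · rw [key]
      refine Finset.sum_eq_zero fun j _ => Finset.sum_eq_zero fun k _ => ?_
      rw [res_apply_of_notMem f fun h => hg ((mul_mem_cancel_right (show ι k ∈ ι.range from ⟨k, rfl⟩)).1 ((hmem _ _).1 h)),
        mul_zero]
  have h2 : img (push J hJ) V = W ⊓ supp (Set.range J) := by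
    apply le_antisymm
    · rintro _ ⟨f, hf, rfl⟩
      have h3 : push J hJ f ∈ supp (Set.range J) := fun z hz =>
        push_apply_not J hJ f fun p hp => hz ⟨p, hp⟩
      refine ⟨mem_sol.2 fun g i => ?_, h3⟩
      change ⟪_, push J hJ f⟫_ℂ = 0
      rw [key]
      by_cases hg : g ∈ ι.range
      · obtain ⟨g, rfl⟩ := hg
        rw [← (hV f).1 hf g⁻¹ i]
        refine Finset.sum_congr rfl fun j _ => Finset.sum_congr rfl fun k _ => ?_
        rw [← push_apply_self J hJ f]
        simp [J]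
      · refine Finset.sum_eq_zero fun j _ => Finset.sum_eq_zero fun k _ => ?_
        rw [h3 _ fun h => hg ((mul_mem_cancel_right (show ι k ∈ ι.range from ⟨k, rfl⟩)).1 ((hmem _ _).1 h)), mul_zero]
    · intro f hf
      refine ⟨pull J hJ f, (hV _).2 fun g i => ?_, ?_⟩
      · rw [← mem_sol.1 hf.1 (ι g⁻¹) i, key]
        refine Finset.sum_congr rfl fun j _ => Finset.sum_congr rfl fun k _ => ?_
        simp [J]
      · change push J hJ _ = f
        rw [push_pull, res_eq_self hf.2]
  have h3 : edim (Wr L S) W = ∑' j : Fin n, tau V (1, j) := by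
    have h4 : ∀ j, tau W (J (1, j)) = tau V (1, j) := fun j => by
      rw [← tau_inf_supp h1 ⟨_, rfl⟩, ← h2, tau_img_push]
    refine le_antisymm (osum_le_cover (fun j => J (1, j)) _ fun z _ => ?_)
      (le_osum_inj (fun j => J (1, j)) _ (tau_smul (inv_sol a)) (fun j => (h4 j).ge)
        fun j j' c _ _ h => congrArg Tw.k h)
    have h5 : z.y • J (1, z.k) = z := Tw.ext (by simp [J]) rfl
    exact ⟨z.k, z.y, h5, le_of_eq (((congrArg (tau W) h5).symm.trans
      (tau_smul (inv_sol a) _ _)).trans (h4 _))⟩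
  refine ⟨d, ?_⟩
  rw [h3, tsum_fintype] at hd
  simp only [tau, enorm_sq_ofReal] at hd
  rw [← ENNReal.ofReal_sum_of_nonneg fun _ _ => by positivity] at hd
  have h6 := congrArg ENNReal.toReal hd
  rwa [ENNReal.toReal_ofReal (Finset.sum_nonneg fun _ _ => by positivity),
    ENNReal.toReal_natCast] at h6

theorem sac_quotient (R : Subgroup (FreeGroup S)) [R.Normal] : SAC (FreeGroup S ⧸ ⁅R, R⁆) := by
  have h1 := commutator_le_ker (QuotientGroup.mk' R)
  have h2 := ker_le_commutator (QuotientGroup.mk' R) (QuotientGroup.mk'_surjective R)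
  rw [QuotientGroup.ker_mk'] at h1 h2
  refine (matSAC_of_embedding (QuotientGroup.mk' R)
    (QuotientGroup.lift ⁅R, R⁆ (magnus (QuotientGroup.mk' R)) h1) ?_ ?_).sac
  · rw [injective_iff_map_eq_one]
    intro g hg
    obtain ⟨k, rfl⟩ := QuotientGroup.mk_surjective g
    exact (QuotientGroup.eq_one_iff k).2 (h2 hg)
  · rintro _ ⟨g, rfl⟩
    obtain ⟨k, rfl⟩ := QuotientGroup.mk_surjective g
    exact ⟨k, rfl⟩

end Pool.Agent.P.MP_0f25e6_al.RM
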