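import Pool.Agent.P.MP_0f25e6_al.HN4

/-!
Combinatorics of trees given in oriented form, and the Cayley tree of a free group.
-/

set_option autoImplicit false

open MulAction

noncomputable section

namespace Pool.Agent.P.MP_0f25e6_al.TP

open HN

section Tree

variable {G V E : Type*} [Group G] [MulAction G V] [MulAction G E] (D : TreeData G V E)

/-- The half-tree on the terminal side of an edge. -/
def side (e : E) : Set V := (D.cut e).choose

theorem t_mem_side (e : E) : D.t e ∈ side D e := (D.cut e).choose_spec.1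

theorem o_notMem_side (e : E) : D.o e ∉ side D e := (D.cut e).choose_spec.2.1

theorem side_iff {e e' : E} (h : e' ≠ e) : D.o e' ∈ side D e ↔ D.t e' ∈ side D e :=
  (D.cut e).choose_spec.2.2 e' h

theorem side_smul (g : G) (e : E) (v : V) : g • v ∈ side D (g • e) ↔ v ∈ side D e := by
  refine D.conn {v | g • v ∈ side D (g • e) ↔ v ∈ side D e} (fun e' => ?_) (D.t e) ?_ v
  · simp only [Set.mem_ofPred_eq, ← D.o_smul, ← D.t_smul]
    by_cases h : e' = e
    · subst h
      simp [t_mem_side, o_notMem_side]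
    · rw [side_iff D h, side_iff D (fun h' => h (smul_left_cancel g h'))]
  · simp [← D.t_smul, t_mem_side]

theorem finite_sep (v w : V) : {e | ¬(v ∈ side D e ↔ w ∈ side D e)}.Finite := by
  have key : ∀ e' (a b : V), (∀ e, e' ≠ e → (a ∈ side D e ↔ b ∈ side D e)) →
      {e | ¬(v ∈ side D e ↔ a ∈ side D e)}.Finite →
      {e | ¬(v ∈ side D e ↔ b ∈ side D e)}.Finite := by
    intro e' a b hab h
    refine (h.insert e').subset fun e he => ?_
    by_cases h' : e' = e
    · exact Or.inl h'.symm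
    · exact Or.inr (by rwa [Set.mem_ofPred_eq, hab e h'])
  refine D.conn {w | {e | ¬(v ∈ side D e ↔ w ∈ side D e)}.Finite} (fun e' => ?_) v (by simp) w
  exact ⟨key e' _ _ fun e h => side_iff D h, key e' _ _ fun e h => (side_iff D h).symm⟩

/-- Every finite set of vertices lies in a finite subtree. -/
theorem exists_subtree (v₀ : V) {Ψ : Set V} (hΨ : Ψ.Finite) :
    ∃ U : Set V, U.Finite ∧ Ψ ⊆ U ∧ v₀ ∈ U ∧
      ∀ e, ¬(D.o e ∈ U ∧ D.t e ∈ U) → ∀ u ∈ U, (u ∈ side D e ↔ v₀ ∈ side D e) := by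
  have key : ∀ v, ∃ U : Set V, U.Finite ∧ v ∈ U ∧ v₀ ∈ U ∧
      ∀ e, ¬(D.o e ∈ U ∧ D.t e ∈ U) → ∀ u ∈ U, (u ∈ side D e ↔ v₀ ∈ side D e) := by
    refine D.conn {v | ∃ U : Set V, U.Finite ∧ v ∈ U ∧ v₀ ∈ U ∧
      ∀ e, ¬(D.o e ∈ U ∧ D.t e ∈ U) → ∀ u ∈ U, (u ∈ side D e ↔ v₀ ∈ side D e)} (fun e' => ?_) v₀
      ⟨{v₀}, Set.finite_singleton _, rfl, rfl, fun e _ u hu => by rw [hu]⟩
    constructor
    · rintro ⟨U, h1, h2, h3, h4⟩
      refine ⟨insert (D.t e') U, h1.insert _, Or.inl rfl, Or.inr h3, fun e he u hu => ?_⟩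
      have he' : ¬(D.o e ∈ U ∧ D.t e ∈ U) := fun h => he ⟨Or.inr h.1, Or.inr h.2⟩
      rcases hu with rfl | hu
      · rw [← side_iff D (fun h => he (by subst h; exact ⟨Or.inr h2, Or.inl rfl⟩))]
        exact h4 e he' _ h2
      · exact h4 e he' u hu
    · rintro ⟨U, h1, h2, h3, h4⟩
      refine ⟨insert (D.o e') U, h1.insert _, Or.inl rfl, Or.inr h3, fun e he u hu => ?_⟩
      have he' : ¬(D.o e ∈ U ∧ D.t e ∈ U) := fun h => he ⟨Or.inr h.1, Or.inr h.2⟩
      rcases hu with rfl | hu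
      · rw [side_iff D (fun h => he (by subst h; exact ⟨Or.inl rfl, Or.inr h2⟩))]
        exact h4 e he' _ h2
      · exact h4 e he' u hu
  choose U h1 h2 h3 h4 using key
  refine ⟨⋃ v ∈ insert v₀ Ψ, U v, (hΨ.insert v₀).biUnion fun v _ => h1 v,
    fun v hv => Set.mem_biUnion (Or.inr hv) (h2 v), Set.mem_biUnion (Or.inl rfl) (h2 v₀),
    fun e he u hu => ?_⟩
  obtain ⟨v, hv, hu⟩ := Set.mem_iUnion₂.1 hu
  exact h4 v e (fun h => he ⟨Set.mem_biUnion hv h.1, Set.mem_biUnion hv h.2⟩) u hu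

/-- The complement of a finite subtree is partitioned into half-trees. -/
theorem exists_partition {Ψ : Set V} (hΨ : Ψ.Finite) :
    ∃ π : V → Option E, (π ⁻¹' {none}).Finite ∧ (∀ v ∈ Ψ, π v = none) ∧
      (∀ v e, π v = some e → (π (D.o e) = none ∨ π (D.t e) = none) ∧
        ¬(π (D.o e) = none ∧ π (D.t e) = none)) ∧
      ∀ e, π ⁻¹' {some e} = ∅ ∨ π ⁻¹' {some e} = side D e ∨ π ⁻¹' {some e} = (side D e)ᶜ := by
  classical
  obtain ⟨v₀⟩ := D.ne
  obtain ⟨U, h1, h2, h3, h4⟩ := exists_subtree D v₀ hΨ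
  let bd : E → Prop := fun e => (D.o e ∈ U ∨ D.t e ∈ U) ∧ ¬(D.o e ∈ U ∧ D.t e ∈ U)
  let far : E → Set V := fun e => {v | ¬(v ∈ side D e ↔ v₀ ∈ side D e)}
  have hfar : ∀ {e e'}, e' ≠ e → (D.o e' ∈ far e ↔ D.t e' ∈ far e) := fun h => by
    simp only [far, Set.mem_ofPred_eq, side_iff D h]
  have hU : ∀ e, bd e → ∀ u ∈ U, u ∉ far e := fun e he u hu h => h (h4 e he.2 u hu)
  have hend : ∀ {e e'}, bd e → bd e' → e' ≠ e → D.o e' ∉ far e ∧ D.t e' ∉ far e := by
    intro e e' he he' h
    rcases he'.1 with h' | h'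
    · exact ⟨hU e he _ h', fun h'' => hU e he _ h' ((hfar h).2 h'')⟩
    · exact ⟨fun h'' => hU e he _ h' ((hfar h).1 h''), hU e he _ h'⟩
  have hdis : ∀ {e e' v}, bd e → bd e' → v ∈ far e → v ∈ far e' → e = e' := by
    intro e e' v he he' hv hv'
    by_contra h
    refine hU e he v₀ h3 (D.conn (far e ∩ far e') (fun e'' => ?_) v ⟨hv, hv'⟩ v₀).1
    by_cases h1 : e'' = e
    · subst h1
      have := hend he' he h
      simp [this.1, this.2]
    by_cases h2 : e'' = e'
    · subst h2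
      have := hend he he' h1
      simp [this.1, this.2]
    rw [Set.mem_inter_iff, Set.mem_inter_iff, hfar h1, hfar h2]
  have hcov : ∀ v, v ∈ U ∨ ∃ e, bd e ∧ v ∈ far e := by
    refine D.conn {v | v ∈ U ∨ ∃ e, bd e ∧ v ∈ far e} (fun e' => ?_) v₀ (Or.inl h3)
    have ho := o_notMem_side D e'
    have ht := t_mem_side D e'
    by_cases a : D.o e' ∈ U <;> by_cases b : D.t e' ∈ U
    · simp [a, b]
    · have hb : bd e' := ⟨Or.inl a, fun h => b h.2⟩
      have := h4 e' hb.2 _ a
      exact ⟨fun _ => Or.inr ⟨e', hb, fun h => by tauto⟩, fun _ => Or.inl a⟩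
    · have hb : bd e' := ⟨Or.inr b, fun h => a h.1⟩
      have := h4 e' hb.2 _ b
      exact ⟨fun _ => Or.inl b, fun _ => Or.inr ⟨e', hb, fun h => by tauto⟩⟩
    · have hne : ∀ e, bd e → e' ≠ e := by
        rintro e he rfl
        exact he.1.elim a b
      simp only [Set.mem_ofPred_eq, a, b, false_or]
      exact exists_congr fun e => and_congr_right fun he => hfar (hne e he)
  let π : V → Option E := fun v => if h : ∃ e, bd e ∧ v ∈ far e then some h.choose else none
  have hnone : ∀ v, π v = none ↔ v ∈ U := by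
    intro v
    by_cases h : ∃ e, bd e ∧ v ∈ far e
    · simp only [π, dif_pos h, reduceCtorEq, false_iff]
      exact fun hv => hU _ h.choose_spec.1 v hv h.choose_spec.2
    · simp only [π, dif_neg h, true_iff]
      exact (hcov v).resolve_right h
  have hsome : ∀ v e, π v = some e ↔ bd e ∧ v ∈ far e := by
    intro v e
    by_cases h : ∃ e, bd e ∧ v ∈ far e
    · simp only [π, dif_pos h, Option.some.injEq]
      exact ⟨fun h' => h' ▸ h.choose_spec,
        fun h' => hdis h.choose_spec.1 h'.1 h.choose_spec.2 h'.2⟩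
    · simp only [π, dif_neg h, reduceCtorEq, false_iff]
      exact fun h' => h ⟨e, h'⟩
  refine ⟨π, h1.subset fun v hv => (hnone v).1 hv, fun v hv => (hnone v).2 (h2 hv),
    fun v e h => ?_, fun e => ?_⟩
  · rw [hnone, hnone]
    exact ((hsome v e).1 h).1
  · by_cases hb : bd e
    · by_cases h0 : v₀ ∈ side D e
      · refine Or.inr (Or.inr (Set.ext fun v => ?_))
        simp [hsome, hb, far, h0]
      · refine Or.inr (Or.inl (Set.ext fun v => ?_))
        simp [hsome, hb, far, h0]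
    · refine Or.inl (Set.ext fun v => ?_)
      simp [hsome, hb]

end Tree

/-- A free action admits an equivariant map to any nonempty set with an action. -/
theorem exists_position {G Z V : Type*} [Group G] [MulAction G Z] [MulAction G V] (hZ : Free G Z)
    (v₀ : V) : ∃ p : Z → V, ∀ (g : G) z, p (g • z) = g • p z := by
  let e := Equiv.ofBijective _ (orbit_bij hZ)
  refine ⟨fun z => (e.symm z).2 • v₀, fun g z => ?_⟩
  have : e.symm (g • z) = ((e.symm z).1, g * (e.symm z).2) := by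
    rw [Equiv.symm_apply_eq]
    conv_lhs => rw [← e.apply_symm_apply z]
    exact (mul_smul _ _ _).symm
  simp only [this, mul_smul]

theorem free_induction {A I : Type*} [Group A] (b : FreeGroupBasis I A) {P : A → Prop} (h1 : P 1)
    (hs : ∀ s, P (b s)) (hi : ∀ a, P a → P a⁻¹) (hm : ∀ a b, P a → P b → P (a * b))
    (a : A) : P a := by
  obtain ⟨x, rfl⟩ := b.repr.symm.surjective a
  induction x using FreeGroup.induction_on with
  | C1 => rwa [map_one]
  | of s => exact hs s
  | inv_of s ih =>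
    rw [map_inv]
    exact hi _ ih
  | mul x y hx hy =>
    rw [map_mul]
    exact hm _ _ hx hy

/-- The Cayley tree of a free group. -/
def cayley {A I : Type*} [Group A] (b : FreeGroupBasis I A) : TreeData A A (Tw A I) where
  o e := e.y
  t e := e.y * b e.k
  o_smul _ _ := rfl
  t_smul _ _ := mul_assoc _ _ _
  ne := ⟨1⟩
  conn S hS v hv w := by
    have key : ∀ a : A, ∀ g, g ∈ S ↔ g * a ∈ S :=
      free_induction b (by simp) (fun s g => hS ⟨g, s⟩) (fun a ih g => by rw [ih (g * _)]; simp)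
        fun x y hx hy g => by rw [hx g, hy, mul_assoc]
    have := (key (v⁻¹ * w) v).1 hv
    rwa [mul_inv_cancel_left] at this
  cut e := by
    classical
    let σ : I → Equiv.Perm (A × Bool) := fun s =>
      { toFun := fun p => (b s * p.1, xor p.2 (decide ((⟨(b s * p.1)⁻¹, s⟩ : Tw A I) = e)))
        invFun := fun p => ((b s)⁻¹ * p.1, xor p.2 (decide ((⟨p.1⁻¹, s⟩ : Tw A I) = e)))
        left_inv := fun p => by simp
        right_inv := fun p => by simp }
    let φ : A →* Equiv.Perm (A × Bool) := b.lift σ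
    have hφ : ∀ s, φ (b s) = σ s := fun s => by simp [φ]
    have h1 : ∀ (a : A) (p : A × Bool), (φ a p).1 = a * p.1 := by
      refine free_induction b (by simp) (fun s p => by rw [hφ]; rfl) (fun a ih p => ?_)
        fun x y hx hy p => by rw [map_mul, Equiv.Perm.mul_apply, hx, hy, mul_assoc]
      have := ih (φ a⁻¹ p)
      rw [← Equiv.Perm.mul_apply, ← map_mul, mul_inv_cancel, map_one,
        Equiv.Perm.one_apply] at this
      rw [this, inv_mul_cancel_left]
    let c : A → Bool := fun g => (φ g⁻¹ (1, false)).2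
    have hc : ∀ e' : Tw A I, c e'.y = xor (c (e'.y * b e'.k)) (decide (e' = e)) := by
      intro e'
      have h2 : e'.y⁻¹ = b e'.k * (e'.y * b e'.k)⁻¹ := by group
      simp only [c]
      conv_lhs => rw [h2, map_mul, Equiv.Perm.mul_apply, hφ]
      change xor _ (decide ((⟨(b e'.k * (φ _ _).1)⁻¹, e'.k⟩ : Tw A I) = e)) = _
      rw [h1, mul_one, ← h2, inv_inv]
    refine ⟨{g | c g = c (e.y * b e.k)}, rfl, ?_, fun e' h => ?_⟩
    · simp [hc e]
    · simp [hc e', h]

end Pool.Agent.P.MP_0f25e6_al.TP
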