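import Pool.Agent.P.MP_0f25e6_al.TP1

/-!
Defect spaces of a closed subspace along a cut, and finite trace estimates.
-/

set_option autoImplicit false

open scoped InnerProductSpace ENNReal Topology
open Filter MulAction

noncomputable section

namespace Pool.Agent.P.MP_0f25e6_al.TP

open HN

section Basic

variable {Y Z : Type*}

theorem enorm_apply_sq_le (D : Submodule ℂ (L2 Z)) {η : L2 Z} (hη : η ∈ cl D) (z : Z) :
    ‖η z‖ₑ ^ 2 ≤ tau D z * ‖η‖ₑ ^ 2 := by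
  have h1 : η z = ⟪proj D (delta z), η⟫_ℂ := by
    rw [inner_proj_left, proj_eq_self hη, inner_delta_left]
  rw [tau, ← mul_pow, h1]
  gcongr
  rw [← ofReal_norm, ← ofReal_norm, ← ofReal_norm, ← ENNReal.ofReal_mul (norm_nonneg _)]
  exact ENNReal.ofReal_le_ofReal (norm_inner_le_norm _ _)

theorem one_le_tsum_tau {D : Submodule ℂ (L2 Z)} (hD : D ≠ ⊥) : 1 ≤ ∑' z, tau D z := by
  obtain ⟨η, hη, h0⟩ := Submodule.exists_mem_ne_zero_of_ne_bot hD
  have h1 : ‖η‖ₑ ^ 2 ≠ 0 := by simpa using h0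
  have h2 : ‖η‖ₑ ^ 2 ≠ ⊤ := by simp
  rw [← ENNReal.mul_le_mul_iff_left h1 h2, one_mul, ← ENNReal.tsum_mul_right]
  conv_lhs => rw [enorm_sq_eq]
  exact ENNReal.tsum_le_tsum fun z => enorm_apply_sq_le D (le_cl D hη) z

theorem exists_tail {g : Z → ℝ≥0∞} (hg : ∑' z, g z ≠ ⊤) {ε : ℝ≥0∞} (hε : 0 < ε) :
    ∃ Ψ : Set Z, Ψ.Finite ∧ ∑' z, Ψᶜ.indicator g z ≤ ε := by
  obtain ⟨s, hs⟩ := ((ENNReal.tendsto_tsum_compl_atTop_zero hg).eventually
    (ge_mem_nhds hε)).exists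
  exact ⟨s, s.finite_toSet, by rw [← tsum_subtype]; exact hs⟩

theorem enorm_res_sq (S : Set Z) (f : L2 Z) :
    ‖res S f‖ₑ ^ 2 = ∑' z, S.indicator (fun z => ‖f z‖ₑ ^ 2) z := by
  rw [enorm_sq_eq]
  refine tsum_congr fun z => ?_
  by_cases h : z ∈ S
  · rw [res_apply_of_mem _ h, Set.indicator_of_mem h]
  · simp [res_apply_of_notMem _ h, Set.indicator_of_notMem h]

theorem exists_tail_res (f : L2 Z) {ε : ℝ≥0∞} (hε : 0 < ε) :
    ∃ Ψ : Set Z, Ψ.Finite ∧ ∀ S : Set Z, (∀ z ∈ S, z ∉ Ψ) → ‖res S f‖ₑ ^ 2 ≤ ε := by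
  obtain ⟨Ψ, h1, h2⟩ := exists_tail (g := fun z => ‖f z‖ₑ ^ 2)
    (by rw [← enorm_sq_eq]; simp) hε
  refine ⟨Ψ, h1, fun S hS => le_trans ?_ h2⟩
  rw [enorm_res_sq]
  exact ENNReal.tsum_le_tsum fun z => Set.indicator_le_indicator_of_subset hS (fun _ => by simp) z

theorem exists_finite_control {D : Submodule ℂ (L2 Z)} (h : ∑' z, tau D z ≠ ⊤) :
    ∃ Φ : Set Z, Φ.Finite ∧ ∀ η ∈ cl D, ‖η‖ₑ ^ 2 ≤ 2 * ‖res Φ η‖ₑ ^ 2 := by
  obtain ⟨Φ, h1, h2⟩ := exists_tail h (ε := 2⁻¹) (by simp)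
  refine ⟨Φ, h1, fun η hη => ?_⟩
  have h3 : ‖η‖ₑ ^ 2 = ‖res Φ η‖ₑ ^ 2 + ‖res Φᶜ η‖ₑ ^ 2 := by
    rw [← enorm_add_sq (inner_eq_zero_of_supp (res_mem_supp Φ η) (res_mem_supp Φᶜ η)
      fun z hz h => h hz), res_add_res_compl]
  have h4 : ‖res Φᶜ η‖ₑ ^ 2 ≤ 2⁻¹ * ‖η‖ₑ ^ 2 := by
    refine le_trans ?_ (mul_le_mul_left h2 _)
    rw [enorm_res_sq, ← ENNReal.tsum_mul_right]
    refine ENNReal.tsum_le_tsum fun z => ?_
    by_cases hz : z ∈ Φᶜ
    · rw [Set.indicator_of_mem hz, Set.indicator_of_mem hz]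
      exact enorm_apply_sq_le D hη z
    · simp [Set.indicator_of_notMem hz]
  have h5 : ‖η‖ₑ ^ 2 ≠ ⊤ := by simp
  have h6 : ‖η‖ₑ ^ 2 + ‖η‖ₑ ^ 2 ≤ 2 * ‖res Φ η‖ₑ ^ 2 + ‖η‖ₑ ^ 2 := by
    calc ‖η‖ₑ ^ 2 + ‖η‖ₑ ^ 2 = 2 * (‖res Φ η‖ₑ ^ 2 + ‖res Φᶜ η‖ₑ ^ 2) := by rw [← h3, two_mul]
      _ ≤ 2 * (‖res Φ η‖ₑ ^ 2 + 2⁻¹ * ‖η‖ₑ ^ 2) := by gcongr
      _ = _ := by rw [mul_add, ← mul_assoc, ENNReal.mul_inv_cancel (by simp) (by simp), one_mul]
  exact (ENNReal.add_le_add_iff_right h5).1 h6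

theorem cls_perp {I : Type*} (a : I → L2 Z) : Cls (perp a) := by
  have : (perp a : Set (L2 Z)) = ⋂ i, {f | ⟪a i, f⟫_ℂ = 0} := by
    ext f
    simp only [SetLike.mem_coe, mem_perp, Set.mem_iInter, Set.mem_ofPred_eq]
  rw [Cls, this]
  exact isClosed_iInter fun i =>
    isClosed_eq (continuous_const.inner continuous_id) continuous_const

/-- The smallest subspace cut out by finitely supported equations that contains `W`. -/
def cutc (W : Submodule ℂ (L2 Z)) : Submodule ℂ (L2 Z) :=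
  perp fun a : {a : L2 Z // FinS a ∧ a ∈ Wᗮ} => a.1

theorem cut_cutc (W : Submodule ℂ (L2 Z)) : Cut (cutc W) := cut_perp fun a => a.2.1

theorem le_cutc (W : Submodule ℂ (L2 Z)) : W ≤ cutc W :=
  fun _ hf => mem_perp.2 fun a => Submodule.inner_left_of_mem_orthogonal hf a.2.2

theorem exists_match {W : Submodule ℂ (L2 Z)} {y : L2 Z} (hy : y ∈ cutc W) {Ψ : Set Z}
    (hΨ : Ψ.Finite) : ∃ y' ∈ W, ∀ z ∈ Ψ, y' z = y z := by
  have hfin : ∀ f : L2 Z, FinS (res Ψ f) := fun f =>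
    hΨ.subset fun z hz => by_contra fun h => hz (res_apply_of_notMem f h)
  have : FiniteDimensional ℂ (Submodule.span ℂ (delta '' Ψ)) :=
    FiniteDimensional.span_of_finite ℂ (hΨ.image _)
  have : FiniteDimensional ℂ (img (res Ψ) W) := by
    refine Submodule.finiteDimensional_of_le (S₂ := Submodule.span ℂ (delta '' Ψ)) ?_
    rintro _ ⟨f, -, rfl⟩
    change res Ψ f ∈ _
    rw [(hfin f).eq_sum]
    refine Submodule.sum_mem _ fun z hz => Submodule.smul_mem _ _ (Submodule.subset_span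
      ⟨z, by_contra fun h => ?_, rfl⟩)
    exact (Set.Finite.mem_toFinset _).1 hz (res_apply_of_notMem f h)
  have h1 : res Ψ y ∈ cl (img (res Ψ) W) := by
    refine mem_cl_of_orth fun g hg => ?_
    rw [← inner_res_left]
    refine mem_perp.1 hy ⟨res Ψ g, hfin g, fun u hu => ?_⟩
    rw [← inner_res_left]
    exact hg _ ⟨u, hu, rfl⟩
  rw [cl_eq (Submodule.closed_of_finiteDimensional _)] at h1
  obtain ⟨y', h2, h3⟩ := h1
  refine ⟨y', h2, fun z hz => ?_⟩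
  have h4 : res Ψ y' z = res Ψ y z := congrArg (fun f : L2 Z => f z) h3
  rwa [res_apply_of_mem _ hz, res_apply_of_mem _ hz] at h4

/-- The vectors of `F` whose restriction to `S` is again in `F`. -/
def half (S : Set Z) (F : Submodule ℂ (L2 Z)) : Submodule ℂ (L2 Z) := F ⊓ pre (res S) F

/-- The defect space of `F` along the cut `S`. -/
def dfc (S : Set Z) (F : Submodule ℂ (L2 Z)) : Submodule ℂ (L2 Z) := F ⊓ (half S F)ᗮ

theorem cls_half (S : Set Z) {F : Submodule ℂ (L2 Z)} (hF : Cls F) : Cls (half S F) :=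
  hF.inf (hF.pre _)

theorem cls_dfc (S : Set Z) {F : Submodule ℂ (L2 Z)} (hF : Cls F) : Cls (dfc S F) :=
  hF.inf (cls_orth _)

theorem sub_proj_dfc (S : Set Z) {F : Submodule ℂ (L2 Z)} (hF : Cls F) {f : L2 Z} (hf : f ∈ F) :
    f - proj (dfc S F) f ∈ half S F := by
  have h := proj_split (K := half S F) hF inf_le_left f
  rw [proj_eq_self (le_cl F hf)] at h
  rw [dfc, sub_eq_of_eq_add h]
  exact (cl_eq (cls_half S hF)).le (proj_mem _ f)

theorem proj_dfc_mem (S : Set Z) {F : Submodule ℂ (L2 Z)} (hF : Cls F) (f : L2 Z) :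
    proj (dfc S F) f ∈ dfc S F := (cl_eq (cls_dfc S hF)).le (proj_mem _ f)

end Basic

section Act

variable {H Z : Type*} [Group H] [MulAction H Z]

theorem act_mem_half {S S' : Set Z} {h : H} (hS : ∀ z, h • z ∈ S' ↔ z ∈ S)
    {F : Submodule ℂ (L2 Z)} (hF : Inv H F) {f : L2 Z} (hf : f ∈ half S F) :
    act h f ∈ half S' F := by
  refine ⟨hF h f hf.1, ?_⟩
  have : S' = {z | h⁻¹ • z ∈ S} := Set.ext fun z => by
    rw [Set.mem_ofPred_eq, ← hS, smul_inv_smul]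
  change res S' (act h f) ∈ F
  rw [this, ← act_res]
  exact hF h _ hf.2

theorem act_mem_dfc {S S' : Set Z} {h : H} (hS : ∀ z, h • z ∈ S' ↔ z ∈ S)
    {F : Submodule ℂ (L2 Z)} (hF : Inv H F) {f : L2 Z} (hf : f ∈ dfc S F) :
    act h f ∈ dfc S' F := by
  refine ⟨hF h f hf.1, fun u hu => ?_⟩
  rw [← act_act_inv h u, inner_act_left, act_inv_act]
  exact hf.2 _ (act_mem_half (fun z => by rw [← hS, smul_inv_smul]) hF hu)

theorem act_proj_dfc {S S' : Set Z} {h : H} (hS : ∀ z, h • z ∈ S' ↔ z ∈ S)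
    {F : Submodule ℂ (L2 Z)} (hc : Cls F) (hF : Inv H F) (f : L2 Z) :
    proj (dfc S' F) (act h f) = act h (proj (dfc S F) f) := by
  refine proj_eq (le_cl _ (act_mem_dfc hS hF (proj_dfc_mem S hc f))) fun u hu => ?_
  rw [← map_sub, ← act_act_inv h u, inner_act_left, act_inv_act]
  exact sub_proj_mem _ f _ (act_mem_dfc (fun z => by rw [← hS, smul_inv_smul]) hF hu)

theorem inv_cutc {W : Submodule ℂ (L2 Z)} (hW : Inv H W) : Inv H (cutc W) := by
  intro h f hf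
  refine mem_perp.2 fun a => ?_
  rw [← act_act_inv h a.1, inner_act_left, act_inv_act]
  exact mem_perp.1 hf ⟨act h⁻¹ a.1, finCols_act _ _ a.2.1, hW.orth _ _ a.2.2⟩

theorem tsum_le_osum (hZ : Free H Z) {f : Z → ℝ≥0∞} (hf : ∀ (h : H) z, f (h • z) = f z)
    {Y : Type*} {j : Y → Z} (hj : ∀ (h : H) y y', h • j y = j y' → y = y') :
    ∑' y, f (j y) ≤ osum H f := by
  have hinj : Function.Injective j := fun y y' h => hj 1 y y' (by rw [one_smul, h])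
  have h1 : ∑' y, f (j y) = ∑' z, (Set.range j).indicator f z := by
    rw [← tsum_subtype, tsum_range f hinj]
  rw [h1, tsum_unfold hZ]
  refine osum_mono fun z => ?_
  by_cases h : ∃ h : H, h • z ∈ Set.range j
  · obtain ⟨h, y, hy⟩ := h
    rw [tsum_eq_single h, Set.indicator_of_mem (show h • z ∈ Set.range j from ⟨y, hy⟩), hf]
    intro h' hne
    refine Set.indicator_of_notMem ?_ _
    rintro ⟨y', hy'⟩
    have h2 : (h' * h⁻¹) • j y = j y' := by rw [hy, hy', mul_smul, inv_smul_smul]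
    have h3 := hZ _ _ (h2.trans (congrArg j (hj _ _ _ h2).symm))
    exact hne (mul_inv_eq_one.1 h3)
  · push Not at h
    simp [Set.indicator_of_notMem (h _)]

end Act

end Pool.Agent.P.MP_0f25e6_al.TP
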