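import Pool.Agent.P.MP_0f25e6_al.TP2

/-!
A closed invariant subspace with finite total defect along the edges of a tree is rational.
-/

set_option autoImplicit false

open scoped InnerProductSpace ENNReal Topology
open Filter MulAction

noncomputable section

namespace Pool.Agent.P.MP_0f25e6_al.TP

open HN

universe u

theorem mem_of_approx {Z : Type*} {F : Submodule ℂ (L2 Z)} (hc : Cls F) {f : L2 Z}
    (h : ∀ a : ℝ≥0∞, 0 < a → ∃ g ∈ F, ‖f - g‖ₑ ≤ a + a) : f ∈ F := by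
  refine hc.closure_subset (Metric.mem_closure_iff.2 fun ε hε => ?_)
  obtain ⟨g, hg, h1⟩ := h (ENNReal.ofReal (ε / 3)) (by simpa using hε)
  refine ⟨g, hg, ?_⟩
  rw [← ENNReal.ofReal_add (by positivity) (by positivity), ← ofReal_norm,
    ENNReal.ofReal_le_ofReal_iff (by positivity)] at h1
  rw [dist_eq_norm]
  linarith

variable {H : Type u} {Z E : Type*} [Group H] [MulAction H Z] [MulAction H E]

theorem enorm_act (a : H) (f : L2 Z) : ‖act a f‖ₑ = ‖f‖ₑ := by
  rw [← ofReal_norm, norm_act, ofReal_norm]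

theorem exists_states (σ : E → Set Z) (hσ : ∀ (h : H) e z, h • z ∈ σ (h • e) ↔ z ∈ σ e)
    {F : Submodule ℂ (L2 Z)} (hi : Inv H F) (htr : ∀ e, ∑' z, tau (dfc (σ e) F) z ≠ ⊤)
    (hB : Cofin H {e | dfc (σ e) F ≠ ⊥}) :
    ∃ Λ : Set (E × Z), (∀ (h : H), ∀ p ∈ Λ, h • p ∈ Λ) ∧ Cofin H Λ ∧
      ∀ e, ∃ Φ : Set Z, Φ.Finite ∧ (∀ z ∈ Φ, (e, z) ∈ Λ) ∧
        ∀ η ∈ dfc (σ e) F, ‖η‖ₑ ^ 2 ≤ 2 * ‖res Φ η‖ₑ ^ 2 := by
  choose Φ hΦ1 hΦ2 using fun e => exists_finite_control (htr e)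
  obtain ⟨E₀, hE₀, hE⟩ := hB
  refine ⟨{p | ∃ h : H, h • p.1 ∈ E₀ ∧ h • p.2 ∈ Φ (h • p.1)}, ?_,
    ⟨⋃ e ∈ E₀, {e} ×ˢ Φ e, hE₀.biUnion fun e _ => (Set.finite_singleton e).prod (hΦ1 e), ?_⟩,
    fun e => ?_⟩
  · rintro h p ⟨h', hp⟩
    exact ⟨h' * h⁻¹, by simpa [mul_smul] using hp⟩
  · rintro p ⟨h, h1, h2⟩
    exact ⟨h, Set.mem_biUnion h1 ⟨rfl, h2⟩⟩
  · by_cases he : dfc (σ e) F = ⊥
    · refine ⟨∅, Set.finite_empty, fun _ h => h.elim, fun η hη => ?_⟩
      rw [he, Submodule.mem_bot] at hη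
      simp [hη]
    · obtain ⟨h, hh⟩ := hE e he
      refine ⟨(fun z => h • z) ⁻¹' Φ (h • e), (hΦ1 _).preimage (MulAction.injective h).injOn,
        fun z hz => ⟨h, hh, hz⟩, fun η hη => ?_⟩
      have h1 := hΦ2 (h • e) _ (le_cl _ (act_mem_dfc (hσ h e) hi hη))
      rw [← enorm_act h (res _ η), act_res, ← enorm_act h η]
      simpa using h1

theorem exists_state_vector (hZ : Free H Z) (σ : E → Set Z)
    (hσ : ∀ (h : H) e z, h • z ∈ σ (h • e) ↔ z ∈ σ e) {F : Submodule ℂ (L2 Z)} (hc : Cls F)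
    (hi : Inv H F) {Λ : Set (E × Z)} (hΛ : ∀ (h : H), ∀ p ∈ Λ, h • p ∈ Λ) (hΛc : Cofin H Λ)
    (w : Z) : ∃ η : L2 (E × Z), η ∈ supp Λ ∧
      ∀ p ∈ Λ, η p = proj (dfc (σ p.1) F) (delta w) p.2 := by
  have hEZ : Free H (E × Z) := fun h p hp => hZ h p.2 (congrArg Prod.snd hp)
  let g : E × Z → ℂ := Λ.indicator fun p => proj (dfc (σ p.1) F) (delta w) p.2
  have h1 : ∑' p, ‖g p‖ₑ ^ 2 ≠ ⊤ := by
    rw [tsum_unfold hEZ]
    refine osum_ne_top hΛc (fun p => ?_) fun p hp => ?_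
    · refine le_trans ?_ (tau_le_one (dfc (σ p.1) F) p.2)
      rw [tau, enorm_sq_eq]
      refine le_trans (ENNReal.tsum_le_tsum fun h => ?_) (ENNReal.tsum_comp_le_tsum_of_injective
        (f := fun h : H => h⁻¹ • w) (fun a b hab => ?_) _)
      · have h2 : proj (dfc (σ (h • p.1)) F) (delta w) (h • p.2) =
            starRingEnd ℂ (proj (dfc (σ p.1) F) (delta p.2) (h⁻¹ • w)) := by
          rw [← inner_delta_left, ← inner_proj_left, inner_delta_right, ← act_delta,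
            act_proj_dfc (hσ h p.1) hc hi, act_apply]
        by_cases hp : h • p ∈ Λ
        · simp only [g, Set.indicator_of_mem hp, Prod.smul_fst, Prod.smul_snd, h2]
          rw [← ofReal_norm, RCLike.norm_conj, ofReal_norm]
        · simp [g, Set.indicator_of_notMem hp]
      · have := hZ (b * a⁻¹) w (by rw [mul_smul, show a⁻¹ • w = b⁻¹ • w from hab, smul_inv_smul])
        exact (mul_inv_eq_one.1 this).symm
    · have : ∀ h : H, h • p ∉ Λ := fun h hh => hp (by simpa using hΛ h⁻¹ _ hh)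
      simp [g, Set.indicator_of_notMem (this _)]
  have h2 : Memℓp g 2 := by
    rw [memℓp_two_iff]
    convert ENNReal.summable_toReal h1 using 2 with p
    simp
  exact ⟨⟨g, h2⟩,
    fun p hp => Set.indicator_of_notMem hp fun p => proj (dfc (σ p.1) F) (delta w) p.2,
    fun p hp => Set.indicator_of_mem hp fun p => proj (dfc (σ p.1) F) (delta w) p.2⟩

theorem rat_of_defect (hZ : Free H Z) {S : Set Z} (hS : ∀ (h : H), ∀ z ∈ S, h • z ∈ S)
    (hSc : Cofin H S) (σ : E → Set Z) (hσ : ∀ (h : H) e z, h • z ∈ σ (h • e) ↔ z ∈ σ e)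
    {F : Submodule ℂ (L2 Z)} (hc : Cls F) (hi : Inv H F) (hFS : F ≤ supp S)
    (htr : ∀ e, ∑' z, tau (dfc (σ e) F) z ≠ ⊤) (hB : Cofin H {e | dfc (σ e) F ≠ ⊥})
    (hex : ∀ (Ψ₁ : Set Z) (Ψ₂ : Set E), Ψ₁.Finite → Ψ₂.Finite → ∃ π : Z → Option E,
      (S ∩ π ⁻¹' {none}).Finite ∧ (∀ z ∈ Ψ₁, π z = none) ∧ (∀ z e, π z = some e → e ∉ Ψ₂) ∧
      {e | dfc (σ e) F ≠ ⊥ ∧ ∃ z, π z = some e}.Finite ∧
      ∀ e, π ⁻¹' {some e} = ∅ ∨ π ⁻¹' {some e} = σ e ∨ π ⁻¹' {some e} = (σ e)ᶜ) : Rat H F := by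
  classical
  obtain ⟨Λ, hΛ, hΛc, hΦ⟩ := exists_states σ hσ hi htr hB
  choose Φ hΦ1 hΦ2 hΦ3 using hΦ
  have hEZ : Free H (E × Z) := fun h p hp => hZ h p.2 (congrArg Prod.snd hp)
  have hZ₂ := free_sum hZ hEZ
  let T : L2 (Z ⊕ E × Z) →L[ℂ] L2 Z := pull Sum.inl Sum.inl_injective
  have hT : Eqv H T := eqv_pull_inl
  let Q : Submodule ℂ (L2 (Z ⊕ E × Z)) := perp fun p : Λ =>
    delta (Sum.inr p.1) - push Sum.inl Sum.inl_injective (proj (dfc (σ p.1.1) F) (delta p.1.2))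
  have hQ : ∀ y, y ∈ Q ↔ ∀ p ∈ Λ, y (Sum.inr p) = proj (dfc (σ p.1) F) (T y) p.2 := by
    intro y
    simp only [Q, mem_perp, Subtype.forall, inner_sub_left, inner_delta_left, inner_push_left,
      inner_proj_left, sub_eq_zero]
    rfl
  have hQi : Inv H Q := by
    intro h y hy
    rw [hQ] at hy ⊢
    intro p hp
    have h1 := hy _ (hΛ h⁻¹ p hp)
    have h2 := act_proj_dfc (hσ h (h⁻¹ • p.1)) hc hi (T y)
    rw [smul_inv_smul] at h2
    rw [hT, h2]
    exact h1
  let S₂ : Set (Z ⊕ E × Z) := Sum.inl '' S ∪ Sum.inr '' Λ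
  have hS₂ : ∀ (h : H), ∀ y ∈ S₂, h • y ∈ S₂ := by
    rintro h _ (⟨z, hz, rfl⟩ | ⟨p, hp, rfl⟩)
    · exact Or.inl ⟨_, hS h z hz, rfl⟩
    · exact Or.inr ⟨_, hΛ h p hp, rfl⟩
  have hS₂c : Cofin H S₂ := by
    obtain ⟨A, hA, hA'⟩ := hSc
    obtain ⟨B, hB, hB'⟩ := hΛc
    refine ⟨Sum.inl '' A ∪ Sum.inr '' B, (hA.image _).union (hB.image _), ?_⟩
    rintro _ (⟨z, hz, rfl⟩ | ⟨p, hp, rfl⟩)
    · obtain ⟨h, hh⟩ := hA' z hz
      exact ⟨h, Or.inl ⟨_, hh, rfl⟩⟩
    · obtain ⟨h, hh⟩ := hB' p hp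
      exact ⟨h, Or.inr ⟨_, hh, rfl⟩⟩
  have hR := ((rat_supp hZ₂ hS₂ hS₂c).inf_cut hZ₂ (cut_cutc (Q ⊓ pre T F))
    (inv_cutc (hQi.inf (hi.pre hT)))).img hT (finCols_pull _ _)
  convert hR using 1
  apply le_antisymm
  · have h1 : supp S ≤ cl (img T (supp S₂ ⊓ Q)) := by
      intro f hf
      refine mem_of_hasSum (cls_cl _) (hasSum_delta f) fun w => ?_
      by_cases hw : w ∈ S
      · obtain ⟨η, h2, h3⟩ := exists_state_vector hZ σ hσ hc hi hΛ hΛc w
        have h4 : T (push Sum.inl Sum.inl_injective (delta w) +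
            push Sum.inr Sum.inr_injective η) = delta w := by
          rw [map_add, pull_push, pull_inl_push_inr, add_zero]
        refine Submodule.smul_mem _ _ (le_cl _ ⟨_, ⟨?_, ?_⟩, h4⟩)
        · rintro (z | p) hz
          · rw [← pull_apply Sum.inl Sum.inl_injective, h4]
            exact delta_ne fun h => hz (Or.inl ⟨w, hw, by rw [h]⟩)
          · rw [← pull_apply Sum.inr Sum.inr_injective, map_add, pull_push, pull_inr_push_inl,
              zero_add]
            exact h2 p fun h => hz (Or.inr ⟨p, h, rfl⟩)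
        · refine (hQ _).2 fun p hp => ?_
          rw [h4, ← pull_apply Sum.inr Sum.inr_injective, map_add, pull_push, pull_inr_push_inl,
            zero_add, h3 p hp]
      · rw [hf w hw, zero_smul]
        exact Submodule.zero_mem _
    have h2 := cl_img_inf hZ₂ hZ hT ((cls_supp S₂).inf (cls_perp _)) ((inv_supp hS₂).inf hQi)
      (edim_ne_top_of_cofin hS₂c inf_le_left) hc hi
    refine le_trans (le_inf (hFS.trans h1) le_rfl) (h2.ge.trans (cl_mono (Submodule.map_mono ?_)))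
    exact fun y hy => ⟨hy.1.1, le_cutc _ ⟨hy.1.2, hy.2⟩⟩
  · refine cl_le ?_ hc
    rintro _ ⟨y, ⟨hy1, hy2⟩, rfl⟩
    refine mem_of_approx hc fun a ha => ?_
    let y₂ := pull Sum.inr Sum.inr_injective y
    obtain ⟨Ψ₁, a1, a2⟩ := exists_tail_res (T y) (ENNReal.pow_pos ha 2)
    obtain ⟨Ψ₂, b1, b2⟩ := exists_tail_res y₂ (ENNReal.half_pos (ENNReal.pow_pos ha 2).ne')
    obtain ⟨π, c1, c2, c3, c4, c5⟩ := hex Ψ₁ (Prod.fst '' Ψ₂) a1 (b1.image _)
    obtain ⟨y', ⟨d1, d2⟩, d3⟩ := exists_match hy2 ((c1.image Sum.inl).union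
      ((c4.biUnion fun e _ => (Set.finite_singleton e).prod (hΦ1 e)).image Sum.inr))
    replace d2 : T y' ∈ F := d2
    let η : E → L2 Z := fun e => proj (dfc (σ e) F) (T y')
    let k : L2 Z := ∑ e ∈ c4.toFinset, res (π ⁻¹' {some e}) (η e)
    have hk : ∀ z, k z = ∑ e ∈ c4.toFinset, res (π ⁻¹' {some e}) (η e) z := fun z => by
      simp only [k, lp.coeFn_sum, Finset.sum_apply]
    have hk0 : ∀ z, π z = none → k z = 0 := fun z hz => by
      rw [hk]
      exact Finset.sum_eq_zero fun e _ => res_apply_of_notMem _ (by simp [hz])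
    have hk1 : ∀ z e, π z = some e → k z = η e z := fun z e hz => by
      rw [hk, Finset.sum_eq_single e, res_apply_of_mem _ (show z ∈ π ⁻¹' {some e} from hz)]
      · exact fun e' _ h => res_apply_of_notMem _ (by simp [hz, h.symm])
      · intro h
        have h0 : dfc (σ e) F = ⊥ := by
          by_contra h0
          exact h (c4.mem_toFinset.2 ⟨h0, z, hz⟩)
        have h1 := proj_dfc_mem (σ e) hc (T y')
        rw [h0, Submodule.mem_bot] at h1
        simp only [η, h0, h1, map_zero]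
        rfl
    refine ⟨res (π ⁻¹' {none}) (T y') + k, ?_, ?_⟩
    · have h1 : T y' - (res (π ⁻¹' {none}) (T y') + k) ∈ F := by
        refine mem_of_res (κ := π) hc ?_
        rintro (_ | e)
        · convert F.zero_mem using 1
          ext z
          by_cases hz : z ∈ π ⁻¹' {none}
          · simp [res_apply_of_mem _ hz, hk0 z hz]
          · simp [res_apply_of_notMem _ hz]
        · have h2 : res (π ⁻¹' {some e}) (T y' - (res (π ⁻¹' {none}) (T y') + k)) =
              res (π ⁻¹' {some e}) (T y' - η e) := by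
            ext z
            by_cases hz : z ∈ π ⁻¹' {some e}
            · have hz' : z ∉ π ⁻¹' {none} := by simp [show π z = some e from hz]
              simp [res_apply_of_mem _ hz, hk1 z e hz, res_apply_of_notMem _ hz']
            · simp [res_apply_of_notMem _ hz]
          have h3 := sub_proj_dfc (σ e) hc d2
          rw [h2]
          rcases c5 e with h | h | h <;> rw [h]
          · rw [res_eq_zero (T := Set.univ) (fun _ h => (h trivial).elim) fun _ h => h.elim]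
            exact F.zero_mem
          · exact h3.2
          · rw [eq_sub_of_add_eq' (res_add_res_compl (σ e) _)]
            exact F.sub_mem h3.1 h3.2
      simpa using F.sub_mem d2 h1
    · have h1 : T y - (res (π ⁻¹' {none}) (T y') + k) = res (π ⁻¹' {none})ᶜ (T y) - k := by
        ext z
        by_cases hz : z ∈ π ⁻¹' {none}
        · have h2 : T y' z = T y z := by
            by_cases hzS : z ∈ S
            · exact d3 _ (Or.inl ⟨z, ⟨hzS, hz⟩, rfl⟩)
            · rw [hFS d2 z hzS]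
              refine (hy1 (Sum.inl z) ?_).symm
              rintro (⟨w, hw, h⟩ | ⟨p, -, h⟩)
              · exact hzS (Sum.inl_injective h ▸ hw)
              · exact Sum.inr_ne_inl h
          simp [res_apply_of_mem _ hz, res_apply_of_notMem _ (Set.notMem_compl_iff.2 hz), h2]
        · simp [res_apply_of_notMem _ hz, res_apply_of_mem _ (Set.mem_compl hz)]
      change ‖T y - _‖ₑ ≤ _
      rw [h1]
      refine enorm_sub_le.trans (add_le_add ?_ ?_)
      · exact (ENNReal.pow_le_pow_left_iff two_ne_zero).1 (a2 _ fun z hz h => hz (c2 z h))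
      · refine (ENNReal.pow_le_pow_left_iff two_ne_zero).1 ?_
        let R : Set (E × Z) := {p | ∃ z, π z = some p.1}
        have h2 : ∀ e ∈ c4.toFinset, ‖η e‖ₑ ^ 2 ≤ 2 * ∑' z, ‖res R y₂ (e, z)‖ₑ ^ 2 := by
          intro e he
          have he' := c4.mem_toFinset.1 he
          refine (hΦ3 e _ (proj_dfc_mem _ hc _)).trans ?_
          rw [enorm_sq_eq]
          gcongr with z
          by_cases hz : z ∈ Φ e
          · rw [res_apply_of_mem _ hz, res_apply_of_mem _ (show (e, z) ∈ R from he'.2),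
              ← (hQ y').1 d1 (e, z) (hΦ2 e z hz),
              d3 _ (Or.inr ⟨(e, z), Set.mem_biUnion he' ⟨rfl, hz⟩, rfl⟩)]
            rfl
          · simp [res_apply_of_notMem _ hz]
        calc ‖k‖ₑ ^ 2 = ∑' z, ‖k z‖ₑ ^ 2 := enorm_sq_eq k
          _ ≤ ∑' z, ∑ e ∈ c4.toFinset, ‖η e z‖ₑ ^ 2 := by
            refine ENNReal.tsum_le_tsum fun z => ?_
            by_cases h : ∃ e ∈ c4.toFinset, π z = some e
            · obtain ⟨e, he, h⟩ := h
              rw [hk1 z e h]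
              exact Finset.single_le_sum (f := fun e => ‖η e z‖ₑ ^ 2) (fun _ _ => by simp) he
            · rw [hk, Finset.sum_eq_zero fun e he => res_apply_of_notMem _ fun h' => h ⟨e, he, h'⟩]
              simp
          _ = ∑ e ∈ c4.toFinset, ‖η e‖ₑ ^ 2 := by
            rw [Summable.tsum_finsetSum fun _ _ => ENNReal.summable]
            simp only [enorm_sq_eq]
          _ ≤ ∑ e ∈ c4.toFinset, 2 * ∑' z, ‖res R y₂ (e, z)‖ₑ ^ 2 := Finset.sum_le_sum h2
          _ ≤ 2 * ‖res R y₂‖ₑ ^ 2 := by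
            rw [← Finset.mul_sum, enorm_sq_eq, ENNReal.tsum_prod']
            gcongr
            exact ENNReal.sum_le_tsum _
          _ ≤ 2 * (a ^ 2 / 2) := by
            gcongr
            refine b2 _ ?_
            rintro p ⟨z, hz⟩ hp
            exact c3 z _ hz ⟨p, hp, rfl⟩
          _ = a ^ 2 := ENNReal.mul_div_cancel (by simp) (by simp)

end Pool.Agent.P.MP_0f25e6_al.TP
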