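import Pool.Agent.P.MP_0f25e6_al.TP3

/-!
Rational subspaces have finite defect along the edges of a tree.
-/

set_option autoImplicit false

open scoped InnerProductSpace ENNReal Topology
open Filter MulAction

noncomputable section

namespace Pool.Agent.P.MP_0f25e6_al.TP

open HN

universe u

section Tree

variable {H : Type u} {Y Z V E : Type*} [Group H] [MulAction H Y] [MulAction H Z] [MulAction H V]
  [MulAction H E]

theorem finite_of_cofin (hV : Free H V) {p : Z → V} (hp : ∀ (h : H) z, p (h • z) = h • p z)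
    {S : Set Z} (hS : Cofin H S) {U : Set V} (hU : U.Finite) : (S ∩ p ⁻¹' U).Finite := by
  obtain ⟨A, hA, hA'⟩ := hS
  refine (hA.biUnion fun a _ => hU.biUnion fun u _ =>
    Set.Subsingleton.finite (s := {z | p z = u ∧ ∃ h : H, h • z = a}) ?_).subset ?_
  · rintro z ⟨h1, h, h2⟩ z' ⟨h1', h', h2'⟩
    have h3 : h⁻¹ * h' = 1 := hV _ u (by
      rw [mul_smul, inv_smul_eq_iff]
      conv_lhs => rw [← h1', ← hp, h2', ← h2, hp, h1])
    rw [inv_mul_eq_one] at h3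
    exact MulAction.injective h (h2.trans (h3 ▸ h2'.symm))
  · rintro z ⟨hz, hu⟩
    obtain ⟨h, hh⟩ := hA' z hz
    exact Set.mem_biUnion hh (Set.mem_biUnion hu ⟨rfl, h, rfl⟩)

theorem rat_of_tree (D : TreeData H V E) (hV : Free H V) (hZ : Free H Z) {S : Set Z}
    (hS : ∀ (h : H), ∀ z ∈ S, h • z ∈ S) (hSc : Cofin H S) {p : Z → V}
    (hp : ∀ (h : H) z, p (h • z) = h • p z) {F : Submodule ℂ (L2 Z)} (hc : Cls F) (hi : Inv H F)
    (hFS : F ≤ supp S) (htr : ∀ e, ∑' z, tau (dfc (p ⁻¹' side D e) F) z ≠ ⊤)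
    (hB : Cofin H {e | dfc (p ⁻¹' side D e) F ≠ ⊥}) : Rat H F := by
  refine rat_of_defect hZ hS hSc (fun e => p ⁻¹' side D e)
    (fun h e z => by rw [Set.mem_preimage, hp, side_smul, Set.mem_preimage]) hc hi hFS htr hB
    fun Ψ₁ Ψ₂ h1 h2 => ?_
  obtain ⟨π, a1, a2, a3, a4⟩ := exists_partition D
    (((h1.image p).union (h2.image D.o)).union (h2.image D.t))
  refine ⟨π ∘ p, finite_of_cofin hV hp hSc a1, fun z hz => a2 _ (Or.inl (Or.inl ⟨z, hz, rfl⟩)),
    fun z e h he => (a3 _ e h).2 ⟨a2 _ (Or.inl (Or.inr ⟨e, he, rfl⟩)), a2 _ (Or.inr ⟨e, he, rfl⟩)⟩,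
    ((finite_of_cofin hV D.o_smul hB a1).union (finite_of_cofin hV D.t_smul hB a1)).subset ?_,
    fun e => ?_⟩
  · rintro e ⟨he, z, hz⟩
    exact (a3 _ e hz).1.imp (fun h => ⟨he, h⟩) fun h => ⟨he, h⟩
  · rw [Set.preimage_comp]
    rcases a4 e with h | h | h <;> simp [h]

/-- Under the Atiyah property finitely many orbits of equations suffice. -/
theorem exists_finite_eqs (hH : SAC H) (hY : Free H Y) (hYc : Cofin H (Set.univ : Set Y))
    {N : Submodule ℂ (L2 Y)} (hi : Inv H N) (hc : Cut N) :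
    ∃ Φ : Set (L2 Y), Φ.Finite ∧ (∀ a ∈ Φ, FinS a) ∧
      ∀ f, f ∈ N ↔ ∀ (h : H), ∀ a ∈ Φ, ⟪act h a, f⟫_ℂ = 0 := by
  classical
  let M : Set (L2 Y) → Submodule ℂ (L2 Y) := fun Φ => perp fun p : H × Φ => act p.1 p.2.1
  have hM : ∀ Φ f, f ∈ M Φ ↔ ∀ (h : H), ∀ a ∈ Φ, ⟪act h a, f⟫_ℂ = 0 := fun Φ f => by
    simp [M, mem_perp]
  have hMi : ∀ Φ, Inv H (M Φ) := fun Φ h f hf => (hM _ _).2 fun h' a ha => by
    rw [← act_act_inv h (act h' a), inner_act_left, act_inv_act, ← act_mul]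
    exact (hM _ _).1 hf _ a ha
  have hMn : ∀ Φ : Set (L2 Y), (∀ a ∈ Φ, FinS a) → ∃ n : ℕ, edim H (M Φ) = n := fun Φ hΦ => by
    have := ((rat_supp hY (S := Set.univ) (fun _ _ _ => trivial) hYc).inf_cut hY
      (cut_perp fun p : H × Φ => finCols_act p.1 _ (hΦ _ p.2.2)) (hMi Φ)).int hH hY
    rwa [supp_univ, top_inf_eq] at this
  have hex : ∃ n : ℕ, ∃ Φ : Set (L2 Y), Φ.Finite ∧ (∀ a ∈ Φ, FinS a ∧ a ∈ Nᗮ) ∧
      edim H (M Φ) = n := by
    obtain ⟨n, hn⟩ := hMn ∅ fun _ h => h.elim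
    exact ⟨n, ∅, Set.finite_empty, fun _ h => h.elim, hn⟩
  obtain ⟨Φ, h1, h2, h3⟩ := Nat.find_spec hex
  refine ⟨Φ, h1, fun a ha => (h2 a ha).1, fun f => ⟨fun hf h a ha =>
    Submodule.inner_left_of_mem_orthogonal hf (hi.orth h a (h2 a ha).2), fun hf => ?_⟩⟩
  refine hc f fun a ha ha' => ?_
  have h4 : ∀ b ∈ insert a Φ, FinS b ∧ b ∈ Nᗮ := by
    rintro b (rfl | hb)
    · exact ⟨ha, (Submodule.mem_orthogonal' _ _).2 ha'⟩
    · exact h2 b hb
  obtain ⟨n, hn⟩ := hMn (insert a Φ) fun b hb => (h4 b hb).1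
  have h5 : M (insert a Φ) = M Φ := by
    refine eq_of_edim_le (cls_perp _) (cls_perp _) (hMi _) (hMi _)
      (fun g hg => (hM _ _).2 fun h b hb => (hM _ _).1 hg h b (Or.inr hb))
      (edim_ne_top hYc _) ?_
    rw [h3, hn]
    exact_mod_cast Nat.find_min' hex ⟨_, h1.insert a, h4, hn⟩
  have h6 := (hM _ _).1 (h5.ge ((hM _ _).2 hf)) 1 a (Or.inl rfl)
  rwa [act_one] at h6

theorem edim_dfc_le (hY : Free H Y) (hZ : Free H Z) {N : Submodule ℂ (L2 Y)} (hc : Cls N)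
    (hi : Inv H N) {T : L2 Y →L[ℂ] L2 Z} (hT : Eqv H T) {B : Set Y}
    (hB : ∀ (h : H) y, h • y ∈ B ↔ y ∈ B) {S : Set Z} (hS : ∀ (h : H) z, h • z ∈ S ↔ z ∈ S)
    (h : ∀ ζ ∈ N, ζ ∈ supp Bᶜ → res S (T ζ) ∈ cl (img T N)) :
    edim H (dfc S (cl (img T N))) ≤ edim H (supp B) := by
  set X := cl (img T N)
  have hXi : Inv H X := (hi.img hT).cl
  have hDi : Inv H (dfc S X) := fun g f hf => act_mem_dfc (hS g) hXi hf
  have hN₀ : Inv H (N ⊓ supp Bᶜ) := hi.inf (inv_supp fun g y hy hy' => hy ((hB g y).1 hy'))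
  have c1 : Cls (N ⊓ (N ⊓ supp Bᶜ)ᗮ) := hc.inf (cls_orth _)
  have i1 : Inv H (N ⊓ (N ⊓ supp Bᶜ)ᗮ) := hi.inf hN₀.orth
  have h1 : edim H (N ⊓ (N ⊓ supp Bᶜ)ᗮ) ≤ edim H (supp B) := by
    rw [rank_nullity hY hY (eqv_res (S := B) fun g y hy => (hB g y).2 hy) c1 i1]
    have : N ⊓ (N ⊓ supp Bᶜ)ᗮ ⊓ pre (res B) ⊥ = ⊥ := by
      refine eq_bot_iff.2 fun f hf => inner_self_eq_zero.1 (hf.1.2 f ⟨hf.1.1, fun y hy => ?_⟩)
      have h2 : res B f = 0 := hf.2
      rw [← res_apply_of_mem f (Set.notMem_compl_iff.1 hy), h2]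
      rfl
    rw [this, edim_bot, zero_add]
    refine edim_mono ?_
    rintro _ ⟨f, -, rfl⟩
    exact res_mem_supp B f
  have hQ : Eqv H (proj (dfc S X) ∘L T) := (eqv_proj hDi).comp hT
  refine le_trans ?_ ((edim_img_le hY hZ hQ c1 i1).trans h1)
  rw [← edim_cl (img _ _)]
  refine edim_mono fun f hf => ?_
  rw [← proj_eq_self (le_cl _ hf)]
  refine (cl_le ?_ (cls_cl _) : cl (img (proj (dfc S X)) (img T N)) ≤ _)
    (img_cl_le _ _ ⟨f, hf.1, rfl⟩)
  rintro _ ⟨_, ⟨ζ, hζ, rfl⟩, rfl⟩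
  have h2 := proj_split (K := N ⊓ supp Bᶜ) hc inf_le_left ζ
  rw [proj_eq_self (le_cl N hζ)] at h2
  have h3 := (cl_eq (hc.inf (cls_supp Bᶜ))).le (proj_mem _ ζ)
  refine le_cl _ ⟨_, (cl_eq c1).le (proj_mem _ ζ), ?_⟩
  have h4 : proj (dfc S X) (T (proj (N ⊓ supp Bᶜ) ζ)) = 0 := proj_eq_zero fun u hu =>
    inner_eq_zero_symm.1 (hu.2 _ ⟨le_cl _ ⟨_, h3.1, rfl⟩, h _ h3.1 h3.2⟩)
  change proj (dfc S X) (T _) = proj (dfc S X) (T ζ)
  conv_rhs => rw [h2, map_add, map_add, h4, zero_add]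

theorem defect_of_rat (hH : SAC H) (hZ : Free H Z) (D : TreeData H V E) {p : Z → V}
    (hp : ∀ (h : H) z, p (h • z) = h • p z) {X : Submodule ℂ (L2 Z)} (hX : Rat H X) :
    (∀ e, edim (stabilizer H e) (dfc (p ⁻¹' side D e) X) ≠ ⊤) ∧
      Cofin H {e | dfc (p ⁻¹' side D e) X ≠ ⊥} := by
  classical
  obtain ⟨Y, _, hY, hYc, N, T, hNi, hNc, hT, hTf, rfl⟩ := hX
  obtain ⟨Φ, hΦ, hΦf, hN⟩ := exists_finite_eqs hH hY hYc hNi hNc
  obtain ⟨v₀⟩ := D.ne
  obtain ⟨q, hq⟩ := exists_position hY v₀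
  let R : Y → Set V := fun y => {v | (∃ h : H, ∃ a ∈ Φ, act h a y ≠ 0 ∧ ∃ y', act h a y' ≠ 0 ∧
    q y' = v) ∨ ∃ z, T (delta y) z ≠ 0 ∧ p z = v}
  have hR : ∀ y, (R y).Finite := by
    intro y
    refine Set.Finite.subset (Set.Finite.union (hΦ.biUnion fun a ha => Set.Finite.biUnion
      (s := {h : H | act h a y ≠ 0}) ?_ fun h _ => (finCols_act h a (hΦf a ha)).image q)
      ((hTf _ (finS_delta y)).image p)) ?_
    · refine (hΦf a ha).preimage (f := fun h : H => h⁻¹ • y) fun b _ c _ hbc => ?_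
      have := hY (c * b⁻¹) y (by rw [mul_smul, show b⁻¹ • y = c⁻¹ • y from hbc, smul_inv_smul])
      exact (mul_inv_eq_one.1 this).symm
    · rintro v (⟨h, a, ha, h1, y', h2, h3⟩ | ⟨z, h1, h2⟩)
      · exact Or.inl (Set.mem_biUnion ha (Set.mem_biUnion h1 ⟨y', h2, h3⟩))
      · exact Or.inr ⟨z, h1, h2⟩
  have hRs : ∀ (g : H) y v, v ∈ R y → g • v ∈ R (g • y) := by
    rintro g y v (⟨h, a, ha, h1, y', h2, h3⟩ | ⟨z, h1, h2⟩)
    · exact Or.inl ⟨g * h, a, ha, by simpa [act_mul] using h1, g • y', by simpa [act_mul] using h2,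
        by rw [hq, h3]⟩
    · exact Or.inr ⟨g • z, by rwa [← act_delta, hT, act_apply, inv_smul_smul], by rw [hp, h2]⟩
  let B : E → Set Y := fun e => {y | ∃ v ∈ R y, ¬(q y ∈ side D e ↔ v ∈ side D e)}
  have hBs : ∀ (g : H) e y, y ∈ B e → g • y ∈ B (g • e) := by
    rintro g e y ⟨v, h1, h2⟩
    exact ⟨g • v, hRs g y v h1, by rwa [hq, side_smul, side_smul]⟩
  have hBf : ∀ y, {e | y ∈ B e}.Finite := fun y =>
    ((hR y).biUnion fun v _ => finite_sep D (q y) v).subset fun e ⟨v, h1, h2⟩ =>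
      Set.mem_biUnion h1 h2
  obtain ⟨Y₀, hY₀, hY₀'⟩ := hYc
  have hst : ∀ e (g : stabilizer H e) z, g • z ∈ p ⁻¹' side D e ↔ z ∈ p ⁻¹' side D e := by
    intro e g z
    have := side_smul D (g : H) e (p z)
    rwa [show (g : H) • e = e from g.2, ← hp] at this
  have key : ∀ e, edim (stabilizer H e) (dfc (p ⁻¹' side D e) (cl (img T N))) ≤
      edim (stabilizer H e) (supp (B e)) := by
    intro e
    have hs : ∀ g : stabilizer H e, (g : H) • e = e := fun g => g.2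
    refine edim_dfc_le (fun g y h => Subtype.ext (hY g y h)) (fun g z h => Subtype.ext (hZ g z h))
      hNc.cls (fun g => hNi (g : H)) (fun g => hT (g : H)) (fun g y => ⟨fun h => ?_, fun h => ?_⟩)
      (hst e) fun ζ hζ hζ' => ?_
    · have := hBs (g⁻¹ : stabilizer H e) e _ h
      rwa [hs, Subgroup.smul_def, Subgroup.coe_inv, inv_smul_smul] at this
    · have := hBs g e _ h
      rwa [hs] at this
    · have h1 : res (p ⁻¹' side D e) ∘L T ∘L res (B e)ᶜ =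
          T ∘L res (q ⁻¹' side D e) ∘L res (B e)ᶜ := by
        refine ext_delta' fun y => ?_
        simp only [ContinuousLinearMap.comp_apply]
        by_cases hy : y ∈ B e
        · rw [res_eq_zero (S := (B e)ᶜ) (delta_mem_supp hy) fun _ h => h]
          simp
        · rw [res_eq_self (delta_mem_supp (Set.mem_compl hy))]
          have h2 : ∀ z, T (delta y) z ≠ 0 → (q y ∈ side D e ↔ p z ∈ side D e) := fun z hz => by
            by_contra h
            exact hy ⟨p z, Or.inr ⟨z, hz, rfl⟩, h⟩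
          by_cases hs : q y ∈ side D e
          · rw [res_eq_self (delta_mem_supp (S := q ⁻¹' side D e) hs),
              res_eq_self (S := p ⁻¹' side D e) fun z hz =>
                by_contra fun h => hz ((h2 z h).1 hs)]
          · rw [res_eq_zero (T := (q ⁻¹' side D e)ᶜ) (delta_mem_supp hs) fun _ h h' => h' h,
              res_eq_zero (T := (p ⁻¹' side D e)ᶜ)
                (fun z hz => by_contra fun h => hz fun h' => hs ((h2 z h).2 h')) fun _ h h' => h' h,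
              map_zero]
      have h2 := congrArg (fun L => L ζ) h1
      simp only [ContinuousLinearMap.comp_apply, res_eq_self hζ'] at h2
      rw [h2]
      refine le_cl _ ⟨_, (hN _).2 fun h a ha => ?_, rfl⟩
      by_cases hy : ∃ y, act h a y ≠ 0 ∧ y ∉ B e
      · obtain ⟨y, h3, h4⟩ := hy
        have h5 : ∀ y', act h a y' ≠ 0 → (q y ∈ side D e ↔ q y' ∈ side D e) := fun y' hy' => by
          by_contra h'
          exact h4 ⟨q y', Or.inl ⟨h, a, ha, h3, y', hy', rfl⟩, h'⟩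
        rw [← inner_res_left]
        by_cases hs : q y ∈ side D e
        · rw [res_eq_self (S := q ⁻¹' side D e) fun z hz => by_contra fun h => hz ((h5 z h).1 hs)]
          exact (hN ζ).1 hζ h a ha
        · rw [res_eq_zero (T := (q ⁻¹' side D e)ᶜ)
            (fun z hz => by_contra fun h => hz fun h' => hs ((h5 z h).2 h')) fun _ h h' => h' h,
            inner_zero_left]
      · push Not at hy
        refine inner_eq_zero_of_supp (S := B e) (T := (B e)ᶜ)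
          (fun y h' => by_contra fun h'' => h' (hy y h'')) (fun y h' => ?_) fun _ h h' => h' h
        rw [res_apply, hζ' y h', ite_self]
  refine ⟨fun e => ne_top_of_le_ne_top (edim_ne_top_of_cofin (S := B e) ?_ le_rfl) (key e),
    ⋃ y ∈ Y₀, {e | y ∈ B e}, hY₀.biUnion fun y _ => hBf y, fun e he => ?_⟩
  · let γ : E → H := fun e' => if h : ∃ g : H, g • e' = e then h.choose else 1
    refine ⟨⋃ y ∈ Y₀, (fun e' => γ e' • y) '' {e' | y ∈ B e'},
      hY₀.biUnion fun y _ => (hBf y).image _, fun y hy => ?_⟩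
    obtain ⟨g, hg⟩ := hY₀' y trivial
    have h1 : ∃ g' : H, g' • g • e = e := ⟨g⁻¹, inv_smul_smul g e⟩
    have h2 : γ (g • e) • g • e = e := by
      simp only [γ, dif_pos h1]
      exact h1.choose_spec
    exact ⟨⟨γ (g • e) * g, by rwa [mem_stabilizer_iff, mul_smul]⟩,
      Set.mem_biUnion hg ⟨g • e, hBs g e y hy, (mul_smul _ _ _).symm⟩⟩
  · by_cases hB : B e = ∅
    · refine (he (eq_bot_of_edim (H := stabilizer H e) (fun g f hf => ?_) ?_)).elim
      · exact act_mem_dfc (hst e g) (fun g => (hNi.img hT).cl (g : H)) hf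
      · have := key e
        rwa [hB, supp_empty, edim_bot, nonpos_iff_eq_zero] at this
    · obtain ⟨y, hy⟩ := Set.nonempty_iff_ne_empty.2 hB
      obtain ⟨g, hg⟩ := hY₀' y trivial
      exact ⟨g, Set.mem_biUnion hg (hBs g e y hy)⟩

end Tree

end Pool.Agent.P.MP_0f25e6_al.TP
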