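import Pool.Agent.P.MP_0f25e6_al.TP4

/-!
Induction of subspaces along an embedding of group actions.
-/

set_option autoImplicit false

open scoped InnerProductSpace ENNReal Topology
open Filter MulAction

noncomputable section

namespace Pool.Agent.P.MP_0f25e6_al.TP

open HN

universe u

/-- An embedding of an `H`-set in a `Γ`-set as one fibre of an equivariant map. -/
structure Emb (H Γ Y Z P : Type*) [Group H] [Group Γ] [MulAction H Y] [MulAction Γ Z]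
    [MulAction Γ P] where
  /-- the embedding of groups -/
  j : H →* Γ
  j_inj : Function.Injective j
  /-- the embedding of sets -/
  J : Y → Z
  J_inj : Function.Injective J
  J_smul : ∀ (h : H) y, J (h • y) = j h • J y
  /-- the fibration -/
  π : Z → P
  π_smul : ∀ (g : Γ) z, π (g • z) = g • π z
  /-- the base point -/
  p₀ : P
  stab : stabilizer Γ p₀ = j.range
  range_J : Set.range J = π ⁻¹' {p₀}
  trans : ∀ z, π z ∈ orbit Γ p₀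

theorem split_inf {Z X : Type*} {κ : Z → X} {U W : Submodule ℂ (L2 Z)} (hU : Split κ U)
    (hW : Split κ W) : Split κ (U ⊓ W) := fun x f hf => ⟨hU x f hf.1, hW x f hf.2⟩

namespace Emb

variable {H Γ : Type u} {Y Z P : Type*} [Group H] [Group Γ] [MulAction H Y] [MulAction Γ Z]
  [MulAction Γ P] (𝓔 : Emb H Γ Y Z P)

/-- The induced subspace. -/
def ind (V : Submodule ℂ (L2 Y)) : Submodule ℂ (L2 Z) :=
  ⨅ g : Γ, pre (pull 𝓔.J 𝓔.J_inj ∘L act g) V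

/-- The part of a subspace that lives on the base fibre. -/
abbrev down (U : Submodule ℂ (L2 Z)) : Submodule ℂ (L2 Y) := pre (push 𝓔.J 𝓔.J_inj) U

theorem mem_ind {V : Submodule ℂ (L2 Y)} {f : L2 Z} :
    f ∈ 𝓔.ind V ↔ ∀ g : Γ, pull 𝓔.J 𝓔.J_inj (act g f) ∈ V := Submodule.mem_iInf _

theorem cls_ind {V : Submodule ℂ (L2 Y)} (hV : Cls V) : Cls (𝓔.ind V) :=
  cls_iInf fun _ => hV.pre _

theorem inv_ind (V : Submodule ℂ (L2 Y)) : Inv Γ (𝓔.ind V) := fun g f hf =>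
  𝓔.mem_ind.2 fun g' => by
    rw [← act_mul]
    exact 𝓔.mem_ind.1 hf _

theorem π_J (y : Y) : 𝓔.π (𝓔.J y) = 𝓔.p₀ := 𝓔.range_J.le ⟨y, rfl⟩

theorem split_ind (V : Submodule ℂ (L2 Y)) : Split 𝓔.π (𝓔.ind V) := fun x f hf =>
  𝓔.mem_ind.2 fun g => by
    rw [act_res_fibre 𝓔.π_smul]
    by_cases h : 𝓔.p₀ = g • x
    · convert 𝓔.mem_ind.1 hf g using 1
      ext y
      exact res_apply_of_mem _ ((𝓔.π_J y).trans h)
    · convert V.zero_mem using 1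
      ext y
      exact res_apply_of_notMem _ fun h' => h ((𝓔.π_J y).symm.trans h')

include 𝓔 in
theorem free (hZ : Free Γ Z) : Free H Y := fun h y hy =>
  𝓔.j_inj (by rw [hZ (𝓔.j h) (𝓔.J y) (by rw [← 𝓔.J_smul, hy]), map_one])

theorem pull_act (h : H) (f : L2 Z) :
    pull 𝓔.J 𝓔.J_inj (act (𝓔.j h) f) = act h (pull 𝓔.J 𝓔.J_inj f) := by
  ext y
  simp [𝓔.J_smul]

theorem down_ind {V : Submodule ℂ (L2 Y)} (hV : Inv H V) : 𝓔.down (𝓔.ind V) = V := by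
  ext f
  refine ⟨fun hf => ?_, fun hf => 𝓔.mem_ind.2 fun g => ?_⟩
  · have := 𝓔.mem_ind.1 hf 1
    rwa [act_one, ContinuousLinearMap.coe_coe, pull_push] at this
  · by_cases h : g ∈ 𝓔.j.range
    · obtain ⟨h, rfl⟩ := h
      rw [pull_act, ContinuousLinearMap.coe_coe, pull_push]
      exact hV h f hf
    · convert V.zero_mem using 1
      ext y
      refine push_apply_not _ _ _ fun y' h' => h ?_
      have := congrArg 𝓔.π h'
      rw [π_smul, π_J, π_J, eq_inv_smul_iff] at this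
      exact 𝓔.stab.le this

theorem ind_le_supp {V : Submodule ℂ (L2 Y)} {S : Set Y} (hV : V ≤ supp S) {S' : Set Z}
    (hS : ∀ (g : Γ), ∀ y ∈ S, g • 𝓔.J y ∈ S') : 𝓔.ind V ≤ supp S' := by
  intro f hf z hz
  obtain ⟨g, hg⟩ := 𝓔.trans z
  obtain ⟨y, hy⟩ := 𝓔.range_J.ge (show 𝓔.π (g⁻¹ • z) = 𝓔.p₀ by
    rw [π_smul, ← hg, inv_smul_smul])
  have := hV (𝓔.mem_ind.1 hf g⁻¹) y fun h => hz (by simpa [hy] using hS g y h)
  simpa [hy] using this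

theorem img_down {U : Submodule ℂ (L2 Z)} :
    img (push 𝓔.J 𝓔.J_inj) (𝓔.down U) = U ⊓ supp (𝓔.π ⁻¹' {𝓔.p₀}) := by
  rw [← 𝓔.range_J]
  ext f
  constructor
  · rintro ⟨v, hv, rfl⟩
    exact ⟨hv, fun z hz => push_apply_not _ _ _ fun y h => hz ⟨y, h⟩⟩
  · rintro ⟨h1, h2⟩
    have : push 𝓔.J 𝓔.J_inj (pull 𝓔.J 𝓔.J_inj f) = f := by rw [push_pull, res_eq_self h2]
    exact ⟨pull 𝓔.J 𝓔.J_inj f, (congrArg (· ∈ U) this).mpr h1, this⟩

theorem supp_orbit : supp (𝓔.π ⁻¹' orbit Γ 𝓔.p₀) = ⊤ :=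
  eq_top_iff.2 fun _ _ z hz => (hz (𝓔.trans z)).elim

theorem act_push (h : H) (f : L2 Y) :
    act (𝓔.j h) (push 𝓔.J 𝓔.J_inj f) = push 𝓔.J 𝓔.J_inj (act h f) := by
  let _ : MulAction H Z := MulAction.compHom Z 𝓔.j
  rw [act_hom 𝓔.j fun _ _ => rfl]
  exact (eqv_push 𝓔.J_inj 𝓔.J_smul h f).symm

theorem inv_down {U : Submodule ℂ (L2 Z)} (hU : Inv Γ U) : Inv H (𝓔.down U) := fun h f hf => by
  change push 𝓔.J 𝓔.J_inj (act h f) ∈ U
  rw [← act_push]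
  exact hU _ _ hf

theorem edim_down (hZ : Free Γ Z) {U : Submodule ℂ (L2 Z)} (hc : Cls U) (hi : Inv Γ U)
    (hs : Split 𝓔.π U) : edim Γ U = edim H (𝓔.down U) := by
  let _ : MulAction H Z := MulAction.compHom Z 𝓔.j
  have hι : ∀ (c : H) (z : Z), 𝓔.j c • z = c • z := fun _ _ => rfl
  have h1 := edim_induce 𝓔.j hZ 𝓔.j_inj hι 𝓔.π_smul 𝓔.stab hc hi hs
  rw [supp_orbit, inf_top_eq, ← img_down] at h1
  have h2 : 𝓔.down U ⊓ pre (push 𝓔.J 𝓔.J_inj) ⊥ = ⊥ := eq_bot_iff.2 fun f hf => by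
    have h3 : push 𝓔.J 𝓔.J_inj f = 0 := hf.2
    rw [← pull_push 𝓔.J 𝓔.J_inj f, h3, map_zero]
    rfl
  rw [h1, rank_nullity (𝓔.free hZ) (hZ.of_hom 𝓔.j 𝓔.j_inj hι) (eqv_push 𝓔.J_inj 𝓔.J_smul)
    (hc.pre _) (𝓔.inv_down hi), h2, edim_bot, zero_add]

theorem psi_down (hZ : Free Γ Z) {E U : Submodule ℂ (L2 Z)} (hc : Cls E) (hi : Inv Γ E)
    (hs : Split 𝓔.π E) (hc' : Cls U) (hi' : Inv Γ U) (hs' : Split 𝓔.π U) (t : ℝ) :
    psi Γ E t U = psi H (𝓔.down E) t (𝓔.down U) := by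
  simp only [psi, dim]
  rw [𝓔.edim_down hZ hc' hi' hs', 𝓔.edim_down hZ (hc.inf hc') (hi.inf hi') (split_inf hs hs')]
  rfl

theorem rat_ind (hZ : Free Γ Z) {V : Submodule ℂ (L2 Y)} (hV : Rat H V) : Rat Γ (𝓔.ind V) := by
  let _ : MulAction H Z := MulAction.compHom Z 𝓔.j
  have hι : ∀ (c : H) (z : Z), 𝓔.j c • z = c • z := fun _ _ => rfl
  have h1 := hV.img (eqv_push 𝓔.J_inj 𝓔.J_smul) (finCols_push _ _)
  conv at h1 => rw [← 𝓔.down_ind hV.inv, img_down, cl_eq ((𝓔.cls_ind hV.cls).inf (cls_supp _))]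
  have h2 := Rat.orbit 𝓔.j hZ 𝓔.j_inj hι 𝓔.π_smul 𝓔.p₀ (𝓔.cls_ind hV.cls) (𝓔.inv_ind V)
    (𝓔.split_ind V) h1
  rwa [supp_orbit, inf_top_eq] at h2

end Emb

/-- A canonical maximiser is split by every self-embedding that preserves the data. -/
theorem split_of_isHN {Γ : Type u} {Z P : Type*} [Group Γ] [MulAction Γ Z] [MulAction Γ P]
    (𝓔 : Emb Γ Γ Z Z P) (hZ : Free Γ Z) {S : Set Z} (hS : ∀ (g : Γ), ∀ y ∈ S, g • 𝓔.J y ∈ S)
    {E : Submodule ℂ (L2 Z)} (hc : Cls E) (hi : Inv Γ E) (hs : Split 𝓔.π E) (hE : 𝓔.down E = E)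
    {t : ℝ} {X : Submodule ℂ (L2 Z)} (hX : IsHN Γ S E t X) : Split 𝓔.π X := by
  have h1 := 𝓔.cls_ind hX.rat.cls
  have h2 := 𝓔.psi_down hZ hc hi hs h1 (𝓔.inv_ind X) (𝓔.split_ind X) t
  rw [hE, 𝓔.down_ind hX.rat.inv] at h2
  have h3 := 𝓔.edim_down hZ h1 (𝓔.inv_ind X) (𝓔.split_ind X)
  rw [𝓔.down_ind hX.rat.inv] at h3
  rw [← eq_of_edim_le h1 hX.rat.cls (𝓔.inv_ind X) hX.rat.inv
    (hX.largest _ (𝓔.rat_ind hZ hX.rat) (𝓔.ind_le_supp hX.le hS) h2.ge)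
    (h3 ▸ hX.rat.edim_ne_top hZ) h3.ge]
  exact 𝓔.split_ind X

end Pool.Agent.P.MP_0f25e6_al.TP
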