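import Pool.Agent.P.MP_0f25e6_al.TP5
import Pool.Agent.P.MP_0f25e6_al.HN8

/-!
A split rational subspace is rational over a subgroup that acts freely on a tree.
-/

set_option autoImplicit false

open scoped InnerProductSpace ENNReal Topology
open Filter MulAction

noncomputable section

namespace Pool.Agent.P.MP_0f25e6_al.TP

open HN

universe u

/-- Change of group for a tree. -/
def comap {G H V E : Type*} [Group G] [Group H] [MulAction G V] [MulAction G E] [MulAction H V]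
    [MulAction H E] (D : TreeData G V E) (j : H →* G) (hV : ∀ (h : H) (v : V), j h • v = h • v)
    (hE : ∀ (h : H) (e : E), j h • e = h • e) : TreeData H V E where
  o := D.o
  t := D.t
  o_smul h e := by rw [← hV, ← hE, D.o_smul]
  t_smul h e := by rw [← hV, ← hE, D.t_smul]
  ne := D.ne
  conn := D.conn
  cut := D.cut

theorem img_push_dfc_le {Y Z P : Type*} {J : Y → Z} (hJ : Function.Injective J) {κ : Z → P}
    {p₀ : P} {S : Set Y} (hS : J '' S = κ ⁻¹' {p₀}) {X : Submodule ℂ (L2 Z)} (hs : Split κ X)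
    (σ : Set Z) :
    img (push J hJ) (dfc (J ⁻¹' σ) (pre (push J hJ) X ⊓ supp S)) ≤ dfc σ X := by
  have h1 : ∀ η : L2 Z, push J hJ (res S (pull J hJ η)) = res (κ ⁻¹' {p₀}) η := by
    intro η
    rw [← hS]
    ext z
    by_cases hz : ∃ y, J y = z
    · obtain ⟨y, rfl⟩ := hz
      rw [push_apply_self]
      by_cases h : y ∈ S
      · rw [res_apply_of_mem _ h, res_apply_of_mem _ (hJ.mem_set_image.2 h), pull_apply]
      · rw [res_apply_of_notMem _ h, res_apply_of_notMem _ (mt hJ.mem_set_image.1 h)]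
    · rw [push_apply_not _ _ _ fun y h => hz ⟨y, h⟩,
        res_apply_of_notMem (A := J '' S) _ fun ⟨y, _, h⟩ => hz ⟨y, h⟩]
  rintro _ ⟨ξ, hξ, rfl⟩
  refine ⟨hξ.1.1, fun η hη => ?_⟩
  change ⟪η, push J hJ ξ⟫_ℂ = 0
  rw [inner_push_right, ← res_eq_self hξ.1.2, ← inner_res_left]
  have h2 : res (J ⁻¹' σ) (res S (pull J hJ η)) = res S (pull J hJ (res σ η)) := by
    ext y
    by_cases h : y ∈ S <;> by_cases h' : J y ∈ σ <;> simp [res_apply, h, h']
  refine hξ.2 _ ⟨⟨?_, res_mem_supp _ _⟩, ?_, ?_⟩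
  · change push J hJ _ ∈ X
    rw [h1]
    exact hs _ _ hη.1
  · change push J hJ (res _ _) ∈ X
    rw [h2, h1]
    exact hs _ _ hη.2
  · change res _ _ ∈ supp S
    rw [h2]
    exact res_mem_supp _ _

theorem rat_fibre {C Γ : Type u} {Y Z P V E : Type*} [Group C] [Group Γ] [MulAction C Y]
    [MulAction Γ Z] [MulAction Γ P] [MulAction Γ V] [MulAction Γ E] (j : C →* Γ) {J : Y → Z}
    (hJ : Function.Injective J) (hJs : ∀ (c : C) y, J (c • y) = j c • J y) {κ : Z → P}
    (hκ : ∀ (g : Γ) z, κ (g • z) = g • κ z) {p₀ : P} (hst : stabilizer Γ p₀ ≤ j.range)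
    {S : Set Y} (hS : J '' S = κ ⁻¹' {p₀}) (hSi : ∀ (c : C), ∀ y ∈ S, c • y ∈ S) (hSc : Cofin C S)
    (hΓ : SAC Γ) (hZ : Free Γ Z) (D : TreeData Γ V E) (hfree : ∀ c (v : V), j c • v = v → c = 1)
    {X : Submodule ℂ (L2 Z)} (hX : Rat Γ X) (hs : Split κ X) :
    Rat C (pre (push J hJ) X ⊓ supp S) := by
  let _ : MulAction C V := MulAction.compHom V j
  let _ : MulAction C E := MulAction.compHom E j
  let _ : MulAction C Z := MulAction.compHom Z j
  obtain ⟨v₀⟩ := D.ne
  obtain ⟨p, hp⟩ := exists_position hZ v₀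
  have hY : Free C Y := fun c y h => hfree c v₀ (by
    rw [hZ (j c) (J y) (by rw [← hJs, h]), one_smul])
  obtain ⟨h1, h2⟩ := defect_of_rat hΓ hZ D hp hX
  set F := pre (push J hJ) X ⊓ supp S with hF
  have hσ : ∀ (g : Γ) e z, g • z ∈ p ⁻¹' side D (g • e) ↔ z ∈ p ⁻¹' side D e := fun g e z => by
    rw [Set.mem_preimage, hp, side_smul, Set.mem_preimage]
  have hτ : ∀ (g : Γ) e z, tau (dfc (p ⁻¹' side D (g • e)) X) (g • z) =
      tau (dfc (p ⁻¹' side D e) X) z := fun g e z => by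
    rw [tau, ← act_delta, act_proj_dfc (hσ g e) hX.cls hX.inv, enorm_act, tau]
  have key : ∀ (e₀ : E) (I : Type _) (e : I → E) (a : I → Γ), (∀ i, a i • e i = e₀) →
      (∀ i i' (c : C), j c • e i = e i' → i = i') →
      ∑' i, ∑' y, tau (dfc (J ⁻¹' (p ⁻¹' side D (e i))) F) y ≠ ⊤ := by
    intro e₀ I e a ha he
    refine ne_top_of_le_ne_top (h1 e₀) (le_trans ?_ (tsum_le_osum (H := stabilizer Γ e₀)
      (fun g z h => Subtype.ext (hZ g z h)) (fun g z => ?_)
      (j := fun q : I × S => a q.1 • J q.2) ?_))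
    · rw [ENNReal.tsum_prod']
      refine ENNReal.tsum_le_tsum fun i => ?_
      rw [← tsum_subtype_eq_of_support_subset (s := S)
        (f := tau (dfc (J ⁻¹' (p ⁻¹' side D (e i))) F)) fun y hy => by_contra fun h =>
        hy (tau_eq_zero_of_supp (inf_le_left.trans inf_le_right) h)]
      refine ENNReal.tsum_le_tsum fun y => ?_
      rw [← ha i, hτ, ← tau_img_push J hJ]
      exact tau_mono (img_push_dfc_le hJ hS hs _) _
    · have := hτ g e₀ z
      rwa [show (g : Γ) • e₀ = e₀ from g.2] at this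
    · rintro g ⟨i, y⟩ ⟨i', y'⟩ h
      have h3 : ((a i')⁻¹ * g * a i) • J y = J y' := by
        rw [mul_smul, mul_smul, inv_smul_eq_iff]
        exact h
      have h4 := congrArg κ h3
      rw [hκ, hS.le ⟨y, y.2, rfl⟩, hS.le ⟨y', y'.2, rfl⟩] at h4
      obtain ⟨c, hc⟩ := hst h4
      have h5 : j c • e i = e i' := by
        rw [hc, mul_smul, mul_smul, ha, show (g : Γ) • e₀ = e₀ from g.2, inv_smul_eq_iff, ha]
      obtain rfl := he i i' c h5
      rw [← hc, hfree c (D.o (e i)) (by rw [← D.o_smul, h5]), map_one, one_smul] at h3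
      rw [Subtype.ext (hJ h3)]
  refine rat_of_tree (comap D j (fun _ _ => rfl) fun _ _ => rfl) hfree hY hSi hSc (p := p ∘ J)
    (fun c y => by rw [Function.comp_apply, hJs, hp]; rfl) ((hX.cls.pre _).inf (cls_supp _))
    ((Inv.pre (Inv.of_hom j (fun _ _ => rfl) hX.inv) (eqv_push hJ hJs)).inf (inv_supp hSi)) inf_le_right
    (fun e => ?_) ?_
  · have := key e PUnit (fun _ => e) (fun _ => 1) (fun _ => one_smul _ _) fun _ _ _ _ => rfl
    rw [tsum_fintype, Fintype.sum_unique] at this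
    exact this
  · obtain ⟨E₀, h3, h4⟩ := h2
    let B : E → Prop := fun e => dfc (J ⁻¹' (p ⁻¹' side D e)) F ≠ ⊥
    have h5 : ∀ e₀, {q : orbitRel.Quotient C E |
        ∃ e, Quotient.mk _ e = q ∧ B e ∧ ∃ g : Γ, g • e = e₀}.Finite := by
      intro e₀
      rw [← Set.finite_coe_iff]
      choose e he1 he2 a ha using fun q : {q : orbitRel.Quotient C E |
        ∃ e, Quotient.mk _ e = q ∧ B e ∧ ∃ g : Γ, g • e = e₀} => q.2
      have h6 := key e₀ _ e a ha fun i i' c h => Subtype.ext (by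
        rw [← he1, ← he1, ← h]
        exact (mk_smul c _).symm)
      exact Set.finite_univ_iff.1 ((ENNReal.finite_const_le_of_tsum_ne_top h6 one_ne_zero).subset
        fun i _ => one_le_tsum_tau (he2 i))
    refine ⟨Quotient.out '' ⋃ e₀ ∈ E₀, _, (h3.biUnion fun e₀ _ => h5 e₀).image _, fun e he => ?_⟩
    obtain ⟨g, hg⟩ := h4 e fun h => he (eq_bot_iff.2 fun ξ hξ => by
      have h7 := img_push_dfc_le hJ hS hs (p ⁻¹' side D e) ⟨ξ, hξ, rfl⟩
      rw [h, Submodule.mem_bot, ContinuousLinearMap.coe_coe] at h7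
      rw [← pull_push J hJ ξ, h7, map_zero]
      rfl)
    obtain ⟨c, hc⟩ := exists_smul_out (H := C) e
    exact ⟨c⁻¹, Quotient.mk _ e, Set.mem_biUnion hg ⟨e, rfl, he, g, rfl⟩,
      eq_inv_smul_iff.2 hc⟩

/-- The Atiyah property passes to all extensions with quotient in `A`. -/
def SACx (A : Type u) [Group A] : Prop :=
  ∀ (Γ : Type u) [Group Γ] (r : Γ →* A), SAC r.ker → SAC Γ

theorem sacx_of_free (A : Type u) [Group A] [IsFreeGroup A] : SACx A := by
  intro Γ _ r hr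
  let _ : MulAction Γ A := MulAction.compHom A r
  let _ : MulAction Γ (Tw A (IsFreeGroup.Generators A)) := MulAction.compHom _ r
  have h1 : ∀ v : A, stabilizer Γ v = r.ker := fun v => Subgroup.ext fun g => mul_eq_right
  have h2 : ∀ e : Tw A (IsFreeGroup.Generators A), stabilizer Γ e = r.ker := fun e =>
    Subgroup.ext fun g => ⟨fun h => mul_eq_right.1 (congrArg Tw.y h),
      fun h => by rw [mem_stabilizer_iff, MulAction.compHom_smul_def, h, one_smul]⟩
  have h3 : ∀ (K K' : Subgroup Γ) (h : K ≤ K'), K = r.ker → K' = r.ker →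
      TP (Subgroup.inclusion h) := by
    rintro _ _ h rfl rfl
    have : (Subgroup.inclusion h).range.FiniteIndex := by
      rw [MonoidHom.range_eq_top.2 fun x => ⟨x, rfl⟩]
      infer_instance
    exact tp_of_finiteIndex _ (Subgroup.inclusion_injective h) hr
  exact sac_of_tree (comap (cayley (IsFreeGroup.basis A)) r (fun _ _ => rfl) fun _ _ => rfl) (fun v => h1 v ▸ hr)
    (fun e h => h3 _ _ h (h2 e) (h1 _)) fun e h => h3 _ _ h (h2 e) (h1 _)

theorem SACx.sac {A : Type u} [Group A] (hA : SACx A) : SAC A := by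
  refine hA A (MonoidHom.id A) ?_
  have : Subsingleton (MonoidHom.id A).ker := ⟨fun a b => Subtype.ext (a.2.trans b.2.symm)⟩
  exact sac_of_subsingleton

theorem sac_of_free (A : Type u) [Group A] [IsFreeGroup A] : SAC A := (sacx_of_free A).sac

theorem tp_of_subsingleton {C A : Type u} [Group C] [Group A] [Subsingleton C] (ι : C →* A) :
    TP ι := by
  intro Z X _ _ _ κ x₀ hZ hι hκ hx hcof E hEc hEi hEs t ht0 ht1 W hW hWs
  have hinj : Function.Injective ι := fun _ _ _ => Subsingleton.elim _ _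
  have hC := hZ.of_hom ι hinj hι
  have h1 : ∀ (c : C) (z : Z), c • z = z := fun c z => by rw [Subsingleton.elim c 1, one_smul]
  have hfin : (κ ⁻¹' {x₀}).Finite := by
    obtain ⟨F, hF, h⟩ := hcof
    refine hF.subset fun z hz => ?_
    obtain ⟨c, hc⟩ := h z hz
    rwa [h1] at hc
  have hS : ∀ (c : C), ∀ z ∈ κ ⁻¹' {x₀}, c • z ∈ κ ⁻¹' {x₀} := fun c z hz => by rwa [h1]
  have hi := (hEi.of_hom ι hι).inf (inv_supp hS)
  have hr := (rat_supp hC hS hcof).inf_cut hC (cut_cutc _) (inv_cutc hi)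
  have h2 : supp (κ ⁻¹' {x₀}) ⊓ cutc (E ⊓ supp (κ ⁻¹' {x₀})) = E ⊓ supp (κ ⁻¹' {x₀}) := by
    refine le_antisymm (fun f hf => ?_) (le_inf inf_le_right (le_cutc _))
    obtain ⟨g, hg, h⟩ := exists_match hf.2 hfin
    convert hg using 1
    ext z
    by_cases hz : z ∈ κ ⁻¹' {x₀}
    · exact (h z hz).symm
    · rw [hf.1 z hz, hg.2 z hz]
  rw [h2] at hr
  refine ⟨_, hr, inf_le_right, ?_⟩
  have h3 := edim_induce ι hZ hinj hι hκ hx hEc hEi hEs
  have h4 : dim A (E ⊓ W) ≤ dim C (E ⊓ supp (κ ⁻¹' {x₀})) := by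
    rw [dim, dim, ← h3]
    exact dim_mono (h3 ▸ hr.edim_ne_top hC) (inf_le_inf_left E hWs)
  have h5 : dim A (E ⊓ W) ≤ dim A W := dim_mono (hW.edim_ne_top hZ) inf_le_right
  rw [psi, psi, ← inf_assoc, inf_idem]
  nlinarith

theorem tp_comp {C B A : Type u} [Group C] [Group B] [Group A] {ι : C →* B} {j : B →* A}
    (hj : Function.Injective j) (h1 : TP ι) (h2 : TP j) : TP (j.comp ι) := by
  classical
  intro Z X _ _ _ κ x₀ hZ hι hκ hx hcof E hEc hEi hEs t ht0 ht1 W hW hWs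
  let _ : MulAction B Z := MulAction.compHom Z j
  let _ : MulAction B X := MulAction.compHom X j
  have hq : ∀ a a' : A, a • x₀ = a' • x₀ → (a : A ⧸ j.range) = a' := fun a a' h => by
    obtain ⟨c, hc⟩ := hx.le (show (a⁻¹ * a') • x₀ = x₀ by rw [mul_smul, ← h, inv_smul_smul])
    exact QuotientGroup.eq.2 ⟨ι c, hc⟩
  let q : X → Option (A ⧸ j.range) := fun x =>
    if h : ∃ a : A, a • x₀ = x then some (h.choose : A ⧸ j.range) else none
  have q1 : ∀ a : A, q (a • x₀) = some (a : A ⧸ j.range) := fun a => by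
    have h : ∃ a' : A, a' • x₀ = a • x₀ := ⟨a, rfl⟩
    simp only [q, dif_pos h, hq _ _ h.choose_spec]
  have q2 : ∀ x, (¬∃ a : A, a • x₀ = x) → q x = none := fun x h => dif_neg h
  have q3 : ∀ (a : A) x, q (a • x) = a • q x := fun a x => by
    by_cases h : ∃ a : A, a • x₀ = x
    · obtain ⟨b, rfl⟩ := h
      rw [← mul_smul, q1, q1]
      rfl
    · rw [q2 x h, q2 _ fun ⟨b, hb⟩ => h ⟨a⁻¹ * b, by rw [mul_smul, hb, inv_smul_smul]⟩]
      rfl
  have q4 : (q ∘ κ) ⁻¹' {some ((1 : A) : A ⧸ j.range)} = κ ⁻¹' orbit B x₀ := by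
    ext z
    constructor
    · intro h
      by_cases h' : ∃ a : A, a • x₀ = κ z
      · obtain ⟨a, ha⟩ := h'
        have h3 : q (κ z) = some ((1 : A) : A ⧸ j.range) := h
        rw [← ha, q1, Option.some.injEq, eq_comm, QuotientGroup.eq, inv_one, one_mul] at h3
        obtain ⟨b, rfl⟩ := h3
        exact ⟨b, ha⟩
      · exact absurd ((q2 _ h').symm.trans h) (by simp)
    · rintro ⟨b, hb⟩
      change q (κ z) = _
      rw [← show j b • x₀ = κ z from hb, q1, Option.some.injEq, eq_comm, QuotientGroup.eq]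
      exact ⟨b, by simp⟩
  obtain ⟨F, hF, hFs, hle⟩ := h2 Z _ (q ∘ κ) (some ((1 : A) : A ⧸ j.range)) hZ (fun _ _ => rfl)
    (fun a z => by rw [Function.comp_apply, hκ, q3]; rfl)
    (by
      refine (Subgroup.ext fun a => ?_).trans (stabilizer_quotient j.range)
      rw [mem_stabilizer_iff, mem_stabilizer_iff, Option.smul_some, Option.some_inj])
    (by
      obtain ⟨F, hF, h⟩ := hcof
      refine ⟨F, hF, fun z hz => ?_⟩
      obtain ⟨b, hb⟩ := q4.le hz
      obtain ⟨c, hc⟩ := h ((j b)⁻¹ • z) (by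
        rw [Set.mem_preimage, hκ, ← show j b • x₀ = κ z from hb, inv_smul_smul]
        rfl)
      refine ⟨ι c * b⁻¹, ?_⟩
      rwa [← hι, ← mul_smul, MonoidHom.comp_apply, ← map_inv, ← map_mul] at hc)
    E hEc hEi (fun x _ hf => hEs.res_preimage hEc (q ⁻¹' {x}) hf) t ht0 ht1 W hW
    (hWs.trans (supp_mono (by
      rintro z ⟨a, ha⟩
      refine ⟨a, Eq.trans ?_ ((congrArg q ha).symm.trans (q1 a)).symm⟩
      simp)))
  rw [q4] at hFs
  obtain ⟨F', hF', hFs', hle'⟩ := h1 Z X κ x₀ (hZ.of_hom j hj fun _ _ => rfl) hι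
    (fun b z => hκ (j b) z) (Subgroup.ext fun b => ⟨fun h => by
      obtain ⟨c, hc⟩ := hx.le h
      exact ⟨c, hj hc⟩, by rintro ⟨c, rfl⟩; exact hx.ge ⟨c, rfl⟩⟩)
    hcof E hEc (hEi.of_hom j fun _ _ => rfl) hEs t ht0 ht1 F hF hFs
  exact ⟨F', hF', hFs', hle.trans hle'⟩

end Pool.Agent.P.MP_0f25e6_al.TP
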