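import Pool.Agent.P.MP_0f25e6_al.TP6

/-!
The transfer property for subgroups that act freely on a tree.
-/

set_option autoImplicit false

open scoped InnerProductSpace ENNReal Topology
open Filter MulAction SemidirectProduct

noncomputable section

namespace Pool.Agent.P.MP_0f25e6_al.TP

open HN

universe u

/-- The set induced from an `A`-set to a semidirect product. -/
@[ext] structure Ex {A M : Type*} [Group A] [Group M] (φ : A →* MulAut M) (Z : Type*) where
  /-- first coordinate -/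
  m : M
  /-- second coordinate -/
  z : Z

section Ex

variable {A M : Type u} {Z X : Type*} [Group A] [Group M] (φ : A →* MulAut M) [MulAction A Z]
  [MulAction A X]

instance : MulAction (M ⋊[φ] A) (Ex φ Z) where
  smul g p := ⟨g.left * φ g.right p.m, g.right • p.z⟩
  one_smul p := by
    change (⟨1 * φ 1 p.m, (1 : A) • p.z⟩ : Ex φ Z) = p
    simp
  mul_smul a b p := by
    change (⟨(a * b).left * φ (a * b).right p.m, (a * b).right • p.z⟩ : Ex φ Z) =
      ⟨a.left * φ a.right (b.left * φ b.right p.m), a.right • b.right • p.z⟩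
    simp [mul_assoc, mul_smul]

variable {φ}

@[simp] theorem Ex.smul_m (g : M ⋊[φ] A) (p : Ex φ Z) : (g • p).m = g.left * φ g.right p.m := rfl

@[simp] theorem Ex.smul_z (g : M ⋊[φ] A) (p : Ex φ Z) : (g • p).z = g.right • p.z := rfl

theorem free_ex (hZ : Free A Z) : Free (M ⋊[φ] A) (Ex φ Z) := fun g p h => by
  have h1 : g.right = 1 := hZ _ _ (congrArg Ex.z h)
  have h2 := congrArg Ex.m h
  ext
  · simpa [h1] using h2
  · exact h1

omit [MulAction A Z] in
theorem ins_inj (m : M) : Function.Injective fun z : Z => (⟨m, z⟩ : Ex φ Z) :=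
  fun _ _ h => congrArg Ex.z h

variable (φ Z) in
/-- The embedding of `A` in the semidirect product. -/
def baseEmb : Emb A (M ⋊[φ] A) Z (Ex φ Z) (Ex φ PUnit.{1}) where
  j := inr
  j_inj := inr_injective
  J z := ⟨1, z⟩
  J_inj := ins_inj 1
  J_smul a z := by ext <;> simp
  π p := ⟨p.m, ⟨⟩⟩
  π_smul _ _ := rfl
  p₀ := ⟨1, ⟨⟩⟩
  stab := by
    ext g
    refine ⟨fun h => ⟨g.right, ?_⟩, ?_⟩
    · have h1 := congrArg Ex.m h
      ext
      · simpa using h1.symm
      · rfl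
    · rintro ⟨a, rfl⟩
      exact Ex.ext (by simp) rfl
  range_J := by
    ext p
    exact ⟨by rintro ⟨z, rfl⟩; rfl, fun h => ⟨p.z, Ex.ext (congrArg Ex.m h).symm rfl⟩⟩
  trans p := ⟨inl p.m, Ex.ext (by simp) rfl⟩

theorem mem_ind_base {E : Submodule ℂ (L2 Z)} (hE : Inv A E) {f : L2 (Ex φ Z)} :
    f ∈ (baseEmb Z φ).ind E ↔ ∀ m, pull _ (ins_inj m) f ∈ E := by
  have key : ∀ g : M ⋊[φ] A, pull _ (baseEmb Z φ).J_inj (act g f) =
      act g.right (pull _ (ins_inj g⁻¹.left) f) := fun g => by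
    ext z
    exact congrArg f (Ex.ext (by simp [baseEmb]) rfl)
  rw [Emb.mem_ind]
  refine ⟨fun h m => ?_, fun h g => key g ▸ hE _ _ (h _)⟩
  simpa [key, act_one] using h (inl m⁻¹)

variable {κ : Z → X} (hκ : ∀ (a : A) z, κ (a • z) = a • κ z) (β : M →* M)
  (hβ : Function.Injective β) (hβφ : ∀ a m, β (φ a m) = φ a (β m)) (τ : X → M)
  (hτ : ∀ (a : A) x, τ (a • x) = φ a (τ x))

/-- The self-embedding of the semidirect product induced by an equivariant endomorphism. -/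
def selfHom : M ⋊[φ] A →* M ⋊[φ] A :=
  SemidirectProduct.map β (MonoidHom.id A) fun a => MonoidHom.ext (hβφ a)

theorem mem_selfHom {g : M ⋊[φ] A} : g ∈ (selfHom β hβφ).range ↔ g.left ∈ β.range :=
  ⟨by rintro ⟨g, rfl⟩; exact ⟨g.left, rfl⟩, fun ⟨m, hm⟩ => ⟨⟨m, g.right⟩, by
    ext
    · exact hm
    · rfl⟩⟩

/-- The twisted self-embedding of the induced set. -/
def selfEmb : Emb (M ⋊[φ] A) (M ⋊[φ] A) (Ex φ Z) (Ex φ Z) ((M ⋊[φ] A) ⧸ (selfHom β hβφ).range) where
  j := selfHom β hβφ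
  j_inj a b h := by
    ext
    · exact hβ (congrArg SemidirectProduct.left h)
    · exact (congrArg SemidirectProduct.right h :)
  J p := ⟨β p.m * τ (κ p.z), p.z⟩
  J_inj a b h := by
    have h1 : a.z = b.z := (congrArg Ex.z h :)
    have h2 : β a.m * τ (κ a.z) = β b.m * τ (κ b.z) := congrArg Ex.m h
    rw [h1] at h2
    exact Ex.ext (hβ (mul_right_cancel h2)) h1
  J_smul g p := by
    ext
    · simp [selfHom, hκ, hτ, hβφ, mul_assoc]
    · rfl
  π p := (inl (p.m * (τ (κ p.z))⁻¹) : M ⋊[φ] A)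
  π_smul g p := by
    rw [Quotient.smul_coe, QuotientGroup.eq, mem_selfHom]
    exact ⟨1, by simp [hκ, hτ, mul_assoc]⟩
  p₀ := (1 : M ⋊[φ] A)
  stab := stabilizer_quotient _
  range_J := by
    ext p
    rw [Set.mem_preimage, Set.mem_singleton_iff, eq_comm, QuotientGroup.eq, mem_selfHom]
    constructor
    · rintro ⟨q, rfl⟩
      exact ⟨q.m, by simp⟩
    · rintro ⟨m, hm⟩
      exact ⟨⟨m, p.z⟩, Ex.ext (by simp [hm]) rfl⟩
  trans p := ⟨inl (p.m * (τ (κ p.z))⁻¹), by simp⟩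

omit [MulAction A Z] [MulAction A X] in
theorem split_of_factor {W : Submodule ℂ (L2 Z)} (hc : Cls W) (hs : Split κ W) {P : Type*}
    (q : X → P) : Split (q ∘ κ) W := fun x _ hf => hs.res_preimage hc (q ⁻¹' {x}) hf

omit [MulAction A X] in
theorem split_ind_base {E : Submodule ℂ (L2 Z)} (hE : Inv A E) (hs : Split κ E) :
    Split (fun p : Ex φ Z => (⟨p.m, κ p.z⟩ : Ex φ X)) ((baseEmb Z φ).ind E) := by
  intro x f hf
  rw [mem_ind_base hE] at hf ⊢
  intro m
  by_cases h : m = x.m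
  · convert hs x.z _ (hf m) using 1
    ext z
    by_cases hz : z ∈ κ ⁻¹' {x.z}
    · rw [res_apply_of_mem _ hz]
      exact res_apply_of_mem _ (Ex.ext h hz)
    · rw [res_apply_of_notMem _ hz]
      exact res_apply_of_notMem _ fun h' => hz (congrArg Ex.z h')
  · convert E.zero_mem using 1
    ext z
    exact res_apply_of_notMem _ fun h' => h (congrArg Ex.m h')

theorem down_ind_base {E : Submodule ℂ (L2 Z)} (hc : Cls E) (hE : Inv A E) (hs : Split κ E) :
    (selfEmb hκ β hβ hβφ τ hτ).down ((baseEmb Z φ).ind E) = (baseEmb Z φ).ind E := by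
  ext f
  have key : ∀ m x, res (κ ⁻¹' {x}) (pull _ (ins_inj (β m * τ x))
      (push _ (selfEmb hκ β hβ hβφ τ hτ).J_inj f)) = res (κ ⁻¹' {x}) (pull _ (ins_inj m) f) := by
    intro m x
    ext z
    by_cases hz : z ∈ κ ⁻¹' {x}
    · rw [res_apply_of_mem _ hz, res_apply_of_mem _ hz]
      obtain rfl : κ z = x := hz
      exact push_apply_self _ (selfEmb hκ β hβ hβφ τ hτ).J_inj f ⟨m, z⟩
    · rw [res_apply_of_notMem _ hz, res_apply_of_notMem _ hz]
  rw [Submodule.mem_comap, mem_ind_base hE, mem_ind_base hE]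
  refine ⟨fun h m => mem_of_res (κ := κ) hc fun x => key m x ▸ hs _ _ (h _),
    fun h m => mem_of_res (κ := κ) hc fun x => ?_⟩
  by_cases hm : ∃ m', β m' * τ x = m
  · obtain ⟨m', rfl⟩ := hm
    exact (key m' x).symm ▸ hs _ _ (h _)
  · convert E.zero_mem using 1
    ext z
    by_cases hz : z ∈ κ ⁻¹' {x}
    · rw [res_apply_of_mem _ hz]
      obtain rfl : κ z = x := hz
      refine push_apply_not _ _ _ fun y h' => hm ⟨y.m, ?_⟩
      rw [← show y.z = z from congrArg Ex.z h']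
      exact congrArg Ex.m h'
    · exact res_apply_of_notMem _ hz

end Ex

/-- The action on a free group induced by an action on the generators. -/
def actF (A L : Type*) [Group A] [MulAction A L] : A →* MulAut (FreeGroup L) where
  toFun a := FreeGroup.freeGroupCongr (MulAction.toPerm a)
  map_one' := MulEquiv.toMonoidHom_injective (FreeGroup.ext_hom _ _ fun x => by simp)
  map_mul' a b := MulEquiv.toMonoidHom_injective (FreeGroup.ext_hom _ _ fun x => by
    simp [mul_smul])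

theorem tp_of_tree {C A : Type u} {V B : Type*} [Group C] [Group A] [MulAction A V]
    [MulAction A B] (ι : C →* A) (D : TreeData A V B) (hfree : ∀ c (v : V), ι c • v = v → c = 1)
    (hA : ∀ (L : Type u) [MulAction A L],
      (∀ l : L, ∃ a : A, ∀ g : A, g • l = l → a⁻¹ * g * a ∈ ι.range) →
        SAC (FreeGroup L ⋊[actF A L] A)) : TP ι := by
  classical
  intro Z X _ _ _ κ x₀ hZ hι hκ hx hcof E hEc hEi hEs t _ _ W hW hWs
  have hinj : Function.Injective ι := (injective_iff_map_eq_one ι).2 fun c hc =>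
    D.ne.elim fun v => hfree c v (by rw [hc, one_smul])
  let L := Tw (orbit A x₀) ℕ
  let φ := actF A L
  have hφ : ∀ a m, φ a m = FreeGroup.map (fun l => a • l) m := fun _ _ => rfl
  have hΓ : SAC (FreeGroup L ⋊[φ] A) := hA L fun l => by
    obtain ⟨a, ha⟩ := l.y.2
    refine ⟨a, fun g hg => hx.le ?_⟩
    have h1 : g • l.y.1 = l.y.1 := congrArg (fun l : L => l.y.1) hg
    rw [mem_stabilizer_iff, mul_smul, mul_smul, inv_smul_eq_iff, show a • x₀ = l.y.1 from ha, h1]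
  have hZ' : Free _ (Ex φ Z) := free_ex hZ
  let 𝓑 := baseEmb Z φ
  let κ' : Ex φ Z → Ex φ X := fun p => ⟨p.m, κ p.z⟩
  let S : Set (Ex φ Z) := {p | κ p.z ∈ orbit A x₀}
  have hS : Cofin (FreeGroup L ⋊[φ] A) S := by
    obtain ⟨F, hF, hF'⟩ := hcof
    refine ⟨𝓑.J '' F, hF.image _, ?_⟩
    rintro p ⟨a, ha⟩
    obtain ⟨c, hc⟩ := hF' (a⁻¹ • p.z) (by rw [Set.mem_preimage, hκ, ← ha]; simp)
    exact ⟨inr (ι c * a⁻¹) * inl p.m⁻¹, _, hc,
      Ex.ext (by simp [𝓑, baseEmb]) (by simp [𝓑, baseEmb, mul_smul, hι])⟩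
  have hE'c := 𝓑.cls_ind hEc
  have hE's : Split κ' (𝓑.ind E) := split_ind_base hEi hEs
  obtain ⟨U, hU⟩ := exists_isHN hΓ hZ' hS hE'c (𝓑.inv_ind E) t
  have horb : ∀ (a : A) z, κ z ∈ orbit A x₀ → κ (a • z) ∈ orbit A x₀ := fun a z hz => by
    rw [hκ]
    exact mem_orbit_of_mem_orbit a hz
  have hsp : ∀ (b : ℕ → ℕ) (hb : Function.Injective b) (τ : X → FreeGroup L)
      (hτ : ∀ (a : A) x, τ (a • x) = φ a (τ x)), ∃ (P : Type u) (q : Ex φ X → P), Split (q ∘ κ') U ∧
        ∀ x y, q x = q y → (x.m * (τ x.z)⁻¹)⁻¹ * (y.m * (τ y.z)⁻¹) ∈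
          (FreeGroup.map fun l : L => (⟨l.y, b l.k⟩ : L)).range := by
    intro b hb τ hτ
    have h1 : Function.Injective fun l : L => (⟨l.y, b l.k⟩ : L) :=
      fun l l' h => Tw.ext (congrArg Tw.y h :) (hb (congrArg Tw.k h))
    have h2 : ∀ a m, FreeGroup.map (fun l : L => (⟨l.y, b l.k⟩ : L)) (φ a m) =
        φ a (FreeGroup.map (fun l : L => (⟨l.y, b l.k⟩ : L)) m) := fun a m => by
      rw [hφ, hφ, FreeGroup.map.comp, FreeGroup.map.comp]
      rfl
    refine ⟨_ ⧸ (selfHom _ h2).range, fun x => (inl (x.m * (τ x.z)⁻¹) : _ ⋊[φ] A), ?_,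
      fun x y h => ?_⟩
    · exact split_of_isHN (selfEmb hκ _ (FreeGroup.map_injective h1) h2 τ hτ) hZ'
        (fun g y hy => horb g.right y.z hy) hE'c (𝓑.inv_ind E) (split_of_factor hE'c hE's
          fun x => ((inl (x.m * (τ x.z)⁻¹) : _ ⋊[φ] A) : _ ⧸ (selfHom _ h2).range))
        (down_ind_base hκ _ _ h2 τ hτ hEc hEi hEs) hU
    · rw [QuotientGroup.eq, mem_selfHom, ← map_inv, ← map_mul] at h
      exact h
  obtain ⟨P₀, q₀, a1, a2⟩ := hsp (fun n => 2 * n + 1) (fun _ _ h => by simpa using h) (fun _ => 1)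
    fun a _ => (map_one _).symm
  obtain ⟨P₁, q₁, b1, b2⟩ := hsp (fun n => 2 * n + 2) (fun _ _ h => by simpa using h)
    (fun x => if h : x ∈ orbit A x₀ then FreeGroup.of ⟨⟨x, h⟩, 0⟩ else 1) fun a x => by
      by_cases h : x ∈ orbit A x₀
      · rw [dif_pos h, dif_pos (mem_orbit_of_mem_orbit a h)]
        rfl
      · rw [dif_neg h, dif_neg fun h' => h (by simpa using mem_orbit_of_mem_orbit a⁻¹ h'), map_one]
  have hq : ∀ x y, x.z ∈ orbit A x₀ → y.z ∈ orbit A x₀ → q₀ x = q₀ y → q₁ x = q₁ y → x = y := by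
    intro x y hx hy h0 h1
    obtain ⟨u, hu⟩ := a2 x y h0
    obtain ⟨w, hw⟩ := b2 x y h1
    rw [dif_pos hx, dif_pos hy] at hw
    let θ : (ℕ → Prop) → FreeGroup L →* FreeGroup L := fun R =>
      FreeGroup.lift fun l => if R l.k then FreeGroup.of l else 1
    have h2 : ∀ (R : ℕ → Prop) (b : ℕ → ℕ), (∀ n, ¬R (b n)) →
        ∀ m, θ R (FreeGroup.map (fun l : L => (⟨l.y, b l.k⟩ : L)) m) = 1 := fun R b h m =>
      DFunLike.congr_fun (show (θ R).comp (FreeGroup.map _) = 1 from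
        FreeGroup.ext_hom _ _ fun l => by simp [θ, h]) m
    have h3 := DFunLike.congr_fun (show (θ fun n => n % 2 = 1).comp
      (FreeGroup.map fun l : L => (⟨l.y, 2 * l.k + 1⟩ : L)) =
        FreeGroup.map fun l : L => (⟨l.y, 2 * l.k + 1⟩ : L) from
      FreeGroup.ext_hom _ _ fun l => by simp [θ]) u
    simp only [inv_one, mul_one] at hu
    have h4 := h2 (fun n => n % 2 = 1) (fun n => 2 * n + 2) (fun n => by omega) w
    have h5 := h2 (fun n => n = 0) (fun n => 2 * n + 2) (fun n => by omega) w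
    rw [hw, mul_inv_rev, inv_inv, mul_assoc, ← mul_assoc x.m⁻¹] at h4 h5
    rw [MonoidHom.comp_apply, hu] at h3
    rw [map_mul, map_mul, h3, map_inv] at h4
    have h6 : x.m = y.m := by simpa [θ, inv_mul_eq_one] using h4
    refine Ex.ext h6 ?_
    have h7 : FreeGroup.of (⟨⟨x.z, hx⟩, 0⟩ : L) = FreeGroup.of ⟨⟨y.z, hy⟩, 0⟩ := by
      simpa [θ, h6, mul_inv_eq_one] using h5
    exact congrArg (fun l : L => l.y.1) (FreeGroup.of_injective h7)
  have hUs : Split κ' U := by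
    intro x f hf
    by_cases hx : x.z ∈ orbit A x₀
    · have := a1 (q₀ x) _ (b1 (q₁ x) f hf)
      rw [← res_eq_self (hU.le hf), res_res, res_res] at this
      convert this using 3
      ext p
      refine ⟨fun h => ⟨⟨congrArg q₀ h, congrArg q₁ h⟩, ?_⟩,
        fun h => hq _ _ h.2 hx h.1.1 h.1.2⟩
      rwa [← show κ' p = x from h] at hx
    · rw [res_eq_zero (hU.le hf) fun p h h' => hx (by rwa [← show κ' p = x from h])]
      exact U.zero_mem
  have hUb : Split 𝓑.π U := split_of_factor hU.rat.cls hUs fun x => (⟨x.m, ⟨⟩⟩ : Ex φ PUnit.{1})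
  let _ : MulAction (FreeGroup L ⋊[φ] A) V := MulAction.compHom V rightHom
  let _ : MulAction (FreeGroup L ⋊[φ] A) B := MulAction.compHom B rightHom
  have hr := rat_fibre (inr.comp ι) 𝓑.J_inj (fun c y => by rw [← hι, 𝓑.J_smul]; rfl) (κ := κ')
    (fun g p => Ex.ext rfl (hκ _ _)) (p₀ := ⟨1, x₀⟩) (S := κ ⁻¹' {x₀}) (fun g hg => by
      obtain ⟨c, hc⟩ := hx.le (congrArg Ex.z hg)
      refine ⟨c, SemidirectProduct.ext ?_ hc⟩
      simpa using (congrArg Ex.m hg).symm)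
    (Set.ext fun p => ⟨by rintro ⟨z, hz, rfl⟩; exact Ex.ext rfl hz,
      fun h => ⟨p.z, congrArg Ex.z h, Ex.ext (congrArg Ex.m h).symm rfl⟩⟩)
    (fun c z hz => by
      rw [Set.mem_preimage, ← hι, hκ, show κ z = x₀ from hz]
      exact hx.ge ⟨c, rfl⟩)
    hcof hΓ hZ' (comap D rightHom (fun _ _ => rfl) fun _ _ => rfl) hfree hU.rat hUs
  refine ⟨_, hr, inf_le_right, ?_⟩
  have c1 := 𝓑.psi_down hZ' hE'c (𝓑.inv_ind E) (𝓑.split_ind E) (𝓑.cls_ind hW.cls) (𝓑.inv_ind W)
    (𝓑.split_ind W) t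
  have c2 := 𝓑.psi_down hZ' hE'c (𝓑.inv_ind E) (𝓑.split_ind E) hU.rat.cls hU.rat.inv hUb t
  have c3 := hU.max _ (𝓑.rat_ind hZ' hW) (𝓑.ind_le_supp hWs fun g y hy => horb _ _ hy)
  rw [c1, c2, 𝓑.down_ind hW.inv, 𝓑.down_ind hEi] at c3
  refine c3.trans_eq ?_
  have d1 : Cls (𝓑.down U) := hU.rat.cls.pre _
  have d2 := 𝓑.inv_down hU.rat.inv
  have d3 : Split κ (𝓑.down U) := by
    intro x f hf
    change push _ _ _ ∈ U
    convert hUs ⟨1, x⟩ _ hf using 1
    ext p
    by_cases hp : ∃ z, 𝓑.J z = p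
    · obtain ⟨z, rfl⟩ := hp
      rw [push_apply_self]
      by_cases hz : z ∈ κ ⁻¹' {x}
      · rw [res_apply_of_mem _ hz,
          res_apply_of_mem _ (show 𝓑.J z ∈ κ' ⁻¹' {⟨1, x⟩} from Ex.ext rfl hz)]
        exact (push_apply_self _ _ _ _).symm
      · rw [res_apply_of_notMem _ hz, res_apply_of_notMem _
          (show 𝓑.J z ∉ κ' ⁻¹' {⟨1, x⟩} from fun h => hz (congrArg Ex.z h))]
    · rw [push_apply_not _ _ _ fun z h => hp ⟨z, h⟩, res_apply, ContinuousLinearMap.coe_coe,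
        push_apply_not _ _ _ fun z h => hp ⟨z, h⟩, ite_self]
  have d4 : 𝓑.down U ≤ supp (κ ⁻¹' orbit A x₀) := fun f hf z hz =>
    (push_apply_self _ 𝓑.J_inj f z).symm.trans (hU.le hf _ hz)
  rw [psi, psi, ← inf_assoc, ← dim_induce ι hZ hinj hι hκ hx d1 d2 d3,
    ← dim_induce ι hZ hinj hι hκ hx (hEc.inf d1) (hEi.inf d2) (split_inf hEs d3), inf_assoc,
    inf_eq_left.2 d4]

/-- The tree of a free group, with the action of the semidirect product. -/
def exTree (A L : Type u) [Group A] [MulAction A L] :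
    TreeData (FreeGroup L ⋊[actF A L] A) (Ex (actF A L) PUnit.{u + 1}) (Ex (actF A L) L) where
  o e := ⟨e.m, ⟨⟩⟩
  t e := ⟨e.m * FreeGroup.of e.z, ⟨⟩⟩
  o_smul _ _ := rfl
  t_smul g e := Ex.ext (by
    simp only [Ex.smul_m, Ex.smul_z, map_mul, mul_assoc]
    rfl) rfl
  ne := ⟨⟨1, ⟨⟩⟩⟩
  conn S hS v hv w := (cayley (FreeGroupBasis.ofFreeGroup L)).conn
    {m | (⟨m, ⟨⟩⟩ : Ex (actF A L) PUnit.{u + 1}) ∈ S} (fun e => hS ⟨e.y, e.k⟩) v.m hv w.m
  cut e := by
    obtain ⟨S, h1, h2, h3⟩ := (cayley (FreeGroupBasis.ofFreeGroup L)).cut ⟨e.m, e.z⟩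
    exact ⟨{v | v.m ∈ S}, h1, h2, fun e' h => h3 ⟨e'.m, e'.z⟩ fun h' =>
      h (Ex.ext (congrArg Tw.y h' :) (congrArg Tw.k h' :))⟩

theorem tp_of_hom {C A F : Type u} [Group C] [Group A] [Group F] [IsFreeGroup F] (ι : C →* A)
    (ρ : A →* F) (hρ : ∀ c, ρ (ι c) = 1 → c = 1) (hA : SAC A) : TP ι := by
  let _ : MulAction A F := MulAction.compHom F ρ
  let _ : MulAction A (Tw F (IsFreeGroup.Generators F)) := MulAction.compHom _ ρ
  refine tp_of_tree ι (comap (cayley (IsFreeGroup.basis F)) ρ (fun _ _ => rfl) fun _ _ => rfl)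
    (fun c _ h => hρ c (mul_eq_right.1 h)) fun L _ hL => sacx_of_free F _ (ρ.comp rightHom) ?_
  set K := (ρ.comp (rightHom : FreeGroup L ⋊[actF A L] A →* A)).ker
  have h1 : ∀ (g : FreeGroup L ⋊[actF A L] A) (m : FreeGroup L),
      g.left * actF A L g.right m = m → g.right = 1 → g = 1 := fun g m h h' =>
    SemidirectProduct.ext (by simpa [h'] using h) h'
  have h2 : ∀ e : Ex (actF A L) L, Subsingleton (stabilizer K e) := by
    intro e
    have : ∀ g : stabilizer K e, g = 1 := fun g => by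
      obtain ⟨a, ha⟩ := hL e.z
      obtain ⟨c, hc⟩ := ha _ (congrArg Ex.z g.2)
      have h3 : ρ g.1.1.right = 1 := g.1.2
      rw [hρ c (by rw [hc, map_mul, map_mul, show ρ (_ : A) = 1 from h3]; simp), map_one,
        eq_comm, mul_assoc, inv_mul_eq_one, eq_comm, mul_eq_right] at hc
      exact Subtype.ext (Subtype.ext (h1 _ _ (congrArg Ex.m g.2) hc))
    exact ⟨fun a b => (this a).trans (this b).symm⟩
  refine sac_of_tree (comap (exTree A L) K.subtype (fun _ _ => rfl) fun _ _ => rfl) (fun v => ?_)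
    (fun e h => have := h2 e; tp_of_subsingleton _) fun e h => have := h2 e; tp_of_subsingleton _
  refine hA.of_injective (rightHom.comp (K.subtype.comp (stabilizer K v).subtype))
    ((injective_iff_map_eq_one _).2 fun g hg => ?_)
  exact Subtype.ext (Subtype.ext (h1 _ _ (congrArg Ex.m g.2) hg))

end Pool.Agent.P.MP_0f25e6_al.TP
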