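import Pool.Agent.P.MP_0f25e6_al.TP7

/-!
The combination theorem for simplicial trees.
-/

set_option autoImplicit false

open MulAction

namespace Pool.Agent.P.MP_0f25e6_al.TP

open HN

universe u

theorem tp_of_pair {G : Type u} [Group G] {C B A : Subgroup G} (hCB : C ≤ B) (hBA : B ≤ A)
    (hi : (B.subgroupOf A).FiniteIndex) (hA : SAC A)
    (h : B = C ∨ ∃ (F : Type u) (_ : Group F) (_ : IsFreeGroup F) (ρ : B →* F),
      ∀ b : B, (b : G) ∈ C → ρ b = 1 → b = 1) :
    TP (Subgroup.inclusion (hCB.trans hBA)) := by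
  have : (Subgroup.inclusion hBA).range.FiniteIndex := by rwa [Subgroup.inclusion_range]
  have h1 := tp_of_finiteIndex _ (Subgroup.inclusion_injective hBA) hA
  rcases h with rfl | ⟨F, _, _, ρ, hρ⟩
  · exact h1
  · exact tp_comp (Subgroup.inclusion_injective hBA)
      (tp_of_hom (Subgroup.inclusion hCB) ρ
        (fun c hc => Subgroup.inclusion_injective hCB ((hρ _ c.2 hc).trans (map_one _).symm))
        (hA.of_injective _ (Subgroup.inclusion_injective hBA))) h1

end Pool.Agent.P.MP_0f25e6_al.TP
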