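import Pool.Agent.P.MP_0f25e6_al.TP8

/-!
The combination theorem for finitely many simplicial trees.
-/

set_option autoImplicit false

open MulAction

namespace Pool.Agent.P.MP_0f25e6_al.TP

open HN

universe u

theorem adm_comap {G : Type u} [Group G] (K : Subgroup G) {C A : Subgroup G}
    (h : ∃ B : Subgroup G, C ≤ B ∧ B ≤ A ∧ (B.subgroupOf A).FiniteIndex ∧
      (B = C ∨ ∃ (F : Type u) (_ : Group F) (_ : IsFreeGroup F) (ρ : B →* F),
        ∀ b : B, (b : G) ∈ C → ρ b = 1 → b = 1)) :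
    ∃ B : Subgroup K, C.subgroupOf K ≤ B ∧ B ≤ A.subgroupOf K ∧
      (B.subgroupOf (A.subgroupOf K)).FiniteIndex ∧
      (B = C.subgroupOf K ∨ ∃ (F : Type u) (_ : Group F) (_ : IsFreeGroup F) (ρ : B →* F),
        ∀ b : B, (b : K) ∈ C.subgroupOf K → ρ b = 1 → b = 1) := by
  obtain ⟨B, h1, h2, h3, h4⟩ := h
  refine ⟨B.subgroupOf K, Subgroup.comap_mono h1, Subgroup.comap_mono h2, ?_, ?_⟩
  · let φ : A.subgroupOf K →* A :=
      (K.subtype.comp (A.subgroupOf K).subtype).codRestrict A (fun x => x.2)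
    have : (B.subgroupOf K).subgroupOf (A.subgroupOf K) = (B.subgroupOf A).comap φ := by
      ext x; rfl
    rw [this]
    refine ⟨?_⟩
    rw [Subgroup.index_comap]
    exact Subgroup.FiniteIndex.index_ne_zero
  · rcases h4 with rfl | ⟨F, _, _, ρ, hρ⟩
    · exact Or.inl rfl
    · let ψ : B.subgroupOf K →* B :=
        (K.subtype.comp (B.subgroupOf K).subtype).codRestrict B (fun x => x.2)
      refine Or.inr ⟨F, inferInstance, inferInstance, ρ.comp ψ, fun b hb h1 => ?_⟩
      have := hρ (ψ b) hb h1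
      have h2 : ((ψ b : B) : G) = 1 := congrArg Subtype.val this
      exact Subtype.ext (Subtype.ext h2)

theorem sac_of_trees_adm (n : ℕ) : ∀ (G : Type u) [Group G] (V : Fin n → Type u)
    [∀ i, MulAction G (V i)] (T : ∀ i, SimpleGraph (V i)), (∀ i, (T i).IsTree) →
    (∀ i (g : G) u v, (T i).Adj u v → (T i).Adj (g • u) (g • v)) →
    (∀ i u v, (T i).Adj u v → ∃ B : Subgroup G, stabilizer G u ⊓ stabilizer G v ≤ B ∧
      B ≤ stabilizer G u ∧ (B.subgroupOf (stabilizer G u)).FiniteIndex ∧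
      (B = stabilizer G u ⊓ stabilizer G v ∨
        ∃ (F : Type u) (_ : Group F) (_ : IsFreeGroup F) (ρ : B →* F),
        ∀ b : B, (b : G) ∈ stabilizer G u ⊓ stabilizer G v → ρ b = 1 → b = 1)) →
    (∀ H : Subgroup G, (∀ i, ∃ u v, (u = v ∨ (T i).Adj u v) ∧
      ∀ h ∈ H, s(h • u, h • v) = s(u, v)) → SAC H) → SAC G := by
  induction n with
  | zero =>
    intro G _ V _ T _ _ _ hst
    exact (hst ⊤ (fun i => i.elim0)).of_injective
      (Subgroup.topEquiv (G := G)).symm.toMonoidHom (Subgroup.topEquiv (G := G)).symm.injective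
  | succ n ih =>
    intro G _ V _ T hT hadj hadm hst
    have key : ∀ (K : Subgroup G) (u v : V 0), u = v ∨ (T 0).Adj u v →
        (∀ h ∈ K, s(h • u, h • v) = s(u, v)) → SAC K := by
      intro K u v huv hK
      refine ih K (fun i => V i.succ) (fun i => T i.succ) (fun i => hT _)
        (fun i g => hadj _ (g : G)) (fun i a b hab => adm_comap K (hadm _ a b hab))
        (fun H hH => ?_)
      refine (hst (H.map K.subtype) (fun i => ?_)).of_injective
        (H.equivMapOfInjective K.subtype K.subtype_injective : H →* H.map K.subtype)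
        (H.equivMapOfInjective K.subtype K.subtype_injective).injective
      refine Fin.cases ⟨u, v, huv, ?_⟩ (fun i => ?_) i
      · rintro _ ⟨k, -, rfl⟩
        exact hK k k.2
      · obtain ⟨a, b, hab, h⟩ := hH i
        refine ⟨a, b, hab, ?_⟩
        rintro _ ⟨k, hk, rfl⟩
        exact h k hk
    refine sac_of_graph_tp (hT 0) (hadj 0) (fun u v huv => ?_) key
    obtain ⟨B, h1, h2, h3, h4⟩ := hadm 0 u v huv
    exact tp_of_pair h1 h2 h3
      (key _ u u (Or.inl rfl) fun h hh => by rw [mem_stabilizer_iff.1 hh]) h4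

end Pool.Agent.P.MP_0f25e6_al.TP
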