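import Pool.Agent.P.MP_0f25e6_al.Ops

/-!
Orthogonal projections onto closures of subspaces of a Hilbert space.
-/

set_option autoImplicit false

open scoped InnerProductSpace ENNReal Topology
open Filter

noncomputable section

namespace Pool.Agent.P.MP_0f25e6_al.TT

variable {E : Type*} [NormedAddCommGroup E] [InnerProductSpace ℂ E] [CompleteSpace E]

theorem oo_eq {X : Submodule ℂ E} (h : IsClosed (X : Set E)) : Xᗮᗮ = X := by
  rw [Submodule.orthogonal_orthogonal_eq_closure, h.submodule_topologicalClosure_eq]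

theorem mem_oo_iff {X : Submodule ℂ E} {v : E} : v ∈ Xᗮᗮ ↔ v ∈ closure (X : Set E) := by
  rw [Submodule.orthogonal_orthogonal_eq_closure]
  rfl

theorem oo_le {X Y : Submodule ℂ E} (h : X ≤ Y) (hY : IsClosed (Y : Set E)) : Xᗮᗮ ≤ Y := by
  rw [← oo_eq hY]
  exact Submodule.orthogonal_orthogonal_monotone h

/-- A bounded operator mapping `X` into `Y` maps the closure of `X` into that of `Y`. -/
theorem map_oo {F : Type*} [NormedAddCommGroup F] [InnerProductSpace ℂ F] [CompleteSpace F]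
    {X : Submodule ℂ E} {Y : Submodule ℂ F} (T : E →L[ℂ] F) (h : ∀ v ∈ X, T v ∈ Yᗮᗮ)
    {v : E} (hv : v ∈ Xᗮᗮ) : T v ∈ Yᗮᗮ := by
  have : Xᗮᗮ ≤ Yᗮᗮ.comap (T : E →ₗ[ℂ] F) :=
    oo_le (fun v hv => h v hv) ((Submodule.isClosed_orthogonal _).preimage T.continuous)
  exact this hv

/-- The orthogonal projection onto the closure of `X`. -/
def proj (X : Submodule ℂ E) : E →L[ℂ] E := Xᗮᗮ.starProjection

theorem proj_mem (X : Submodule ℂ E) (v : E) : proj X v ∈ Xᗮᗮ :=
  Submodule.starProjection_apply_mem _ _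

theorem proj_mem' {X : Submodule ℂ E} (h : IsClosed (X : Set E)) (v : E) : proj X v ∈ X := by
  have := proj_mem X v
  rwa [oo_eq h] at this

theorem sub_proj_mem (X : Submodule ℂ E) (v : E) : v - proj X v ∈ Xᗮ := by
  have := Submodule.sub_starProjection_mem_orthogonal (K := Xᗮᗮ) v
  rwa [Submodule.triorthogonal_eq_orthogonal] at this

theorem proj_eq {X : Submodule ℂ E} {u v : E} (hu : u ∈ Xᗮᗮ) (h : v - u ∈ Xᗮ) : proj X v = u :=
  Submodule.eq_starProjection_of_mem_orthogonal hu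
    (by rwa [Submodule.triorthogonal_eq_orthogonal])

theorem proj_of_mem {X : Submodule ℂ E} {v : E} (h : v ∈ Xᗮᗮ) : proj X v = v :=
  proj_eq h (by simp)

theorem proj_of_mem' {X : Submodule ℂ E} {v : E} (h : v ∈ X) : proj X v = v :=
  proj_of_mem (X.le_orthogonal_orthogonal h)

theorem proj_of_mem_orth {X : Submodule ℂ E} {v : E} (h : v ∈ Xᗮ) : proj X v = 0 :=
  proj_eq (Submodule.zero_mem _) (by simpa using h)

theorem inner_proj_left (X : Submodule ℂ E) (u v : E) : ⟪proj X u, v⟫_ℂ = ⟪u, proj X v⟫_ℂ :=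
  Submodule.inner_starProjection_left_eq_right _ _ _

theorem proj_proj (X : Submodule ℂ E) (v : E) : proj X (proj X v) = proj X v :=
  proj_of_mem (proj_mem X v)

theorem norm_proj_le (X : Submodule ℂ E) (v : E) : ‖proj X v‖ ≤ ‖v‖ :=
  Submodule.norm_starProjection_apply_le _ _

theorem proj_orth (X : Submodule ℂ E) (v : E) : proj Xᗮ v = v - proj X v :=
  proj_eq (Xᗮ.le_orthogonal_orthogonal (sub_proj_mem X v)) (by simpa using proj_mem X v)

theorem proj_oo (X : Submodule ℂ E) : proj Xᗮᗮ = proj X := by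
  ext1 v
  rw [proj_orth, proj_orth, sub_sub_cancel]

theorem mem_orth_of_proj_eq_zero {X : Submodule ℂ E} {v : E} (h : proj X v = 0) : v ∈ Xᗮ := by
  simpa [h] using sub_proj_mem X v

/-- An operator preserving `X` whose adjoint also preserves `X` commutes with the projection. -/
theorem proj_comm {F : Type*} [NormedAddCommGroup F] [InnerProductSpace ℂ F] [CompleteSpace F]
    {X : Submodule ℂ E} {Y : Submodule ℂ F} (T : E →L[ℂ] F) (S : F →L[ℂ] E)
    (hST : ∀ u v, ⟪u, T v⟫_ℂ = ⟪S u, v⟫_ℂ) (hT : ∀ v ∈ X, T v ∈ Yᗮᗮ) (hS : ∀ v ∈ Y, S v ∈ Xᗮᗮ)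
    (v : E) : proj Y (T v) = T (proj X v) := by
  refine proj_eq (map_oo T hT (proj_mem X v)) ?_
  rw [← map_sub, Submodule.mem_orthogonal]
  intro u hu
  rw [hST]
  exact Submodule.inner_left_of_mem_orthogonal (sub_proj_mem X v) (hS u hu)

/-- The squared norm of the projection. -/
def pn (X : Submodule ℂ E) (v : E) : ℝ := ‖proj X v‖ ^ 2

theorem pn_nonneg (X : Submodule ℂ E) (v : E) : 0 ≤ pn X v := sq_nonneg _

theorem pn_le (X : Submodule ℂ E) (v : E) : pn X v ≤ ‖v‖ ^ 2 :=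
  pow_le_pow_left₀ (norm_nonneg _) (norm_proj_le X v) 2

theorem pn_oo (X : Submodule ℂ E) (v : E) : pn Xᗮᗮ v = pn X v := by rw [pn, proj_oo, pn]

theorem re_inner_proj (X : Submodule ℂ E) (v : E) : (⟪v, proj X v⟫_ℂ).re = pn X v := by
  have : ⟪v, proj X v⟫_ℂ = ⟪proj X v, proj X v⟫_ℂ := by
    rw [inner_proj_left, proj_proj]
  rw [this, inner_self_eq_norm_sq_to_K, pn]
  norm_cast

omit [CompleteSpace E] in
theorem re_inner_self (v : E) : (⟪v, v⟫_ℂ).re = ‖v‖ ^ 2 := by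
  rw [inner_self_eq_norm_sq_to_K]
  norm_cast

theorem pn_add_pn_orth (X : Submodule ℂ E) (v : E) : pn X v + pn Xᗮ v = ‖v‖ ^ 2 := by
  rw [← re_inner_proj, ← re_inner_proj, proj_orth, inner_sub_right, Complex.sub_re,
    re_inner_self]
  ring

theorem le_pn {X : Submodule ℂ E} (v : E) {w : E} (hw : w ∈ Xᗮᗮ) :
    2 * (⟪v, w⟫_ℂ).re - ‖w‖ ^ 2 ≤ pn X v := by
  have h1 : ⟪v, w⟫_ℂ = ⟪proj X v, w⟫_ℂ := by rw [inner_proj_left, proj_of_mem hw]
  have h2 := @norm_sub_sq ℂ _ _ _ _ (proj X v) w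
  rw [h1, pn]
  have h3 : RCLike.re ⟪proj X v, w⟫_ℂ = (⟪proj X v, w⟫_ℂ).re := rfl
  nlinarith [sq_nonneg ‖proj X v - w‖]

theorem pn_mono {X Y : Submodule ℂ E} (h : X ≤ Yᗮᗮ) (v : E) : pn X v ≤ pn Y v := by
  have h1 := le_pn v (oo_le h (Submodule.isClosed_orthogonal _) (proj_mem X v))
  rw [re_inner_proj] at h1
  rw [pn] at h1 ⊢
  linarith

theorem pn_mono' {X Y : Submodule ℂ E} (h : X ≤ Y) (v : E) : pn X v ≤ pn Y v :=
  pn_mono (h.trans Y.le_orthogonal_orthogonal) v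

theorem exists_approx (X : Submodule ℂ E) (v : E) {η : ℝ} (hη : 0 < η) :
    ∃ w ∈ X, pn X v - η ≤ 2 * (⟪v, w⟫_ℂ).re - ‖w‖ ^ 2 := by
  have hc : Continuous fun w : E => 2 * (⟪v, w⟫_ℂ).re - ‖w‖ ^ 2 := by fun_prop
  have hopen : IsOpen {w : E | pn X v - η < 2 * (⟪v, w⟫_ℂ).re - ‖w‖ ^ 2} :=
    isOpen_lt continuous_const hc
  have hmem : proj X v ∈ {w : E | pn X v - η < 2 * (⟪v, w⟫_ℂ).re - ‖w‖ ^ 2} := by
    change pn X v - η < 2 * (⟪v, proj X v⟫_ℂ).re - ‖proj X v‖ ^ 2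
    rw [re_inner_proj, pn]
    linarith
  obtain ⟨w, hw1, hw2⟩ := mem_closure_iff.1 (mem_oo_iff.1 (proj_mem X v)) _ hopen hmem
  exact ⟨w, hw2, le_of_lt hw1⟩

theorem proj_inf_orth {X Y : Submodule ℂ E} (hX : IsClosed (X : Set E)) (h : Y ≤ X) (v : E) :
    proj (X ⊓ Yᗮ) v = proj X v - proj Y v := by
  have hYX : proj Y v ∈ X := oo_le h hX (proj_mem Y v)
  refine proj_eq (Submodule.le_orthogonal_orthogonal _ ⟨X.sub_mem (proj_mem' hX v) hYX, ?_⟩) ?_
  · have : proj X v - proj Y v = (v - proj Y v) - (v - proj X v) := by abel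
    rw [this]
    exact Yᗮ.sub_mem (sub_proj_mem Y v) (Submodule.orthogonal_le h (sub_proj_mem X v))
  · have : v - (proj X v - proj Y v) = (v - proj X v) + proj Y v := by abel
    rw [this]
    refine Submodule.add_mem _ (Submodule.orthogonal_le inf_le_left (sub_proj_mem X v)) ?_
    exact Submodule.orthogonal_le inf_le_right (proj_mem Y v)

theorem pn_inf_orth {X Y : Submodule ℂ E} (hX : IsClosed (X : Set E)) (h : Y ≤ X) (v : E) :
    pn (X ⊓ Yᗮ) v = pn X v - pn Y v := by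
  rw [← re_inner_proj, proj_inf_orth hX h, inner_sub_right, Complex.sub_re, re_inner_proj,
    re_inner_proj]

theorem pn_eq_zero_iff {X : Submodule ℂ E} {v : E} : pn X v = 0 ↔ v ∈ Xᗮ := by
  rw [pn, pow_eq_zero_iff two_ne_zero, norm_eq_zero]
  exact ⟨mem_orth_of_proj_eq_zero, proj_of_mem_orth⟩

theorem mem_oo_of_pn {X : Submodule ℂ E} {v : E} (h : ‖v‖ ^ 2 ≤ pn X v) : v ∈ Xᗮᗮ := by
  rw [← pn_eq_zero_iff]
  linarith [pn_add_pn_orth X v, pn_nonneg Xᗮ v]

theorem tendsto_pn_iSup (X : ℕ → Submodule ℂ E) (hX : Monotone X) (v : E) :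
    Tendsto (fun n => pn (X n) v) atTop (𝓝 (pn (⨆ n, X n) v)) := by
  have h := Submodule.starProjection_tendsto_closure_iSup (fun n => (X n)ᗮᗮ)
    (fun a b hab => Submodule.orthogonal_orthogonal_monotone (hX hab)) v
  have h2 : (⨆ n, (X n)ᗮᗮ).topologicalClosure.starProjection v = proj (⨆ n, X n) v := by
    symm
    refine proj_eq ?_ ?_
    · have h3 : (⨆ n, (X n)ᗮᗮ).topologicalClosure ≤ (⨆ n, X n)ᗮᗮ :=
        Submodule.topologicalClosure_minimal _
          (iSup_le fun n => Submodule.orthogonal_orthogonal_monotone (le_iSup X n))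
          (Submodule.isClosed_orthogonal _)
      exact h3 (Submodule.starProjection_apply_mem _ _)
    · refine Submodule.orthogonal_le ?_ (Submodule.sub_starProjection_mem_orthogonal v)
      exact (iSup_mono fun n => (X n).le_orthogonal_orthogonal).trans
        (Submodule.le_topologicalClosure _)
  rw [h2] at h
  exact (h.norm).pow 2

theorem tendsto_pn_iInf (X : ℕ → Submodule ℂ E) (hX : Antitone X)
    (hc : ∀ n, IsClosed (X n : Set E)) (v : E) :
    Tendsto (fun n => pn (X n) v) atTop (𝓝 (pn (⨅ n, X n) v)) := by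
  have h := tendsto_pn_iSup (fun n => (X n)ᗮ) (fun a b hab => Submodule.orthogonal_le (hX hab)) v
  have h1 : (⨅ n, X n) = (⨆ n, (X n)ᗮ)ᗮ := by
    rw [← Submodule.iInf_orthogonal]
    exact iInf_congr fun n => (oo_eq (hc n)).symm
  have h2 : pn (⨅ n, X n) v = ‖v‖ ^ 2 - pn (⨆ n, (X n)ᗮ) v := by
    rw [h1, ← pn_add_pn_orth (⨆ n, (X n)ᗮ) v]
    ring
  rw [h2]
  refine (h.const_sub (‖v‖ ^ 2)).congr fun n => ?_
  rw [← pn_add_pn_orth (X n) v]
  ring

omit [CompleteSpace E] in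
/-- A closed subspace containing all terms of a convergent series contains its sum. -/
theorem mem_of_hasSum {ι : Type*} {X : Submodule ℂ E} (hX : IsClosed (X : Set E)) {f : ι → E}
    {v : E} (h : HasSum f v) (hf : ∀ i, f i ∈ X) : v ∈ X :=
  hX.mem_of_tendsto h (Eventually.of_forall fun _ => X.sum_mem fun i _ => hf i)

end Pool.Agent.P.MP_0f25e6_al.TT
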