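import Pool.Agent.P.MP_0f25e6_al.TT9

/-!
First order expansion of the deformation: if the deformations move one induced subspace into another
up to a dimension proportional to the density of the walls, the total defect is finite.
-/

set_option autoImplicit false

open scoped InnerProductSpace ENNReal Topology
open Filter

noncomputable section

namespace Pool.Agent.P.MP_0f25e6_al.TT

theorem norm_res_le {X : Type*} (A : Set X) (v : L2 X) : ‖res A v‖ ≤ ‖v‖ := by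
  have := (res A).le_of_opNorm_le (c := 1) (LinearMap.mkContinuous_norm_le _ zero_le_one _) v
  rwa [one_mul] at this

theorem tendsto_zero_of_delta {X F : Type*} [NormedAddCommGroup F] [NormedSpace ℂ F]
    (T : ℕ → L2 X →L[ℂ] F) {C : ℝ} (hC : 0 < C) (h : ∀ m v, ‖T m v‖ ≤ C * ‖v‖)
    (hδ : ∀ i, Tendsto (fun m => T m (delta i)) atTop (𝓝 0)) (v : L2 X) :
    Tendsto (fun m => T m v) atTop (𝓝 0) := by
  rw [Metric.tendsto_nhds]
  intro ε hε
  obtain ⟨s, hs⟩ := (Metric.tendsto_nhds.1 (hasSum_delta v) (ε / (2 * C)) (by positivity)).exists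
  have h1 : Tendsto (fun m => T m (∑ i ∈ s, v i • delta i)) atTop (𝓝 0) := by
    have := tendsto_finsetSum s fun i _ => (hδ i).const_smul (v i)
    simpa using this
  filter_upwards [Metric.tendsto_nhds.1 h1 (ε / 2) (by positivity)] with m hm
  rw [dist_zero_right] at hm ⊢
  rw [dist_comm, dist_eq_norm] at hs
  have h2 : T m v = T m (v - ∑ i ∈ s, v i • delta i) + T m (∑ i ∈ s, v i • delta i) := by
    rw [← map_add, sub_add_cancel]
  have h3 : C * ‖v - ∑ i ∈ s, v i • delta i‖ < ε / 2 := by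
    rw [lt_div_iff₀ (by positivity)] at hs
    linarith
  rw [h2]
  linarith [norm_add_le (T m (v - ∑ i ∈ s, v i • delta i)) (T m (∑ i ∈ s, v i • delta i)),
    h m (v - ∑ i ∈ s, v i • delta i)]

variable {G Γ I W K V : Type*} [Group G] [Group Γ] {π : Γ →* G} [MulAction G W] [MulAction G V]
  {σ : G →* Γ} {hσ : Function.Injective σ}

omit [MulAction G W] [MulAction G V] in
theorem pull_R_extn_of_ne (hπσ : ∀ g, π (σ g) = g) {n : Γ} (hn : π n = 1) (hne : n ≠ 1)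
    (θ : L2 (G × I)) : pull σ hσ (R n (extn σ hσ θ)) = 0 := by
  refine pull_R_extn_of_notMem θ ?_
  rintro ⟨g, rfl⟩
  rw [hπσ] at hn
  exact hne (by rw [hn, map_one])

namespace Def

section One

variable [Group K] [Fintype K] (D : Def π W K)

theorem pull_A_extn (hπσ : ∀ g, π (σ g) = g) (e : W) (θ : L2 (G × I)) :
    pull σ hσ (D.A I e (extn σ hσ θ)) = (Fintype.card K : ℂ)⁻¹ • θ := by
  rw [A_def, map_smul, map_sum, Finset.sum_eq_single 1]
  · rw [map_one, R_one, pull_extn]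
  · exact fun k _ hk => pull_R_extn_of_ne hπσ (D.π_s e k) (fun h => hk (D.inj e k h)) θ
  · simp

theorem pull_A_A_extn (hπσ : ∀ g, π (σ g) = g) {e e' : W} (h : e ≠ e') (θ : L2 (G × I)) :
    pull σ hσ (D.A I e (D.A I e' (extn σ hσ θ))) =
      (Fintype.card K : ℂ)⁻¹ • (Fintype.card K : ℂ)⁻¹ • θ := by
  have key : ∀ k k', k ≠ 1 ∨ k' ≠ 1 →
      pull σ hσ (R (D.s e k) (R (D.s e' k') (extn σ hσ θ))) = 0 := by
    intro k k' hk
    rw [R_R]
    refine pull_R_extn_of_ne hπσ (by rw [map_mul, D.π_s, D.π_s, mul_one]) (fun h1 => ?_) θ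
    have := D.indep e e' k k' h h1
    tauto
  rw [A_def, map_smul, map_sum, Finset.sum_eq_single 1]
  · rw [map_one, R_one, pull_A_extn D hπσ]
  · intro k _ hk
    rw [A_def, map_smul, map_smul, map_sum, map_sum,
      Finset.sum_eq_zero fun k' _ => key k k' (Or.inl hk), smul_zero]
  · simp

theorem inner_A_A_same (hπσ : ∀ g, π (σ g) = g) (e : W) (u v : L2 (G × I)) :
    ⟪D.A I e (extn σ hσ u), D.A I e (extn σ hσ v)⟫_ℂ = (Fintype.card K : ℂ)⁻¹ * ⟪u, v⟫_ℂ := by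
  rw [← inner_A, A_A, ← inner_pull, D.pull_A_extn hπσ, inner_smul_right]

theorem inner_A_A_ne (hπσ : ∀ g, π (σ g) = g) {e e' : W} (h : e ≠ e') (u v : L2 (G × I)) :
    ⟪D.A I e (extn σ hσ u), D.A I e' (extn σ hσ v)⟫_ℂ =
      (Fintype.card K : ℂ)⁻¹ * ((Fintype.card K : ℂ)⁻¹ * ⟪u, v⟫_ℂ) := by
  rw [← inner_A, ← inner_pull, D.pull_A_A_extn hπσ h, inner_smul_right, inner_smul_right]

theorem norm_A_extn (hπσ : ∀ g, π (σ g) = g) (e : W) (v : L2 (G × I)) :
    √(Fintype.card K) * ‖D.A I e (extn σ hσ v)‖ = ‖v‖ := by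
  have hm : (0 : ℝ) < Fintype.card K := Nat.cast_pos.2 Fintype.card_pos
  have h := congrArg Complex.re (D.inner_A_A_same (hσ := hσ) hπσ e v v)
  rw [re_inner_self, ← Complex.ofReal_natCast, ← Complex.ofReal_inv, Complex.re_ofReal_mul,
    re_inner_self] at h
  refine (pow_left_inj₀ (by positivity) (norm_nonneg _) two_ne_zero).1 ?_
  rw [mul_pow, Real.sq_sqrt hm.le, h, mul_inv_cancel_left₀ hm.ne']

theorem norm_A_A_extn (hπσ : ∀ g, π (σ g) = g) {e e' : W} (h : e ≠ e') (v : L2 (G × I)) :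
    ‖D.A I e (D.A I e' (extn σ hσ v))‖ = (Fintype.card K : ℝ)⁻¹ * ‖v‖ := by
  have h1 : ⟪D.A I e (D.A I e' (extn σ hσ v)), D.A I e (D.A I e' (extn σ hσ v))⟫_ℂ =
      ⟪D.A I e (extn σ hσ v), D.A I e' (extn σ hσ v)⟫_ℂ := by
    rw [← inner_A, A_A, ← inner_A, D.A_comm e' e, A_A, inner_A]
  have h2 := congrArg Complex.re (h1.trans (D.inner_A_A_ne hπσ h v v))
  rw [re_inner_self, ← Complex.ofReal_natCast, ← Complex.ofReal_inv, Complex.re_ofReal_mul,
    Complex.re_ofReal_mul, re_inner_self] at h2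
  refine (pow_left_inj₀ (norm_nonneg _) (by positivity) two_ne_zero).1 ?_
  rw [h2]
  ring

theorem norm_Bp_sub (hπσ : ∀ g, π (σ g) = g) {e : W} (S : Finset W) (he : e ∉ S)
    (v : L2 (G × I)) : ‖D.Bp I S (D.A I e (extn σ hσ v)) - D.A I e (extn σ hσ v)‖ ≤
      S.card * (2 * ((Fintype.card K : ℝ)⁻¹ * ‖v‖)) := by
  classical
  induction S using Finset.induction_on with
  | empty => simp [Bp_empty]
  | insert a S ha ih =>
    have h1 : a ≠ e := fun h => he (h ▸ Finset.mem_insert_self _ _)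
    have h2 := ih fun h => he (Finset.mem_insert_of_mem h)
    set x := D.A I e (extn σ hσ v)
    have h3 : D.Bp I (insert a S) x - x = D.U I a (D.Bp I S x - x) - (2 : ℂ) • D.A I a x := by
      rw [D.Bp_insert_apply ha, map_sub, D.U_def a x]
      abel
    rw [h3, Finset.card_insert_of_notMem ha]
    refine (norm_sub_le _ _).trans ?_
    rw [norm_U, norm_smul, D.norm_A_A_extn hπσ h1, Complex.norm_two]
    push_cast
    linarith

variable (𝒲 : Walls G V W) (v₀ : V)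

theorem A_J (e : W) (ζ : L2 (Γ × I)) : D.J I 𝒲 v₀ (D.A I e ζ) = D.A I e (D.J I 𝒲 v₀ ζ) := by
  refine D.comm_A _ _ _ (fun k ζ => ?_) ζ
  have h : 𝒲.S v₀ (π (D.s e k) • v₀) = ∅ := by
    ext e'
    simpa [D.π_s] using 𝒲.notMem_S_self e' v₀
  rw [J_R, h]
  rfl

variable (σ hσ I) in
/-- The error in the first order expansion. -/
def err (e : W) : L2 (G × I) →L[ℂ] L2 (Γ × I) :=
  D.J I 𝒲 v₀ ∘L D.A I e ∘L extn σ hσ - D.A I e ∘L extn σ hσ ∘L (1 - (2 : ℂ) • 𝒲.Q v₀ I v₀ e)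

theorem err_def (e : W) (θ : L2 (G × I)) : D.err I σ hσ 𝒲 v₀ e θ =
    D.J I 𝒲 v₀ (D.A I e (extn σ hσ θ)) -
      D.A I e (extn σ hσ (θ - (2 : ℂ) • 𝒲.Q v₀ I v₀ e θ)) := rfl

theorem A_err (e : W) (θ : L2 (G × I)) :
    D.A I e (D.err I σ hσ 𝒲 v₀ e θ) = D.err I σ hσ 𝒲 v₀ e θ := by
  rw [err_def, map_sub, ← A_J, A_A, A_A]

theorem norm_err_le (hπσ : ∀ g, π (σ g) = g) (e : W) (θ : L2 (G × I)) :
    √(Fintype.card K) * ‖D.err I σ hσ 𝒲 v₀ e θ‖ ≤ 4 * ‖θ‖ := by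
  rw [err_def]
  refine (mul_le_mul_of_nonneg_left (norm_sub_le _ _) (Real.sqrt_nonneg _)).trans ?_
  rw [mul_add, norm_J, D.norm_A_extn hπσ, D.norm_A_extn hπσ]
  have h1 := norm_sub_le θ ((2 : ℂ) • 𝒲.Q v₀ I v₀ e θ)
  have h2 : ‖𝒲.Q v₀ I v₀ e θ‖ ≤ ‖θ‖ := norm_res_le _ _
  rw [norm_smul, Complex.norm_two] at h1
  linarith

theorem norm_err_delta (hπσ : ∀ g, π (σ g) = g) (e : W) (g : G) (c : I) :
    ‖D.err I σ hσ 𝒲 v₀ e (delta (g, c))‖ ≤
      (𝒲.S v₀ (g⁻¹ • v₀)).card * (2 * (Fintype.card K : ℝ)⁻¹) := by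
  classical
  have h1 : Fb π (Prod.fst ⁻¹' {g}) (D.A I e (extn σ hσ (delta (g, c)))) =
      D.A I e (extn σ hσ (delta (g, c))) := by
    rw [Fb_A, extn_delta, Fb, res_delta_of_mem]
    simp [hπσ]
  rw [err_def, D.J_of_fibre 𝒲 v₀ h1]
  by_cases he : e ∈ 𝒲.S v₀ (g⁻¹ • v₀)
  · have h2 : 𝒲.Q v₀ I v₀ e (delta (g, c)) = delta (g, c) := res_delta_of_mem he
    have h3 := D.norm_Bp_sub (hσ := hσ) hπσ _ (Finset.notMem_erase e (𝒲.S v₀ (g⁻¹ • v₀)))
      (delta (g, c))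
    rw [norm_delta, mul_one] at h3
    set x := D.A I e (extn σ hσ (delta (g, c))) with hx
    have h4 : D.Bp I (𝒲.S v₀ (g⁻¹ • v₀)) x = - D.Bp I ((𝒲.S v₀ (g⁻¹ • v₀)).erase e) x := by
      conv_lhs => rw [← Finset.insert_erase he]
      rw [D.Bp_insert_apply (Finset.notMem_erase _ _), U_def, A_Bp, hx, A_A]
      module
    have h5 : D.A I e (extn σ hσ (delta (g, c) - (2 : ℂ) • delta (g, c))) = - x := by
      rw [map_sub, map_sub, map_smul, map_smul]
      module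
    rw [h2, h4, h5, neg_sub_neg, norm_sub_rev]
    refine h3.trans (mul_le_mul_of_nonneg_right ?_ (by positivity))
    exact Nat.cast_le.2 Finset.card_erase_le
  · have h2 : 𝒲.Q v₀ I v₀ e (delta (g, c)) = 0 := res_delta_of_notMem he
    have h3 := D.norm_Bp_sub (hσ := hσ) hπσ _ he (delta (g, c))
    rw [norm_delta, mul_one] at h3
    rwa [h2, smul_zero, sub_zero]

end One

end Def

end Pool.Agent.P.MP_0f25e6_al.TT
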