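import Pool.Agent.P.MP_0f25e6_al.TT10

/-!
The limit of small density: a bound for the total defect.
-/

set_option autoImplicit false

open scoped InnerProductSpace ENNReal Topology
open Filter

noncomputable section

namespace Pool.Agent.P.MP_0f25e6_al.TT

variable {G Γ I W V : Type*} [Group G] [Group Γ] {π : Γ →* G} [MulAction G W] [MulAction G V]
  {σ : G →* Γ} {hσ : Function.Injective σ} {K : ℕ → Type*} [∀ m, Group (K m)]
  [∀ m, Fintype (K m)] (D : ∀ m, Def π W (K m)) (𝒲 : Walls G V W) (v₀ : V)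

theorem tendsto_err (hπσ : ∀ g, π (σ g) = g)
    (hK : Tendsto (fun m => (Fintype.card (K m) : ℝ)) atTop atTop) (e : W) (θ : L2 (G × I)) :
    Tendsto (fun m => √(Fintype.card (K m)) * ‖(D m).err I σ hσ 𝒲 v₀ e θ‖) atTop (𝓝 0) := by
  have hn : ∀ m (v : L2 (G × I)), ‖(((√(Fintype.card (K m)) : ℝ) : ℂ) •
      (D m).err I σ hσ 𝒲 v₀ e) v‖ = √(Fintype.card (K m)) * ‖(D m).err I σ hσ 𝒲 v₀ e v‖ := by
    intro m v
    rw [smul_apply, norm_smul, Complex.norm_real,
      Real.norm_of_nonneg (Real.sqrt_nonneg _)]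
  have h := tendsto_zero_of_delta
    (fun m => ((√(Fintype.card (K m)) : ℝ) : ℂ) • (D m).err I σ hσ 𝒲 v₀ e) (C := 4) (by norm_num)
    (fun m v => by rw [hn]; exact (D m).norm_err_le 𝒲 v₀ hπσ e v) (by
      rintro ⟨g, c⟩
      rw [tendsto_zero_iff_norm_tendsto_zero]
      have h1 : Tendsto (fun m => ((𝒲.S v₀ (g⁻¹ • v₀)).card * 2 : ℝ) *
          (√(Fintype.card (K m)))⁻¹) atTop (𝓝 0) := by
        simpa using (Real.tendsto_sqrt_atTop.comp hK).inv_tendsto_atTop.const_mul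
          ((𝒲.S v₀ (g⁻¹ • v₀)).card * 2 : ℝ)
      refine squeeze_zero (fun _ => norm_nonneg _) (fun m => ?_) h1
      rw [hn]
      refine (mul_le_mul_of_nonneg_left ((D m).norm_err_delta 𝒲 v₀ hπσ e g c)
        (Real.sqrt_nonneg _)).trans (le_of_eq ?_)
      have hm : (0 : ℝ) < Fintype.card (K m) := Nat.cast_pos.2 Fintype.card_pos
      have h2 := Real.sqrt_pos.2 hm
      conv_lhs => rw [← Real.mul_self_sqrt hm.le, Real.sqrt_mul_self h2.le]
      field_simp) θ
  rw [tendsto_zero_iff_norm_tendsto_zero] at h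
  simpa only [hn] using h

theorem tendsto_main (hπσ : ∀ g, π (σ g) = g)
    (hK : Tendsto (fun m => (Fintype.card (K m) : ℝ)) atTop atTop) (E : Finset W)
    (w : W → L2 (G × I)) (r : ℕ → W → L2 (Γ × I)) (hr : ∀ m e, (D m).A I e (r m e) = r m e)
    (hr' : ∀ e, Tendsto (fun m => √(Fintype.card (K m)) * ‖r m e‖) atTop (𝓝 0))
    (u : L2 (G × I)) :
    Tendsto (fun m => (Fintype.card (K m) : ℝ) *
      (2 * (⟪extn σ hσ u, ∑ e ∈ E, ((D m).A I e (extn σ hσ (w e)) + r m e)⟫_ℂ).re -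
        ‖∑ e ∈ E, ((D m).A I e (extn σ hσ (w e)) + r m e)‖ ^ 2)) atTop
      (𝓝 (∑ e ∈ E, (2 * (⟪u, w e⟫_ℂ).re - ‖w e‖ ^ 2))) := by
  classical
  have hm : ∀ m, (0 : ℝ) < Fintype.card (K m) := fun m => Nat.cast_pos.2 Fintype.card_pos
  have t1 : ∀ e, Tendsto (fun m => (Fintype.card (K m) : ℝ) *
      (⟪extn σ hσ u, (D m).A I e (extn σ hσ (w e)) + r m e⟫_ℂ).re) atTop
      (𝓝 (⟪u, w e⟫_ℂ).re) := by
    intro e
    have h1 : Tendsto (fun m => (Fintype.card (K m) : ℝ) * (⟪extn σ hσ u, r m e⟫_ℂ).re) atTop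
        (𝓝 0) := by
      refine squeeze_zero_norm (fun m => ?_) (by simpa using (hr' e).const_mul ‖u‖)
      rw [← hr m e, (D m).inner_A, hr m e, norm_mul, Real.norm_of_nonneg (hm m).le,
        ← (D m).norm_A_extn (hσ := hσ) hπσ e u]
      have h2 := (Complex.abs_re_le_norm _).trans
        (norm_inner_le_norm (𝕜 := ℂ) ((D m).A I e (extn σ hσ u)) (r m e))
      refine (mul_le_mul_of_nonneg_left h2 (hm m).le).trans (le_of_eq ?_)
      conv_lhs => rw [← Real.mul_self_sqrt (hm m).le]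
      ring
    have h3 := h1.const_add (⟪u, w e⟫_ℂ).re
    rw [add_zero] at h3
    refine h3.congr fun m => ?_
    rw [inner_add_right, Complex.add_re, mul_add, ← inner_pull u ((D m).A I e _),
      (D m).pull_A_extn hπσ,
      inner_smul_right, ← Complex.ofReal_natCast, ← Complex.ofReal_inv, Complex.re_ofReal_mul,
      mul_inv_cancel_left₀ (hm m).ne']
  have t2 : Tendsto (fun m => (Fintype.card (K m) : ℝ) *
      ‖∑ e ∈ E, (D m).A I e (extn σ hσ (w e))‖ ^ 2) atTop (𝓝 (∑ e ∈ E, ‖w e‖ ^ 2)) := by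
    have h1 : ∀ e ∈ E, Tendsto (fun m => ∑ e' ∈ E, (Fintype.card (K m) : ℝ) *
        (⟪(D m).A I e (extn σ hσ (w e)), (D m).A I e' (extn σ hσ (w e'))⟫_ℂ).re) atTop
        (𝓝 (‖w e‖ ^ 2)) := by
      intro e he
      have h2 : ‖w e‖ ^ 2 = ∑ e' ∈ E, if e = e' then ‖w e‖ ^ 2 else 0 := by simp [he]
      rw [h2]
      refine tendsto_finsetSum _ fun e' _ => ?_
      split_ifs with h
      · subst h
        refine tendsto_const_nhds.congr fun m => ?_
        rw [(D m).inner_A_A_same hπσ, ← Complex.ofReal_natCast, ← Complex.ofReal_inv,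
          Complex.re_ofReal_mul, mul_inv_cancel_left₀ (hm m).ne', re_inner_self]
      · have h3 := hK.inv_tendsto_atTop.mul_const (⟪w e, w e'⟫_ℂ).re
        rw [zero_mul] at h3
        refine h3.congr fun m => ?_
        rw [(D m).inner_A_A_ne hπσ h, ← Complex.ofReal_natCast, ← Complex.ofReal_inv,
          Complex.re_ofReal_mul, Complex.re_ofReal_mul, mul_inv_cancel_left₀ (hm m).ne']
        rfl
    refine (tendsto_finsetSum E h1).congr fun m => ?_
    rw [← re_inner_self, sum_inner, Complex.re_sum, Finset.mul_sum]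
    refine Finset.sum_congr rfl fun e _ => ?_
    rw [inner_sum, Complex.re_sum, Finset.mul_sum]
  have t3 : Tendsto (fun m => √(Fintype.card (K m)) * ‖∑ e ∈ E, r m e‖) atTop (𝓝 0) := by
    refine squeeze_zero (fun m => by positivity) (fun m => ?_)
      (by simpa using tendsto_finsetSum E fun e _ => hr' e)
    rw [← Finset.mul_sum]
    exact mul_le_mul_of_nonneg_left (norm_sum_le _ _) (Real.sqrt_nonneg _)
  have t4 : Tendsto (fun m => √(Fintype.card (K m)) *
      ‖∑ e ∈ E, (D m).A I e (extn σ hσ (w e))‖) atTop (𝓝 √(∑ e ∈ E, ‖w e‖ ^ 2)) := by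
    refine t2.sqrt.congr fun m => ?_
    rw [Real.sqrt_mul (hm m).le, Real.sqrt_sq (norm_nonneg _)]
  have t5 : Tendsto (fun m => √(Fintype.card (K m)) *
      ‖∑ e ∈ E, ((D m).A I e (extn σ hσ (w e)) + r m e)‖) atTop (𝓝 √(∑ e ∈ E, ‖w e‖ ^ 2)) := by
    refine t4.congr_dist (squeeze_zero (fun _ => dist_nonneg) (fun m => ?_) t3)
    rw [Real.dist_eq, ← mul_sub, abs_mul, abs_of_nonneg (Real.sqrt_nonneg _),
      Finset.sum_add_distrib]
    refine mul_le_mul_of_nonneg_left ((abs_norm_sub_norm_le _ _).trans (le_of_eq ?_))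
      (Real.sqrt_nonneg _)
    rw [sub_add_cancel_left, norm_neg]
  have t6 := t5.pow 2
  rw [Real.sq_sqrt (Finset.sum_nonneg fun _ _ => sq_nonneg _)] at t6
  have t7 := ((tendsto_finsetSum E fun e _ => t1 e).const_mul 2).sub t6
  rw [Finset.sum_sub_distrib, ← Finset.mul_sum]
  refine t7.congr fun m => ?_
  rw [mul_pow, Real.sq_sqrt (hm m).le, inner_sum, Complex.re_sum, ← Finset.mul_sum]
  ring

theorem mass_ZE_le [Fintype I] (hπσ : ∀ g, π (σ g) = g)
    (hK : Tendsto (fun m => (Fintype.card (K m) : ℝ)) atTop atTop)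
    {X Y : Submodule ℂ (L2 (G × I))} (hXc : IsClosed (X : Set (L2 (G × I)))) (hX : Inv X)
    (hYc : IsClosed (Y : Set (L2 (G × I)))) (hXY : X ≤ Y) {κ : ℝ}
    (h : ∀ m, dim (Ind σ hσ X) - dim (Ind σ hσ X ⊓ (D m).Jm 𝒲 v₀ (Ind σ hσ Y)) ≤
      κ * (Fintype.card (K m) : ℝ)⁻¹) :
    mass (𝒲.ZE v₀ X Y) ≤ ENNReal.ofReal κ := by
  have hm : ∀ m, (0 : ℝ) < Fintype.card (K m) := fun m => Nat.cast_pos.2 Fintype.card_pos
  let T : W → L2 (G × I) →L[ℂ] L2 (G × I) := fun e => proj X ∘L (1 - (2 : ℂ) • 𝒲.Q v₀ I v₀ e)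
  have hT : ∀ e θ, T e θ = proj X (θ - (2 : ℂ) • 𝒲.Q v₀ I v₀ e θ) := fun _ _ => rfl
  have key : ∀ (E : Finset W) (θ : I → W → L2 (G × I)), (∀ c e, θ c e ∈ Yᗮ) →
      ∑ c, ∑ e ∈ E, (2 * (⟪delta ((1 : G), c), T e (θ c e)⟫_ℂ).re - ‖T e (θ c e)‖ ^ 2) ≤ κ := by
    intro E θ hθ
    have hlim := tendsto_finsetSum Finset.univ fun c _ =>
      tendsto_main (hσ := hσ) D hπσ hK E (fun e => T e (θ c e))
        (fun m e => proj (Ind σ hσ X) ((D m).err I σ hσ 𝒲 v₀ e (θ c e)))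
        (fun m e => by
          rw [← (D m).comm_A e e _ (fun k ζ => (inv_Ind X).proj_R _ ζ), (D m).A_err])
        (fun e => squeeze_zero (fun m => by positivity)
          (fun m => mul_le_mul_of_nonneg_left (norm_proj_le _ _) (Real.sqrt_nonneg _))
          (tendsto_err D 𝒲 v₀ hπσ hK e (θ c e))) (delta (1, c))
    refine le_of_tendsto' hlim fun m => ?_
    have h1 := h m
    rw [← dim_inf_orth (isClosed_Ind hXc) inf_le_left, ← div_eq_mul_inv, le_div_iff₀ (hm m),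
      mul_comm] at h1
    rw [← Finset.mul_sum]
    refine le_trans (mul_le_mul_of_nonneg_left (Finset.sum_le_sum fun c _ => ?_) (hm m).le) h1
    rw [extn_delta, map_one]
    refine le_pn _ (Submodule.le_orthogonal_orthogonal _ (Submodule.sum_mem _ fun e _ => ?_))
    have h2 : (D m).A I e (extn σ hσ (T e (θ c e))) +
        proj (Ind σ hσ X) ((D m).err I σ hσ 𝒲 v₀ e (θ c e)) =
        proj (Ind σ hσ X) ((D m).J I 𝒲 v₀ ((D m).A I e (extn σ hσ (θ c e)))) := by
      rw [Def.err_def, map_sub, (D m).comm_A e e _ (fun k ζ => (inv_Ind X).proj_R _ ζ),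
        proj_Ind_extn hXc hX, hT]
      abel
    rw [h2]
    refine ⟨proj_mem' (isClosed_Ind hXc) _, (Submodule.mem_orthogonal _ _).2 fun u hu => ?_⟩
    rw [← inner_proj_left, proj_of_mem' hu.1, Def.inner_J]
    exact Submodule.inner_right_of_mem_orthogonal hu.2
      ((D m).A_mem (inv_Ind Y).orth e (extn_mem_Ind_orth (hθ c e)))
  have hdense : ∀ e, 𝒲.ZE v₀ X Y e ≤ (Yᗮ.map (T e).toLinearMap)ᗮᗮ := by
    intro e z hz
    rw [Submodule.mem_orthogonal]
    intro u hu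
    have h1 : proj X u - (2 : ℂ) • 𝒲.Q v₀ I v₀ e (proj X u) ∈ Y := by
      rw [← oo_eq hYc, Submodule.mem_orthogonal']
      intro θ hθ
      have h2 : ⟪u, T e θ⟫_ℂ = 0 := 
        Submodule.inner_left_of_mem_orthogonal (Submodule.mem_map_of_mem hθ) hu
      rw [hT, ← inner_proj_left, inner_sub_right, inner_smul_right, Walls.Q, inner_Pr] at h2
      rw [inner_sub_left, inner_smul_left, Walls.Q, ← h2]
      simp [map_ofNat]
    have h2 : proj X u ∈ 𝒲.XE v₀ X Y e := by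
      refine ⟨proj_mem' hXc u, ?_⟩
      rw [Y.sub_mem_iff_right (hXY (proj_mem' hXc u)), Y.smul_mem_iff two_ne_zero] at h1
      exact h1
    rw [← proj_of_mem' hz.1, ← inner_proj_left]
    exact Submodule.inner_right_of_mem_orthogonal h2 hz.2
  rw [mass, ENNReal.tsum_eq_iSup_sum]
  refine iSup_le fun E => ?_
  simp only [← ENNReal.ofReal_sum_of_nonneg fun _ _ => pn_nonneg _ _]
  rw [← ENNReal.ofReal_sum_of_nonneg fun _ _ => Finset.sum_nonneg fun _ _ => pn_nonneg _ _]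
  refine ENNReal.ofReal_le_ofReal (le_of_forall_pos_le_add fun η hη => ?_)
  set N : ℝ := Fintype.card I * E.card + 1 with hN
  have hN0 : 0 < N := by positivity
  choose w hw hw' using fun (c : I) (e : W) =>
    exists_approx (Yᗮ.map (T e).toLinearMap) (delta ((1 : G), c)) (div_pos hη hN0)
  choose θ hθ hθ' using hw
  have h1 := key E θ hθ
  have h2 : ∑ c, ∑ e ∈ E, (pn (𝒲.ZE v₀ X Y e) (delta ((1 : G), c)) - η / N) ≤ κ := by
    refine le_trans (Finset.sum_le_sum fun c _ => Finset.sum_le_sum fun e _ => ?_) h1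
    rw [show T e (θ c e) = w c e from hθ' c e]
    linarith [hw' c e, pn_mono (hdense e) (delta ((1 : G), c))]
  simp only [Finset.sum_sub_distrib, Finset.sum_const, Finset.card_univ, nsmul_eq_mul] at h2
  rw [Finset.sum_comm]
  have h3 : Fintype.card I * (E.card * (η / N)) ≤ η := by
    rw [← mul_assoc, ← mul_div_assoc, div_le_iff₀ hN0, hN]
    nlinarith
  linarith

end Pool.Agent.P.MP_0f25e6_al.TT
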