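import Pool.Agent.P.MP_0f25e6_al.TT11

/-!
The support lemma, and the descent of maximisers from the extension to the group.
-/

set_option autoImplicit false

open scoped InnerProductSpace ENNReal Topology
open Filter

noncomputable section

namespace Pool.Agent.P.MP_0f25e6_al.TT

variable {G Γ I W V E : Type*} [Group G] [Group Γ] [MulAction G W] [MulAction G V] [MulAction G E]

theorem Loc.Pr_mem {d : I → E} {X : Submodule ℂ (L2 (G × I))} (h : Loc (fun ε => Pr G d {ε}) X)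
    (A : Set E) {ζ : L2 (G × I)} (hζ : ζ ∈ X) : Pr G d A ζ ∈ X :=
  res_preimage_mem (loc d) h.closed h.stable A hζ

/-- The support lemma. -/
theorem exists_support [Fintype I] (d : I → E) {F₀ F₁ : Submodule ℂ (L2 (G × I))}
    (h₀c : IsClosed (F₀ : Set (L2 (G × I)))) (h₀ : Inv F₀)
    (h₁c : IsClosed (F₁ : Set (L2 (G × I)))) (h₁ : Inv F₁)
    (hcut : ∀ ε : E, ∃ A : Set E, ε ∉ A ∧ (∀ ζ ∈ F₀, Pr G d A ζ ∈ F₀) ∧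
      ∀ ζ ∈ F₁, Pr G d (Aᶜ \ {ε}) ζ ∈ F₁) :
    ∃ X, Loc (fun ε => Pr G d {ε}) X ∧ dim (F₀ ⊓ F₁) ≤ phi F₀ F₁ 0 X := by
  classical
  let X₀ : Submodule ℂ (L2 (G × I)) := ⨆ ε, (F₀ ⊓ F₁).map (Pr G d {ε}).toLinearMap
  have hmem : ∀ ε, ∀ ζ ∈ F₀ ⊓ F₁, Pr G d {ε} ζ ∈ X₀ := fun ε ζ hζ =>
    Submodule.mem_iSup_of_mem ε (Submodule.mem_map_of_mem hζ)
  have key : ∀ (T : L2 (G × I) →L[ℂ] L2 (G × I)) (Y : Submodule ℂ (L2 (G × I))),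
      (∀ ε, ∀ ζ ∈ F₀ ⊓ F₁, T (Pr G d {ε} ζ) ∈ Y) → ∀ ζ ∈ X₀, T ζ ∈ Y := by
    intro T Y h ζ hζ
    have : X₀ ≤ Y.comap T.toLinearMap := iSup_le fun ε => by
      rintro _ ⟨ξ, hξ, rfl⟩
      exact h ε ξ hξ
    exact this hζ
  have hX : Loc (fun ε => Pr G d {ε}) X₀ᗮᗮ := by
    refine loc_oo (fun y => key _ _ fun ε ζ hζ => ?_) fun ε' => key _ _ fun ε ζ hζ => ?_
    · rw [R_Pr_singleton]
      exact hmem _ _ ((h₀.inf h₁) y ζ hζ)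
    · rw [Pr_Pr]
      by_cases h : ε' = ε
      · rw [h, Set.inter_self]
        exact hmem _ _ hζ
      · rw [Set.singleton_inter_eq_empty.2 (show ε' ∉ ({ε} : Set E) from h), Pr, Set.preimage_empty, res_empty]
        exact X₀.zero_mem
  have hK : F₀ ⊓ F₁ ≤ X₀ᗮᗮ := fun ζ hζ =>
    mem_of_hasSum hX.closed (hasSum_res_fiber (loc d) ζ) fun ε =>
      X₀.le_orthogonal_orthogonal (hmem ε ζ hζ)
  have h1 : X₀ ≤ F₀ ⊓ X₀ᗮᗮ ⊔ F₁ ⊓ X₀ᗮᗮ := key 1 _ fun ε ζ hζ => by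
    obtain ⟨A, hA, hA₀, hA₁⟩ := hcut ε
    have e1 : (1 : L2 (G × I) →L[ℂ] L2 (G × I)) (Pr G d {ε} ζ) =
        (ζ - Pr G d A ζ) + - Pr G d (Aᶜ \ {ε}) ζ := by
      ext ⟨x, c⟩
      by_cases h1 : x⁻¹ • d c = ε
      · simp [Pr_apply, h1, hA]
      · by_cases h2 : x⁻¹ • d c ∈ A <;> simp [Pr_apply, h1, h2]
    rw [e1]
    refine Submodule.add_mem_sup (Submodule.sub_mem _ ⟨hζ.1, hK hζ⟩ ⟨hA₀ ζ hζ.1, ?_⟩)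
      (Submodule.neg_mem _ ⟨hA₁ ζ hζ.2, ?_⟩) <;> exact hX.Pr_mem _ (hK hζ)
  refine ⟨_, hX, ?_⟩
  have h2 := dim_sup_add_dim_inf (h₀c.inter hX.closed) (h₁c.inter hX.closed) (h₀.inf hX.inv)
    (h₁.inf hX.inv)
  have h3 := dim_mono' h1
  have h4 : dim (F₀ ⊓ F₁) ≤ dim (F₀ ⊓ X₀ᗮᗮ ⊓ (F₁ ⊓ X₀ᗮᗮ)) :=
    dim_mono' (le_inf (le_inf inf_le_left hK) (le_inf inf_le_right hK))
  rw [phi, dim_oo]
  linarith

theorem phi_zero_le [Fintype I] {F₀ F₁ X : Submodule ℂ (L2 (G × I))}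
    (h₀c : IsClosed (F₀ : Set (L2 (G × I)))) (h₀ : Inv F₀)
    (h₁c : IsClosed (F₁ : Set (L2 (G × I)))) (h₁ : Inv F₁)
    (hXc : IsClosed (X : Set (L2 (G × I)))) (hX : Inv X) : phi F₀ F₁ 0 X ≤ dim (F₀ ⊓ F₁) := by
  have h2 := dim_sup_add_dim_inf (h₀c.inter hXc) (h₁c.inter hXc) (h₀.inf hX) (h₁.inf hX)
  have h3 : dim (F₀ ⊓ X ⊔ F₁ ⊓ X) ≤ dim X := dim_mono' (sup_le inf_le_right inf_le_right)
  have h4 : dim (F₀ ⊓ X ⊓ (F₁ ⊓ X)) ≤ dim (F₀ ⊓ F₁) :=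
    dim_mono' (inf_le_inf inf_le_left inf_le_left)
  rw [phi]
  linarith

theorem phi_Ind [Fintype I] {ι : G →* Γ} {hι : Function.Injective ι}
    {F₀ F₁ X : Submodule ℂ (L2 (G × I))}
    (h₀c : IsClosed (F₀ : Set (L2 (G × I)))) (h₀ : Inv F₀)
    (h₁c : IsClosed (F₁ : Set (L2 (G × I)))) (h₁ : Inv F₁)
    (hXc : IsClosed (X : Set (L2 (G × I)))) (hX : Inv X) (t : ℝ) :
    phi (Ind ι hι F₀) (Ind ι hι F₁) t (Ind ι hι X) = phi F₀ F₁ t X := by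
  rw [phi, phi, ← Ind_inf, ← Ind_inf, dim_Ind (h₀c.inter hXc) (h₀.inf hX),
    dim_Ind (h₁c.inter hXc) (h₁.inf hX), dim_Ind hXc hX]

/-- A split extension with two self-embeddings meeting in the complement, and with independent
finite subgroups attached to the walls. -/
structure Ext (G Γ W : Type*) [Group G] [Group Γ] [MulAction G W] where
  π : Γ →* G
  σ : G →* Γ
  πσ : ∀ g, π (σ g) = g
  j : Bool → Γ →* Γ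
  j_inj : ∀ r, Function.Injective (j r)
  π_j : ∀ r x, π (j r x) = π x
  j_σ : ∀ r g, j r (σ g) = σ g
  meet : ∀ y y', j false y = j true y' → y ∈ σ.range ∧ y' ∈ σ.range
  D : ∀ m : ℕ, Def π W (Multiplicative (ZMod (m + 1)))

namespace Ext

variable (𝓔 : Ext G Γ W)

theorem σ_inj : Function.Injective 𝓔.σ := Function.LeftInverse.injective 𝓔.πσ

/-- Restriction to one location, in the extension. -/
def Pl (d : I → E) (ε : E) : L2 (Γ × I) →L[ℂ] L2 (Γ × I) := Fb 𝓔.π (loc d ⁻¹' {ε})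

theorem R_P (d : I → E) (ε : E) (y : Γ) (ζ : L2 (Γ × I)) :
    R y (𝓔.Pl d ε ζ) = 𝓔.Pl d (𝓔.π y • ε) (R y ζ) :=
  R_Fb y (fun g c => by simp [loc, mul_smul, inv_smul_eq_iff]) ζ

theorem pull_σ_P (d : I → E) (ε : E) (ζ : L2 (Γ × I)) :
    pull 𝓔.σ 𝓔.σ_inj (𝓔.Pl d ε ζ) = Pr G d {ε} (pull 𝓔.σ 𝓔.σ_inj ζ) := by
  ext ⟨x, c⟩
  by_cases h : (x, c) ∈ loc d ⁻¹' {ε}
  · rw [pull_apply, Pl, Fb_apply_of_mem _ (by rwa [𝓔.πσ]), Pr, res_apply_of_mem _ h, pull_apply]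
  · rw [pull_apply, Pl, Fb_apply_of_notMem _ (by rwa [𝓔.πσ]), Pr, res_apply_of_notMem _ h]

theorem pull_j_P (r : Bool) (d : I → E) (ε : E) (ζ : L2 (Γ × I)) :
    pull (𝓔.j r) (𝓔.j_inj r) (𝓔.Pl d ε ζ) = 𝓔.Pl d ε (pull (𝓔.j r) (𝓔.j_inj r) ζ) := by
  ext ⟨x, c⟩
  by_cases h : (𝓔.π x, c) ∈ loc d ⁻¹' {ε}
  · rw [pull_apply, Pl, Fb_apply_of_mem _ (by rwa [𝓔.π_j]), Fb_apply_of_mem _ h, pull_apply]
  · rw [pull_apply, Pl, Fb_apply_of_notMem _ (by rwa [𝓔.π_j]), Fb_apply_of_notMem _ h]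

theorem loc_Ind {d : I → E} {X : Submodule ℂ (L2 (G × I))} (h : Loc (fun ε => Pr G d {ε}) X) :
    Loc (𝓔.Pl d) (Ind 𝓔.σ 𝓔.σ_inj X) :=
  ⟨isClosed_Ind h.closed, inv_Ind _, fun ε ζ hζ => mem_Ind.2 fun y => by
    rw [R_P, pull_σ_P]
    exact h.stable _ _ (mem_Ind.1 hζ y)⟩

theorem loc_Ind_j (r : Bool) {d : I → E} {X : Submodule ℂ (L2 (Γ × I))} (h : Loc (𝓔.Pl d) X) :
    Loc (𝓔.Pl d) (Ind (𝓔.j r) (𝓔.j_inj r) X) :=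
  ⟨isClosed_Ind h.closed, inv_Ind _, fun ε ζ hζ => mem_Ind.2 fun y => by
    rw [R_P, pull_j_P]
    exact h.stable _ _ (mem_Ind.1 hζ y)⟩

theorem Ind_j_Ind (r : Bool) (X : Submodule ℂ (L2 (G × I))) :
    Ind (𝓔.j r) (𝓔.j_inj r) (Ind 𝓔.σ 𝓔.σ_inj X) = Ind 𝓔.σ 𝓔.σ_inj X := by
  rw [Ind_Ind]
  congr 1
  exact MonoidHom.ext (𝓔.j_σ r)

/-- The closure of the restriction of a subspace to the complement. -/
def down (X : Submodule ℂ (L2 (Γ × I))) : Submodule ℂ (L2 (G × I)) :=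
  (X.map (pull 𝓔.σ 𝓔.σ_inj).toLinearMap)ᗮᗮ

theorem loc_down {d : I → E} {X : Submodule ℂ (L2 (Γ × I))} (h : Loc (𝓔.Pl d) X) :
    Loc (fun ε => Pr G d {ε}) (𝓔.down X) := by
  refine loc_oo ?_ ?_
  · rintro g _ ⟨ζ, hζ, rfl⟩
    exact ⟨R (𝓔.σ g) ζ, h.inv _ _ hζ, (R_pull g ζ).symm⟩
  · rintro ε _ ⟨ζ, hζ, rfl⟩
    exact ⟨𝓔.Pl d ε ζ, h.stable _ _ hζ, 𝓔.pull_σ_P d ε ζ⟩

theorem le_Ind_down {X : Submodule ℂ (L2 (Γ × I))} (h : Inv X) :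
    X ≤ Ind 𝓔.σ 𝓔.σ_inj (𝓔.down X) := fun ζ hζ => mem_Ind.2 fun y =>
  Submodule.le_orthogonal_orthogonal _ (Submodule.mem_map_of_mem (h y ζ hζ))

theorem pull_extn_j (ζ : L2 (Γ × I)) :
    pull (𝓔.j true) (𝓔.j_inj true) (extn (𝓔.j false) (𝓔.j_inj false) ζ) =
      extn 𝓔.σ 𝓔.σ_inj (pull 𝓔.σ 𝓔.σ_inj ζ) := by
  ext ⟨y, c⟩
  by_cases hy : y ∈ 𝓔.σ.range
  · obtain ⟨g, rfl⟩ := hy
    rw [pull_apply, extn_apply, pull_apply, 𝓔.j_σ, ← 𝓔.j_σ false, extn_apply, 𝓔.j_σ]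
  · rw [pull_apply, extn_apply_of_notMem _ hy, extn_apply_of_notMem]
    rintro ⟨z, hz⟩
    exact hy (𝓔.meet z y hz).2

theorem Ind_down_le [Fintype I] {d : I → E} {F₀ F₁ : Submodule ℂ (L2 (G × I))}
    (h₀c : IsClosed (F₀ : Set (L2 (G × I)))) (h₁c : IsClosed (F₁ : Set (L2 (G × I))))
    {s t : ℝ} (hst : s < t) {X Y : Submodule ℂ (L2 (Γ × I))}
    (hX : Loc (𝓔.Pl d) X) (hY : Loc (𝓔.Pl d) Y)
    (hXm : ∀ Z, Loc (𝓔.Pl d) Z → phi (Ind 𝓔.σ 𝓔.σ_inj F₀) (Ind 𝓔.σ 𝓔.σ_inj F₁) t Z ≤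
      phi (Ind 𝓔.σ 𝓔.σ_inj F₀) (Ind 𝓔.σ 𝓔.σ_inj F₁) t X)
    (hYm : ∀ Z, Loc (𝓔.Pl d) Z → phi (Ind 𝓔.σ 𝓔.σ_inj F₀) (Ind 𝓔.σ 𝓔.σ_inj F₁) s Z ≤
      phi (Ind 𝓔.σ 𝓔.σ_inj F₀) (Ind 𝓔.σ 𝓔.σ_inj F₁) s Y) :
    Ind 𝓔.σ 𝓔.σ_inj (𝓔.down X) ≤ Y := by
  have hphi : ∀ (r : Bool) (u : ℝ) (Z : Submodule ℂ (L2 (Γ × I))), Loc (𝓔.Pl d) Z →
      phi (Ind 𝓔.σ 𝓔.σ_inj F₀) (Ind 𝓔.σ 𝓔.σ_inj F₁) u (Ind (𝓔.j r) (𝓔.j_inj r) Z) =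
        phi (Ind 𝓔.σ 𝓔.σ_inj F₀) (Ind 𝓔.σ 𝓔.σ_inj F₁) u Z := by
    intro r u Z hZ
    conv_lhs => rw [← 𝓔.Ind_j_Ind r F₀, ← 𝓔.Ind_j_Ind r F₁]
    exact phi_Ind (isClosed_Ind h₀c) (inv_Ind _) (isClosed_Ind h₁c) (inv_Ind _) hZ.closed hZ.inv u
  have hX' := 𝓔.loc_Ind_j false hX
  have hY' := 𝓔.loc_Ind_j true hY
  have h1 := near_max (η := 0) (isClosed_Ind h₀c) (inv_Ind _) (isClosed_Ind h₁c) (inv_Ind _) hX' hY'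
    (fun Z hZ => by rw [hphi _ _ _ hX]; exact hXm Z hZ)
    (fun Z hZ => by rw [hphi _ _ _ hY, add_zero]; exact hYm Z hZ)
  have h2 := (le_of_dim_le hX'.closed (hX'.inf hY').closed hX'.inv (hX'.inf hY').inv inf_le_left
    (by nlinarith [sub_pos.2 hst])).trans inf_le_right
  refine Ind_le (𝓔.loc_down hX).closed (𝓔.loc_down hX).inv hY.closed hY.inv fun v hv => ?_
  rw [← oo_eq hY.closed]
  refine map_oo _ ?_ hv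
  rintro _ ⟨ζ, hζ, rfl⟩
  have h3 := pull_mem_of_mem_Ind (h2 (extn_mem_Ind hX.inv hζ))
  rw [pull_extn_j] at h3
  exact Y.le_orthogonal_orthogonal h3

end Ext

end Pool.Agent.P.MP_0f25e6_al.TT
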