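import Pool.Agent.P.MP_0f25e6_al.TT12

/-!
The abstract integrality theorem.
-/

set_option autoImplicit false

open scoped InnerProductSpace ENNReal Topology
open Filter

noncomputable section

namespace Pool.Agent.P.MP_0f25e6_al.TT

variable {G Γ I W V E : Type*} [Group G] [Group Γ] [MulAction G W] [MulAction G V] [MulAction G E]
  [Fintype I]

theorem codim_mono {X X' Y Y' : Submodule ℂ (L2 (Γ × I))} (hX'c : IsClosed (X' : Set (L2 (Γ × I))))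
    (hX' : Inv X') (hXc : IsClosed (X : Set (L2 (Γ × I)))) (hX : Inv X)
    (hYc : IsClosed (Y : Set (L2 (Γ × I)))) (hY : Inv Y) (h : X' ≤ X) (h' : Y ≤ Y') :
    dim X' - dim (X' ⊓ Y') ≤ dim X - dim (X ⊓ Y) := by
  have h1 := dim_sup_add_dim_inf hX'c (hXc.inter hYc) hX' (hX.inf hY)
  have h2 : dim (X' ⊔ X ⊓ Y) ≤ dim X := dim_mono' (sup_le h inf_le_left)
  have h3 : dim (X' ⊓ (X ⊓ Y)) ≤ dim (X' ⊓ Y') :=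
    dim_mono' (inf_le_inf_left _ (inf_le_right.trans h'))
  linarith

omit [Fintype I] in
theorem exists_finset_walls (𝒲 : Walls G V W) (v₀ : V) {𝓡 : Set (G × I →₀ ℂ)} (h : 𝓡.Finite) :
    ∃ C : Finset (I × W), ∀ ρ ∈ 𝓡, ∀ i ∈ ρ.support, ∀ e ∈ 𝒲.S (i.1 • v₀) v₀, (i.2, e) ∈ C := by
  classical
  refine ⟨h.toFinset.biUnion fun ρ => ρ.support.biUnion fun i =>
    (𝒲.S (i.1 • v₀) v₀).image fun e => (i.2, e), fun ρ hρ i hi e he => ?_⟩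
  exact Finset.mem_biUnion.2 ⟨ρ, h.mem_toFinset.2 hρ,
    Finset.mem_biUnion.2 ⟨i, hi, Finset.mem_image_of_mem _ he⟩⟩

theorem tendsto_card_zmod :
    Tendsto (fun m : ℕ => (Fintype.card (Multiplicative (ZMod (m + 1))) : ℝ)) atTop atTop := by
  simp only [Fintype.card_multiplicative, ZMod.card]
  exact tendsto_natCast_atTop_atTop.comp (tendsto_add_atTop_nat 1)

theorem int_of_block (𝓔 : Ext G Γ W) (𝒲 : Walls G V W) (v₀ : V) {d : I → E}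
    {𝓡 : Set (G × I →₀ ℂ)} (hfin : 𝓡.Finite) {B : Type*} [MulAction G B] (β : E → B)
    (hβ : ∀ (g : G) ε, β (g • ε) = g • β ε) (hb : ∀ b, ∀ ζ ∈ Sol 𝓡, Pr G (β ∘ d) {b} ζ ∈ Sol 𝓡)
    (hV : ∀ c (v : V), Free G (β (d c), v)) (hW : ∀ c (e : W), Free G (β (d c), e))
    {X : Submodule ℂ (L2 (G × I))} (hX : Loc (fun ε => Pr G d {ε}) X) {κ : ℝ}
    (h : ∀ m, dim (Ind 𝓔.σ 𝓔.σ_inj X) -
      dim (Ind 𝓔.σ 𝓔.σ_inj X ⊓ (𝓔.D m).Jm 𝒲 v₀ (Ind 𝓔.σ 𝓔.σ_inj X)) ≤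
        κ * (Fintype.card (Multiplicative (ZMod (m + 1))) : ℝ)⁻¹) :
    ∃ N : ℤ, dim (Sol 𝓡 ⊓ X) = N := by
  obtain ⟨C, hC⟩ := exists_finset_walls 𝒲 v₀ hfin
  have hL : Loc (fun b => Pr G (β ∘ d) {b}) (Sol 𝓡 ⊓ X) := by
    refine ⟨(isClosed_Sol 𝓡).inter hX.closed, (inv_Sol 𝓡).inf hX.inv,
      fun b ζ hζ => ⟨hb b ζ hζ.1, ?_⟩⟩
    have : Pr G (β ∘ d) {b} = Pr G d (β ⁻¹' {b}) := by
      rw [Pr, Pr]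
      congr 1
      ext i
      simp [loc, hβ]
    rw [this]
    exact hX.Pr_mem _ hζ.2
  have hm := mass_ZE_le (hσ := 𝓔.σ_inj) 𝓔.D 𝒲 v₀ 𝓔.πσ tendsto_card_zmod hL.closed hL.inv hL.closed
    le_rfl (κ := κ + C.card) fun m => by
      have a0 := isClosed_Ind (hι := 𝓔.σ_inj) hX.closed
      have a0' := isClosed_Ind (hι := 𝓔.σ_inj) hL.closed
      have a1 := codim_mono a0' (inv_Ind _) a0 (inv_Ind _) ((𝓔.D m).isClosed_Jm 𝒲 v₀ a0)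
        ((𝓔.D m).inv_Jm 𝒲 v₀ (inv_Ind _)) (Ind_mono inf_le_right) le_rfl
      have a2 := (𝓔.D m).dim_inf_Jm_ge 𝒲 v₀ 𝓔.πσ C hC (a0'.inter ((𝓔.D m).isClosed_Jm 𝒲 v₀ a0))
        ((inv_Ind _).inf ((𝓔.D m).inv_Jm 𝒲 v₀ (inv_Ind _)))
        (inf_le_left.trans (Ind_mono inf_le_left))
        (Y := Ind 𝓔.σ 𝓔.σ_inj (Sol 𝓡 ⊓ X) ⊓ (𝓔.D m).Jm 𝒲 v₀ (Ind 𝓔.σ 𝓔.σ_inj (Sol 𝓡 ⊓ X)))
        fun ζ hζ hJ => ⟨hζ.1, by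
          rw [SetLike.mem_coe, Def.mem_Jm, Ind_inf]
          exact ⟨hJ, hζ.2⟩⟩
      linarith [h m]
  obtain ⟨N, h1, h2⟩ := Walls.exists_int_between hL hL le_rfl hV hW
    (ne_top_of_le_ne_top ENNReal.ofReal_ne_top hm)
  exact ⟨N, le_antisymm h1 h2⟩

theorem main_int (𝓔 : Ext G Γ W) (𝒲 : Walls G V W) (v₀ : V) (d : I → E)
    {𝓡₀ 𝓡₁ : Set (G × I →₀ ℂ)} (hfin₀ : 𝓡₀.Finite) (hfin₁ : 𝓡₁.Finite)
    (hcut : ∀ ε : E, ∃ A : Set E, ε ∉ A ∧ (∀ ζ ∈ Sol 𝓡₀, Pr G d A ζ ∈ Sol 𝓡₀) ∧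
      ∀ ζ ∈ Sol 𝓡₁, Pr G d (Aᶜ \ {ε}) ζ ∈ Sol 𝓡₁)
    {B₀ : Type*} [MulAction G B₀] (β₀ : E → B₀) (hβ₀ : ∀ (g : G) ε, β₀ (g • ε) = g • β₀ ε)
    (hb₀ : ∀ b, ∀ ζ ∈ Sol 𝓡₀, Pr G (β₀ ∘ d) {b} ζ ∈ Sol 𝓡₀)
    (hV₀ : ∀ c (v : V), Free G (β₀ (d c), v)) (hW₀ : ∀ c (e : W), Free G (β₀ (d c), e))
    {B₁ : Type*} [MulAction G B₁] (β₁ : E → B₁) (hβ₁ : ∀ (g : G) ε, β₁ (g • ε) = g • β₁ ε)
    (hb₁ : ∀ b, ∀ ζ ∈ Sol 𝓡₁, Pr G (β₁ ∘ d) {b} ζ ∈ Sol 𝓡₁)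
    (hV₁ : ∀ c (v : V), Free G (β₁ (d c), v)) (hW₁ : ∀ c (e : W), Free G (β₁ (d c), e)) :
    ∃ N : ℤ, dim (Sol 𝓡₀ ⊓ Sol 𝓡₁) = N := by
  obtain ⟨C, hC⟩ := exists_finset_walls 𝒲 v₀ (hfin₀.union hfin₁)
  have hV : ∀ c (v : V), Free G (d c, v) := fun c v g hg => hV₀ c v g (by
    rw [Prod.smul_mk, Prod.mk.injEq] at hg ⊢
    exact ⟨by rw [← hβ₀, hg.1], hg.2⟩)
  have hW : ∀ c (e : W), Free G (d c, e) := fun c v g hg => hW₀ c v g (by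
    rw [Prod.smul_mk, Prod.mk.injEq] at hg ⊢
    exact ⟨by rw [← hβ₀, hg.1], hg.2⟩)
  set F₀ := Ind 𝓔.σ 𝓔.σ_inj (Sol 𝓡₀) with hF₀
  set F₁ := Ind 𝓔.σ 𝓔.σ_inj (Sol 𝓡₁) with hF₁
  have h₀c : IsClosed (F₀ : Set (L2 (Γ × I))) := isClosed_Ind (isClosed_Sol _)
  have h₁c : IsClosed (F₁ : Set (L2 (Γ × I))) := isClosed_Ind (isClosed_Sol _)
  have h₀ : Inv F₀ := inv_Ind _
  have h₁ : Inv F₁ := inv_Ind _
  let t : ℕ → ℝ := fun n => 1 / ((n : ℝ) + 1)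
  have ht0 : ∀ n, 0 ≤ t n := fun n => by positivity
  have hta : ∀ {n n'}, n < n' → t n' < t n := fun h =>
    one_div_lt_one_div_of_lt (by positivity) (by exact_mod_cast Nat.succ_lt_succ h)
  choose X hX hXm using fun n => exists_max (P := 𝓔.Pl d) h₀c h₀ h₁c h₁ (ht0 n)
  let D : ℕ → Submodule ℂ (L2 (G × I)) := fun n => 𝓔.down (X n)
  have hD : ∀ n, Loc (fun ε => Pr G d {ε}) (D n) := fun n => 𝓔.loc_down (hX n)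
  have a1 : ∀ n, X n ≤ Ind 𝓔.σ 𝓔.σ_inj (D n) := fun n => 𝓔.le_Ind_down (hX n).inv
  have a2 : ∀ {n n'}, n < n' → Ind 𝓔.σ 𝓔.σ_inj (D n) ≤ X n' := fun h =>
    𝓔.Ind_down_le (isClosed_Sol _) (isClosed_Sol _) (hta h) (hX _) (hX _) (hXm _) (hXm _)
  have a3 : Monotone D := monotone_nat_of_le_succ fun n v hv => by
    have := pull_mem_of_mem_Ind (a1 _ (a2 (Nat.lt_succ_self n) (extn_mem_Ind (hD n).inv hv)))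
    rwa [pull_extn] at this
  have a4 : ∀ n m, dim (X n) - dim (X n ⊓ (𝓔.D m).Jm 𝒲 v₀ (X (n + 1))) ≤
      2 * C.card / (t n - t (n + 1)) * (Fintype.card (Multiplicative (ZMod (m + 1))) : ℝ)⁻¹ := by
    intro n m
    have hpos := sub_pos.2 (hta (Nat.lt_succ_self n))
    have key : ∀ {𝓡 : Set (G × I →₀ ℂ)}, 𝓡 ⊆ 𝓡₀ ∪ 𝓡₁ →
        dim (Ind 𝓔.σ 𝓔.σ_inj (Sol 𝓡) ⊓ X (n + 1)) -
          C.card * (Fintype.card (Multiplicative (ZMod (m + 1))) : ℝ)⁻¹ ≤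
        dim (Ind 𝓔.σ 𝓔.σ_inj (Sol 𝓡) ⊓ (𝓔.D m).Jm 𝒲 v₀ (X (n + 1))) := by
      intro 𝓡 h𝓡
      rw [← (𝓔.D m).dim_Jm 𝒲 v₀ (_ ⊓ (𝓔.D m).Jm 𝒲 v₀ _)]
      exact (𝓔.D m).dim_inf_Jm_ge 𝒲 v₀ 𝓔.πσ C (fun ρ hρ => hC ρ (h𝓡 hρ))
        ((isClosed_Ind (isClosed_Sol _)).inter (hX _).closed) ((inv_Ind _).inf (hX _).inv)
        inf_le_left fun ζ hζ hJ => ⟨hJ, by
          change (𝓔.D m).J I 𝒲 v₀ ((𝓔.D m).J I 𝒲 v₀ ζ) ∈ X (n + 1)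
          rw [Def.J_J]
          exact hζ.2⟩
    have b1 := near_max h₀c h₀ h₁c h₁ (hX n) ((𝓔.D m).loc_Jm 𝒲 v₀ _ (hX (n + 1))) (hXm n)
      (s := t (n + 1))
      (η := 2 * C.card * (Fintype.card (Multiplicative (ZMod (m + 1))) : ℝ)⁻¹) fun Z hZ => by
        have b2 := hXm (n + 1) Z hZ
        have b3 := key Set.subset_union_left
        have b4 := key Set.subset_union_right
        rw [phi] at b2 ⊢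
        rw [phi] at b2 ⊢
        rw [Def.dim_Jm]
        linarith
    rw [div_mul_eq_mul_div, le_div_iff₀ hpos]
    linarith
  have a5 : ∀ n m, dim (Ind 𝓔.σ 𝓔.σ_inj (D n)) -
      dim (Ind 𝓔.σ 𝓔.σ_inj (D n) ⊓ (𝓔.D m).Jm 𝒲 v₀ (Ind 𝓔.σ 𝓔.σ_inj (D (n + 2)))) ≤
        2 * C.card / (t (n + 1) - t (n + 2)) *
          (Fintype.card (Multiplicative (ZMod (m + 1))) : ℝ)⁻¹ := fun n m =>
    (codim_mono (isClosed_Ind (hD n).closed) (inv_Ind _) (hX _).closed (hX _).inv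
      ((𝓔.D m).isClosed_Jm 𝒲 v₀ (hX _).closed) ((𝓔.D m).inv_Jm 𝒲 v₀ (hX _).inv)
      (a2 (Nat.lt_succ_self n)) (Submodule.comap_mono (a1 (n + 2)))).trans (a4 (n + 1) m)
  have a6 : ∀ n, ∃ N : ℤ, dim (D n) ≤ N ∧ (N : ℝ) ≤ dim (D (n + 2)) := fun n =>
    Walls.exists_int_between (hD n) (hD (n + 2)) (a3 (Nat.le_add_right n 2)) hV hW
      (ne_top_of_le_ne_top ENNReal.ofReal_ne_top
        (mass_ZE_le (hσ := 𝓔.σ_inj) 𝓔.D 𝒲 v₀ 𝓔.πσ tendsto_card_zmod (hD n).closed (hD n).inv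
          (hD (n + 2)).closed (a3 (Nat.le_add_right n 2)) (a5 n)))
  choose N hN1 hN2 using a6
  obtain ⟨_, ⟨n₀, rfl⟩, hn₀⟩ := Int.exists_greatest_of_bdd (P := fun z => ∃ n, N n = z)
    ⟨Fintype.card I, by
      rintro _ ⟨n, rfl⟩
      exact_mod_cast (hN2 n).trans (dim_le_card _)⟩ ⟨_, 0, rfl⟩
  have a7 : ∀ n, dim (D n) ≤ N n₀ := fun n =>
    (hN1 n).trans (by exact_mod_cast hn₀ _ ⟨n, rfl⟩)
  have a8 : ∀ n, n₀ + 2 ≤ n → D n = D (n₀ + 2) := fun n hn =>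
    le_antisymm (le_of_dim_le (hD n).closed (hD _).closed (hD n).inv (hD _).inv (a3 hn)
      ((a7 n).trans (hN2 n₀))) (a3 hn)
  have a9 : ∀ n, n₀ + 2 < n → X n = Ind 𝓔.σ 𝓔.σ_inj (D (n₀ + 2)) := fun n hn =>
    le_antisymm (a8 n hn.le ▸ a1 n) (a2 hn)
  have b0 := a5 (n₀ + 2)
  rw [a8 (n₀ + 2 + 2) (by omega)] at b0
  obtain ⟨N₀, hN₀⟩ := int_of_block 𝓔 𝒲 v₀ hfin₀ β₀ hβ₀ hb₀ hV₀ hW₀ (hD _) b0
  obtain ⟨N₁, hN₁⟩ := int_of_block 𝓔 𝒲 v₀ hfin₁ β₁ hβ₁ hb₁ hV₁ hW₁ (hD _) b0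
  obtain ⟨Y, hY, hYK⟩ := exists_support d (isClosed_Sol 𝓡₀) (inv_Sol _) (isClosed_Sol 𝓡₁)
    (inv_Sol _) hcut
  have b1 := phi_zero_le (isClosed_Sol 𝓡₀) (inv_Sol _) (isClosed_Sol 𝓡₁) (inv_Sol _)
    (hD (n₀ + 2)).closed (hD (n₀ + 2)).inv
  have b2 : phi (Sol 𝓡₀) (Sol 𝓡₁) 0 Y ≤ phi (Sol 𝓡₀) (Sol 𝓡₁) 0 (D (n₀ + 2)) := by
    have c1 : Tendsto (fun n => phi (Sol 𝓡₀) (Sol 𝓡₁) 0 Y - t n * dim Y) atTop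
        (𝓝 (phi (Sol 𝓡₀) (Sol 𝓡₁) 0 Y - 0 * dim Y)) :=
      (tendsto_one_div_add_atTop_nhds_zero_nat.mul_const _).const_sub _
    rw [zero_mul, sub_zero] at c1
    refine le_of_tendsto c1 (eventually_atTop.2 ⟨n₀ + 3, fun n hn => ?_⟩)
    have c2 := hXm n _ (𝓔.loc_Ind hY)
    rw [a9 n hn, hF₀, hF₁,
      phi_Ind (isClosed_Sol _) (inv_Sol _) (isClosed_Sol _) (inv_Sol _) hY.closed hY.inv,
      phi_Ind (isClosed_Sol _) (inv_Sol _) (isClosed_Sol _) (inv_Sol _) (hD _).closed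
        (hD _).inv] at c2
    have c3 := mul_nonneg (ht0 n) (dim_nonneg (D (n₀ + 2)))
    simp only [phi] at c2 ⊢
    linarith
  refine ⟨N₀ + N₁ - N n₀, ?_⟩
  have b3 : phi (Sol 𝓡₀) (Sol 𝓡₁) 0 (D (n₀ + 2)) = N₀ + N₁ - N n₀ := by
    rw [phi, hN₀, hN₁, le_antisymm (a7 _) (hN2 n₀)]
    ring
  push_cast
  linarith

end Pool.Agent.P.MP_0f25e6_al.TT
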