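import Pool.Agent.P.MP_0f25e6_al.TT13
import Pool.Agent.P.MP_0f25e6_al.Tree

/-!
The extension group, and the walls of a tree.
-/

set_option autoImplicit false

noncomputable section

namespace Pool.Agent.P.MP_0f25e6_al.TT

section Extension

variable (G W : Type*) [Group G] [MulAction G W]

/-- The kernel of the extension. -/
abbrev Ker : Type _ := Multiplicative (W × ℕ →₀ ((m : ℕ) → ZMod (m + 1)))

/-- The action on the kernel. -/
def kerAct : G →* MulAut (Ker W) where
  toFun g := AddEquiv.toMultiplicative
    (Finsupp.domCongr (Equiv.prodCongr (MulAction.toPerm g) (Equiv.refl ℕ)))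
  map_one' := by
    ext f : 1
    refine Multiplicative.toAdd.injective (Finsupp.ext fun ⟨e, i⟩ => ?_)
    change f.toAdd ((1 : G)⁻¹ • e, i) = f.toAdd (e, i)
    simp
  map_mul' g h := by
    ext f : 1
    refine Multiplicative.toAdd.injective (Finsupp.ext fun ⟨e, i⟩ => ?_)
    change f.toAdd ((g * h)⁻¹ • e, i) = f.toAdd (h⁻¹ • g⁻¹ • e, i)
    rw [mul_inv_rev, mul_smul]

theorem kerAct_toAdd (g : G) (f : Ker W) :
    (kerAct G W g f).toAdd = Finsupp.mapDomain (fun p => (g • p.1, p.2)) f.toAdd :=
  Finsupp.equivMapDomain_eq_mapDomain _ _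

/-- The two reindexings. -/
def reidx (r : Bool) (p : W × ℕ) : W × ℕ := (p.1, 2 * p.2 + r.toNat)

theorem reidx_injective (r : Bool) : Function.Injective (reidx W r) := by
  rintro ⟨a, i⟩ ⟨b, j⟩ h
  simp only [reidx, Prod.mk.injEq] at h ⊢
  exact ⟨h.1, by omega⟩

/-- The two self-embeddings of the kernel. -/
def kerEmb (r : Bool) : Ker W →* Ker W :=
  AddMonoidHom.toMultiplicative (Finsupp.mapDomain.addMonoidHom (reidx W r))

theorem kerEmb_toAdd (r : Bool) (f : Ker W) :
    (kerEmb W r f).toAdd = Finsupp.mapDomain (reidx W r) f.toAdd := rfl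

theorem kerEmb_injective (r : Bool) : Function.Injective (kerEmb W r) := fun _ _ h =>
  Multiplicative.toAdd.injective
    (Finsupp.mapDomain_injective (reidx_injective W r) (congrArg Multiplicative.toAdd h))

/-- The finite subgroups of the kernel. -/
def kerGen (m : ℕ) (e : W) : Multiplicative (ZMod (m + 1)) →* Ker W :=
  AddMonoidHom.toMultiplicative
    ((Finsupp.singleAddHom (e, 0)).comp (AddMonoidHom.single (fun m : ℕ => ZMod (m + 1)) m))

theorem kerGen_toAdd (m : ℕ) (e : W) (k : Multiplicative (ZMod (m + 1))) :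
    (kerGen W m e k).toAdd = Finsupp.single (e, 0) (Pi.single m k.toAdd) := rfl

open SemidirectProduct in
/-- The extension. -/
def ext : Ext G (Ker W ⋊[kerAct G W] G) W where
  π := rightHom
  σ := inr
  πσ := rightHom_inr
  j r := map (kerEmb W r) (MonoidHom.id G) fun g => by
    refine MonoidHom.ext fun f => Multiplicative.toAdd.injective ?_
    change (kerEmb W r (kerAct G W g f)).toAdd = (kerAct G W g (kerEmb W r f)).toAdd
    rw [kerEmb_toAdd, kerAct_toAdd, kerAct_toAdd, kerEmb_toAdd, ← Finsupp.mapDomain_comp,
      ← Finsupp.mapDomain_comp]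
    rfl
  j_inj r x y h := SemidirectProduct.ext
    (kerEmb_injective W r (congrArg SemidirectProduct.left h))
    (congrArg SemidirectProduct.right h :)
  π_j _ _ := rfl
  j_σ r g := by simp
  meet y y' h := by
    have h1 : Finsupp.mapDomain (reidx W false) y.left.toAdd =
        Finsupp.mapDomain (reidx W true) y'.left.toAdd :=
      congrArg (fun x => Multiplicative.toAdd (SemidirectProduct.left x)) h
    have h2 : y.left = 1 := by
      refine Multiplicative.toAdd.injective (Finsupp.ext fun p => ?_)
      rw [← Finsupp.mapDomain_apply (reidx_injective W false), h1,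
        Finsupp.mapDomain_of_notMem_range]
      · rfl
      · rintro ⟨q, hq⟩
        have := congrArg Prod.snd hq
        simp only [reidx, Bool.toNat_true, Bool.toNat_false] at this
        omega
    have h3 : y'.left = 1 := by
      refine Multiplicative.toAdd.injective (Finsupp.ext fun p => ?_)
      rw [← Finsupp.mapDomain_apply (reidx_injective W true), ← h1, h2]
      simp
    exact ⟨⟨y.right, SemidirectProduct.ext h2.symm rfl⟩,
      ⟨y'.right, SemidirectProduct.ext h3.symm rfl⟩⟩
  D m :=
    { s := fun e => inl.comp (kerGen W m e)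
      π_s := fun e k => rightHom_inl _
      conj := fun x e k => by
        refine SemidirectProduct.ext ?_ (by simp)
        simp only [MonoidHom.comp_apply, mul_left, left_inl, right_inl, map_one, MulAut.one_apply]
        rw [mul_comm]
        congr 1
        refine Multiplicative.toAdd.injective ?_
        rw [kerAct_toAdd, kerGen_toAdd, kerGen_toAdd, Finsupp.mapDomain_single]
        rfl
      inj := fun e k h => by
        have h1 : Finsupp.single (e, 0) (Pi.single m k.toAdd : (m : ℕ) → ZMod (m + 1)) = 0 :=
          congrArg (fun x => Multiplicative.toAdd (SemidirectProduct.left x)) h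
        simpa using h1
      indep := fun e e' k k' hne h => by
        rw [MonoidHom.comp_apply, MonoidHom.comp_apply, ← map_mul] at h
        have h1 : Finsupp.single (e, 0) (Pi.single m k.toAdd : (m : ℕ) → ZMod (m + 1)) +
            Finsupp.single (e', 0) (Pi.single m k'.toAdd : (m : ℕ) → ZMod (m + 1)) = 0 :=
          congrArg (fun x => Multiplicative.toAdd (SemidirectProduct.left x)) h
        have h2 := DFunLike.congr_fun h1 (e, 0)
        have h3 := DFunLike.congr_fun h1 (e', 0)
        simp [hne, hne.symm] at h2 h3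
        exact ⟨h2, h3⟩ }

end Extension

section Tree

open SimpleGraph

variable {V : Type*} {T : SimpleGraph V}

/-- Every walk from `v` to `w` uses `e`. -/
def sep (T : SimpleGraph V) (e : Sym2 V) (v w : V) : Prop := ∀ p : T.Walk v w, e ∈ p.edges

theorem not_sep_self (e : Sym2 V) (v : V) : ¬ sep T e v v := fun h => by simpa using h Walk.nil

theorem sep_symm {e : Sym2 V} {v w : V} (h : sep T e v w) : sep T e w v := fun p => by
  simpa using h p.reverse

theorem sep_trans {e : Sym2 V} {u w : V} (h : sep T e u w) (v : V) : sep T e u v ∨ sep T e v w := by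
  by_contra hne
  simp only [sep, not_or, not_forall] at hne
  obtain ⟨⟨p, hp⟩, ⟨q, hq⟩⟩ := hne
  have := h (p.append q)
  simp only [Walk.edges_append, List.mem_append] at this
  tauto

theorem eq_of_sep_adj {e : Sym2 V} {v w : V} (h : sep T e v w) (hvw : T.Adj v w) : e = s(v, w) := by
  simpa using h hvw.toWalk

theorem sep_adj (hT : T.IsTree) {a b : V} (h : T.Adj a b) : sep T s(a, b) a b :=
  isBridge_iff_forall_walk_mem_edges.1 (isAcyclic_iff_forall_adj_isBridge.1 hT.isAcyclic h)

theorem not_sep_or (hT : T.IsTree) (a b v : V) : ¬ sep T s(a, b) v a ∨ ¬ sep T s(a, b) v b := by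
  have key : ∀ {v w : V} (_ : T.Walk v w), ¬ sep T s(a, b) v w ∨
      ¬ sep T s(a, b) v a ∨ ¬ sep T s(a, b) v b := by
    intro v w p
    induction p with
    | nil => exact Or.inl (not_sep_self _ _)
    | @cons v v' w h p ih =>
      by_cases he : sep T s(a, b) v v'
      · rcases Sym2.eq_iff.1 (eq_of_sep_adj he h) with ⟨rfl, -⟩ | ⟨-, rfl⟩
        · exact Or.inr (Or.inl (not_sep_self _ _))
        · exact Or.inr (Or.inr (not_sep_self _ _))
      · exact ih.imp (fun h1 h2 => (sep_trans h2 v').elim he h1)
          (Or.imp (fun h1 h2 => (sep_trans h2 v').elim he h1)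
            fun h1 h2 => (sep_trans h2 v').elim he h1)
  obtain ⟨p⟩ := hT.connected.preconnected v a
  have := key p
  tauto

theorem sep_tri (hT : T.IsTree) (e : Sym2 V) (u v w : V) :
    sep T e u w ↔ ¬ (sep T e u v ↔ sep T e v w) := by
  induction e using Sym2.ind with
  | _ a b =>
  have key : ∀ x y z, sep T s(a, b) x y → sep T s(a, b) y z → ¬ sep T s(a, b) x z := by
    intro x y z h1 h2 h3
    have a1 := not_sep_or hT a b x
    have a2 := not_sep_or hT a b y
    have a3 := not_sep_or hT a b z
    have b1 : ∀ c, sep T s(a, b) x c ∨ sep T s(a, b) y c := fun c => (sep_trans h1 c).imp_right sep_symm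
    have b2 : ∀ c, sep T s(a, b) y c ∨ sep T s(a, b) z c := fun c => (sep_trans h2 c).imp_right sep_symm
    have b3 : ∀ c, sep T s(a, b) x c ∨ sep T s(a, b) z c := fun c => (sep_trans h3 c).imp_right sep_symm
    have := b1 a; have := b1 b; have := b2 a; have := b2 b; have := b3 a; have := b3 b
    tauto
  have c1 := key u v w
  have c2 : sep T s(a, b) u w → _ := fun h => sep_trans h v
  have c3 : sep T s(a, b) u v → sep T s(a, b) u w ∨ sep T s(a, b) v w := fun h =>
    (sep_trans h w).imp_right sep_symm
  have c4 : sep T s(a, b) v w → sep T s(a, b) u v ∨ sep T s(a, b) u w := fun h =>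
    (sep_trans h u).imp_left sep_symm
  tauto

theorem finite_sep (hT : T.IsTree) (v w : V) : {e : T.edgeSet | sep T e v w}.Finite := by
  obtain ⟨p⟩ := hT.connected.preconnected v w
  exact (p.edges.finite_toSet.preimage Subtype.val_injective.injOn).subset fun e he => he p

variable {G : Type*} [Group G] [MulAction G V]

theorem sep_of_smul (hadj : ∀ (g : G) (u v : V), T.Adj u v → T.Adj (g • u) (g • v)) (g : G)
    {e : Sym2 V} {v w : V} (h : sep T (e.map fun x => g • x) (g • v) (g • w)) : sep T e v w := by
  intro p
  let f : T →g T := ⟨fun v => g • v, fun {u v} h => hadj g u v h⟩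
  have := h (p.map f)
  rw [Walk.edges_map, List.mem_map] at this
  obtain ⟨e', he', h'⟩ := this
  rwa [← Sym2.map.injective (MulAction.injective g) h']

/-- The walls of a tree. -/
def treeWalls (hT : T.IsTree) (hadj : ∀ (g : G) (u v : V), T.Adj u v → T.Adj (g • u) (g • v)) :
    @Walls G V T.edgeSet _ _ (edgeAction hadj) :=
  letI := edgeAction hadj
  { S := fun v w => (finite_sep hT v w).toFinset
    inc := fun e v => v ∈ e.1
    S_smul := fun g e v w => by
      simp only [Set.Finite.mem_toFinset, Set.mem_ofPred_eq]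
      refine ⟨sep_of_smul hadj g, fun h => sep_of_smul hadj g⁻¹ ?_⟩
      have : ((g • e).1.map fun x => g⁻¹ • x) = e.1 := congrArg Subtype.val (inv_smul_smul g e)
      rwa [this, inv_smul_smul, inv_smul_smul]
    S_tri := fun e u v w => by
      simp only [Set.Finite.mem_toFinset, Set.mem_ofPred_eq]
      exact sep_tri hT _ _ _ _
    inc_smul := fun g e v h => Sym2.mem_map.2 ⟨v, h, rfl⟩
    uniq := fun v z hz => by
      classical
      simp only [Set.Finite.mem_toFinset, Set.mem_ofPred_eq]
      obtain ⟨p₀⟩ := hT.connected.preconnected v z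
      obtain ⟨p, hp⟩ := p₀.toPath
      cases p with
      | nil => exact absurd rfl hz
      | @cons _ a _ hva q =>
        have hq : s(v, a) ∉ q.edges := fun h =>
          ((Walk.cons_isPath_iff _ _).1 hp).2 (q.fst_mem_support_of_mem_edges h)
        refine ⟨⟨s(v, a), hva⟩, ⟨Sym2.mem_mk_left _ _, ?_⟩, ?_⟩
        · rw [sep_tri hT _ v a z]
          exact fun h => hq (h.1 (sep_adj hT hva) q)
        · rintro ⟨e, he⟩ ⟨h1, h2⟩
          rcases List.mem_cons.1 (h2 (Walk.cons hva q)) with h | h
          · exact Subtype.ext h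
          · obtain ⟨a', rfl⟩ := Sym2.mem_iff_exists.1 h1
            exact absurd (q.fst_mem_support_of_mem_edges h) ((Walk.cons_isPath_iff _ _).1 hp).2
    two := by
      rintro ⟨e, he⟩
      induction e using Sym2.ind with
      | _ a b => exact ⟨a, b, fun v hv => Sym2.mem_iff.1 hv⟩
    head := by
      rintro u ⟨e, he⟩
      simp only [Set.Finite.mem_toFinset, Set.mem_ofPred_eq]
      induction e using Sym2.ind with
      | _ a b =>
        rcases sep_trans (sep_adj hT he) u with h | h
        · exact ⟨a, Sym2.mem_mk_left _ _, h⟩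
        · exact ⟨b, Sym2.mem_mk_right _ _, sep_symm h⟩ }

end Tree

end Pool.Agent.P.MP_0f25e6_al.TT
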