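import Pool.Agent.P.MP_0f25e6_al.TT14

/-!
Linearisation of a convolution equation along a tree, and the theorem for groups acting freely on
the product of two trees.
-/

set_option autoImplicit false

open scoped InnerProductSpace Pointwise

noncomputable section

namespace Pool.Agent.P.MP_0f25e6_al.TT

open SimpleGraph

variable {G I E : Type*} [Group G] [MulAction G E]

theorem Pr_mem_Sol {B : Type*} [MulAction G B] {d : I → E} (β : E → B)
    (hβ : ∀ (g : G) ε, β (g • ε) = g • β ε) (Rel : E → Prop) (hRel : ∀ (g : G) c, Rel (g • d c))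
    {𝓡 : Set (G × I →₀ ℂ)} (h : ∀ ρ ∈ 𝓡, ∃ b, ∀ i ∈ ρ.support, β (i.1⁻¹ • d i.2) = b)
    {A : Set E} (hA : ∀ ε ε', Rel ε → Rel ε' → β ε = β ε' → ε ∈ A → ε' ∈ A) {ζ : L2 (G × I)}
    (hζ : ζ ∈ Sol 𝓡) : Pr G d A ζ ∈ Sol 𝓡 := by
  refine res_mem_Sol (fun ρ hρ x i hi j hj => hA _ _ (hRel _ _) (hRel _ _) ?_) hζ
  obtain ⟨b, hb⟩ := h ρ hρ
  simp only [mul_inv_rev, mul_smul, hβ x⁻¹, hb i hi, hb j hj]

omit [Group G] in
theorem sum_eq_linearCombination (ρ : G × I →₀ ℂ) (F : G × I → ℂ) :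
    ∑ i ∈ ρ.support, ρ i * F i = Finsupp.linearCombination ℂ F ρ := rfl

omit [Group G] in
theorem mem_support_sub {i j k : G × I}
    (h : k ∈ (Finsupp.single i (1 : ℂ) - Finsupp.single j 1).support) : k = i ∨ k = j := by
  by_contra hne
  push Not at hne
  simp [hne.1, hne.2] at h

theorem sq_smul_eq (g : G) (a b : E) (h : g • a = a ∧ g • b = b ∨ g • a = b ∧ g • b = a) :
    (g * g) • a = a := by
  rcases h with ⟨h1, -⟩ | ⟨h1, h2⟩
  · rw [mul_smul, h1, h1]
  · rw [mul_smul, h1, h2]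

variable {V₁ V₂ : Type*} [MulAction G V₁] [MulAction G V₂]

theorem int_of_trees [Fintype I] {T₁ : SimpleGraph V₁} {T₂ : SimpleGraph V₂} (h₁ : T₁.IsTree)
    (h₂ : T₂.IsTree) (a₁ : ∀ (g : G) (u v : V₁), T₁.Adj u v → T₁.Adj (g • u) (g • v))
    (a₂ : ∀ (g : G) (u v : V₂), T₂.Adj u v → T₂.Adj (g • u) (g • v))
    (hsq : ∀ g : G, g * g = 1 → g = 1)
    (hfree : ∀ (g : G) (u : V₁) (v : V₂), g • u = u → g • v = v → g = 1)
    (d : I → V₁ × V₁) (hd : ∀ c, (d c).1 = (d c).2 ∨ T₁.Adj (d c).1 (d c).2)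
    {𝓡₀ 𝓡₁ : Set (G × I →₀ ℂ)} (hfin₀ : 𝓡₀.Finite) (hfin₁ : 𝓡₁.Finite)
    (l₀ : ∀ ρ ∈ 𝓡₀, ∃ b, ∀ i ∈ ρ.support, (i.1⁻¹ • d i.2).1 = b)
    (l₁ : ∀ ρ ∈ 𝓡₁, ∃ b : Set V₁, ∀ i ∈ ρ.support, {(i.1⁻¹ • d i.2).1, (i.1⁻¹ • d i.2).2} = b) :
    ∃ N : ℤ, dim (Sol 𝓡₀ ⊓ Sol 𝓡₁) = N := by
  let _ := edgeAction a₂
  obtain ⟨v₀⟩ := h₂.connected.nonempty
  let Rel : V₁ × V₁ → Prop := fun p => p.1 = p.2 ∨ T₁.Adj p.1 p.2
  have hRel : ∀ (g : G) c, Rel (g • d c) := fun g c =>
    (hd c).imp (fun h => congrArg (g • ·) h) (a₁ g _ _)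
  have hβ₁ : ∀ (g : G) (ε : V₁ × V₁), ({(g • ε).1, (g • ε).2} : Set V₁) = g • {ε.1, ε.2} :=
    fun g ε => by simp [Set.smul_set_insert]
  have edge : ∀ (g : G) (e : T₂.edgeSet), g • e = e → ∃ v : V₂, (g * g) • v = v := by
    rintro g ⟨e, he⟩ h
    induction e using Sym2.ind with
    | _ a b => exact ⟨a, sq_smul_eq g a b (Sym2.eq_iff.1 (congrArg Subtype.val h))⟩
  have setp : ∀ (g : G) (a b : V₁), g • ({a, b} : Set V₁) = {a, b} → (g * g) • a = a := by
    intro g a b h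
    rw [Set.smul_set_insert, Set.smul_set_singleton, Set.pair_eq_pair_iff] at h
    exact sq_smul_eq g a b h
  refine main_int (ext G T₂.edgeSet) (treeWalls h₂ a₂) v₀ d hfin₀ hfin₁ ?_
    Prod.fst (fun _ _ => rfl) ?_ ?_ ?_ (fun ε => ({ε.1, ε.2} : Set V₁)) hβ₁ ?_ ?_ ?_
  · rintro ⟨a, b⟩
    refine ⟨{ε | sep T₁ s(a, b) a ε.1}, not_sep_self _ _, fun ζ hζ => ?_, fun ζ hζ => ?_⟩
    · refine Pr_mem_Sol Prod.fst (fun _ _ => rfl) Rel hRel l₀ (fun ε ε' _ _ h h' => ?_) hζ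
      rwa [Set.mem_ofPred_eq, ← h]
    · refine Pr_mem_Sol (fun ε => ({ε.1, ε.2} : Set V₁)) hβ₁ Rel hRel l₁ ?_ hζ
      rintro ⟨x, y⟩ ⟨x', y'⟩ hr - h ⟨h1, h2⟩
      rcases Set.pair_eq_pair_iff.1 h with ⟨rfl, rfl⟩ | ⟨rfl, rfl⟩
      · exact ⟨h1, h2⟩
      · rcases hr with hr | hr
        · obtain rfl : x = y := hr
          exact ⟨h1, h2⟩
        · refine ⟨fun h3 => ?_, fun h3 => ?_⟩
          · rcases Sym2.eq_iff.1 (eq_of_sep_adj ((sep_trans h3 x).resolve_left h1) hr) with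
              ⟨rfl, rfl⟩ | ⟨rfl, rfl⟩
            · exact h2 rfl
            · exact not_sep_self _ _ h3
          · obtain ⟨rfl, rfl⟩ := Prod.mk.inj (Set.mem_singleton_iff.1 h3)
            exact h1 (sep_adj h₁ hr.symm)
  · intro b ζ hζ
    exact res_mem_Sol (fun ρ hρ x i hi j hj h => by
      obtain ⟨b', hb'⟩ := l₀ ρ hρ
      have e1 := hb' i hi
      have e2 := hb' j hj
      simp only [Prod.smul_fst] at e1 e2
      simpa only [Set.mem_preimage, loc, Function.comp_apply, mul_inv_rev, mul_smul, e1, e2]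
        using h) hζ
  · intro c v g hg
    exact hfree g _ _ (congrArg Prod.fst hg) (congrArg Prod.snd hg)
  · intro c e g hg
    obtain ⟨v, hv⟩ := edge g e (congrArg Prod.snd hg)
    have h1 : g • (d c).1 = (d c).1 := congrArg Prod.fst hg
    exact hsq g (hfree _ _ _ (by rw [mul_smul, h1, h1]) hv)
  · intro b ζ hζ
    exact res_mem_Sol (fun ρ hρ x i hi j hj h => by
      obtain ⟨b', hb'⟩ := l₁ ρ hρ
      have e1 := hb' i hi
      have e2 := hb' j hj
      rw [hβ₁] at e1 e2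
      simpa only [Set.mem_preimage, loc, Function.comp_apply, mul_inv_rev, mul_smul, e1, e2]
        using h) hζ
  · intro c v g hg
    have h1 : g • v = v := congrArg Prod.snd hg
    exact hsq g (hfree _ _ _ (setp g _ _ (congrArg Prod.fst hg)) (by rw [mul_smul, h1, h1]))
  · intro c e g hg
    obtain ⟨v, hv⟩ := edge g e (congrArg Prod.snd hg)
    exact hsq g (hfree _ _ _ (setp g _ _ (congrArg Prod.fst hg)) hv)

theorem inj_of_trees {T₁ : SimpleGraph V₁} {T₂ : SimpleGraph V₂} (h₁ : T₁.IsTree)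
    (h₂ : T₂.IsTree) (a₁ : ∀ (g : G) (u v : V₁), T₁.Adj u v → T₁.Adj (g • u) (g • v))
    (a₂ : ∀ (g : G) (u v : V₂), T₂.Adj u v → T₂.Adj (g • u) (g • v))
    (hsq : ∀ g : G, g * g = 1 → g = 1)
    (hfree : ∀ (g : G) (u : V₁) (v : V₂), g • u = u → g • v = v → g = 1)
    (α : G →₀ ℂ) (hα : α ≠ 0) : Inj α := by
  classical
  intro f hf
  by_contra hf0
  obtain ⟨v⟩ := h₁.connected.nonempty
  have p : ∀ g : G, T₁.Walk v (g • v) := fun g => (h₁.connected.preconnected v (g • v)).some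
  let S : Finset V₁ := α.support.biUnion fun g => (p g).support.toFinset
  have hS : ∀ {g}, g ∈ α.support → ∀ a ∈ (p g).support, a ∈ S := fun hg a ha =>
    Finset.mem_biUnion.2 ⟨_, hg, List.mem_toFinset.2 ha⟩
  obtain ⟨g₀, hg₀⟩ := Finsupp.support_nonempty_iff.2 hα
  have hv : v ∈ S := hS hg₀ v (p g₀).start_mem_support
  let D : Type _ := {q : S × S // q.1.1 = q.2.1 ∨ T₁.Adj q.1.1 q.2.1}
  let dg : S → D := fun a => ⟨(a, a), Or.inl rfl⟩
  let sw : D → D := fun q => ⟨(q.1.2, q.1.1), q.2.imp Eq.symm Adj.symm⟩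
  let I : Type _ := Option (α.support × D)
  let d : I → V₁ × V₁ := fun c => c.elim (v, v) fun q => (q.2.1.1.1, q.2.1.2.1)
  let en : α.support → S := fun g => ⟨g.1 • v, hS g.2 _ (p g.1).end_mem_support⟩
  let r₁ : α.support × D → (G × I →₀ ℂ) := fun q =>
    Finsupp.single (1, some q) 1 - Finsupp.single (1, some (q.1, dg q.2.1.1)) 1
  let r₂ : α.support → (G × I →₀ ℂ) := fun g =>
    Finsupp.single (1, some (g, dg (en g))) 1 - Finsupp.single (g.1⁻¹, none) 1
  let r₃ : G × I →₀ ℂ := ∑ g : α.support, Finsupp.single (1, some (g, dg ⟨v, hv⟩)) (α g.1)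
  let r₄ : α.support × D → (G × I →₀ ℂ) := fun q =>
    Finsupp.single (1, some q) 1 - Finsupp.single (1, some (q.1, sw q.2)) 1
  have hmem₀ : ∀ ζ : L2 (G × I), ζ ∈ Sol (Set.range r₁ ∪ Set.range r₂ ∪ {r₃}) ↔
      (∀ q x, ζ (x, some q) = ζ (x, some (q.1, dg q.2.1.1))) ∧
      (∀ g x, ζ (x, some (g, dg (en g))) = ζ (g.1⁻¹ * x, none)) ∧
      ∀ x, ∑ g : α.support, α g.1 * ζ (x, some (g, dg ⟨v, hv⟩)) = 0 := by
    intro ζ
    simp only [mem_Sol, Set.mem_union, or_imp, forall_and, Set.forall_mem_range,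
      Set.mem_singleton_iff, forall_eq, and_assoc,
      sum_eq_linearCombination _ fun i : G × I => ζ (i.1 * _, i.2), r₁, r₂, r₃, map_sub, map_sum,
      Finsupp.linearCombination_single, one_mul, sub_eq_zero, smul_eq_mul]
  have hmem₁ : ∀ ζ : L2 (G × I), ζ ∈ Sol (Set.range r₄) ↔
      ∀ q x, ζ (x, some q) = ζ (x, some (q.1, sw q.2)) := by
    intro ζ
    simp only [mem_Sol, Set.forall_mem_range,
      sum_eq_linearCombination _ fun i : G × I => ζ (i.1 * _, i.2), r₄, map_sub,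
      Finsupp.linearCombination_single, one_smul, one_mul, sub_eq_zero]
  set K := Sol (Set.range r₁ ∪ Set.range r₂ ∪ {r₃}) ⊓ Sol (Set.range r₄) with hK
  have hKc : IsClosed (K : Set (L2 (G × I))) := (isClosed_Sol _).inter (isClosed_Sol _)
  have hKi : Inv K := (inv_Sol _).inf (inv_Sol _)
  obtain ⟨N, hN⟩ : ∃ N : ℤ, dim K = N := by
    refine int_of_trees h₁ h₂ a₁ a₂ hsq hfree d ?_
      (((Set.finite_range _).union (Set.finite_range _)).union (Set.finite_singleton _))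
      (Set.finite_range _) ?_ ?_
    · rintro (_ | q)
      · exact Or.inl rfl
      · exact q.2.2
    · rintro _ ((⟨q, rfl⟩ | ⟨g, rfl⟩) | rfl)
      · refine ⟨q.2.1.1.1, fun i hi => ?_⟩
        rcases mem_support_sub hi with rfl | rfl <;> simp [d, dg]
      · refine ⟨g.1 • v, fun i hi => ?_⟩
        rcases mem_support_sub hi with rfl | rfl <;> simp [d, dg, en]
      · refine ⟨v, fun i hi => ?_⟩
        obtain ⟨g, -, hg⟩ := Finset.mem_biUnion.1 (Finsupp.support_finsetSum hi)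
        rw [Finset.mem_singleton.1 (Finsupp.support_single_subset hg)]
        simp [d, dg]
    · rintro _ ⟨q, rfl⟩
      refine ⟨{q.2.1.1.1, q.2.1.2.1}, fun i hi => ?_⟩
      rcases mem_support_sub hi with rfl | rfl <;> simp [d, sw, Set.pair_comm]
  -- every coordinate of a solution is a translate of the first one
  have hall : ∀ ζ ∈ K, ∀ q x, ζ (x, some q) = ζ (q.1.1⁻¹ * x, none) := by
    intro ζ hζ
    obtain ⟨b1, b2, -⟩ := (hmem₀ ζ).1 hζ.1
    have b4 := (hmem₁ ζ).1 hζ.2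
    have key : ∀ (g : α.support) (x : G) {a b : V₁} (w : T₁.Walk a b)
        (hw : ∀ c ∈ w.support, c ∈ S), ∀ c (hc : c ∈ w.support),
        ζ (x, some (g, dg ⟨c, hw c hc⟩)) = ζ (x, some (g, dg ⟨a, hw a w.start_mem_support⟩)) := by
      intro g x a b w
      induction w with
      | nil =>
        intro hw c hc
        obtain rfl : c = _ := by simpa using hc
        rfl
      | @cons a a' b haa' w ih =>
        intro hw c hc
        rcases List.mem_cons.1 hc with rfl | hc'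
        · rfl
        · have ha : a ∈ S := hw a (Walk.start_mem_support _)
          have ha' : a' ∈ S := hw a' (List.mem_cons_of_mem _ w.start_mem_support)
          rw [ih (fun c hc => hw c (List.mem_cons_of_mem _ hc)) c hc']
          have e1 := b1 (g, ⟨(⟨a, ha⟩, ⟨a', ha'⟩), Or.inr haa'⟩) x
          have e2 := b4 (g, ⟨(⟨a, ha⟩, ⟨a', ha'⟩), Or.inr haa'⟩) x
          have e3 := b1 (g, sw ⟨(⟨a, ha⟩, ⟨a', ha'⟩), Or.inr haa'⟩) x
          exact e3.symm.trans (e2.symm.trans e1)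
    rintro ⟨g, q⟩ x
    obtain ⟨g', hg', hq⟩ := Finset.mem_biUnion.1 q.1.1.2
    rw [b1, ← b2 g x]
    exact (key g x (p g') (hS hg') _ (List.mem_toFinset.1 hq)).trans
      (key g x (p g) (hS g.2) _ (p g.1).end_mem_support).symm
  have hK0 : K ≠ ⊥ := by
    let F : G × I → ℂ := fun i => f (i.2.elim i.1 fun q => q.1.1⁻¹ * i.1)
    have hF : Memℓp F 2 := by
      rw [memℓp_two_iff]
      refine (summable_prod_of_nonneg (f := fun i : I × G => ‖F i.swap‖ ^ 2)
        fun _ => sq_nonneg _).2 ⟨?_, Summable.of_finite⟩ |>.prod_symm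
      rintro (_ | q)
      · exact (hasSum_norm_sq f).summable
      · exact (hasSum_norm_sq (lt q.1.1⁻¹ f)).summable
    intro h
    have h1 : (⟨F, hF⟩ : L2 (G × I)) ∈ K := by
      refine ⟨(hmem₀ _).2 ⟨fun _ _ => rfl, fun _ _ => rfl, fun x => ?_⟩,
        (hmem₁ _).2 fun _ _ => rfl⟩
      have h2 : conv α f x = 0 := by rw [hf]; rfl
      rw [conv_apply, ← Finset.sum_coe_sort] at h2
      exact h2
    rw [h, Submodule.mem_bot] at h1
    apply hf0
    ext x
    exact congrArg (fun ζ : L2 (G × I) => ζ (x, none)) h1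
  have hN1 : 1 ≤ dim K := by
    have h1 : 0 < dim K := not_le.1 fun h => hK0 (eq_bot_of_dim hKi h)
    rw [hN] at h1 ⊢
    exact_mod_cast h1
  let T : L2 (G × I) →L[ℂ] L2 (G × I) := res (Prod.snd ⁻¹' {none})
  have hT : Eqv T := fun y => by
    ext ζ ⟨x, c⟩
    by_cases hc : c = none <;> simp [T, res_apply, hc]
  have h1 : K ⊓ T.ker = ⊥ := by
    rw [eq_bot_iff]
    rintro ζ ⟨hζ, hζ'⟩
    have h2 : ∀ x, ζ (x, none) = 0 := fun x => by
      rw [← res_apply_of_mem (A := Prod.snd ⁻¹' {none}) ζ rfl]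
      exact congrArg (fun ζ : L2 (G × I) => ζ (x, none)) hζ'
    rw [Submodule.mem_bot]
    ext ⟨x, _ | q⟩
    · exact h2 x
    · rw [hall ζ hζ]
      exact h2 _
  have h2 := dim_eq_add hKc hKi hT
  have h3 : dim (⊥ : Submodule ℂ (L2 (G × I))) = 0 :=
    Finset.sum_eq_zero fun _ _ => pn_eq_zero_iff.2 (by simp)
  rw [h1, h3, zero_add, dim.eq_1 (K.map _), Finset.sum_eq_single none] at h2
  · have h4 := mem_oo_of_pn (X := K.map T.toLinearMap) (v := delta (1, none))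
      (by rw [norm_delta, one_pow, ← h2]; exact hN1)
    have h5 : (K.map T.toLinearMap)ᗮᗮ ≤ Sol {α.mapDomain fun g => (g⁻¹, none)} := by
      refine oo_le ?_ (isClosed_Sol _)
      rintro _ ⟨ζ, hζ, rfl⟩
      rw [mem_Sol]
      rintro _ rfl x
      rw [sum_eq_linearCombination _ fun i : G × I => (T.toLinearMap ζ) (i.1 * x, i.2),
        Finsupp.linearCombination_mapDomain, ← ((hmem₀ ζ).1 hζ.1).2.2 x,
        Finsupp.linearCombination_apply, Finsupp.sum, ← Finset.sum_coe_sort]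
      refine Finset.sum_congr rfl fun g _ => ?_
      rw [hall ζ hζ]
      exact congrArg (α g * ·) (res_apply_of_mem ζ rfl)
    have h6 := mem_Sol.1 (h5 h4) _ rfl g₀
    rw [sum_eq_linearCombination _ fun i : G × I => (delta (1, none) : L2 (G × I)) (i.1 * g₀, i.2),
      Finsupp.linearCombination_mapDomain, Finsupp.linearCombination_apply, Finsupp.sum,
      Finset.sum_eq_single g₀] at h6
    · exact Finsupp.mem_support_iff.1 hg₀ (by simpa [delta_apply] using h6)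
    · intro g _ hg
      simp [delta_apply, inv_mul_eq_one, hg]
    · exact fun h => absurd hg₀ h
  · intro c _ hc
    rw [pn_eq_zero_iff, Submodule.mem_orthogonal']
    rintro _ ⟨ζ, -, rfl⟩
    rw [inner_delta_left]
    exact res_apply_of_notMem _ hc
  · simp

end Pool.Agent.P.MP_0f25e6_al.TT
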