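import Pool.Agent.P.MP_0f25e6_al.TT15

/-!
The analytic zero divisor conjecture for torsion-free groups acting properly on a product of two
trees.
-/

set_option autoImplicit false

namespace Pool.Agent.P.MP_0f25e6_al.TT.TwoTrees

open Pool.Agent.P.MP_0f25e6_al in
/-- Let a torsion-free group `G` act by automorphisms on two trees so that only finitely many
elements fix any given pair of vertices. Then a nonzero finitely supported `α` and a nonzero
square-summable `f` on `G` have nonzero convolution. -/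
theorem result {G V₁ V₂ : Type*} [Group G] [MulAction G V₁] [MulAction G V₂]
    (T₁ : SimpleGraph V₁) (T₂ : SimpleGraph V₂) (h₁ : T₁.IsTree) (h₂ : T₂.IsTree)
    (a₁ : ∀ (g : G) (u v : V₁), T₁.Adj u v → T₁.Adj (g • u) (g • v))
    (a₂ : ∀ (g : G) (u v : V₂), T₂.Adj u v → T₂.Adj (g • u) (g • v))
    (htf : ∀ (g : G) (n : ℕ), 0 < n → g ^ n = 1 → g = 1)
    (hfin : ∀ (u : V₁) (v : V₂), {g : G | g • u = u ∧ g • v = v}.Finite)
    (α : G →₀ ℂ) (f : G → ℂ) (hα : α ≠ 0) (hf : Memℓp f 2) (hf0 : f ≠ 0) :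
    ∃ g : G, ∑ k ∈ α.support, α k * f (k⁻¹ * g) ≠ 0 := by
  refine azd_of_inj (TT.inj_of_trees h₁ h₂ a₁ a₂ (fun g hg => htf g 2 two_pos (by rw [sq, hg]))
    fun g u v hu hv => ?_) α f hα hf hf0
  obtain ⟨m, n, hmn, h⟩ := (hfin u v).exists_lt_map_eq_of_forall_mem (f := fun n : ℕ => g ^ n)
    fun n => And.intro ((MulAction.stabilizer G u).pow_mem hu n)
      ((MulAction.stabilizer G v).pow_mem hv n)
  refine htf g (n - m) (Nat.sub_pos_of_lt hmn) ?_
  rw [pow_sub g hmn.le, ← h, mul_inv_cancel]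

end Pool.Agent.P.MP_0f25e6_al.TT.TwoTrees
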