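import Pool.Agent.P.MP_0f25e6_al.TT1

/-!
The von Neumann dimension of translation-invariant subspaces of finitely many copies of the
regular representation: monotonicity, faithfulness, rank-nullity, modularity and continuity.
-/

set_option autoImplicit false

open scoped InnerProductSpace ENNReal Topology
open Filter

noncomputable section

namespace Pool.Agent.P.MP_0f25e6_al.TT

section General

variable {X : Type*}

theorem inner_res (A : Set X) (u v : L2 X) : ⟪u, res A v⟫_ℂ = ⟪res A u, v⟫_ℂ := by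
  classical
  rw [lp.inner_eq_tsum, lp.inner_eq_tsum]
  congr 1
  funext i
  by_cases h : i ∈ A <;> simp [res_apply, h]

theorem res_res (A B : Set X) (v : L2 X) : res A (res B v) = res (A ∩ B) v := by
  classical
  ext i
  by_cases h : i ∈ A <;> by_cases h' : i ∈ B <;> simp [res_apply, h, h']

theorem res_empty (v : L2 X) : res ∅ v = 0 := by
  ext i
  simp [res_apply]

theorem res_compl (A : Set X) (v : L2 X) : res Aᶜ v = v - res A v := by
  classical
  ext i
  by_cases h : i ∈ A <;> simp [res_apply, h]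

theorem res_delta_of_mem {A : Set X} {i : X} (h : i ∈ A) : res A (delta i) = delta i := by
  classical
  ext j
  by_cases hj : j = i
  · subst hj; simp [res_apply, h]
  · simp [res_apply, delta_apply, hj]

theorem res_delta_of_notMem {A : Set X} {i : X} (h : i ∉ A) : res A (delta i) = 0 := by
  classical
  ext j
  by_cases hj : j = i
  · subst hj; simp [res_apply, h]
  · simp [res_apply, delta_apply, hj]

theorem norm_delta (i : X) : ‖delta i‖ = 1 := by
  classical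
  rw [delta]
  convert lp.norm_single (p := 2) (by norm_num) (E := fun _ : X => ℂ) i (1 : ℂ)
  simp

theorem hasSum_res_fiber {B : Type*} (f : X → B) (v : L2 X) :
    HasSum (fun b => res (f ⁻¹' {b}) v) v := by
  classical
  have h := (hasSum_delta v).tsum_fiberwise f
  convert h using 2 with b
  have h1 := (hasSum_delta v).mapL (res (f ⁻¹' {b}))
  have h2 : (fun g => res (f ⁻¹' {b}) (v g • delta g)) =
      (f ⁻¹' {b}).indicator (fun g => v g • delta g) := by
    funext g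
    by_cases hg : g ∈ f ⁻¹' {b}
    · rw [map_smul, res_delta_of_mem hg, Set.indicator_of_mem hg]
    · rw [map_smul, res_delta_of_notMem hg, Set.indicator_of_notMem hg, smul_zero]
  rw [h2] at h1
  exact ((hasSum_subtype_iff_indicator).2 h1).tsum_eq.symm

/-- A closed subspace stable under restriction to every fibre is stable under restriction to every
union of fibres. -/
theorem res_preimage_mem {B : Type*} (f : X → B) {W : Submodule ℂ (L2 X)}
    (hW : IsClosed (W : Set (L2 X))) (h : ∀ b, ∀ v ∈ W, res (f ⁻¹' {b}) v ∈ W) (A : Set B)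
    {v : L2 X} (hv : v ∈ W) : res (f ⁻¹' A) v ∈ W := by
  refine mem_of_hasSum hW ((hasSum_res_fiber f v).mapL (res (f ⁻¹' A))) fun b => ?_
  rw [res_res]
  by_cases hb : b ∈ A
  · have : f ⁻¹' A ∩ f ⁻¹' {b} = f ⁻¹' {b} :=
      Set.inter_eq_right.2 (Set.preimage_mono (Set.singleton_subset_iff.2 hb))
    rw [this]
    exact h b v hv
  · have : f ⁻¹' A ∩ f ⁻¹' {b} = ∅ := by
      rw [Set.eq_empty_iff_forall_notMem]
      rintro x ⟨h1, h2⟩
      exact hb (by rwa [← Set.mem_singleton_iff.1 h2])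
    rw [this, res_empty]
    exact W.zero_mem

end General

variable {Γ I : Type*} [Group Γ]

/-- Right translation on finitely many copies of the regular representation. -/
def R (y : Γ) : L2 (Γ × I) →L[ℂ] L2 (Γ × I) :=
  comp (Equiv.prodCongr (Equiv.mulRight y) (Equiv.refl I))

@[simp] theorem R_apply (y : Γ) (ζ : L2 (Γ × I)) (x : Γ) (c : I) :
    R y ζ (x, c) = ζ (x * y, c) := rfl

theorem R_R (y z : Γ) (ζ : L2 (Γ × I)) : R y (R z ζ) = R (y * z) ζ := by
  ext ⟨x, c⟩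
  simp [mul_assoc]

theorem R_one (ζ : L2 (Γ × I)) : R (1 : Γ) ζ = ζ := by
  ext ⟨x, c⟩
  simp

theorem inner_R (y : Γ) (u v : L2 (Γ × I)) : ⟪u, R y v⟫_ℂ = ⟪R y⁻¹ u, v⟫_ℂ := by
  rw [R, R, inner_comp_left]
  congr 2
  ext1 ⟨x, c⟩
  simp

theorem R_delta (y x : Γ) (c : I) : R y (delta (x, c)) = delta (x * y⁻¹, c) := by
  classical
  ext ⟨z, d⟩
  simp [delta_apply, eq_mul_inv_iff_mul_eq]

theorem norm_R (y : Γ) (v : L2 (Γ × I)) : ‖R y v‖ = ‖v‖ := by
  have h : ⟪R y v, R y v⟫_ℂ = ⟪v, v⟫_ℂ := by rw [inner_R, R_R, inv_mul_cancel, R_one]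
  have h2 := congrArg Complex.re h
  rw [re_inner_self, re_inner_self] at h2
  exact (pow_left_inj₀ (norm_nonneg _) (norm_nonneg _) two_ne_zero).1 h2

/-- Invariance under all right translations. -/
def Inv (X : Submodule ℂ (L2 (Γ × I))) : Prop := ∀ y : Γ, ∀ ζ ∈ X, R y ζ ∈ X

theorem Inv.orth {X : Submodule ℂ (L2 (Γ × I))} (h : Inv X) : Inv Xᗮ := by
  intro y ζ hζ
  rw [Submodule.mem_orthogonal]
  intro u hu
  rw [inner_R]
  exact Submodule.inner_right_of_mem_orthogonal (h _ u hu) hζ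

theorem Inv.inf {X Y : Submodule ℂ (L2 (Γ × I))} (hX : Inv X) (hY : Inv Y) : Inv (X ⊓ Y) :=
  fun y ζ h => ⟨hX y ζ h.1, hY y ζ h.2⟩

theorem Inv.sup {X Y : Submodule ℂ (L2 (Γ × I))} (hX : Inv X) (hY : Inv Y) : Inv (X ⊔ Y) := by
  intro y ζ h
  obtain ⟨a, ha, b, hb, rfl⟩ := Submodule.mem_sup.1 h
  rw [map_add]
  exact Submodule.add_mem_sup (hX y a ha) (hY y b hb)

theorem Inv.proj_R {X : Submodule ℂ (L2 (Γ × I))} (h : Inv X) (y : Γ) (v : L2 (Γ × I)) :
    proj X (R y v) = R y (proj X v) :=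
  proj_comm (R y) (R y⁻¹) (inner_R y) (fun v hv => X.le_orthogonal_orthogonal (h y v hv))
    (fun v hv => X.le_orthogonal_orthogonal (h _ v hv)) v

/-- Operators commuting with all right translations. -/
def Eqv (T : L2 (Γ × I) →L[ℂ] L2 (Γ × I)) : Prop := ∀ y : Γ, R y * T = T * R y

theorem Eqv.apply {T : L2 (Γ × I) →L[ℂ] L2 (Γ × I)} (hT : Eqv T) (y : Γ) (ξ : L2 (Γ × I)) :
    R y (T ξ) = T (R y ξ) :=
  congrArg (fun S : L2 (Γ × I) →L[ℂ] L2 (Γ × I) => S ξ) (hT y)

theorem star_R (y : Γ) : star (R y : L2 (Γ × I) →L[ℂ] L2 (Γ × I)) = R y⁻¹ := by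
  rw [ContinuousLinearMap.star_eq_adjoint]
  symm
  rw [ContinuousLinearMap.eq_adjoint_iff]
  intro ξ η
  rw [inner_R]

theorem Eqv.star {T : L2 (Γ × I) →L[ℂ] L2 (Γ × I)} (hT : Eqv T) : Eqv (star T) := by
  intro y
  have := congrArg Star.star (hT y⁻¹)
  rw [star_mul, star_mul, star_R, inv_inv] at this
  exact this.symm

theorem Eqv.mul {S T : L2 (Γ × I) →L[ℂ] L2 (Γ × I)} (hS : Eqv S) (hT : Eqv T) :
    Eqv (S * T) := fun y => by
  rw [← mul_assoc, hS y, mul_assoc, hT y, mul_assoc]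

theorem Eqv.one : Eqv (1 : L2 (Γ × I) →L[ℂ] L2 (Γ × I)) := fun y => by simp

theorem Eqv.sub {S T : L2 (Γ × I) →L[ℂ] L2 (Γ × I)} (hS : Eqv S) (hT : Eqv T) :
    Eqv (S - T) := fun y => by
  rw [mul_sub, sub_mul, hS y, hT y]

theorem Eqv.smul {T : L2 (Γ × I) →L[ℂ] L2 (Γ × I)} (hT : Eqv T) (c : ℂ) :
    Eqv (c • T) := fun y => by
  rw [mul_smul_comm, smul_mul_assoc, hT y]

theorem Eqv.pow {T : L2 (Γ × I) →L[ℂ] L2 (Γ × I)} (hT : Eqv T) (n : ℕ) : Eqv (T ^ n) := by
  induction n with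
  | zero => simpa using Eqv.one
  | succ n ih => rw [pow_succ]; exact ih.mul hT

theorem Inv.eqv_proj {X : Submodule ℂ (L2 (Γ × I))} (h : Inv X) : Eqv (proj X) := fun y => by
  ext1 v
  exact (h.proj_R y v).symm

theorem Eqv.inv_ker {T : L2 (Γ × I) →L[ℂ] L2 (Γ × I)} (hT : Eqv T) : Inv T.ker := by
  intro y ζ hζ
  have : T ζ = 0 := hζ
  change T (R y ζ) = 0
  rw [← hT.apply, this, map_zero]

theorem Inv.map {X : Submodule ℂ (L2 (Γ × I))} (h : Inv X) {T : L2 (Γ × I) →L[ℂ] L2 (Γ × I)}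
    (hT : Eqv T) : Inv (X.map (T : L2 (Γ × I) →ₗ[ℂ] L2 (Γ × I))) := by
  rintro y _ ⟨ζ, hζ, rfl⟩
  exact ⟨R y ζ, h y ζ hζ, (hT.apply y ζ).symm⟩

variable [Fintype I]

/-- The canonical trace. -/
def trI (T : L2 (Γ × I) →L[ℂ] L2 (Γ × I)) : ℂ := ∑ c : I, T (delta (1, c)) (1, c)

theorem hasSum_trI_mul {S : L2 (Γ × I) →L[ℂ] L2 (Γ × I)} (hS : Eqv S)
    (T : L2 (Γ × I) →L[ℂ] L2 (Γ × I)) :
    HasSum (fun g : Γ => ∑ c : I, ∑ d : I, T (delta (1, c)) (g, d) * S (delta (1, d)) (g⁻¹, c))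
      (trI (S * T)) := by
  refine hasSum_sum fun c _ => ?_
  have h1 := ((hasSum_delta (T (delta (1, c)))).mapL S).mapL (innerSL ℂ (delta ((1 : Γ), c)))
  simp only [map_smul, innerSL_apply_apply, inner_delta_left, smul_eq_mul] at h1
  have h2 : ∀ (g : Γ) (d : I), S (delta (g, d)) (1, c) = S (delta (1, d)) (g⁻¹, c) := by
    intro g d
    have : delta (g, d) = R g⁻¹ (delta ((1 : Γ), d)) := by rw [R_delta]; simp
    rw [this, ← hS.apply]
    simp
  refine h1.prod_fiberwise fun g => ?_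
  simp only [h2]
  exact hasSum_fintype _

theorem trI_comm {S T : L2 (Γ × I) →L[ℂ] L2 (Γ × I)} (hS : Eqv S) (hT : Eqv T) :
    trI (S * T) = trI (T * S) := by
  have h1 := hasSum_trI_mul hS T
  have h2 := hasSum_trI_mul hT S
  rw [← (Equiv.inv Γ).hasSum_iff] at h2
  refine h1.unique ?_
  convert h2 using 2 with g
  rw [Finset.sum_comm]
  simp [mul_comm]

theorem trI_sub (S T : L2 (Γ × I) →L[ℂ] L2 (Γ × I)) : trI (S - T) = trI S - trI T := by
  simp [trI]

theorem trI_pow_eq {T : L2 (Γ × I) →L[ℂ] L2 (Γ × I)} (hT : Eqv T) (n : ℕ) :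
    trI ((1 - star T * T) ^ n) = trI ((1 - T * star T) ^ n) := by
  have hA : Eqv (1 - star T * T) := Eqv.one.sub (hT.star.mul hT)
  have hcomm : ∀ m : ℕ, T * (1 - star T * T) ^ m = (1 - T * star T) ^ m * T := by
    intro m
    induction m with
    | zero => simp
    | succ m ih =>
      rw [pow_succ, ← mul_assoc, ih, pow_succ, mul_assoc, mul_assoc]
      congr 1
      rw [mul_sub, sub_mul, mul_one, one_mul, mul_assoc]
  induction n with
  | zero => simp
  | succ n ih =>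
    have e1 : (1 - star T * T) ^ (n + 1) =
        (1 - star T * T) ^ n - ((1 - star T * T) ^ n * star T) * T := by
      rw [pow_succ, mul_sub, mul_one, mul_assoc]
    have e2 : (1 - T * star T) ^ (n + 1) =
        (1 - T * star T) ^ n - T * ((1 - star T * T) ^ n * star T) := by
      rw [pow_succ, mul_sub, mul_one, ← mul_assoc, ← mul_assoc, hcomm]
    rw [e1, e2, trI_sub, trI_sub, ih, trI_comm ((hA.pow n).mul hT.star) hT]

/-- The von Neumann dimension of the closure of `X`. -/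
def dim (X : Submodule ℂ (L2 (Γ × I))) : ℝ := ∑ c : I, pn X (delta (1, c))

theorem tendsto_avg_trI (T : L2 (Γ × I) →L[ℂ] L2 (Γ × I)) (hT : ‖T‖ ≤ 1) :
    Tendsto (fun N : ℕ => ((N : ℂ)⁻¹ * ∑ n ∈ Finset.range N, trI ((1 - star T * T) ^ n)).re)
      atTop (𝓝 (dim T.ker)) := by
  set A := 1 - star T * T with hAdef
  have hA : ‖A‖ ≤ 1 := norm_one_sub_star_mul_le hT
  have hK : A.eqLocus (1 : L2 (Γ × I) →L[ℂ] L2 (Γ × I)) = T.ker := by
    ext v
    change A v = (1 : L2 (Γ × I) →L[ℂ] L2 (Γ × I)) v ↔ T v = 0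
    constructor
    · intro h
      have h1 : (star T) (T v) = 0 := by simpa [hAdef] using h
      have h2 : ⟪T v, T v⟫_ℂ = 0 := by
        rw [← ContinuousLinearMap.adjoint_inner_right, ← ContinuousLinearMap.star_eq_adjoint, h1,
          inner_zero_right]
      exact inner_self_eq_zero.1 h2
    · intro h
      simp [hAdef, h]
  have hc : ∀ c : I, Tendsto (fun N : ℕ => ((N : ℂ)⁻¹ * ∑ n ∈ Finset.range N,
      (A ^ n) (delta (1, c)) (1, c)).re) atTop (𝓝 (pn T.ker (delta (1, c)))) := by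
    intro c
    have h := A.tendsto_birkhoffAverage_orthogonalProjection hA (delta (1, c))
    have h0 : ((A.eqLocus (1 : L2 (Γ × I) →L[ℂ] L2 (Γ × I))).orthogonalProjectionOnto
        (delta (1, c)) : L2 (Γ × I)) = proj T.ker (delta (1, c)) := by
      symm
      rw [← hK]
      exact proj_eq (Submodule.le_orthogonal_orthogonal _ (Submodule.coe_mem _))
        (Submodule.sub_starProjection_mem_orthogonal _)
    rw [h0] at h
    have h2 := (Complex.continuous_re.tendsto _).comp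
      (((innerSL ℂ (delta ((1 : Γ), c))).continuous.tendsto _).comp h)
    rw [innerSL_apply_apply, re_inner_proj] at h2
    refine Tendsto.congr (fun N => ?_) h2
    simp only [Function.comp_apply, birkhoffAverage, birkhoffSum, id, map_smul, map_sum,
      innerSL_apply_apply, inner_delta_left, smul_eq_mul]
    congr 2
    refine Finset.sum_congr rfl (fun n _ => ?_)
    rw [FunLike.coe_pow_eq_iterate]
  have h := tendsto_finsetSum Finset.univ fun c _ => hc c
  refine Tendsto.congr (fun N => ?_) h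
  rw [← Complex.re_sum, ← Finset.mul_sum, Finset.sum_comm]
  rfl

theorem dim_ker_star {T : L2 (Γ × I) →L[ℂ] L2 (Γ × I)} (hT : Eqv T) :
    dim T.ker = dim (star T).ker := by
  have hpos : 0 < ‖T‖ + 1 := by positivity
  set c : ℝ := (‖T‖ + 1)⁻¹ with hc
  have hc0 : (c : ℂ) ≠ 0 := by
    rw [Complex.ofReal_ne_zero, hc]
    positivity
  have hn : ‖(c : ℂ) • T‖ ≤ 1 := by
    rw [norm_smul, Complex.norm_real, Real.norm_of_nonneg (by positivity), hc,
      inv_mul_le_iff₀ hpos]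
    linarith
  have hA := tendsto_avg_trI _ hn
  have hB := tendsto_avg_trI (star ((c : ℂ) • T)) (by rwa [norm_star_op])
  simp only [trI_pow_eq (hT.smul c)] at hA
  rw [star_star] at hB
  have h := tendsto_nhds_unique hA hB
  have e1 : ((c : ℂ) • T).ker = T.ker := by
    ext v
    change (c : ℂ) • T v = 0 ↔ T v = 0
    rw [smul_eq_zero, or_iff_right hc0]
  have e2 : (star ((c : ℂ) • T)).ker = (star T).ker := by
    ext v
    rw [star_smul]
    change star (c : ℂ) • (star T) v = 0 ↔ (star T) v = 0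
    simp [Complex.ofReal_ne_zero.1 hc0]
  rwa [e1, e2] at h

theorem dim_nonneg (X : Submodule ℂ (L2 (Γ × I))) : 0 ≤ dim X :=
  Finset.sum_nonneg fun _ _ => pn_nonneg _ _

theorem dim_add_dim_orth (X : Submodule ℂ (L2 (Γ × I))) :
    dim X + dim Xᗮ = Fintype.card I := by
  rw [dim, dim, ← Finset.sum_add_distrib]
  simp [pn_add_pn_orth, norm_delta]

theorem dim_le_card (X : Submodule ℂ (L2 (Γ × I))) : dim X ≤ Fintype.card I := by
  linarith [dim_add_dim_orth X, dim_nonneg Xᗮ]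

theorem dim_oo (X : Submodule ℂ (L2 (Γ × I))) : dim Xᗮᗮ = dim X := by
  simp only [dim, pn_oo]

theorem dim_mono {X Y : Submodule ℂ (L2 (Γ × I))} (h : X ≤ Yᗮᗮ) : dim X ≤ dim Y :=
  Finset.sum_le_sum fun _ _ => pn_mono h _

theorem dim_mono' {X Y : Submodule ℂ (L2 (Γ × I))} (h : X ≤ Y) : dim X ≤ dim Y :=
  Finset.sum_le_sum fun _ _ => pn_mono' h _

theorem dim_inf_orth {X Y : Submodule ℂ (L2 (Γ × I))} (hX : IsClosed (X : Set (L2 (Γ × I))))
    (h : Y ≤ X) : dim (X ⊓ Yᗮ) = dim X - dim Y := by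
  simp only [dim, pn_inf_orth hX h, Finset.sum_sub_distrib]

theorem eq_bot_of_dim {X : Submodule ℂ (L2 (Γ × I))} (hX : Inv X) (h : dim X ≤ 0) : X = ⊥ := by
  have h1 : ∀ c : I, pn X (delta (1, c)) = 0 := fun c =>
    (Finset.sum_eq_zero_iff_of_nonneg fun _ _ => pn_nonneg _ _).1
      (le_antisymm h (dim_nonneg X)) c (Finset.mem_univ c)
  rw [eq_bot_iff]
  intro ζ hζ
  rw [Submodule.mem_bot]
  ext ⟨x, c⟩
  have h2 := Submodule.inner_left_of_mem_orthogonal (hX x ζ hζ) (pn_eq_zero_iff.1 (h1 c))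
  simpa [inner_delta_left] using h2

theorem le_of_dim_le {X Y : Submodule ℂ (L2 (Γ × I))} (hXc : IsClosed (X : Set (L2 (Γ × I))))
    (hYc : IsClosed (Y : Set (L2 (Γ × I)))) (hX : Inv X) (hY : Inv Y) (hYX : Y ≤ X)
    (h : dim X ≤ dim Y) : X ≤ Y := by
  have h1 : X ⊓ Yᗮ = ⊥ := eq_bot_of_dim (hX.inf hY.orth) (by rw [dim_inf_orth hXc hYX]; linarith)
  intro v hv
  have h2 : v - proj Y v ∈ X ⊓ Yᗮ := ⟨X.sub_mem hv (hYX (proj_mem' hYc v)), sub_proj_mem Y v⟩
  rw [h1, Submodule.mem_bot, sub_eq_zero] at h2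
  rw [h2]
  exact proj_mem' hYc v

/-- Rank-nullity. -/
theorem dim_eq_add {X : Submodule ℂ (L2 (Γ × I))} (hXc : IsClosed (X : Set (L2 (Γ × I))))
    (hX : Inv X) {T : L2 (Γ × I) →L[ℂ] L2 (Γ × I)} (hT : Eqv T) :
    dim X = dim (X ⊓ T.ker) + dim (X.map (T : L2 (Γ × I) →ₗ[ℂ] L2 (Γ × I))) := by
  have h := dim_ker_star (hT.mul hX.eqv_proj)
  have e1 : (star (T * proj X)).ker = (X.map (T : L2 (Γ × I) →ₗ[ℂ] L2 (Γ × I)))ᗮ := by
    ext v
    change (star (T * proj X)) v = 0 ↔ _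
    rw [Submodule.mem_orthogonal]
    constructor
    · rintro h _ ⟨u, hu, rfl⟩
      have : T u = (T * proj X) u := by
        change T u = T (proj X u)
        rw [proj_of_mem' hu]
      change ⟪T u, v⟫_ℂ = 0
      rw [this, ← ContinuousLinearMap.adjoint_inner_right, ← ContinuousLinearMap.star_eq_adjoint,
        h, inner_zero_right]
    · intro h
      refine ext_inner_left ℂ fun u => ?_
      rw [ContinuousLinearMap.star_eq_adjoint, ContinuousLinearMap.adjoint_inner_right,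
        inner_zero_right]
      exact h _ ⟨proj X u, proj_mem' hXc u, rfl⟩
  have e2 : (T * proj X).ker ⊓ Xᗮᗮ = X ⊓ T.ker := by
    rw [oo_eq hXc]
    ext v
    change T (proj X v) = 0 ∧ v ∈ X ↔ v ∈ X ∧ T v = 0
    constructor
    · rintro ⟨h1, h2⟩
      exact ⟨h2, by rwa [proj_of_mem' h2] at h1⟩
    · rintro ⟨h1, h2⟩
      exact ⟨by rwa [proj_of_mem' h1], h1⟩
  have e3 : Xᗮ ≤ (T * proj X).ker := by
    intro v hv
    change T (proj X v) = 0
    rw [proj_of_mem_orth hv, map_zero]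
  have e4 := dim_inf_orth (T * proj X).isClosed_ker e3
  rw [e2] at e4
  rw [e1] at h
  linarith [dim_add_dim_orth X, dim_add_dim_orth (X.map (T : L2 (Γ × I) →ₗ[ℂ] L2 (Γ × I)))]

/-- Modularity. -/
theorem dim_sup_add_dim_inf {X Y : Submodule ℂ (L2 (Γ × I))}
    (hXc : IsClosed (X : Set (L2 (Γ × I)))) (hYc : IsClosed (Y : Set (L2 (Γ × I))))
    (hX : Inv X) (hY : Inv Y) : dim (X ⊔ Y) + dim (X ⊓ Y) = dim X + dim Y := by
  have hT : Eqv (proj Yᗮ) := hY.orth.eqv_proj
  have hk : (proj Yᗮ).ker = Y := by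
    ext v
    change proj Yᗮ v = 0 ↔ _
    refine ⟨fun h => ?_, fun h => proj_of_mem_orth (Y.le_orthogonal_orthogonal h)⟩
    have := mem_orth_of_proj_eq_zero h
    rwa [oo_eq hYc] at this
  have h1 := dim_eq_add hXc hX hT
  have h2 := dim_eq_add (Submodule.isClosed_orthogonal _) (hX.sup hY).orth.orth hT
  rw [hk] at h1 h2
  rw [dim_oo, inf_eq_right.2 (le_sup_right.trans (X ⊔ Y).le_orthogonal_orthogonal)] at h2
  have h3 : dim ((X ⊔ Y)ᗮᗮ.map (proj Yᗮ : L2 (Γ × I) →ₗ[ℂ] L2 (Γ × I))) =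
      dim (X.map (proj Yᗮ : L2 (Γ × I) →ₗ[ℂ] L2 (Γ × I))) := by
    refine le_antisymm (dim_mono ?_)
      (dim_mono' (Submodule.map_mono (le_sup_left.trans (X ⊔ Y).le_orthogonal_orthogonal)))
    rintro _ ⟨v, hv, rfl⟩
    refine map_oo (proj Yᗮ) (fun w hw => ?_) hv
    obtain ⟨a, ha, b, hb, rfl⟩ := Submodule.mem_sup.1 hw
    rw [map_add, proj_of_mem_orth (Y.le_orthogonal_orthogonal hb), add_zero]
    exact Submodule.le_orthogonal_orthogonal _ ⟨a, ha, rfl⟩
  linarith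

theorem tendsto_dim_iSup (X : ℕ → Submodule ℂ (L2 (Γ × I))) (hX : Monotone X) :
    Tendsto (fun n => dim (X n)) atTop (𝓝 (dim (⨆ n, X n))) :=
  tendsto_finsetSum _ fun _ _ => tendsto_pn_iSup X hX _

theorem tendsto_dim_iInf (X : ℕ → Submodule ℂ (L2 (Γ × I))) (hX : Antitone X)
    (hc : ∀ n, IsClosed (X n : Set (L2 (Γ × I)))) :
    Tendsto (fun n => dim (X n)) atTop (𝓝 (dim (⨅ n, X n))) :=
  tendsto_finsetSum _ fun _ _ => tendsto_pn_iInf X hX hc _

end Pool.Agent.P.MP_0f25e6_al.TT
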