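import Pool.Agent.P.MP_0f25e6_al.TT2

/-!
Induction of invariant subspaces along an injective homomorphism, and maximisers of a
supermodular functional on a lattice of invariant subspaces.
-/

set_option autoImplicit false

open scoped InnerProductSpace ENNReal Topology
open Filter

noncomputable section

namespace Pool.Agent.P.MP_0f25e6_al.TT

section Pull

variable {X Y : Type*}

/-- Composition with an injective map, as a linear map. -/
def pullL (f : Y → X) (hf : Function.Injective f) : L2 X →ₗ[ℂ] L2 Y where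
  toFun ξ := ⟨fun g => ξ (f g), by
    change Memℓp (fun g => ξ (f g)) 2
    rw [memℓp_two_iff]
    exact (hasSum_norm_sq ξ).summable.comp_injective hf⟩
  map_add' _ _ := rfl
  map_smul' _ _ := rfl

/-- Composition with an injective map, as a bounded operator. -/
def pullF (f : Y → X) (hf : Function.Injective f) : L2 X →L[ℂ] L2 Y :=
  (pullL f hf).mkContinuous 1 (fun ξ => by
    rw [one_mul]
    refine norm_le_of_hasSum _ _ (norm_nonneg _) ?_
    rw [← (hasSum_norm_sq ξ).tsum_eq]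
    exact tsum_comp_le_tsum_of_inj (hasSum_norm_sq ξ).summable (fun _ => by positivity) hf)

@[simp] theorem pullF_apply (f : Y → X) (hf : Function.Injective f) (ξ : L2 X) (g : Y) :
    pullF f hf ξ g = ξ (f g) := rfl

end Pull

section Ind

variable {Γ G I : Type*} [Group Γ] [Group G]

/-- Restriction to a subgroup. -/
def pull (ι : G →* Γ) (hι : Function.Injective ι) : L2 (Γ × I) →L[ℂ] L2 (G × I) :=
  pullF (Prod.map ι id) (hι.prodMap Function.injective_id)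

@[simp] theorem pull_apply (ι : G →* Γ) (hι : Function.Injective ι) (ζ : L2 (Γ × I)) (x : G)
    (c : I) : pull ι hι ζ (x, c) = ζ (ι x, c) := rfl

/-- Extension by zero from a subgroup. -/
def extn (ι : G →* Γ) (hι : Function.Injective ι) : L2 (G × I) →L[ℂ] L2 (Γ × I) :=
  ContinuousLinearMap.adjoint (pull ι hι)

variable {ι : G →* Γ} {hι : Function.Injective ι}

theorem inner_extn (u : L2 (Γ × I)) (v : L2 (G × I)) :
    ⟪u, extn ι hι v⟫_ℂ = ⟪pull ι hι u, v⟫_ℂ :=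
  ContinuousLinearMap.adjoint_inner_right _ _ _

theorem inner_pull (u : L2 (G × I)) (v : L2 (Γ × I)) :
    ⟪u, pull ι hι v⟫_ℂ = ⟪extn ι hι u, v⟫_ℂ :=
  (ContinuousLinearMap.adjoint_inner_left _ _ _).symm

theorem extn_apply (v : L2 (G × I)) (x : G) (c : I) : extn ι hι v (ι x, c) = v (x, c) := by
  classical
  rw [← inner_delta_left, inner_extn, ← inner_delta_left]
  congr 1
  ext ⟨y, d⟩
  simp [delta_apply, hι.eq_iff]

theorem extn_apply_of_notMem (v : L2 (G × I)) {y : Γ} (hy : y ∉ ι.range) (c : I) :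
    extn ι hι v (y, c) = 0 := by
  classical
  rw [← inner_delta_left, inner_extn]
  have : pull ι hι (delta (y, c)) = 0 := by
    ext ⟨x, d⟩
    have : ι x ≠ y := fun h => hy ⟨x, h⟩
    simp [delta_apply, this]
  rw [this, inner_zero_left]

theorem pull_extn (v : L2 (G × I)) : pull ι hι (extn ι hι v) = v := by
  ext ⟨x, c⟩
  rw [pull_apply, extn_apply]

theorem extn_delta (x : G) (c : I) : extn ι hι (delta (x, c)) = delta (ι x, c) := by
  classical
  ext ⟨y, d⟩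
  by_cases hy : y ∈ ι.range
  · obtain ⟨z, rfl⟩ := hy
    simp [extn_apply, delta_apply, hι.eq_iff]
  · have : y ≠ ι x := fun h => hy ⟨x, h.symm⟩
    simp [extn_apply_of_notMem _ hy, delta_apply, this]

theorem inner_extn_extn (u v : L2 (G × I)) : ⟪extn ι hι u, extn ι hι v⟫_ℂ = ⟪u, v⟫_ℂ := by
  rw [inner_extn, pull_extn]

theorem norm_extn (v : L2 (G × I)) : ‖extn ι hι v‖ = ‖v‖ := by
  have h2 := congrArg Complex.re (inner_extn_extn (hι := hι) v v)
  rw [re_inner_self, re_inner_self] at h2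
  exact (pow_left_inj₀ (norm_nonneg _) (norm_nonneg _) two_ne_zero).1 h2

theorem R_pull (x : G) (ζ : L2 (Γ × I)) : R x (pull ι hι ζ) = pull ι hι (R (ι x) ζ) := by
  ext ⟨y, c⟩
  simp

theorem pull_R_extn_of_notMem (v : L2 (G × I)) {y : Γ} (hy : y ∉ ι.range) :
    pull ι hι (R y (extn ι hι v)) = 0 := by
  ext ⟨x, c⟩
  rw [pull_apply, R_apply, extn_apply_of_notMem]
  · simp
  · intro h
    exact hy ((ι.range.mul_mem_cancel_left ⟨x, rfl⟩).1 h)

/-- The invariant subspace induced from a subgroup. -/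
def Ind (ι : G →* Γ) (hι : Function.Injective ι) (W : Submodule ℂ (L2 (G × I))) :
    Submodule ℂ (L2 (Γ × I)) :=
  ⨅ y : Γ, W.comap ((pull ι hι ∘L R y : L2 (Γ × I) →L[ℂ] L2 (G × I)) : L2 (Γ × I) →ₗ[ℂ] L2 (G × I))

theorem mem_Ind {W : Submodule ℂ (L2 (G × I))} {ζ : L2 (Γ × I)} :
    ζ ∈ Ind ι hι W ↔ ∀ y : Γ, pull ι hι (R y ζ) ∈ W := by
  simp [Ind]

theorem isClosed_Ind {W : Submodule ℂ (L2 (G × I))} (h : IsClosed (W : Set (L2 (G × I)))) :
    IsClosed (Ind ι hι W : Set (L2 (Γ × I))) := by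
  rw [Ind, Submodule.coe_iInf]
  exact isClosed_iInter fun y => h.preimage (pull ι hι ∘L R y).continuous

theorem inv_Ind (W : Submodule ℂ (L2 (G × I))) : Inv (Ind ι hι W) := by
  intro y ζ hζ
  rw [mem_Ind] at hζ ⊢
  intro z
  rw [R_R]
  exact hζ _

theorem Ind_inf (W W' : Submodule ℂ (L2 (G × I))) :
    Ind ι hι (W ⊓ W') = Ind ι hι W ⊓ Ind ι hι W' := by
  ext ζ
  simp [mem_Ind, forall_and]

theorem Ind_mono {W W' : Submodule ℂ (L2 (G × I))} (h : W ≤ W') : Ind ι hι W ≤ Ind ι hι W' :=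
  fun _ hζ => mem_Ind.2 fun y => h (mem_Ind.1 hζ y)

theorem pull_mem_of_mem_Ind {W : Submodule ℂ (L2 (G × I))} {ζ : L2 (Γ × I)}
    (h : ζ ∈ Ind ι hι W) : pull ι hι ζ ∈ W := by
  simpa [R_one] using mem_Ind.1 h 1

theorem extn_mem_Ind {W : Submodule ℂ (L2 (G × I))} (hW : Inv W) {v : L2 (G × I)} (hv : v ∈ W) :
    extn ι hι v ∈ Ind ι hι W := by
  rw [mem_Ind]
  intro y
  by_cases hy : y ∈ ι.range
  · obtain ⟨x, rfl⟩ := hy
    rw [← R_pull, pull_extn]
    exact hW x v hv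
  · rw [pull_R_extn_of_notMem v hy]
    exact W.zero_mem

theorem extn_mem_Ind_orth {W : Submodule ℂ (L2 (G × I))} {v : L2 (G × I)} (hv : v ∈ Wᗮ) :
    extn ι hι v ∈ (Ind ι hι W)ᗮ := by
  rw [Submodule.mem_orthogonal]
  intro u hu
  rw [inner_extn]
  exact Submodule.inner_right_of_mem_orthogonal (pull_mem_of_mem_Ind hu) hv

theorem proj_Ind_extn {W : Submodule ℂ (L2 (G × I))} (hWc : IsClosed (W : Set (L2 (G × I))))
    (hW : Inv W) (v : L2 (G × I)) : proj (Ind ι hι W) (extn ι hι v) = extn ι hι (proj W v) :=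
  proj_eq (Submodule.le_orthogonal_orthogonal _ (extn_mem_Ind hW (proj_mem' hWc v)))
    (by rw [← map_sub]; exact extn_mem_Ind_orth (sub_proj_mem W v))

theorem Ind_Ind {G' : Type*} [Group G'] {κ : G' →* G} {hκ : Function.Injective κ}
    (W : Submodule ℂ (L2 (G' × I))) :
    Ind ι hι (Ind κ hκ W) = Ind (ι.comp κ) (hι.comp hκ) W := by
  have key : ∀ (y : Γ) (z : G) (ζ : L2 (Γ × I)), pull κ hκ (R z (pull ι hι (R y ζ))) =
      pull (ι.comp κ) (hι.comp hκ) (R (ι z * y) ζ) := by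
    intro y z ζ
    ext ⟨x, c⟩
    simp [mul_assoc]
  ext ζ
  simp only [mem_Ind, key]
  exact ⟨fun h y => by simpa using h y 1, fun h y z => h _⟩

variable [Fintype I]

theorem dim_Ind {W : Submodule ℂ (L2 (G × I))} (hWc : IsClosed (W : Set (L2 (G × I))))
    (hW : Inv W) : dim (Ind ι hι W) = dim W := by
  refine Finset.sum_congr rfl fun c _ => ?_
  have : delta ((1 : Γ), c) = extn ι hι (delta (1, c)) := by rw [extn_delta, map_one]
  rw [pn, this, proj_Ind_extn hWc hW, norm_extn, pn]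

theorem Ind_le {D : Submodule ℂ (L2 (G × I))} (hDc : IsClosed (D : Set (L2 (G × I))))
    (hD : Inv D) {W : Submodule ℂ (L2 (Γ × I))} (hWc : IsClosed (W : Set (L2 (Γ × I))))
    (hW : Inv W) (h : ∀ v ∈ D, extn ι hι v ∈ W) : Ind ι hι D ≤ W := by
  refine (le_of_dim_le (isClosed_Ind hDc) ((isClosed_Ind hDc).inter hWc) (inv_Ind D)
    ((inv_Ind D).inf hW) inf_le_left ?_).trans inf_le_right
  refine Finset.sum_le_sum fun c _ => ?_
  have h1 : delta ((1 : Γ), c) = extn ι hι (delta (1, c)) := by rw [extn_delta, map_one]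
  have h2 : proj (Ind ι hι D) (delta ((1 : Γ), c)) ∈ Ind ι hι D ⊓ W := by
    refine ⟨proj_mem' (isClosed_Ind hDc) _, ?_⟩
    rw [h1, proj_Ind_extn hDc hD]
    exact h _ (proj_mem' hDc _)
  have h3 := le_pn (delta ((1 : Γ), c)) (Submodule.le_orthogonal_orthogonal _ h2)
  rw [re_inner_proj] at h3
  rw [pn] at h3 ⊢
  linarith

end Ind

section HN

variable {Γ I J : Type*} [Group Γ]

/-- Closed invariant subspaces stable under a family of operators. -/
structure Loc (P : J → L2 (Γ × I) →L[ℂ] L2 (Γ × I)) (W : Submodule ℂ (L2 (Γ × I))) : Prop where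
  closed : IsClosed (W : Set (L2 (Γ × I)))
  inv : Inv W
  stable : ∀ j, ∀ ζ ∈ W, P j ζ ∈ W

variable {P : J → L2 (Γ × I) →L[ℂ] L2 (Γ × I)}

theorem Loc.inf {X Y : Submodule ℂ (L2 (Γ × I))} (hX : Loc P X) (hY : Loc P Y) :
    Loc P (X ⊓ Y) :=
  ⟨hX.closed.inter hY.closed, hX.inv.inf hY.inv,
    fun j ζ h => ⟨hX.stable j ζ h.1, hY.stable j ζ h.2⟩⟩

theorem loc_oo {X : Submodule ℂ (L2 (Γ × I))} (h1 : Inv X) (h2 : ∀ j, ∀ ζ ∈ X, P j ζ ∈ X) :
    Loc P Xᗮᗮ :=
  ⟨Submodule.isClosed_orthogonal _, h1.orth.orth, fun j _ hζ =>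
    map_oo (P j) (fun v hv => X.le_orthogonal_orthogonal (h2 j v hv)) hζ⟩

theorem Loc.sup {X Y : Submodule ℂ (L2 (Γ × I))} (hX : Loc P X) (hY : Loc P Y) :
    Loc P (X ⊔ Y)ᗮᗮ := by
  refine loc_oo (hX.inv.sup hY.inv) fun j ζ h => ?_
  obtain ⟨a, ha, b, hb, rfl⟩ := Submodule.mem_sup.1 h
  rw [map_add]
  exact Submodule.add_mem_sup (hX.stable j a ha) (hY.stable j b hb)

theorem loc_iInf {X : ℕ → Submodule ℂ (L2 (Γ × I))} (hX : ∀ n, Loc P (X n)) :
    Loc P (⨅ n, X n) := by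
  refine ⟨?_, fun y ζ h => ?_, fun j ζ h => ?_⟩
  · rw [Submodule.coe_iInf]
    exact isClosed_iInter fun n => (hX n).closed
  · rw [Submodule.mem_iInf] at h ⊢
    exact fun n => (hX n).inv y ζ (h n)
  · rw [Submodule.mem_iInf] at h ⊢
    exact fun n => (hX n).stable j ζ (h n)

theorem loc_iSup {X : ℕ → Submodule ℂ (L2 (Γ × I))} (hX : ∀ n, Loc P (X n)) :
    Loc P (⨆ n, X n)ᗮᗮ := by
  have key : ∀ T : L2 (Γ × I) →L[ℂ] L2 (Γ × I), (∀ n, ∀ ζ ∈ X n, T ζ ∈ X n) →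
      ∀ ζ ∈ ⨆ n, X n, T ζ ∈ ⨆ n, X n := by
    intro T hT ζ hζ
    have : (⨆ n, X n) ≤ (⨆ n, X n).comap (T : L2 (Γ × I) →ₗ[ℂ] L2 (Γ × I)) :=
      iSup_le fun n v hv => Submodule.mem_iSup_of_mem n (hT n v hv)
    exact this hζ
  exact loc_oo (fun y => key _ fun n => (hX n).inv y) fun j => key _ fun n => (hX n).stable j

variable [Fintype I]

/-- The functional whose maximisers form the filtration. -/
def phi (F₀ F₁ : Submodule ℂ (L2 (Γ × I))) (t : ℝ) (W : Submodule ℂ (L2 (Γ × I))) : ℝ :=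
  dim (F₀ ⊓ W) + dim (F₁ ⊓ W) - (1 + t) * dim W

theorem dim_inf_supermodular {F X Y : Submodule ℂ (L2 (Γ × I))}
    (hFc : IsClosed (F : Set (L2 (Γ × I)))) (hF : Inv F) (hX : Loc P X) (hY : Loc P Y) :
    dim (F ⊓ X) + dim (F ⊓ Y) ≤ dim (F ⊓ (X ⊔ Y)ᗮᗮ) + dim (F ⊓ (X ⊓ Y)) := by
  rw [← dim_sup_add_dim_inf (hFc.inter hX.closed) (hFc.inter hY.closed) (hF.inf hX.inv)
    (hF.inf hY.inv), ← inf_inf_distrib_left]
  refine add_le_add_left (dim_mono' (sup_le ?_ ?_)) _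
  · exact inf_le_inf_left _ (le_sup_left.trans (X ⊔ Y).le_orthogonal_orthogonal)
  · exact inf_le_inf_left _ (le_sup_right.trans (X ⊔ Y).le_orthogonal_orthogonal)

variable {F₀ F₁ : Submodule ℂ (L2 (Γ × I))}

theorem near_max (h₀c : IsClosed (F₀ : Set (L2 (Γ × I)))) (h₀ : Inv F₀)
    (h₁c : IsClosed (F₁ : Set (L2 (Γ × I)))) (h₁ : Inv F₁) {s t η : ℝ}
    {X Y : Submodule ℂ (L2 (Γ × I))} (hX : Loc P X) (hY : Loc P Y)
    (hXm : ∀ W, Loc P W → phi F₀ F₁ t W ≤ phi F₀ F₁ t X)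
    (hYm : ∀ W, Loc P W → phi F₀ F₁ s W ≤ phi F₀ F₁ s Y + η) :
    (t - s) * (dim X - dim (X ⊓ Y)) ≤ η := by
  have a1 := hXm _ (hX.inf hY)
  have a2 := hYm _ (hX.sup hY)
  have a3 := dim_inf_supermodular h₀c h₀ hX hY
  have a4 := dim_inf_supermodular h₁c h₁ hX hY
  have a5 := dim_sup_add_dim_inf hX.closed hY.closed hX.inv hY.inv
  simp only [phi, dim_oo] at a1 a2
  have a6 : dim (X ⊔ Y) = dim X + dim Y - dim (X ⊓ Y) := by linarith
  rw [a6] at a2
  nlinarith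

theorem exists_max (h₀c : IsClosed (F₀ : Set (L2 (Γ × I)))) (h₀ : Inv F₀)
    (h₁c : IsClosed (F₁ : Set (L2 (Γ × I)))) (h₁ : Inv F₁) {t : ℝ} (ht : 0 ≤ t) :
    ∃ X, Loc P X ∧ ∀ W, Loc P W → phi F₀ F₁ t W ≤ phi F₀ F₁ t X := by
  set S : Set ℝ := phi F₀ F₁ t '' {W | Loc P W} with hS
  have hne : S.Nonempty := ⟨_, ⊤, ⟨by simp, fun _ _ _ => trivial, fun _ _ _ => trivial⟩, rfl⟩
  have hbdd : BddAbove S := by
    refine ⟨2 * Fintype.card I, ?_⟩
    rintro _ ⟨W, -, rfl⟩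
    have := mul_nonneg (by linarith : 0 ≤ 1 + t) (dim_nonneg W)
    rw [phi]
    linarith [dim_le_card (F₀ ⊓ W), dim_le_card (F₁ ⊓ W)]
  set M := sSup S with hM
  have hle : ∀ W, Loc P W → phi F₀ F₁ t W ≤ M := fun W hW => le_csSup hbdd ⟨W, hW, rfl⟩
  have hex : ∀ n : ℕ, ∃ W, Loc P W ∧ M - (1 / 2) ^ n ≤ phi F₀ F₁ t W := by
    intro n
    obtain ⟨_, ⟨W, hW, rfl⟩, h⟩ := exists_lt_of_lt_csSup hne
      (show M - (1 / 2) ^ n < M by linarith [pow_pos (by norm_num : (0 : ℝ) < 1 / 2) n])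
    exact ⟨W, hW, h.le⟩
  choose W hW hWM using hex
  have hinf : ∀ X Y, Loc P X → Loc P Y →
      phi F₀ F₁ t X + phi F₀ F₁ t Y - M ≤ phi F₀ F₁ t (X ⊓ Y) := by
    intro X Y hX hY
    have a2 := hle _ (hX.sup hY)
    have a3 := dim_inf_supermodular h₀c h₀ hX hY
    have a4 := dim_inf_supermodular h₁c h₁ hX hY
    have a5 := dim_sup_add_dim_inf hX.closed hY.closed hX.inv hY.inv
    simp only [phi, dim_oo] at a2 ⊢
    have a6 : dim (X ⊔ Y) = dim X + dim Y - dim (X ⊓ Y) := by linarith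
    rw [a6] at a2
    nlinarith
  -- finite intersections
  let U : ℕ → ℕ → Submodule ℂ (L2 (Γ × I)) := fun n N =>
    Nat.rec (W n) (fun k X => X ⊓ W (n + k + 1)) N
  have hU0 : ∀ n, U n 0 = W n := fun _ => rfl
  have hUs : ∀ n k, U n (k + 1) = U n k ⊓ W (n + k + 1) := fun _ _ => rfl
  have hUl : ∀ n k, Loc P (U n k) := by
    intro n k
    induction k with
    | zero => exact hW n
    | succ k ih => exact ih.inf (hW _)
  have hUM : ∀ n k, M - 2 * (1 / 2) ^ n + (1 / 2) ^ (n + k) ≤ phi F₀ F₁ t (U n k) := by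
    intro n k
    induction k with
    | zero => rw [hU0, add_zero]; linarith [hWM n]
    | succ k ih =>
      have a1 := hinf _ _ (hUl n k) (hW (n + k + 1))
      have a2 := hWM (n + k + 1)
      rw [hUs, ← add_assoc]
      rw [pow_succ] at a2 ⊢
      linarith
  have hUa : ∀ n, Antitone (U n) := fun n => antitone_nat_of_succ_le fun k => inf_le_left
  let Z : ℕ → Submodule ℂ (L2 (Γ × I)) := fun n => ⨅ k, U n k
  have hZl : ∀ n, Loc P (Z n) := fun n => loc_iInf (hUl n)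
  have hZM : ∀ n, M - 2 * (1 / 2) ^ n ≤ phi F₀ F₁ t (Z n) := by
    intro n
    have t0 := tendsto_dim_iInf (fun k => F₀ ⊓ U n k) (fun a b h => inf_le_inf_left _ (hUa n h))
      fun k => h₀c.inter (hUl n k).closed
    have t1 := tendsto_dim_iInf (fun k => F₁ ⊓ U n k) (fun a b h => inf_le_inf_left _ (hUa n h))
      fun k => h₁c.inter (hUl n k).closed
    have t2 := tendsto_dim_iInf (U n) (hUa n) fun k => (hUl n k).closed
    rw [← inf_iInf] at t0 t1
    refine ge_of_tendsto' ((t0.add t1).sub (t2.const_mul (1 + t))) fun k => ?_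
    have := hUM n k
    rw [phi] at this
    linarith [pow_pos (by norm_num : (0 : ℝ) < 1 / 2) (n + k)]
  have hZle : ∀ n k, Z n ≤ W (n + k) := by
    intro n k
    cases k with
    | zero => exact iInf_le (U n) 0
    | succ k => exact (iInf_le (U n) (k + 1)).trans inf_le_right
  have hZm : Monotone Z := by
    refine monotone_nat_of_le_succ fun n => le_iInf fun k => ?_
    induction k with
    | zero => exact hZle n 1
    | succ k ih =>
      refine le_inf ih ?_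
      have := hZle n (k + 2)
      rwa [show n + (k + 2) = n + 1 + k + 1 by ring] at this
  refine ⟨_, loc_iSup hZl, fun W' hW' => (hle W' hW').trans ?_⟩
  have t2 := tendsto_dim_iSup Z hZm
  have t3 : Tendsto (fun n : ℕ => M - 2 * (1 / 2 : ℝ) ^ n + (1 + t) * dim (Z n)) atTop
      (𝓝 (M - 2 * 0 + (1 + t) * dim (⨆ n, Z n))) :=
    (((tendsto_pow_atTop_nhds_zero_of_lt_one (by norm_num) (by norm_num)).const_mul 2).const_sub
      M).add (t2.const_mul _)
  have h4 := le_of_tendsto' t3 (b := dim (F₀ ⊓ (⨆ n, Z n)ᗮᗮ) + dim (F₁ ⊓ (⨆ n, Z n)ᗮᗮ)) fun n => by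
    have a1 := hZM n
    have a2 : Z n ≤ (⨆ n, Z n)ᗮᗮ := (le_iSup Z n).trans (Submodule.le_orthogonal_orthogonal _)
    rw [phi] at a1
    linarith [dim_mono' (inf_le_inf_left F₀ a2), dim_mono' (inf_le_inf_left F₁ a2)]
  rw [phi, dim_oo]
  linarith

end HN

end Pool.Agent.P.MP_0f25e6_al.TT
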