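import Pool.Agent.P.MP_0f25e6_al.TT3

/-!
Traces of projections, and mass transport over free orbits.
-/

set_option autoImplicit false

open scoped InnerProductSpace ENNReal Topology
open Filter

noncomputable section

namespace Pool.Agent.P.MP_0f25e6_al.TT

section Trace

variable {X : Type*}

/-- The trace of the projection onto the closure of `Z`. -/
def Tr (Z : Submodule ℂ (L2 X)) : ℝ≥0∞ := ∑' i, ENNReal.ofReal (pn Z (delta i))

theorem Tr_mono {Z Z' : Submodule ℂ (L2 X)} (h : Z ≤ Z') : Tr Z ≤ Tr Z' :=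
  ENNReal.tsum_le_tsum fun _ => ENNReal.ofReal_le_ofReal (pn_mono' h _)

theorem Tr_eq_finrank (Z : Submodule ℂ (L2 X)) [FiniteDimensional ℂ Z] :
    Tr Z = Module.finrank ℂ Z := by
  have hc : IsClosed (Z : Set (L2 X)) := Z.closed_of_finiteDimensional
  let b := stdOrthonormalBasis ℂ Z
  have h1 : ∀ i, pn Z (delta i) = ∑ j, ‖(b j : L2 X) i‖ ^ 2 := by
    intro i
    have := b.sum_sq_norm_inner_left ⟨proj Z (delta i), proj_mem' hc _⟩
    rw [pn]
    refine this.symm.trans (Finset.sum_congr rfl fun j _ => ?_)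
    rw [Submodule.coe_inner, inner_proj_left, proj_of_mem' (b j).2, inner_delta_left]
  have h2 : HasSum (fun i => pn Z (delta i)) (Module.finrank ℂ Z : ℝ) := by
    have h3 := hasSum_sum (s := Finset.univ) fun j _ => hasSum_norm_sq (b j : L2 X)
    simp only [h1]
    have h4 : ∀ j, ‖(b j : L2 X)‖ ^ 2 = 1 := fun j => by
      rw [← Submodule.coe_norm, b.orthonormal.1 j, one_pow]
    simpa [h4] using h3
  rw [Tr, ← ENNReal.ofReal_tsum_of_nonneg (fun _ => pn_nonneg _ _) h2.summable, h2.tsum_eq,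
    ENNReal.ofReal_natCast]

theorem finiteDimensional_of_Tr {Z : Submodule ℂ (L2 X)} (h : Tr Z ≠ ∞) :
    FiniteDimensional ℂ Z := by
  by_contra hfin
  obtain ⟨n, hn⟩ := ENNReal.exists_nat_gt h
  have h1 : (n : Cardinal) ≤ Module.rank ℂ Z := by
    refine (Cardinal.natCast_lt_aleph0 (n := n)).le.trans (not_lt.1 fun h => hfin ?_)
    exact Module.rank_lt_aleph0_iff.1 h
  obtain ⟨f, hf⟩ := exists_linearIndependent_of_le_rank h1
  have hf' : LinearIndependent ℂ (Z.subtype ∘ f) := hf.map' Z.subtype Z.ker_subtype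
  have : FiniteDimensional ℂ (Submodule.span ℂ (Set.range (Z.subtype ∘ f))) :=
    FiniteDimensional.span_of_finite ℂ (Set.finite_range _)
  have h2 := Tr_eq_finrank (Submodule.span ℂ (Set.range (Z.subtype ∘ f)))
  rw [finrank_span_eq_card hf', Fintype.card_fin] at h2
  have h3 : Submodule.span ℂ (Set.range (Z.subtype ∘ f)) ≤ Z := by
    rw [Submodule.span_le]
    rintro _ ⟨i, rfl⟩
    exact (f i).2
  exact absurd (h2 ▸ Tr_mono h3) (not_le.2 hn)

theorem Tr_nat (Z : Submodule ℂ (L2 X)) : Tr Z = ∞ ∨ ∃ n : ℕ, Tr Z = n := by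
  by_cases h : Tr Z = ∞
  · exact Or.inl h
  · have := finiteDimensional_of_Tr h
    exact Or.inr ⟨_, Tr_eq_finrank Z⟩

theorem eq_bot_of_Tr_lt_one {Z : Submodule ℂ (L2 X)} (h : Tr Z < 1) : Z = ⊥ := by
  have := finiteDimensional_of_Tr (h.trans ENNReal.one_lt_top).ne
  rw [Tr_eq_finrank, Nat.cast_lt_one] at h
  exact Submodule.finrank_eq_zero.1 h

end Trace

section Mass

variable {G Ξ : Type*} [Group G] [MulAction G Ξ]

/-- The point has trivial stabiliser. -/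
def Free (G : Type*) {Ξ : Type*} [Group G] [MulAction G Ξ] (ξ : Ξ) : Prop :=
  ∀ g : G, g • ξ = ξ → g = 1

theorem Free.injective {ξ : Ξ} (h : Free G ξ) : Function.Injective fun g : G => g • ξ := by
  intro a b hab
  have : (b⁻¹ * a) • ξ = ξ := by
    rw [mul_smul, show a • ξ = b • ξ from hab, inv_smul_smul]
  exact (inv_mul_eq_one.1 (h _ this)).symm

theorem Free.smul {ξ : Ξ} (h : Free G ξ) (g : G) : Free G (g • ξ) := by
  intro a ha
  have : (a * g) • ξ = g • ξ := by rw [mul_smul, ha]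
  simpa using h.injective this

theorem tsum_orbit_le {ξ : Ξ} (h : Free G ξ) (m : Ξ → ℝ≥0∞) : ∑' g : G, m (g • ξ) ≤ ∑' η, m η :=
  ENNReal.tsum_comp_le_tsum_of_injective h.injective m

theorem exists_orbit_rep (G Ξ : Type*) [Group G] [MulAction G Ξ] :
    ∃ S : Set Ξ, (∀ ξ ∈ S, Free G ξ) ∧ Function.Injective (fun p : S × G => p.2 • p.1.1) ∧
      ∀ ξ, Free G ξ → ξ ∈ Set.range (fun p : S × G => p.2 • p.1.1) := by
  refine ⟨{ξ | Free G ξ ∧ (Quotient.mk (MulAction.orbitRel G Ξ) ξ).out = ξ}, fun ξ h => h.1, ?_, ?_⟩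
  · rintro ⟨⟨a, ha, ha'⟩, g⟩ ⟨⟨b, hb, hb'⟩, h⟩ hab
    have hab' : g • a = h • b := hab
    have h1 : Quotient.mk (MulAction.orbitRel G Ξ) a = Quotient.mk (MulAction.orbitRel G Ξ) b := by
      refine Quotient.sound ⟨g⁻¹ * h, ?_⟩
      change (g⁻¹ * h) • b = a
      rw [mul_smul, ← hab', inv_smul_smul]
    have h2 : a = b := by rw [← ha', h1, hb']
    subst h2
    have h3 : g = h := ha.injective hab'
    subst h3
    rfl
  · intro ξ hξ
    obtain ⟨g, hg⟩ : (MulAction.orbitRel G Ξ) (Quotient.mk (MulAction.orbitRel G Ξ) ξ).out ξ :=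
      Quotient.mk_out (s := MulAction.orbitRel G Ξ) ξ
    have hg' : g • ξ = (Quotient.mk (MulAction.orbitRel G Ξ) ξ).out := hg
    refine ⟨⟨⟨g • ξ, hξ.smul g, ?_⟩, g⁻¹⟩, inv_smul_smul g ξ⟩
    rw [hg', Quotient.out_eq]

theorem mass_le_mass {m₁ m₂ : Ξ → ℝ≥0∞} (h₁ : ∀ ξ, m₁ ξ ≠ 0 → Free G ξ)
    (h : ∀ ξ, Free G ξ → ∑' g : G, m₁ (g • ξ) ≤ ∑' g : G, m₂ (g • ξ)) :
    ∑' ξ, m₁ ξ ≤ ∑' ξ, m₂ ξ := by
  obtain ⟨S, hS, hinj, hsur⟩ := exists_orbit_rep G Ξ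
  rw [← hinj.tsum_eq (f := m₁) fun ξ hξ => hsur ξ (h₁ ξ hξ)]
  refine le_trans ?_ (ENNReal.tsum_comp_le_tsum_of_injective hinj m₂)
  rw [ENNReal.tsum_prod', ENNReal.tsum_prod']
  exact ENNReal.tsum_le_tsum fun a => h a (hS a a.2)

theorem tsum_nat_of_ne_top {ι : Type*} {a : ι → ℝ≥0∞} (h : ∀ i, a i = ∞ ∨ ∃ n : ℕ, a i = n)
    (hne : ∑' i, a i ≠ ∞) : ∃ n : ℕ, ∑' i, a i = n := by
  classical
  choose n hn using fun i => (h i).resolve_left (ENNReal.ne_top_of_tsum_ne_top hne i)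
  have hfin := ENNReal.finite_const_le_of_tsum_ne_top hne one_ne_zero
  refine ⟨∑ i ∈ hfin.toFinset, n i, ?_⟩
  rw [tsum_eq_sum (s := hfin.toFinset)]
  · simp [hn]
  · intro i hi
    rw [Set.Finite.mem_toFinset, Set.mem_ofPred_eq, hn, not_le, Nat.cast_lt_one] at hi
    rw [hn, hi, Nat.cast_zero]

theorem mass_nat {m : Ξ → ℝ≥0∞} (h₁ : ∀ ξ, m ξ ≠ 0 → Free G ξ)
    (h : ∀ ξ, ∑' g : G, m (g • ξ) = ∞ ∨ ∃ n : ℕ, ∑' g : G, m (g • ξ) = n)
    (hne : ∑' ξ, m ξ ≠ ∞) : ∃ n : ℕ, ∑' ξ, m ξ = n := by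
  obtain ⟨S, -, hinj, hsur⟩ := exists_orbit_rep G Ξ
  rw [← hinj.tsum_eq (f := m) fun ξ hξ => hsur ξ (h₁ ξ hξ), ENNReal.tsum_prod'] at hne ⊢
  exact tsum_nat_of_ne_top (fun a => h a) hne

end Mass

end Pool.Agent.P.MP_0f25e6_al.TT
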