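import Pool.Agent.P.MP_0f25e6_al.TT4

/-!
Equivariant families of subspaces that respect a partition into blocks, and their masses.
-/

set_option autoImplicit false

open scoped InnerProductSpace ENNReal Topology
open Filter

noncomputable section

namespace Pool.Agent.P.MP_0f25e6_al.TT

variable {G I B Ξ : Type*} [Group G] [MulAction G B] [MulAction G Ξ]

/-- The location of a coordinate. -/
def loc (b : I → B) (i : G × I) : B := i.1⁻¹ • b i.2

/-- Restriction to the coordinates located in `A`. -/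
def Pr (G : Type*) {I B : Type*} [Group G] [MulAction G B] (b : I → B) (A : Set B) :
    L2 (G × I) →L[ℂ] L2 (G × I) := res (loc b ⁻¹' A)

open Classical in
theorem Pr_apply (b : I → B) (A : Set B) (ζ : L2 (G × I)) (x : G) (c : I) :
    Pr G b A ζ (x, c) = if x⁻¹ • b c ∈ A then ζ (x, c) else 0 := rfl

theorem R_Pr (b : I → B) {A A' : Set B} (g : G) (h : ∀ β, β ∈ A ↔ g • β ∈ A') (ζ : L2 (G × I)) :
    R g (Pr G b A ζ) = Pr G b A' (R g ζ) := by
  classical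
  ext ⟨x, c⟩
  rw [R_apply, Pr_apply, Pr_apply, R_apply, h, mul_inv_rev, mul_smul, smul_inv_smul]

theorem R_Pr_singleton (b : I → B) (β : B) (g : G) (ζ : L2 (G × I)) :
    R g (Pr G b {β} ζ) = Pr G b {g • β} (R g ζ) :=
  R_Pr b g (fun _ => by simp) ζ

theorem inner_Pr (b : I → B) (A : Set B) (u v : L2 (G × I)) :
    ⟪u, Pr G b A v⟫_ℂ = ⟪Pr G b A u, v⟫_ℂ := inner_res _ _ _

theorem Pr_Pr (b : I → B) (A A' : Set B) (v : L2 (G × I)) :
    Pr G b A (Pr G b A' v) = Pr G b (A ∩ A') v := res_res _ _ _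

theorem Pr_comm {B' : Type*} [MulAction G B'] (b : I → B) (b' : I → B') (A : Set B) (A' : Set B')
    (v : L2 (G × I)) : Pr G b A (Pr G b' A' v) = Pr G b' A' (Pr G b A v) := by
  rw [Pr, Pr, res_res, res_res, Set.inter_comm]

theorem Pr_compl (b : I → B) (A : Set B) (v : L2 (G × I)) : Pr G b Aᶜ v = v - Pr G b A v :=
  res_compl _ _

theorem Pr_delta_of_mem (b : I → B) {A : Set B} {c : I} (h : b c ∈ A) :
    Pr G b A (delta (1, c)) = delta (1, c) :=
  res_delta_of_mem (by simpa [loc] using h)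

theorem Pr_delta_of_notMem (b : I → B) {A : Set B} {c : I} (h : b c ∉ A) :
    Pr G b A (delta (1, c)) = 0 :=
  res_delta_of_notMem (by simpa [loc] using h)

/-- The vectors located in `A`. -/
def Bl (G : Type*) {I B : Type*} [Group G] [MulAction G B] (b : I → B) (A : Set B) :
    Submodule ℂ (L2 (G × I)) := (Pr G b Aᶜ).ker

theorem mem_Bl {b : I → B} {A : Set B} {v : L2 (G × I)} : v ∈ Bl G b A ↔ Pr G b A v = v := by
  change Pr G b Aᶜ v = 0 ↔ _
  rw [Pr_compl, sub_eq_zero, eq_comm]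

theorem isClosed_Bl (b : I → B) (A : Set B) : IsClosed (Bl G b A : Set (L2 (G × I))) :=
  (Pr G b Aᶜ).isClosed_ker

theorem Pr_mem_Bl (b : I → B) (A : Set B) (v : L2 (G × I)) : Pr G b A v ∈ Bl G b A := by
  rw [mem_Bl, Pr_Pr, Set.inter_self]

theorem mem_Bl_orth {b : I → B} {A : Set B} {v : L2 (G × I)} (h : Pr G b A v = 0) :
    v ∈ (Bl G b A)ᗮ := by
  rw [Submodule.mem_orthogonal]
  intro u hu
  rw [← mem_Bl.1 hu, ← inner_Pr, h, inner_zero_right]

/-- Stability under restriction to each block. -/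
def Blocky (b : I → B) (Z : Submodule ℂ (L2 (G × I))) : Prop := ∀ β, ∀ ζ ∈ Z, Pr G b {β} ζ ∈ Z

theorem Blocky.orth {b : I → B} {Z : Submodule ℂ (L2 (G × I))} (h : Blocky b Z) : Blocky b Zᗮ := by
  intro β ζ hζ
  rw [Submodule.mem_orthogonal]
  intro u hu
  rw [inner_Pr]
  exact Submodule.inner_right_of_mem_orthogonal (h β u hu) hζ

theorem Blocky.inf {b : I → B} {Z Z' : Submodule ℂ (L2 (G × I))} (h : Blocky b Z)
    (h' : Blocky b Z') : Blocky b (Z ⊓ Z') := fun β ζ hζ => ⟨h β ζ hζ.1, h' β ζ hζ.2⟩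

theorem Blocky.proj_inf {b : I → B} {Z : Submodule ℂ (L2 (G × I))}
    (hc : IsClosed (Z : Set (L2 (G × I)))) (h : Blocky b Z) {β : B} {v : L2 (G × I)}
    (hv : v ∈ Bl G b {β}) : proj (Z ⊓ Bl G b {β}) v = proj Z v := by
  have h1 : proj Z v = Pr G b {β} (proj Z v) := by
    rw [← proj_comm (Pr G b {β}) (Pr G b {β}) (inner_Pr b {β})
      (fun v hv => Z.le_orthogonal_orthogonal (h β v hv))
      (fun v hv => Z.le_orthogonal_orthogonal (h β v hv)), mem_Bl.1 hv]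
  refine proj_eq (Submodule.le_orthogonal_orthogonal _ ⟨proj_mem' hc v, ?_⟩)
    (Submodule.orthogonal_le inf_le_left (sub_proj_mem Z v))
  rw [h1]
  exact Pr_mem_Bl _ _ _

/-- An equivariant family of closed subspaces that respect the blocks. -/
structure Fam (b : I → B) (Z : Ξ → Submodule ℂ (L2 (G × I))) : Prop where
  closed : ∀ ξ, IsClosed (Z ξ : Set (L2 (G × I)))
  blocky : ∀ ξ, Blocky b (Z ξ)
  eqv : ∀ (g : G) ξ, ∀ ζ ∈ Z ξ, R g ζ ∈ Z (g • ξ)

theorem Fam.orth {b : I → B} {Z : Ξ → Submodule ℂ (L2 (G × I))} (h : Fam b Z) :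
    Fam b fun ξ => (Z ξ)ᗮ := by
  refine ⟨fun _ => Submodule.isClosed_orthogonal _, fun ξ => (h.blocky ξ).orth, fun g ξ ζ hζ => ?_⟩
  rw [Submodule.mem_orthogonal]
  intro u hu
  rw [inner_R]
  refine Submodule.inner_right_of_mem_orthogonal ?_ hζ
  simpa using h.eqv g⁻¹ _ u hu

theorem Fam.inf {b : I → B} {Z Z' : Ξ → Submodule ℂ (L2 (G × I))} (h : Fam b Z) (h' : Fam b Z') :
    Fam b fun ξ => Z ξ ⊓ Z' ξ :=
  ⟨fun ξ => (h.closed ξ).inter (h'.closed ξ), fun ξ => (h.blocky ξ).inf (h'.blocky ξ),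
    fun g ξ ζ hζ => ⟨h.eqv g ξ ζ hζ.1, h'.eqv g ξ ζ hζ.2⟩⟩

theorem Loc.fam {b : I → B} {X : Submodule ℂ (L2 (G × I))} (h : Loc (fun β => Pr G b {β}) X) :
    Fam b fun _ : Ξ => X :=
  ⟨fun _ => h.closed, fun _ => h.stable, fun g _ => h.inv g⟩

theorem Loc.orth {b : I → B} {X : Submodule ℂ (L2 (G × I))} (h : Loc (fun β => Pr G b {β}) X) :
    Loc (fun β => Pr G b {β}) Xᗮ :=
  ⟨Submodule.isClosed_orthogonal _, h.inv.orth, Blocky.orth h.stable⟩

variable [Fintype I]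

/-- The total mass of a family. -/
def mass (Z : Ξ → Submodule ℂ (L2 (G × I))) : ℝ≥0∞ :=
  ∑' ξ, ∑ c : I, ENNReal.ofReal (pn (Z ξ) (delta (1, c)))

/-- The mass of one block of one member of a family. -/
def ms (b : I → B) (Z : Ξ → Submodule ℂ (L2 (G × I))) (p : B × Ξ) : ℝ≥0∞ :=
  ∑ c : I, ENNReal.ofReal (pn (Z p.2 ⊓ Bl G b {p.1}) (delta (1, c)))

omit [Fintype I] [MulAction G Ξ] in
theorem pn_inf_Bl_of_ne {b : I → B} (Z : Submodule ℂ (L2 (G × I))) {β : B} {c : I}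
    (h : β ≠ b c) : pn (Z ⊓ Bl G b {β}) (delta (1, c)) = 0 :=
  pn_eq_zero_iff.2 (Submodule.orthogonal_le inf_le_right
    (mem_Bl_orth (Pr_delta_of_notMem b (fun h' => h (Set.mem_singleton_iff.1 h').symm))))

omit [MulAction G Ξ] in
theorem exists_of_ms_ne_zero {b : I → B} {Z : Ξ → Submodule ℂ (L2 (G × I))} {p : B × Ξ}
    (h : ms b Z p ≠ 0) : ∃ c, p.1 = b c := by
  by_contra hne
  push Not at hne
  exact h (Finset.sum_eq_zero fun c _ => by rw [pn_inf_Bl_of_ne _ (hne c), ENNReal.ofReal_zero])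

theorem Fam.tsum_ms {b : I → B} {Z : Ξ → Submodule ℂ (L2 (G × I))} (h : Fam b Z) :
    ∑' p, ms b Z p = mass Z := by
  rw [ENNReal.tsum_prod', ENNReal.tsum_comm, mass]
  refine tsum_congr fun ξ => ?_
  simp only [ms]
  rw [Summable.tsum_finsetSum fun _ _ => ENNReal.summable]
  refine Finset.sum_congr rfl fun c _ => ?_
  rw [tsum_eq_single (b c) fun β hβ => by rw [pn_inf_Bl_of_ne _ hβ, ENNReal.ofReal_zero], pn,
    (h.blocky ξ).proj_inf (h.closed ξ) (mem_Bl.2 (Pr_delta_of_mem b rfl)), pn]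

theorem Fam.tsum_orbit {b : I → B} {Z : Ξ → Submodule ℂ (L2 (G × I))} (h : Fam b Z) (p : B × Ξ) :
    ∑' g : G, ms b Z (g • p) = Tr (Z p.2 ⊓ Bl G b {p.1}) := by
  have key : ∀ (g : G) (p : B × Ξ), ∀ ζ ∈ Z p.2 ⊓ Bl G b {p.1},
      R g ζ ∈ Z (g • p).2 ⊓ Bl G b {(g • p).1} := by
    intro g p ζ hζ
    refine ⟨h.eqv g _ ζ hζ.1, mem_Bl.2 ?_⟩
    rw [Prod.smul_fst, ← R_Pr_singleton, mem_Bl.1 hζ.2]
  rw [Tr, ENNReal.tsum_prod']
  refine tsum_congr fun g => ?_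
  rw [tsum_fintype, ms]
  refine Finset.sum_congr rfl fun c _ => ?_
  have h1 : delta ((1 : G), c) = R g (delta (g, c)) := by rw [R_delta, mul_inv_cancel]
  rw [pn, h1, proj_comm (X := Z p.2 ⊓ Bl G b {p.1}) (R g) (R g⁻¹) (inner_R g)
    (fun v hv => Submodule.le_orthogonal_orthogonal _ (key g p v hv))
    (fun v hv => Submodule.le_orthogonal_orthogonal _ (by simpa using key g⁻¹ (g • p) v hv)),
    norm_R, pn]

theorem Fam.mass_nat {b : I → B} {Z : Ξ → Submodule ℂ (L2 (G × I))} (h : Fam b Z)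
    (hfree : ∀ c (ξ : Ξ), Free G (b c, ξ)) (hne : mass Z ≠ ∞) : ∃ n : ℕ, mass Z = n := by
  rw [← h.tsum_ms] at hne ⊢
  refine TT.mass_nat (G := G) (fun p hp => ?_) (fun p => ?_) hne
  · obtain ⟨c, hc⟩ := exists_of_ms_ne_zero hp
    have := hfree c p.2
    rwa [← hc] at this
  · rw [h.tsum_orbit]
    exact Tr_nat _

end Pool.Agent.P.MP_0f25e6_al.TT
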