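import Pool.Agent.P.MP_0f25e6_al.TT5

/-!
Integrality: between two invariant subspaces that are almost preserved by the walls of a tree there
is an integer dimension.
-/

set_option autoImplicit false

open scoped InnerProductSpace ENNReal Topology
open Filter

noncomputable section

namespace Pool.Agent.P.MP_0f25e6_al.TT

theorem finrank_add_le {E D : Type*} [NormedAddCommGroup E] [InnerProductSpace ℂ E] [Fintype D]
    (A A' : Submodule ℂ E) (S : D → Submodule ℂ E) (hS : ∀ d, FiniteDimensional ℂ (S d))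
    (Φ Ψ : D → E →L[ℂ] E) (hΦ : ∀ d, ∀ ξ ∈ A, Φ d ξ ∈ S d) (hΨ : ∀ d, ∀ ζ ∈ A', Ψ d ζ ∈ S d)
    (horth : ∀ ξ ∈ A, ∀ ζ ∈ A', ∑ d, ⟪Φ d ξ, Ψ d ζ⟫_ℂ = 0)
    (hA : ∀ ξ ∈ A, (∀ d, Φ d ξ = 0) → ξ = 0) (hA' : ∀ ζ ∈ A', (∀ d, Ψ d ζ = 0) → ζ = 0) :
    FiniteDimensional ℂ A ∧ FiniteDimensional ℂ A' ∧
      Module.finrank ℂ A + Module.finrank ℂ A' ≤ ∑ d, Module.finrank ℂ (S d) := by
  let f : (A × A') →ₗ[ℂ] ((d : D) → S d) :=
    LinearMap.pi fun d => LinearMap.codRestrict _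
      ((Φ d).toLinearMap ∘ₗ A.subtype ∘ₗ LinearMap.fst ℂ _ _ +
        (Ψ d).toLinearMap ∘ₗ A'.subtype ∘ₗ LinearMap.snd ℂ _ _)
      fun p => (S d).add_mem (hΦ d _ p.1.2) (hΨ d _ p.2.2)
  have hf : Function.Injective f := by
    rw [injective_iff_map_eq_zero]
    rintro ⟨⟨ξ, hξ⟩, ⟨ζ, hζ⟩⟩ h
    have e1 : ∀ d, Ψ d ζ = - Φ d ξ := fun d =>
      eq_neg_of_add_eq_zero_right (congrArg (fun p => (p d).1) h)
    have e2 := congrArg Complex.re (horth ξ hξ ζ hζ)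
    simp only [e1, inner_neg_right, Complex.re_sum, Complex.neg_re, re_inner_self,
      Finset.sum_neg_distrib, Complex.zero_re, neg_eq_zero] at e2
    have e3 : ∀ d, Φ d ξ = 0 := fun d => by
      rw [← norm_eq_zero, ← pow_eq_zero_iff two_ne_zero]
      exact (Finset.sum_eq_zero_iff_of_nonneg fun _ _ => sq_nonneg _).1 e2 d (Finset.mem_univ d)
    ext1
    · exact Subtype.ext (hA ξ hξ e3)
    · exact Subtype.ext (hA' ζ hζ fun d => by rw [e1, e3, neg_zero])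
  have hfd := FiniteDimensional.of_injective f hf
  have h1 : FiniteDimensional ℂ A :=
    FiniteDimensional.of_injective (LinearMap.inl ℂ A A') LinearMap.inl_injective
  have h2 : FiniteDimensional ℂ A' :=
    FiniteDimensional.of_injective (LinearMap.inr ℂ A A') LinearMap.inr_injective
  have h3 := LinearMap.finrank_le_finrank_of_injective hf
  rw [Module.finrank_prod, Module.finrank_pi_fintype] at h3
  exact ⟨h1, h2, h3⟩

/-- The walls of a tree: `S v w` is the set of edges separating `v` from `w`, and `inc e v` says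
that `v` is an endpoint of `e`. -/
structure Walls (G V W : Type*) [Group G] [MulAction G V] [MulAction G W] where
  S : V → V → Finset W
  inc : W → V → Prop
  S_smul : ∀ (g : G) e v w, g • e ∈ S (g • v) (g • w) ↔ e ∈ S v w
  S_tri : ∀ e u v w, e ∈ S u w ↔ ¬ (e ∈ S u v ↔ e ∈ S v w)
  inc_smul : ∀ (g : G) e v, inc e v → inc (g • e) (g • v)
  uniq : ∀ v z, z ≠ v → ∃! e, inc e v ∧ e ∈ S v z
  two : ∀ e, ∃ a b, ∀ v, inc e v → v = a ∨ v = b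
  head : ∀ u e, ∃ b, inc e b ∧ e ∈ S b u

variable {G I B V W : Type*} [Group G] [MulAction G B] [MulAction G V] [MulAction G W]

namespace Walls

variable (𝒲 : Walls G V W)

theorem notMem_S_self (e : W) (v : V) : e ∉ 𝒲.S v v := by
  have := 𝒲.S_tri e v v v
  tauto

theorem S_symm (e : W) (v w : V) : e ∈ 𝒲.S v w ↔ e ∈ 𝒲.S w v := by
  have h1 := 𝒲.S_tri e v w v
  have h2 := 𝒲.notMem_S_self e v
  tauto

variable (v₀ : V)

/-- Restriction to the side of the wall `e` not containing `v`. -/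
def Q (I : Type*) (v : V) (e : W) : L2 (G × I) →L[ℂ] L2 (G × I) :=
  Pr G (fun _ : I => v₀) {z | e ∈ 𝒲.S v z}

theorem R_Q (g : G) (v : V) (e : W) (ζ : L2 (G × I)) :
    R g (𝒲.Q v₀ I v e ζ) = 𝒲.Q v₀ I (g • v) (g • e) (R g ζ) :=
  R_Pr _ g (fun z => (𝒲.S_smul g e v z).symm) ζ

theorem Q_eq_or (v w : V) (e : W) (ζ : L2 (G × I)) :
    𝒲.Q v₀ I v e ζ = 𝒲.Q v₀ I w e ζ ∨ 𝒲.Q v₀ I v e ζ = ζ - 𝒲.Q v₀ I w e ζ := by
  by_cases h : e ∈ 𝒲.S v w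
  · right
    rw [Q, Q, ← Pr_compl]
    congr 2
    ext z
    have := 𝒲.S_tri e v w z
    simp only [Set.mem_ofPred_eq, Set.mem_compl_iff]
    tauto
  · left
    rw [Q, Q]
    congr 2
    ext z
    have := 𝒲.S_tri e v w z
    simp only [Set.mem_ofPred_eq]
    tauto

/-- The vectors of `X` whose two halves along the wall `e` lie in `Y`. -/
def XE (X Y : Submodule ℂ (L2 (G × I))) (e : W) : Submodule ℂ (L2 (G × I)) :=
  X ⊓ Y.comap (𝒲.Q v₀ I v₀ e : L2 (G × I) →ₗ[ℂ] L2 (G × I))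

/-- The vectors of `X` vanishing at `v` whose parts behind the walls at `v` lie in `Y`. -/
def XV (X Y : Submodule ℂ (L2 (G × I))) (v : V) : Submodule ℂ (L2 (G × I)) :=
  X ⊓ (Pr G (fun _ : I => v₀) {v}).ker ⊓
    ⨅ e : {e // 𝒲.inc e v}, Y.comap (𝒲.Q v₀ I v e : L2 (G × I) →ₗ[ℂ] L2 (G × I))

variable {𝒲 v₀} {X Y : Submodule ℂ (L2 (G × I))}

theorem mem_XE (hXY : X ≤ Y) (v : V) {e : W} {ζ : L2 (G × I)} :
    ζ ∈ 𝒲.XE v₀ X Y e ↔ ζ ∈ X ∧ 𝒲.Q v₀ I v e ζ ∈ Y := by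
  change ζ ∈ X ∧ 𝒲.Q v₀ I v₀ e ζ ∈ Y ↔ _
  refine and_congr_right fun hζ => ?_
  rcases 𝒲.Q_eq_or v₀ v₀ v e ζ with h | h
  · rw [h]
  · rw [h, Y.sub_mem_iff_right (hXY hζ)]

theorem mem_XV {v : V} {ζ : L2 (G × I)} :
    ζ ∈ 𝒲.XV v₀ X Y v ↔ (ζ ∈ X ∧ Pr G (fun _ : I => v₀) {v} ζ = 0) ∧
      ∀ e, 𝒲.inc e v → 𝒲.Q v₀ I v e ζ ∈ Y := by
  simp [XV]

variable {b : I → B}

theorem fam_XE (hX : Loc (fun β => Pr G b {β}) X) (hY : Loc (fun β => Pr G b {β}) Y)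
    (hXY : X ≤ Y) : Fam b (𝒲.XE v₀ X Y) := by
  refine ⟨fun e => hX.closed.inter (hY.closed.preimage (𝒲.Q v₀ I v₀ e).continuous),
    fun e β ζ hζ => ⟨hX.stable β ζ hζ.1, ?_⟩, fun g e ζ hζ => ?_⟩
  · change 𝒲.Q v₀ I v₀ e (Pr G b {β} ζ) ∈ Y
    rw [Q, Pr_comm]
    exact hY.stable β _ hζ.2
  · rw [mem_XE hXY (g • v₀), ← R_Q]
    exact ⟨hX.inv g ζ hζ.1, hY.inv g _ hζ.2⟩

theorem fam_XV (hX : Loc (fun β => Pr G b {β}) X) (hY : Loc (fun β => Pr G b {β}) Y) :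
    Fam b (𝒲.XV v₀ X Y) := by
  refine ⟨fun v => ?_, fun v β ζ hζ => ?_, fun g v ζ hζ => ?_⟩
  · refine (hX.closed.inter (Pr G (fun _ : I => v₀) {v}).isClosed_ker).inter ?_
    rw [Submodule.coe_iInf]
    exact isClosed_iInter fun e => hY.closed.preimage (𝒲.Q v₀ I v e).continuous
  · rw [mem_XV] at hζ ⊢
    refine ⟨⟨hX.stable β ζ hζ.1.1, by rw [Pr_comm, hζ.1.2, map_zero]⟩, fun e he => ?_⟩
    rw [Q, Pr_comm]
    exact hY.stable β _ (hζ.2 e he)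
  · rw [mem_XV] at hζ ⊢
    refine ⟨⟨hX.inv g ζ hζ.1.1, by rw [← R_Pr_singleton, hζ.1.2, map_zero]⟩, fun e he => ?_⟩
    have h1 := 𝒲.R_Q v₀ g v (g⁻¹ • e) ζ
    rw [smul_inv_smul] at h1
    rw [← h1]
    exact hY.inv g _ (hζ.2 _ (by simpa using 𝒲.inc_smul g⁻¹ e _ he))

variable (𝒲 v₀ X Y) in
/-- The defect of the pair along a wall. -/
def ZE (e : W) : Submodule ℂ (L2 (G × I)) := X ⊓ (𝒲.XE v₀ X Y e)ᗮ

variable (𝒲 v₀ X Y) in
/-- The defect of the pair at a vertex. -/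
def ZV (v : V) : Submodule ℂ (L2 (G × I)) := X ⊓ (𝒲.XV v₀ X Y v)ᗮ

theorem fam_ZE (hX : Loc (fun β => Pr G b {β}) X) (hY : Loc (fun β => Pr G b {β}) Y)
    (hXY : X ≤ Y) : Fam b (𝒲.ZE v₀ X Y) := hX.fam.inf (fam_XE hX hY hXY).orth

theorem fam_ZV (hX : Loc (fun β => Pr G b {β}) X) (hY : Loc (fun β => Pr G b {β}) Y) :
    Fam b (𝒲.ZV v₀ X Y) := hX.fam.inf (fam_XV hX hY).orth

theorem sub_proj_mem_XE (hX : Loc (fun β => Pr G b {β}) X) (hY : Loc (fun β => Pr G b {β}) Y)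
    (hXY : X ≤ Y) {β : B} (e : W) {ξ : L2 (G × I)} (hξ : ξ ∈ X) (hβ : ξ ∈ Bl G b {β}) :
    ξ - proj (𝒲.ZE v₀ X Y e ⊓ Bl G b {β}) ξ ∈ 𝒲.XE v₀ X Y e := by
  rw [((fam_ZE hX hY hXY).blocky e).proj_inf ((fam_ZE hX hY hXY).closed e) hβ, ZE,
    proj_inf_orth hX.closed (show 𝒲.XE v₀ X Y e ≤ X from inf_le_left), proj_of_mem' hξ,
    sub_sub_cancel]
  exact proj_mem' ((fam_XE hX hY hXY).closed e) ξ

theorem inner_Q_eq (hX : Loc (fun β => Pr G b {β}) X) (hY : Loc (fun β => Pr G b {β}) Y)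
    (hXY : X ≤ Y) {β : B} (v : V) (e : W) {ξ ζ : L2 (G × I)} (hξ : ξ ∈ X) (hβ : ξ ∈ Bl G b {β})
    (hζ : ζ ∈ Yᗮ) : ⟪ξ, 𝒲.Q v₀ I v e ζ⟫_ℂ = ⟪proj (𝒲.ZE v₀ X Y e ⊓ Bl G b {β}) ξ,
      proj (𝒲.ZE v₀ X Y e ⊓ Bl G b {β}) (𝒲.Q v₀ I v e ζ)⟫_ℂ := by
  have h1 := ((mem_XE hXY v).1 (sub_proj_mem_XE (𝒲 := 𝒲) (v₀ := v₀) hX hY hXY e hξ hβ)).2
  have h2 := Submodule.inner_right_of_mem_orthogonal h1 hζ
  rw [Q, ← inner_Pr, inner_sub_left, sub_eq_zero] at h2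
  rw [← inner_proj_left, proj_proj, Q, h2]

theorem Q_mem_orth (hX : Loc (fun β => Pr G b {β}) X) (hY : Loc (fun β => Pr G b {β}) Y)
    (hXY : X ≤ Y) {β : B} (v : V) (e : W) {ζ : L2 (G × I)} (hζ : ζ ∈ Yᗮ) (hβ : ζ ∈ Bl G b {β})
    (h : proj (𝒲.ZE v₀ X Y e ⊓ Bl G b {β}) (𝒲.Q v₀ I v e ζ) = 0) : 𝒲.Q v₀ I v e ζ ∈ Xᗮ := by
  rw [Submodule.mem_orthogonal]
  intro ξ hξ
  have h1 : 𝒲.Q v₀ I v e ζ = Pr G b {β} (𝒲.Q v₀ I v e ζ) := by
    rw [Q, Pr_comm, mem_Bl.1 hβ]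
  rw [h1, inner_Pr, inner_Q_eq hX hY hXY v e (hX.stable β ξ hξ) (Pr_mem_Bl _ _ _) hζ, h,
    inner_zero_right]

theorem Tr_ZE_orth_le (hX : Loc (fun β => Pr G b {β}) X) (hY : Loc (fun β => Pr G b {β}) Y)
    (hXY : X ≤ Y) (β : B) (e : W) :
    Tr (𝒲.ZE v₀ Yᗮ Xᗮ e ⊓ Bl G b {β}) ≤ Tr (𝒲.ZE v₀ X Y e ⊓ Bl G b {β}) := by
  by_cases htop : Tr (𝒲.ZE v₀ X Y e ⊓ Bl G b {β}) = ∞
  · rw [htop]; exact le_top
  have := finiteDimensional_of_Tr htop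
  have hc : IsClosed ((𝒲.ZE v₀ X Y e ⊓ Bl G b {β} : Submodule ℂ _) : Set (L2 (G × I))) :=
    ((fam_ZE hX hY hXY).closed e).inter (isClosed_Bl b {β})
  let f : ↥(𝒲.ZE v₀ Yᗮ Xᗮ e ⊓ Bl G b {β}) →ₗ[ℂ] ↥(𝒲.ZE v₀ X Y e ⊓ Bl G b {β}) :=
    LinearMap.codRestrict _ ((proj (𝒲.ZE v₀ X Y e ⊓ Bl G b {β}) ∘L 𝒲.Q v₀ I v₀ e :
      L2 (G × I) →L[ℂ] L2 (G × I)).toLinearMap ∘ₗ Submodule.subtype _) fun _ => proj_mem' hc _
  have hf : Function.Injective f := by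
    rw [injective_iff_map_eq_zero]
    rintro ⟨ζ, ⟨h1, h2⟩, h3⟩ h
    have h4 := Q_mem_orth hX hY hXY v₀ e h1 h3 (congrArg Subtype.val h)
    have h5 : ζ ∈ 𝒲.XE v₀ Yᗮ Xᗮ e := ⟨h1, h4⟩
    exact Subtype.ext (inner_self_eq_zero.1 (Submodule.inner_right_of_mem_orthogonal h5 h2))
  have := FiniteDimensional.of_injective f hf
  rw [Tr_eq_finrank, Tr_eq_finrank, Nat.cast_le]
  exact LinearMap.finrank_le_finrank_of_injective hf

theorem inner_eq_add (v : V) (ξ ζ : L2 (G × I)) (D : Finset W) (hD : ∀ e ∈ D, 𝒲.inc e v)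
    (h : ∀ e, 𝒲.inc e v → e ∉ D → ⟪ξ, 𝒲.Q v₀ I v e ζ⟫_ℂ = 0) :
    ⟪ξ, ζ⟫_ℂ = ⟪ξ, Pr G (fun _ : I => v₀) {v} ζ⟫_ℂ + ∑ e ∈ D, ⟪ξ, 𝒲.Q v₀ I v e ζ⟫_ℂ := by
  classical
  let f : V → Option W := fun z => if h : z = v then none else some (𝒲.uniq v z h).exists.choose
  have hnone : f ⁻¹' {none} = {v} := by
    ext z
    by_cases hz : z = v <;> simp [f, hz]
  have hsome : ∀ e z, f z = some e ↔ 𝒲.inc e v ∧ e ∈ 𝒲.S v z := by
    intro e z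
    by_cases hz : z = v
    · subst hz
      simp [f, 𝒲.notMem_S_self]
    · simp only [f, dif_neg hz, Option.some.injEq]
      exact ⟨fun h => h ▸ (𝒲.uniq v z hz).exists.choose_spec,
        fun h => (𝒲.uniq v z hz).unique (𝒲.uniq v z hz).exists.choose_spec h⟩
  have hQ : ∀ e, 𝒲.inc e v → Pr G (fun _ : I => v₀) (f ⁻¹' {some e}) ζ = 𝒲.Q v₀ I v e ζ := by
    intro e he
    rw [Q]
    congr 2
    ext z
    simp [hsome, he]
  have h1 : HasSum (fun o => ⟪ξ, Pr G (fun _ : I => v₀) (f ⁻¹' {o}) ζ⟫_ℂ) ⟪ξ, ζ⟫_ℂ :=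
    (hasSum_res_fiber (f ∘ loc fun _ : I => v₀) ζ).mapL (innerSL ℂ ξ)
  have h2 := hasSum_sum_of_ne_finset_zero (L := SummationFilter.unconditional _)
    (f := fun o => ⟪ξ, Pr G (fun _ : I => v₀) (f ⁻¹' {o}) ζ⟫_ℂ) (s := Finset.insertNone D) (by
      rintro (_ | e) ho
      · simp at ho
      · by_cases he : 𝒲.inc e v
        · rw [hQ e he]
          exact h e he (by simpa using ho)
        · have : f ⁻¹' {some e} = ∅ := by
            ext z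
            simp [hsome, he]
          rw [this, Pr, Set.preimage_empty, res_empty, inner_zero_right])
  rw [h1.unique h2, Finset.sum_insertNone, hnone]
  exact congrArg _ (Finset.sum_congr rfl fun e he => by rw [hQ e (hD e he)])

theorem Tr_ZV_le (hX : Loc (fun β => Pr G b {β}) X) (hY : Loc (fun β => Pr G b {β}) Y)
    (hXY : X ≤ Y) (β : B) (v : V) :
    Tr (𝒲.ZV v₀ X Y v ⊓ Bl G b {β}) + Tr (𝒲.ZV v₀ Yᗮ Xᗮ v ⊓ Bl G b {β}) ≤
      Tr (Bl G (fun _ : I => v₀) {v} ⊓ Bl G b {β}) +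
        ∑' e : {e // 𝒲.inc e v}, Tr (𝒲.ZE v₀ X Y e ⊓ Bl G b {β}) := by
  classical
  by_cases htop : Tr (Bl G (fun _ : I => v₀) {v} ⊓ Bl G b {β}) +
        ∑' e : {e // 𝒲.inc e v}, Tr (𝒲.ZE v₀ X Y e ⊓ Bl G b {β}) = ∞
  · rw [htop]; exact le_top
  obtain ⟨ht1, ht2⟩ := ENNReal.add_ne_top.1 htop
  have hfin := ENNReal.finite_const_le_of_tsum_ne_top ht2 one_ne_zero
  set D := hfin.toFinset with hD
  set Z : W → Submodule ℂ (L2 (G × I)) := fun e => 𝒲.ZE v₀ X Y e ⊓ Bl G b {β} with hZ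
  set P := Pr G (fun _ : I => v₀) {v} with hP
  have hZc : ∀ e, IsClosed (Z e : Set (L2 (G × I))) := fun e =>
    ((fam_ZE hX hY hXY).closed e).inter (isClosed_Bl b {β})
  have hbot : ∀ e (he : 𝒲.inc e v), (⟨e, he⟩ : {e // 𝒲.inc e v}) ∉ D →
      ∀ ξ, proj (Z e) ξ = 0 := by
    intro e he hn ξ
    rw [hD, Set.Finite.mem_toFinset, Set.mem_ofPred_eq, not_le] at hn
    exact (Submodule.eq_bot_iff _).1 (eq_bot_of_Tr_lt_one hn) _ (proj_mem' (hZc e) ξ)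
  have hPmem : ∀ ξ ∈ Bl G b {β}, P ξ ∈ Bl G (fun _ : I => v₀) {v} ⊓ Bl G b {β} := fun ξ hξ =>
    ⟨Pr_mem_Bl _ _ _, mem_Bl.2 (by rw [hP, Pr_comm, mem_Bl.1 hξ])⟩
  have key := finrank_add_le (𝒲.ZV v₀ X Y v ⊓ Bl G b {β}) (𝒲.ZV v₀ Yᗮ Xᗮ v ⊓ Bl G b {β})
    (fun o : Option D => o.elim (Bl G (fun _ : I => v₀) {v} ⊓ Bl G b {β}) fun e => Z e.1.1)
    (by
      rintro (_ | e)
      · exact finiteDimensional_of_Tr ht1
      · exact finiteDimensional_of_Tr (ENNReal.ne_top_of_tsum_ne_top ht2 e.1))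
    (fun o => o.elim P fun e => proj (Z e.1.1))
    (fun o => o.elim P fun e => proj (Z e.1.1) ∘L 𝒲.Q v₀ I v e.1.1)
    (by
      rintro (_ | e) ξ hξ
      · exact hPmem ξ hξ.2
      · exact proj_mem' (hZc _) _)
    (by
      rintro (_ | e) ξ hξ
      · exact hPmem ξ hξ.2
      · exact proj_mem' (hZc _) _)
    (by
      rintro ξ ⟨⟨hξ1, -⟩, hξ3⟩ ζ ⟨⟨hζ1, -⟩, -⟩
      have e4 := inner_eq_add (𝒲 := 𝒲) (v₀ := v₀) v ξ ζ (D.map (Function.Embedding.subtype _))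
        (by
          intro e he
          obtain ⟨a, -, rfl⟩ := Finset.mem_map.1 he
          exact a.2)
        (by
          intro e he hn
          rw [inner_Q_eq hX hY hXY v e hξ1 hξ3 hζ1,
            hbot e he (fun h => hn (Finset.mem_map.2 ⟨_, h, rfl⟩)), inner_zero_left])
      rw [Submodule.inner_right_of_mem_orthogonal (hXY hξ1) hζ1, Finset.sum_map,
        ← Finset.sum_coe_sort D] at e4
      rw [Fintype.sum_option, e4]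
      congr 1
      · change ⟪P ξ, P ζ⟫_ℂ = _
        rw [hP, ← inner_Pr, Pr_Pr, Set.inter_self]
      · exact Finset.sum_congr rfl fun e _ => (inner_Q_eq hX hY hXY v e.1.1 hξ1 hξ3 hζ1).symm)
    (by
      rintro ξ ⟨⟨hξ1, hξ2⟩, hξ3⟩ h
      have f1 : ξ ∈ 𝒲.XV v₀ X Y v := by
        refine mem_XV.2 ⟨⟨hξ1, h none⟩, fun e he => ?_⟩
        have e9 : proj (Z e) ξ = 0 := by
          by_cases hn : (⟨e, he⟩ : {e // 𝒲.inc e v}) ∈ D
          · exact h (some ⟨_, hn⟩)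
          · exact hbot e he hn ξ
        have := sub_proj_mem_XE (𝒲 := 𝒲) (v₀ := v₀) hX hY hXY e hξ1 hξ3
        rw [e9, sub_zero] at this
        exact ((mem_XE hXY v).1 this).2
      exact inner_self_eq_zero.1 (Submodule.inner_right_of_mem_orthogonal f1 hξ2))
    (by
      rintro ζ ⟨⟨hζ1, hζ2⟩, hζ3⟩ h
      have f2 : ζ ∈ 𝒲.XV v₀ Yᗮ Xᗮ v := by
        refine mem_XV.2 ⟨⟨hζ1, h none⟩, fun e he => Q_mem_orth hX hY hXY v e hζ1 hζ3 ?_⟩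
        by_cases hn : (⟨e, he⟩ : {e // 𝒲.inc e v}) ∈ D
        · exact h (some ⟨_, hn⟩)
        · exact hbot e he hn _
      exact inner_self_eq_zero.1 (Submodule.inner_right_of_mem_orthogonal f2 hζ2))
  obtain ⟨k1, k2, k3⟩ := key
  rw [Fintype.sum_option] at k3
  have := finiteDimensional_of_Tr ht1
  have hZf : ∀ e : D, FiniteDimensional ℂ (Z e.1.1) := fun e =>
    finiteDimensional_of_Tr (ENNReal.ne_top_of_tsum_ne_top ht2 e.1)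
  rw [Tr_eq_finrank, Tr_eq_finrank, Tr_eq_finrank]
  refine le_trans (by exact_mod_cast k3 : _ ≤ ((Module.finrank ℂ
    ↥(Bl G (fun _ : I => v₀) {v} ⊓ Bl G b {β}) : ℝ≥0∞) +
      ∑ e : D, (Module.finrank ℂ (Z e.1.1) : ℝ≥0∞))) (add_le_add_right ?_ _)
  refine le_trans (le_of_eq ?_) (ENNReal.sum_le_tsum D)
  rw [← Finset.sum_coe_sort D]
  exact Finset.sum_congr rfl fun e _ => (Tr_eq_finrank _).symm

end Walls

end Pool.Agent.P.MP_0f25e6_al.TT
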