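import Pool.Agent.P.MP_0f25e6_al.TT6

/-!
The mass transport argument: a pair of invariant subspaces with finite total defect along the walls
of a tree has an integer between its dimensions.
-/

set_option autoImplicit false

open scoped InnerProductSpace ENNReal Topology
open Filter

noncomputable section

namespace Pool.Agent.P.MP_0f25e6_al.TT

variable {G I B V W : Type*} [Group G] [MulAction G B] [MulAction G V] [MulAction G W] [Fintype I]

namespace Walls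

variable {𝒲 : Walls G V W} {v₀ : V} {X Y : Submodule ℂ (L2 (G × I))} {b : I → B}

omit [MulAction G V] in
theorem free_of_ms {Z : W → Submodule ℂ (L2 (G × I))} (hfree : ∀ c (e : W), Free G (b c, e))
    (p : B × W) (hp : ms b Z p ≠ 0) : Free G p := by
  obtain ⟨c, hc⟩ := exists_of_ms_ne_zero hp
  have := hfree c p.2
  rwa [← hc] at this

theorem mass_ZE_orth_le (hX : Loc (fun β => Pr G b {β}) X) (hY : Loc (fun β => Pr G b {β}) Y)
    (hXY : X ≤ Y) (hfree : ∀ c (e : W), Free G (b c, e)) :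
    mass (𝒲.ZE v₀ Yᗮ Xᗮ) ≤ mass (𝒲.ZE v₀ X Y) := by
  have h1 := fam_ZE (𝒲 := 𝒲) (v₀ := v₀) hY.orth hX.orth (Submodule.orthogonal_le hXY)
  have h2 := fam_ZE (𝒲 := 𝒲) (v₀ := v₀) hX hY hXY
  rw [← h1.tsum_ms, ← h2.tsum_ms]
  refine mass_le_mass (G := G) (free_of_ms hfree) fun p _ => ?_
  rw [h1.tsum_orbit, h2.tsum_orbit]
  exact Tr_ZE_orth_le hX hY hXY _ _

theorem dim_add_mass_le (hX : Loc (fun β => Pr G b {β}) X) (hXY : X ≤ Y) :
    ENNReal.ofReal (dim X) + mass (𝒲.ZE v₀ X Y) ≤ mass (𝒲.ZV v₀ X Y) := by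
  choose hd hd1 hd2 using 𝒲.head v₀
  have hne : ∀ e, v₀ ≠ hd e := fun e h => 𝒲.notMem_S_self e v₀ (by simpa [← h] using hd2 e)
  have hinj : Function.Injective hd := fun e e' h =>
    (𝒲.uniq (hd e) v₀ (hne e)).unique ⟨hd1 e, hd2 e⟩ (h ▸ ⟨hd1 e', hd2 e'⟩)
  rw [mass, mass, ENNReal.tsum_eq_add_tsum_ite (β := V) v₀]
  refine add_le_add (le_of_eq ?_) (le_trans (ENNReal.tsum_le_tsum fun e => ?_)
    (ENNReal.tsum_comp_le_tsum_of_injective hinj _))
  · rw [dim, ENNReal.ofReal_sum_of_nonneg fun _ _ => pn_nonneg _ _]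
    refine Finset.sum_congr rfl fun c _ => ?_
    have h1 : pn (𝒲.XV v₀ X Y v₀) (delta (1, c)) = 0 := by
      rw [pn_eq_zero_iff, Submodule.mem_orthogonal]
      intro u hu
      rw [← Pr_delta_of_mem (G := G) (fun _ : I => v₀) (A := {v₀}) (c := c) rfl, inner_Pr,
        (mem_XV.1 hu).1.2, inner_zero_left]
    change _ = ENNReal.ofReal (pn (X ⊓ (𝒲.XV v₀ X Y v₀)ᗮ) _)
    rw [pn_inf_orth hX.closed fun u hu => (mem_XV.1 hu).1.1, h1, sub_zero]
  · rw [if_neg (hne e).symm]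
    refine Finset.sum_le_sum fun c _ => ?_
    refine ENNReal.ofReal_le_ofReal (pn_mono' (inf_le_inf_left _ (Submodule.orthogonal_le ?_)) _)
    intro u hu
    exact (mem_XE hXY (hd e)).2 ⟨(mem_XV.1 hu).1.1, (mem_XV.1 hu).2 e (hd1 e)⟩

omit [MulAction G W] [Fintype I] in
theorem fam_Bl (b : I → B) (v₀ : V) : Fam b fun v : V => Bl G (fun _ : I => v₀) {v} := by
  refine ⟨fun v => isClosed_Bl _ _, fun v β ζ hζ => mem_Bl.2 ?_, fun g v ζ hζ => mem_Bl.2 ?_⟩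
  · rw [Pr_comm, mem_Bl.1 hζ]
  · rw [← R_Pr_singleton, mem_Bl.1 hζ]

omit [MulAction G B] [MulAction G W] in
theorem mass_Bl_le (v₀ : V) :
    mass (fun v : V => Bl G (fun _ : I => v₀) {v}) ≤ (Fintype.card I : ℝ≥0∞) := by
  rw [mass, tsum_eq_single v₀]
  · refine (Finset.sum_le_sum (g := fun _ => 1) fun c _ => ?_).trans (by simp)
    refine ENNReal.ofReal_le_one.2 ((pn_le _ _).trans ?_)
    rw [norm_delta, one_pow]
  · intro v hv
    refine Finset.sum_eq_zero fun c _ => ?_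
    rw [pn_eq_zero_iff.2 (mem_Bl_orth (Pr_delta_of_notMem _ fun h => hv h.symm)),
      ENNReal.ofReal_zero]

theorem mass_ZV_add_le (hX : Loc (fun β => Pr G b {β}) X) (hY : Loc (fun β => Pr G b {β}) Y)
    (hXY : X ≤ Y) (hfree : ∀ c (v : V), Free G (b c, v)) :
    mass (𝒲.ZV v₀ X Y) + mass (𝒲.ZV v₀ Yᗮ Xᗮ) ≤ Fintype.card I + 2 * mass (𝒲.ZE v₀ X Y) := by
  classical
  have h1 := fam_ZV (𝒲 := 𝒲) (v₀ := v₀) hX hY
  have h2 := fam_ZV (𝒲 := 𝒲) (v₀ := v₀) hY.orth hX.orth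
  have h3 := fam_ZE (𝒲 := 𝒲) (v₀ := v₀) hX hY hXY
  have h4 := fam_Bl (G := G) b v₀
  let m : B × V → ℝ≥0∞ := fun p => ∑' e, if 𝒲.inc e p.2 then ms b (𝒲.ZE v₀ X Y) (p.1, e) else 0
  have h5 : ∑' p, m p ≤ 2 * mass (𝒲.ZE v₀ X Y) := by
    rw [← h3.tsum_ms, ← ENNReal.tsum_mul_left, ENNReal.tsum_prod', ENNReal.tsum_prod']
    refine ENNReal.tsum_le_tsum fun β => ?_
    rw [ENNReal.tsum_comm]
    refine ENNReal.tsum_le_tsum fun e => ?_
    obtain ⟨a, a', h⟩ := 𝒲.two e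
    calc ∑' v, (if 𝒲.inc e v then ms b (𝒲.ZE v₀ X Y) (β, e) else 0)
        ≤ ∑' v, ((if v = a then ms b (𝒲.ZE v₀ X Y) (β, e) else 0) +
          (if v = a' then ms b (𝒲.ZE v₀ X Y) (β, e) else 0)) := by
          refine ENNReal.tsum_le_tsum fun v => ?_
          by_cases hv : 𝒲.inc e v
          · rcases h v hv with rfl | rfl <;> simp [hv]
          · simp [hv]
      _ = _ := by rw [ENNReal.tsum_add, tsum_ite_eq, tsum_ite_eq, two_mul]
  refine le_trans ?_ (add_le_add (mass_Bl_le (G := G) v₀) h5)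
  rw [← h1.tsum_ms, ← h2.tsum_ms, ← h4.tsum_ms, ← ENNReal.tsum_add, ← ENNReal.tsum_add]
  refine mass_le_mass (G := G) (fun p hp => ?_) fun p _ => ?_
  · by_cases h : ms b (𝒲.ZV v₀ X Y) p = 0
    · rw [h, zero_add] at hp
      exact free_of_ms hfree p hp
    · exact free_of_ms hfree p h
  · rw [ENNReal.tsum_add, ENNReal.tsum_add, h1.tsum_orbit, h2.tsum_orbit, h4.tsum_orbit]
    refine (Tr_ZV_le hX hY hXY p.1 p.2).trans (add_le_add_right ?_ _)
    have h6 : ∀ e : {e // 𝒲.inc e p.2}, Tr (𝒲.ZE v₀ X Y e ⊓ Bl G b {p.1}) =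
        ∑' g : G, ms b (𝒲.ZE v₀ X Y) (g • (p.1, e.1)) := fun e => (h3.tsum_orbit (p.1, e.1)).symm
    simp only [h6]
    rw [ENNReal.tsum_comm]
    refine ENNReal.tsum_le_tsum fun g => ?_
    have hinj : Function.Injective fun e : {e // 𝒲.inc e p.2} => g • e.1 := fun e e' h =>
      Subtype.ext (MulAction.injective g h)
    refine le_trans (le_of_eq (tsum_congr fun e => ?_))
      (ENNReal.tsum_comp_le_tsum_of_injective hinj _)
    exact (if_pos (𝒲.inc_smul g e _ e.2)).symm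

/-- Integrality. -/
theorem exists_int_between (hX : Loc (fun β => Pr G b {β}) X) (hY : Loc (fun β => Pr G b {β}) Y)
    (hXY : X ≤ Y) (hV : ∀ c (v : V), Free G (b c, v)) (hW : ∀ c (e : W), Free G (b c, e))
    (hfin : mass (𝒲.ZE v₀ X Y) ≠ ∞) : ∃ N : ℤ, dim X ≤ N ∧ (N : ℝ) ≤ dim Y := by
  have a1 := dim_add_mass_le (𝒲 := 𝒲) (v₀ := v₀) hX hXY
  have a2 := dim_add_mass_le (𝒲 := 𝒲) (v₀ := v₀) hY.orth (Submodule.orthogonal_le hXY)
  have a3 := mass_ZV_add_le (𝒲 := 𝒲) (v₀ := v₀) hX hY hXY hV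
  have a4 := mass_ZE_orth_le (𝒲 := 𝒲) (v₀ := v₀) hY.orth hX.orth (Submodule.orthogonal_le hXY) hW
  rw [oo_eq hX.closed, oo_eq hY.closed] at a4
  obtain ⟨s, hs⟩ := (fam_ZE hX hY hXY).mass_nat hW hfin
  have b1 : mass (𝒲.ZV v₀ X Y) + mass (𝒲.ZV v₀ Yᗮ Xᗮ) ≠ ∞ := by
    refine ne_top_of_le_ne_top ?_ a3
    rw [hs]
    finiteness
  obtain ⟨l, hl⟩ := (fam_ZV hX hY).mass_nat hV (ENNReal.add_ne_top.1 b1).1
  obtain ⟨l', hl'⟩ := (fam_ZV hY.orth hX.orth).mass_nat hV (ENNReal.add_ne_top.1 b1).2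
  rw [hs, hl] at a1
  rw [hs, hl, hl'] at a3
  have a5 : ENNReal.ofReal (dim Yᗮ) + s ≤ l' := by
    rw [← hs, ← hl']
    exact (add_le_add_right a4 _).trans a2
  have c1 : dim X + s ≤ l := by
    rw [← ENNReal.ofReal_natCast, ← ENNReal.ofReal_natCast,
      ← ENNReal.ofReal_add (dim_nonneg _) (Nat.cast_nonneg _),
      ENNReal.ofReal_le_ofReal_iff (Nat.cast_nonneg _)] at a1
    exact a1
  have c2 : dim Yᗮ + s ≤ l' := by
    rw [← ENNReal.ofReal_natCast, ← ENNReal.ofReal_natCast,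
      ← ENNReal.ofReal_add (dim_nonneg _) (Nat.cast_nonneg _),
      ENNReal.ofReal_le_ofReal_iff (Nat.cast_nonneg _)] at a5
    exact a5
  have c3 : (l : ℝ) + l' ≤ Fintype.card I + 2 * s := by exact_mod_cast a3
  refine ⟨l - s, ?_, ?_⟩
  · push_cast
    linarith
  · push_cast
    linarith [dim_add_dim_orth Y]

end Walls

end Pool.Agent.P.MP_0f25e6_al.TT
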