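import Pool.Agent.P.MP_0f25e6_al.TT7

/-!
The deformation along the walls: a block diagonal unitary built from commuting reflections.
-/

set_option autoImplicit false

open scoped InnerProductSpace ENNReal Topology
open Filter

noncomputable section

namespace Pool.Agent.P.MP_0f25e6_al.TT

section Block

variable {X B : Type*}

theorem hasSum_norm_sq_res (A : Set X) (ζ : L2 X) :
    HasSum (fun i : A => ‖ζ i‖ ^ 2) (‖res A ζ‖ ^ 2) := by
  classical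
  have h := hasSum_norm_sq (res A ζ)
  rw [show (fun i : A => ‖ζ i‖ ^ 2) = (fun i => ‖ζ i‖ ^ 2) ∘ Subtype.val from rfl,
    hasSum_subtype_iff_indicator]
  convert h using 2 with i
  by_cases hi : i ∈ A <;> simp [res_apply, hi]

theorem hasSum_block (f : X → B) (T : B → L2 X →L[ℂ] L2 X)
    (h : ∀ b ζ, ‖res (f ⁻¹' {b}) (T b ζ)‖ = ‖res (f ⁻¹' {b}) ζ‖) (ζ : L2 X) :
    HasSum (fun i => ‖T (f i) ζ i‖ ^ 2) (‖ζ‖ ^ 2) := by
  have h1 : ∀ b, HasSum (fun c : {a // f a = b} => ‖T (f c.1) ζ c.1‖ ^ 2)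
      (‖res (f ⁻¹' {b}) ζ‖ ^ 2) := by
    intro b
    rw [← h]
    have h0 : (fun c : {a // f a = b} => ‖T (f c.1) ζ c.1‖ ^ 2) =
        fun c : {a // f a = b} => ‖T b ζ c.1‖ ^ 2 := funext fun c => by rw [c.2]
    rw [h0]
    exact hasSum_norm_sq_res (f ⁻¹' {b}) (T b ζ)
  have h2 : HasSum (fun b => ‖res (f ⁻¹' {b}) ζ‖ ^ 2) (‖ζ‖ ^ 2) :=
    ((Equiv.sigmaFiberEquiv f).hasSum_iff.2 (hasSum_norm_sq ζ)).sigma fun b =>
      hasSum_norm_sq_res (f ⁻¹' {b}) ζ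
  rw [← (Equiv.sigmaFiberEquiv f).hasSum_iff]
  refine h2.sigma_of_hasSum h1 ((summable_sigma_of_nonneg fun _ => sq_nonneg _).2
    ⟨fun b => (h1 b).summable, ?_⟩)
  convert h2.summable using 2 with b
  exact (h1 b).tsum_eq

/-- The block diagonal isometry with the given blocks. -/
def blockOp (f : X → B) (T : B → L2 X →L[ℂ] L2 X)
    (h : ∀ b ζ, ‖res (f ⁻¹' {b}) (T b ζ)‖ = ‖res (f ⁻¹' {b}) ζ‖) : L2 X →ₗᵢ[ℂ] L2 X where
  toFun ζ := ⟨fun i => T (f i) ζ i, by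
    change Memℓp (fun i => T (f i) ζ i) 2
    rw [memℓp_two_iff]
    exact (hasSum_block f T h ζ).summable⟩
  map_add' ζ η := by
    ext i
    change T (f i) (ζ + η) i = T (f i) ζ i + T (f i) η i
    rw [map_add]
    rfl
  map_smul' a ζ := by
    ext i
    change T (f i) (a • ζ) i = a • T (f i) ζ i
    rw [map_smul]
    rfl
  norm_map' ζ := (pow_left_inj₀ (norm_nonneg _) (norm_nonneg _) two_ne_zero).1
    ((hasSum_norm_sq _).unique (hasSum_block f T h ζ))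

end Block

/-- A family of finite subgroups of the kernel of `π`, one for each wall, permuted by conjugation
and independent. -/
structure Def {G Γ : Type*} [Group G] [Group Γ] (π : Γ →* G) (W K : Type*) [MulAction G W]
    [Group K] where
  s : W → K →* Γ
  π_s : ∀ e k, π (s e k) = 1
  conj : ∀ x e k, x * s e k = s (π x • e) k * x
  inj : ∀ e k, s e k = 1 → k = 1
  indep : ∀ e e' k k', e ≠ e' → s e k * s e' k' = 1 → k = 1 ∧ k' = 1

variable {G Γ I W K : Type*} [Group G] [Group Γ]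

/-- Restriction to the preimage of a set of coordinates of the quotient. -/
def Fb (π : Γ →* G) (A : Set (G × I)) : L2 (Γ × I) →L[ℂ] L2 (Γ × I) := res (Prod.map π id ⁻¹' A)

variable {π : Γ →* G}

theorem Fb_apply_of_mem {A : Set (G × I)} (ζ : L2 (Γ × I)) {x : Γ} {c : I} (h : (π x, c) ∈ A) :
    Fb π A ζ (x, c) = ζ (x, c) := res_apply_of_mem _ h

theorem Fb_apply_of_notMem {A : Set (G × I)} (ζ : L2 (Γ × I)) {x : Γ} {c : I} (h : (π x, c) ∉ A) :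
    Fb π A ζ (x, c) = 0 := res_apply_of_notMem _ h

theorem R_Fb {A A' : Set (G × I)} (y : Γ) (h : ∀ g c, (g * π y, c) ∈ A ↔ (g, c) ∈ A')
    (ζ : L2 (Γ × I)) : R y (Fb π A ζ) = Fb π A' (R y ζ) := by
  ext ⟨x, c⟩
  by_cases hx : (π x, c) ∈ A'
  · rw [R_apply, Fb_apply_of_mem _ hx, Fb_apply_of_mem _ (by rwa [map_mul, h]), R_apply]
  · rw [R_apply, Fb_apply_of_notMem _ hx, Fb_apply_of_notMem _ (by rwa [map_mul, h])]

namespace Def

variable [MulAction G W] [Group K] [Fintype K] (D : Def π W K)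

variable (I) in
/-- Averaging over the finite subgroup attached to a wall. -/
def A (e : W) : L2 (Γ × I) →L[ℂ] L2 (Γ × I) := (Fintype.card K : ℂ)⁻¹ • ∑ k, R (D.s e k)

theorem A_def (e : W) (ζ : L2 (Γ × I)) :
    D.A I e ζ = (Fintype.card K : ℂ)⁻¹ • ∑ k, R (D.s e k) ζ := by
  simp [A]

theorem comm_A (e e' : W) (T : L2 (Γ × I) →L[ℂ] L2 (Γ × I))
    (h : ∀ k ζ, T (R (D.s e k) ζ) = R (D.s e' k) (T ζ)) (ζ : L2 (Γ × I)) :
    T (D.A I e ζ) = D.A I e' (T ζ) := by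
  simp only [A_def, map_smul, map_sum, h]

theorem R_A (x : Γ) (e : W) (ζ : L2 (Γ × I)) : R x (D.A I e ζ) = D.A I (π x • e) (R x ζ) :=
  D.comm_A _ _ _ (fun k ζ => by rw [R_R, R_R, D.conj]) ζ

theorem A_comm (e e' : W) (ζ : L2 (Γ × I)) : D.A I e (D.A I e' ζ) = D.A I e' (D.A I e ζ) :=
  D.comm_A _ _ _ (fun k ζ => by rw [R_A, D.π_s, one_smul]) ζ

theorem Fb_A (A : Set (G × I)) (e : W) (ζ : L2 (Γ × I)) :
    Fb π A (D.A I e ζ) = D.A I e (Fb π A ζ) :=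
  D.comm_A _ _ _ (fun k ζ => (R_Fb _ (fun g c => by rw [D.π_s, mul_one]) ζ).symm) ζ

theorem A_mem {X : Submodule ℂ (L2 (Γ × I))} (hX : Inv X) (e : W) {ζ : L2 (Γ × I)} (h : ζ ∈ X) :
    D.A I e ζ ∈ X := by
  rw [A_def]
  exact X.smul_mem _ (X.sum_mem fun k _ => hX _ _ h)

theorem inner_A (e : W) (u v : L2 (Γ × I)) : ⟪u, D.A I e v⟫_ℂ = ⟪D.A I e u, v⟫_ℂ := by
  rw [A_def, A_def, inner_smul_right, inner_smul_left, inner_sum, sum_inner]
  congr 1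
  · simp
  · refine Fintype.sum_equiv (Equiv.inv K) _ _ fun k => ?_
    rw [inner_R, Equiv.inv_apply, map_inv]

theorem A_A (e : W) (ζ : L2 (Γ × I)) : D.A I e (D.A I e ζ) = D.A I e ζ := by
  have h : ∀ k, R (D.s e k) (D.A I e ζ) = D.A I e ζ := by
    intro k
    rw [A_def, map_smul, map_sum]
    congr 1
    refine Fintype.sum_equiv (Equiv.mulLeft k) _ _ fun k' => ?_
    rw [R_R, Equiv.coe_mulLeft, map_mul]
  rw [A_def D e (D.A I e ζ), Finset.sum_congr rfl fun k _ => h k, Finset.sum_const,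
    Finset.card_univ, ← Nat.cast_smul_eq_nsmul ℂ, smul_smul, inv_mul_cancel₀, one_smul]
  exact Nat.cast_ne_zero.2 Fintype.card_ne_zero

variable (I) in
/-- The reflection attached to a wall. -/
def U (e : W) : L2 (Γ × I) →L[ℂ] L2 (Γ × I) := 1 - (2 : ℂ) • D.A I e

theorem U_def (e : W) (ζ : L2 (Γ × I)) : D.U I e ζ = ζ - (2 : ℂ) • D.A I e ζ := rfl

theorem U_mul_U (e : W) : D.U I e * D.U I e = 1 := by
  ext1 ζ
  change D.U I e (D.U I e ζ) = ζ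
  rw [U_def, U_def, map_sub, map_smul, A_A]
  module

theorem U_commute (e e' : W) : Commute (D.U I e) (D.U I e') := by
  ext1 ζ
  change D.U I e (D.U I e' ζ) = D.U I e' (D.U I e ζ)
  simp only [U_def, map_sub, map_smul]
  rw [D.A_comm e e']
  module

theorem norm_U (e : W) (ζ : L2 (Γ × I)) : ‖D.U I e ζ‖ = ‖ζ‖ := by
  have h1 : ∀ u v : L2 (Γ × I), ⟪u, D.U I e v⟫_ℂ = ⟪D.U I e u, v⟫_ℂ := by
    intro u v
    rw [U_def, U_def, inner_sub_right, inner_sub_left, inner_smul_right, inner_smul_left, inner_A]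
    simp [map_ofNat]
  have h2 : D.U I e (D.U I e ζ) = ζ := congrArg (fun T : L2 (Γ × I) →L[ℂ] _ => T ζ) (D.U_mul_U e)
  have h3 := congrArg Complex.re (h1 (D.U I e ζ) ζ)
  rw [h2, re_inner_self, re_inner_self] at h3
  exact (pow_left_inj₀ (norm_nonneg _) (norm_nonneg _) two_ne_zero).1 h3

variable (I) in
/-- The product of the reflections attached to a finite set of walls. -/
def Bp (S : Finset W) : L2 (Γ × I) →L[ℂ] L2 (Γ × I) :=
  S.noncommProd (D.U I) fun a _ b _ _ => D.U_commute a b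

theorem Bp_empty : D.Bp I ∅ = 1 := rfl

theorem Bp_insert [DecidableEq W] {S : Finset W} {e : W} (h : e ∉ S) :
    D.Bp I (insert e S) = D.U I e * D.Bp I S :=
  Finset.noncommProd_insert_of_notMem _ _ _ _ h

theorem Bp_insert_apply [DecidableEq W] {S : Finset W} {e : W} (h : e ∉ S) (ζ : L2 (Γ × I)) :
    D.Bp I (insert e S) ζ = D.U I e (D.Bp I S ζ) := by
  rw [D.Bp_insert h]
  rfl

theorem Bp_mul_Bp (S : Finset W) : ∀ S' S'' : Finset W, (∀ e, e ∈ S'' ↔ ¬ (e ∈ S ↔ e ∈ S')) →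
    D.Bp I S * D.Bp I S' = D.Bp I S'' := by
  classical
  induction S using Finset.induction_on with
  | empty =>
    intro S' S'' h
    rw [Bp_empty, one_mul]
    congr 1
    ext e
    simp [h]
  | insert a S ha ih =>
    intro S' S'' h
    rw [D.Bp_insert ha, mul_assoc]
    by_cases ha'' : a ∈ S''
    · rw [ih S' (S''.erase a), ← D.Bp_insert (Finset.notMem_erase a S''), Finset.insert_erase ha'']
      intro e
      have h1 := h e
      by_cases he : e = a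
      · subst he
        simp only [Finset.mem_insert, true_or] at h1
        simp only [Finset.notMem_erase]
        tauto
      · simpa [he] using h1
    · rw [ih S' (insert a S''), D.Bp_insert ha'', ← mul_assoc, U_mul_U, one_mul]
      intro e
      have h1 := h e
      by_cases he : e = a
      · subst he
        simp only [Finset.mem_insert, true_or] at h1 ⊢
        tauto
      · simpa [he] using h1

theorem norm_Bp (S : Finset W) (ζ : L2 (Γ × I)) : ‖D.Bp I S ζ‖ = ‖ζ‖ := by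
  classical
  induction S using Finset.induction_on with
  | empty => rfl
  | insert a S ha ih => rw [D.Bp_insert_apply ha, norm_U, ih]

theorem Bp_mem {X : Submodule ℂ (L2 (Γ × I))} (hX : Inv X) (S : Finset W) {ζ : L2 (Γ × I)}
    (h : ζ ∈ X) : D.Bp I S ζ ∈ X := by
  classical
  induction S using Finset.induction_on with
  | empty => exact h
  | insert a S ha ih =>
    rw [D.Bp_insert_apply ha, U_def]
    exact X.sub_mem ih (X.smul_mem _ (D.A_mem hX a ih))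

theorem Fb_Bp (A : Set (G × I)) (S : Finset W) (ζ : L2 (Γ × I)) :
    Fb π A (D.Bp I S ζ) = D.Bp I S (Fb π A ζ) := by
  classical
  induction S using Finset.induction_on with
  | empty => rfl
  | insert a S ha ih =>
    rw [D.Bp_insert_apply ha, D.Bp_insert_apply ha, U_def, U_def, map_sub, map_smul, Fb_A, ih]

theorem A_Bp (e : W) (S : Finset W) (ζ : L2 (Γ × I)) :
    D.A I e (D.Bp I S ζ) = D.Bp I S (D.A I e ζ) := by
  classical
  induction S using Finset.induction_on with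
  | empty => rfl
  | insert a S ha ih =>
    rw [D.Bp_insert_apply ha, D.Bp_insert_apply ha, U_def, U_def, map_sub, map_smul, A_comm, ih]

theorem R_Bp (x : Γ) (S S' : Finset W) (h : ∀ e, π x • e ∈ S' ↔ e ∈ S) (ζ : L2 (Γ × I)) :
    R x (D.Bp I S ζ) = D.Bp I S' (R x ζ) := by
  classical
  have h1 : S' = S.image (π x • ·) := by
    ext e
    rw [Finset.mem_image]
    refine ⟨fun he => ⟨(π x)⁻¹ • e, ?_, smul_inv_smul _ _⟩, ?_⟩
    · rwa [← h, smul_inv_smul]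
    · rintro ⟨a, ha, rfl⟩
      exact (h a).2 ha
  rw [h1]
  clear h h1
  induction S using Finset.induction_on with
  | empty => rfl
  | insert a S ha ih =>
    have : π x • a ∉ S.image (π x • ·) := by simpa using ha
    rw [Finset.image_insert, D.Bp_insert_apply ha, D.Bp_insert_apply this, U_def, U_def, map_sub,
      map_smul, R_A, ih]

theorem Bp_congr {A : Set (G × I)} (S : Finset W) {ζ η : L2 (Γ × I)} (h : Fb π A ζ = Fb π A η)
    {x : Γ} {c : I} (hx : (π x, c) ∈ A) : D.Bp I S ζ (x, c) = D.Bp I S η (x, c) := by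
  rw [← Fb_apply_of_mem _ hx, Fb_Bp, h, ← Fb_Bp, Fb_apply_of_mem _ hx]

variable {V : Type*} [MulAction G V] (𝒲 : Walls G V W) (v₀ : V)

variable (I) in
/-- The deformation, as a linear isometry. -/
def Ji : L2 (Γ × I) →ₗᵢ[ℂ] L2 (Γ × I) :=
  blockOp (fun i => π i.1) (fun g => D.Bp I (𝒲.S v₀ (g⁻¹ • v₀))) fun g ζ => by
    have := D.Fb_Bp (Prod.fst ⁻¹' {g}) (𝒲.S v₀ (g⁻¹ • v₀)) ζ
    exact (congrArg norm this).trans (D.norm_Bp _ _)

variable (I) in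
/-- The deformation. -/
def J : L2 (Γ × I) →L[ℂ] L2 (Γ × I) := (D.Ji I 𝒲 v₀).toContinuousLinearMap

theorem J_apply (ζ : L2 (Γ × I)) (x : Γ) (c : I) :
    D.J I 𝒲 v₀ ζ (x, c) = D.Bp I (𝒲.S v₀ ((π x)⁻¹ • v₀)) ζ (x, c) := rfl

theorem norm_J (ζ : L2 (Γ × I)) : ‖D.J I 𝒲 v₀ ζ‖ = ‖ζ‖ := (D.Ji I 𝒲 v₀).norm_map ζ

theorem Fb_J (A : Set (G × I)) (ζ : L2 (Γ × I)) :
    Fb π A (D.J I 𝒲 v₀ ζ) = D.J I 𝒲 v₀ (Fb π A ζ) := by
  ext ⟨x, c⟩
  rw [J_apply, ← Fb_Bp]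
  by_cases hx : (π x, c) ∈ A
  · rw [Fb_apply_of_mem _ hx, Fb_apply_of_mem _ hx, J_apply]
  · rw [Fb_apply_of_notMem _ hx, Fb_apply_of_notMem _ hx]

theorem Fb_J_eq (g : G) (ζ : L2 (Γ × I)) : Fb π (Prod.fst ⁻¹' {g}) (D.J I 𝒲 v₀ ζ) =
    Fb π (Prod.fst ⁻¹' {g}) (D.Bp I (𝒲.S v₀ (g⁻¹ • v₀)) ζ) := by
  ext ⟨x, c⟩
  by_cases hx : (π x, c) ∈ (Prod.fst ⁻¹' {g} : Set (G × I))
  · rw [Fb_apply_of_mem _ hx, Fb_apply_of_mem _ hx, J_apply, show π x = g from hx]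
  · rw [Fb_apply_of_notMem _ hx, Fb_apply_of_notMem _ hx]

theorem J_R (x : Γ) (ζ : L2 (Γ × I)) :
    D.J I 𝒲 v₀ (R x ζ) = D.Bp I (𝒲.S v₀ (π x • v₀)) (R x (D.J I 𝒲 v₀ ζ)) := by
  ext ⟨y, c⟩
  have h1 : ∀ η : L2 (Γ × I), R x (Fb π (Prod.fst ⁻¹' {π y * π x}) η) =
      Fb π (Prod.fst ⁻¹' {π y}) (R x η) := fun η => R_Fb x (fun g c => by simp) η
  have h2 : Fb π (Prod.fst ⁻¹' {π y}) (R x (D.J I 𝒲 v₀ ζ)) = Fb π (Prod.fst ⁻¹' {π y})
      (D.Bp I (𝒲.S (π x • v₀) ((π y)⁻¹ • v₀)) (R x ζ)) := by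
    rw [← h1, Fb_J_eq, h1, D.R_Bp x _ (𝒲.S (π x • v₀) ((π y)⁻¹ • v₀))]
    intro e
    rw [← 𝒲.S_smul (π x) e, mul_inv_rev, mul_smul, smul_inv_smul]
  rw [J_apply, D.Bp_congr _ h2 rfl,
    ← D.Bp_mul_Bp _ _ _ fun e => 𝒲.S_tri e v₀ (π x • v₀) ((π y)⁻¹ • v₀)]
  rfl

theorem J_J (ζ : L2 (Γ × I)) : D.J I 𝒲 v₀ (D.J I 𝒲 v₀ ζ) = ζ := by
  ext ⟨x, c⟩
  rw [J_apply, D.Bp_congr _ (D.Fb_J_eq 𝒲 v₀ (π x) ζ) rfl]
  have := D.Bp_mul_Bp (I := I) (𝒲.S v₀ ((π x)⁻¹ • v₀)) (𝒲.S v₀ ((π x)⁻¹ • v₀)) ∅ (by simp)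
  exact congrArg (fun T : L2 (Γ × I) →L[ℂ] L2 (Γ × I) => T ζ (x, c)) this

theorem inner_J (u v : L2 (Γ × I)) : ⟪u, D.J I 𝒲 v₀ v⟫_ℂ = ⟪D.J I 𝒲 v₀ u, v⟫_ℂ := by
  conv_lhs => rw [← D.J_J 𝒲 v₀ u]
  exact (D.Ji I 𝒲 v₀).inner_map_map _ _

theorem J_of_fibre {g : G} {ζ : L2 (Γ × I)} (h : Fb π (Prod.fst ⁻¹' {g}) ζ = ζ) :
    D.J I 𝒲 v₀ ζ = D.Bp I (𝒲.S v₀ (g⁻¹ • v₀)) ζ := by
  conv_lhs => rw [← h, ← Fb_J, Fb_J_eq, Fb_Bp, h]

theorem J_delta (c : I) : D.J I 𝒲 v₀ (delta (1, c)) = delta (1, c) := by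
  have h : 𝒲.S v₀ ((1 : G)⁻¹ • v₀) = ∅ := by
    ext e
    simpa using 𝒲.notMem_S_self e v₀
  rw [D.J_of_fibre 𝒲 v₀ (g := 1) (res_delta_of_mem (by simp)), h]
  rfl

/-- The image of a subspace under the deformation. -/
def Jm (X : Submodule ℂ (L2 (Γ × I))) : Submodule ℂ (L2 (Γ × I)) :=
  X.comap (D.J I 𝒲 v₀ : L2 (Γ × I) →ₗ[ℂ] L2 (Γ × I))

theorem mem_Jm {X : Submodule ℂ (L2 (Γ × I))} {ζ : L2 (Γ × I)} :
    ζ ∈ D.Jm 𝒲 v₀ X ↔ D.J I 𝒲 v₀ ζ ∈ X := Iff.rfl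

theorem isClosed_Jm {X : Submodule ℂ (L2 (Γ × I))} (h : IsClosed (X : Set (L2 (Γ × I)))) :
    IsClosed (D.Jm 𝒲 v₀ X : Set (L2 (Γ × I))) := h.preimage (D.J I 𝒲 v₀).continuous

theorem inv_Jm {X : Submodule ℂ (L2 (Γ × I))} (h : Inv X) : Inv (D.Jm 𝒲 v₀ X) := by
  intro x ζ hζ
  rw [mem_Jm, J_R]
  exact D.Bp_mem h _ (h x _ hζ)

theorem loc_Jm {E : Type*} (A : E → Set (G × I)) {X : Submodule ℂ (L2 (Γ × I))}
    (h : Loc (fun ε => Fb π (A ε)) X) : Loc (fun ε => Fb π (A ε)) (D.Jm 𝒲 v₀ X) :=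
  ⟨D.isClosed_Jm 𝒲 v₀ h.closed, D.inv_Jm 𝒲 v₀ h.inv, fun ε ζ hζ => by
    rw [mem_Jm, ← Fb_J]
    exact h.stable ε _ hζ⟩

theorem dim_Jm [Fintype I] (X : Submodule ℂ (L2 (Γ × I))) : dim (D.Jm 𝒲 v₀ X) = dim X := by
  refine Finset.sum_congr rfl fun c _ => ?_
  have h := proj_comm (X := D.Jm 𝒲 v₀ X) (Y := X) (D.J I 𝒲 v₀) (D.J I 𝒲 v₀) (D.inner_J 𝒲 v₀)
    (fun v hv => X.le_orthogonal_orthogonal hv)
    (fun v hv => Submodule.le_orthogonal_orthogonal _ (by rwa [mem_Jm, J_J])) (delta (1, c))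
  rw [J_delta] at h
  rw [pn, pn, h, norm_J]

end Def

end Pool.Agent.P.MP_0f25e6_al.TT
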