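import Pool.Agent.P.MP_0f25e6_al.TT8

/-!
Solution spaces of finitely many convolution relations are almost preserved by the deformation.
-/

set_option autoImplicit false

open scoped InnerProductSpace ENNReal Topology
open Filter

noncomputable section

namespace Pool.Agent.P.MP_0f25e6_al.TT

variable {G Γ I W K : Type*} [Group G] [Group Γ]

theorem L2_sum_apply {X ι : Type*} (s : Finset ι) (f : ι → L2 X) (i : X) :
    (∑ k ∈ s, f k) i = ∑ k ∈ s, f k i := by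
  simp only [← inner_delta_left, inner_sum]

/-- The functional given by a relation, evaluated at `x`. -/
def rel (ρ : G × I →₀ ℂ) (x : G) : L2 (G × I) →L[ℂ] ℂ :=
  ∑ i ∈ ρ.support, ρ i • innerSL ℂ (delta (i.1 * x, i.2))

theorem rel_apply (ρ : G × I →₀ ℂ) (x : G) (ζ : L2 (G × I)) :
    rel ρ x ζ = ∑ i ∈ ρ.support, ρ i * ζ (i.1 * x, i.2) := by
  simp [rel, inner_delta_left]

/-- The space of solutions of a set of relations. -/
def Sol (𝓡 : Set (G × I →₀ ℂ)) : Submodule ℂ (L2 (G × I)) := ⨅ ρ : 𝓡, ⨅ x : G, (rel ρ.1 x).ker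

theorem mem_Sol {𝓡 : Set (G × I →₀ ℂ)} {ζ : L2 (G × I)} :
    ζ ∈ Sol 𝓡 ↔ ∀ ρ ∈ 𝓡, ∀ x : G, ∑ i ∈ ρ.support, ρ i * ζ (i.1 * x, i.2) = 0 := by
  simp [Sol, rel_apply]

theorem isClosed_Sol (𝓡 : Set (G × I →₀ ℂ)) : IsClosed (Sol 𝓡 : Set (L2 (G × I))) := by
  simp only [Sol, Submodule.coe_iInf]
  exact isClosed_iInter fun ρ => isClosed_iInter fun x => (rel ρ.1 x).isClosed_ker

theorem inv_Sol (𝓡 : Set (G × I →₀ ℂ)) : Inv (Sol 𝓡) := by
  intro y ζ hζ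
  rw [mem_Sol] at hζ ⊢
  intro ρ hρ x
  simpa [mul_assoc] using hζ ρ hρ (x * y)

theorem res_mem_Sol {𝓡 : Set (G × I →₀ ℂ)} {A : Set (G × I)}
    (h : ∀ ρ ∈ 𝓡, ∀ x : G, ∀ i ∈ ρ.support, ∀ j ∈ ρ.support,
      (i.1 * x, i.2) ∈ A → (j.1 * x, j.2) ∈ A)
    {ζ : L2 (G × I)} (hζ : ζ ∈ Sol 𝓡) : res A ζ ∈ Sol 𝓡 := by
  rw [mem_Sol] at hζ ⊢
  intro ρ hρ x
  by_cases hex : ∃ i ∈ ρ.support, (i.1 * x, i.2) ∈ A
  · obtain ⟨i, hi, hA⟩ := hex
    rw [← hζ ρ hρ x]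
    exact Finset.sum_congr rfl fun j hj => by rw [res_apply_of_mem _ (h ρ hρ x i hi j hj hA)]
  · push Not at hex
    exact Finset.sum_eq_zero fun j hj => by rw [res_apply_of_notMem _ (hex j hj), mul_zero]

theorem mem_Ind_Sol {σ : G →* Γ} {hσ : Function.Injective σ} {𝓡 : Set (G × I →₀ ℂ)}
    {ζ : L2 (Γ × I)} : ζ ∈ Ind σ hσ (Sol 𝓡) ↔
      ∀ ρ ∈ 𝓡, ∀ y : Γ, ∑ i ∈ ρ.support, ρ i * ζ (σ i.1 * y, i.2) = 0 := by
  simp only [mem_Ind, mem_Sol, pull_apply, R_apply, map_mul, mul_assoc]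
  exact ⟨fun h ρ hρ y => by simpa using h y ρ hρ 1, fun h y ρ hρ x => h ρ hρ _⟩

theorem dim_inf_orth_ge [Fintype I] {X Y : Submodule ℂ (L2 (Γ × I))}
    (hXc : IsClosed (X : Set (L2 (Γ × I)))) (hX : Inv X) (hY : Inv Y) :
    dim X - dim Y ≤ dim (X ⊓ Yᗮ) := by
  have h1 := dim_sup_add_dim_inf hXc (Submodule.isClosed_orthogonal Y) hX hY.orth
  linarith [dim_add_dim_orth Y, dim_le_card (X ⊔ Yᗮ)]

namespace Def

variable {π : Γ →* G} [MulAction G W] [Group K] [Fintype K] (D : Def π W K)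

/-- The subspace generated by the indicator function of the subgroup attached to a wall. -/
def Yc (c : I) (e : W) : Submodule ℂ (L2 (Γ × I)) :=
  Submodule.span ℂ (Set.range fun x : Γ => R x (∑ k, delta (D.s e k, c)))

theorem inv_Yc (c : I) (e : W) : Inv (D.Yc c e) := by
  intro y ζ hζ
  have : D.Yc c e ≤ (D.Yc c e).comap (R (I := I) y).toLinearMap := by
    refine Submodule.span_le.2 ?_
    rintro _ ⟨x, rfl⟩
    exact Submodule.subset_span ⟨y * x, (R_R _ _ _).symm⟩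
  exact this hζ

theorem mem_Yc_orth {c : I} {e : W} {ζ : L2 (Γ × I)} :
    ζ ∈ (D.Yc c e)ᗮ ↔ ∀ x : Γ, ∑ k, ζ (D.s e k * x, c) = 0 := by
  have key : ∀ x : Γ, ⟪R x⁻¹ (∑ k, delta (D.s e k, c)), ζ⟫_ℂ = ∑ k, ζ (D.s e k * x, c) := by
    intro x
    rw [← inner_R, sum_inner]
    simp [inner_delta_left]
  constructor
  · intro h x
    rw [← key]
    exact Submodule.inner_right_of_mem_orthogonal (K := D.Yc c e)
      (Submodule.subset_span ⟨x⁻¹, rfl⟩) h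
  · intro h
    rw [Submodule.mem_orthogonal]
    intro u hu
    have : D.Yc c e ≤ (innerSL ℂ ζ).ker := by
      refine Submodule.span_le.2 ?_
      rintro _ ⟨x, rfl⟩
      have h1 := key x⁻¹
      rw [inv_inv, h] at h1
      exact inner_eq_zero_symm.1 h1
    exact inner_eq_zero_symm.1 (this hu)

omit [Fintype K] in
theorem s_injective (e : W) : Function.Injective (D.s e) :=
  (injective_iff_map_eq_one _).2 (D.inj e)

theorem dim_Yc [Fintype I] (c : I) (e : W) : dim (D.Yc c e) ≤ (Fintype.card K : ℝ)⁻¹ := by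
  classical
  have hm : (0 : ℝ) < Fintype.card K := Nat.cast_pos.2 Fintype.card_pos
  rw [dim, Finset.sum_eq_single c]
  · have h1 : ∀ k, proj (D.Yc c e) (delta (D.s e k, c)) = proj (D.Yc c e) (delta (1, c)) := by
      intro k
      rw [← sub_eq_zero, ← map_sub]
      refine proj_of_mem_orth (D.mem_Yc_orth.2 fun x => ?_)
      simp only [lp.coeFn_sub, Pi.sub_apply, Finset.sum_sub_distrib, sub_eq_zero, delta_apply,
        Prod.mk.injEq, and_true]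
      symm
      refine Fintype.sum_equiv (Equiv.mulLeft k) _ _ fun k' => ?_
      simp [mul_assoc]
    have h2 : proj (D.Yc c e) (∑ k, delta (D.s e k, c)) =
        (Fintype.card K : ℂ) • proj (D.Yc c e) (delta (1, c)) := by
      rw [map_sum, Finset.sum_congr rfl fun k _ => h1 k, Finset.sum_const, Finset.card_univ,
        Nat.cast_smul_eq_nsmul]
    have h3 : ‖∑ k, delta (D.s e k, c)‖ ^ 2 = Fintype.card K := by
      rw [← re_inner_self, sum_inner]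
      simp only [inner_delta_left, L2_sum_apply]
      simp [delta_apply, (D.s_injective e).eq_iff]
    have h4 := pn_le (D.Yc c e) (∑ k, delta (D.s e k, c))
    rw [pn, h2, h3, norm_smul, mul_pow, Complex.norm_natCast] at h4
    rw [pn, ← mul_le_mul_iff_right₀ (pow_pos hm 2)]
    refine h4.trans (le_of_eq ?_)
    field_simp
  · intro c' _ hc'
    refine pn_eq_zero_iff.2 (D.mem_Yc_orth.2 fun x => ?_)
    simp [delta_apply, hc'.symm]
  · simp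

theorem exists_big [Fintype I] (C : Finset (I × W)) {X : Submodule ℂ (L2 (Γ × I))}
    (hXc : IsClosed (X : Set (L2 (Γ × I)))) (hX : Inv X) :
    ∃ X' ≤ X, IsClosed (X' : Set (L2 (Γ × I))) ∧ Inv X' ∧
      dim X - C.card * (Fintype.card K : ℝ)⁻¹ ≤ dim X' ∧ ∀ p ∈ C, X' ≤ (D.Yc p.1 p.2)ᗮ := by
  classical
  induction C using Finset.induction_on with
  | empty => exact ⟨X, le_rfl, hXc, hX, by simp, by simp⟩
  | insert p C hp ih =>
    obtain ⟨X', h1, h2, h3, h4, h5⟩ := ih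
    refine ⟨X' ⊓ (D.Yc p.1 p.2)ᗮ, inf_le_left.trans h1,
      h2.inter (Submodule.isClosed_orthogonal _), h3.inf (D.inv_Yc _ _).orth, ?_, ?_⟩
    · have := dim_inf_orth_ge h2 h3 (D.inv_Yc p.1 p.2)
      rw [Finset.card_insert_of_notMem hp]
      push_cast
      linarith [D.dim_Yc p.1 p.2]
    · intro q hq
      rcases Finset.mem_insert.1 hq with rfl | hq
      · exact inf_le_right
      · exact inf_le_left.trans (h5 q hq)

theorem Fb_Bp_eq {g : G} {c : I} {ζ : L2 (Γ × I)} (T : Finset W)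
    (h : ∀ e ∈ T, ζ ∈ (D.Yc c (g • e))ᗮ) :
    Fb π {(g, c)} (D.Bp I T ζ) = Fb π {(g, c)} ζ := by
  classical
  induction T using Finset.induction_on with
  | empty => rfl
  | insert a T ha ih =>
    have h1 : Fb π {(g, c)} (D.A I a ζ) = 0 := by
      ext ⟨x, d⟩
      by_cases hx : (π x, d) ∈ ({(g, c)} : Set (G × I))
      · obtain ⟨rfl, rfl⟩ := Prod.mk.inj (Set.mem_singleton_iff.1 hx)
        have h2 := D.mem_Yc_orth.1 (h a (Finset.mem_insert_self _ _)) x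
        rw [Fb_apply_of_mem _ hx, A_def, lp.coeFn_smul, Pi.smul_apply, L2_sum_apply]
        simp [D.conj, h2]
      · rw [Fb_apply_of_notMem _ hx]
        rfl
    rw [D.Bp_insert_apply ha, U_def, map_sub, map_smul, Fb_A,
      ih fun e he => h e (Finset.mem_insert_of_mem he), ← Fb_A, h1, smul_zero, sub_zero]

variable {V : Type*} [MulAction G V] (𝒲 : Walls G V W) (v₀ : V)
  {σ : G →* Γ} {hσ : Function.Injective σ}

theorem J_mem_Ind_Sol (hπσ : ∀ g, π (σ g) = g) {𝓡 : Set (G × I →₀ ℂ)} {ζ : L2 (Γ × I)}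
    (hζ : ζ ∈ Ind σ hσ (Sol 𝓡))
    (h : ∀ ρ ∈ 𝓡, ∀ i ∈ ρ.support, ∀ e ∈ 𝒲.S (i.1 • v₀) v₀, ζ ∈ (D.Yc i.2 e)ᗮ) :
    D.J I 𝒲 v₀ ζ ∈ Ind σ hσ (Sol 𝓡) := by
  rw [mem_Ind_Sol]
  intro ρ hρ y
  rw [← mem_Ind_Sol.1 (D.Bp_mem (inv_Ind _) (𝒲.S v₀ ((π y)⁻¹ • v₀)) hζ) ρ hρ y]
  refine Finset.sum_congr rfl fun i hi => ?_
  have h1 := D.Fb_Bp_eq (g := π (σ i.1 * y)) (c := i.2) (ζ := ζ)
    (𝒲.S ((π y)⁻¹ • v₀) ((π (σ i.1 * y))⁻¹ • v₀)) fun e he => h ρ hρ i hi _ (by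
      rw [← 𝒲.S_smul (π (σ i.1 * y)), smul_inv_smul, map_mul, hπσ, mul_smul _ _ (_ • v₀),
        smul_inv_smul] at he
      rwa [map_mul, hπσ])
  rw [J_apply, ← D.Bp_mul_Bp _ _ _ fun e => 𝒲.S_tri e v₀ ((π y)⁻¹ • v₀) ((π (σ i.1 * y))⁻¹ • v₀),
    ← D.Bp_congr _ h1 rfl]
  rfl

theorem dim_inf_Jm_ge [Fintype I] (hπσ : ∀ g, π (σ g) = g) {𝓡 : Set (G × I →₀ ℂ)}
    (C : Finset (I × W)) (hC : ∀ ρ ∈ 𝓡, ∀ i ∈ ρ.support, ∀ e ∈ 𝒲.S (i.1 • v₀) v₀, (i.2, e) ∈ C)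
    {X Y : Submodule ℂ (L2 (Γ × I))} (hXc : IsClosed (X : Set (L2 (Γ × I)))) (hX : Inv X)
    (hXF : X ≤ Ind σ hσ (Sol 𝓡)) (hY : ∀ ζ ∈ X, D.J I 𝒲 v₀ ζ ∈ Ind σ hσ (Sol 𝓡) → ζ ∈ Y) :
    dim X - C.card * (Fintype.card K : ℝ)⁻¹ ≤ dim Y := by
  obtain ⟨X', h1, -, -, h4, h5⟩ := D.exists_big C hXc hX
  refine h4.trans (dim_mono' fun ζ hζ => hY ζ (h1 hζ) ?_)
  exact D.J_mem_Ind_Sol 𝒲 v₀ hπσ (hXF (h1 hζ)) fun ρ hρ i hi e he => h5 _ (hC ρ hρ i hi e he) hζ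

end Def

end Pool.Agent.P.MP_0f25e6_al.TT
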