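import Pool.Agent.P.MP_0f25e6_al.Tree
import Pool.Agent.P.MP_0f25e6_al.Ordered

/-!
A combination theorem for the analytic zero divisor property, for groups acting on trees.
-/

set_option autoImplicit false

namespace Pool.Agent.P.MP_0f25e6_al.VarTreeCombination

/-- The statement of Q1 for one group `G`: a nonzero finitely supported `α` and a nonzero
square-summable `f` have nonzero convolution. -/
def AnalyticZD (G : Type*) [Group G] : Prop :=
  ∀ (α : G →₀ ℂ) (f : G → ℂ), α ≠ 0 → Memℓp f 2 → f ≠ 0 →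
    ∃ g : G, ∑ k ∈ α.support, α k * f (k⁻¹ * g) ≠ 0

open Pool.Agent.P.MP_0f25e6_al in
/-- Let `G` act on a tree and let `φ` be a homomorphism from `G` to a left-ordered group whose
kernel acts freely on the unoriented edges. If the property holds for the stabiliser in the kernel
of every vertex, it holds for `G`. -/
theorem result {G V L : Type*} [Group G] [MulAction G V] (T : SimpleGraph V) (hT : T.IsTree)
    (hadj : ∀ (g : G) (u v : V), T.Adj u v → T.Adj (g • u) (g • v))
    [Group L] [LinearOrder L] [MulLeftStrictMono L] (φ : G →* L)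
    (hedge : ∀ g : G, φ g = 1 → ∀ u v : V, T.Adj u v → s(g • u, g • v) = s(u, v) → g = 1)
    (hvert : ∀ v : V, AnalyticZD ↥(φ.ker ⊓ MulAction.stabilizer G v)) :
    AnalyticZD G := by
  have hker : ∀ α : φ.ker →₀ ℂ, α ≠ 0 → Inj α := by
    refine tree_inj' (G := φ.ker) hT (fun g u v h => hadj g u v h)
      (fun g u v h he => Subtype.ext (hedge g g.2 u v h he)) ?_
    intro v α hα hs
    obtain ⟨s₀, hs₀⟩ := Finsupp.support_nonempty_iff.2 hα
    refine inj_of_subgroup (Subgroup.inclusion inf_le_left)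
      (Subgroup.inclusion_injective _) (hvert v) α hα s₀ (fun s hs' => ?_)
    refine ⟨⟨(s₀⁻¹ * s : φ.ker), (s₀⁻¹ * s).2, ?_⟩, rfl⟩
    change (s₀⁻¹ * s) • v = v
    rw [mul_smul, hs s hs' s₀ hs₀, inv_smul_smul]
  refine azd_of_inj (inj_of_ordered φ ?_)
  intro α hα hs
  obtain ⟨s₀, hs₀⟩ := Finsupp.support_nonempty_iff.2 hα
  refine inj_of_subgroup φ.ker.subtype φ.ker.subtype_injective (azd_of_inj hker) α hα s₀
    (fun s hs' => ⟨⟨s₀⁻¹ * s, ?_⟩, rfl⟩)
  rw [MonoidHom.mem_ker, map_mul, map_inv, hs s hs' s₀ hs₀, inv_mul_cancel]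

end Pool.Agent.P.MP_0f25e6_al.VarTreeCombination
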