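import Pool.Agent.P.MP_0f25e6_al.HN8

/-!
The strong Atiyah conjecture and the analytic zero divisor conjecture for groups acting on
products of locally finite trees.
-/

set_option autoImplicit false

namespace Pool.Agent.P.MP_0f25e6_al.VarTreeProducts

universe u

/-- The statement of Q1 for one group `G`: a nonzero finitely supported `α` and a nonzero
square-summable `f` have nonzero convolution. -/
def AnalyticZD (G : Type u) [Group G] : Prop :=
  ∀ (α : G →₀ ℂ) (f : G → ℂ), α ≠ 0 → Memℓp f 2 → f ≠ 0 →
    ∃ g : G, ∑ k ∈ α.support, α k * f (k⁻¹ * g) ≠ 0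

/-- The kernel of an `m × n` matrix `A` over the complex group ring, acting by left convolution
on the square-summable functions on `G × Fin n`. -/
def matKer {G : Type u} [Group G] {m n : ℕ} (A : Fin m → Fin n → G →₀ ℂ) :
    Set (G × Fin n → ℂ) :=
  {f | Memℓp f 2 ∧ ∀ (g : G) (i : Fin m),
    ∑ j : Fin n, ∑ k ∈ (A i j).support, A i j k * f (k⁻¹ * g, j) = 0}

/-- `p` is the orthogonal projection onto `W` of the basis vector at `x`: it lies in `W`, and has
the same inner product as the basis vector with every element of `W`. -/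
def IsProjBasis {X : Type u} (W : Set (X → ℂ)) (x : X) (p : X → ℂ) : Prop :=
  p ∈ W ∧ ∀ w ∈ W, ∑' y, starRingEnd ℂ (w y) * p y = starRingEnd ℂ (w x)

/-- The strong Atiyah conjecture over `ℂ` in its form for torsion-free groups: the kernel of
every matrix over the complex group ring has integer von Neumann dimension, the dimension being
the sum of the diagonal entries at `(1, j)` of the orthogonal projection onto the kernel. -/
def StrongAtiyah (G : Type u) [Group G] : Prop :=
  ∀ (m n : ℕ) (A : Fin m → Fin n → G →₀ ℂ), ∃ (p : Fin n → G × Fin n → ℂ) (d : ℕ),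
    (∀ j, IsProjBasis (matKer A) (1, j) (p j)) ∧ ∑ j, p j (1, j) = d

open Pool.Agent.P.MP_0f25e6_al Pool.Agent.P.MP_0f25e6_al.HN in
theorem strongAtiyah_iff (G : Type u) [Group G] : StrongAtiyah G ↔ SAC G := by
  constructor
  · intro hG
    refine MatSAC.sac (fun m n A W hW => ?_)
    obtain ⟨p, d, hp, hd⟩ := hG m n A
    have h1 : ∀ j, proj W (delta (1, j)) = ⟨p j, (hp j).1.1⟩ := fun j =>
      proj_delta_eq ((hW _).2 (hp j).1.2) (fun w hw => (hp j).2 w ⟨w.2, (hW w).1 hw⟩)
    refine ⟨d, Complex.ofReal_injective ?_⟩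
    rw [Complex.ofReal_sum, Complex.ofReal_natCast, ← hd]
    exact Finset.sum_congr rfl (fun j _ => by rw [← proj_delta_apply, h1])
  · intro hG m n A
    obtain ⟨W, hc, hW⟩ := exists_matKer A
    obtain ⟨d, hd⟩ := hG.mat m n A W hW
    refine ⟨fun j => proj W (delta (1, j)), d, fun j => ⟨⟨(proj W (delta (1, j))).2,
      (hW _).1 (cl_le le_rfl hc (proj_mem W _))⟩,
      fun w hw => proj_delta_spec W _ ⟨w, hw.1⟩ ((hW _).2 hw.2)⟩, ?_⟩
    rw [← Complex.ofReal_natCast, ← hd, Complex.ofReal_sum]
    exact Finset.sum_congr rfl (fun j _ => proj_delta_apply W _)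

open Pool.Agent.P.MP_0f25e6_al Pool.Agent.P.MP_0f25e6_al.HN in
/-- Let a torsion-free group `G` act by automorphisms on finitely many trees, every vertex
stabiliser having finite orbits on the neighbours of the vertex. If every subgroup that
stabilises a vertex or an unoriented edge in each of the trees is finite or satisfies the strong
Atiyah conjecture, then `G` satisfies the strong Atiyah conjecture and the analytic zero divisor
conjecture. -/
theorem result {G : Type u} [Group G] {n : ℕ} {V : Fin n → Type u} [∀ i, MulAction G (V i)]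
    (T : ∀ i, SimpleGraph (V i)) (hT : ∀ i, (T i).IsTree)
    (hadj : ∀ (i : Fin n) (g : G) (u v : V i), (T i).Adj u v → (T i).Adj (g • u) (g • v))
    (hlf : ∀ (i : Fin n) (u v : V i), (T i).Adj u v →
      {w : V i | ∃ g : G, g • u = u ∧ g • v = w}.Finite)
    (htf : ∀ (g : G) (k : ℕ), 0 < k → g ^ k = 1 → g = 1)
    (hstab : ∀ H : Subgroup G,
      (∀ i : Fin n, ∃ u v : V i, (u = v ∨ (T i).Adj u v) ∧
        ∀ h ∈ H, s(h • u, h • v) = s(u, v)) → Finite H ∨ StrongAtiyah H) :
    StrongAtiyah G ∧ AnalyticZD G := by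
  have hG : SAC G := by
    refine sac_of_trees n G V T hT hadj hlf (fun H hH => (hstab H hH).elim (fun hf => ?_)
      (strongAtiyah_iff H).1)
    have : Subsingleton H := ⟨fun a b => by
      have h1 : ∀ c : H, c = 1 := fun c => Subtype.ext (htf c (orderOf c) (orderOf_pos c) (by
        rw [← Subgroup.coe_pow, pow_orderOf_eq_one, Subgroup.coe_one]))
      rw [h1 a, h1 b]⟩
    exact sac_of_subsingleton
  exact ⟨(strongAtiyah_iff G).2 hG, azd_of_inj hG.inj⟩

end Pool.Agent.P.MP_0f25e6_al.VarTreeProducts
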